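import Mathlib
import Pool.Agent.Helper42.NT.Pair
import Pool.Agent.H42.Hull.Bridge
import Pool.Agent.H42.Hull.HullPath
import Pool.Agent.H42.Hull.Bracket

open scoped ContDiff Distributions Topology
open Set Function TopologicalSpace

namespace Pool.Agent.KRW

open Pool.Agent.Helper17 Pool.Agent.Helper42 Pool.Agent.H42.Hull

/-- The last `m` pairs of coordinates of a point of `ℝ^{2(m+k)}`. -/
noncomputable def lstPt (m k : ℕ) (p : Phase (m + k)) : Phase m :=
  WithLp.toLp 2 (fun i => p (Sum.map (fun j : Fin m => Fin.addNat j k)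
    (fun j : Fin m => Fin.addNat j k) i))

/-- The smooth maps `ℝ^{2N} → ℝ^{2M}`. -/
structure Sm (N M : ℕ) where
  fn : Phase N → Phase M
  smooth : ContDiff ℝ ∞ fn

/-- The compact subsets of `ℝ^{2N}`. -/
abbrev Cp (N : ℕ) : Type := Compacts (Phase N)

/-- `F = b` outside the compact set `K`. -/
def EqOff {N M : ℕ} (K : Cp N) (F b : Sm N M) : Prop := ∀ p ∉ K, F.fn p = b.fn p

/-- The smooth maps `ℝ^{2N} → ℝ^{2M}` which are equal to `b` outside a compact set and have the
property `P`. -/
structure MapSp {N M : ℕ} (b : Sm N M) (P : (Phase N → Phase M) → Prop) where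
  map : Sm N M
  eq_off : ∃ K : Cp N, EqOff K map b
  prop : P map.fn

/-- The maps in `MapSp b P` which are equal to `b` outside the compact set `K`. -/
structure MapSupp {N M : ℕ} (b : Sm N M) (P : (Phase N → Phase M) → Prop) (K : Cp N) where
  incl : MapSp b P
  off : EqOff K incl.map b

/-- The smooth maps `ℝ^{2N} → ℝ^{2M}` with support in `K`, a Fréchet space. -/
abbrev Dk (N M : ℕ) (K : Cp N) : Type := 𝓓_{K}(Phase N, Phase M)

/-- The topology of uniform convergence of all derivatives. -/
@[reducible] noncomputable def dkTop (N M : ℕ) (K : Cp N) : TopologicalSpace (Dk N M K) :=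
  inferInstance

lemma sub_smooth {N M : ℕ} (F b : Sm N M) : ContDiff ℝ ∞ (fun p => F.fn p - b.fn p) :=
  F.smooth.sub b.smooth

lemma sub_off {N M : ℕ} {K : Cp N} {F b : Sm N M} (h : EqOff K F b) :
    Set.EqOn (fun p => F.fn p - b.fn p) 0 (K : Set (Phase N))ᶜ := fun p hp => by
  have := h p hp
  simp [this]

/-- The difference to `b`. -/
noncomputable def MapSupp.disp {N M : ℕ} {b : Sm N M} {P : (Phase N → Phase M) → Prop}
    (K : Cp N) (F : MapSupp b P K) : Dk N M K :=
  ⟨fun p => F.incl.map.fn p - b.fn p, sub_smooth F.incl.map b, sub_off F.off⟩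

/-- The `C^∞` topology on the maps which are equal to `b` outside `K`: uniform convergence of all
derivatives. -/
noncomputable instance {N M : ℕ} (b : Sm N M) (P : (Phase N → Phase M) → Prop) (K : Cp N) :
    TopologicalSpace (MapSupp b P K) :=
  TopologicalSpace.induced (MapSupp.disp K) (dkTop N M K)

/-- The direct limit topology. -/
noncomputable instance {N M : ℕ} (b : Sm N M) (P : (Phase N → Phase M) → Prop) :
    TopologicalSpace (MapSp b P) :=
  ⨆ K : Cp N, TopologicalSpace.coinduced (MapSupp.incl (K := K)) inferInstance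

lemma exists_eqOff {N M : ℕ} (b : Sm N M) : ∃ K : Cp N, EqOff K b b := ⟨⊥, fun _ _ => rfl⟩

/-- The map `b` as a point of the space. -/
def MapSp.base {N M : ℕ} (b : Sm N M) {P : (Phase N → Phase M) → Prop} (h : P b.fn) :
    MapSp b P := ⟨b, exists_eqOff b, h⟩

/-- `F : ℝ^{2N} → ℝ^{2k} = ℂ^k` is `J`-positive: for every complex linear function `l ≠ 0` on `ℂ^k`
the Poisson bracket of the real and the imaginary part of `l ∘ F` is positive (these parts are the
functions `⟨u, F⟩` and `⟨J u, F⟩` for a vector `u ≠ 0`).  For `k = 1` this says `{F_1, F_2} > 0`. -/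
def IsPos {N k : ℕ} (F : Phase N → Phase k) : Prop :=
  ∀ p (u : Phase k), u ≠ 0 →
    0 < fderiv ℝ (fun q => inner ℝ (rotJ u) (F q)) p (hamField (fun q => inner ℝ u (F q)) p)

/-- `Φ : ℝ^{2(m+k)} → ℝ^{2(m+k)}` is a map over a `J`-positive map `F`, which is symplectic on the
fibres of `F`: the first `k` pairs of components of `Φ` are `J`-positive, and `Φ` preserves the
symplectic form of vectors which are mapped to vectors tangent to the subspaces
`{b} × ℝ^{2m}`. -/
def IsFib (m k : ℕ) (Φ : Phase (m + k) → Phase (m + k)) : Prop :=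
  IsPos (fun p => fstPt m k (Φ p)) ∧
    ∀ p u v, fstPt m k (dAt Φ p u) = 0 → fstPt m k (dAt Φ p v) = 0 →
      omegaStd (lstPt m k (dAt Φ p u)) (lstPt m k (dAt Φ p v)) = omegaStd u v

lemma contDiff_fstPt (m k : ℕ) : ContDiff ℝ ∞ (fstPt m k) := by
  have h : fstPt m k = fun p => prK m k p := by
    funext p
    rw [prK_eq_fstPt]
  rw [h]
  exact (prK m k).contDiff

/-- The map `z`: the first `k` pairs of coordinates. -/
noncomputable def Sm.z (m k : ℕ) : Sm (m + k) k := ⟨fstPt m k, contDiff_fstPt m k⟩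

/-- The identity. -/
def Sm.one (N : ℕ) : Sm N N := ⟨fun p => p, contDiff_id⟩

/-- The space of `k`-rows: the smooth `J`-positive maps `ℝ^{2(m+k)} → ℝ^{2k}` which are equal to the
projection to the first `k` pairs of coordinates outside a compact set. -/
abbrev RowSp (m k : ℕ) : Type := MapSp (Sm.z m k) IsPos

/-- The space of fibrewise symplectic maps: the smooth maps of `ℝ^{2(m+k)}` to itself with the
property `IsFib` which are equal to the identity outside a compact set. -/
abbrev FibSp (m k : ℕ) : Type := MapSp (Sm.one (m + k)) (IsFib m k)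

lemma hamField_eq_hamV {N : ℕ} (f : Phase N → ℝ) (p : Phase N) :
    hamField f p = Pool.Agent.H50.Susp.hamV f p := Pool.Agent.Helper42.hamField_eq f p

lemma isPos_iff {N k : ℕ} (F : Phase N → Phase k) : IsPos F ↔ JPos F := by
  simp only [IsPos, JPos, hamField_eq_hamV, Jl_eq_rotJ]

lemma jPos_prK (m k : ℕ) : JPos (fun p : Phase (m + k) => prK m k p) := by
  intro p u hu
  have h1 := bracket_lin m k 1 p u 0 (Jl k u) 0
  simp only [inner_zero_left, add_zero, sub_zero] at h1
  have h2 : fderiv ℝ (fun q : Phase (m + k) => inner ℝ (Jl k u) (prK m k q)) p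
      (Pool.Agent.H50.Susp.hamV (fun q => inner ℝ u (prK m k q)) p) =
      inner ℝ (Jl k u) (Jl k u) := h1
  rw [h2, hp_inner_JJ, real_inner_self_eq_norm_sq]
  have h3 : 0 < ‖u‖ := norm_pos_iff.2 hu
  positivity

lemma isPos_fstL (m k : ℕ) : IsPos (fun p : Phase (m + k) => fstPt m k p) := by
  rw [isPos_iff]
  simp only [← prK_eq_fstPt]
  exact jPos_prK m k

lemma isPos_z (m k : ℕ) : IsPos (Sm.z m k).fn := isPos_fstL m k

/-- The projection, as a point of the space of rows. -/
noncomputable def RowSp.std {m k : ℕ} : RowSp m k := MapSp.base (Sm.z m k) (isPos_z m k)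

lemma omegaStd_split (m : ℕ) : ∀ (k : ℕ) (u v : Phase (m + k)),
    omegaStd u v = omegaStd (fstPt m k u) (fstPt m k v) + omegaStd (lstPt m k u) (lstPt m k v) := by
  intro k u v
  have h1 : ∀ j : Fin k, Fin.castLE (Nat.le_add_left k m) j = Fin.cast (Nat.add_comm k m)
      (Fin.castAdd m j) := fun _ => rfl
  have h2 : ∀ j : Fin m, Fin.addNat j k = Fin.cast (Nat.add_comm k m) (Fin.natAdd k j) := by
    intro j
    apply Fin.ext
    simp [Nat.add_comm]
  have h3 : ∀ f : Fin (m + k) → ℝ, ∑ i : Fin (m + k), f i =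
      ∑ i : Fin k, f (Fin.castLE (Nat.le_add_left k m) i) + ∑ i : Fin m, f (Fin.addNat i k) := by
    intro f
    rw [← Equiv.sum_comp (finCongr (Nat.add_comm k m)) f, Fin.sum_univ_add]
    simp only [h1, h2]
    rfl
  rw [omegaStd, h3]
  rfl

lemma isFib_one (m k : ℕ) : IsFib m k (Sm.one (m + k)).fn := by
  refine ⟨isPos_fstL m k, fun p u v hu hv => ?_⟩
  have h1 : ∀ w, dAt (Sm.one (m + k)).fn p w = w := by
    intro w
    simp only [Sm.one, dAt, fderiv_fun_id]
    rfl
  rw [h1] at hu hv ⊢
  rw [h1, omegaStd_split m k u v, hu, hv]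
  simp [omegaStd]

/-- The identity, as a point of the space of fibrewise symplectic maps. -/
noncomputable def FibSp.std {m k : ℕ} : FibSp m k := MapSp.base (Sm.one (m + k)) (isFib_one m k)

/-- The homotopy group `π_j` of the space of rows; for `j = 0` the set of path components. -/
abbrev PiR (j m k : ℕ) : Type := HomotopyGroup (Fin j) (RowSp m k) RowSp.std

/-- The homotopy group `π_j` of the space of fibrewise symplectic maps. -/
abbrev PiF (j m k : ℕ) : Type := HomotopyGroup (Fin j) (FibSp m k) FibSp.std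

/-- The continuous maps of the cube `[0,1]^j` to the space of rows which are equal to the projection
on the boundary. -/
def LoopR (j m k : ℕ) : Type := GenLoop (Fin j) (RowSp m k) RowSp.std

/-- The continuous maps of the cube `[0,1]^j` to the space of fibrewise symplectic maps which are
equal to the identity on the boundary. -/
def LoopF (j m k : ℕ) : Type := GenLoop (Fin j) (FibSp m k) FibSp.std

/-- The row with parameter `t`. -/
noncomputable def LoopR.at {j m k : ℕ} (F : LoopR j m k) (t : Fin j → unitInterval) :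
    Phase (m + k) → Phase k := (F.1 t).map.fn

/-- The fibrewise symplectic map with parameter `t`. -/
noncomputable def LoopF.at {j m k : ℕ} (Φ : LoopF j m k) (t : Fin j → unitInterval) :
    Phase (m + k) → Phase (m + k) := (Φ.1 t).map.fn

/-- The class in the homotopy group. -/
noncomputable def LoopR.cls {j m k : ℕ} (F : LoopR j m k) : PiR j m k := Quotient.mk _ F

/-- The class in the homotopy group. -/
noncomputable def LoopF.cls {j m k : ℕ} (Φ : LoopF j m k) : PiF j m k := Quotient.mk _ Φ

/-- The trivial class. -/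
noncomputable def PiR.triv (j m k : ℕ) : PiR j m k := Quotient.mk _ GenLoop.const

/-- `F` is the family of the first `k` pairs of components of the symplectomorphisms `φ`. -/
def IsRow {j m k : ℕ} (φ : LoopG j (m + k)) (F : LoopR j m k) : Prop :=
  ∀ t p, F.at t p = fstPt m k (φ.at t p)

/-- `Φ` is the family `φ`, seen as a family of fibrewise symplectic maps. -/
def IsIncl {j m k : ℕ} (φ : LoopG j (m + k)) (Φ : LoopF j m k) : Prop :=
  ∀ t p, Φ.at t p = φ.at t p

/-- The point of `ℝ^{2k+2}` with the coordinates `x_0 = R (2 a - 1)`, `y_0 = R (2 b - 1)`,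
`x_{i+1} = R (2 ξ_i - 1)`, `y_{i+1} = R (2 η_i - 1)`. -/
noncomputable def boxPt {k : ℕ} (R : ℝ) (ξ η : Fin k → unitInterval) (a b : unitInterval) :
    Phase (k + 1) :=
  WithLp.toLp 2 (Sum.elim (Fin.cons (R * (2 * (a : ℝ) - 1)) fun i => R * (2 * (ξ i : ℝ) - 1))
    (Fin.cons (R * (2 * (b : ℝ) - 1)) fun i => R * (2 * (η i : ℝ) - 1)))

/-- `Φ t` is the product family given by `g`: it is the identity where one of the first `2k+2`
coordinates has absolute value at least `R`, and if the first `2k+2` coordinates of `p` form the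
point `boxPt R ξ η a b`, then `Φ t` does not change them and maps the remaining coordinates by
`g (ξ, η, t, b, a)`. -/
def IsProd {j m k : ℕ} (R : ℝ) (g : LoopG (k + k + j + 2) m) (Φ : LoopF j m (k + 1)) : Prop :=
  (∀ t p, (∃ i, R ≤ |(fstPt m (k + 1) p) i|) → Φ.at t p = p) ∧
    ∀ t (ξ η : Fin k → unitInterval) (a b : unitInterval) (p : Phase (m + (k + 1))),
      fstPt m (k + 1) p = boxPt R ξ η a b →
      fstPt m (k + 1) (Φ.at t p) = boxPt R ξ η a b ∧
      lstPt m (k + 1) (Φ.at t p) =
        g.at (Fin.snoc (Fin.snoc (Fin.append (Fin.append ξ η) t) b) a) (lstPt m (k + 1) p)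

/-- `φ` is a `(k+1)`-fold suspension of `g`: for some `R > 0` the product family given by `g` is
homotopic to the family `φ` in the space of fibrewise symplectic maps. -/
def IsSuspK {j m k : ℕ} (g : LoopG (k + k + j + 2) m) (φ : LoopG j (m + (k + 1))) : Prop :=
  ∃ R : ℝ, 0 < R ∧ ∃ Φ Ψ : LoopF j m (k + 1), IsProd R g Φ ∧ IsIncl φ Ψ ∧ Ψ.cls = Φ.cls

/-- The derivative of `F` at the point `p` in the direction `v`. -/
noncomputable def dMap {N M : ℕ} (F : Phase N → Phase M) (p v : Phase N) : Phase M := fderiv ℝ F p v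

/-- `v` is the derivative of the curve `c` at `s`. -/
def IsVel {N : ℕ} (c : ℝ → Phase N) (s : ℝ) (v : Phase N) : Prop := HasDerivAt c v s

/-- The vector `∂/∂y_0` of `ℝ^{2k+2}`. -/
noncomputable def vecY (k : ℕ) : Phase (k + 1) := EuclideanSpace.single (Sum.inr 0) 1

/-- `c` is a horizontal curve over the `y_0`-axis for the row `F`: `(F ∘ c)' = ∂/∂y_0`, and `c'` is
symplectically orthogonal to the kernel of the derivative of `F`. -/
def IsHor {m k : ℕ} (F : Phase (m + (k + 1)) → Phase (k + 1)) (c : ℝ → Phase (m + (k + 1))) :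
    Prop :=
  ∀ s, ∃ v : Phase (m + (k + 1)), IsVel c s v ∧ dMap F (c s) v = vecY k ∧
    ∀ w, dMap F (c s) w = 0 → omegaStd v w = 0

/-- `e` is the scattering of the family `F` of rows, which are equal to the projection outside the
ball of radius `ρ`: a horizontal curve of `F t` which enters at `y_0 ≤ -ρ`, with the first `2k+2`
coordinates other than `y_0` equal to those of `boxPt ρ ξ η a _`, and leaves at `y_0 ≥ ρ` with the
last `m` pairs of coordinates `w` has entered with the last `m` pairs of coordinates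
`e (ξ, η, t, a) w`. -/
def IsScatK {j m k : ℕ} (F : LoopR j m (k + 1)) (e : LoopG (k + k + j + 1) m) : Prop :=
  ∃ ρ : ℝ, 0 < ρ ∧ (∀ t p, ρ ≤ ‖p‖ → F.at t p = fstPt m (k + 1) p) ∧
    ∀ t (c : ℝ → Phase (m + (k + 1))), IsHor (F.at t) c →
      ∀ (s s' : ℝ) (ξ η : Fin k → unitInterval) (a : unitInterval),
      (fstPt m (k + 1) (c s)) (Sum.inr 0) ≤ -ρ → ρ ≤ (fstPt m (k + 1) (c s')) (Sum.inr 0) →
      (fstPt m (k + 1) (c s)) (Sum.inl 0) = ρ * (2 * (a : ℝ) - 1) →
      (∀ i : Fin k, (fstPt m (k + 1) (c s)) (Sum.inl i.succ) = ρ * (2 * (ξ i : ℝ) - 1) ∧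
        (fstPt m (k + 1) (c s)) (Sum.inr i.succ) = ρ * (2 * (η i : ℝ) - 1)) →
      lstPt m (k + 1) (c s) =
        e.at (Fin.snoc (Fin.append (Fin.append ξ η) t) a) (lstPt m (k + 1) (c s'))

end Pool.Agent.KRW
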