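import Mathlib
import Pool.Agent.KRW.Def
import Pool.Agent.Helper42.Susp.CubeSnoc

/-!
# Internal definitions for the exact sequence of `k`-rows
-/

set_option maxSynthPendingDepth 3

open scoped ContDiff Topology unitInterval
open Set Function TopologicalSpace Filter

namespace Pool.Agent.KRW

open Pool.Agent.Helper17 Pool.Agent.Helper42 Pool.Agent.H42.Hull

lemma MapSp.ext_fn {N M : ℕ} {b : Sm N M} {P : (Phase N → Phase M) → Prop} {φ ψ : MapSp b P}
    (h : φ.map.fn = ψ.map.fn) : φ = ψ := by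
  obtain ⟨⟨f, h1⟩, h2, h3⟩ := φ
  obtain ⟨⟨g, h4⟩, h5, h6⟩ := ψ
  have h7 : f = g := h
  subst h7
  rfl

/-- The projection of `ℝ^{2(m+k)}` to the last `m` pairs of coordinates. -/
noncomputable def prW (m : ℕ) : (k : ℕ) → Phase (m + k) →L[ℝ] Phase m
  | 0 => ContinuousLinearMap.id ℝ (Phase m)
  | k + 1 => (prW m k).comp (Pool.Agent.H50.Susp.wL (m + k))

/-- The inclusion of the last `m` pairs of coordinates. -/
noncomputable def incW (m k : ℕ) : Phase m →L[ℝ] Phase (m + k) :=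
  ContinuousLinearMap.adjoint (prW m k)

/-- The point with first `k` pairs of coordinates `b` and last `m` pairs of coordinates `w`. -/
noncomputable def mkB (m k : ℕ) (b : Phase k) (w : Phase m) : Phase (m + k) :=
  incK m k b + incW m k w

/-- The linear map `J Aᵀ`; `hamL (DF) u` is the Hamiltonian vector field of `⟨u, F⟩`. -/
noncomputable def hamL {N k : ℕ} (A : Phase N →L[ℝ] Phase k) : Phase k →L[ℝ] Phase N :=
  (LinearMap.toContinuousLinearMap (Jl N)).comp (ContinuousLinearMap.adjoint A)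

/-- The linear form of `J`-positivity. -/
def TameL {N k : ℕ} (A : Phase N →L[ℝ] Phase k) : Prop :=
  ∀ u : Phase k, u ≠ 0 → 0 < inner ℝ (Jl k u) (A (hamL A u))

/-- The horizontal lift `J Aᵀ (A J Aᵀ)⁻¹`. -/
noncomputable def hl {N k : ℕ} (A : Phase N →L[ℝ] Phase k) : Phase k →L[ℝ] Phase N :=
  (hamL A).comp (ContinuousLinearMap.inverse (A.comp (hamL A)))

/-- Smooth families of fibrewise symplectic maps, equal to the identity outside a ball. -/
structure FFam (m k : ℕ) {T : Type} [TopologicalSpace T] (R : ℝ)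
    (Φ : T → Phase (m + k) → Phase (m + k)) : Prop where
  cf : CF Φ
  std : ∀ t p, R < ‖p‖ → Φ t p = p
  pos : ∀ t, JPos (fun p => prK m k (Φ t p))
  symp : ∀ t p u v, prK m k (fderiv ℝ (Φ t) p u) = 0 → prK m k (fderiv ℝ (Φ t) p v) = 0 →
    omegaStd (prW m k (fderiv ℝ (Φ t) p u)) (prW m k (fderiv ℝ (Φ t) p v)) = omegaStd u v

/-- Smooth families of symplectic maps of `ℝ^{2m}`, smooth also in the base point `b ∈ ℝ^{2k}`
(no support condition in `b`). -/
structure VFam (m k : ℕ) {T : Type} [TopologicalSpace T] (R : ℝ)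
    (W : T → Phase (m + k) → Phase m) : Prop where
  cf : CF W
  std : ∀ t p, R < ‖prW m k p‖ → W t p = prW m k p
  symp : ∀ t p (v w : Phase m),
    omegaStd (fderiv ℝ (W t) p (incW m k v)) (fderiv ℝ (W t) p (incW m k w)) = omegaStd v w

/-- The map `(b, w) ↦ (b, W (b, w))`. -/
noncomputable def mapW (m k : ℕ) (W : Phase (m + k) → Phase m) (p : Phase (m + k)) :
    Phase (m + k) := mkB m k (prK m k p) (W p)

/-- `B` is equal to the standard form on `ℝ^{2m}` and tame on the `B`-orthogonal complement of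
`ℝ^{2m}`. -/
def HTame (m k : ℕ) (B : Phase (m + k) → Phase (m + k) → ℝ) : Prop :=
  (∀ w w' : Phase m, B (incW m k w) (incW m k w') = omegaStd w w') ∧
    ∀ x y : Phase (m + k), (∀ w, B x (incW m k w) = 0) → (∀ w, B y (incW m k w) = 0) →
      prK m k x ≠ 0 → prK m k y = Jl k (prK m k x) → 0 < B x y

/-- The coordinate `y_0`. -/
noncomputable def yB {m k : ℕ} (p : Phase (m + (k + 1))) : ℝ := (prK m (k + 1) p) (Sum.inr 0)

/-- The unit vector in the direction of `y_0` in the base. -/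
noncomputable def eB (k : ℕ) : Phase (k + 1) := EuclideanSpace.single (Sum.inr 0) 1

/-- The first `k + 1` pairs of coordinates with `y_0` replaced by `0`. -/
noncomputable def sideB {m k : ℕ} (p : Phase (m + (k + 1))) : Phase (k + 1) :=
  prK m (k + 1) p - yB p • eB k

/-- The trivialisation `Ξ` of a family `F` of rows along the horizontal curves over the `y_0`-axis
(`Ξ = id` for small `y_0`) and its inverse `Θ`: the first part. -/
structure Triv1 (m k : ℕ) {T : Type} [TopologicalSpace T] (R : ℝ)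
    (F : T → Phase (m + (k + 1)) → Phase (k + 1))
    (Ξ Θ : T → Phase (m + (k + 1)) → Phase (m + (k + 1))) : Prop where
  pos : 0 < R
  cfX : CF Ξ
  cfT : CF Θ
  left_inv : ∀ t p, Θ t (Ξ t p) = p
  right_inv : ∀ t p, Ξ t (Θ t p) = p
  lies : ∀ t p, F t (Ξ t p) = prK m (k + 1) p
  symp : ∀ t p (v w : Phase m), omegaStd (fderiv ℝ (Ξ t) p (incW m (k + 1) v))
    (fderiv ℝ (Ξ t) p (incW m (k + 1) w)) = omegaStd v w
  left : ∀ t p, yB p ≤ -R → Ξ t p = p
  side : ∀ t p, (R ≤ ‖sideB p‖ ∨ R ≤ ‖prW m (k + 1) p‖) → Ξ t p = p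
  side' : ∀ t (r : ℝ), (∀ p, r < ‖p‖ → F t p = prK m (k + 1) p) →
    ∀ p, r ≤ ‖sideB p‖ → Ξ t p = p
  ray : ∀ t p (s : ℝ), R ≤ yB p → 0 ≤ s →
    Ξ t (p + s • incK m (k + 1) (eB k)) = Ξ t p + s • incK m (k + 1) (eB k)
  rayK : ∀ t p, R ≤ yB p → prK m (k + 1) (Ξ t p) = prK m (k + 1) p
  triv : ∀ t, (∀ p, F t p = prK m (k + 1) p) → ∀ p, Ξ t p = p
  hor : ∀ t p, IsHor (F t) (fun s : ℝ => Ξ t (p + s • incK m (k + 1) (eB k)))
  uniq : ∀ t (c : ℝ → Phase (m + (k + 1))), IsHor (F t) c → ∀ s s' : ℝ,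
    Θ t (c s') = Θ t (c s) + (s' - s) • incK m (k + 1) (eB k)

/-- The trivialisation `Ξ` of a family `F` of rows along the horizontal curves over the `y_0`-axis
(`Ξ = id` for small `y_0`), its inverse `Θ`, and the exit map `E`. -/
structure Trivia (m k : ℕ) {T : Type} [TopologicalSpace T] (R : ℝ)
    (F : T → Phase (m + (k + 1)) → Phase (k + 1))
    (Ξ Θ : T → Phase (m + (k + 1)) → Phase (m + (k + 1)))
    (E : T → Phase (m + (k + 1)) → Phase m) : Prop where
  pos : 0 < R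
  cfX : CF Ξ
  cfT : CF Θ
  left_inv : ∀ t p, Θ t (Ξ t p) = p
  right_inv : ∀ t p, Ξ t (Θ t p) = p
  lies : ∀ t p, F t (Ξ t p) = prK m (k + 1) p
  symp : ∀ t p (v w : Phase m), omegaStd (fderiv ℝ (Ξ t) p (incW m (k + 1) v))
    (fderiv ℝ (Ξ t) p (incW m (k + 1) w)) = omegaStd v w
  left : ∀ t p, yB p ≤ -R → Ξ t p = p
  side : ∀ t p, (R ≤ ‖sideB p‖ ∨ R ≤ ‖prW m (k + 1) p‖) → Ξ t p = p
  right : ∀ t p, R ≤ yB p → Ξ t p = mkB m (k + 1) (prK m (k + 1) p) (E t p)
  fam : VFam m (k + 1) R E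
  exit : ∀ t p (s : ℝ), E t (p + s • incK m (k + 1) (eB k)) = E t p
  exit_side : ∀ t p, R ≤ ‖sideB p‖ → E t p = prW m (k + 1) p
  exit_side' : ∀ t (r : ℝ), (∀ p, r < ‖p‖ → F t p = prK m (k + 1) p) →
    ∀ p, r ≤ ‖sideB p‖ → E t p = prW m (k + 1) p
  triv : ∀ t, (∀ p, F t p = prK m (k + 1) p) → ∀ p, Ξ t p = p ∧ E t p = prW m (k + 1) p
  hor : ∀ t p, IsHor (F t) (fun s : ℝ => Ξ t (p + s • incK m (k + 1) (eB k)))
  orbit : ∀ t (c : ℝ → Phase (m + (k + 1))), IsHor (F t) c → ∀ s s' : ℝ, yB (c s) ≤ -R →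
    R ≤ yB (c s') → prW m (k + 1) (c s') = E t (c s)

/-- The cubes `[0,1]^k × [0,1]^k`, for the coordinates `x_i, y_i` with `i ≥ 1`. -/
abbrev Bx (k : ℕ) : Type := (Fin k → I) × (Fin k → I)

/-- The boundary of `Bx k`. -/
def bdB (k : ℕ) : Set (Bx k) := {z | z.1 ∈ Cube.boundary (Fin k) ∨ z.2 ∈ Cube.boundary (Fin k)}

/-- The relative set for scatterings. -/
def bdE {T : Type} (k : ℕ) (T0 : Set T) : Set ((T × Bx k) × I) :=
  {q | (q.1.1 ∈ T0 ∨ q.1.2 ∈ bdB k) ∨ q.2 = 0 ∨ q.2 = 1}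

/-- The relative set for families over cubes. -/
def bdS {T : Type} (k : ℕ) (T0 : Set T) : Set ((T × Bx k) × (I × I)) :=
  {q | (q.1.1 ∈ T0 ∨ q.1.2 ∈ bdB k) ∨ q.2 ∈ sqBd}

/-- The point of the base with parameters `z` and `(a, b)`. -/
noncomputable def bxPt {k : ℕ} (R : ℝ) (z : Bx k) (s : I × I) : Phase (k + 1) :=
  boxPt R z.1 z.2 s.1 s.2

/-- The cube coordinates of a point of the base, cut off at the cube of size `ρ`. -/
noncomputable def clB {k : ℕ} (ρ : ℝ) (b : Phase (k + 1)) : Bx k × (I × I) :=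
  ((fun i => projIcc 0 1 zero_le_one ((b (Sum.inl i.succ) / ρ + 1) / 2),
    fun i => projIcc 0 1 zero_le_one ((b (Sum.inr i.succ) / ρ + 1) / 2)),
    (projIcc 0 1 zero_le_one ((b (Sum.inl 0) / ρ + 1) / 2),
      projIcc 0 1 zero_le_one ((b (Sum.inr 0) / ρ + 1) / 2)))

/-- `e` is a scattering of the family `F`, with radius `ρ`. -/
def IsScatAt {m k : ℕ} {T : Type} [TopologicalSpace T] (ρ : ℝ)
    (F : T → Phase (m + (k + 1)) → Phase (k + 1)) (e : C((T × Bx k) × I, SympCt m)) : Prop :=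
  (∀ t p, ρ ≤ ‖p‖ → F t p = prK m (k + 1) p) ∧
    ∀ t (c : ℝ → Phase (m + (k + 1))), IsHor (F t) c → ∀ (s s' : ℝ) (z : Bx k) (a b : I),
      yB (c s) ≤ -ρ → ρ ≤ yB (c s') → sideB (c s) = bxPt ρ z (a, b) -
        ((bxPt ρ z (a, b) : Phase (k + 1)) (Sum.inr 0)) • eB k →
      prW m (k + 1) (c s) =
        (e ((t, z), a) : Equiv.Perm (Phase m)) (prW m (k + 1) (c s'))

/-- `e` is a scattering of the family `F`. -/
def IsScatF {m k : ℕ} {T : Type} [TopologicalSpace T]
    (F : T → Phase (m + (k + 1)) → Phase (k + 1)) (e : C((T × Bx k) × I, SympCt m)) : Prop :=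
  ∃ ρ : ℝ, 0 < ρ ∧ IsScatAt ρ F e

/-- `g` is the cube family given by `W` and the cube of size `R`, outside of which `W` is trivial. -/
def IsCube {m k : ℕ} {T : Type} [TopologicalSpace T] (R : ℝ)
    (W : T → Phase (m + (k + 1)) → Phase m) (g : C((T × Bx k) × (I × I), SympCt m)) : Prop :=
  (∀ t p, (∃ i, R ≤ |(prK m (k + 1) p) i|) → W t p = prW m (k + 1) p) ∧
    ∀ t z s w, (g ((t, z), s) : Equiv.Perm (Phase m)) w = W t (mkB m (k + 1) (bxPt R z s) w)

/-- The change of variables from cubes to scatterings of loops: `b` is the loop variable. -/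
def swK (T : Type) [TopologicalSpace T] (k : ℕ) :
    C((T × Bx k) × (I × I), ((T × I) × Bx k) × I) :=
  ⟨fun q => (((q.1.1, q.2.2), q.1.2), q.2.1), by fun_prop⟩

/-- The alternating part of the derivative of the family of one-forms `β` in the last variable,
added to the standard form. -/
noncomputable def vform {D : Type} [NormedAddCommGroup D] [NormedSpace ℝ D] {n : ℕ}
    (β : ℝ × (D × Phase n) → (Phase n →L[ℝ] ℝ)) (s : ℝ) (d : D) (w a b : Phase n) : ℝ :=
  omegaStd a b + fderiv ℝ (fun w' => β (s, (d, w'))) w a b -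
    fderiv ℝ (fun w' => β (s, (d, w'))) w b a

/-- The scaling of the first `k` pairs of coordinates by `μ`. -/
noncomputable def sclB (m k : ℕ) (μ : ℝ) (p : Phase (m + k)) : Phase (m + k) :=
  mkB m k (μ • prK m k p) (prW m k p)

/-- The cube coordinates: `(t, (ξ, η)) ↦ (ξ, η, t)`. -/
def cubeK (k j : ℕ) : C((Fin j → I) × Bx k, Fin (k + k + j) → I) :=
  ⟨fun q => Fin.append (Fin.append q.2.1 q.2.2) q.1, by
    refine continuous_pi fun i => ?_
    refine Fin.addCases (fun i => ?_) (fun i => ?_) i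
    · refine Fin.addCases (fun i => ?_) (fun i => ?_) i
      · simp only [Fin.append_left]
        fun_prop
      · simp only [Fin.append_left, Fin.append_right]
        fun_prop
    · simp only [Fin.append_right]
      fun_prop⟩

/-- The map on `(T × Bx k) × I` given by a loop. -/
noncomputable def ueK {j m k : ℕ} (e : LoopG (k + k + j + 1) m) :
    C(((Fin j → I) × Bx k) × I, SympCt m) :=
  (unloop1 (k := k + k + j) e).comp ⟨fun q => (cubeK k j q.1, q.2), by fun_prop⟩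

/-- The map on `(T × Bx k) × (I × I)` given by a loop. -/
noncomputable def ugK {j m k : ℕ} (g : LoopG (k + k + j + 2) m) :
    C(((Fin j → I) × Bx k) × (I × I), SympCt m) :=
  (unloop2 (k := k + k + j) g).comp ⟨fun q => (cubeK k j q.1, q.2), by fun_prop⟩

end Pool.Agent.KRW
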