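import Mathlib
import Pool.Agent.KRW.Defs

/-!
# The splitting `ℝ^{2(m+k)} = ℝ^{2k} × ℝ^{2m}`
-/

set_option maxSynthPendingDepth 3

open scoped ContDiff Topology unitInterval
open Set Function TopologicalSpace Filter

namespace Pool.Agent.KRW

open Pool.Agent.Helper17 Pool.Agent.Helper42 Pool.Agent.H42.Hull

variable {m k : ℕ}

lemma sum_split (m k : ℕ) (f : Fin (m + k) → ℝ) : ∑ i : Fin (m + k), f i =
    ∑ i : Fin k, f (Fin.castLE (Nat.le_add_left k m) i) + ∑ i : Fin m, f (Fin.addNat i k) := by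
  have h1 : ∀ j : Fin k, Fin.castLE (Nat.le_add_left k m) j = Fin.cast (Nat.add_comm k m)
      (Fin.castAdd m j) := fun _ => rfl
  have h2 : ∀ j : Fin m, Fin.addNat j k = Fin.cast (Nat.add_comm k m) (Fin.natAdd k j) := by
    intro j
    apply Fin.ext
    simp [Nat.add_comm]
  rw [← Equiv.sum_comp (finCongr (Nat.add_comm k m)) f, Fin.sum_univ_add]
  simp only [h1, h2]
  rfl

lemma lstPt_succ (m k : ℕ) (p : Phase (m + (k + 1))) : lstPt m (k + 1) p =
    lstPt m k (Pool.Agent.H50.Susp.wL (m + k) p) := by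
  ext i
  rcases i with i | i
  · rfl
  · rfl

lemma prW_eq_lstPt (m : ℕ) : ∀ (k : ℕ) (p : Phase (m + k)), prW m k p = lstPt m k p := by
  intro k
  induction k with
  | zero =>
    intro p
    ext i
    rcases i with i | i
    · rfl
    · rfl
  | succ k ih =>
    intro p
    rw [lstPt_succ, ← ih]
    rfl

lemma prK_inl (p : Phase (m + k)) (i : Fin k) :
    (prK m k p) (Sum.inl i) = p (Sum.inl (Fin.castLE (Nat.le_add_left k m) i)) := by
  rw [prK_eq_fstPt]
  rfl

lemma prK_inr (p : Phase (m + k)) (i : Fin k) :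
    (prK m k p) (Sum.inr i) = p (Sum.inr (Fin.castLE (Nat.le_add_left k m) i)) := by
  rw [prK_eq_fstPt]
  rfl

lemma prW_inl (p : Phase (m + k)) (i : Fin m) :
    (prW m k p) (Sum.inl i) = p (Sum.inl (Fin.addNat i k)) := by
  rw [prW_eq_lstPt]
  rfl

lemma prW_inr (p : Phase (m + k)) (i : Fin m) :
    (prW m k p) (Sum.inr i) = p (Sum.inr (Fin.addNat i k)) := by
  rw [prW_eq_lstPt]
  rfl

lemma inner_split (p q : Phase (m + k)) : (inner ℝ p q : ℝ) =
    inner ℝ (prK m k p) (prK m k q) + inner ℝ (prW m k p) (prW m k q) := by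
  simp only [PiLp.inner_apply, Fintype.sum_sum_type, prK_inl, prK_inr, prW_inl, prW_inr]
  rw [sum_split m k, sum_split m k]
  ring

lemma norm_sq_split (p : Phase (m + k)) : ‖p‖ ^ 2 = ‖prK m k p‖ ^ 2 + ‖prW m k p‖ ^ 2 := by
  rw [← real_inner_self_eq_norm_sq, ← real_inner_self_eq_norm_sq, ← real_inner_self_eq_norm_sq]
  exact inner_split p p

lemma norm_prK_le (p : Phase (m + k)) : ‖prK m k p‖ ≤ ‖p‖ := by
  have h := norm_sq_split p
  apply le_of_sq_le_sq _ (norm_nonneg _)
  nlinarith [sq_nonneg ‖prW m k p‖]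

lemma norm_prW_le (p : Phase (m + k)) : ‖prW m k p‖ ≤ ‖p‖ := by
  have h := norm_sq_split p
  apply le_of_sq_le_sq _ (norm_nonneg _)
  nlinarith [sq_nonneg ‖prK m k p‖]

lemma norm_le_split (p : Phase (m + k)) : ‖p‖ ≤ ‖prK m k p‖ + ‖prW m k p‖ := by
  have h := norm_sq_split p
  apply le_of_sq_le_sq _ (by positivity)
  nlinarith [mul_nonneg (norm_nonneg (prK m k p)) (norm_nonneg (prW m k p))]

lemma ext_split {p q : Phase (m + k)} (h1 : prK m k p = prK m k q)
    (h2 : prW m k p = prW m k q) : p = q := by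
  have h := norm_sq_split (p - q)
  rw [map_sub, map_sub, h1, h2, sub_self, sub_self, norm_zero, norm_zero] at h
  have h3 : ‖p - q‖ = 0 := by nlinarith [norm_nonneg (p - q)]
  exact sub_eq_zero.1 (norm_eq_zero.1 h3)

lemma inner_incK (b : Phase k) (p : Phase (m + k)) :
    (inner ℝ (incK m k b) p : ℝ) = inner ℝ b (prK m k p) := by
  rw [incK, ContinuousLinearMap.adjoint_inner_left]

lemma inner_incW (w : Phase m) (p : Phase (m + k)) :
    (inner ℝ (incW m k w) p : ℝ) = inner ℝ w (prW m k p) := by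
  rw [incW, ContinuousLinearMap.adjoint_inner_left]

/-- Every pair of vectors has a common preimage. -/
lemma exists_split (b : Phase k) (w : Phase m) :
    ∃ p : Phase (m + k), prK m k p = b ∧ prW m k p = w := by
  have key : ∀ (c : Fin k → ℝ) (d : Fin m → ℝ), ∃ f : Fin (m + k) → ℝ,
      (∀ i, f (Fin.castLE (Nat.le_add_left k m) i) = c i) ∧ ∀ i, f (Fin.addNat i k) = d i := by
    intro c d
    refine ⟨fun i => if h : (i : ℕ) < k then c ⟨i, h⟩ else d ⟨i - k, by omega⟩, fun i => ?_,
      fun i => ?_⟩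
    · have h : ((Fin.castLE (Nat.le_add_left k m) i : Fin (m + k)) : ℕ) < k := i.2
      simp only [h, dite_true]
      rfl
    · have h : ¬ ((Fin.addNat i k : Fin (m + k)) : ℕ) < k := by simp
      simp only [h, dite_false]
      congr 1
      apply Fin.ext
      simp
  obtain ⟨f, hf1, hf2⟩ := key (fun i => b (Sum.inl i)) (fun i => w (Sum.inl i))
  obtain ⟨g, hg1, hg2⟩ := key (fun i => b (Sum.inr i)) (fun i => w (Sum.inr i))
  refine ⟨WithLp.toLp 2 (Sum.elim f g), ?_, ?_⟩
  · ext i
    rcases i with i | i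
    · rw [prK_inl]; exact hf1 i
    · rw [prK_inr]; exact hg1 i
  · ext i
    rcases i with i | i
    · rw [prW_inl]; exact hf2 i
    · rw [prW_inr]; exact hg2 i

lemma prK_incK (b : Phase k) : prK m k (incK m k b) = b := by
  apply ext_inner_left ℝ
  intro c
  obtain ⟨p, hp1, hp2⟩ := exists_split (m := m) c 0
  have h1 := inner_incK (m := m) b p
  rw [hp1] at h1
  have h2 := inner_split p (incK m k b)
  rw [hp1, hp2, inner_zero_left, add_zero] at h2
  rw [← h2, real_inner_comm, h1, real_inner_comm]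

lemma prW_incK (b : Phase k) : prW m k (incK m k b) = 0 := by
  apply ext_inner_left ℝ
  intro c
  obtain ⟨p, hp1, hp2⟩ := exists_split (k := k) 0 c
  have h1 := inner_incK (m := m) b p
  rw [hp1, inner_zero_right] at h1
  have h2 := inner_split p (incK m k b)
  rw [hp1, hp2, inner_zero_left, zero_add] at h2
  rw [← h2, real_inner_comm, h1, inner_zero_right]

lemma prK_incW (w : Phase m) : prK m k (incW m k w) = 0 := by
  apply ext_inner_left ℝ
  intro c
  obtain ⟨p, hp1, hp2⟩ := exists_split (m := m) c 0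
  have h1 := inner_incW (k := k) w p
  rw [hp2, inner_zero_right] at h1
  have h2 := inner_split p (incW m k w)
  rw [hp1, hp2, inner_zero_left, add_zero] at h2
  rw [← h2, real_inner_comm, h1, inner_zero_right]

lemma prW_incW (w : Phase m) : prW m k (incW m k w) = w := by
  apply ext_inner_left ℝ
  intro c
  obtain ⟨p, hp1, hp2⟩ := exists_split (k := k) 0 c
  have h1 := inner_incW (k := k) w p
  rw [hp2] at h1
  have h2 := inner_split p (incW m k w)
  rw [hp1, hp2, inner_zero_left, zero_add] at h2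
  rw [← h2, real_inner_comm, h1, real_inner_comm]

@[simp] lemma prK_mkB (b : Phase k) (w : Phase m) : prK m k (mkB m k b w) = b := by
  rw [mkB, map_add, prK_incK, prK_incW, add_zero]

@[simp] lemma prW_mkB (b : Phase k) (w : Phase m) : prW m k (mkB m k b w) = w := by
  rw [mkB, map_add, prW_incK, prW_incW, zero_add]

lemma mkB_eta (p : Phase (m + k)) : mkB m k (prK m k p) (prW m k p) = p :=
  ext_split (by rw [prK_mkB]) (by rw [prW_mkB])

lemma split_eta (p : Phase (m + k)) : incK m k (prK m k p) + incW m k (prW m k p) = p :=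
  mkB_eta p

lemma eq_incW_of_prK {p : Phase (m + k)} (h : prK m k p = 0) : p = incW m k (prW m k p) := by
  conv_lhs => rw [← split_eta p, h, map_zero, zero_add]

lemma mkB_add (b b' : Phase k) (w w' : Phase m) :
    mkB m k (b + b') (w + w') = mkB m k b w + mkB m k b' w' := by
  simp only [mkB, map_add]
  abel

lemma mkB_smul (c : ℝ) (b : Phase k) (w : Phase m) :
    mkB m k (c • b) (c • w) = c • mkB m k b w := by
  simp only [mkB, map_smul, smul_add]

lemma mkB_add_incK (b c : Phase k) (w : Phase m) :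
    mkB m k b w + incK m k c = mkB m k (b + c) w := by
  simp only [mkB, map_add]
  abel

lemma omegaStd_split' (p q : Phase (m + k)) : omegaStd p q =
    omegaStd (prK m k p) (prK m k q) + omegaStd (prW m k p) (prW m k q) := by
  rw [omegaStd_split m k p q, prK_eq_fstPt, prK_eq_fstPt, prW_eq_lstPt, prW_eq_lstPt]

lemma omegaStd_incK (b c : Phase k) : omegaStd (incK m k b) (incK m k c) = omegaStd b c := by
  rw [omegaStd_split', prK_incK, prK_incK, prW_incK, prW_incK, omegaStd_zero_left, add_zero]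

lemma omegaStd_incW (v w : Phase m) : omegaStd (incW m k v) (incW m k w) = omegaStd v w := by
  rw [omegaStd_split', prK_incW, prK_incW, prW_incW, prW_incW, omegaStd_zero_left, zero_add]

lemma omegaStd_incK_incW (b : Phase k) (w : Phase m) :
    omegaStd (incK m k b) (incW m k w) = 0 := by
  rw [omegaStd_split', prK_incW, prW_incK, omegaStd_zero_left, add_zero, omegaStd_swap,
    omegaStd_zero_left, neg_zero]

lemma omegaStd_incW_incK (b : Phase k) (w : Phase m) :
    omegaStd (incW m k w) (incK m k b) = 0 := by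
  rw [omegaStd_swap, omegaStd_incK_incW, neg_zero]

lemma prK_Jl (p : Phase (m + k)) : prK m k (Jl (m + k) p) = Jl k (prK m k p) := by
  ext i
  rcases i with i | i
  · rw [prK_inl]
    change -(p (Sum.inr (Fin.castLE (Nat.le_add_left k m) i))) = -((prK m k p) (Sum.inr i))
    rw [prK_inr]
  · rw [prK_inr]
    change p (Sum.inl (Fin.castLE (Nat.le_add_left k m) i)) = (prK m k p) (Sum.inl i)
    rw [prK_inl]

lemma prW_Jl (p : Phase (m + k)) : prW m k (Jl (m + k) p) = Jl m (prW m k p) := by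
  ext i
  rcases i with i | i
  · rw [prW_inl]
    change -(p (Sum.inr (Fin.addNat i k))) = -((prW m k p) (Sum.inr i))
    rw [prW_inr]
  · rw [prW_inr]
    change p (Sum.inl (Fin.addNat i k)) = (prW m k p) (Sum.inl i)
    rw [prW_inl]

lemma Jl_incK (b : Phase k) : Jl (m + k) (incK m k b) = incK m k (Jl k b) := by
  apply ext_split
  · rw [prK_Jl, prK_incK, prK_incK]
  · rw [prW_Jl, prW_incK, prW_incK, map_zero]

lemma Jl_incW (w : Phase m) : Jl (m + k) (incW m k w) = incW m k (Jl m w) := by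
  apply ext_split
  · rw [prK_Jl, prK_incW, prK_incW, map_zero]
  · rw [prW_Jl, prW_incW, prW_incW]

lemma norm_incK (b : Phase k) : ‖incK m k b‖ = ‖b‖ := by
  have h := norm_sq_split (m := m) (incK m k b)
  rw [prK_incK, prW_incK, norm_zero] at h
  nlinarith [norm_nonneg (incK m k b), norm_nonneg b]

lemma norm_incW (w : Phase m) : ‖incW m k w‖ = ‖w‖ := by
  have h := norm_sq_split (k := k) (incW m k w)
  rw [prK_incW, prW_incW, norm_zero] at h
  nlinarith [norm_nonneg (incW m k w), norm_nonneg w]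

/-- The splitting as a linear map of two variables. -/
noncomputable def mkBL (m k : ℕ) : (Phase k × Phase m) →L[ℝ] Phase (m + k) :=
  (incK m k).comp (ContinuousLinearMap.fst ℝ (Phase k) (Phase m)) +
    (incW m k).comp (ContinuousLinearMap.snd ℝ (Phase k) (Phase m))

lemma mkBL_apply (b : Phase k) (w : Phase m) : mkBL m k (b, w) = mkB m k b w := rfl

lemma contDiff_mkB {E : Type*} [NormedAddCommGroup E] [NormedSpace ℝ E] {b : E → Phase k}
    {w : E → Phase m} {n : WithTop ℕ∞} (hb : ContDiff ℝ n b) (hw : ContDiff ℝ n w) :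
    ContDiff ℝ n (fun e => mkB m k (b e) (w e)) :=
  ((incK m k).contDiff.comp hb).add ((incW m k).contDiff.comp hw)

lemma CF.mkB {T : Type} [TopologicalSpace T] {E : Type} [NormedAddCommGroup E] [NormedSpace ℝ E]
    {b : T → E → Phase k} {w : T → E → Phase m} (hb : CF b) (hw : CF w) :
    CF (fun t e => mkB m k (b t e) (w t e)) :=
  (hb.clm (incK m k)).add (hw.clm (incW m k))

lemma continuous_mkB : Continuous (fun q : Phase k × Phase m => mkB m k q.1 q.2) :=
  (mkBL m k).continuous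

lemma hasFDerivAt_mkB {E : Type*} [NormedAddCommGroup E] [NormedSpace ℝ E] {b : E → Phase k}
    {w : E → Phase m} {b' : E →L[ℝ] Phase k} {w' : E →L[ℝ] Phase m} {e : E}
    (hb : HasFDerivAt b b' e) (hw : HasFDerivAt w w' e) :
    HasFDerivAt (fun e => mkB m k (b e) (w e)) ((incK m k).comp b' + (incW m k).comp w') e :=
  ((incK m k).hasFDerivAt.comp e hb).add ((incW m k).hasFDerivAt.comp e hw)

lemma mapW_fderiv {W : Phase (m + k) → Phase m} {p : Phase (m + k)} (h : DifferentiableAt ℝ W p)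
    (u : Phase (m + k)) : fderiv ℝ (mapW m k W) p u = mkB m k (prK m k u) (fderiv ℝ W p u) := by
  have h1 : HasFDerivAt (mapW m k W) ((incK m k).comp (prK m k) +
      (incW m k).comp (fderiv ℝ W p)) p :=
    hasFDerivAt_mkB (prK m k).hasFDerivAt h.hasFDerivAt
  rw [h1.fderiv]
  rfl

@[simp] lemma prK_mapW (W : Phase (m + k) → Phase m) (p : Phase (m + k)) :
    prK m k (mapW m k W p) = prK m k p := prK_mkB _ _

@[simp] lemma prW_mapW (W : Phase (m + k) → Phase m) (p : Phase (m + k)) :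
    prW m k (mapW m k W p) = W p := prW_mkB _ _

lemma mapW_prW (p : Phase (m + k)) : mapW m k (fun p => prW m k p) p = p := mkB_eta p

/-! ### The coordinate `y_0` of the base -/

lemma eB_inr (k : ℕ) : (eB k) (Sum.inr 0) = 1 := by simp [eB]

lemma norm_eB (k : ℕ) : ‖eB k‖ = 1 := by simp [eB]

lemma eB_apply_ne {i : Fin (k + 1) ⊕ Fin (k + 1)} (h : i ≠ Sum.inr 0) : (eB k) i = 0 := by
  simp [eB, h]

lemma yB_add (p q : Phase (m + (k + 1))) : yB (p + q) = yB p + yB q := by
  simp [yB]

lemma yB_smul (c : ℝ) (p : Phase (m + (k + 1))) : yB (c • p) = c * yB p := by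
  simp [yB]

lemma yB_incK (b : Phase (k + 1)) : yB (m := m) (incK m (k + 1) b) = b (Sum.inr 0) := by
  rw [yB, prK_incK]

lemma yB_incW (w : Phase m) : yB (incW m (k + 1) w) = 0 := by
  rw [yB, prK_incW]
  rfl

lemma yB_mkB (b : Phase (k + 1)) (w : Phase m) : yB (mkB m (k + 1) b w) = b (Sum.inr 0) := by
  rw [yB, prK_mkB]

lemma yB_add_smul (p : Phase (m + (k + 1))) (s : ℝ) :
    yB (p + s • incK m (k + 1) (eB k)) = yB p + s := by
  rw [yB_add, yB_smul, yB_incK, eB_inr, mul_one]

lemma sideB_add_smul (p : Phase (m + (k + 1))) (s : ℝ) :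
    sideB (p + s • incK m (k + 1) (eB k)) = sideB p := by
  rw [sideB, yB_add_smul, map_add, map_smul, prK_incK, sideB, add_smul]
  abel

lemma prW_add_smul (p : Phase (m + (k + 1))) (s : ℝ) :
    prW m (k + 1) (p + s • incK m (k + 1) (eB k)) = prW m (k + 1) p := by
  rw [map_add, map_smul, prW_incK, smul_zero, add_zero]

lemma prK_add_smul (p : Phase (m + (k + 1))) (s : ℝ) :
    prK m (k + 1) (p + s • incK m (k + 1) (eB k)) = prK m (k + 1) p + s • eB k := by
  rw [map_add, map_smul, prK_incK]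

lemma prK_eq_side (p : Phase (m + (k + 1))) : prK m (k + 1) p = sideB p + yB p • eB k := by
  rw [sideB, sub_add_cancel]

lemma sideB_inr (p : Phase (m + (k + 1))) : (sideB p) (Sum.inr 0) = 0 := by
  change (prK m (k + 1) p) (Sum.inr 0) - yB p * (eB k) (Sum.inr 0) = 0
  rw [eB_inr, mul_one]
  exact sub_self _

lemma sideB_ne (p : Phase (m + (k + 1))) {i : Fin (k + 1) ⊕ Fin (k + 1)} (h : i ≠ Sum.inr 0) :
    (sideB p) i = (prK m (k + 1) p) i := by
  change (prK m (k + 1) p) i - yB p * (eB k) i = _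
  rw [eB_apply_ne h, mul_zero, sub_zero]

lemma inner_eB (b : Phase (k + 1)) : (inner ℝ b (eB k) : ℝ) = b (Sum.inr 0) := by
  simp [eB, EuclideanSpace.inner_single_right]

lemma norm_sq_side (p : Phase (m + (k + 1))) :
    ‖p‖ ^ 2 = ‖sideB p‖ ^ 2 + yB p ^ 2 + ‖prW m (k + 1) p‖ ^ 2 := by
  have h1 := norm_sq_split p
  have h2 : ‖prK m (k + 1) p‖ ^ 2 = ‖sideB p‖ ^ 2 + yB p ^ 2 := by
    rw [prK_eq_side, norm_add_sq_real, inner_smul_right, inner_eB, sideB_inr, norm_smul, norm_eB]
    simp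
  rw [h1, h2]

lemma abs_yB_le (p : Phase (m + (k + 1))) : |yB p| ≤ ‖p‖ := by
  have h := norm_sq_side p
  apply abs_le_of_sq_le_sq _ (norm_nonneg _)
  nlinarith [sq_nonneg ‖sideB p‖, sq_nonneg ‖prW m (k + 1) p‖]

lemma norm_sideB_le (p : Phase (m + (k + 1))) : ‖sideB p‖ ≤ ‖p‖ := by
  have h := norm_sq_side p
  apply le_of_sq_le_sq _ (norm_nonneg _)
  nlinarith [sq_nonneg (yB p), sq_nonneg ‖prW m (k + 1) p‖]

lemma norm_le_side (p : Phase (m + (k + 1))) : ‖p‖ ≤ ‖sideB p‖ + |yB p| + ‖prW m (k + 1) p‖ := by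
  have h := norm_sq_side p
  apply le_of_sq_le_sq _ (by positivity)
  have h1 := norm_nonneg (sideB p)
  have h2 := abs_nonneg (yB p)
  have h3 := norm_nonneg (prW m (k + 1) p)
  have h4 := sq_abs (yB p)
  nlinarith [mul_nonneg h1 h2, mul_nonneg h1 h3, mul_nonneg h2 h3]

lemma norm_sideB_le_prK (p : Phase (m + (k + 1))) : ‖sideB p‖ ≤ ‖prK m (k + 1) p‖ := by
  have h2 : ‖prK m (k + 1) p‖ ^ 2 = ‖sideB p‖ ^ 2 + yB p ^ 2 := by
    rw [prK_eq_side, norm_add_sq_real, inner_smul_right, inner_eB, sideB_inr, norm_smul, norm_eB]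
    simp
  apply le_of_sq_le_sq _ (norm_nonneg _)
  nlinarith [sq_nonneg (yB p)]

lemma contDiff_yB : ContDiff ℝ ∞ (yB : Phase (m + (k + 1)) → ℝ) :=
  ((EuclideanSpace.proj (Sum.inr (0 : Fin (k + 1))) : Phase (k + 1) →L[ℝ] ℝ).comp
    (prK m (k + 1))).contDiff

lemma continuous_yB : Continuous (yB : Phase (m + (k + 1)) → ℝ) := contDiff_yB.continuous

lemma contDiff_sideB : ContDiff ℝ ∞ (sideB : Phase (m + (k + 1)) → Phase (k + 1)) :=
  (prK m (k + 1)).contDiff.sub (contDiff_yB.smul contDiff_const)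

lemma continuous_sideB : Continuous (sideB : Phase (m + (k + 1)) → Phase (k + 1)) :=
  contDiff_sideB.continuous

end Pool.Agent.KRW
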