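import Mathlib
import Pool.Agent.KRW.Defs

/-!
# The exact sequence of `k`-rows: the statements

All statements are for arbitrary topological spaces `T` in `Type`, compact where stated.  `J = Jl k`,
`ω = omegaStd`, `pr = prK m k`, `w = prW m k`.  A point is `p = mkB (prK p) (prW p)`.
-/

set_option maxSynthPendingDepth 3

open scoped ContDiff Topology unitInterval
open Set Function TopologicalSpace Filter

namespace Pool.Agent.KRW

open Pool.Agent.Helper17 Pool.Agent.Helper42 Pool.Agent.H42.Hull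

/-! ### Linear algebra -/

/-- LI1.  PROOF.  `ω (hamL A ξ) x = -⟪ξ, A x⟫` (`omegaStd_eq_inner`, `Jl_Jl`, adjoint).  Put
`P = A.comp (hamL A)`; by `TameL` it is injective (`Pξ = 0 → ⟪Jξ, Pξ⟫ = 0 → ξ = 0`), hence invertible
(`cleOfInjective`), so `A (hl A u) = u`, and for `A v = 0` `ω (hl A u) v = -⟪P⁻¹u, A v⟫ = 0`.  With
`u = Pξ`: `ω (hl A u) (hl A (J u)) = -⟪ξ, J P ξ⟫ = ⟪Jξ, Pξ⟫ > 0`.  Third clause: `y = x - hl A (A x)` is
in `ker A`, `ω y v = 0` for `v ∈ ker A`, and `ω y (hl A u) = -ω (hl A u) y = 0`; each vector is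
`(v - hl A (A v)) + hl A (A v)`, so `y = 0` (`eq_zero_of_omegaStd`).  Smoothness: the adjoint is
linear (over `ℝ`), `contDiffAt_map_inverse` at an equivalence. -/
def St_lin1 : Prop :=
  ∀ (N k : ℕ) (A : Phase N →L[ℝ] Phase k), TameL A →
    (∀ u, A (hl A u) = u) ∧ (∀ u v, A v = 0 → omegaStd (hl A u) v = 0) ∧
    (∀ x, (∀ v, A v = 0 → omegaStd x v = 0) → x = hl A (A x)) ∧
    (∀ u, u ≠ 0 → 0 < omegaStd (hl A u) (hl A (Jl k u))) ∧
    ContDiffAt ℝ ∞ (fun B : Phase N →L[ℝ] Phase k => hl B) A ∧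
    (∀ v, A v = 0 → (∀ w, A w = 0 → omegaStd v w = 0) → v = 0)

/-- LI1.  PROOF.  `hamV (⟪u, F⟫) p = hamL (DF p) u` (both have `ω (·, x) = -⟪u, DF x⟫`, see
`omegaStd_hamV`, `fderiv_inner_comp`). -/
def St_jposTame : Prop :=
  ∀ (N k : ℕ) (F : Phase N → Phase k), Differentiable ℝ F →
    (JPos F ↔ ∀ p, TameL (fderiv ℝ F p))

/-- LI1.  PROOF.  `prK (J (incK u)) = J u` and `J_N (incK u) = incK (J_k u)` (induction on `k` with
`incK_mkP`, `Jl_mkP`), `prK (incK u) = u`. -/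
def St_hlStd : Prop := ∀ m k : ℕ, TameL (prK m k) ∧ hl (prK m k) = incK m k

/-- LI2.  PROOF.  For `ξ ≠ 0` let `x = hamL A ξ`, `ω x v = -⟪ξ, A v⟫`.  `y = x - h (A x) ∈ ker A`, `ω y` is
zero on `ker A` and on all `h u`; every `v` is `(v - h (A v)) + h (A v)`; so `x = h (A x)`.
`A x ≠ 0` (otherwise `ω x v = 0` for all `v`, so `⟪ξ, A v⟫ = 0`, `v = h ξ`: `ξ = 0`).  For `u = A x`:
`0 < ω (h u) (h (J u)) = ω x (h (J u)) = -⟪ξ, J u⟫ = ⟪Jξ, A x⟫`. -/
def St_lin2 : Prop :=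
  ∀ (N k : ℕ) (A : Phase N →L[ℝ] Phase k) (h : Phase k → Phase N), (∀ u, A (h u) = u) →
    (∀ u v, A v = 0 → omegaStd (h u) v = 0) →
    (∀ u, u ≠ 0 → 0 < omegaStd (h u) (h (Jl k u))) → TameL A

/-- LI2.  PROOF.  Put `A = prK ∘ M`, `B x y = ω (L x) (L y)`.  (⇐) For `v` in `ker A`, `M v = incW w`.
`B (incW w) (incW w') = ω (L incW w) (L incW w') = ω w w'` by the second condition.  If
`B x (incW w) = 0` for all `w` then `ω (L x) v = 0` for `v ∈ ker A`, so `L x = hl A (prK x)` (LI1), and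
similarly `L y = hl A (J prK x)`: `B x y > 0`.  (⇒) For `u` let `X u = -sharp (w ↦ B (incK u) (incW w))`,
so that `B (incK u + incW (X u)) (incW w) = 0` by the first part of `HTame`; put
`h u = L (incK u + incW (X u))` and use `St_lin2`. -/
def St_htame : Prop :=
  ∀ (m k : ℕ) (L M : Phase (m + k) →L[ℝ] Phase (m + k)), (∀ x, M (L x) = x) → (∀ x, L (M x) = x) →
    (HTame m k (fun x y => omegaStd (L x) (L y)) ↔
      TameL ((prK m k).comp M) ∧ ∀ u v, prK m k (M u) = 0 → prK m k (M v) = 0 →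
        omegaStd (prW m k (M u)) (prW m k (M v)) = omegaStd u v)

/-- LI3.  PROOF.  Write `B x y = ω (L x) (L y)`, `c = B - ω`, `c (incW ·) (incW ·) = 0`, and
`B' = ω + r c (D ·) (D ·)`, `D = sclB μ`.  Fibres: clear.  For `u : Phase k` let `X u : Phase m` with
`ω (X u) w = -c (incK u) (incW w)`; then `x = incK u + incW (X u)` are exactly the vectors with
`B x (incW w) = 0`, and `incK u + incW (r μ X u)` those with `B' · (incW w) = 0` (`u` is `prK` of them;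
uniqueness: `ω` is nondegenerate on `Phase m`).  `B'` of the vectors for `u` and `J u` is
`|u|² + r μ² (c (incK u) (incK J u) - r ω (X u) (X (J u)))`, and
`0 < B = |u|² + c (incK u) (incK J u) - ω (X u) (X (J u))`.  `|ω (X u) (X (J u))| ≤ a⁴ |u|²`, as
`|X u| ≤ ‖L‖² |u|` (`|ω (X u) w| = |B (incK u) (incW w)|`, `abs_omegaStd_le`, `w = J X u`).  So
`B' = (1 - r μ² (1 + (1-r) a⁴)) |u|² + r μ² B + r μ² (1-r) (a⁴ |u|² + ω (X u) (X (J u))) > 0` (for
`r = 0` it is `|u|²`).  Nondegenerate: if `B' x = 0` then `prK x = 0` by the positivity (with `y` the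
`B'`-horizontal vector over `J prK x`), so `x = incW w`, `w = 0`. -/
def St_scale : Prop :=
  ∀ (m k : ℕ) (L : Phase (m + k) →L[ℝ] Phase (m + k)) (a : ℝ), ‖L‖ ≤ a →
    HTame m k (fun x y => omegaStd (L x) (L y)) →
    ∀ r μ : ℝ, 0 ≤ r → r ≤ 1 → 0 < μ → r * μ ^ 2 * (1 + (1 - r) * a ^ 4) ≤ 1 →
      HTame m k (fun x y => omegaStd x y + r * (omegaStd (L (sclB m k μ x)) (L (sclB m k μ y)) -
        omegaStd (sclB m k μ x) (sclB m k μ y))) ∧
      ∀ x, (∀ y, omegaStd x y + r * (omegaStd (L (sclB m k μ x)) (L (sclB m k μ y)) -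
        omegaStd (sclB m k μ x) (sclB m k μ y)) = 0) → x = 0

/-! ### Moser's method -/

/-- MOS.  Moser's method for families of forms `ω + dβ_s` on the fibres `{d} × ℝ^{2n}`, smooth in `d`.
PROOF.  `Op (t,s,d,w) : Phase n →L Phase n` with `ω (Op a) b = vform (β t) s d w a b`, namely
`id + sharp ∘ (antisymmetrised derivative)`; it is injective for `s ∈ [0,1]`.  The field
`X (t,s) (d,w) = (0, -Op⁻¹ (sharp (∂_s β t (s,(d,w)))))` is a `CF` family over `T × I` on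
`D × Phase n` (`s` as a parameter: derivatives of `β t` in the first variable are continuous, compose
with the inclusion; `comp_smooth` with `ContinuousLinearMap.inverse`).  It is zero for `A < ‖d‖` or
`ρ < ‖w‖`, so its derivative is bounded (`exists_bound_fderiv`, as in `moser_family`).
`exists_flow`, `flow_ode`; the first component of the flow is `d`; `M` is the second component.
Conservation: for fixed `t, d` put `r, A` the orbit and the derivative in `w` (derivative of the flow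
applied to `(0, a)`); `ω (X) b + (Dβ X) b - (Dβ b) X = -(∂_s β) b` (second components); differentiate
this in the direction `a`, exchange `a, b`, subtract, and use the symmetry of the second derivative
of `β`: the derivative of `vform s (r s) (A a) (A b)` is zero (see `moser_conservation`).
Last clause: `∂_s β = 0` on `[0,1]` there (one-sided derivatives at the ends are enough, by
continuity of `∂_s β`), so the field is zero on `{d} × Phase n`. -/
def St_mosV : Prop :=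
  ∀ (n : ℕ) (D : Type) [NormedAddCommGroup D] [NormedSpace ℝ D] [FiniteDimensional ℝ D] (T : Type)
    [TopologicalSpace T] [CompactSpace T] (β : T → ℝ × (D × Phase n) → (Phase n →L[ℝ] ℝ))
    (A ρ : ℝ), CF β →
    (∀ t, ∀ s ∈ Icc (0 : ℝ) 1, ∀ d w, (A < ‖d‖ ∨ ρ < ‖w‖) → β t (s, (d, w)) = β t (0, (d, w))) →
    (∀ t, ∀ s ∈ Icc (0 : ℝ) 1, ∀ d w a, (∀ b, vform (β t) s d w a b = 0) → a = 0) →
    ∃ M : T × I → D × Phase n → Phase n, CF M ∧ (∀ t d w, M (t, 0) (d, w) = w) ∧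
      (∀ q d w, (A < ‖d‖ ∨ ρ < ‖w‖) → M q (d, w) = w) ∧
      (∀ t (s : I) d w a b, vform (β t) s d (M (t, s) (d, w))
        (fderiv ℝ (fun w' => M (t, s) (d, w')) w a) (fderiv ℝ (fun w' => M (t, s) (d, w')) w b) =
        vform (β t) 0 d w a b) ∧
      (∀ t d, (∀ s ∈ Icc (0 : ℝ) 1, ∀ w, β t (s, (d, w)) = β t (0, (d, w))) →
        ∀ s w, M (t, s) (d, w) = w)

/-- FBA.  Basic facts on `FFam`.  PROOF.  (1) If `DΦ u = 0` then for all `v` with
`prK (DΦ v) = 0` `ω u v = 0`, so `u = 0` by LI1 (last clause, `A = prK ∘ DΦ`, `St_jposTame`); inverse: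
`exists_CF_inverse`. -/
def St_fInv : Prop :=
  ∀ (m k : ℕ) (T : Type) [TopologicalSpace T] (R : ℝ) (Φ : T → Phase (m + k) → Phase (m + k)),
    FFam m k R Φ → (∀ t p, Injective (fderiv ℝ (Φ t) p)) ∧
      ∃ Ψ : T → Phase (m + k) → Phase (m + k), CF Ψ ∧ (∀ t p, Φ t (Ψ t p) = p) ∧
        (∀ t p, Ψ t (Φ t p) = p) ∧ ∀ t p, R < ‖p‖ → Ψ t p = p

/-- FBA.  Families of symplectomorphisms are fibrewise symplectic.  PROOF.  `JPos.comp`, and
`ω a b = ω (prW a) (prW b)` if `prK a = 0 = prK b`. -/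
def St_fSymp : Prop :=
  ∀ (m k : ℕ) (T : Type) [TopologicalSpace T] [CompactSpace T] (f : C(T, SympCt (m + k))),
    ∃ R : ℝ, 0 ≤ R ∧ FFam m k R (fun t p => (f t : Equiv.Perm (Phase (m + k))) p)

/-- FBA.  PROOF.  `mkSymp`, `continuous_of_CF`. -/
def St_fToSymp : Prop :=
  ∀ (m k : ℕ) (T : Type) [TopologicalSpace T] (R : ℝ) (Φ : T → Phase (m + k) → Phase (m + k)),
    FFam m k R Φ →
    (∀ t p u v, omegaStd (fderiv ℝ (Φ t) p u) (fderiv ℝ (Φ t) p v) = omegaStd u v) →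
    ∃ f : C(T, SympCt (m + k)), ∀ t p, (f t : Equiv.Perm (Phase (m + k))) p = Φ t p

/-- FBA.  PROOF.  `prK (Φ (ψ p)) = F₀ p`; if `prK (D(Φψ) u) = 0 = prK (D(Φψ) v)` then
`DF₀ u = 0 = DF₀ v`, and `ω (prW ..) (prW ..) = ω (Dψ u) (Dψ v) = ω u v`. -/
def St_fComp : Prop :=
  ∀ (m k : ℕ) (T : Type) [TopologicalSpace T] (R : ℝ) (Φ ψ : T → Phase (m + k) → Phase (m + k))
    (F₀ : T → Phase (m + k) → Phase k), FFam m k R Φ → CF ψ → (∀ t p, R < ‖p‖ → ψ t p = p) →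
    (∀ t p, prK m k (Φ t (ψ t p)) = F₀ t p) → (∀ t, JPos (F₀ t)) →
    (∀ t p u v, fderiv ℝ (F₀ t) p u = 0 → fderiv ℝ (F₀ t) p v = 0 →
      omegaStd (fderiv ℝ (ψ t) p u) (fderiv ℝ (ψ t) p v) = omegaStd u v) →
    FFam m k R (fun t p => Φ t (ψ t p))

/-- RET.  Deformation of fibrewise symplectic maps to symplectic maps.
PROOF.  `Ψ₀` the inverse family (`St_fInv`), `‖DΨ₀‖ ≤ a` everywhere, `C = a⁴`, `β₀ t x = ½ (ω (Ψ₀ x, DΨ₀ ·) - ω (x, ·))`
(zero for `R < ‖x‖`; its antisymmetrised derivative is `Ψ₀^* ω - ω`),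
`μ s = exp (-(C/2) s)`, `β t (s, x) = (1 - s) • (β₀ t (sclB (μ s) x)) ∘ sclB (μ s)` (a smooth family of
`(s, x) ∈ ℝ × Phase (m+k)`; zero for `s ∈ [0,1]`, `R exp (C/2) + R < ‖x‖`... ).  `vform` at `s` is the form
`ω + r (Ψ₀^*ω - ω)(sclB μ ·, sclB μ ·)` at the point `sclB μ x`, with `r = 1 - s`,
`r μ² (1 + (1-r) C) ≤ 1` as `exp (C s) ≥ 1 + C s`.  At `x`, `L = DΨ₀ x`, `M = DΦ (Ψ₀ x)`: `HTame` by `St_htame`
(⇐), so by `St_scale` all forms are nondegenerate and `HTame`.  `St_mosV` with `D = Phase 0` gives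
`M (t,s)`; put `Ψ (t,s) p = M (t,s) (Φ t p)`: then `vform s (DΨ u) (DΨ v) = ω u v`, so `Ψ (t,s)` is in
`FFam` by `St_htame` (⇒) (`L'` the inverse of `DΨ`; `DΨ` is injective), `St_jposTame`; for `s = 1` it is
symplectic (`vform = ω`), use `St_fToSymp`.  If `Φ t` is symplectic then all forms are `ω`.  If `Φ t = id` then
`β t = 0` and `M = id`. -/
def St_ret : Prop :=
  ∀ (m k : ℕ) (T : Type) [TopologicalSpace T] [CompactSpace T] (R : ℝ)
    (Φ : T → Phase (m + k) → Phase (m + k)), 0 ≤ R → FFam m k R Φ →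
    ∃ (R' : ℝ) (Ψ : T × I → Phase (m + k) → Phase (m + k)) (f : C(T, SympCt (m + k))), R ≤ R' ∧
      FFam m k R' Ψ ∧ (∀ t p, Ψ (t, 0) p = Φ t p) ∧
      (∀ t p, Ψ (t, 1) p = (f t : Equiv.Perm (Phase (m + k))) p) ∧
      (∀ t, (∀ p u v, omegaStd (fderiv ℝ (Φ t) p u) (fderiv ℝ (Φ t) p v) = omegaStd u v) →
        ∀ s p u v, omegaStd (fderiv ℝ (Ψ (t, s)) p u) (fderiv ℝ (Ψ (t, s)) p v) = omegaStd u v) ∧
      (∀ t, (∀ p, Φ t p = p) → ∀ s p, Ψ (t, s) p = p)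

/-! ### Horizontal fields, transport, covering homotopies -/

/-- HOR.  Horizontal fields preserve the form on the kernels.
PROOF.  Fix `s`; `α x = ω (X s x, ·)` vanishes on `ker DF_s(x)`, so `α x = λ x ∘ DF_s(x)` with
`λ x u = ω (X s x) (hl (DF_s x) u)` (`v - hl (DF v)` is in the kernel), `λ` differentiable by LI1
(smoothness of `hl`).  For `a, b ∈ ker DF_s(x)`: `ω (DX a) b + ω a (DX b) = (D_a α) b - (D_b α) a`, and
`(D_a α) b = (D_a λ)(DF b) + λ (D²F (a, b))`, `DF b = 0`, `D²F` symmetric: it is zero.  So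
`s ↦ ω (A s u) (A s v)` has derivative zero on `[0,1]`. -/
def St_hor : Prop :=
  ∀ (N k : ℕ) (F : ℝ → Phase N → Phase k) (X : ℝ → Phase N → Phase N) (r : ℝ → Phase N)
    (A : ℝ → Phase N →L[ℝ] Phase N), (∀ s, ContDiff ℝ ∞ (F s)) → (∀ s, Differentiable ℝ (X s)) →
    (∀ s ∈ Icc (0 : ℝ) 1, ∀ x, TameL (fderiv ℝ (F s) x)) →
    (∀ s ∈ Icc (0 : ℝ) 1, ∀ x v, fderiv ℝ (F s) x v = 0 → omegaStd (X s x) v = 0) →
    (∀ s ∈ Icc (0 : ℝ) 1, HasDerivAt r (X s (r s)) s) →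
    (∀ s ∈ Icc (0 : ℝ) 1, HasDerivAt A ((fderiv ℝ (X s) (r s)).comp (A s)) s) →
    ∀ u v, (∀ s ∈ Icc (0 : ℝ) 1, fderiv ℝ (F s) (r s) (A s u) = 0) →
      (∀ s ∈ Icc (0 : ℝ) 1, fderiv ℝ (F s) (r s) (A s v) = 0) →
      omegaStd (A 1 u) (A 1 v) = omegaStd (A 0 u) (A 0 v)

/-- TRA.  Transport along segments.
PROOF.  `F_s = (1-s) F₀ + s F₁`, `X (t,s) p = hl (DF_s p) (F₀ t p - F₁ t p)`, a `CF` family over `T × I`
(LI1, `comp_smooth`), zero for `R < ‖p‖`; `exists_flow`, `flow_ode`: `ρ (t,s)`.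
`d/ds F_s (ρ_s p) = (F₁ - F₀)(ρ_s p) + DF_s (X) = 0`, so `F_s ∘ ρ_s = F₀`; derivative:
`DF_s (ρ_s p) (Dρ_s u) = DF₀ p u`.  `ψ = ρ (·, 1)`, `St_hor`. -/
def St_tr : Prop :=
  ∀ (m k : ℕ) (T : Type) [TopologicalSpace T] [CompactSpace T] (R : ℝ)
    (F₀ F₁ : T → Phase (m + k) → Phase k), 0 ≤ R → CF F₀ → CF F₁ →
    (∀ t p, R < ‖p‖ → F₀ t p = prK m k p ∧ F₁ t p = prK m k p) →
    (∀ t (s : I), JPos (fun p => (1 - (s : ℝ)) • F₀ t p + (s : ℝ) • F₁ t p)) →
    ∃ ψ : T → Phase (m + k) → Phase (m + k), CF ψ ∧ (∀ t p, R < ‖p‖ → ψ t p = p) ∧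
      (∀ t p, F₁ t (ψ t p) = F₀ t p) ∧
      (∀ t p u v, fderiv ℝ (F₀ t) p u = 0 → fderiv ℝ (F₀ t) p v = 0 →
        omegaStd (fderiv ℝ (ψ t) p u) (fderiv ℝ (ψ t) p v) = omegaStd u v) ∧
      (∀ t, (∀ p, F₀ t p = F₁ t p) → ∀ p, ψ t p = p)

/-- SEG.  PROOF.  `⟪J u, A (hamL A u)⟫` with `A = (1-l) DF(t,s) p + l DF(t,s') p` is continuous in
`(t, s, s', l, p, u)`; for `‖p‖ ≤ R + 1`, `‖u‖ = 1` this is a compact set, and the value is positive for
`s = s'`; so it is positive for `|s - s'| ≤ δ` (by contradiction with a cluster point, or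
`IsCompact`/uniform continuity).  For `R < ‖p‖` `A = prK` is tame (LI1). -/
def St_seg : Prop :=
  ∀ (m k : ℕ) (T : Type) [TopologicalSpace T] [CompactSpace T] (R : ℝ)
    (F : T × I → Phase (m + k) → Phase k), 0 ≤ R → JFam m k R F →
    ∃ δ : ℝ, 0 < δ ∧ ∀ t (s s' : I), |(s : ℝ) - s'| ≤ δ → ∀ l : I,
      JPos (fun p => (1 - (l : ℝ)) • F (t, s) p + (l : ℝ) • F (t, s') p)

/-- COV.  The covering homotopy theorem.
PROOF.  `δ` from `St_seg`, `1 ≤ n δ`.  By induction on `i` there is `Φ_i : T × I → ..`, `FFam`, over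
`F (t, min s (i δ))`, `Φ_i (t, 0) = Φ₀ t`, and the last clause: `Φ_{i+1} (t,s) = Φ_i (t,s) ∘ ψ (t,s)`, `ψ` from
`St_tr` (parameter space `T × I`) for `F₀ = F (t, min s ((i+1) δ))`, `F₁ = F (t, min s (i δ))`;
`St_fComp`. -/
def St_cov : Prop :=
  ∀ (m k : ℕ) (T : Type) [TopologicalSpace T] [CompactSpace T] (R : ℝ)
    (F : T × I → Phase (m + k) → Phase k) (Φ₀ : T → Phase (m + k) → Phase (m + k)), 0 ≤ R →
    JFam m k R F → FFam m k R Φ₀ → (∀ t p, prK m k (Φ₀ t p) = F (t, 0) p) →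
    ∃ Φ : T × I → Phase (m + k) → Phase (m + k), FFam m k R Φ ∧
      (∀ q p, prK m k (Φ q p) = F q p) ∧ (∀ t p, Φ (t, 0) p = Φ₀ t p) ∧
      ∀ t, (∀ s p, F (t, s) p = F (t, 0) p) → ∀ s p, Φ (t, s) p = Φ₀ t p

/-! ### The trivialisation along the horizontal curves over the `y_0`-axis -/

/-- TR1.  PROOF.  `Y t p = hl (DF t p) (eB k)`, a `CF` family, equal to `incK (eB k)` for `R < ‖p‖`;
bounded derivative; global flow `θ` (`exists_global_flow`, H50/Susp/GFlow.lean; see also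
`exists_straightFam`, H50/Susp/Straighten.lean, for the whole proof);
`F t (θ t τ p) = F t p + τ • eB k`.  `e = incK (eB k)`; `R'` larger than `R` and all `‖F t p‖`, `‖p‖ ≤ R`, so that
`F t p = prK p` if `|yB| ≥ R'` at `F t p`.  Straight motion: if the segment from `p` to `p + c • e` is outside
the ball then `θ t c p = p + c • e`.  `Ξ t p = θ t (yB p + R') (p - (yB p + R') • e)`; for every constant
`c ≥ yB p + R'` it is `θ t c (p - c • e)`, so `CF` by `CF.of_local` (no smoothness in the time is needed).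
`Θ t p = θ t (-c) p + c • e` for all large `c` (`c ≥ y + R'`, `y = (F t p) (inr 0)`).
`left`, `side`, `side'`, `ray`: straight motion (`side'` for `r < ‖sideB p‖`, then closure).  `rayK`: `F (Ξ p) = prK p`
is outside of `F (ball)`, so `F = prK` at `Ξ p`.  `symp`: `St_hor` for `F s = F t`, the field `c • Y` on `[0,1]`
(last clause of `exists_global_flow`), `D F (A (incW v)) = 0` by `F (θ t (s c) x) = F x + (s c) • eB k`.
`hor`: derivative of the flow, LI1.  `uniq`: an `IsHor` curve is an orbit of `Y` (LI1, third clause), hence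
`c s' = θ t (s' - s) (c s)` (`ode_unique_univ`).  `triv`: `hl prK = incK` (`St_hlStd`). -/
def St_triv1 : Prop :=
  ∀ (m k : ℕ) (T : Type) [TopologicalSpace T] [CompactSpace T] (R : ℝ)
    (F : T → Phase (m + (k + 1)) → Phase (k + 1)), 0 ≤ R → JFam m (k + 1) R F →
    ∃ (R' : ℝ) (Ξ Θ : T → Phase (m + (k + 1)) → Phase (m + (k + 1))), R < R' ∧
      Triv1 m k R' F Ξ Θ

/-- TR2.  PROOF.  `E t p = prW (Ξ t (p + (R' - yB p) • incK (eB k)))`.  `right`: `ray` and `rayK`.  `fam.symp`: at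
`p₀ = p + (R' - yB p) e` the point `Ξ t p₀` is outside the ball of radius `R`, so
`prK (DΞ (incW v)) = DF (DΞ (incW v)) = prK (incW v) = 0`.  `orbit`: `Θ (c s) = c s` (`left`),
`q = Θ (c s') = c s + (s' - s) e`, `prK q = F (c s') = prK (c s')`, so `R' ≤ yB q` and
`prW (c s') = prW (Ξ q) = E t q = E t (c s)`. -/
def St_triv2 : Prop :=
  ∀ (m k : ℕ) (T : Type) [TopologicalSpace T] (R R' : ℝ)
    (F : T → Phase (m + (k + 1)) → Phase (k + 1))
    (Ξ Θ : T → Phase (m + (k + 1)) → Phase (m + (k + 1))), 0 ≤ R → JFam m (k + 1) R F → R < R' →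
    Triv1 m k R' F Ξ Θ → ∃ E : T → Phase (m + (k + 1)) → Phase m, Trivia m k R' F Ξ Θ E

/-- The trivialisation (`St_triv1`, `St_triv2`). -/
def St_trivia : Prop :=
  ∀ (m k : ℕ) (T : Type) [TopologicalSpace T] [CompactSpace T] (R : ℝ)
    (F : T → Phase (m + (k + 1)) → Phase (k + 1)), 0 ≤ R → JFam m (k + 1) R F →
    ∃ (R' : ℝ) (Ξ Θ : T → Phase (m + (k + 1)) → Phase (m + (k + 1)))
      (E : T → Phase (m + (k + 1)) → Phase m), R < R' ∧ Trivia m k R' F Ξ Θ E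

lemma trivia_of (h1 : St_triv1) (h2 : St_triv2) : St_trivia := by
  intro m k T _ _ R F hR hF
  obtain ⟨R', Ξ, Θ, hR', h⟩ := h1 m k T R F hR hF
  obtain ⟨E, hE⟩ := h2 m k T R R' F Ξ Θ hR hF hR' h
  exact ⟨R', Ξ, Θ, E, hR', hE⟩

/-! ### Families of symplectic maps of the fibre -/

/-- VFA.  PROOF.  Continuity of the inverse: `continuous_inverse_family` with the parameter space
`T × Phase k` on `Phase m`; then the proof of `CF_inverse` (Helper42/Susp/CFInverse.lean) for the maps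
`mapW (W t)` of `Phase (m + k)`, whose derivatives are injective. -/
def St_vInv : Prop :=
  ∀ (m k : ℕ) (T : Type) [TopologicalSpace T] (R : ℝ) (W : T → Phase (m + k) → Phase m),
    VFam m k R W → ∃ V : T → Phase (m + k) → Phase m, VFam m k R V ∧
      (∀ t p, V t (mapW m k (W t) p) = prW m k p) ∧ ∀ t p, W t (mapW m k (V t) p) = prW m k p

/-- VFA.  Composition. -/
def St_vComp : Prop :=
  ∀ (m k : ℕ) (T : Type) [TopologicalSpace T] (R : ℝ) (W V : T → Phase (m + k) → Phase m),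
    VFam m k R W → VFam m k R V → VFam m k R (fun t p => W t (mapW m k (V t) p))

/-- VFA.  PROOF.  `D(mapW W) u = mkB (prK u) (DW u)`; if `prK u = 0` then `u = incW (prW u)`. -/
def St_vMap : Prop :=
  ∀ (m k : ℕ) (T : Type) [TopologicalSpace T] (R : ℝ) (W : T → Phase (m + k) → Phase m),
    VFam m k R W → (∀ t p, R ≤ ‖prK m k p‖ → W t p = prW m k p) →
    FFam m k (2 * R) (fun t => mapW m k (W t))

/-- VFA.  Fibrewise symplectic maps over the projection. -/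
def St_vOf : Prop :=
  ∀ (m k : ℕ) (T : Type) [TopologicalSpace T] (R : ℝ) (Φ : T → Phase (m + k) → Phase (m + k)),
    FFam m k R Φ → (∀ t p, prK m k (Φ t p) = prK m k p) →
    VFam m k R (fun t p => prW m k (Φ t p)) ∧
      ∀ t p, R < ‖prK m k p‖ → prW m k (Φ t p) = prW m k p

/-- VFA.  PROOF.  `mkSymp`, `continuous_of_CF`. -/
def St_vCont : Prop :=
  ∀ (m k : ℕ) (T : Type) [TopologicalSpace T] (R : ℝ) (W : T → Phase (m + k) → Phase m),
    VFam m k R W → ∀ (S : Type) [TopologicalSpace S] (c : S → T) (b : S → Phase k), Continuous c →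
    Continuous b → ∃ f : C(S, SympCt m), ∀ s w,
      (f s : Equiv.Perm (Phase m)) w = W (c s) (mkB m k (b s) w)

/-! ### Boxes -/

/-- BOX.  The cube coordinates. -/
def St_box : Prop :=
  ∀ (k : ℕ) (ρ : ℝ), 0 < ρ →
    Continuous (clB ρ : Phase (k + 1) → Bx k × (I × I)) ∧
    (∀ z s, clB ρ (bxPt ρ z s : Phase (k + 1)) = (z, s)) ∧
    (∀ b : Phase (k + 1), (∀ i, |b i| ≤ ρ) → bxPt ρ (clB ρ b).1 (clB ρ b).2 = b) ∧
    (∀ b : Phase (k + 1), (∃ i, ρ ≤ |b i|) → (clB ρ b).1 ∈ bdB k ∨ (clB ρ b).2 ∈ sqBd) ∧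
    (∀ b : Phase (k + 1), (∃ i, i ≠ Sum.inr 0 ∧ ρ ≤ |b i|) →
      (clB ρ b).1 ∈ bdB k ∨ (clB ρ b).2.1 = 0 ∨ (clB ρ b).2.1 = 1) ∧
    (∀ b : Phase (k + 1), ‖b‖ ≤ Real.sqrt (2 * k + 2) * ρ ∨ ∃ i, ρ ≤ |b i|) ∧
    (∀ (z : Bx k) (s : I × I), (z ∈ bdB k ∨ s ∈ sqBd) → ∀ r : ℝ, ρ ≤ r →
      ∃ i, ρ ≤ |(bxPt r z s : Phase (k + 1)) i|) ∧
    (∀ (z : Bx k) (a b : I), (z ∈ bdB k ∨ a = 0 ∨ a = 1) → ∀ r : ℝ, ρ ≤ r → ∀ p : Phase (k + 1),
      p - (p (Sum.inr 0)) • eB k = bxPt r z (a, b) -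
        ((bxPt r z (a, b) : Phase (k + 1)) (Sum.inr 0)) • eB k →
      ρ ≤ ‖p - (p (Sum.inr 0)) • eB k‖) ∧
    Continuous (fun q : ℝ × (Bx k × (I × I)) => (bxPt q.1 q.2.1 q.2.2 : Phase (k + 1)))

/-- RAD.  Changing the radius of a cube family.  PROOF.  `g₁` by `St_vCont`; the homotopy is
`W t (mkB (bxPt ((1-s) R + s R₁) z ..) w)`; on `bdS` a coordinate is at least `R` (`St_box`). -/
def St_rad : Prop :=
  ∀ (m k : ℕ) (T : Type) [TopologicalSpace T] (T0 : Set T) (R R₁ R₂ : ℝ)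
    (W : T → Phase (m + (k + 1)) → Phase m) (g : C((T × Bx k) × (I × I), SympCt m)), 0 < R →
    R ≤ R₁ → VFam m (k + 1) R₂ W → IsCube R W g →
    (∀ t ∈ T0, ∀ p, W t p = prW m (k + 1) p) →
    (∀ q ∈ bdS k T0, g q = 1) ∧ ∃ g₁ : C((T × Bx k) × (I × I), SympCt m), IsCube R₁ W g₁ ∧
      g.HomotopicRel g₁ (bdS k T0)

/-! ### Scattering -/

/-- SCE.  The values of a scattering.  PROOF.  Apply `IsScatAt` to the curve `hor` through the point
`p` with `sideB p = ` side of `bxPt ρ z (a, b)`, `yB p = -max ρ R'`, `prW p = w` (`Ξ t p = p` by `left`), and a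
large time (`right`); `E` does not depend on `yB` (`exit`). -/
def St_scVal : Prop :=
  ∀ (m k : ℕ) (T : Type) [TopologicalSpace T] (R' ρ : ℝ)
    (F : T → Phase (m + (k + 1)) → Phase (k + 1))
    (Ξ Θ : T → Phase (m + (k + 1)) → Phase (m + (k + 1)))
    (E : T → Phase (m + (k + 1)) → Phase m) (e : C((T × Bx k) × I, SympCt m)), 0 < ρ →
    Trivia m k R' F Ξ Θ E → IsScatAt ρ F e → ∀ t z a b w,
      (e ((t, z), a) : Equiv.Perm (Phase m)) (E t (mkB m (k + 1) (bxPt ρ z (a, b)) w)) = w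

/-- SCE.  Existence of scatterings.  PROOF.  `Ξ, Θ, E` of `St_trivia`, `V` the inverse of `E`
(`St_vInv`), `ρ₀ = R'`; `e ((t, z), a) w = V t (mkB (bxPt ρ z (a, 0)) w)` (`St_vCont`).  For `IsScatAt` use
`orbit` and `exit`: `prW (c s') = E t (c s) = E t (mkB (bxPt ..) (prW (c s)))`.  Boundary: `z ∈ bdB` or
`a = 0, 1` gives a coordinate `± ρ`, so `ρ ≤ ‖sideB‖`, and `E = prW` (`exit_side`). -/
def St_scEx : Prop :=
  ∀ (m k : ℕ) (T : Type) [TopologicalSpace T] [CompactSpace T] (R : ℝ)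
    (F : T → Phase (m + (k + 1)) → Phase (k + 1)), 0 ≤ R → JFam m (k + 1) R F →
    ∃ ρ₀ : ℝ, 0 < ρ₀ ∧ ∀ ρ, ρ₀ ≤ ρ → ∃ e : C((T × Bx k) × I, SympCt m), IsScatAt ρ F e ∧
      (∀ t, (∀ p, F t p = prK m (k + 1) p) → ∀ z a, e ((t, z), a) = 1) ∧
      ∀ q ∈ bdE k (∅ : Set T), e q = 1

/-- SCU.  Uniqueness of scatterings.  PROOF.  `IsScatAt ρ F e` implies
`e ((t,z),a) (E t (mkB (bxPt ρ z (a,b)) w)) = w`: use the `IsHor` curve `hor` through the point with side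
coordinates `bxPt ρ z (a, _)`, `y_0 ≤ -max ρ R'`, and its exit (`orbit`).  So with `V` inverse to `E`
`e ((t,z),a) w = V t (mkB (bxPt ρ z (a,0)) w)`; the homotopy is the same formula with the radius
`(1-s) ρ + s ρ'` (`St_vCont`).  For `q ∈ bdE k T0`: `F t = prK` gives `E t = prW` (`triv`), otherwise
`min ρ ρ' ≤ ‖sideB‖` and `exit_side'` with `r = min ρ ρ'`. -/
def St_scUn : Prop :=
  ∀ (m k : ℕ) (T : Type) [TopologicalSpace T] [CompactSpace T] (T0 : Set T) (R : ℝ)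
    (F : T → Phase (m + (k + 1)) → Phase (k + 1)), 0 ≤ R → JFam m (k + 1) R F →
    (∀ t ∈ T0, ∀ p, F t p = prK m (k + 1) p) →
    ∀ (ρ ρ' : ℝ) (e e' : C((T × Bx k) × I, SympCt m)), 0 < ρ → 0 < ρ' → IsScatAt ρ F e →
      IsScatAt ρ' F e' → e.HomotopicRel e' (bdE k T0) ∧ ∀ q ∈ bdE k T0, e q = 1

/-- LUP.  A lift gives a path from the identity to the exit map.
PROOF.  `U t p = prW (Φ t (Ξ t p))`; `prK (Φ (Ξ p)) = F (Ξ p) = prK p`.  `R₁ = R' + R + 1`; for `R₁ ≤ yB p`: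
`Ξ t p = mkB (prK p) (E t p)` has norm larger than `R`, so `Φ` fixes it.  `symp`: `DΞ (incW v)` is mapped by
`DΦ` to a vector with `prK = 0`. -/
def St_lu : Prop :=
  ∀ (m k : ℕ) (T : Type) [TopologicalSpace T] (R R' : ℝ)
    (F : T → Phase (m + (k + 1)) → Phase (k + 1))
    (Ξ Θ : T → Phase (m + (k + 1)) → Phase (m + (k + 1)))
    (E : T → Phase (m + (k + 1)) → Phase m) (Φ : T → Phase (m + (k + 1)) → Phase (m + (k + 1))),
    0 ≤ R → Trivia m k R' F Ξ Θ E → FFam m (k + 1) R Φ →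
    (∀ t p, prK m (k + 1) (Φ t p) = F t p) →
    ∃ (R₁ : ℝ) (U : T → Phase (m + (k + 1)) → Phase m), R' ≤ R₁ ∧ VFam m (k + 1) R₁ U ∧
      (∀ t p, Φ t (Ξ t p) = mapW m (k + 1) (U t) p) ∧
      (∀ t p, (yB p ≤ -R₁ ∨ R₁ ≤ ‖sideB p‖) → U t p = prW m (k + 1) p) ∧
      (∀ t p, R₁ ≤ yB p → U t p = E t p)

/-- ULI.  A path from the identity to the exit map gives a lift.
PROOF.  `Φ t p = mkB (F t p) (U t (Θ t p))`; `prK (Θ t p) = F t p`.  Outside a large ball `Φ t p = p`: if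
`‖prW p‖` or `‖sideB p‖` or `-yB p` is large, `Ξ t p = p = Θ t p`, `U = prW`; if `R₁ ≤ yB p` then `q = Θ t p` has
`prK q = F t p = prK p`, `p = Ξ t q = mkB (prK q) (E t q)`, `U t q = E t q`.  Fibrewise symplectic: if
`DF u = 0` then `DΘ u = incW v`, `u = DΞ (incW v)`. -/
def St_ul : Prop :=
  ∀ (m k : ℕ) (T : Type) [TopologicalSpace T] (R R' R₁ : ℝ)
    (F : T → Phase (m + (k + 1)) → Phase (k + 1))
    (Ξ Θ : T → Phase (m + (k + 1)) → Phase (m + (k + 1)))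
    (E U : T → Phase (m + (k + 1)) → Phase m), 0 ≤ R → JFam m (k + 1) R F → R ≤ R' →
    Trivia m k R' F Ξ Θ E → R' ≤ R₁ → VFam m (k + 1) R₁ U →
    (∀ t p, (yB p ≤ -R₁ ∨ R₁ ≤ ‖sideB p‖) → U t p = prW m (k + 1) p) →
    (∀ t p, R₁ ≤ yB p → U t p = E t p) →
    ∃ R₂ : ℝ, 0 ≤ R₂ ∧ FFam m (k + 1) R₂ (fun t p => mkB m (k + 1) (F t p) (U t (Θ t p))) ∧
      ∀ t, (∀ p, F t p = prK m (k + 1) p) → (∀ p, U t p = prW m (k + 1) p) →
        ∀ p, mkB m (k + 1) (F t p) (U t (Θ t p)) = p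

/-- LNU.  The scattering of a family with a lift is null-homotopic.
PROOF.  `St_trivia`, `St_lu`: `U`.  Let `ρ = R₁`; by `St_scUn` (and `St_scEx`) we may assume that
`e ((t,z),a) w = V t (mkB (bxPt ρ z (a,0)) w)`, `V` inverse to `E` (take for `e'` the scattering with radius `ρ`).
`h ((t,z),a), y) w = U t (mkB (bxPt ρ z (a, y)) w)`, `y ∈ I` (`St_vCont`) is a homotopy from `1` to `e'⁻¹`;
the homotopy `y ↦ h⁻¹` (`continuous_inv_family`) goes from `1` to `e'`. -/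
def St_lNull : Prop :=
  ∀ (m k : ℕ) (T : Type) [TopologicalSpace T] [CompactSpace T] (T0 : Set T) (R : ℝ)
    (F : T → Phase (m + (k + 1)) → Phase (k + 1))
    (Φ : T → Phase (m + (k + 1)) → Phase (m + (k + 1))), 0 ≤ R → JFam m (k + 1) R F →
    FFam m (k + 1) R Φ → (∀ t p, prK m (k + 1) (Φ t p) = F t p) → (∀ t ∈ T0, ∀ p, Φ t p = p) →
    ∀ e : C((T × Bx k) × I, SympCt m), IsScatF F e →
      e.HomotopicRel (ContinuousMap.const _ 1) (bdE k T0)

/-! ### Smoothing -/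

/-- FMO.  Moser's method in the fibres, cut off in the base.
PROOF.  `Ψ t (d, w) = w + c t (d, w)`, `τ t (d, w) = ω (c, ·) + ½ ω (c, D_w c ·)` (as `midForm`; its
antisymmetrised derivative in `w` is `Ψ^*ω - ω`).  `St_mosV` for `β t (s, (d, w)) = (s κ(d)) • τ t (d, w)`:
`vform = (1 - κ s) ω + κ s Ψ^*ω`, nondegenerate as `κ s ∈ [0,1]`.  `V (t,s) (d,w) = Ψ t (d, M (t,s) (d,w))`.
Admissible: `(1-a) ω + a V^*ω` at `w` is the pull-back by `M` of
`(1-a)((1-κs) ω + κ s Ψ^*ω) + a Ψ^*ω = (1-σ) ω + σ Ψ^*ω`, `σ = (1-a) κ s + a ∈ [0,1]`. -/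
def St_fmo : Prop :=
  ∀ (n : ℕ) (D : Type) [NormedAddCommGroup D] [NormedSpace ℝ D] [FiniteDimensional ℝ D] (T : Type)
    [TopologicalSpace T] [CompactSpace T] (c : T → D × Phase n → Phase n) (κ : D → ℝ) (A ρ : ℝ),
    CF c → ContDiff ℝ ∞ κ → (∀ d, 0 ≤ κ d ∧ κ d ≤ 1) → (∀ t d w, ρ < ‖w‖ → c t (d, w) = 0) →
    (∀ d, A < ‖d‖ → κ d = 0 ∨ ∀ t w, c t (d, w) = 0) →
    (∀ t d w, Admissible (ContinuousLinearMap.id ℝ (Phase n) +
      fderiv ℝ (fun w' => c t (d, w')) w)) →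
    (∀ t d, κ d ≠ 1 → ∀ w a b, omegaStd (a + fderiv ℝ (fun w' => c t (d, w')) w a)
      (b + fderiv ℝ (fun w' => c t (d, w')) w b) = omegaStd a b) →
    ∃ V : T × I → D × Phase n → Phase n, CF V ∧ (∀ t d w, V (t, 0) (d, w) = w + c t (d, w)) ∧
      (∀ q d w, ρ < ‖w‖ → V q (d, w) = w) ∧
      (∀ q d w, Admissible (fderiv ℝ (fun w' => V q (d, w')) w)) ∧
      (∀ t d w a b, omegaStd (fderiv ℝ (fun w' => V (t, 1) (d, w')) w a)
        (fderiv ℝ (fun w' => V (t, 1) (d, w')) w b) = omegaStd a b) ∧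
      (∀ t s d, κ d = 0 → ∀ w, V (t, s) (d, w) = w + c t (d, w)) ∧
      (∀ t s d, (∀ w, c t (d, w) = 0) → ∀ w, V (t, s) (d, w) = w)

/-- SMO.  Relative smoothing in the base variables.
PROOF.  `χ₁ (y) = 1` for `y ≤ 4`, `0` for `y ≥ 5` (smooth).  `exists_moll` (H50/Susp/Moll.lean, base `D × ℝ`) for
`χ₁ (y) • (u (t,(d,y)) w - w)`: `m`.  `c t ((d,y),w) = χ (y) • m + (1 - χ (y)) • (E t (d,w) - w)`, `χ = 1` for `y ≤ 2`,
`0` for `y ≥ 3`.  `D_w c` is `δ`-close to `D_w u - 1` (for `y ≥ 2` `u = E`), so admissible for small `δ`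
(`admissible_of_norm_sub`).  `κ (y) = 1` for `y ≤ 3`, `0` for `y ≥ 4`: for `κ ≠ 1`, `id + c = E` is symplectic.
`St_fmo`, `W t = V (t, 1)`.  `m = 0` for `y < -1`, for `A + 1 < ‖d‖` and for `t` with `u (t, ·) = id` by the
locality clause of `exists_moll`; `E t (d, ·) = id` for `A < ‖d‖` (as `u (t,(d,1)) = E t (d, ·)`). -/
def St_smo : Prop :=
  ∀ (n : ℕ) (D : Type) [NormedAddCommGroup D] [NormedSpace ℝ D] [FiniteDimensional ℝ D] (T : Type)
    [TopologicalSpace T] [CompactSpace T] (u : T × (D × ℝ) → Phase n → Phase n)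
    (E : T → D × Phase n → Phase n) (A ρ : ℝ), 0 ≤ A → 0 ≤ ρ → CF u → CF E →
    (∀ q w, ρ < ‖w‖ → u q w = w) → (∀ t d w, ρ < ‖w‖ → E t (d, w) = w) →
    (∀ q w a b, omegaStd (fderiv ℝ (u q) w a) (fderiv ℝ (u q) w b) = omegaStd a b) →
    (∀ t d y w, A < ‖d‖ → u (t, (d, y)) w = w) → (∀ t d y w, y ≤ 0 → u (t, (d, y)) w = w) →
    (∀ t d y w, 1 ≤ y → u (t, (d, y)) w = E t (d, w)) →
    ∃ (B : ℝ) (W : T → (D × ℝ) × Phase n → Phase n), 1 ≤ B ∧ CF W ∧
      (∀ t q w, ρ < ‖w‖ → W t (q, w) = w) ∧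
      (∀ t q w a b, omegaStd (fderiv ℝ (fun w' => W t (q, w')) w a)
        (fderiv ℝ (fun w' => W t (q, w')) w b) = omegaStd a b) ∧
      (∀ t d y w, (B ≤ ‖d‖ ∨ y ≤ -B) → W t ((d, y), w) = w) ∧
      (∀ t d y w, B ≤ y → W t ((d, y), w) = E t (d, w)) ∧
      (∀ t, (∀ q w, u (t, q) w = w) → ∀ q w, W t (q, w) = w)

/-- SM0.  Absolute smoothing in the base variables, with the homotopy.
PROOF.  `exists_moll` for `u - id`: `c`, `D_w c` close to `D_w u - 1`; `St_fmo` with `κ = 1`; `W t = V (t, 1)`.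
Homotopy: over `(S, λ)` the family `(1-λ) u (c s) + λ (w + c ..)` (admissible, close to symplectic)
followed by `V (.., s')` (admissible), glued with `hf1, hf2` (`CF.glue`); `moser_iso` (H50/Susp/Exact1.lean)
for the total family `S × I`: it gives `φ : C(S × I, SympCt n)` with `f ~ φ (·, 0)`, `φ (·, 1) ~ g`, all rel the set.
On the set the total family is the identity. -/
def St_sm0 : Prop :=
  ∀ (n : ℕ) (D : Type) [NormedAddCommGroup D] [NormedSpace ℝ D] [FiniteDimensional ℝ D] (T : Type)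
    [TopologicalSpace T] [CompactSpace T] (u : T × D → Phase n → Phase n) (A ρ : ℝ), 0 ≤ A →
    0 ≤ ρ → CF u → (∀ q w, ρ < ‖w‖ → u q w = w) →
    (∀ q w a b, omegaStd (fderiv ℝ (u q) w a) (fderiv ℝ (u q) w b) = omegaStd a b) →
    (∀ t d w, A < ‖d‖ → u (t, d) w = w) →
    ∃ W : T → D × Phase n → Phase n, CF W ∧ (∀ t d w, (ρ < ‖w‖ ∨ A + 2 ≤ ‖d‖) → W t (d, w) = w) ∧
      (∀ t d w a b, omegaStd (fderiv ℝ (fun w' => W t (d, w')) w a)
        (fderiv ℝ (fun w' => W t (d, w')) w b) = omegaStd a b) ∧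
      (∀ t, (∀ d w, u (t, d) w = w) → ∀ d w, W t (d, w) = w) ∧
      ∀ (S : Type) [TopologicalSpace S] [CompactSpace S] (c : C(S, T × D)) (f g : C(S, SympCt n)),
        (∀ s w, (f s : Equiv.Perm (Phase n)) w = u (c s) w) →
        (∀ s w, (g s : Equiv.Perm (Phase n)) w = W (c s).1 ((c s).2, w)) →
        f.HomotopicRel g {s | (∀ d w, u ((c s).1, d) w = w) ∨ A + 2 ≤ ‖(c s).2‖}

/-- LEX.  A family of rows with null-homotopic scattering has a lift.
PROOF.  `St_trivia`: `Ξ, Θ, E` (radius `R'`), `V` inverse to `E`.  By `St_scUn`, `St_scEx` we may assume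
`e ((t,z),a) w = V t (mkB (bxPt ρ z (a,0)) w)`, `ρ = R'`.  Let `h` be the null-homotopy, `h (q, 0) = 1`, `h (q, 1) = e q`.
`D = Phase k × ℝ` (coordinates `x_i, y_i` with `i ≥ 1`, and `x_0`), i.e. `side` coordinates; `cl : D → Bx k × I` the
coordinates divided by `ρ`, `c ↦ projIcc ((c/ρ + 1)/2)`.  `u (t, (d, y)) w = (h ((t, cl d), projIcc y))⁻¹ w`
(`CF_of_continuous` and `CF.base`): it is the identity if one coordinate of `d` has absolute value
at least `ρ`, and for `y ≥ 1` it is `(e ..)⁻¹ = E t (d, ·)` (for `d` outside the cube both are the identity).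
`St_smo`: `W`.  `U t p = W t ((side coordinates, yB p), prW p)` satisfies the hypotheses of `St_ul`. -/
def St_lEx : Prop :=
  ∀ (m k : ℕ) (T : Type) [TopologicalSpace T] [CompactSpace T] (T0 : Set T) (R : ℝ)
    (F : T → Phase (m + (k + 1)) → Phase (k + 1)), 0 ≤ R → JFam m (k + 1) R F →
    (∀ t ∈ T0, ∀ p, F t p = prK m (k + 1) p) → ∀ e : C((T × Bx k) × I, SympCt m), IsScatF F e →
    e.HomotopicRel (ContinuousMap.const _ 1) (bdE k T0) →
    ∃ (R' : ℝ) (Φ : T → Phase (m + (k + 1)) → Phase (m + (k + 1))), 0 ≤ R' ∧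
      FFam m (k + 1) R' Φ ∧ (∀ t p, prK m (k + 1) (Φ t p) = F t p) ∧ ∀ t ∈ T0, ∀ p, Φ t p = p

/-- REP.  Smooth representatives of families over cubes.
PROOF.  `cl : Phase (k+1) → Bx k × (I × I)`, the coordinates `c ↦ projIcc ((c + 1)/2)`;
`u (t, b) = g₀ ((t, (cl b).1), (cl b).2)`; it is the identity if one `|b i| ≥ 1`, so for `A < ‖b‖`, `A` the
square root of `2k+2`.  `St_sm0`: `W'`; `W t p = W' t (prK p, prW p)`, `R₀ = A + 2` (if `R ≤ |b i|` then
`A + 2 ≤ ‖b‖`).  `g` by `St_vCont`.  `g₀ ~ g` rel: `g₀ ((t,z),s) = u (t, bxPt 1 z s)`, first change the radius from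
`1` to `R` (at points of `bdS` the point `bxPt r z s`, `r ≥ 1`, has a coordinate `± r`, so `u = id`), then
the homotopy clause of `St_sm0` with `c = (t, bxPt R z s)`. -/
def St_rep : Prop :=
  ∀ (m k : ℕ) (T : Type) [TopologicalSpace T] [CompactSpace T] (T0 : Set T)
    (g₀ : C((T × Bx k) × (I × I), SympCt m)), (∀ q ∈ bdS k T0, g₀ q = 1) →
    ∃ R₀ : ℝ, 0 < R₀ ∧ ∀ R, R₀ ≤ R → ∃ (W : T → Phase (m + (k + 1)) → Phase m)
      (g : C((T × Bx k) × (I × I), SympCt m)), VFam m (k + 1) R W ∧ IsCube R W g ∧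
      (∀ t ∈ T0, ∀ p, W t p = prW m (k + 1) p) ∧ g₀.HomotopicRel g (bdS k T0)

/-- SUS.  Smooth families over cubes which are homotopic give homotopic product maps.
PROOF.  `V` the inverse of `W'` (`St_vInv`), `X t p = V t (mapW (W t) p)` (`St_vComp`), radius `R₁ ≥ R, R'`; it is
enough to find a path `Q` from `id` to `mapW X` rel `T0`, then take `mapW (W' t) ∘ Q` (`St_fComp`).
The cube family of `X` with radius `R₁` is null-homotopic rel `bdS`: the cube families of `W, W'` with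
radius `R₁` are homotopic to `g, g'` (change the radius, `St_vCont`), so to each other; multiply by
the inverse (`continuous_mul_family`, `continuous_inv_family`).  As in `St_lEx` (`D = Phase (k+1)`,
`cl` with all coordinates, `E t (d, w) = X t (mkB d w)`) `St_smo` gives `Y t ((d, y), w)`, equal to `w` for
`y ≤ -B`, to `X` for `y ≥ B`; `Q (t, s) p = mkB (prK p) (Y t ((prK p, (2 s - 1) B), prW p))`, `St_vMap`. -/
def St_sus : Prop :=
  ∀ (m k : ℕ) (T : Type) [TopologicalSpace T] [CompactSpace T] (T0 : Set T) (R R' : ℝ)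
    (W W' : T → Phase (m + (k + 1)) → Phase m) (g g' : C((T × Bx k) × (I × I), SympCt m)), 0 < R →
    0 < R' → VFam m (k + 1) R W → VFam m (k + 1) R' W' → IsCube R W g → IsCube R' W' g' →
    (∀ t ∈ T0, ∀ p, W t p = prW m (k + 1) p ∧ W' t p = prW m (k + 1) p) →
    g.HomotopicRel g' (bdS k T0) →
    ∃ (R'' : ℝ) (Φ : T × I → Phase (m + (k + 1)) → Phase (m + (k + 1))), 0 ≤ R'' ∧
      FFam m (k + 1) R'' Φ ∧ (∀ t p, Φ (t, 0) p = mapW m (k + 1) (W t) p) ∧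
      (∀ t p, Φ (t, 1) p = mapW m (k + 1) (W' t) p) ∧ ∀ t ∈ T0, ∀ s p, Φ (t, s) p = p

/-! ### The square -/

/-- SQU.  PROOF.  `P₀ y = (hf2 y, hf1 y)`, `P₁ y = (hf1 y, hf2 y)` in the square of `(s, y)`, `P_l` the convex
combination.  `K (x, y, l) = e (x, (P_l y).1) * u (x, P_l y)` (`continuous_mul_family`): `K` is `1` for `y = 0, 1` and
`x ∈ X0`; for `l = 0` it is `g (x, hf1 y)` (for `y ≥ 1/2` use `e (x,s) * u (x,(s,1)) = 1`), for `l = 1` it is
`e (x, hf1 y)`.  Finally `g (x, hf1 y) ~ g (x, y)`, `e (x, hf1 y) ~ e (x, y)` (linear change of `y`). -/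
def St_squ : Prop :=
  ∀ (m : ℕ) (X : Type) [TopologicalSpace X] [CompactSpace X] (X0 : Set X)
    (e g : C(X × I, SympCt m)) (u : C(X × (I × I), SympCt m)),
    (∀ x y, u (x, (0, y)) = g (x, y)) → (∀ x, g (x, 1) = 1) → (∀ x y, u (x, (1, y)) = 1) →
    (∀ x s, u (x, (s, 0)) = 1) → (∀ x s, e (x, s) * u (x, (s, 1)) = 1) →
    (∀ x ∈ X0, ∀ s, u (x, s) = 1) →
    e.HomotopicRel g {q | q.1 ∈ X0 ∨ q.2 = 0 ∨ q.2 = 1}

/-- LOO.  A path in the fibrewise symplectic maps from a product map to the identity: the scattering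
of the loop of rows is the cube family.
PROOF.  `St_trivia` for `F` over `T × I`, `St_lu`: `U`, radius `R₁ ≥ R`; for `s = 0` `F = prK`, `Ξ = id`, so
`U (t,0) p = prW (Φ (t,0) p) = W t p`; for `s = 1` and for `t ∈ T0` `U = prW`.  By `St_scEx`, `St_scUn` we may
assume that `e` has radius `R₁`, so `e (((t,s),z),a)` is inverse to `E (t,s) (mkB (bxPt R₁ z (a, ·)) ·)`, and
changing the radius we may replace `g` by the cube family of `W` with radius `R₁` (as in `St_sus`).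
`St_squ` with `X = (T × Bx k) × I` (`x = ((t,z),a)`), `u (x, (s, y)) w = U (t,s) (mkB (bxPt R₁ z (a,y)) w)`,
`X0 = {t ∈ T0 ∨ z ∈ bdB ∨ a = 0, 1}`; finally rearrange the variables. -/
def St_loo : Prop :=
  ∀ (m k : ℕ) (T : Type) [TopologicalSpace T] [CompactSpace T] (T0 : Set T) (R R' : ℝ)
    (F : T × I → Phase (m + (k + 1)) → Phase (k + 1))
    (Φ : T × I → Phase (m + (k + 1)) → Phase (m + (k + 1)))
    (W : T → Phase (m + (k + 1)) → Phase m) (g : C((T × Bx k) × (I × I), SympCt m))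
    (e : C(((T × I) × Bx k) × I, SympCt m)), 0 ≤ R → 0 < R' → JFam m (k + 1) R F →
    FFam m (k + 1) R Φ → (∀ q p, prK m (k + 1) (Φ q p) = F q p) → VFam m (k + 1) R' W →
    IsCube R' W g → (∀ t p, Φ (t, 0) p = mapW m (k + 1) (W t) p) → (∀ t p, Φ (t, 1) p = p) →
    (∀ t ∈ T0, ∀ s p, Φ (t, s) p = p) → IsScatF F e →
    (e.comp (swK T k)).HomotopicRel g (bdS k T0)

/-! ### Cubes, loops and topologies -/

/-- CUB.  PROOF.  `cubeK` is a homeomorphism onto the cube, `cubeK k j (t, z) ∈ ∂` iff `t ∈ ∂` or `z ∈ bdB k`;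
then `unloop1_homotopic`, `loop1_homotopic` (Helper42/Susp/CubeSnoc.lean). -/
def St_cubE : Prop :=
  ∀ (j m k : ℕ),
    (∀ e e' : LoopG (k + k + j + 1) m, e.cls = e'.cls ↔
      (ueK e).HomotopicRel (ueK e') (bdE k (Cube.boundary (Fin j)))) ∧
    (∀ e : LoopG (k + k + j + 1) m, ∀ q ∈ bdE k (Cube.boundary (Fin j)), ueK e q = 1) ∧
    (∀ e : LoopG (k + k + j + 1) m, e.cls = PiG.triv _ _ ↔
      (ueK e).HomotopicRel (ContinuousMap.const _ 1) (bdE k (Cube.boundary (Fin j)))) ∧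
    ∀ f : C(((Fin j → I) × Bx k) × I, SympCt m),
      (∀ q ∈ bdE k (Cube.boundary (Fin j)), f q = 1) → ∃ e : LoopG (k + k + j + 1) m, ueK e = f

/-- CUB.  As `St_cubE`. -/
def St_cubS : Prop :=
  ∀ (j m k : ℕ),
    (∀ g g' : LoopG (k + k + j + 2) m, g.cls = g'.cls ↔
      (ugK g).HomotopicRel (ugK g') (bdS k (Cube.boundary (Fin j)))) ∧
    (∀ g : LoopG (k + k + j + 2) m, ∀ q ∈ bdS k (Cube.boundary (Fin j)), ugK g q = 1) ∧
    (∀ g : LoopG (k + k + j + 2) m, g.cls = PiG.triv _ _ ↔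
      (ugK g).HomotopicRel (ContinuousMap.const _ 1) (bdS k (Cube.boundary (Fin j)))) ∧
    ∀ f : C(((Fin j → I) × Bx k) × (I × I), SympCt m),
      (∀ q ∈ bdS k (Cube.boundary (Fin j)), f q = 1) → ∃ g : LoopG (k + k + j + 2) m, ugK g = f

/-- CUB.  The loops of loops: the class of a scattering of a `(j+1)`-loop as a class of the group of
cube families.  PROOF.  `ueK e' (((snoc t b), z), a)` and `ugK e' ((t, z), (a, b))` are both the value of `e'` at
`snoc (snoc (append (append ξ η) t) b) a` (`Fin.append_snoc` or by extensionality). -/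
def St_cubL : Prop :=
  ∀ (j m k : ℕ) (e : LoopG (k + k + (j + 1) + 1) m) (t : Fin j → I) (z : Bx k) (a b : I),
    ueK (j := j + 1) e (((Fin.snoc t b : Fin (j + 1) → I), z), a) =
      ugK (j := j) e ((t, z), (a, b))

/-- TOP1, TOP2.  The topology of `MapSp`: as Helper42/Susp/PairTop.lean.  PROOF.  Copy
`PairTop.lean` with `stdPair` replaced by `b`. -/
def St_topCF : Prop :=
  ∀ (N M : ℕ) (b : Sm N M) (P : (Phase N → Phase M) → Prop) (T : Type)
    [TopologicalSpace T] [CompactSpace T] (f : T → MapSp b P),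
    Continuous f ↔ (CF (fun t x => (f t).map.fn x) ∧
      ∃ R : ℝ, 0 ≤ R ∧ ∀ t x, R < ‖x‖ → (f t).map.fn x = b.fn x)

/-- TOP3.  Loops of rows.  PROOF.  `St_topCF`; `prK_eq_fstPt`, `isPos_iff`. -/
def St_topR : Prop :=
  ∀ (j m k : ℕ),
    (∀ F : LoopR j m k, ∃ R : ℝ, 0 ≤ R ∧ JFam m k R (fun t => F.at t)) ∧
    (∀ F : LoopR j m k, ∀ t ∈ Cube.boundary (Fin j), ∀ p, F.at t p = prK m k p) ∧
    (∀ (R : ℝ) (F : (Fin j → I) → Phase (m + k) → Phase k), JFam m k R F →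
      (∀ t ∈ Cube.boundary (Fin j), ∀ p, F t p = prK m k p) →
      ∃ F' : LoopR j m k, ∀ t p, F'.at t p = F t p) ∧
    (∀ F F' : LoopR j m k, F.cls = F'.cls ↔ ∃ (R : ℝ) (H : (Fin j → I) × I → Phase (m + k) → Phase k),
      0 ≤ R ∧ JFam m k R H ∧ (∀ t p, H (t, 0) p = F.at t p) ∧ (∀ t p, H (t, 1) p = F'.at t p) ∧
      ∀ t ∈ Cube.boundary (Fin j), ∀ s p, H (t, s) p = prK m k p) ∧
    (∀ F : LoopR j m k, F.cls = PiR.triv j m k ↔
      ∃ (R : ℝ) (H : (Fin j → I) × I → Phase (m + k) → Phase k),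
      0 ≤ R ∧ JFam m k R H ∧ (∀ t p, H (t, 0) p = prK m k p) ∧ (∀ t p, H (t, 1) p = F.at t p) ∧
      ∀ t ∈ Cube.boundary (Fin j), ∀ s p, H (t, s) p = prK m k p)

/-- TOP3.  Loops of fibrewise symplectic maps. -/
def St_topF : Prop :=
  ∀ (j m k : ℕ),
    (∀ Φ : LoopF j m k, ∃ R : ℝ, 0 ≤ R ∧ FFam m k R (fun t => Φ.at t)) ∧
    (∀ Φ : LoopF j m k, ∀ t ∈ Cube.boundary (Fin j), ∀ p, Φ.at t p = p) ∧
    (∀ (R : ℝ) (Φ : (Fin j → I) → Phase (m + k) → Phase (m + k)), FFam m k R Φ →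
      (∀ t ∈ Cube.boundary (Fin j), ∀ p, Φ t p = p) →
      ∃ Φ' : LoopF j m k, ∀ t p, Φ'.at t p = Φ t p) ∧
    (∀ Φ Φ' : LoopF j m k, Φ.cls = Φ'.cls ↔
      ∃ (R : ℝ) (H : (Fin j → I) × I → Phase (m + k) → Phase (m + k)),
      0 ≤ R ∧ FFam m k R H ∧ (∀ t p, H (t, 0) p = Φ.at t p) ∧ (∀ t p, H (t, 1) p = Φ'.at t p) ∧
      ∀ t ∈ Cube.boundary (Fin j), ∀ s p, H (t, s) p = p)

/-! ### The maps -/

/-- MPI.  The inclusion is a weak homotopy equivalence.  PROOF.  Surjective: `St_ret` for a loop `Φ`;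
`f` is a loop in `SympCt`, the path `Ψ` is a homotopy rel boundary.  Injective: let `H` be a homotopy
between `φ, φ'` in the fibrewise symplectic maps; `St_ret` with the parameter space `(Fin j → I) × I`
gives `f : C((Fin j → I) × I, SympCt)`, a homotopy from `f (·, 0)` to `f (·, 1)` rel boundary, and
`Ψ ((t, 0), s)`, which is symplectic for all `s` (`St_fToSymp`), is a homotopy from `φ` to `f (·, 0)`; same
for `φ'`.  Homomorphism: `transAt` of loops is pointwise. -/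
def St_mapI : Prop :=
  ∀ m k : ℕ, ∃ i : ∀ j, PiG j (m + k) → PiF j m k,
    (∀ j (φ : LoopG j (m + k)) (Φ : LoopF j m k), IsIncl φ Φ → i j φ.cls = Φ.cls) ∧
    (∀ j (φ : LoopG j (m + k)), ∃ Φ : LoopF j m k, IsIncl φ Φ) ∧
    (∀ j, Bijective (i j)) ∧ ∀ j, IsHom (i (j + 1))

/-- MPQ.  The map to the rows. -/
def St_mapQ : Prop :=
  ∀ m k : ℕ, ∃ q : ∀ j, PiG j (m + k) → PiR j m k,
    (∀ j (φ : LoopG j (m + k)) (F : LoopR j m k), IsRow φ F → q j φ.cls = F.cls) ∧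
    (∀ j (φ : LoopG j (m + k)), ∃ F : LoopR j m k, IsRow φ F) ∧ ∀ j, IsHom (q (j + 1))

/-- MPD.  The scattering map.  PROOF.  `IsScatK F e` iff `IsScatF F.at (ueK e)`.  Existence: `St_scEx`,
`St_cubE`.  Well defined: for a homotopy `H` of rows over `(Fin j → I) × I` take a scattering over
`(Fin j → I) × I`; it restricts to scatterings of the two ends, `St_scUn`.  Homomorphism: choose
scatterings with the same radius for both loops; `transAt` is pointwise. -/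
def St_mapD : Prop :=
  ∀ m k : ℕ, ∃ d : ∀ j, PiR j m (k + 1) → PiG (k + k + j + 1) m,
    (∀ j (F : LoopR j m (k + 1)) (e : LoopG (k + k + j + 1) m), IsScatK F e →
      d j F.cls = e.cls) ∧
    (∀ j (F : LoopR j m (k + 1)), ∃ e : LoopG (k + k + j + 1) m, IsScatK F e) ∧
    ∀ j, IsHom (d (j + 1))

/-- MPS.  The suspension map.  PROOF.  `IsProd R g Φ` iff `Φ.at t = mapW (W t)` for a `VFam` `W` with
`IsCube R W (ugK g)` (`St_vOf`).  Existence: `St_rep`, `St_cubS`, `St_vMap`, `St_topF`, and surjectivity of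
`St_mapI`.  Well defined: `St_sus` and injectivity of `St_mapI`.  Homomorphism: `St_rep` for both
classes with the same `R`; `transAt` is pointwise. -/
def St_mapS : Prop :=
  ∀ m k : ℕ, ∃ s : ∀ j, PiG (k + k + j + 2) m → PiG j (m + (k + 1)),
    (∀ j (g : LoopG (k + k + j + 2) m) (φ : LoopG j (m + (k + 1))), IsSuspK g φ →
      s j g.cls = φ.cls) ∧
    (∀ j (c : PiG (k + k + j + 2) m), ∃ (g : LoopG (k + k + j + 2) m)
      (φ : LoopG j (m + (k + 1))), g.cls = c ∧ IsSuspK g φ) ∧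
    ∀ j, IsHom (s (j + 1))

/-! ### Exactness, for loops -/

/-- EX1.  PROOF.  (⇒) A homotopy of rows from `F = prK ∘ φ` to `prK` (reverse `St_topR`), lifted by `St_cov`
from `φ` (`St_fSymp`); the end lies over `prK`, so it is `mapW W` with `VFam` `W` (`St_vOf`), trivial outside
a box; its cube family `g` (`St_vCont`, `St_cubS`).  (⇐) `prK` of a path of fibrewise symplectic maps
from the product family (over `prK`) to `φ'`, and a homotopy from `φ'` to `φ`. -/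
def St_ex1 : Prop :=
  ∀ (j m k : ℕ) (φ : LoopG j (m + (k + 1))) (F : LoopR j m (k + 1)), IsRow φ F →
    (F.cls = PiR.triv j m (k + 1) ↔ ∃ (g : LoopG (k + k + j + 2) m) (φ' : LoopG j (m + (k + 1))),
      IsSuspK g φ' ∧ φ'.cls = φ.cls)

/-- EX2.  PROOF.  (⇒) `St_lEx` gives a lift `Φ`, `St_ret` a path to `φ`; `prK` of it is a homotopy of
rows.  (⇐) For a homotopy `H` from `F'` to `F` take a scattering over `(Fin j → I) × I`; it restricts to
scatterings of `F'` and `F`, so (`St_scUn`) it is enough that `F' = prK ∘ φ` has null-homotopic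
scattering: `St_lNull`, `St_fSymp`. -/
def St_ex2 : Prop :=
  ∀ (j m k : ℕ) (F : LoopR j m (k + 1)) (e : LoopG (k + k + j + 1) m), IsScatK F e →
    (e.cls = PiG.triv _ _ ↔ ∃ (φ : LoopG j (m + (k + 1))) (F' : LoopR j m (k + 1)), IsRow φ F' ∧
      F'.cls = F.cls)

/-- EX3.  PROOF.  (⇒) `IsSuspK g φ`, `φ ~ 1`: a path of fibrewise symplectic maps from the product
family `mapW W` to `id`; `F = prK ∘ Φ` is a `(j+1)`-loop of rows (`snoc t s`); `St_loo`, `St_cubL`, `St_scEx`.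
(⇐) Let `F` be the `(j+1)`-loop, `F (snoc t s)`.  `St_cov` for `s` from `1` to `0`, starting with the identity,
gives `Φ (t, s)` over `F`, `Φ (t, 1) = id`; `Φ (t, 0)` is over `prK`, so it is `mapW W`, `W` a `VFam`, with cube
family `g'`.  By `St_loo` `g' ~ e`, so `g' ~ g`, and `IsSuspK g' 1` (constant loop); `s` is well defined
(`St_mapS`), so `φ ~ 1`. -/
def St_ex3 : Prop :=
  ∀ (j m k : ℕ) (g : LoopG (k + k + j + 2) m) (φ : LoopG j (m + (k + 1))), IsSuspK g φ →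
    (φ.cls = PiG.triv j (m + (k + 1)) ↔ ∃ (F : LoopR (j + 1) m (k + 1))
      (e : LoopG (k + k + (j + 1) + 1) m), IsScatK F e ∧ e.cls = (g.cls : PiG (k + k + j + 2) m))

/-- REF.  PROOF.  `F_φ (t) = F_χ (t) ∘ ψ_t`, `F_ψ (t) = prK ∘ ψ_t`.  A homotopy of rows `H` from `prK` to `F_χ`
gives `H (t,s) ∘ ψ_t` from `F_ψ` to `F_φ`, and conversely compose with `ψ_t⁻¹` (`JPos.comp`). -/
def St_ref : Prop :=
  ∀ (j m k : ℕ) (φ ψ χ : LoopG j (m + k)) (F G H : LoopR j m k),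
    (∀ t p, φ.at t p = χ.at t (ψ.at t p)) → IsRow φ F → IsRow ψ G → IsRow χ H →
    (F.cls = G.cls ↔ H.cls = PiR.triv j m k)

/-- CRI.  PROOF.  (⇒) `fibration key_lemma (slices implicit)` as in `isKSusp_of_path` (H42/Hull/Final.lean) and
`St_topR`.  (⇐) `gap` (H42/Hull/Gap.lean) with `ε = 1/2`: a representative `φ'` whose block is `1/2`-close to
the identity; the segment `(1-s) prK + s prK ∘ φ'` is `J`-positive: by `bracket_lin` its bracket is
`((1-s)² + s²) |u|² + s (1-s) (⟪u, M u⟫ + ⟪J u, M J u⟫)`, `M` the block. -/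
def St_cri : Prop :=
  ∀ (j m k : ℕ) (φ : LoopG j (m + k)) (F : LoopR j m k), IsRow φ F →
    (F.cls = PiR.triv j m k ↔ IsKSusp m k j φ.cls)

end Pool.Agent.KRW
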