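import Mathlib
import Pool.Agent.KRW.Split
import Pool.Agent.KRW.St

/-!
# Box coordinates and the change of the radius of a cube family

`thm_box : St_box` and `thm_rad : St_vCont → St_rad`.
-/

set_option maxSynthPendingDepth 3

open scoped ContDiff Topology unitInterval
open Set Function TopologicalSpace Filter

namespace Pool.Agent.KRW

open Pool.Agent.Helper17 Pool.Agent.Helper42 Pool.Agent.H42.Hull

/-- The cut-off coordinate. -/
noncomputable def bxc (ρ c : ℝ) : I := projIcc 0 1 zero_le_one ((c / ρ + 1) / 2)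

lemma clB_eq {k : ℕ} (ρ : ℝ) (b : Phase (k + 1)) : clB ρ b =
    ((fun i => bxc ρ (b (Sum.inl i.succ)), fun i => bxc ρ (b (Sum.inr i.succ))),
      (bxc ρ (b (Sum.inl 0)), bxc ρ (b (Sum.inr 0)))) := rfl

lemma continuous_bxc (ρ : ℝ) : Continuous (bxc ρ) :=
  continuous_projIcc.comp (by fun_prop)

lemma bxc_box {ρ : ℝ} (hρ : 0 < ρ) (x : I) : bxc ρ (ρ * (2 * (x : ℝ) - 1)) = x := by
  have h : (ρ * (2 * (x : ℝ) - 1) / ρ + 1) / 2 = x := by
    field_simp
    ring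
  rw [bxc, h]
  exact projIcc_val zero_le_one x

lemma box_bxc {ρ : ℝ} (hρ : 0 < ρ) {c : ℝ} (hc : |c| ≤ ρ) :
    ρ * (2 * (bxc ρ c : ℝ) - 1) = c := by
  obtain ⟨h1, h2⟩ := abs_le.1 hc
  have h3 : -1 ≤ c / ρ := by rw [le_div_iff₀ hρ]; linarith
  have h4 : c / ρ ≤ 1 := by rw [div_le_iff₀ hρ]; linarith
  have h5 : (c / ρ + 1) / 2 ∈ Icc (0 : ℝ) 1 := ⟨by linarith, by linarith⟩
  rw [bxc, projIcc_of_mem zero_le_one h5]
  field_simp
  ring

lemma bxc_bd {ρ : ℝ} (hρ : 0 < ρ) {c : ℝ} (hc : ρ ≤ |c|) : bxc ρ c = 0 ∨ bxc ρ c = 1 := by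
  rcases le_abs.1 hc with h | h
  · right
    have h1 : 1 ≤ c / ρ := by rw [le_div_iff₀ hρ]; linarith
    exact projIcc_of_right_le zero_le_one (by linarith)
  · left
    have h1 : c / ρ ≤ -1 := by rw [div_le_iff₀ hρ]; linarith
    exact projIcc_of_le_left zero_le_one (by linarith)

lemma bx_abs {r : ℝ} (hr : 0 ≤ r) {x : I} (hx : x = 0 ∨ x = 1) :
    |r * (2 * (x : ℝ) - 1)| = r := by
  rcases hx with rfl | rfl
  · rw [Set.Icc.coe_zero]
    have : r * (2 * 0 - 1) = -r := by ring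
    rw [this, abs_neg, abs_of_nonneg hr]
  · rw [Set.Icc.coe_one]
    have : r * (2 * 1 - 1) = r := by ring
    rw [this, abs_of_nonneg hr]

section

variable {k : ℕ} (R : ℝ) (z : Bx k) (s : I × I)

lemma bxPt_inl0 : (bxPt R z s : Phase (k + 1)) (Sum.inl 0) = R * (2 * (s.1 : ℝ) - 1) := rfl

lemma bxPt_inr0 : (bxPt R z s : Phase (k + 1)) (Sum.inr 0) = R * (2 * (s.2 : ℝ) - 1) := rfl

lemma bxPt_inlS (i : Fin k) :
    (bxPt R z s : Phase (k + 1)) (Sum.inl i.succ) = R * (2 * (z.1 i : ℝ) - 1) := rfl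

lemma bxPt_inrS (i : Fin k) :
    (bxPt R z s : Phase (k + 1)) (Sum.inr i.succ) = R * (2 * (z.2 i : ℝ) - 1) := rfl

end

lemma box_side {k : ℕ} {ρ r : ℝ} (hρ : 0 < ρ) (hr : ρ ≤ r) (z : Bx k) (s : I × I)
    (h : z ∈ bdB k ∨ s.1 = 0 ∨ s.1 = 1) :
    ∃ i, i ≠ Sum.inr 0 ∧ ρ ≤ |(bxPt r z s : Phase (k + 1)) i| := by
  have hr0 : 0 ≤ r := hρ.le.trans hr
  rcases h with (⟨i, hi⟩ | ⟨i, hi⟩) | h
  · exact ⟨Sum.inl i.succ, by simp, by rw [bxPt_inlS, bx_abs hr0 hi]; exact hr⟩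
  · refine ⟨Sum.inr i.succ, ?_, by rw [bxPt_inrS, bx_abs hr0 hi]; exact hr⟩
    intro he
    exact Fin.succ_ne_zero i (Sum.inr_injective he)
  · exact ⟨Sum.inl 0, by simp, by rw [bxPt_inl0, bx_abs hr0 h]; exact hr⟩

lemma box_out {k : ℕ} {ρ r : ℝ} (hρ : 0 < ρ) (hr : ρ ≤ r) (z : Bx k) (s : I × I)
    (h : z ∈ bdB k ∨ s ∈ sqBd) : ∃ i, ρ ≤ |(bxPt r z s : Phase (k + 1)) i| := by
  have hr0 : 0 ≤ r := hρ.le.trans hr
  rcases h with h | h | h | h
  · obtain ⟨i, -, hi⟩ := box_side hρ hr z s (Or.inl h)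
    exact ⟨i, hi⟩
  · obtain ⟨i, -, hi⟩ := box_side hρ hr z s (Or.inr (Or.inl h))
    exact ⟨i, hi⟩
  · obtain ⟨i, -, hi⟩ := box_side hρ hr z s (Or.inr (Or.inr h))
    exact ⟨i, hi⟩
  · exact ⟨Sum.inr 0, by rw [bxPt_inr0, bx_abs hr0 h]; exact hr⟩

lemma continuous_bxPt (k : ℕ) :
    Continuous (fun q : ℝ × (Bx k × (I × I)) => (bxPt q.1 q.2.1 q.2.2 : Phase (k + 1))) := by
  refine (PiLp.continuous_toLp 2 _).comp (continuous_pi fun i => ?_)
  rcases i with i | i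
  · refine Fin.cases ?_ (fun i => ?_) i
    · change Continuous fun q : ℝ × (Bx k × (I × I)) => q.1 * (2 * (q.2.2.1 : ℝ) - 1)
      fun_prop
    · change Continuous fun q : ℝ × (Bx k × (I × I)) => q.1 * (2 * (q.2.1.1 i : ℝ) - 1)
      fun_prop
  · refine Fin.cases ?_ (fun i => ?_) i
    · change Continuous fun q : ℝ × (Bx k × (I × I)) => q.1 * (2 * (q.2.2.2 : ℝ) - 1)
      fun_prop
    · change Continuous fun q : ℝ × (Bx k × (I × I)) => q.1 * (2 * (q.2.1.2 i : ℝ) - 1)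
      fun_prop

lemma continuous_clB (k : ℕ) (ρ : ℝ) : Continuous (clB ρ : Phase (k + 1) → Bx k × (I × I)) := by
  have h : ∀ i, Continuous fun b : Phase (k + 1) => bxc ρ (b i) := fun i =>
    (continuous_bxc ρ).comp (by fun_prop)
  exact ((continuous_pi fun i => h _).prodMk (continuous_pi fun i => h _)).prodMk
    ((h _).prodMk (h _))

theorem thm_box : St_box := by
  intro k ρ hρ
  refine ⟨continuous_clB k ρ, ?_, ?_, ?_, ?_, ?_, ?_, ?_, continuous_bxPt k⟩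
  · intro z s
    rw [clB_eq]
    simp only [bxPt_inl0, bxPt_inr0, bxPt_inlS, bxPt_inrS, bxc_box hρ]
  · intro b hb
    ext i
    rcases i with i | i
    · refine Fin.cases ?_ (fun i => ?_) i
      · exact box_bxc hρ (hb _)
      · exact box_bxc hρ (hb _)
    · refine Fin.cases ?_ (fun i => ?_) i
      · exact box_bxc hρ (hb _)
      · exact box_bxc hρ (hb _)
  · rintro b ⟨i, hi⟩
    rcases i with i | i
    · revert hi
      refine Fin.cases (fun hi => ?_) (fun i hi => ?_) i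
      · right
        rcases bxc_bd hρ hi with h | h
        · exact Or.inl h
        · exact Or.inr (Or.inl h)
      · exact Or.inl (Or.inl ⟨i, bxc_bd hρ hi⟩)
    · revert hi
      refine Fin.cases (fun hi => ?_) (fun i hi => ?_) i
      · right
        rcases bxc_bd hρ hi with h | h
        · exact Or.inr (Or.inr (Or.inl h))
        · exact Or.inr (Or.inr (Or.inr h))
      · exact Or.inl (Or.inr ⟨i, bxc_bd hρ hi⟩)
  · rintro b ⟨i, hne, hi⟩
    rcases i with i | i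
    · revert hi
      refine Fin.cases (fun hi => ?_) (fun i hi => ?_) i
      · exact Or.inr (bxc_bd hρ hi)
      · exact Or.inl (Or.inl ⟨i, bxc_bd hρ hi⟩)
    · revert hi hne
      refine Fin.cases (fun hne hi => ?_) (fun i _ hi => ?_) i
      · exact absurd rfl hne
      · exact Or.inl (Or.inr ⟨i, bxc_bd hρ hi⟩)
  · intro b
    by_cases h : ∃ i, ρ ≤ |b i|
    · exact Or.inr h
    · left
      push Not at h
      rw [EuclideanSpace.norm_eq]
      have h1 : ∑ i, ‖b i‖ ^ 2 ≤ (2 * k + 2) * ρ ^ 2 := by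
        calc ∑ i, ‖b i‖ ^ 2 ≤ ∑ _i : Fin (k + 1) ⊕ Fin (k + 1), ρ ^ 2 :=
              Finset.sum_le_sum fun i _ => pow_le_pow_left₀ (norm_nonneg _) (h i).le 2
          _ = (2 * k + 2) * ρ ^ 2 := by
              rw [Finset.sum_const, Finset.card_univ, Fintype.card_sum, Fintype.card_fin,
                nsmul_eq_mul]
              push_cast
              ring
      calc Real.sqrt (∑ i, ‖b i‖ ^ 2) ≤ Real.sqrt ((2 * k + 2) * ρ ^ 2) := Real.sqrt_le_sqrt h1
        _ = Real.sqrt (2 * k + 2) * ρ := by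
            rw [Real.sqrt_mul (by positivity), Real.sqrt_sq hρ.le]
  · intro z s h r hr
    exact box_out hρ hr z s h
  · intro z a b h r hr p hp
    obtain ⟨i, hne, hi⟩ := box_side hρ hr z (a, b) h
    rw [hp]
    refine hi.trans ?_
    have h1 : (bxPt r z (a, b) - ((bxPt r z (a, b) : Phase (k + 1)) (Sum.inr 0)) • eB k :
        Phase (k + 1)) i = (bxPt r z (a, b) : Phase (k + 1)) i := by
      change (bxPt r z (a, b) : Phase (k + 1)) i - _ * (eB k) i = _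
      rw [eB_apply_ne hne, mul_zero, sub_zero]
    rw [← h1, ← Real.norm_eq_abs]
    exact PiLp.norm_apply_le _ _

/-- Changing the radius of a cube family; the hypothesis is `St_vCont`. -/
theorem thm_rad (hc : St_vCont) : St_rad := by
  intro m k T _ T0 R R₁ R₂ W g hR hR1 hW hg hT
  have hone : ∀ (t : T) (r : ℝ) (z : Bx k) (s : I × I), R ≤ r →
      (t ∈ T0 ∨ z ∈ bdB k) ∨ s ∈ sqBd → ∀ w, W t (mkB m (k + 1) (bxPt r z s) w) = w := by
    rintro t r z s hr h w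
    have hout : z ∈ bdB k ∨ s ∈ sqBd → W t (mkB m (k + 1) (bxPt r z s) w) = w := by
      intro h
      obtain ⟨i, hi⟩ := box_out hR hr z s h
      rw [hg.1 t _ ⟨i, by rw [prK_mkB]; exact hi⟩, prW_mkB]
    rcases h with (h | h) | h
    · rw [hT t h, prW_mkB]
    · exact hout (Or.inl h)
    · exact hout (Or.inr h)
  have hext : ∀ f f' : SympCt m,
      (∀ w, (f : Equiv.Perm (Phase m)) w = (f' : Equiv.Perm (Phase m)) w) → f = f' :=
    fun f f' h => Subtype.ext (Equiv.ext h)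
  have hg1 : ∀ q ∈ bdS k T0, g q = 1 := by
    rintro ⟨⟨t, z⟩, s⟩ hq
    refine hext _ _ fun w => ?_
    rw [hg.2 t z s w, hone t R z s le_rfl hq w]
    rfl
  refine ⟨hg1, ?_⟩
  obtain ⟨g₁, hg₁⟩ := hc m (k + 1) T R₂ W hW ((T × Bx k) × (I × I)) (fun q => q.1.1)
    (fun q => bxPt R₁ q.1.2 q.2) (by fun_prop)
    ((continuous_bxPt k).comp (f := fun q : (T × Bx k) × (I × I) => (R₁, (q.1.2, q.2)))
      (by fun_prop))
  obtain ⟨H, hH⟩ := hc m (k + 1) T R₂ W hW (I × ((T × Bx k) × (I × I))) (fun q => q.2.1.1)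
    (fun q => bxPt ((1 - (q.1 : ℝ)) * R + q.1 * R₁) q.2.1.2 q.2.2) (by fun_prop)
    ((continuous_bxPt k).comp (f := fun q : I × ((T × Bx k) × (I × I)) =>
      ((1 - (q.1 : ℝ)) * R + q.1 * R₁, (q.2.1.2, q.2.2))) (by fun_prop))
  refine ⟨g₁, ⟨fun t p ⟨i, hi⟩ => hg.1 t p ⟨i, hR1.trans hi⟩, fun t z s w => hg₁ ((t, z), s) w⟩,
    ⟨{ toContinuousMap := H
       map_zero_left := ?_
       map_one_left := ?_
       prop' := ?_ }⟩⟩
  · rintro ⟨⟨t, z⟩, s⟩
    refine hext _ _ fun w => ?_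
    refine (hH (0, ((t, z), s)) w).trans ?_
    rw [hg.2 t z s w]
    simp
  · rintro ⟨⟨t, z⟩, s⟩
    refine hext _ _ fun w => ?_
    refine (hH (1, ((t, z), s)) w).trans ?_
    rw [hg₁ ((t, z), s) w]
    simp
  · rintro a ⟨⟨t, z⟩, s⟩ hq
    have hr : R ≤ (1 - (a : ℝ)) * R + a * R₁ := by
      have h0 : (0 : ℝ) ≤ a := a.2.1
      nlinarith
    rw [hg1 _ hq]
    refine hext _ _ fun w => ?_
    refine (hH (a, ((t, z), s)) w).trans ?_
    refine (hone t _ z s hr hq w).trans ?_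
    rfl

end Pool.Agent.KRW
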