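import Mathlib
import Pool.Agent.KRW.St
import Pool.Agent.KRW.Split

/-!
# Deformation of fibrewise symplectic maps to symplectic maps
-/

set_option maxSynthPendingDepth 3

open scoped ContDiff Topology unitInterval
open Set Function TopologicalSpace Filter

namespace Pool.Agent.KRW

open Pool.Agent.Helper17 Pool.Agent.Helper42 Pool.Agent.H42.Hull

namespace RET

/-! ### The one-form -/

section form

variable {N : ℕ}

/-- The one-form `½ (ω (Ψ, DΨ ·) - ω (x, ·))`. -/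
noncomputable def bet (Ψ : Phase N → Phase N) (x : Phase N) : Phase N →L[ℝ] ℝ :=
  (1 / 2 : ℝ) • ((omegaB N (Ψ x)).comp (fderiv ℝ Ψ x) - omegaB N x)

lemma contDiff_bet {Ψ : Phase N → Phase N} (h : ContDiff ℝ ∞ Ψ) : ContDiff ℝ ∞ (bet Ψ) := by
  have h1 : ContDiff ℝ ∞ (fun z => omegaB N (Ψ z)) := (omegaB N).contDiff.comp h
  have h2 : ContDiff ℝ ∞ (fderiv ℝ Ψ) := h.fderiv_right (by simp)
  exact ((h1.clm_comp h2).sub (omegaB N).contDiff).const_smul _

lemma fderiv_bet {Ψ : Phase N → Phase N} (h : ContDiff ℝ ∞ Ψ) (z a b : Phase N) :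
    fderiv ℝ (bet Ψ) z a b = (1 / 2) * (omegaStd (fderiv ℝ Ψ z a) (fderiv ℝ Ψ z b) +
      omegaStd (Ψ z) (fderiv ℝ (fderiv ℝ Ψ) z a b) - omegaStd a b) := by
  have hd : HasFDerivAt (bet Ψ) (fderiv ℝ (bet Ψ) z) z :=
    ((contDiff_bet h).differentiable (by simp) z).hasFDerivAt
  have h1 : HasFDerivAt (fun y => bet Ψ y b) ((fderiv ℝ (bet Ψ) z).flip b) z := by
    have := hd.clm_apply (hasFDerivAt_const b z)
    simpa using this
  have hχ : HasFDerivAt Ψ (fderiv ℝ Ψ z) z := (h.differentiable (by simp) z).hasFDerivAt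
  have hω : HasFDerivAt (fun y => omegaB N (Ψ y)) ((omegaB N).comp (fderiv ℝ Ψ z)) z :=
    (omegaB N).hasFDerivAt.comp z hχ
  have h2 : ContDiff ℝ ∞ (fderiv ℝ Ψ) := h.fderiv_right (by simp)
  have hD : HasFDerivAt (fderiv ℝ Ψ) (fderiv ℝ (fderiv ℝ Ψ) z) z :=
    (h2.differentiable (by simp) z).hasFDerivAt
  have hDb : HasFDerivAt (fun y => fderiv ℝ Ψ y b) ((fderiv ℝ (fderiv ℝ Ψ) z).flip b) z := by
    have := hD.clm_apply (hasFDerivAt_const b z)
    simpa using this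
  have hb : HasFDerivAt (fun y => omegaB N y b) ((omegaB N).flip b) z :=
    ((omegaB N).flip b).hasFDerivAt
  have h3 : HasFDerivAt (fun y => (1 / 2 : ℝ) * ((omegaB N (Ψ y)) (fderiv ℝ Ψ y b) -
      omegaB N y b)) _ z := ((hω.clm_apply hDb).sub hb).const_mul (1 / 2 : ℝ)
  have h4 : (fun y => bet Ψ y b) = fun y => (1 / 2 : ℝ) * ((omegaB N (Ψ y)) (fderiv ℝ Ψ y b) -
      omegaB N y b) := by
    funext y
    rfl
  rw [h4] at h1
  have h5 := congrArg (fun L : Phase N →L[ℝ] ℝ => L a) (h1.unique h3)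
  simp only [ContinuousLinearMap.flip_apply] at h5
  rw [h5]
  simp only [add_apply, ContinuousLinearMap.comp_apply, ContinuousLinearMap.flip_apply,
    smul_apply, omegaB_apply, smul_eq_mul, sub_apply]
  ring

/-- The derivative of the one-form is `Ψ^* ω - ω`. -/
lemma bet_alt {Ψ : Phase N → Phase N} (h : ContDiff ℝ ∞ Ψ) (z a b : Phase N) :
    fderiv ℝ (bet Ψ) z a b - fderiv ℝ (bet Ψ) z b a =
      omegaStd (fderiv ℝ Ψ z a) (fderiv ℝ Ψ z b) - omegaStd a b := by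
  have hsymm : fderiv ℝ (fderiv ℝ Ψ) z a b = fderiv ℝ (fderiv ℝ Ψ) z b a :=
    (h.contDiffAt (x := z)).isSymmSndFDerivAt
      (by rw [minSmoothness_of_isRCLikeNormedField]; exact WithTop.coe_le_coe.2 le_top) a b
  rw [fderiv_bet h, fderiv_bet h, hsymm]
  have h2 : omegaStd (fderiv ℝ Ψ z b) (fderiv ℝ Ψ z a) =
    -omegaStd (fderiv ℝ Ψ z a) (fderiv ℝ Ψ z b) := omegaStd_swap _ _
  have h3 : omegaStd b a = -omegaStd a b := omegaStd_swap _ _
  rw [h2, h3]
  ring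

/-- The one-form is zero where `Ψ` is the identity. -/
lemma bet_eq_zero {Ψ : Phase N → Phase N} {x : Phase N} (h : Ψ =ᶠ[𝓝 x] fun y => y) :
    bet Ψ x = 0 := by
  have h1 : fderiv ℝ Ψ x = ContinuousLinearMap.id ℝ (Phase N) := by
    rw [h.fderiv_eq, fderiv_fun_id]
  rw [bet, h1, h.eq_of_nhds]
  simp

end form

/-! ### The scaled one-form -/

section scaled

variable {m k : ℕ}

/-- the scaling as a linear map -/
noncomputable def sL (m k : ℕ) (μ : ℝ) : Phase (m + k) →L[ℝ] Phase (m + k) :=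
  μ • (incK m k).comp (prK m k) + (incW m k).comp (prW m k)

lemma sL_apply (μ : ℝ) (x : Phase (m + k)) : sL m k μ x = sclB m k μ x := by
  change μ • incK m k (prK m k x) + incW m k (prW m k x) = incK m k (μ • prK m k x) +
    incW m k (prW m k x)
  rw [map_smul]

lemma sL_one : sL m k 1 = ContinuousLinearMap.id ℝ (Phase (m + k)) := by
  ext1 x
  rw [sL_apply, sclB, one_smul, mkB_eta]
  rfl

lemma contDiff_sL : ContDiff ℝ ∞ (sL m k) :=
  (contDiff_id.smul contDiff_const).add contDiff_const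

lemma norm_sL {μ : ℝ} (h0 : 0 < μ) (h1 : μ ≤ 1) (x : Phase (m + k)) :
    μ * ‖x‖ ≤ ‖sL m k μ x‖ := by
  have e1 := norm_sq_split (sL m k μ x)
  have e2 := norm_sq_split x
  have e3 : prK m k (sL m k μ x) = μ • prK m k x := by rw [sL_apply, sclB, prK_mkB]
  have e4 : prW m k (sL m k μ x) = prW m k x := by rw [sL_apply, sclB, prW_mkB]
  rw [e3, e4, norm_smul, Real.norm_of_nonneg h0.le] at e1
  refine le_of_sq_le_sq ?_ (norm_nonneg _)
  rw [e1, mul_pow, mul_pow, e2]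
  have e5 : μ ^ 2 ≤ 1 := pow_le_one₀ h0.le h1
  nlinarith [sq_nonneg ‖prW m k x‖]

/-- the scaling factor -/
noncomputable def muf (C s : ℝ) : ℝ := Real.exp (-(C / 2) * s)

lemma muf_pos (C s : ℝ) : 0 < muf C s := Real.exp_pos _

lemma muf_zero (C : ℝ) : muf C 0 = 1 := by simp [muf]

lemma muf_le {C s : ℝ} (hC : 0 ≤ C) (hs : 0 ≤ s) : muf C s ≤ 1 := by
  rw [muf, Real.exp_le_one_iff]
  nlinarith [mul_nonneg hC hs]

lemma muf_ge {C s : ℝ} (hC : 0 ≤ C) (hs : s ≤ 1) : Real.exp (-(C / 2)) ≤ muf C s := by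
  rw [muf, Real.exp_le_exp]
  nlinarith

lemma contDiff_muf (C : ℝ) : ContDiff ℝ ∞ (muf C) :=
  Real.contDiff_exp.comp (contDiff_const.mul contDiff_id)

lemma muf_ineq {C s : ℝ} (hC : 0 ≤ C) (hs : s ∈ Icc (0 : ℝ) 1) :
    (1 - s) * muf C s ^ 2 * (1 + (1 - (1 - s)) * C) ≤ 1 := by
  have h1 : muf C s ^ 2 = Real.exp (-(C * s)) := by
    rw [muf, ← Real.exp_nat_mul]
    congr 1
    push_cast
    ring
  have h2 : 1 + (1 - (1 - s)) * C ≤ Real.exp (C * s) := by
    have := Real.add_one_le_exp (C * s)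
    linarith
  have h3 : Real.exp (-(C * s)) * Real.exp (C * s) = 1 := by
    rw [← Real.exp_add]
    simp
  rw [h1]
  have h4 : 0 ≤ (1 - s) * Real.exp (-(C * s)) :=
    mul_nonneg (by linarith [hs.2]) (Real.exp_pos _).le
  calc (1 - s) * Real.exp (-(C * s)) * (1 + (1 - (1 - s)) * C)
      ≤ (1 - s) * Real.exp (-(C * s)) * Real.exp (C * s) := mul_le_mul_of_nonneg_left h2 h4
    _ = 1 - s := by rw [mul_assoc, h3, mul_one]
    _ ≤ 1 := by linarith [hs.1]

variable {T : Type} [TopologicalSpace T]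

/-- the family of scaled one-forms -/
noncomputable def beta (C : ℝ) (Ψ : T → Phase (m + k) → Phase (m + k)) (t : T)
    (q : ℝ × (Phase 0 × Phase (m + k))) : Phase (m + k) →L[ℝ] ℝ :=
  (1 - q.1) • (bet (Ψ t) (sL m k (muf C q.1) q.2.2)).comp (sL m k (muf C q.1))

lemma CF_bet {Ψ : T → Phase (m + k) → Phase (m + k)} (h : CF Ψ) :
    CF (fun t x => bet (Ψ t) x) := by
  have h1 : CF (fun t x => omegaB (m + k) (Ψ t x)) := h.clm (omegaB (m + k))
  have h2 : CF (fun t x => (omegaB (m + k) (Ψ t x)).comp (fderiv ℝ (Ψ t) x)) :=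
    h1.clm_comp h.fderiv
  have h3 : CF (fun (_ : T) (x : Phase (m + k)) => omegaB (m + k) x) :=
    CF.const (omegaB (m + k)).contDiff
  have h4 : CF (fun (_ : T) (_ : Phase (m + k)) => (1 / 2 : ℝ)) := CF.const contDiff_const
  exact h4.smul (h2.sub h3)

lemma CF_beta (C : ℝ) {Ψ : T → Phase (m + k) → Phase (m + k)} (h : CF Ψ) :
    CF (beta C Ψ) := by
  have h0 : CF (fun (t : T) (x : Phase (m + k)) => bet (Ψ t) x) := CF_bet h
  have h1 : ContDiff ℝ ∞ (fun q : ℝ × (Phase 0 × Phase (m + k)) => sL m k (muf C q.1)) :=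
    contDiff_sL.comp ((contDiff_muf C).comp contDiff_fst)
  have h2 : ContDiff ℝ ∞ (fun q : ℝ × (Phase 0 × Phase (m + k)) =>
      sL m k (muf C q.1) q.2.2) := h1.clm_apply (contDiff_snd.comp contDiff_snd)
  have h2' : CF (fun (_ : T) (q : ℝ × (Phase 0 × Phase (m + k))) =>
      sL m k (muf C q.1) q.2.2) := CF.const h2
  have h3 : CF (fun (t : T) (q : ℝ × (Phase 0 × Phase (m + k))) =>
      bet (Ψ t) (sL m k (muf C q.1) q.2.2)) := CF.comp h0 h2'
  have h4' : ContDiff ℝ ∞ (fun q : ℝ × (Phase 0 × Phase (m + k)) => 1 - q.1) :=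
    contDiff_const.sub contDiff_fst
  have h4 : CF (fun (_ : T) (q : ℝ × (Phase 0 × Phase (m + k))) => 1 - q.1) := CF.const h4'
  have h5 : CF (fun (_ : T) (q : ℝ × (Phase 0 × Phase (m + k))) => sL m k (muf C q.1)) :=
    CF.const h1
  have h6 : CF (fun (t : T) (q : ℝ × (Phase 0 × Phase (m + k))) =>
      (bet (Ψ t) (sL m k (muf C q.1) q.2.2)).comp (sL m k (muf C q.1))) := CF.clm_comp h3 h5
  have h7 : CF (fun (t : T) (q : ℝ × (Phase 0 × Phase (m + k))) => (1 - q.1) •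
      (bet (Ψ t) (sL m k (muf C q.1) q.2.2)).comp (sL m k (muf C q.1))) := CF.smul h4 h6
  exact h7

lemma fderiv_beta (C : ℝ) {Ψ : T → Phase (m + k) → Phase (m + k)} (h : CF Ψ) (t : T) (s : ℝ)
    (d : Phase 0) (w a b : Phase (m + k)) :
    fderiv ℝ (fun w' => beta C Ψ t (s, (d, w'))) w a b =
      (1 - s) * fderiv ℝ (bet (Ψ t)) (sL m k (muf C s) w) (sL m k (muf C s) a)
        (sL m k (muf C s) b) := by
  set S := sL m k (muf C s) with hS
  have hd : HasFDerivAt (bet (Ψ t)) (fderiv ℝ (bet (Ψ t)) (S w)) (S w) :=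
    ((contDiff_bet (h.contDiff t)).differentiable (by simp) _).hasFDerivAt
  have h1 : HasFDerivAt (fun w' => bet (Ψ t) (S w')) ((fderiv ℝ (bet (Ψ t)) (S w)).comp S) w :=
    hd.comp w S.hasFDerivAt
  have h2 : HasFDerivAt (fun w' => (bet (Ψ t) (S w')) (S b))
      (((fderiv ℝ (bet (Ψ t)) (S w)).comp S).flip (S b)) w := by
    have := h1.clm_apply (hasFDerivAt_const (S b) w)
    simpa using this
  have h3 : HasFDerivAt (fun w' => beta C Ψ t (s, (d, w')) b)
      ((1 - s) • ((fderiv ℝ (bet (Ψ t)) (S w)).comp S).flip (S b)) w := h2.const_mul (1 - s)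
  have h4 : HasFDerivAt (fun w' => beta C Ψ t (s, (d, w')))
      (fderiv ℝ (fun w' => beta C Ψ t (s, (d, w'))) w) w := by
    have k1 : ContDiff ℝ ∞ (fun w' : Phase (m + k) => beta C Ψ t (s, (d, w'))) :=
      ((CF_beta C h).contDiff t).comp (contDiff_const.prodMk (contDiff_const.prodMk contDiff_id))
    exact (k1.differentiable (by simp) w).hasFDerivAt
  have h5 : HasFDerivAt (fun w' => beta C Ψ t (s, (d, w')) b)
      ((fderiv ℝ (fun w' => beta C Ψ t (s, (d, w'))) w).flip b) w := by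
    have := h4.clm_apply (hasFDerivAt_const b w)
    simpa using this
  have h6 := congrArg (fun L : Phase (m + k) →L[ℝ] ℝ => L a) (h5.unique h3)
  simpa using h6

/-- The forms of the deformation. -/
lemma vform_beta (C : ℝ) {Ψ : T → Phase (m + k) → Phase (m + k)} (h : CF Ψ) (t : T) (s : ℝ)
    (d : Phase 0) (w a b : Phase (m + k)) :
    vform (beta C Ψ t) s d w a b = omegaStd a b + (1 - s) *
      (omegaStd (fderiv ℝ (Ψ t) (sclB m k (muf C s) w) (sclB m k (muf C s) a))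
        (fderiv ℝ (Ψ t) (sclB m k (muf C s) w) (sclB m k (muf C s) b)) -
        omegaStd (sclB m k (muf C s) a) (sclB m k (muf C s) b)) := by
  rw [vform, fderiv_beta C h, fderiv_beta C h, ← sL_apply, ← sL_apply, ← sL_apply,
    ← bet_alt (h.contDiff t)]
  ring

end scaled

/-! ### Assembly -/

section main

variable {m k : ℕ} {T : Type} [TopologicalSpace T]

lemma fderiv_inv {N : ℕ} {f g : Phase N → Phase N} (hf : Differentiable ℝ f)
    (hg : Differentiable ℝ g) (h : ∀ x, f (g x) = x) (x v : Phase N) :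
    fderiv ℝ f (g x) (fderiv ℝ g x v) = v := by
  have h1 : HasFDerivAt (fun y => f (g y)) ((fderiv ℝ f (g x)).comp (fderiv ℝ g x)) x :=
    (hf _).hasFDerivAt.comp x (hg x).hasFDerivAt
  have h2 : (fun y => f (g y)) = fun y => y := funext h
  rw [h2] at h1
  have h3 := h1.unique (hasFDerivAt_id x)
  exact congrArg (fun L : Phase N →L[ℝ] Phase N => L v) h3

lemma exists_bound [CompactSpace T] {N : ℕ} {Ψ : T → Phase N → Phase N} (h : CF Ψ) {R : ℝ}
    (hR : ∀ t p, R < ‖p‖ → Ψ t p = p) : ∃ a : ℝ, 0 ≤ a ∧ ∀ t x, ‖fderiv ℝ (Ψ t) x‖ ≤ a := by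
  obtain ⟨C, hC0, hC⟩ := Pool.Agent.H50.Susp.exists_bound_of_support
    (G := fun t x => fderiv ℝ (Ψ t) x - ContinuousLinearMap.id ℝ (Phase N)) (R := R)
    (h.fderiv.continuous.sub continuous_const) (fun t x hx => by
      have h1 : Ψ t =ᶠ[𝓝 x] fun y => y := by
        filter_upwards [(isOpen_lt continuous_const continuous_norm).mem_nhds hx] with y hy
        exact hR t y hy
      rw [h1.fderiv_eq, fderiv_fun_id, sub_self])
  refine ⟨C + 1, by linarith, fun t x => ?_⟩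
  have h1 : fderiv ℝ (Ψ t) x = (fderiv ℝ (Ψ t) x - ContinuousLinearMap.id ℝ (Phase N)) +
      ContinuousLinearMap.id ℝ (Phase N) := (sub_add_cancel _ _).symm
  rw [h1]
  refine (norm_add_le _ _).trans (add_le_add (hC t x) ?_)
  exact ContinuousLinearMap.norm_id_le

/-- The pulled back form is horizontally tame. -/
lemma hTame_inv (hht : St_htame) (hjt : St_jposTame) {R : ℝ}
    {Φ Ψ : T → Phase (m + k) → Phase (m + k)} (hΦ : FFam m k R Φ) (hΨ : CF Ψ)
    (h1 : ∀ t p, Φ t (Ψ t p) = p) (h2 : ∀ t p, Ψ t (Φ t p) = p) (t : T) (x : Phase (m + k)) :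
    HTame m k (fun u v => omegaStd (fderiv ℝ (Ψ t) x u) (fderiv ℝ (Ψ t) x v)) := by
  have hd := hΦ.cf.differentiable t
  have hd' := hΨ.differentiable t
  refine (hht m k (fderiv ℝ (Ψ t) x) (fderiv ℝ (Φ t) (Ψ t x))
    (fun v => fderiv_inv hd hd' (h1 t) x v) (fun v => ?_)).2 ⟨?_, ?_⟩
  · have h3 := fderiv_inv hd' hd (h2 t) (Ψ t x) v
    rwa [h1] at h3
  · have h4 : Differentiable ℝ (fun p => prK m k (Φ t p)) :=
      (prK m k).differentiable.comp hd
    have h5 := (hjt (m + k) k (fun p => prK m k (Φ t p)) h4).1 (hΦ.pos t) (Ψ t x)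
    have h6 : fderiv ℝ (fun p => prK m k (Φ t p)) (Ψ t x) =
        (prK m k).comp (fderiv ℝ (Φ t) (Ψ t x)) :=
      ((prK m k).hasFDerivAt.comp (Ψ t x) (hd (Ψ t x)).hasFDerivAt).fderiv
    rwa [h6] at h5
  · exact hΦ.symp t (Ψ t x)

lemma forms (hsc : St_scale) {Ψ : T → Phase (m + k) → Phase (m + k)} (hΨ : CF Ψ) {a : ℝ}
    (ha : ∀ t x, ‖fderiv ℝ (Ψ t) x‖ ≤ a)
    (hB : ∀ t x, HTame m k (fun u v => omegaStd (fderiv ℝ (Ψ t) x u) (fderiv ℝ (Ψ t) x v)))
    (t : T) (s : ℝ) (hs : s ∈ Icc (0 : ℝ) 1) (d : Phase 0) (w : Phase (m + k)) :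
    HTame m k (fun x y => vform (beta (a ^ 4) Ψ t) s d w x y) ∧
      ∀ x, (∀ y, vform (beta (a ^ 4) Ψ t) s d w x y = 0) → x = 0 := by
  have ha4 : 0 ≤ a ^ 4 := by positivity
  have h1 := hsc m k (fderiv ℝ (Ψ t) (sclB m k (muf (a ^ 4) s) w)) a (ha _ _) (hB _ _)
    (1 - s) (muf (a ^ 4) s) (by linarith [hs.2]) (by linarith [hs.1]) (muf_pos _ _)
    (muf_ineq ha4 hs)
  refine ⟨?_, fun x hx => h1.2 x fun y => ?_⟩
  · have h2 := h1.1
    simp only [← vform_beta (a ^ 4) hΨ t s d w] at h2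
    exact h2
  · rw [← vform_beta (a ^ 4) hΨ t s d w]
    exact hx y

lemma beta_out {Ψ : T → Phase (m + k) → Phase (m + k)} {R C : ℝ} (hC : 0 ≤ C) (hR : 0 ≤ R)
    (h : ∀ t p, R < ‖p‖ → Ψ t p = p) (t : T) (s : ℝ) (hs : s ∈ Icc (0 : ℝ) 1) (d : Phase 0)
    (w : Phase (m + k)) (hw : R * Real.exp (C / 2) < ‖w‖) : beta C Ψ t (s, (d, w)) = 0 := by
  have h1 : R < ‖sL m k (muf C s) w‖ := by
    have e1 := norm_sL (m := m) (k := k) (muf_pos C s) (muf_le hC hs.1) w
    have e2 := muf_ge hC hs.2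
    have e3 : Real.exp (-(C / 2)) * ‖w‖ ≤ muf C s * ‖w‖ :=
      mul_le_mul_of_nonneg_right e2 (norm_nonneg w)
    have e4 : Real.exp (-(C / 2)) * (R * Real.exp (C / 2)) = R := by
      have e5 : Real.exp (-(C / 2)) * Real.exp (C / 2) = 1 := by
        rw [← Real.exp_add]
        simp
      rw [mul_left_comm, e5, mul_one]
    have e6 : Real.exp (-(C / 2)) * (R * Real.exp (C / 2)) < Real.exp (-(C / 2)) * ‖w‖ :=
      mul_lt_mul_of_pos_left hw (Real.exp_pos _)
    rw [e4] at e6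
    exact e6.trans_le (e3.trans e1)
  have h2 : Ψ t =ᶠ[𝓝 (sL m k (muf C s) w)] fun y => y := by
    filter_upwards [(isOpen_lt continuous_const continuous_norm).mem_nhds h1] with y hy
    exact h t y hy
  change (1 - s) • (bet (Ψ t) (sL m k (muf C s) w)).comp (sL m k (muf C s)) = 0
  rw [bet_eq_zero h2, ContinuousLinearMap.zero_comp, smul_zero]

end main

end RET

/-- RET. -/
theorem thm_ret (hmos : St_mosV) (hht : St_htame) (hsc : St_scale) (hfi : St_fInv)
    (hfs : St_fToSymp) (hjt : St_jposTame) : St_ret := by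
  intro m k T _ _ R Φ hR hΦ
  obtain ⟨-, Ψ₀, hΨcf, hΦΨ, hΨΦ, hΨstd⟩ := hfi m k T R Φ hΦ
  obtain ⟨a, ha0, ha⟩ := RET.exists_bound hΨcf hΨstd
  have ha4 : 0 ≤ a ^ 4 := by positivity
  have hB := fun t x => RET.hTame_inv hht hjt hΦ hΨcf hΦΨ hΨΦ t x
  have hform := RET.forms hsc hΨcf ha hB
  have hout := RET.beta_out (m := m) (k := k) ha4 hR hΨstd
  set β := RET.beta (m := m) (k := k) (a ^ 4) Ψ₀ with hβ
  have hRρ : R ≤ R * Real.exp (a ^ 4 / 2) := by
    have h1 : 1 ≤ Real.exp (a ^ 4 / 2) := Real.one_le_exp (by positivity)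
    nlinarith
  set ρ := R * Real.exp (a ^ 4 / 2) with hρ
  have h01 : (0 : ℝ) ∈ Icc (0 : ℝ) 1 := ⟨le_rfl, zero_le_one⟩
  have hcond : ∀ t, ∀ s ∈ Icc (0 : ℝ) 1, ∀ (d : Phase 0) (w : Phase (m + k)),
      ((0 : ℝ) < ‖d‖ ∨ ρ < ‖w‖) → β t (s, (d, w)) = β t (0, (d, w)) := by
    rintro t s hs d w (h | h)
    · rw [Subsingleton.elim d 0, norm_zero] at h
      exact absurd h (lt_irrefl _)
    · rw [hout t s hs d w h, hout t 0 h01 d w h]
  obtain ⟨M, hMcf, hM0, hMout, hMform, hMtriv⟩ := hmos (m + k) (Phase 0) T β 0 ρ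
    (RET.CF_beta (a ^ 4) hΨcf) hcond (fun t s hs d w => (hform t s hs d w).2)
  set Ψ : T × I → Phase (m + k) → Phase (m + k) := fun q p => M q (0, Φ q.1 p) with hΨ
  have hΨC : CF Ψ := CF.comp (F := M) (G := fun (q : T × I) p => ((0 : Phase 0), Φ q.1 p)) hMcf
    ((CF.const contDiff_const).prodMk (hΦ.cf.base continuous_fst))
  -- the derivative
  have hder : ∀ q p u, fderiv ℝ (Ψ q) p u =
      fderiv ℝ (fun w' => M q (0, w')) (Φ q.1 p) (fderiv ℝ (Φ q.1) p u) := by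
    intro q p u
    have h1 : Differentiable ℝ (fun w' : Phase (m + k) => M q (0, w')) :=
      (hMcf.differentiable q).comp ((differentiable_const (0 : Phase 0)).prodMk differentiable_id)
    have h2 : HasFDerivAt (Ψ q) ((fderiv ℝ (fun w' => M q (0, w')) (Φ q.1 p)).comp
        (fderiv ℝ (Φ q.1) p)) p :=
      (h1 (Φ q.1 p)).hasFDerivAt.comp p (hΦ.cf.differentiable q.1 p).hasFDerivAt
    rw [h2.fderiv]
    rfl
  have hkey : ∀ t (s : I) p u v, vform (β t) s (0 : Phase 0) (Ψ (t, s) p)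
      (fderiv ℝ (Ψ (t, s)) p u) (fderiv ℝ (Ψ (t, s)) p v) = omegaStd u v := by
    intro t s p u v
    rw [hder, hder]
    refine (hMform t s 0 (Φ t p) _ _).trans ?_
    rw [hβ, RET.vform_beta (a ^ 4) hΨcf, RET.muf_zero]
    have h1 : ∀ x : Phase (m + k), sclB m k 1 x = x := fun x => by
      rw [sclB, one_smul, mkB_eta]
    rw [h1, h1, h1, RET.fderiv_inv (hΨcf.differentiable t) (hΦ.cf.differentiable t) (hΨΦ t),
      RET.fderiv_inv (hΨcf.differentiable t) (hΦ.cf.differentiable t) (hΨΦ t)]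
    ring
  have hstd : ∀ (q : T × I) p, ρ < ‖p‖ → Ψ q p = p := by
    intro q p hp
    change M q (0, Φ q.1 p) = p
    rw [hΦ.std q.1 p (hRρ.trans_lt hp)]
    exact hMout q 0 p (Or.inr hp)
  have hinj : ∀ (q : T × I) p, Injective (fderiv ℝ (Ψ q) p) := by
    rintro ⟨t, s⟩ p
    refine (injective_iff_map_eq_zero _).2 fun u hu => ?_
    apply eq_zero_of_omegaStd
    intro v
    rw [← hkey t s p u v, hu]
    have h2 := hkey t s p 0 v
    rw [map_zero, omegaStd_zero_left] at h2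
    exact h2
  have htame : ∀ (q : T × I) p, TameL ((prK m k).comp (fderiv ℝ (Ψ q) p)) ∧
      ∀ u v, prK m k (fderiv ℝ (Ψ q) p u) = 0 → prK m k (fderiv ℝ (Ψ q) p v) = 0 →
        omegaStd (prW m k (fderiv ℝ (Ψ q) p u)) (prW m k (fderiv ℝ (Ψ q) p v)) =
          omegaStd u v := by
    rintro ⟨t, s⟩ p
    set e := cleOfInjective (fderiv ℝ (Ψ (t, s)) p) (hinj (t, s) p) with he
    have h1 : ∀ x, fderiv ℝ (Ψ (t, s)) p (e.symm x) = x := fun x => e.apply_symm_apply x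
    have h2 : ∀ x, e.symm (fderiv ℝ (Ψ (t, s)) p x) = x := fun x => e.symm_apply_apply x
    refine (hht m k (e.symm : Phase (m + k) →L[ℝ] Phase (m + k)) (fderiv ℝ (Ψ (t, s)) p)
      h1 h2).1 ?_
    have h3 := (hform t s s.2 0 (Ψ (t, s) p)).1
    have h4 : (fun x y => vform (β t) s (0 : Phase 0) (Ψ (t, s) p) x y) = fun x y =>
        omegaStd ((e.symm : Phase (m + k) →L[ℝ] Phase (m + k)) x)
          ((e.symm : Phase (m + k) →L[ℝ] Phase (m + k)) y) := by
      funext x y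
      have h5 := hkey t s p (e.symm x) (e.symm y)
      rw [h1, h1] at h5
      exact h5
    rw [h4] at h3
    exact h3
  have hF : FFam m k ρ Ψ := by
    refine ⟨hΨC, hstd, fun q => ?_, fun q p => (htame q p).2⟩
    have h4 : Differentiable ℝ (fun p => prK m k (Ψ q p)) :=
      (prK m k).differentiable.comp (hΨC.differentiable q)
    refine (hjt (m + k) k (fun p => prK m k (Ψ q p)) h4).2 fun p => ?_
    have h6 : fderiv ℝ (fun p => prK m k (Ψ q p)) p = (prK m k).comp (fderiv ℝ (Ψ q) p) :=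
      ((prK m k).hasFDerivAt.comp p (hΨC.differentiable q p).hasFDerivAt).fderiv
    rw [h6]
    exact (htame q p).1
  have hF1 : FFam m k ρ (fun t => Ψ (t, 1)) :=
    ⟨hF.cf.base (h := fun t : T => (t, (1 : I))) (by fun_prop), fun t => hF.std (t, 1),
      fun t => hF.pos (t, 1), fun t => hF.symp (t, 1)⟩
  have hs1 : ∀ t p u v, omegaStd (fderiv ℝ (Ψ (t, 1)) p u) (fderiv ℝ (Ψ (t, 1)) p v) =
      omegaStd u v := by
    intro t p u v
    rw [← hkey t 1 p u v, hβ, RET.vform_beta (a ^ 4) hΨcf]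
    simp
  obtain ⟨f, hf⟩ := hfs m k T ρ (fun t => Ψ (t, 1)) hF1 hs1
  refine ⟨ρ, Ψ, f, hRρ, hF, fun t p => hM0 t 0 (Φ t p), fun t p => (hf t p).symm, ?_, ?_⟩
  · intro t ht s p u v
    rw [← hkey t s p u v, hβ, RET.vform_beta (a ^ 4) hΨcf]
    have h1 : ∀ x u v, omegaStd (fderiv ℝ (Ψ₀ t) x u) (fderiv ℝ (Ψ₀ t) x v) =
        omegaStd u v := by
      intro x u v
      have h2 : ∀ v, fderiv ℝ (Φ t) (Ψ₀ t x) (fderiv ℝ (Ψ₀ t) x v) = v := fun v =>
        RET.fderiv_inv (hΦ.cf.differentiable t) (hΨcf.differentiable t) (hΦΨ t) x v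
      have h3 := ht (Ψ₀ t x) (fderiv ℝ (Ψ₀ t) x u) (fderiv ℝ (Ψ₀ t) x v)
      rw [h2, h2] at h3
      exact h3.symm
    rw [h1, sub_self, mul_zero, add_zero]
  · intro t ht s p
    have h0 : ∀ x, Ψ₀ t x = x := fun x => by
      have := hΨΦ t x
      rwa [ht] at this
    have hb : ∀ s (w : Phase (m + k)), β t (s, ((0 : Phase 0), w)) = 0 := by
      intro s w
      change (1 - s) • (RET.bet (Ψ₀ t) (RET.sL m k (RET.muf (a ^ 4) s) w)).comp
        (RET.sL m k (RET.muf (a ^ 4) s)) = 0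
      rw [RET.bet_eq_zero (Filter.Eventually.of_forall h0), ContinuousLinearMap.zero_comp,
        smul_zero]
    change M (t, s) (0, Φ t p) = p
    rw [ht]
    exact hMtriv t 0 (fun s _ w => by rw [hb, hb]) s p

end Pool.Agent.KRW
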