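import Mathlib
import Pool.Agent.KRW.St

/-!
# The exact sequence of `k`-rows: the refined exactness at the rows

Two families of rows with homotopic scatterings differ by the action of the group.
-/

set_option maxSynthPendingDepth 3

open scoped ContDiff Topology unitInterval
open Set Function TopologicalSpace Filter

namespace Pool.Agent.KRW

open Pool.Agent.Helper17 Pool.Agent.Helper42 Pool.Agent.H42.Hull

/-- OR1.  Scaling lemma for two forms (`St_scale` is the case `L₁ = id`).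
PROOF.  Write `B_i x y = ω (L_i x) (L_i y)`, `c_i = B_i - ω`, `c = (1-r) c₁ + r c₂`, `D = sclB μ`,
`B = ω + c (D ·) (D ·)`.  Fibres: clear.  For `u : Phase k` let `X_i u : Phase m` with
`ω (X_i u) w = -c_i (incK u) (incW w)`, `X = (1-r) X₁ + r X₂`; the `B`-horizontal vectors are
`incK u + incW (μ X u)`.  With `σ_i u = c_i (incK u) (incK J u) - ω (X_i u) (X_i (J u))`,
`|u|² + σ_i u > 0` for `u ≠ 0` (`B_i` is tame), the value of `B` on the horizontal vectors over `u`, `J u` is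
`|u|² + μ² ((1-r) σ₁ + r σ₂ + r (1-r) ω (X₁ u - X₂ u) (X₁ (J u) - X₂ (J u)))`, and
`|X_i u| ≤ ‖L_i‖² |u| ≤ a² |u|`, so the last term is at least `-4 a⁴ r (1-r) |u|²`.  Hence the value is at
least `(1 - μ² (1 + 4 a⁴ r (1-r))) |u|² + μ² ((1-r) (|u|² + σ₁) + r (|u|² + σ₂)) > 0`.
Nondegenerate as in `St_scale`.  See Pool/Agent/KRW/LI3.lean. -/
def St_scale2 : Prop :=
  ∀ (m k : ℕ) (L₁ L₂ : Phase (m + k) →L[ℝ] Phase (m + k)) (a : ℝ), ‖L₁‖ ≤ a → ‖L₂‖ ≤ a →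
    HTame m k (fun x y => omegaStd (L₁ x) (L₁ y)) → HTame m k (fun x y => omegaStd (L₂ x) (L₂ y)) →
    ∀ r μ : ℝ, 0 ≤ r → r ≤ 1 → 0 < μ → μ ^ 2 * (1 + r * (1 - r) * (4 * a ^ 4)) ≤ 1 →
      HTame m k (fun x y => omegaStd x y +
        ((1 - r) * omegaStd (L₁ (sclB m k μ x)) (L₁ (sclB m k μ y)) +
        r * omegaStd (L₂ (sclB m k μ x)) (L₂ (sclB m k μ y)) -
        omegaStd (sclB m k μ x) (sclB m k μ y))) ∧
      ∀ x, (∀ y, omegaStd x y +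
        ((1 - r) * omegaStd (L₁ (sclB m k μ x)) (L₁ (sclB m k μ y)) +
        r * omegaStd (L₂ (sclB m k μ x)) (L₂ (sclB m k μ y)) -
        omegaStd (sclB m k μ x) (sclB m k μ y)) = 0) → x = 0

/-- OR1.  `HTame` is invariant under maps which are the identity on the base and symplectic on the
fibre.  PROOF.  `S` is surjective, so `B (A x) (A (incW w)) = B (A x) (incW (S w))` for all `w` is zero iff
`A x` is `B`-horizontal. -/
def St_htameG : Prop :=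
  ∀ (m k : ℕ) (B : Phase (m + k) → Phase (m + k) → ℝ) (A : Phase (m + k) →L[ℝ] Phase (m + k))
    (S : Phase m →L[ℝ] Phase m), HTame m k B → (∀ x, prK m k (A x) = prK m k x) →
    (∀ w, A (incW m k w) = incW m k (S w)) → (∀ v w, omegaStd (S v) (S w) = omegaStd v w) →
    HTame m k (fun x y => B (A x) (A y))

/-- OR2.  The family of primitives which joins two trivialised families of rows which agree outside a
compact set.
PROOF.  Enlarge `R'` (all fields of `Trivia` are monotone in the radius).  `Ξ₁ = Ξ`.  `a0 x = ½ ω (x, ·)`,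
`β_i t x = ½ (ω (Ξ_i x, DΞ_i ·) - ω (x, ·))` (`= Ξ_i^* a0 - a0`, its antisymmetrised derivative is `Ξ_i^* ω - ω`).
`a` a common bound of `‖DΞ_i‖` (compactness; for `yB p ≥ R'` `Ξ_i t p = mkB (prK p) (E t p)` and `E` does not depend
on `y_0`), `C = 4 a⁴`.  For `s ∈ ℝ`: `r = 1 - s`, `μ s = exp (-(C/2) s (1-s))` (so `μ² (1 + r (1-r) C) ≤ 1` for
`s ∈ [0,1]`, and `μ 0 = μ 1 = 1`), `χ` smooth, `χ y = 0` for `y ≤ 0`, `χ y = 1` for `y ≥ 1`,
`ν = 1 - χ (yB p) (1 - μ s)`, `V` the inverse of `E` (`St_vInv`), `G_s t p = mkB (prK p) (V t (mkB (ν • prK p) (E t p)))`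
(`g = E_{ν b}⁻¹ ∘ E_b`; a `CF` family in `(s, p)`, identity for `yB p ≤ 0`, for `μ s = 1`, and where
`R' ≤ ν ‖sideB p‖`).  `γ t s x = a0 x + (β_r t (D x)) ∘ D` with `D = sclB (μ s)`, `β_r = (1-r) β₁ + r β₂`; finally
`β t (s, (d, x)) = (γ t s (G x)) ∘ DG(x) - a0 x` (pull-back by `G`).  `vform` at `s`, `x` is `B' (DG ·) (DG ·)`, `B'` the
form of `St_scale2` at `G x` with `L_i = DΞ_i (D (G x))`; it is `HTame` and nondegenerate: `St_htame` (⇐) for `Ξ_i`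
(`prK ∘ Θ_i = F_i`, `St_jposTame`), `St_scale2`, `St_htameG`.  For `s ∈ [0,1]` outside a ball
`β t (s, ·) = β t (0, ·)`: if `yB x` is large then `Ξ_i = Ê : p ↦ mkB (prK p) (E p)`, `γ = Ê_μ^* a0` with
`Ê_μ p = mkB (prK p) (E (mkB (μ prK p) (prW p)))`, and `Ê_μ ∘ G = Ê`, so `β = Ê^* a0 - a0`; if `‖prW x‖`, `‖sideB x‖` or
`-yB x` is large, `G = id` and `Ξ_i = id` at `D x`, so `β = 0`.  For `t ∈ T0` `Ξ = Ξ₂ = id`, `E = V = prW`, `β = 0`. -/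
def St_beta : Prop :=
  ∀ (m k : ℕ) (T : Type) [TopologicalSpace T] [CompactSpace T] (T0 : Set T) (R R' R₃ : ℝ)
    (F F' : T → Phase (m + (k + 1)) → Phase (k + 1))
    (Ξ Θ Ξ₂ Θ₂ : T → Phase (m + (k + 1)) → Phase (m + (k + 1)))
    (E : T → Phase (m + (k + 1)) → Phase m), 0 ≤ R → JFam m (k + 1) R F →
    JFam m (k + 1) R F' → R ≤ R' → Trivia m k R' F Ξ Θ E → CF Ξ₂ → CF Θ₂ →
    (∀ t p, Θ₂ t (Ξ₂ t p) = p) → (∀ t p, Ξ₂ t (Θ₂ t p) = p) →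
    (∀ t p, F' t (Ξ₂ t p) = prK m (k + 1) p) →
    (∀ t p (v w : Phase m), omegaStd (fderiv ℝ (Ξ₂ t) p (incW m (k + 1) v))
      (fderiv ℝ (Ξ₂ t) p (incW m (k + 1) w)) = omegaStd v w) →
    (∀ t p, R₃ < ‖p‖ → Ξ₂ t p = Ξ t p) →
    (∀ t ∈ T0, ∀ p, F t p = prK m (k + 1) p ∧ Ξ₂ t p = p) →
    ∃ (A : ℝ) (β : T → ℝ × (Phase 0 × Phase (m + (k + 1))) → (Phase (m + (k + 1)) →L[ℝ] ℝ)),
      0 ≤ A ∧ CF β ∧
      (∀ t, ∀ s ∈ Icc (0 : ℝ) 1, ∀ d x, A < ‖x‖ → β t (s, (d, x)) = β t (0, (d, x))) ∧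
      (∀ t, ∀ s ∈ Icc (0 : ℝ) 1, ∀ d x, HTame m (k + 1) (fun u v => vform (β t) s d x u v) ∧
        ∀ u, (∀ v, vform (β t) s d x u v = 0) → u = 0) ∧
      (∀ t d x u v, vform (β t) 0 d x u v =
        omegaStd (fderiv ℝ (Ξ₂ t) x u) (fderiv ℝ (Ξ₂ t) x v)) ∧
      (∀ t d x u v, vform (β t) 1 d x u v =
        omegaStd (fderiv ℝ (Ξ t) x u) (fderiv ℝ (Ξ t) x v)) ∧
      ∀ t ∈ T0, ∀ s d x, β t (s, (d, x)) = β t (0, (d, x))

/-- OR2b.  Two trivialised families of rows which agree outside a compact set.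
PROOF.  `β` from `St_beta`, `M (t,s)` from `St_mosV` with `D = Phase 0` (`‖d‖ = 0`); write `M (t,s) x`.
`Z (t,s) = M (t,s) ∘ Θ₂ t`, `vform_s (DZ u) (DZ v) = ω u v` (`vform_0 = Ξ₂^* ω`); `DZ` is injective, let `L` be its
inverse: `St_htame` (⇒) for `vform_s = ω (L ·) (L ·)`, `M = DZ`, gives `TameL (prK ∘ DZ)`, so
`H (t,s) = prK ∘ Z (t,s)` is `J`-positive (`St_jposTame`).  `s = 0`: `Z = Θ₂`, `H = F'` (`F' = prK ∘ Θ₂`).
`s = 1`: `vform_1 = Ξ^* ω`, so `φ t = Ξ t ∘ M (t,1) ∘ Θ₂ t` is symplectic, and it is the identity outside a ball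
(`Θ₂ = Θ` outside a ball, `M = id` outside a ball); `mkSymp`, `continuous_of_CF`;
`F (φ) = prK ∘ M ∘ Θ₂ = H (t,1)` as `F ∘ Ξ = prK`.  For `t ∈ T0` everything is the identity. -/
def St_ret2 : Prop :=
  ∀ (m k : ℕ) (T : Type) [TopologicalSpace T] [CompactSpace T] (T0 : Set T) (R R' R₃ : ℝ)
    (F F' : T → Phase (m + (k + 1)) → Phase (k + 1))
    (Ξ Θ Ξ₂ Θ₂ : T → Phase (m + (k + 1)) → Phase (m + (k + 1)))
    (E : T → Phase (m + (k + 1)) → Phase m), 0 ≤ R → JFam m (k + 1) R F →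
    JFam m (k + 1) R F' → R ≤ R' → Trivia m k R' F Ξ Θ E → CF Ξ₂ → CF Θ₂ →
    (∀ t p, Θ₂ t (Ξ₂ t p) = p) → (∀ t p, Ξ₂ t (Θ₂ t p) = p) →
    (∀ t p, F' t (Ξ₂ t p) = prK m (k + 1) p) →
    (∀ t p (v w : Phase m), omegaStd (fderiv ℝ (Ξ₂ t) p (incW m (k + 1) v))
      (fderiv ℝ (Ξ₂ t) p (incW m (k + 1) w)) = omegaStd v w) →
    (∀ t p, R₃ < ‖p‖ → Ξ₂ t p = Ξ t p) →
    (∀ t ∈ T0, ∀ p, F t p = prK m (k + 1) p ∧ Ξ₂ t p = p) →
    ∃ (R'' : ℝ) (φ : C(T, SympCt (m + (k + 1))))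
      (H : T × I → Phase (m + (k + 1)) → Phase (k + 1)), 0 ≤ R'' ∧ JFam m (k + 1) R'' H ∧
      (∀ t p, H (t, 0) p = F' t p) ∧
      (∀ t p, H (t, 1) p = F t ((φ t : Equiv.Perm (Phase (m + (k + 1)))) p)) ∧
      ∀ t ∈ T0, φ t = 1 ∧ ∀ s p, H (t, s) p = prK m (k + 1) p

/-- OR3.  Families with homotopic scatterings have trivialisations which agree outside a compact
set.  PROOF.  `St_trivia` for `F` (`Ξ, Θ, E`) and for `F'` (`Ξ', Θ', E'`), with a common radius (all fields of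
`Trivia` are monotone in the radius).  `V'` inverse to `E'` (`St_vInv`), `X t p = V' t (mapW (E t) p)` (`St_vComp`), independent
of `y_0`, trivial for `R' ≤ ‖sideB p‖`.  For radius `ρ` large, `e₁` (for `F`), `e₁'` (for `F'`) the scatterings with
radius `ρ` (`St_scEx`): `X t (mkB (bxPt ρ z (a,0)) w) = e₁' (e₁⁻¹ w)` (`St_scVal`), and `e₁ ~ e ~ e' ~ e₁'` (`St_scUn`), so
`e₁' e₁⁻¹ ~ 1` rel `bdE k T0` (`continuous_mul_family`, `continuous_inv_family`).  As in `St_lEx`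
(Pool/Agent/KRW/LEX.lean) `St_smo` gives `U`, a `VFam`, `U = prW` for `yB p ≤ -B` or `B ≤ ‖sideB p‖`, `U = X` for `B ≤ yB p`, and
`U t = prW` for `t ∈ T0`.  `Ξ₂ t p = Ξ' t (mapW (U t) p)`, `Θ₂ t p = mapW (U⁻¹) (Θ' t p)`. -/
def St_two : Prop :=
  ∀ (m k : ℕ) (T : Type) [TopologicalSpace T] [CompactSpace T] (T0 : Set T) (R : ℝ)
    (F F' : T → Phase (m + (k + 1)) → Phase (k + 1)), 0 ≤ R → JFam m (k + 1) R F →
    JFam m (k + 1) R F' → (∀ t ∈ T0, ∀ p, F t p = prK m (k + 1) p ∧ F' t p = prK m (k + 1) p) →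
    ∀ e e' : C((T × Bx k) × I, SympCt m), IsScatF F e → IsScatF F' e' →
    e.HomotopicRel e' (bdE k T0) →
    ∃ (R' R₃ : ℝ) (Ξ Θ Ξ₂ Θ₂ : T → Phase (m + (k + 1)) → Phase (m + (k + 1)))
      (E : T → Phase (m + (k + 1)) → Phase m), R ≤ R' ∧ Trivia m k R' F Ξ Θ E ∧ CF Ξ₂ ∧ CF Θ₂ ∧
      (∀ t p, Θ₂ t (Ξ₂ t p) = p) ∧ (∀ t p, Ξ₂ t (Θ₂ t p) = p) ∧
      (∀ t p, F' t (Ξ₂ t p) = prK m (k + 1) p) ∧
      (∀ t p (v w : Phase m), omegaStd (fderiv ℝ (Ξ₂ t) p (incW m (k + 1) v))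
        (fderiv ℝ (Ξ₂ t) p (incW m (k + 1) w)) = omegaStd v w) ∧
      (∀ t p, R₃ < ‖p‖ → Ξ₂ t p = Ξ t p) ∧ (∀ t ∈ T0, ∀ p, Ξ₂ t p = p)

/-- The action of the group is transitive on the rows with given scattering class. -/
def St_orb : Prop :=
  ∀ (m k : ℕ) (T : Type) [TopologicalSpace T] [CompactSpace T] (T0 : Set T) (R : ℝ)
    (F F' : T → Phase (m + (k + 1)) → Phase (k + 1)), 0 ≤ R → JFam m (k + 1) R F →
    JFam m (k + 1) R F' → (∀ t ∈ T0, ∀ p, F t p = prK m (k + 1) p ∧ F' t p = prK m (k + 1) p) →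
    ∀ e e' : C((T × Bx k) × I, SympCt m), IsScatF F e → IsScatF F' e' →
    e.HomotopicRel e' (bdE k T0) →
    ∃ (R'' : ℝ) (φ : C(T, SympCt (m + (k + 1))))
      (H : T × I → Phase (m + (k + 1)) → Phase (k + 1)), 0 ≤ R'' ∧ JFam m (k + 1) R'' H ∧
      (∀ t p, H (t, 0) p = F' t p) ∧
      (∀ t p, H (t, 1) p = F t ((φ t : Equiv.Perm (Phase (m + (k + 1)))) p)) ∧
      ∀ t ∈ T0, φ t = 1 ∧ ∀ s p, H (t, s) p = prK m (k + 1) p

lemma orb_of (h1 : St_two) (h2 : St_ret2) : St_orb := by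
  intro m k T _ _ T0 R F F' hR hF hF' hT0 e e' he he' hh
  obtain ⟨R', R₃, Ξ, Θ, Ξ₂, Θ₂, E, hRR, hTr, a1, a2, a3, a4, a5, a6, a7, a8⟩ :=
    h1 m k T T0 R F F' hR hF hF' hT0 e e' he he' hh
  exact h2 m k T T0 R R' R₃ F F' Ξ Θ Ξ₂ Θ₂ E hR hF hF' hRR hTr a1 a2 a3 a4 a5 a6 a7
    fun t ht p => ⟨(hT0 t ht p).1, a8 t ht p⟩

/-- OR4.  The scattering is invariant under the group.
PROOF.  Let `ρ` be larger than the radii of `F`, of the support of `φ` and `ρ₀` of `St_scEx`, and `e₁` the scattering of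
`F` with radius `ρ`.  Then `IsScatAt ρ (F ∘ φ) e₁`: if `c` is `IsHor` for `F t ∘ φ t` then `φ t ∘ c` is `IsHor` for `F t`
(`ω (Dφ c') (Dφ v) = ω c' v`, `Dφ` is surjective), and `φ t` fixes the points with `|yB| ≥ ρ`.  `St_scUn` twice
(`F t ∘ φ t` is a `JFam`: `JPos.comp`, see `cri_jFam` in Pool/Agent/KRW/CRI.lean). -/
def St_act : Prop :=
  ∀ (m k : ℕ) (T : Type) [TopologicalSpace T] [CompactSpace T] (T0 : Set T) (R : ℝ)
    (F : T → Phase (m + (k + 1)) → Phase (k + 1)) (φ : C(T, SympCt (m + (k + 1)))), 0 ≤ R →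
    JFam m (k + 1) R F → (∀ t ∈ T0, ∀ p, F t p = prK m (k + 1) p) → (∀ t ∈ T0, φ t = 1) →
    ∀ e e' : C((T × Bx k) × I, SympCt m), IsScatF F e →
      IsScatF (fun t p => F t ((φ t : Equiv.Perm (Phase (m + (k + 1)))) p)) e' →
      e.HomotopicRel e' (bdE k T0)

/-- OR5.  Refined exactness at the rows, for loops.
PROOF.  (⇒) `St_orb` with `T0` the boundary, `St_cubE`, `St_topR`.  (⇐) `F'` and `F''` are homotopic, so their
scatterings are (`St_mapD`, or `St_scUn` over `(Fin j → I) × I`); `St_act`. -/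
def St_ref2 : Prop :=
  ∀ (j m k : ℕ) (F F' : LoopR j m (k + 1)) (e e' : LoopG (k + k + j + 1) m), IsScatK F e →
    IsScatK F' e' → (e.cls = e'.cls ↔ ∃ (φ : LoopG j (m + (k + 1))) (F'' : LoopR j m (k + 1)),
      (∀ t p, F''.at t p = F.at t (φ.at t p)) ∧ F'.cls = F''.cls)

end Pool.Agent.KRW
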