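import Mathlib
import Pool.Agent.KRW.St2
import Pool.Agent.KRW.RET

/-!
# The family of primitives joining two trivialised families of rows: calculus
-/

set_option maxSynthPendingDepth 3

open scoped ContDiff Topology unitInterval
open Set Function TopologicalSpace Filter

namespace Pool.Agent.KRW

open Pool.Agent.Helper17 Pool.Agent.Helper42 Pool.Agent.H42.Hull

namespace OR2

/-! ### Pull-backs of one-forms -/

section calculus

variable {N : ℕ}

/-- The pull-back of a one-form. -/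
noncomputable def pb (g : Phase N → Phase N) (α : Phase N → Phase N →L[ℝ] ℝ) (x : Phase N) :
    Phase N →L[ℝ] ℝ :=
  (α (g x)).comp (fderiv ℝ g x)

lemma contDiff_pb {g : Phase N → Phase N} {α : Phase N → Phase N →L[ℝ] ℝ}
    (hg : ContDiff ℝ ∞ g) (hα : ContDiff ℝ ∞ α) : ContDiff ℝ ∞ (pb g α) :=
  (hα.comp hg).clm_comp (hg.fderiv_right (by simp))

lemma fderiv_pb {g : Phase N → Phase N} {α : Phase N → Phase N →L[ℝ] ℝ}
    (hg : ContDiff ℝ ∞ g) (hα : ContDiff ℝ ∞ α) (x a b : Phase N) :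
    fderiv ℝ (pb g α) x a b = fderiv ℝ α (g x) (fderiv ℝ g x a) (fderiv ℝ g x b) +
      α (g x) (fderiv ℝ (fderiv ℝ g) x a b) := by
  have h1 : HasFDerivAt (fun y => α (g y)) ((fderiv ℝ α (g x)).comp (fderiv ℝ g x)) x :=
    (hα.differentiable (by simp) (g x)).hasFDerivAt.comp x (hg.differentiable (by simp) x).hasFDerivAt
  have h2 : ContDiff ℝ ∞ (fderiv ℝ g) := hg.fderiv_right (by simp)
  have h3 : HasFDerivAt (fderiv ℝ g) (fderiv ℝ (fderiv ℝ g) x) x :=
    (h2.differentiable (by simp) x).hasFDerivAt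
  have hd : HasFDerivAt (pb g α) (fderiv ℝ (pb g α) x) x :=
    ((contDiff_pb hg hα).differentiable (by simp) x).hasFDerivAt
  have h4 : HasFDerivAt (fun y => pb g α y b) ((fderiv ℝ (pb g α) x).flip b) x := by
    have := hd.clm_apply (hasFDerivAt_const b x)
    simpa using this
  have h5 : HasFDerivAt (fun y => fderiv ℝ g y b) ((fderiv ℝ (fderiv ℝ g) x).flip b) x := by
    have := h3.clm_apply (hasFDerivAt_const b x)
    simpa using this
  have h6 : HasFDerivAt (fun y => (α (g y)) (fderiv ℝ g y b)) _ x := h1.clm_apply h5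
  have h7 := congrArg (fun L : Phase N →L[ℝ] ℝ => L a) (h4.unique h6)
  simp only [ContinuousLinearMap.flip_apply] at h7
  rw [h7]
  simp only [add_apply, ContinuousLinearMap.comp_apply, ContinuousLinearMap.flip_apply]
  ring

/-- The derivative of a pull-back. -/
lemma pb_alt {g : Phase N → Phase N} {α : Phase N → Phase N →L[ℝ] ℝ}
    (hg : ContDiff ℝ ∞ g) (hα : ContDiff ℝ ∞ α) (x a b : Phase N) :
    fderiv ℝ (pb g α) x a b - fderiv ℝ (pb g α) x b a =
      fderiv ℝ α (g x) (fderiv ℝ g x a) (fderiv ℝ g x b) -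
        fderiv ℝ α (g x) (fderiv ℝ g x b) (fderiv ℝ g x a) := by
  have hsymm : fderiv ℝ (fderiv ℝ g) x a b = fderiv ℝ (fderiv ℝ g) x b a :=
    (hg.contDiffAt (x := x)).isSymmSndFDerivAt
      (by rw [minSmoothness_of_isRCLikeNormedField]; exact WithTop.coe_le_coe.2 le_top) a b
  rw [fderiv_pb hg hα, fderiv_pb hg hα, hsymm]
  ring

/-- `bet` depends only on the germ. -/
lemma bet_congr {f g : Phase N → Phase N} {x : Phase N} (h : f =ᶠ[𝓝 x] g) :
    RET.bet f x = RET.bet g x := by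
  rw [RET.bet, RET.bet, h.fderiv_eq, h.eq_of_nhds]

lemma bet_apply (f : Phase N → Phase N) (x u : Phase N) :
    RET.bet f x u = 1 / 2 * (omegaStd (f x) (fderiv ℝ f x u) - omegaStd x u) := rfl

end calculus

/-! ### The scaling -/

section fam

variable {m k : ℕ}

/-- the scaling factor at time `s` -/
noncomputable def mus (C s : ℝ) : ℝ := RET.muf C (s * (1 - s))

lemma mus_pos (C s : ℝ) : 0 < mus C s := RET.muf_pos _ _

lemma mus_zero (C : ℝ) : mus C 0 = 1 := by rw [mus, zero_mul, RET.muf_zero]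

lemma mus_one (C : ℝ) : mus C 1 = 1 := by rw [mus, sub_self, mul_zero, RET.muf_zero]

lemma mus_le {C s : ℝ} (hC : 0 ≤ C) (hs : s ∈ Icc (0 : ℝ) 1) : mus C s ≤ 1 :=
  RET.muf_le hC (mul_nonneg hs.1 (by linarith [hs.2]))

lemma mus_ge {C s : ℝ} (hC : 0 ≤ C) (hs : s ∈ Icc (0 : ℝ) 1) : Real.exp (-(C / 2)) ≤ mus C s :=
  RET.muf_ge hC (by nlinarith [hs.1, hs.2])

lemma contDiff_mus (C : ℝ) : ContDiff ℝ ∞ (mus C) :=
  (RET.contDiff_muf C).comp (contDiff_id.mul (contDiff_const.sub contDiff_id))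

lemma mus_ineq (C s : ℝ) :
    mus C s ^ 2 * (1 + (1 - s) * (1 - (1 - s)) * C) ≤ 1 := by
  have h1 : mus C s ^ 2 = Real.exp (-(C * (s * (1 - s)))) := by
    rw [mus, RET.muf, ← Real.exp_nat_mul]
    congr 1
    push_cast
    ring
  have h2 : 1 + (1 - s) * (1 - (1 - s)) * C ≤ Real.exp (C * (s * (1 - s))) := by
    have := Real.add_one_le_exp (C * (s * (1 - s)))
    linarith
  have h3 : Real.exp (-(C * (s * (1 - s)))) * Real.exp (C * (s * (1 - s))) = 1 := by
    rw [← Real.exp_add]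
    simp
  rw [h1]
  exact (mul_le_mul_of_nonneg_left h2 (Real.exp_pos _).le).trans h3.le

lemma prK_sL (μ : ℝ) (x : Phase (m + k)) : prK m k (RET.sL m k μ x) = μ • prK m k x := by
  rw [RET.sL_apply, sclB, prK_mkB]

lemma prW_sL (μ : ℝ) (x : Phase (m + k)) : prW m k (RET.sL m k μ x) = prW m k x := by
  rw [RET.sL_apply, sclB, prW_mkB]

lemma yB_sL (μ : ℝ) (x : Phase (m + (k + 1))) : yB (RET.sL m (k + 1) μ x) = μ * yB x := by
  rw [yB, prK_sL]
  rfl

lemma sideB_sL (μ : ℝ) (x : Phase (m + (k + 1))) :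
    sideB (RET.sL m (k + 1) μ x) = μ • sideB x := by
  rw [sideB, yB_sL, prK_sL, sideB, smul_sub, smul_smul]

/-- the cut-off scaling factor -/
noncomputable def nu (C : ℝ) (q : ℝ × (Phase 0 × Phase (m + (k + 1)))) : ℝ :=
  1 - Real.smoothTransition (yB q.2.2) * (1 - mus C q.1)

lemma contDiff_nu (C : ℝ) : ContDiff ℝ ∞ (nu (m := m) (k := k) C) := by
  have h1 : ContDiff ℝ ∞ (fun q : ℝ × (Phase 0 × Phase (m + (k + 1))) => yB q.2.2) :=
    contDiff_yB.comp (contDiff_snd.comp contDiff_snd)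
  have h2 : ContDiff ℝ ∞ (fun q : ℝ × (Phase 0 × Phase (m + (k + 1))) => mus C q.1) :=
    (contDiff_mus C).comp contDiff_fst
  exact contDiff_const.sub ((Real.smoothTransition.contDiff.comp h1).mul (contDiff_const.sub h2))

lemma nu_of_nonpos {C : ℝ} {s : ℝ} {d : Phase 0} {x : Phase (m + (k + 1))} (h : yB x ≤ 0) :
    nu C (s, (d, x)) = 1 := by
  rw [nu, Real.smoothTransition.zero_of_nonpos h, zero_mul, sub_zero]

lemma nu_of_one_le {C : ℝ} {s : ℝ} {d : Phase 0} {x : Phase (m + (k + 1))} (h : 1 ≤ yB x) :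
    nu C (s, (d, x)) = mus C s := by
  rw [nu, Real.smoothTransition.one_of_one_le h]
  ring

lemma nu_of_mus {C : ℝ} {s : ℝ} {d : Phase 0} {x : Phase (m + (k + 1))} (h : mus C s = 1) :
    nu C (s, (d, x)) = 1 := by
  rw [nu, h]
  ring

lemma nu_ge {C : ℝ} {s : ℝ} {d : Phase 0} {x : Phase (m + (k + 1))} (hC : 0 ≤ C)
    (hs : s ∈ Icc (0 : ℝ) 1) : mus C s ≤ nu C (s, (d, x)) := by
  have h1 := Real.smoothTransition.le_one (yB x)
  have h2 := mus_le hC hs
  have h3 : Real.smoothTransition (yB x) * (1 - mus C s) ≤ 1 * (1 - mus C s) :=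
    mul_le_mul_of_nonneg_right h1 (by linarith)
  change mus C s ≤ 1 - Real.smoothTransition (yB x) * (1 - mus C s)
  linarith

variable {T : Type} [TopologicalSpace T]

/-- the change of coordinates -/
noncomputable def gmap (C : ℝ) (E V : T → Phase (m + (k + 1)) → Phase m) (t : T)
    (q : ℝ × (Phase 0 × Phase (m + (k + 1)))) : Phase (m + (k + 1)) :=
  mkB m (k + 1) (prK m (k + 1) q.2.2)
    (V t (mkB m (k + 1) (nu C q • prK m (k + 1) q.2.2) (E t q.2.2)))

lemma CF_gmap (C : ℝ) {E V : T → Phase (m + (k + 1)) → Phase m} (hE : CF E) (hV : CF V) :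
    CF (gmap C E V) := by
  have h0 : CF (fun (_ : T) (q : ℝ × (Phase 0 × Phase (m + (k + 1)))) => q.2.2) :=
    CF.const (contDiff_snd.comp contDiff_snd)
  have h1 : CF (fun (_ : T) (q : ℝ × (Phase 0 × Phase (m + (k + 1)))) =>
      prK m (k + 1) q.2.2) := h0.clm (prK m (k + 1))
  have h2 : CF (fun (t : T) (q : ℝ × (Phase 0 × Phase (m + (k + 1)))) => E t q.2.2) :=
    CF.comp hE h0
  have h3 : CF (fun (_ : T) (q : ℝ × (Phase 0 × Phase (m + (k + 1)))) =>
      nu C q • prK m (k + 1) q.2.2) := CF.smul (CF.const (contDiff_nu C)) h1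
  have h4 : CF (fun (t : T) (q : ℝ × (Phase 0 × Phase (m + (k + 1)))) =>
      mkB m (k + 1) (nu C q • prK m (k + 1) q.2.2) (E t q.2.2)) := CF.mkB h3 h2
  exact CF.mkB h1 (CF.comp hV h4)

/-- the inclusion of the last variable -/
noncomputable def iot (n : ℕ) : Phase n →L[ℝ] ℝ × (Phase 0 × Phase n) :=
  (ContinuousLinearMap.inr ℝ ℝ (Phase 0 × Phase n)).comp
    (ContinuousLinearMap.inr ℝ (Phase 0) (Phase n))

/-- the derivative of `gmap` in the last variable -/
noncomputable def dg (C : ℝ) (E V : T → Phase (m + (k + 1)) → Phase m) (t : T)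
    (q : ℝ × (Phase 0 × Phase (m + (k + 1)))) : Phase (m + (k + 1)) →L[ℝ] Phase (m + (k + 1)) :=
  (fderiv ℝ (gmap C E V t) q).comp (iot _)

lemma hasFDerivAt_slice (s : ℝ) (d : Phase 0) (x : Phase (m + k)) :
    HasFDerivAt (fun w : Phase (m + k) => ((s, (d, w)) : ℝ × (Phase 0 × Phase (m + k))))
      (iot (m + k)) x := by
  have h1 : HasFDerivAt (fun w : Phase (m + k) => ((d, w) : Phase 0 × Phase (m + k)))
      (ContinuousLinearMap.inr ℝ (Phase 0) (Phase (m + k))) x := hasFDerivAt_prodMk_right d x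
  exact (hasFDerivAt_prodMk_right s (d, x)).comp x h1

lemma dg_eq (C : ℝ) {E V : T → Phase (m + (k + 1)) → Phase m} (hE : CF E) (hV : CF V) (t : T)
    (s : ℝ) (d : Phase 0) (x : Phase (m + (k + 1))) :
    dg C E V t (s, (d, x)) = fderiv ℝ (fun w => gmap C E V t (s, (d, w))) x := by
  have h1 : HasFDerivAt (gmap C E V t) (fderiv ℝ (gmap C E V t) (s, (d, x))) (s, (d, x)) :=
    ((CF_gmap C hE hV).differentiable t _).hasFDerivAt
  exact (h1.comp x (hasFDerivAt_slice s d x)).fderiv.symm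

/-- the family of one-forms -/
noncomputable def beta (C : ℝ) (E V : T → Phase (m + (k + 1)) → Phase m)
    (Ξ Ξ₂ : T → Phase (m + (k + 1)) → Phase (m + (k + 1))) (t : T)
    (q : ℝ × (Phase 0 × Phase (m + (k + 1)))) : Phase (m + (k + 1)) →L[ℝ] ℝ :=
  (1 / 2 : ℝ) • ((omegaB _ (gmap C E V t q)).comp (dg C E V t q) - omegaB _ q.2.2) +
  (q.1 • RET.bet (Ξ t) (RET.sL m (k + 1) (mus C q.1) (gmap C E V t q)) +
    (1 - q.1) • RET.bet (Ξ₂ t) (RET.sL m (k + 1) (mus C q.1) (gmap C E V t q))).comp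
      ((RET.sL m (k + 1) (mus C q.1)).comp (dg C E V t q))

lemma CF_beta (C : ℝ) {E V : T → Phase (m + (k + 1)) → Phase m}
    {Ξ Ξ₂ : T → Phase (m + (k + 1)) → Phase (m + (k + 1))} (hE : CF E) (hV : CF V) (h1 : CF Ξ)
    (h2 : CF Ξ₂) : CF (beta C E V Ξ Ξ₂) := by
  have hg := CF_gmap C hE hV
  have hc : CF (fun (_ : T) (_ : ℝ × (Phase 0 × Phase (m + (k + 1)))) => iot (m + (k + 1))) :=
    CF.const contDiff_const
  have hdg : CF (dg C E V) := CF.clm_comp hg.fderiv hc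
  have e1 : CF (fun (t : T) (q : ℝ × (Phase 0 × Phase (m + (k + 1)))) =>
      omegaB (m + (k + 1)) (gmap C E V t q)) := hg.clm (omegaB _)
  have e2 : CF (fun (_ : T) (q : ℝ × (Phase 0 × Phase (m + (k + 1)))) =>
      omegaB (m + (k + 1)) q.2.2) :=
    CF.const ((omegaB _).contDiff.comp (contDiff_snd.comp contDiff_snd))
  have e3 : CF (fun (_ : T) (_ : ℝ × (Phase 0 × Phase (m + (k + 1)))) => (1 / 2 : ℝ)) :=
    CF.const contDiff_const
  have e4 := CF.smul e3 (CF.sub (CF.clm_comp e1 hdg) e2)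
  have s1 : ContDiff ℝ ∞ (fun q : ℝ × (Phase 0 × Phase (m + (k + 1))) =>
      RET.sL m (k + 1) (mus C q.1)) := RET.contDiff_sL.comp ((contDiff_mus C).comp contDiff_fst)
  have s2 : CF (fun (_ : T) (q : ℝ × (Phase 0 × Phase (m + (k + 1)))) =>
      RET.sL m (k + 1) (mus C q.1)) := CF.const s1
  have s3 : CF (fun (t : T) (q : ℝ × (Phase 0 × Phase (m + (k + 1)))) =>
      RET.sL m (k + 1) (mus C q.1) (gmap C E V t q)) := CF.clm_apply s2 hg
  have b1 : CF (fun (t : T) (q : ℝ × (Phase 0 × Phase (m + (k + 1)))) =>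
      RET.bet (Ξ t) (RET.sL m (k + 1) (mus C q.1) (gmap C E V t q))) :=
    CF.comp (RET.CF_bet h1) s3
  have b2 : CF (fun (t : T) (q : ℝ × (Phase 0 × Phase (m + (k + 1)))) =>
      RET.bet (Ξ₂ t) (RET.sL m (k + 1) (mus C q.1) (gmap C E V t q))) :=
    CF.comp (RET.CF_bet h2) s3
  have c1 : CF (fun (_ : T) (q : ℝ × (Phase 0 × Phase (m + (k + 1)))) => q.1) :=
    CF.const contDiff_fst
  have c2 : CF (fun (_ : T) (q : ℝ × (Phase 0 × Phase (m + (k + 1)))) => 1 - q.1) :=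
    CF.const (contDiff_const.sub contDiff_fst)
  exact CF.add e4 (CF.clm_comp (CF.add (CF.smul c1 b1) (CF.smul c2 b2)) (CF.clm_comp s2 hdg))

/-- The forms of the family. -/
lemma vform_beta (C : ℝ) {E V : T → Phase (m + (k + 1)) → Phase m}
    {Ξ Ξ₂ : T → Phase (m + (k + 1)) → Phase (m + (k + 1))} (hE : CF E) (hV : CF V) (h1 : CF Ξ)
    (h2 : CF Ξ₂) (t : T) (s : ℝ) (d : Phase 0) (x u v : Phase (m + (k + 1))) :
    vform (beta C E V Ξ Ξ₂ t) s d x u v =
      omegaStd (dg C E V t (s, (d, x)) u) (dg C E V t (s, (d, x)) v) +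
      ((1 - (1 - s)) * omegaStd
        (fderiv ℝ (Ξ t) (RET.sL m (k + 1) (mus C s) (gmap C E V t (s, (d, x))))
          (sclB m (k + 1) (mus C s) (dg C E V t (s, (d, x)) u)))
        (fderiv ℝ (Ξ t) (RET.sL m (k + 1) (mus C s) (gmap C E V t (s, (d, x))))
          (sclB m (k + 1) (mus C s) (dg C E V t (s, (d, x)) v))) +
      (1 - s) * omegaStd
        (fderiv ℝ (Ξ₂ t) (RET.sL m (k + 1) (mus C s) (gmap C E V t (s, (d, x))))
          (sclB m (k + 1) (mus C s) (dg C E V t (s, (d, x)) u)))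
        (fderiv ℝ (Ξ₂ t) (RET.sL m (k + 1) (mus C s) (gmap C E V t (s, (d, x))))
          (sclB m (k + 1) (mus C s) (dg C E V t (s, (d, x)) v))) -
      omegaStd (sclB m (k + 1) (mus C s) (dg C E V t (s, (d, x)) u))
        (sclB m (k + 1) (mus C s) (dg C E V t (s, (d, x)) v))) := by
  set g : Phase (m + (k + 1)) → Phase (m + (k + 1)) := fun w => gmap C E V t (s, (d, w)) with hg
  set S := RET.sL m (k + 1) (mus C s) with hS
  set α : Phase (m + (k + 1)) → Phase (m + (k + 1)) →L[ℝ] ℝ :=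
    fun z => s • RET.bet (Ξ t) z + (1 - s) • RET.bet (Ξ₂ t) z with hα
  have cg : ContDiff ℝ ∞ g := ((CF_gmap C hE hV).contDiff t).comp
    (contDiff_const.prodMk (contDiff_const.prodMk contDiff_id))
  have cb1 := RET.contDiff_bet (h1.contDiff t)
  have cb2 := RET.contDiff_bet (h2.contDiff t)
  have cα : ContDiff ℝ ∞ α := (cb1.const_smul s).add (cb2.const_smul (1 - s))
  have cSg : ContDiff ℝ ∞ (fun w => S (g w)) := S.contDiff.comp cg
  have hdS : ∀ w, fderiv ℝ (fun w => S (g w)) w = S.comp (fderiv ℝ g w) := fun w =>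
    (S.hasFDerivAt.comp w (cg.differentiable (by simp) w).hasFDerivAt).fderiv
  have hdg : ∀ w, dg C E V t (s, (d, w)) = fderiv ℝ g w := fun w => dg_eq C hE hV t s d w
  have e1 : (fun w' => beta C E V Ξ Ξ₂ t (s, (d, w'))) =
      fun w' => RET.bet g w' + pb (fun w => S (g w)) α w' := by
    funext w'
    rw [pb, hdS, ← hdg, RET.bet, ← hdg]
    rfl
  have d1 : DifferentiableAt ℝ (RET.bet g) x :=
    (RET.contDiff_bet cg).differentiable (by simp) x
  have d2 : DifferentiableAt ℝ (pb (fun w => S (g w)) α) x :=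
    (contDiff_pb cSg cα).differentiable (by simp) x
  have e2 : fderiv ℝ (fun w' => beta C E V Ξ Ξ₂ t (s, (d, w'))) x =
      fderiv ℝ (RET.bet g) x + fderiv ℝ (pb (fun w => S (g w)) α) x := by
    rw [e1]
    exact (d1.hasFDerivAt.add d2.hasFDerivAt).fderiv
  have e3 : ∀ z a b, fderiv ℝ α z a b = s * fderiv ℝ (RET.bet (Ξ t)) z a b +
      (1 - s) * fderiv ℝ (RET.bet (Ξ₂ t)) z a b := by
    intro z a b
    have f1 : HasFDerivAt α (s • fderiv ℝ (RET.bet (Ξ t)) z +
        (1 - s) • fderiv ℝ (RET.bet (Ξ₂ t)) z) z :=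
      ((cb1.differentiable (by simp) z).hasFDerivAt.const_smul s).add
        ((cb2.differentiable (by simp) z).hasFDerivAt.const_smul (1 - s))
    rw [f1.fderiv]
    rfl
  have e4 := RET.bet_alt cg x u v
  have e5 := pb_alt cSg cα x u v
  have e6 := RET.bet_alt (h1.contDiff t) (S (g x)) (S (fderiv ℝ g x u)) (S (fderiv ℝ g x v))
  have e7 := RET.bet_alt (h2.contDiff t) (S (g x)) (S (fderiv ℝ g x u)) (S (fderiv ℝ g x v))
  have hSa : ∀ w, fderiv ℝ (fun w => S (g w)) x w = S (fderiv ℝ g x w) := fun w => by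
    rw [hdS]
    rfl
  simp only [hSa, e3] at e5
  rw [vform, e2]
  simp only [add_apply, ← RET.sL_apply, hdg]
  have hgx : gmap C E V t (s, (d, x)) = g x := rfl
  rw [hgx, ← hS]
  linear_combination e4 + e5 + s * e6 + (1 - s) * e7

end fam

end OR2

end Pool.Agent.KRW
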