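import Mathlib
import Pool.Agent.KRW.St2

/-!
# The exact sequence of `k`-rows: the refined clause for the scattering map

Rows which differ by a compactly supported diffeomorphism, symplectic on the kernels, differ by a
symplectomorphism up to homotopy (helper66; a direct proof of `St_ret2`, without `St_scale2`,
`St_htameG`, `St_beta`).
-/

set_option maxSynthPendingDepth 3

open scoped ContDiff Topology unitInterval
open Set Function TopologicalSpace Filter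

namespace Pool.Agent.KRW

open Pool.Agent.Helper17 Pool.Agent.Helper42 Pool.Agent.H42.Hull

/-- Families of compactly supported diffeomorphisms `ψ` (inverse `χ`) with `F' ∘ ψ = F`, symplectic
on the kernels of the derivative of `F`. -/
structure RFam (m k : ℕ) {T : Type} [TopologicalSpace T] (R : ℝ)
    (F F' : T → Phase (m + k) → Phase k) (ψ χ : T → Phase (m + k) → Phase (m + k)) : Prop where
  cf : CF ψ
  cf' : CF χ
  left_inv : ∀ t p, χ t (ψ t p) = p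
  right_inv : ∀ t p, ψ t (χ t p) = p
  std : ∀ t p, R < ‖p‖ → ψ t p = p
  map : ∀ t p, F' t (ψ t p) = F t p
  symp : ∀ t p u v, fderiv ℝ (F t) p u = 0 → fderiv ℝ (F t) p v = 0 →
    omegaStd (fderiv ℝ (ψ t) p u) (fderiv ℝ (ψ t) p v) = omegaStd u v

/-- LI4.  PROOF.  `h u = hl A u + r • d u`, `d u = M (hl (A.comp M) u) - hl A u ∈ ker A`.  Write `ω₁ = ω (L ·) (L ·)`, it is
`ω` on `ker A`; `h' u = M (hl (A.comp M) u)` satisfies `A (h' u) = u`, `ω₁ (h' u) v = 0` for `v ∈ ker A` (LI1 for `A.comp M`).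
`h u = h' u - (1 - r) • d u`.  For `v ∈ ker A`: `(1-r) ω (h u) v + r ω₁ (h u) v = (1-r) r ω (d u) v - r (1-r) ω (d u) v = 0`.
`(1-r) ω (h u) (h (J u)) + r ω₁ (h u) (h (J u)) = (1-r) ω (hl u) (hl (J u)) + r ω (hl' u) (hl' (J u)) + r (1-r) ω (d u) (d (J u))`
(`hl = hl A`, `hl' = hl (A.comp M)`; LI1: the first two are positive), `|ω (d u) (d (J u))| ≤ a² |u|²`, `ω u (J u) = |u|²`.
Last part: `x = h (A x) + v`, `A v = 0`; `v' ∈ ker A` gives `ω v v' = 0`, so `v = 0` (LI1, last clause), and `y = h (J (A x))`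
gives `A x = 0`; then `x = h 0 = 0` (`h` is additive). -/
def St_comb : Prop :=
  ∀ (N k : ℕ) (A : Phase N →L[ℝ] Phase k) (L M : Phase N →L[ℝ] Phase N) (a : ℝ),
    (∀ x, M (L x) = x) → (∀ x, L (M x) = x) → TameL A → TameL (A.comp M) →
    (∀ u v, A u = 0 → A v = 0 → omegaStd (L u) (L v) = omegaStd u v) →
    (∀ u, ‖M (hl (A.comp M) u) - hl A u‖ ≤ a * ‖u‖) → ∀ r κ : ℝ, 0 ≤ r → r ≤ 1 →
    r * (1 - r) * a ^ 2 ≤ κ →
    (∃ h : Phase k → Phase N, (∀ u, A (h u) = u) ∧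
      (∀ u v, A v = 0 → (1 - r) * omegaStd (h u) v + r * omegaStd (L (h u)) (L v) +
        κ * omegaStd (A (h u)) (A v) = 0) ∧
      (∀ u, u ≠ 0 → 0 < (1 - r) * omegaStd (h u) (h (Jl k u)) +
        r * omegaStd (L (h u)) (L (h (Jl k u))) +
        κ * omegaStd (A (h u)) (A (h (Jl k u))))) ∧
    ∀ x, (∀ y, (1 - r) * omegaStd x y + r * omegaStd (L x) (L y) + κ * omegaStd (A x) (A y) = 0) →
      x = 0

/-- RBD.  A bound for the difference of the horizontal lifts.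
PROOF.  For `R < ‖x‖` `χ t x = x` and `Dψ = id` (at points with `R < ‖x‖`), the difference is zero.  For `‖x‖ ≤ R` (compact):
the map `(t, x) ↦ Dψ (hl (DF' Dψ)) - hl (DF')` is continuous: `CF`, LI1 (smoothness of `hl` at tame maps;
`DF' t x ∘ Dψ t (χ t x) = DF t (χ t x)` is tame), so its norm is bounded. -/
def St_rBd : Prop :=
  ∀ (m k : ℕ) (T : Type) [TopologicalSpace T] [CompactSpace T] (R : ℝ)
    (F F' : T → Phase (m + k) → Phase k) (ψ χ : T → Phase (m + k) → Phase (m + k)), 0 ≤ R →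
    JFam m k R F → JFam m k R F' → RFam m k R F F' ψ χ →
    (∀ t x, TameL (fderiv ℝ (F' t) x) ∧
      TameL ((fderiv ℝ (F' t) x).comp (fderiv ℝ (ψ t) (χ t x))) ∧
      (∀ u, fderiv ℝ (ψ t) (χ t x) (fderiv ℝ (χ t) x u) = u) ∧
      (∀ u, fderiv ℝ (χ t) x (fderiv ℝ (ψ t) (χ t x) u) = u) ∧
      ∀ u v, fderiv ℝ (F' t) x u = 0 → fderiv ℝ (F' t) x v = 0 →
        omegaStd (fderiv ℝ (χ t) x u) (fderiv ℝ (χ t) x v) = omegaStd u v) ∧
    ∃ a : ℝ, 0 ≤ a ∧ ∀ t x u, ‖fderiv ℝ (ψ t) (χ t x)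
      (hl ((fderiv ℝ (F' t) x).comp (fderiv ℝ (ψ t) (χ t x))) u) -
        hl (fderiv ℝ (F' t) x) u‖ ≤ a * ‖u‖

/-- The scaling factor. -/
noncomputable def nuS (C s : ℝ) : ℝ := Real.exp (-(C / 2) * (s * (1 - s)))

/-- The coefficient of the form of the base: `(nuS C s) ^ 2 * (1 + kaS C s) = 1`. -/
noncomputable def kaS (C s : ℝ) : ℝ := Real.exp (C * (s * (1 - s))) - 1

/-- BT3.  The family of primitives.
PROOF.  `D_s = sclB (nuS C s)`, a linear map.  For a smooth map `G` put `λ_G x b = ½ ω (G x) (DG x b)`; its derivative in the direction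
`a` is `½ ω (DG a) (DG b) + ½ ω (G x) (D²G (a, b))`, so the antisymmetrised derivative is `ω (DG a) (DG b)` (symmetry of `D²G`).
`β t (s, (d, x)) = (1-s) λ_{D_s} x + s (λ_χ (D_s x)) ∘ D_s + kaS C s (λ_{F'} (D_s x)) ∘ D_s - λ_id x`, a `CF` family in `(s, (d, x))`, zero for
`s = 0`.  `ρ = R exp (C/8) + R`: for `s ∈ [0,1]`, `exp (-C/8) ≤ nuS C s ≤ 1`, `‖D_s x‖ ≥ nuS C s ‖x‖`; there `F' = prK`, `χ = id` near `D_s x`, and
`β = ½ (ν² (1 + κ) ω (prK x) (prK ·) + ω (prW x) (prW ·) - ω (x, ·)) = 0`.  Last part: the same for all `x`. -/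
def St_beta3 : Prop :=
  ∀ (m k : ℕ) (T : Type) [TopologicalSpace T] [CompactSpace T] (R C : ℝ)
    (F' : T → Phase (m + k) → Phase k) (χ : T → Phase (m + k) → Phase (m + k)), 0 ≤ R → 0 ≤ C →
    JFam m k R F' → CF χ → (∀ t p, R < ‖p‖ → χ t p = p) →
    ∃ (ρ : ℝ) (β : T → ℝ × (Phase 0 × Phase (m + k)) → (Phase (m + k) →L[ℝ] ℝ)), R ≤ ρ ∧ CF β ∧
      (∀ t, ∀ s ∈ Icc (0 : ℝ) 1, ∀ d x, ρ < ‖x‖ → R < ‖sclB m k (nuS C s) x‖ ∧
        β t (s, (d, x)) = β t (0, (d, x))) ∧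
      (∀ t s d x u v, vform (β t) s d x u v =
        (1 - s) * omegaStd (sclB m k (nuS C s) u) (sclB m k (nuS C s) v) +
        s * omegaStd (fderiv ℝ (χ t) (sclB m k (nuS C s) x) (sclB m k (nuS C s) u))
          (fderiv ℝ (χ t) (sclB m k (nuS C s) x) (sclB m k (nuS C s) v)) +
        kaS C s * omegaStd (fderiv ℝ (F' t) (sclB m k (nuS C s) x) (sclB m k (nuS C s) u))
          (fderiv ℝ (F' t) (sclB m k (nuS C s) x) (sclB m k (nuS C s) v))) ∧
      ∀ t, (∀ p, F' t p = prK m k p) → (∀ p, χ t p = p) → ∀ s d x,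
        β t (s, (d, x)) = β t (0, (d, x))

/-- RE3.  Rows which differ by a diffeomorphism, symplectic on the kernels, are homotopic up to a
symplectomorphism.
PROOF.  `a` from `St_rBd`, `C = a²`, `ν s = nuS C s`, `κ s = kaS C s`, `D_s = sclB (ν s)`, `β` from `St_beta3`.  `vform (β t) s` at `x` is
`((1-s) ω + s χ^*ω + κ s F'^*ω) (D_s ·) (D_s ·)` at `D_s x`; `κ s ≥ C s (1-s)`, so it is nondegenerate by `St_comb`.  `St_mosV` with
`D = Phase 0`: `M (t,s)`.  `H (t,s) p = (ν s)⁻¹ • F' t (D_s (M (t,s) p))`; `f t = χ t (M (t,1) p)` (`mkSymp`, `continuous_of_CF`): `vform` at `s = 1` is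
`χ^*ω`.  `H (t,1) p = F' (M p) = F (χ (M p))`.  `JPos`: `St_jposTame`, `St_lin2` for `ν⁻¹ DF' D_s DM` and the lift
`(DM)⁻¹ D_s⁻¹ h (ν u)`, `h` from `St_comb` (`DM` is injective, as `vform s (DM u) (DM v) = ω u v`).  Last part: `F' = prK`, `ψ = id` give `χ = id`,
`β t = 0` on `[0,1]`, `M = id`. -/
def St_ret3 : Prop :=
  ∀ (m k : ℕ) (T : Type) [TopologicalSpace T] [CompactSpace T] (R : ℝ)
    (F F' : T → Phase (m + k) → Phase k) (ψ χ : T → Phase (m + k) → Phase (m + k)), 0 ≤ R →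
    JFam m k R F → JFam m k R F' → RFam m k R F F' ψ χ →
    ∃ (R' : ℝ) (H : T × I → Phase (m + k) → Phase k) (f : C(T, SympCt (m + k))), R ≤ R' ∧
      JFam m k R' H ∧ (∀ t p, H (t, 0) p = F' t p) ∧
      (∀ t p, H (t, 1) p = F t ((f t : Equiv.Perm (Phase (m + k))) p)) ∧
      ∀ t, (∀ p, F' t p = prK m k p) → (∀ p, ψ t p = p) →
        (∀ s p, H (t, s) p = prK m k p) ∧ ∀ p, (f t : Equiv.Perm (Phase (m + k))) p = p

end Pool.Agent.KRW
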