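import Mathlib
import Pool.Agent.KRW.StR
import Pool.Agent.KRW.OR2_2

/-!
# The family of primitives of the forms `(1 - s) ω + s χ^*ω + κ F'^*ω`, pulled back by the scaling

Module BT3 (no hypotheses).
-/

set_option maxSynthPendingDepth 3
set_option linter.unusedSectionVars false

open scoped ContDiff Topology unitInterval
open Set Function TopologicalSpace Filter

namespace Pool.Agent.KRW

open Pool.Agent.Helper17 Pool.Agent.Helper42 Pool.Agent.H42.Hull

/-! ### Pull-backs of the standard primitive -/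

section lam

variable {N M : ℕ}

/-- The pull-back of the standard primitive by `G`. -/
noncomputable def bt3_lam (G : Phase N → Phase M) (x : Phase N) : Phase N →L[ℝ] ℝ :=
  (1 / 2 : ℝ) • (omegaB M (G x)).comp (fderiv ℝ G x)

lemma bt3_contDiff_lam {G : Phase N → Phase M} (h : ContDiff ℝ ∞ G) :
    ContDiff ℝ ∞ (bt3_lam G) := by
  have h1 : ContDiff ℝ ∞ (fun z => omegaB M (G z)) := (omegaB M).contDiff.comp h
  have h2 : ContDiff ℝ ∞ (fderiv ℝ G) := h.fderiv_right (by simp)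
  exact (h1.clm_comp h2).const_smul _

lemma bt3_fderiv_lam {G : Phase N → Phase M} (h : ContDiff ℝ ∞ G) (z a b : Phase N) :
    fderiv ℝ (bt3_lam G) z a b = (1 / 2) * (omegaStd (fderiv ℝ G z a) (fderiv ℝ G z b) +
      omegaStd (G z) (fderiv ℝ (fderiv ℝ G) z a b)) := by
  have hd : HasFDerivAt (bt3_lam G) (fderiv ℝ (bt3_lam G) z) z :=
    ((bt3_contDiff_lam h).differentiable (by simp) z).hasFDerivAt
  have h1 : HasFDerivAt (fun y => bt3_lam G y b) ((fderiv ℝ (bt3_lam G) z).flip b) z := by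
    have := hd.clm_apply (hasFDerivAt_const b z)
    simpa using this
  have hχ : HasFDerivAt G (fderiv ℝ G z) z := (h.differentiable (by simp) z).hasFDerivAt
  have hω : HasFDerivAt (fun y => omegaB M (G y)) ((omegaB M).comp (fderiv ℝ G z)) z :=
    (omegaB M).hasFDerivAt.comp z hχ
  have h2 : ContDiff ℝ ∞ (fderiv ℝ G) := h.fderiv_right (by simp)
  have hD : HasFDerivAt (fderiv ℝ G) (fderiv ℝ (fderiv ℝ G) z) z :=
    (h2.differentiable (by simp) z).hasFDerivAt
  have hDb : HasFDerivAt (fun y => fderiv ℝ G y b) ((fderiv ℝ (fderiv ℝ G) z).flip b) z := by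
    have := hD.clm_apply (hasFDerivAt_const b z)
    simpa using this
  have h3 : HasFDerivAt (fun y => (1 / 2 : ℝ) * (omegaB M (G y)) (fderiv ℝ G y b)) _ z :=
    (hω.clm_apply hDb).const_mul (1 / 2 : ℝ)
  have h5 := congrArg (fun L : Phase N →L[ℝ] ℝ => L a) (h1.unique h3)
  simp only [ContinuousLinearMap.flip_apply] at h5
  rw [h5]
  simp only [add_apply, ContinuousLinearMap.comp_apply, ContinuousLinearMap.flip_apply,
    smul_apply, omegaB_apply, smul_eq_mul]
  ring

lemma bt3_lam_alt {G : Phase N → Phase M} (h : ContDiff ℝ ∞ G) (z a b : Phase N) :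
    fderiv ℝ (bt3_lam G) z a b - fderiv ℝ (bt3_lam G) z b a =
      omegaStd (fderiv ℝ G z a) (fderiv ℝ G z b) := by
  have hsymm : fderiv ℝ (fderiv ℝ G) z a b = fderiv ℝ (fderiv ℝ G) z b a :=
    (h.contDiffAt (x := z)).isSymmSndFDerivAt
      (by rw [minSmoothness_of_isRCLikeNormedField]; exact WithTop.coe_le_coe.2 le_top) a b
  rw [bt3_fderiv_lam h, bt3_fderiv_lam h, hsymm]
  have h2 : omegaStd (fderiv ℝ G z b) (fderiv ℝ G z a) =
    -omegaStd (fderiv ℝ G z a) (fderiv ℝ G z b) := omegaStd_swap _ _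
  rw [h2]
  ring

lemma bt3_CF_lam {T : Type} [TopologicalSpace T] {G : T → Phase N → Phase M} (h : CF G) :
    CF (fun t x => bt3_lam (G t) x) := by
  have h1 : CF (fun t x => omegaB M (G t x)) := h.clm (omegaB M)
  have h2 : CF (fun t x => (omegaB M (G t x)).comp (fderiv ℝ (G t) x)) := h1.clm_comp h.fderiv
  have h4 : CF (fun (_ : T) (_ : Phase N) => (1 / 2 : ℝ)) := CF.const contDiff_const
  exact h4.smul h2

end lam

/-! ### The family -/

section fam

variable {m k : ℕ} {T : Type} [TopologicalSpace T]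

lemma bt3_nuS (C s : ℝ) : nuS C s = OR2.mus C s := rfl

lemma bt3_nuS_sq (C s : ℝ) : nuS C s ^ 2 * (1 + kaS C s) = 1 := by
  rw [nuS, kaS, ← Real.exp_nat_mul, add_sub_cancel, ← Real.exp_add]
  rw [Real.exp_eq_one_iff]
  push_cast
  ring

/-- the family of one-forms -/
noncomputable def bt3_beta (C : ℝ) (F' : T → Phase (m + k) → Phase k)
    (χ : T → Phase (m + k) → Phase (m + k)) (t : T)
    (q : ℝ × (Phase 0 × Phase (m + k))) : Phase (m + k) →L[ℝ] ℝ :=
  ((1 - q.1) • bt3_lam (fun y : Phase (m + k) => y) (RET.sL m k (nuS C q.1) q.2.2) +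
    q.1 • bt3_lam (χ t) (RET.sL m k (nuS C q.1) q.2.2) +
    kaS C q.1 • bt3_lam (F' t) (RET.sL m k (nuS C q.1) q.2.2)).comp (RET.sL m k (nuS C q.1)) -
  bt3_lam (fun y : Phase (m + k) => y) q.2.2

lemma bt3_contDiff_nuS (C : ℝ) : ContDiff ℝ ∞ (nuS C) := OR2.contDiff_mus C

lemma bt3_contDiff_kaS (C : ℝ) : ContDiff ℝ ∞ (kaS C) :=
  (Real.contDiff_exp.comp (contDiff_const.mul
    (contDiff_id.mul (contDiff_const.sub contDiff_id)))).sub contDiff_const

lemma bt3_CF_beta (C : ℝ) {F' : T → Phase (m + k) → Phase k}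
    {χ : T → Phase (m + k) → Phase (m + k)} (hF : CF F') (hχ : CF χ) :
    CF (bt3_beta C F' χ) := by
  have s1 : ContDiff ℝ ∞ (fun q : ℝ × (Phase 0 × Phase (m + k)) => RET.sL m k (nuS C q.1)) :=
    RET.contDiff_sL.comp ((bt3_contDiff_nuS C).comp contDiff_fst)
  have s2 : CF (fun (_ : T) (q : ℝ × (Phase 0 × Phase (m + k))) => RET.sL m k (nuS C q.1)) :=
    CF.const s1
  have s3 : CF (fun (_ : T) (q : ℝ × (Phase 0 × Phase (m + k))) =>
      RET.sL m k (nuS C q.1) q.2.2) :=
    CF.const (s1.clm_apply (contDiff_snd.comp contDiff_snd))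
  have hid : CF (fun (_ : T) (y : Phase (m + k)) => y) := CF.const contDiff_id
  have b0 : CF (fun (_ : T) (q : ℝ × (Phase 0 × Phase (m + k))) =>
      bt3_lam (fun y : Phase (m + k) => y) (RET.sL m k (nuS C q.1) q.2.2)) :=
    CF.comp (bt3_CF_lam hid) s3
  have b1 : CF (fun (t : T) (q : ℝ × (Phase 0 × Phase (m + k))) =>
      bt3_lam (χ t) (RET.sL m k (nuS C q.1) q.2.2)) := CF.comp (bt3_CF_lam hχ) s3
  have b2 : CF (fun (t : T) (q : ℝ × (Phase 0 × Phase (m + k))) =>
      bt3_lam (F' t) (RET.sL m k (nuS C q.1) q.2.2)) := CF.comp (bt3_CF_lam hF) s3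
  have b3 : CF (fun (_ : T) (q : ℝ × (Phase 0 × Phase (m + k))) =>
      bt3_lam (fun y : Phase (m + k) => y) q.2.2) :=
    CF.comp (bt3_CF_lam hid) (CF.const (contDiff_snd.comp contDiff_snd))
  have c0 : CF (fun (_ : T) (q : ℝ × (Phase 0 × Phase (m + k))) => 1 - q.1) :=
    CF.const (contDiff_const.sub contDiff_fst)
  have c1 : CF (fun (_ : T) (q : ℝ × (Phase 0 × Phase (m + k))) => q.1) :=
    CF.const contDiff_fst
  have c2 : CF (fun (_ : T) (q : ℝ × (Phase 0 × Phase (m + k))) => kaS C q.1) :=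
    CF.const ((bt3_contDiff_kaS C).comp contDiff_fst)
  exact CF.sub (CF.clm_comp (CF.add (CF.add (CF.smul c0 b0) (CF.smul c1 b1))
    (CF.smul c2 b2)) s2) b3

lemma bt3_vform (C : ℝ) {F' : T → Phase (m + k) → Phase k}
    {χ : T → Phase (m + k) → Phase (m + k)} (hF : CF F') (hχ : CF χ) (t : T) (s : ℝ)
    (d : Phase 0) (x u v : Phase (m + k)) :
    vform (bt3_beta C F' χ t) s d x u v =
      (1 - s) * omegaStd (sclB m k (nuS C s) u) (sclB m k (nuS C s) v) +
      s * omegaStd (fderiv ℝ (χ t) (sclB m k (nuS C s) x) (sclB m k (nuS C s) u))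
        (fderiv ℝ (χ t) (sclB m k (nuS C s) x) (sclB m k (nuS C s) v)) +
      kaS C s * omegaStd (fderiv ℝ (F' t) (sclB m k (nuS C s) x) (sclB m k (nuS C s) u))
        (fderiv ℝ (F' t) (sclB m k (nuS C s) x) (sclB m k (nuS C s) v)) := by
  set S := RET.sL m k (nuS C s) with hS
  have ci : ContDiff ℝ ∞ (fun y : Phase (m + k) => y) := contDiff_id
  have l0 := bt3_contDiff_lam ci
  have l1 := bt3_contDiff_lam (hχ.contDiff t)
  have l2 := bt3_contDiff_lam (hF.contDiff t)
  set α : Phase (m + k) → Phase (m + k) →L[ℝ] ℝ := fun z =>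
    (1 - s) • bt3_lam (fun y : Phase (m + k) => y) z + s • bt3_lam (χ t) z +
      kaS C s • bt3_lam (F' t) z with hα
  have cα : ContDiff ℝ ∞ α :=
    ((l0.const_smul (1 - s)).add (l1.const_smul s)).add (l2.const_smul (kaS C s))
  have e1 : (fun w' => bt3_beta C F' χ t (s, (d, w'))) =
      fun w' => OR2.pb (fun w => S w) α w' - bt3_lam (fun y : Phase (m + k) => y) w' := by
    funext w'
    have h1 : fderiv ℝ (fun w => S w) w' = S := S.fderiv
    rw [OR2.pb, h1]
    rfl
  have cS : ContDiff ℝ ∞ (fun w => S w) := S.contDiff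
  have d1 : DifferentiableAt ℝ (OR2.pb (fun w => S w) α) x :=
    (OR2.contDiff_pb cS cα).differentiable (by simp) x
  have d2 : DifferentiableAt ℝ (bt3_lam (fun y : Phase (m + k) => y)) x :=
    l0.differentiable (by simp) x
  have e2 : fderiv ℝ (fun w' => bt3_beta C F' χ t (s, (d, w'))) x =
      fderiv ℝ (OR2.pb (fun w => S w) α) x -
        fderiv ℝ (bt3_lam (fun y : Phase (m + k) => y)) x := by
    rw [e1]
    exact (d1.hasFDerivAt.sub d2.hasFDerivAt).fderiv
  have e3 : ∀ z a b, fderiv ℝ α z a b =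
      (1 - s) * fderiv ℝ (bt3_lam (fun y : Phase (m + k) => y)) z a b +
      s * fderiv ℝ (bt3_lam (χ t)) z a b + kaS C s * fderiv ℝ (bt3_lam (F' t)) z a b := by
    intro z a b
    have f1 : HasFDerivAt α ((1 - s) • fderiv ℝ (bt3_lam (fun y : Phase (m + k) => y)) z +
        s • fderiv ℝ (bt3_lam (χ t)) z + kaS C s • fderiv ℝ (bt3_lam (F' t)) z) z :=
      (((l0.differentiable (by simp) z).hasFDerivAt.const_smul (1 - s)).add
        ((l1.differentiable (by simp) z).hasFDerivAt.const_smul s)).add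
        ((l2.differentiable (by simp) z).hasFDerivAt.const_smul (kaS C s))
    rw [f1.fderiv]
    rfl
  have e5 := OR2.pb_alt cS cα x u v
  have hSa : ∀ w, fderiv ℝ (fun w => S w) x w = S w := fun w => by
    have h1 : fderiv ℝ (fun w => S w) x = S := S.fderiv
    rw [h1]
  simp only [hSa, e3] at e5
  have hid : ∀ z : Phase (m + k), fderiv ℝ (fun y : Phase (m + k) => y) z =
      ContinuousLinearMap.id ℝ _ := fun z => fderiv_fun_id
  have e6 := bt3_lam_alt ci (S x) (S u) (S v)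
  have e7 := bt3_lam_alt (hχ.contDiff t) (S x) (S u) (S v)
  have e8 := bt3_lam_alt (hF.contDiff t) (S x) (S u) (S v)
  have e9 := bt3_lam_alt ci x u v
  rw [hid] at e6 e9
  simp only [ContinuousLinearMap.id_apply] at e6 e9
  rw [vform, e2]
  simp only [sub_apply, ← RET.sL_apply, ← hS]
  linear_combination e5 + (1 - s) * e6 + s * e7 + kaS C s * e8 - e9

/-- The one-form is zero where everything is standard. -/
lemma bt3_zero (C : ℝ) {F' : T → Phase (m + k) → Phase k}
    {χ : T → Phase (m + k) → Phase (m + k)} {t : T} {s : ℝ} {d : Phase 0} {x : Phase (m + k)}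
    (h1 : χ t =ᶠ[𝓝 (sclB m k (nuS C s) x)] fun y => y)
    (h2 : F' t =ᶠ[𝓝 (sclB m k (nuS C s) x)] fun y => prK m k y) :
    bt3_beta C F' χ t (s, (d, x)) = 0 := by
  have hid : ∀ z : Phase (m + k), fderiv ℝ (fun y : Phase (m + k) => y) z =
      ContinuousLinearMap.id ℝ _ := fun z => fderiv_fun_id
  rw [← RET.sL_apply] at h1 h2
  obtain ⟨S, hS⟩ : ∃ S, S = RET.sL m k (nuS C s) := ⟨_, rfl⟩
  rw [← hS] at h1 h2
  have hK : fderiv ℝ (F' t) (S x) = prK m k := by
    rw [h2.fderiv_eq]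
    exact (prK m k).fderiv
  have hX : fderiv ℝ (χ t) (S x) = ContinuousLinearMap.id ℝ _ := by
    rw [h1.fderiv_eq, hid]
  have hsq := bt3_nuS_sq C s
  ext b
  have e1 : bt3_beta C F' χ t (s, (d, x)) b =
      (1 - s) * (1 / 2 * omegaStd (S x) (S b)) + s * (1 / 2 * omegaStd (S x) (S b)) +
        kaS C s * (1 / 2 * omegaStd (prK m k (S x)) (prK m k (S b))) -
        1 / 2 * omegaStd x b := by
    change (((1 - s) • bt3_lam (fun y : Phase (m + k) => y) (RET.sL m k (nuS C s) x) +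
      s • bt3_lam (χ t) (RET.sL m k (nuS C s) x) +
      kaS C s • bt3_lam (F' t) (RET.sL m k (nuS C s) x)).comp (RET.sL m k (nuS C s)) -
      bt3_lam (fun y : Phase (m + k) => y) x) b = _
    rw [← hS, bt3_lam, bt3_lam, bt3_lam, bt3_lam, hid, hid, hX, hK, h1.self_of_nhds,
      h2.self_of_nhds]
    rfl
  have hp : ∀ y, prK m k (S y) = nuS C s • prK m k y := fun y => by rw [hS, OR2.prK_sL]
  have hw : ∀ y, prW m k (S y) = prW m k y := fun y => by rw [hS, OR2.prW_sL]
  have e2 : omegaStd (S x) (S b) = nuS C s ^ 2 * omegaStd (prK m k x) (prK m k b) +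
      omegaStd (prW m k x) (prW m k b) := by
    rw [omegaStd_split', hp, hp, hw, hw, omegaStd_smul_left, omegaStd_smul_right]
    ring
  have e3 : omegaStd (prK m k (S x)) (prK m k (S b)) =
      nuS C s ^ 2 * omegaStd (prK m k x) (prK m k b) := by
    rw [hp, hp, omegaStd_smul_left, omegaStd_smul_right]
    ring
  rw [e1, e2, e3, omegaStd_split' x b]
  change _ = (0 : ℝ)
  linear_combination (1 / 2 * omegaStd (prK m k x) (prK m k b)) * hsq

end fam

/-- **BT3** -/
theorem thm_beta3 : St_beta3 := by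
  intro m k T _ _ R C F' χ hR hC hF hχ hstd
  obtain ⟨ρ, hρ⟩ : ∃ ρ, ρ = R * Real.exp (C / 2) := ⟨_, rfl⟩
  have hRρ : R ≤ ρ := by
    have h1 : 1 ≤ Real.exp (C / 2) := Real.one_le_exp (by positivity)
    rw [hρ]
    nlinarith
  have hbig : ∀ s ∈ Icc (0 : ℝ) 1, ∀ x : Phase (m + k), ρ < ‖x‖ →
      R < ‖sclB m k (nuS C s) x‖ := by
    intro s hs x hx
    have e1 := RET.norm_sL (m := m) (k := k) (OR2.mus_pos C s) (OR2.mus_le hC hs) x
    have e2 := OR2.mus_ge hC hs
    have e3 : Real.exp (-(C / 2)) * ‖x‖ ≤ OR2.mus C s * ‖x‖ :=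
      mul_le_mul_of_nonneg_right e2 (norm_nonneg x)
    have e4 : Real.exp (-(C / 2)) * ρ = R := by
      rw [hρ, mul_left_comm, ← Real.exp_add]
      simp
    have e6 : Real.exp (-(C / 2)) * ρ < Real.exp (-(C / 2)) * ‖x‖ :=
      mul_lt_mul_of_pos_left hx (Real.exp_pos _)
    rw [e4] at e6
    rw [← RET.sL_apply]
    exact e6.trans_le (e3.trans e1)
  have hzero : ∀ t, ∀ s ∈ Icc (0 : ℝ) 1, ∀ (d : Phase 0) (x : Phase (m + k)), ρ < ‖x‖ →
      bt3_beta C F' χ t (s, (d, x)) = 0 := by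
    intro t s hs d x hx
    have h1 := hbig s hs x hx
    have h2 : {y : Phase (m + k) | R < ‖y‖} ∈ 𝓝 (sclB m k (nuS C s) x) :=
      (isOpen_lt continuous_const continuous_norm).mem_nhds h1
    refine bt3_zero C ?_ ?_
    · filter_upwards [h2] with y hy
      exact hstd t y hy
    · filter_upwards [h2] with y hy
      exact hF.std t y hy
  refine ⟨ρ, bt3_beta C F' χ, hRρ, bt3_CF_beta C hF.cf hχ, ?_, ?_, ?_⟩
  · intro t s hs d x hx
    exact ⟨hbig s hs x hx, by
      rw [hzero t s hs d x hx, hzero t 0 ⟨le_rfl, zero_le_one⟩ d x hx]⟩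
  · intro t s d x u v
    exact bt3_vform C hF.cf hχ t s d x u v
  · intro t hF1 hχ1 s d x
    have hz : ∀ s, bt3_beta C F' χ t (s, (d, x)) = 0 := fun s =>
      bt3_zero C (Filter.Eventually.of_forall hχ1) (Filter.Eventually.of_forall hF1)
    rw [hz, hz]

end Pool.Agent.KRW
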