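import Mathlib
import Pool.Agent.KRW.Split
import Pool.Agent.KRW.St

/-!
# KRW, COV: the covering homotopy theorem (helper39)
-/

set_option maxSynthPendingDepth 3

open scoped ContDiff Topology unitInterval
open Set Function TopologicalSpace Filter

namespace Pool.Agent.KRW

open Pool.Agent.Helper17 Pool.Agent.Helper42 Pool.Agent.H42.Hull

/-- the stops -/
private noncomputable def covC (δ : ℝ) (i : ℕ) : I := projIcc 0 1 zero_le_one (i * δ)

private lemma covC_zero (δ : ℝ) : covC δ 0 = 0 := by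
  apply Subtype.ext
  rw [covC, coe_projIcc]
  simp

private lemma covC_one {δ : ℝ} {n : ℕ} (h : 1 ≤ n * δ) : covC δ n = 1 := by
  unfold covC
  exact projIcc_of_right_le _ h

private lemma covC_succ {δ : ℝ} (hδ : 0 ≤ δ) (i : ℕ) :
    |((covC δ (i + 1) : I) : ℝ) - (covC δ i : I)| ≤ δ := by
  unfold covC
  rw [coe_projIcc, coe_projIcc]
  refine (abs_max_sub_max_le_max _ _ _ _).trans ?_
  rw [sub_self, abs_zero]
  refine max_le hδ ((abs_min_sub_min_le_max _ _ _ _).trans ?_)
  rw [sub_self, abs_zero]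
  refine max_le hδ ?_
  push_cast
  have : ((i : ℝ) + 1) * δ - i * δ = δ := by ring
  rw [this, abs_of_nonneg hδ]

private lemma cov_min (s a b : I) : |((min s a : I) : ℝ) - (min s b : I)| ≤ |(a : ℝ) - b| := by
  have h : ∀ x y : I, ((min x y : I) : ℝ) = min (x : ℝ) y := fun x y =>
    (Subtype.mono_coe _).map_min
  rw [h, h]
  refine (abs_min_sub_min_le_max _ _ _ _).trans ?_
  rw [sub_self, abs_zero]
  exact max_le (abs_nonneg _) le_rfl

/-- Uses `St_seg`, `St_tr` and `St_fComp`. -/
theorem thm_cov (hs : St_seg) (htr : St_tr) (hcomp : St_fComp) : St_cov := by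
  intro m k T _ _ R F Φ₀ hR hF hΦ₀ hover
  obtain ⟨δ, hδ, hseg⟩ := hs m k T R F hR hF
  have hstep : ∀ i : ℕ, ∃ Φ : T × I → Phase (m + k) → Phase (m + k), FFam m k R Φ ∧
      (∀ (q : T × I) p, prK m k (Φ q p) = F (q.1, min q.2 (covC δ i)) p) ∧
      (∀ t p, Φ (t, 0) p = Φ₀ t p) ∧
      ∀ t, (∀ s p, F (t, s) p = F (t, 0) p) → ∀ s p, Φ (t, s) p = Φ₀ t p := by
    intro i
    induction i with
    | zero =>
      refine ⟨fun q => Φ₀ q.1, ⟨hΦ₀.cf.base continuous_fst, fun q => hΦ₀.std q.1,
        fun q => hΦ₀.pos q.1, fun q => hΦ₀.symp q.1⟩, fun q p => ?_, fun _ _ => rfl,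
        fun _ _ _ _ => rfl⟩
      rw [covC_zero, min_eq_right (unitInterval.nonneg' (t := q.2))]
      exact hover q.1 p
    | succ i ih =>
      obtain ⟨Φ, h1, h2, h3, h4⟩ := ih
      have hcont : ∀ j : ℕ, Continuous fun q : T × I => (q.1, min q.2 (covC δ j)) := fun j =>
        continuous_fst.prodMk (continuous_snd.min continuous_const)
      obtain ⟨ψ, g1, g2, g3, g4, g5⟩ := htr m k (T × I) R
        (fun q => F (q.1, min q.2 (covC δ (i + 1)))) (fun q => F (q.1, min q.2 (covC δ i))) hR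
        (hF.cf.base (hcont (i + 1))) (hF.cf.base (hcont i))
        (fun q p hp => ⟨hF.std _ p hp, hF.std _ p hp⟩)
        (fun q l => hseg q.1 (min q.2 (covC δ (i + 1))) (min q.2 (covC δ i))
          ((cov_min _ _ _).trans (covC_succ hδ.le i)) l)
      refine ⟨fun q p => Φ q (ψ q p), hcomp m k (T × I) R Φ ψ
        (fun q => F (q.1, min q.2 (covC δ (i + 1)))) h1 g1 g2 (fun q p => ?_)
        (fun q => hF.pos _) g4, fun q p => ?_, fun t p => ?_, fun t ht s p => ?_⟩
      · rw [h2]
        exact g3 q p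
      · rw [h2]
        exact g3 q p
      · have e1 : ψ (t, 0) p = p := by
          refine g5 (t, 0) (fun p => ?_) p
          show F (t, min 0 (covC δ (i + 1))) p = F (t, min 0 (covC δ i)) p
          rw [min_eq_left (unitInterval.nonneg' (t := covC δ (i + 1))),
            min_eq_left (unitInterval.nonneg' (t := covC δ i))]
        show Φ (t, 0) (ψ (t, 0) p) = Φ₀ t p
        rw [e1]
        exact h3 t p
      · have e1 : ψ (t, s) p = p := by
          refine g5 (t, s) (fun p => ?_) p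
          show F (t, min s (covC δ (i + 1))) p = F (t, min s (covC δ i)) p
          rw [ht, ht (min s (covC δ i))]
        show Φ (t, s) (ψ (t, s) p) = Φ₀ t p
        rw [e1]
        exact h4 t ht s p
  obtain ⟨n, hn⟩ := exists_nat_ge (1 / δ)
  have hn' : 1 ≤ (n : ℝ) * δ := by
    rwa [div_le_iff₀ hδ] at hn
  obtain ⟨Φ, h1, h2, h3, h4⟩ := hstep n
  refine ⟨Φ, h1, fun q p => ?_, h3, h4⟩
  rw [h2, covC_one hn', min_eq_left (unitInterval.le_one' (t := q.2))]

end Pool.Agent.KRW
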