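import Mathlib
import Pool.Agent.KRW.St
import Pool.Agent.H42.Hull.Gap

/-!
# CRI: a class is a `k`-fold suspension iff its row is null-homotopic

`thm_cri (hR : St_topR) : St_cri`.
-/

set_option maxSynthPendingDepth 3

open scoped ContDiff Topology unitInterval
open Set Function TopologicalSpace Filter

namespace Pool.Agent.KRW

open Pool.Agent.Helper17 Pool.Agent.Helper42 Pool.Agent.H42.Hull

variable {m k j : ℕ}

/-- The first components of a symplectomorphism are `J`-positive. -/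
lemma cri_jPos (f : SympCt (m + k)) :
    JPos (fun p => prK m k ((f : Equiv.Perm (Phase (m + k))) p)) := by
  intro p u hu
  have h1 := bracket_lin m k f p 0 u 0 (Jl k u)
  simp only [inner_zero_left, zero_add, map_zero, inner_zero_right, add_zero, sub_zero] at h1
  have h2 : fderiv ℝ (fun q => inner ℝ (Jl k u)
      (prK m k ((f : Equiv.Perm (Phase (m + k))) q))) p
      (Pool.Agent.H50.Susp.hamV (fun q => inner ℝ u
        (prK m k ((f : Equiv.Perm (Phase (m + k))) q))) p) =
      inner ℝ (Jl k u) (Jl k u) := h1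
  rw [h2, hp_inner_JJ, real_inner_self_eq_norm_sq]
  have h3 : 0 < ‖u‖ := norm_pos_iff.2 hu
  positivity

/-- The rows of a family of symplectomorphisms. -/
lemma cri_jFam {T : Type} [TopologicalSpace T] [CompactSpace T] (f : C(T, SympCt (m + k))) :
    ∃ R : ℝ, 0 ≤ R ∧ JFam m k R (fun t p => prK m k ((f t : Equiv.Perm (Phase (m + k))) p)) := by
  obtain ⟨hf, K, hK⟩ := CF_of_continuous f.continuous
  obtain ⟨ρ, hρ⟩ := K.isCompact.isBounded.subset_closedBall (0 : Phase (m + k))
  refine ⟨|ρ|, abs_nonneg _, hf.clm (prK m k), fun t p hp => ?_, fun t => cri_jPos (f t)⟩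
  have h : (f t : Equiv.Perm (Phase (m + k))) p = p := by
    refine hK t p fun hmem => ?_
    have := hρ hmem
    rw [mem_closedBall_zero_iff] at this
    linarith [le_abs_self ρ]
  beta_reduce
  rw [h]

/-- Homotopic loops have homotopic rows. -/
lemma cri_cls (hR : St_topR) (φ φ' : LoopG j (m + k)) (F F' : LoopR j m k) (hF : IsRow φ F)
    (hF' : IsRow φ' F') (h : φ.cls = φ'.cls) : F.cls = F'.cls := by
  obtain ⟨H⟩ : GenLoop.Homotopic φ φ' := Quotient.exact h
  obtain ⟨R, hR0, hJ⟩ := cri_jFam (m := m) (k := k)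
    (H.toContinuousMap.comp ⟨fun q : (Fin j → I) × I => (q.2, q.1), by fun_prop⟩)
  refine ((hR j m k).2.2.2.1 F F').2 ⟨R, _, hR0, hJ, fun t p => ?_, fun t p => ?_,
    fun t ht s p => ?_⟩
  · rw [hF t p, ← prK_eq_fstPt]
    have h2 : H (0, t) = φ.1 t := H.apply_zero t
    change prK m k ((H (0, t) : Equiv.Perm (Phase (m + k))) p) = _
    rw [h2]
    rfl
  · rw [hF' t p, ← prK_eq_fstPt]
    have h2 : H (1, t) = φ'.1 t := H.apply_one t
    change prK m k ((H (1, t) : Equiv.Perm (Phase (m + k))) p) = _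
    rw [h2]
    rfl
  · have h2 : H (s, t) = φ.1 t := H.eq_fst s ht
    change prK m k ((H (s, t) : Equiv.Perm (Phase (m + k))) p) = _
    rw [h2, φ.2 t ht]
    rfl

/-- A block close to the identity gives a path of `J`-positive maps. -/
lemma cri_path (φ : LoopG j (m + k))
    (h : ∀ t p u, ‖fstPt m k (dAt (φ.at t) p (incPt m k u)) - u‖ ≤ 1 / 2 * ‖u‖) :
    HasPath m k (fun t => φ.1 t) := by
  refine hull_path bracket_lin m k (Fin j → I) φ.1 fun hsub => ?_
  have h1 : (-1 : ℂ) ∈ Metric.closedBall (0 : ℂ) 1 := by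
    rw [mem_closedBall_zero_iff, norm_neg, norm_one]
  have h2 := hsub h1
  have hclosed : IsClosed {z : ℂ | 1 / 2 ≤ z.re} :=
    isClosed_le continuous_const Complex.continuous_re
  have hconv : Convex ℝ {z : ℂ | 1 / 2 ≤ z.re} := convex_halfSpace_re_ge _
  have h3 : closure (convexHull ℝ {z : ℂ | ∃ (t : Fin j → I) (p : Phase (m + k)) (u : Phase k),
      ‖u‖ = 1 ∧ z = numVal m k (fderiv ℝ (φ.1 t : Equiv.Perm (Phase (m + k))) p) u}) ⊆
      {z : ℂ | 1 / 2 ≤ z.re} := by
    apply closure_minimal _ hclosed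
    apply convexHull_min _ hconv
    rintro z ⟨t, p, u, hu, rfl⟩
    have key : ∀ v : Phase k, ‖v‖ = 1 → 1 / 2 ≤ inner ℝ v (prK m k
        (fderiv ℝ (φ.1 t : Equiv.Perm (Phase (m + k))) p (incK m k v))) := by
      intro v hv
      have e1 := h t p v
      rw [hv, mul_one, ← prK_eq_fstPt, ← incK_eq_incPt] at e1
      have e2 : ‖prK m k (fderiv ℝ (φ.1 t : Equiv.Perm (Phase (m + k))) p (incK m k v)) - v‖ ≤
        1 / 2 := e1
      have e3 := abs_real_inner_le_norm v
        (prK m k (fderiv ℝ (φ.1 t : Equiv.Perm (Phase (m + k))) p (incK m k v)) - v)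
      rw [hv, one_mul, inner_sub_right, real_inner_self_eq_norm_sq, hv, one_pow] at e3
      have e4 := (abs_le.1 (e3.trans e2)).1
      linarith
    have e1 := key u hu
    have e2 := key (Jl k u) (by rw [norm_Jl, hu])
    change 1 / 2 ≤ (inner ℝ u (prK m k _) + inner ℝ (Jl k u) (prK m k _)) / 2
    linarith
  have h4 : (1 / 2 : ℝ) ≤ (-1 : ℂ).re := h3 h2
  rw [Complex.neg_re, Complex.one_re] at h4
  linarith

/-- CRI. -/
theorem thm_cri (hR : St_topR) : St_cri := by
  intro j m k φ F hF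
  constructor
  · intro h
    obtain ⟨R, H, hR0, hJ, h0, h1, hb⟩ := ((hR j m k).2.2.2.2 F).1 h
    refine fibration key_lemma (slices implicit) m k j φ R H hR0 hJ h0 (fun t p => ?_) hb
    rw [h1, hF, prK_eq_fstPt]
  · intro h
    obtain ⟨φ', hφ', hc⟩ := (gap φ.cls).1 h (1 / 2) (by norm_num)
    obtain ⟨R, H, hR0, hJ, h0, h1, hb⟩ := cri_path φ' hc
    have hb' : ∀ t ∈ Cube.boundary (Fin j), ∀ s p, H (t, s) p = prK m k p :=
      fun t ht => hb t (φ'.2 t ht)
    obtain ⟨F', hF'⟩ := (hR j m k).2.2.1 R (fun t => H (t, 1))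
      ⟨hJ.cf.base (by fun_prop), fun t => hJ.std _, fun t => hJ.pos _⟩ (fun t ht => hb' t ht 1)
    have hrow : IsRow φ' F' := fun t p => by rw [hF', h1, prK_eq_fstPt]; rfl
    rw [cri_cls hR φ φ' F F' hF hrow hφ'.symm]
    exact ((hR j m k).2.2.2.2 F').2 ⟨R, H, hR0, hJ, h0, fun t p => (hF' t p).symm, hb'⟩

end Pool.Agent.KRW
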