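import Mathlib
import Pool.Agent.KRW.St

/-!
# Cubes and loops: `St_cubE`, `St_cubS`, `St_cubL`
-/

set_option maxSynthPendingDepth 3

open scoped ContDiff Topology unitInterval
open Set Function TopologicalSpace Filter

namespace Pool.Agent.KRW

open Pool.Agent.Helper17 Pool.Agent.Helper42 Pool.Agent.H42.Hull

section Cube

variable {k j : ℕ}

/-- The inverse of `cubeK`. -/
def cubeKinv (k j : ℕ) : C(Fin (k + k + j) → I, (Fin j → I) × Bx k) :=
  ⟨fun y => (fun i => y (Fin.natAdd (k + k) i), (fun i => y (Fin.castAdd j (Fin.castAdd k i)),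
    fun i => y (Fin.castAdd j (Fin.natAdd k i)))), by fun_prop⟩

lemma cubeK_apply (q : (Fin j → I) × Bx k) :
    cubeK k j q = Fin.append (Fin.append q.2.1 q.2.2) q.1 := rfl

lemma cubeK_t (q : (Fin j → I) × Bx k) (i : Fin j) :
    cubeK k j q (Fin.natAdd (k + k) i) = q.1 i := by
  rw [cubeK_apply, Fin.append_right]

lemma cubeK_x (q : (Fin j → I) × Bx k) (i : Fin k) :
    cubeK k j q (Fin.castAdd j (Fin.castAdd k i)) = q.2.1 i := by
  rw [cubeK_apply, Fin.append_left, Fin.append_left]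

lemma cubeK_y (q : (Fin j → I) × Bx k) (i : Fin k) :
    cubeK k j q (Fin.castAdd j (Fin.natAdd k i)) = q.2.2 i := by
  rw [cubeK_apply, Fin.append_left, Fin.append_right]

lemma cubeKinv_cubeK (q : (Fin j → I) × Bx k) : cubeKinv k j (cubeK k j q) = q := by
  apply Prod.ext
  · exact funext fun i => cubeK_t q i
  · apply Prod.ext
    · exact funext fun i => cubeK_x q i
    · exact funext fun i => cubeK_y q i

lemma cubeK_cubeKinv (y : Fin (k + k + j) → I) : cubeK k j (cubeKinv k j y) = y := by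
  funext i
  refine Fin.addCases (fun i => ?_) (fun i => ?_) i
  · refine Fin.addCases (fun i => ?_) (fun i => ?_) i
    · rw [cubeK_x]
      rfl
    · rw [cubeK_y]
      rfl
  · rw [cubeK_t]
    rfl

lemma cubeK_bd (q : (Fin j → I) × Bx k) : cubeK k j q ∈ Cube.boundary (Fin (k + k + j)) ↔
    q.1 ∈ Cube.boundary (Fin j) ∨ q.2 ∈ bdB k := by
  constructor
  · rintro ⟨i, hi⟩
    revert hi
    refine Fin.addCases (fun i => ?_) (fun i => ?_) i
    · refine Fin.addCases (fun i => ?_) (fun i => ?_) i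
      · rw [cubeK_x]
        exact fun h => Or.inr (Or.inl ⟨i, h⟩)
      · rw [cubeK_y]
        exact fun h => Or.inr (Or.inr ⟨i, h⟩)
    · rw [cubeK_t]
      exact fun h => Or.inl ⟨i, h⟩
  · rintro (⟨i, hi⟩ | ⟨i, hi⟩ | ⟨i, hi⟩)
    · exact ⟨Fin.natAdd (k + k) i, by rw [cubeK_t]; exact hi⟩
    · exact ⟨Fin.castAdd j (Fin.castAdd k i), by rw [cubeK_x]; exact hi⟩
    · exact ⟨Fin.castAdd j (Fin.natAdd k i), by rw [cubeK_y]; exact hi⟩

/-- The change of variables of `ueK` and `ugK`. -/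
def cubeP (k j : ℕ) (S : Type) [TopologicalSpace S] :
    C(((Fin j → I) × Bx k) × S, (Fin (k + k + j) → I) × S) :=
  ⟨fun q => (cubeK k j q.1, q.2), by fun_prop⟩

/-- Its inverse. -/
def cubeQ (k j : ℕ) (S : Type) [TopologicalSpace S] :
    C((Fin (k + k + j) → I) × S, ((Fin j → I) × Bx k) × S) :=
  ⟨fun q => (cubeKinv k j q.1, q.2), by fun_prop⟩

lemma cubeP_cubeQ (S : Type) [TopologicalSpace S] (q : (Fin (k + k + j) → I) × S) :
    cubeP k j S (cubeQ k j S q) = q :=
  Prod.ext (cubeK_cubeKinv q.1) rfl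

lemma cubeQ_cubeP (S : Type) [TopologicalSpace S] (q : ((Fin j → I) × Bx k) × S) :
    cubeQ k j S (cubeP k j S q) = q :=
  Prod.ext (cubeKinv_cubeK q.1) rfl

lemma cubeP_bd1 (q : ((Fin j → I) × Bx k) × I) :
    cubeP k j I q ∈ bd1 (k + k + j) ↔ q ∈ bdE k (Cube.boundary (Fin j)) := by
  change (cubeK k j q.1 ∈ Cube.boundary (Fin (k + k + j)) ∨ q.2 = 0 ∨ q.2 = 1) ↔
    ((q.1.1 ∈ Cube.boundary (Fin j) ∨ q.1.2 ∈ bdB k) ∨ q.2 = 0 ∨ q.2 = 1)
  rw [cubeK_bd]

lemma cubeP_bd2 (q : ((Fin j → I) × Bx k) × (I × I)) :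
    cubeP k j (I × I) q ∈ bd2 (k + k + j) ↔ q ∈ bdS k (Cube.boundary (Fin j)) := by
  change (cubeK k j q.1 ∈ Cube.boundary (Fin (k + k + j)) ∨ q.2 ∈ sqBd) ↔
    ((q.1.1 ∈ Cube.boundary (Fin j) ∨ q.1.2 ∈ bdB k) ∨ q.2 ∈ sqBd)
  rw [cubeK_bd]

/-- Homotopies after a change of variables. -/
lemma homotopicRel_comp_iff {X Y Z : Type} [TopologicalSpace X] [TopologicalSpace Y]
    [TopologicalSpace Z] {P : C(X, Y)} {Q : C(Y, X)} (hPQ : ∀ y, P (Q y) = y)
    {SX : Set X} {SY : Set Y} (hS : ∀ x, P x ∈ SY ↔ x ∈ SX) (f g : C(Y, Z)) :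
    f.HomotopicRel g SY ↔ (f.comp P).HomotopicRel (g.comp P) SX := by
  constructor
  · rintro ⟨H⟩
    exact ⟨{
      toFun := fun q => H (q.1, P q.2)
      continuous_toFun := H.continuous.comp (continuous_fst.prodMk
        (P.continuous.comp continuous_snd))
      map_zero_left := fun y => by rw [H.apply_zero]; rfl
      map_one_left := fun y => by rw [H.apply_one]; rfl
      prop' := fun s q hq => by
        change H (s, P q) = f (P q)
        exact H.eq_fst s ((hS q).2 hq) }⟩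
  · rintro ⟨H⟩
    exact ⟨{
      toFun := fun q => H (q.1, Q q.2)
      continuous_toFun := H.continuous.comp (continuous_fst.prodMk
        (Q.continuous.comp continuous_snd))
      map_zero_left := fun y => by
        rw [H.apply_zero, ContinuousMap.comp_apply, hPQ]
      map_one_left := fun y => by
        rw [H.apply_one, ContinuousMap.comp_apply, hPQ]
      prop' := fun s q hq => by
        have h1 : Q q ∈ SX := (hS (Q q)).1 (by rw [hPQ]; exact hq)
        have h2 := H.eq_fst s h1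
        rw [ContinuousMap.comp_apply, hPQ] at h2
        exact h2 }⟩

end Cube

section Loops

variable {m n : ℕ}

lemma cls_eq_iff {N : ℕ} (e e' : LoopG N n) : e.cls = e'.cls ↔
    GenLoop.Homotopic (N := Fin N) (X := SympCt n) (x := 1) e e' :=
  hmk_eq_iff (N := Fin N) (X := SympCt n) (x := 1) e e'

lemma cls_eq_iff1 {N : ℕ} (e e' : LoopG (N + 1) n) : e.cls = e'.cls ↔
    (unloop1 (k := N) e).HomotopicRel (unloop1 (k := N) e') (bd1 N) := by
  rw [cls_eq_iff]
  constructor
  · exact fun h => unloop1_homotopic h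
  · intro h
    have h1 := loop1_homotopic (unloop1_bd (k := N) e) (unloop1_bd (k := N) e') h
    rwa [loop1_unloop1, loop1_unloop1] at h1

lemma cls_eq_iff2 {N : ℕ} (e e' : LoopG (N + 2) n) : e.cls = e'.cls ↔
    (unloop2 (k := N) e).HomotopicRel (unloop2 (k := N) e') (bd2 N) := by
  rw [cls_eq_iff]
  constructor
  · exact fun h => unloop2_homotopic h
  · intro h
    have h1 := loop2_homotopic (unloop2_bd (k := N) e) (unloop2_bd (k := N) e') h
    rwa [loop2_unloop2, loop2_unloop2] at h1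

/-- The constant loop. -/
noncomputable def constG (N n : ℕ) : LoopG N n := (GenLoop.const : GenLoop (Fin N) (SympCt n) 1)

lemma constG_cls (N n : ℕ) : (constG N n).cls = PiG.triv N n := rfl

lemma unloop1_constG (N n : ℕ) : unloop1 (k := N) (constG (N + 1) n) =
    ContinuousMap.const _ 1 := rfl

lemma unloop2_constG (N n : ℕ) : unloop2 (k := N) (constG (N + 2) n) =
    ContinuousMap.const _ 1 := rfl

lemma ueK_eq {j k : ℕ} (e : LoopG (k + k + j + 1) m) :
    ueK e = (unloop1 (k := k + k + j) e).comp (cubeP k j I) := rfl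

lemma ugK_eq {j k : ℕ} (g : LoopG (k + k + j + 2) m) :
    ugK g = (unloop2 (k := k + k + j) g).comp (cubeP k j (I × I)) := rfl

lemma ueK_cls_iff {j k : ℕ} (e e' : LoopG (k + k + j + 1) m) : e.cls = e'.cls ↔
    (ueK e).HomotopicRel (ueK e') (bdE k (Cube.boundary (Fin j))) := by
  rw [cls_eq_iff1, ueK_eq, ueK_eq]
  exact homotopicRel_comp_iff (Q := cubeQ k j I) (cubeP_cubeQ I) cubeP_bd1 _ _

lemma ugK_cls_iff {j k : ℕ} (e e' : LoopG (k + k + j + 2) m) : e.cls = e'.cls ↔
    (ugK e).HomotopicRel (ugK e') (bdS k (Cube.boundary (Fin j))) := by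
  rw [cls_eq_iff2, ugK_eq, ugK_eq]
  exact homotopicRel_comp_iff (Q := cubeQ k j (I × I)) (cubeP_cubeQ (I × I)) cubeP_bd2 _ _

end Loops

theorem thm_cubE : St_cubE := by
  intro j m k
  refine ⟨fun e e' => ueK_cls_iff e e', fun e q hq => ?_, fun e => ?_, fun f hf => ?_⟩
  · exact unloop1_bd (k := k + k + j) e _ ((cubeP_bd1 q).2 hq)
  · exact ueK_cls_iff e (constG (k + k + j + 1) m)
  · have h1 : ∀ q ∈ bd1 (k + k + j), f.comp (cubeQ k j I) q = 1 := by
      intro q hq
      exact hf _ ((cubeP_bd1 _).1 (by rw [cubeP_cubeQ]; exact hq))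
    refine ⟨loop1 (k := k + k + j) (f.comp (cubeQ k j I)) h1, ?_⟩
    rw [ueK_eq, unloop1_loop1]
    apply ContinuousMap.ext
    intro q
    rw [ContinuousMap.comp_apply, ContinuousMap.comp_apply, cubeQ_cubeP]

theorem thm_cubS : St_cubS := by
  intro j m k
  refine ⟨fun e e' => ugK_cls_iff e e', fun e q hq => ?_, fun e => ?_, fun f hf => ?_⟩
  · exact unloop2_bd (k := k + k + j) e _ ((cubeP_bd2 q).2 hq)
  · exact ugK_cls_iff e (constG (k + k + j + 2) m)
  · have h1 : ∀ q ∈ bd2 (k + k + j), f.comp (cubeQ k j (I × I)) q = 1 := by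
      intro q hq
      exact hf _ ((cubeP_bd2 _).1 (by rw [cubeP_cubeQ]; exact hq))
    refine ⟨loop2 (k := k + k + j) (f.comp (cubeQ k j (I × I))) h1, ?_⟩
    rw [ugK_eq, unloop2_loop2]
    apply ContinuousMap.ext
    intro q
    rw [ContinuousMap.comp_apply, ContinuousMap.comp_apply, cubeQ_cubeP]

lemma cubeK_snoc (k j : ℕ) (t : Fin j → I) (z : Bx k) (b : I) :
    (cubeK k (j + 1) ((Fin.snoc t b : Fin (j + 1) → I), z) : Fin (k + k + (j + 1)) → I) =
      toCube1 (k := k + k + j) (cubeK k j (t, z), b) := by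
  rw [cubeK_apply, toCube1, cubeK_apply]
  exact Fin.append_snoc _ _ _

theorem thm_cubL : St_cubL := by
  intro j m k e t z a b
  change e.1 (toCube1 (k := k + k + (j + 1))
    (cubeK k (j + 1) ((Fin.snoc t b : Fin (j + 1) → I), z), a)) =
    e.1 (toCube1 (k := k + k + j + 1) (toCube1 (k := k + k + j) (cubeK k j (t, z), b), a))
  rw [cubeK_snoc]

end Pool.Agent.KRW
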