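import Mathlib
import Pool.Agent.KRW.St
import Pool.Agent.KRW.Split

/-!
# EX1: exactness at `π(G_n)` (helper43)

Hypotheses of `thm_ex1`: `St_topR`, `St_topF`, `St_cov`, `St_fSymp`, `St_vOf`, `St_vCont`, `St_cubS`,
`St_box`.
-/

set_option maxSynthPendingDepth 3

open scoped ContDiff Topology unitInterval
open Set Function TopologicalSpace Filter

namespace Pool.Agent.KRW

open Pool.Agent.Helper17 Pool.Agent.Helper42 Pool.Agent.H42.Hull

private lemma EX1_FFam_mono {m k : ℕ} {T : Type} [TopologicalSpace T] {R R' : ℝ}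
    {Φ : T → Phase (m + k) → Phase (m + k)} (h : FFam m k R Φ) (hR : R ≤ R') : FFam m k R' Φ :=
  ⟨h.cf, fun t p hp => h.std t p (hR.trans_lt hp), h.pos, h.symp⟩

private lemma EX1_JFam_mono {m k : ℕ} {T : Type} [TopologicalSpace T] {R R' : ℝ}
    {F : T → Phase (m + k) → Phase k} (h : JFam m k R F) (hR : R ≤ R') : JFam m k R' F :=
  ⟨h.cf, fun t p hp => h.std t p (hR.trans_lt hp), h.pos⟩

private lemma EX1_FFam_base {m k : ℕ} {T T' : Type} [TopologicalSpace T] [TopologicalSpace T']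
    {R : ℝ} {Φ : T → Phase (m + k) → Phase (m + k)} (h : FFam m k R Φ) {c : T' → T}
    (hc : Continuous c) : FFam m k R (fun t => Φ (c t)) :=
  ⟨h.cf.base hc, fun t p hp => h.std (c t) p hp, fun t => h.pos (c t), fun t => h.symp (c t)⟩

private lemma EX1_JFam_base {m k : ℕ} {T T' : Type} [TopologicalSpace T] [TopologicalSpace T']
    {R : ℝ} {F : T → Phase (m + k) → Phase k} (h : JFam m k R F) {c : T' → T}
    (hc : Continuous c) : JFam m k R (fun t => F (c t)) :=
  ⟨h.cf.base hc, fun t p hp => h.std (c t) p hp, fun t => h.pos (c t)⟩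

private lemma EX1_FFam_row {m k : ℕ} {T : Type} [TopologicalSpace T] {R : ℝ}
    {Φ : T → Phase (m + k) → Phase (m + k)} (h : FFam m k R Φ) :
    JFam m k R (fun t p => prK m k (Φ t p)) :=
  ⟨h.cf.clm (prK m k), fun t p hp => by rw [h.std t p hp], h.pos⟩

private lemma EX1_swap {m k : ℕ} {T : Type} [TopologicalSpace T] {R : ℝ}
    {F : T × I → Phase (m + k) → Phase k} (h : JFam m k R F) :
    JFam m k R (fun q : T × I => F (q.1, unitInterval.symm q.2)) :=
  EX1_JFam_base h (continuous_fst.prodMk (unitInterval.continuous_symm.comp continuous_snd))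

private lemma EX1_one {n : ℕ} (f : SympCt n) (h : ∀ w, (f : Equiv.Perm (Phase n)) w = w) :
    f = 1 :=
  Subtype.ext (Equiv.ext h)

private lemma EX1_one_apply {n : ℕ} (w : Phase n) :
    ((1 : SympCt n) : Equiv.Perm (Phase n)) w = w := rfl

/-- exactness at `π(G_n)` -/
theorem thm_ex1 (topR : St_topR) (topF : St_topF) (cov : St_cov) (fSymp : St_fSymp)
    (vOf : St_vOf) (vCont : St_vCont) (cubS : St_cubS) (box : St_box) : St_ex1 := by
  intro j m k φ F hrow
  obtain ⟨R1, R2, R3, R4, R5⟩ := topR j m (k + 1)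
  obtain ⟨F1, F2, F3, F4⟩ := topF j m (k + 1)
  -- families of symplectomorphisms
  obtain ⟨Rφ, hRφ, hφ⟩ := fSymp m (k + 1) (Fin j → I) φ.1
  have hφ : FFam m (k + 1) Rφ (fun t => φ.at t) := hφ
  have hφbd : ∀ t ∈ Cube.boundary (Fin j), ∀ p, φ.at t p = p := by
    intro t ht p
    have h1 : φ.1 t = 1 := φ.2 t ht
    show ((φ.1 t : SympCt _) : Equiv.Perm _) p = p
    rw [h1]
    exact EX1_one_apply p
  have hrow' : ∀ t p, F.at t p = prK m (k + 1) (φ.at t p) := by
    intro t p
    rw [hrow t p, prK_eq_fstPt]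
  constructor
  · intro hF
    obtain ⟨R, H, hR, hH, H0, H1, Hbd⟩ := (R5 F).1 hF
    set RR := max R Rφ with hRR
    have hH' : JFam m (k + 1) RR (fun q : (Fin j → I) × I => H (q.1, unitInterval.symm q.2)) :=
      EX1_JFam_mono (EX1_swap hH) (le_max_left _ _)
    have hRR0 : 0 ≤ RR := hR.trans (le_max_left _ _)
    obtain ⟨Φ, hΦ, hΦ1, hΦ0, hΦbd⟩ := cov m (k + 1) (Fin j → I) RR _ (fun t => φ.at t) hRR0 hH'
      (EX1_FFam_mono hφ (le_max_right _ _)) (fun t p => by
        show prK m (k + 1) (φ.at t p) = H (t, unitInterval.symm 0) p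
        rw [unitInterval.symm_zero, H1, hrow'])
    have hbd : ∀ t ∈ Cube.boundary (Fin j), ∀ s p, Φ (t, s) p = p := by
      intro t ht s p
      rw [hΦbd t (fun s p => ?_) s p, hφbd t ht]
      show H (t, unitInterval.symm s) p = H (t, unitInterval.symm 0) p
      rw [Hbd t ht, Hbd t ht]
    have hover : ∀ t p, prK m (k + 1) (Φ (t, 1) p) = prK m (k + 1) p := by
      intro t p
      rw [hΦ1]
      show H (t, unitInterval.symm 1) p = _
      rw [unitInterval.symm_one, H0]
    have hΦe : FFam m (k + 1) RR (fun t => Φ (t, 1)) :=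
      EX1_FFam_base hΦ (c := fun t : Fin j → I => (t, (1 : I)))
        (continuous_id.prodMk continuous_const)
    obtain ⟨hW, hWstd⟩ := vOf m (k + 1) (Fin j → I) RR _ hΦe hover
    set W : (Fin j → I) → Phase (m + (k + 1)) → Phase m := fun t p => prW m (k + 1) (Φ (t, 1) p)
      with hWdef
    set ρ : ℝ := RR + 1 with hρ
    have hρ0 : 0 < ρ := by linarith
    have hWρ : ∀ t p, (∃ i, ρ ≤ |(prK m (k + 1) p) i|) → W t p = prW m (k + 1) p := by
      rintro t p ⟨i, hi⟩
      refine hWstd t p ?_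
      have h1 : |(prK m (k + 1) p) i| ≤ ‖prK m (k + 1) p‖ := by
        have := PiLp.norm_apply_le (prK m (k + 1) p) i
        rwa [Real.norm_eq_abs] at this
      linarith
    have hWΦ : ∀ t p, W t p = prW m (k + 1) p → Φ (t, 1) p = p := by
      intro t p h
      exact ext_split (hover t p) h
    obtain ⟨B1, B2, B3, B4, B5, B6, B7, B8, B9⟩ := box k ρ hρ0
    obtain ⟨f, hf⟩ := vCont m (k + 1) (Fin j → I) RR W hW (((Fin j → I) × Bx k) × (I × I))
      (fun q => q.1.1) (fun q => bxPt ρ q.1.2 q.2) (continuous_fst.comp continuous_fst)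
      (B9.comp (continuous_const.prodMk ((continuous_snd.comp continuous_fst).prodMk
        continuous_snd)))
    have hf1 : ∀ q ∈ bdS k (Cube.boundary (Fin j)), f q = 1 := by
      rintro ⟨⟨t, z⟩, s⟩ hq
      refine EX1_one _ fun w => ?_
      rw [hf]
      show W t (mkB m (k + 1) (bxPt ρ z s) w) = w
      have hcases : t ∈ Cube.boundary (Fin j) ∨ (z ∈ bdB k ∨ s ∈ sqBd) := by
        rcases hq with (h | h) | h
        · exact Or.inl h
        · exact Or.inr (Or.inl h)
        · exact Or.inr (Or.inr h)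
      rcases hcases with h | h
      · show prW m (k + 1) (Φ (t, 1) _) = w
        rw [hbd t h, prW_mkB]
      · rw [hWρ t _ (by
          rw [prK_mkB]
          exact B7 z s h ρ le_rfl), prW_mkB]
    obtain ⟨g, hg⟩ := (cubS j m k).2.2.2 f hf1
    obtain ⟨Ψ, hΨ⟩ := F3 Rφ (fun t => φ.at t) hφ hφbd
    obtain ⟨Φ', hΦ'⟩ := F3 RR (fun t => Φ (t, 1)) hΦe (fun t ht p => hbd t ht 1 p)
    refine ⟨g, φ, ⟨ρ, hρ0, Φ', Ψ, ⟨?_, ?_⟩, hΨ, ?_⟩, rfl⟩
    · intro t p hi
      rw [hΦ']
      exact hWΦ t p (hWρ t p (by rwa [prK_eq_fstPt]))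
    · intro t ξ η a b p hp
      rw [hΦ']
      rw [← prK_eq_fstPt] at hp ⊢
      refine ⟨by rw [hover, hp], ?_⟩
      rw [← prW_eq_lstPt, ← prW_eq_lstPt]
      have h1 : (f ((t, (ξ, η)), (a, b)) : Equiv.Perm (Phase m)) (prW m (k + 1) p) =
          W t (mkB m (k + 1) (bxPt ρ (ξ, η) (a, b)) (prW m (k + 1) p)) := hf _ _
      have h2 : mkB m (k + 1) (bxPt ρ (ξ, η) (a, b)) (prW m (k + 1) p) = p := by
        show mkB m (k + 1) (boxPt ρ ξ η a b) (prW m (k + 1) p) = p
        rw [← hp]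
        exact mkB_eta p
      rw [h2] at h1
      have h3 : g.at (Fin.snoc (Fin.snoc (Fin.append (Fin.append ξ η) t) b) a)
          (prW m (k + 1) p) =
          ((ugK g ((t, (ξ, η)), (a, b)) : SympCt m) : Equiv.Perm (Phase m))
            (prW m (k + 1) p) := rfl
      rw [h3, hg, h1]
    · refine (F4 Ψ Φ').2 ⟨RR, Φ, hRR0, hΦ, fun t p => ?_, fun t p => ?_, hbd⟩
      · rw [hΦ0, hΨ]
      · rw [hΦ']
  · rintro ⟨g, φ', ⟨R, hR, Φ, Ψ, hprod, hincl, hcls⟩, hφφ'⟩
    obtain ⟨R', H, hR', hH, H0, H1, Hbd⟩ := (F4 Ψ Φ).1 hcls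
    obtain ⟨Rφ', hRφ', hφ'⟩ := fSymp m (k + 1) (Fin j → I) φ'.1
    have hφ' : FFam m (k + 1) Rφ' (fun t => φ'.at t) := hφ'
    have hφ'bd : ∀ t ∈ Cube.boundary (Fin j), ∀ p, φ'.at t p = p := by
      intro t ht p
      have h1 : φ'.1 t = 1 := φ'.2 t ht
      show ((φ'.1 t : SympCt _) : Equiv.Perm _) p = p
      rw [h1]
      exact EX1_one_apply p
    obtain ⟨F', hF'⟩ := R3 Rφ' (fun t p => prK m (k + 1) (φ'.at t p)) (EX1_FFam_row hφ')
      (fun t ht p => by rw [hφ'bd t ht])
    -- the product family lies over the projection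
    have hover : ∀ t p, prK m (k + 1) (Φ.at t p) = prK m (k + 1) p := by
      intro t p
      by_cases hi : ∃ i, R ≤ |(fstPt m (k + 1) p) i|
      · rw [hprod.1 t p hi]
      · push Not at hi
        obtain ⟨B1, B2, B3, B4, B5, B6, B7, B8, B9⟩ := box k R hR
        have h1 := B3 (fstPt m (k + 1) p) (fun i => (hi i).le)
        set c := clB R (fstPt m (k + 1) p) with hc
        have h2 := (hprod.2 t c.1.1 c.1.2 c.2.1 c.2.2 p h1.symm).1
        rw [prK_eq_fstPt, prK_eq_fstPt, h2]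
        exact h1
    have hF't : F'.cls = PiR.triv j m (k + 1) := by
      refine (R5 F').2 ⟨R', fun q p => prK m (k + 1) (H (q.1, unitInterval.symm q.2) p), hR',
        ?_, fun t p => ?_, fun t p => ?_, fun t ht s p => ?_⟩
      · exact EX1_swap (F := fun q p => prK m (k + 1) (H q p)) (EX1_FFam_row hH)
      · show prK m (k + 1) (H (t, unitInterval.symm 0) p) = _
        rw [unitInterval.symm_zero, H1, hover]
      · show prK m (k + 1) (H (t, unitInterval.symm 1) p) = _
        rw [unitInterval.symm_one, H0, hincl, hF']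
      · show prK m (k + 1) (H (t, unitInterval.symm s) p) = _
        rw [Hbd t ht]
    -- the homotopy between `φ'` and `φ`
    have hhom : GenLoop.Homotopic φ' φ := Quotient.exact hφφ'
    obtain ⟨G⟩ := hhom
    obtain ⟨R'', hR'', hG⟩ := fSymp m (k + 1) ((Fin j → I) × I)
      ⟨fun q => G (q.2, q.1), G.continuous.comp (continuous_snd.prodMk continuous_fst)⟩
    have hFF' : F'.cls = F.cls := by
      refine (R4 F' F).2 ⟨R'', _, hR'', EX1_FFam_row hG, fun t p => ?_, fun t p => ?_,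
        fun t ht s p => ?_⟩
      · show prK m (k + 1) (((G (0, t) : SympCt _) : Equiv.Perm _) p) = _
        rw [G.apply_zero, hF']
        rfl
      · show prK m (k + 1) (((G (1, t) : SympCt _) : Equiv.Perm _) p) = _
        rw [G.apply_one, hrow']
        rfl
      · show prK m (k + 1) (((G (s, t) : SympCt _) : Equiv.Perm _) p) = _
        rw [G.eq_fst s ht]
        have h1 : φ'.1 t = 1 := φ'.2 t ht
        have h2 : (φ'.1 t : SympCt _) = 1 := h1
        show prK m (k + 1) (((φ'.1 t : SympCt _) : Equiv.Perm _) p) = _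
        rw [h2, EX1_one_apply]
    rw [← hFF', hF't]

end Pool.Agent.KRW
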