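import Mathlib
import Pool.Agent.KRW.St
import Pool.Agent.KRW.Split

/-!
# `k`-rows, module EX2: exactness at the homotopy groups of the space of rows
-/

set_option maxSynthPendingDepth 3

open scoped ContDiff Topology unitInterval
open Set Function TopologicalSpace Filter

namespace Pool.Agent.KRW

open Pool.Agent.Helper17 Pool.Agent.Helper42 Pool.Agent.H42.Hull

/-- a larger radius -/
lemma EX2_jmono {m k : ℕ} {T : Type} [TopologicalSpace T] {R R' : ℝ}
    {F : T → Phase (m + k) → Phase k} (h : JFam m k R F) (hR : R ≤ R') : JFam m k R' F :=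
  ⟨h.cf, fun t p hp => h.std t p (lt_of_le_of_lt hR hp), h.pos⟩

/-- a larger radius -/
lemma EX2_fmono {m k : ℕ} {T : Type} [TopologicalSpace T] {R R' : ℝ}
    {F : T → Phase (m + k) → Phase (m + k)} (h : FFam m k R F) (hR : R ≤ R') : FFam m k R' F :=
  ⟨h.cf, fun t p hp => h.std t p (lt_of_le_of_lt hR hp), h.pos, h.symp⟩

/-- a change of the parameter space -/
lemma EX2_jbase {m k : ℕ} {T S : Type} [TopologicalSpace T] [TopologicalSpace S] {R : ℝ}
    {F : T → Phase (m + k) → Phase k} (h : JFam m k R F) {c : S → T} (hc : Continuous c) :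
    JFam m k R (fun s => F (c s)) :=
  ⟨h.cf.base hc, fun _ p hp => h.std _ p hp, fun _ => h.pos _⟩

/-- a change of the parameter space -/
lemma EX2_fbase {m k : ℕ} {T S : Type} [TopologicalSpace T] [TopologicalSpace S] {R : ℝ}
    {F : T → Phase (m + k) → Phase (m + k)} (h : FFam m k R F) {c : S → T} (hc : Continuous c) :
    FFam m k R (fun s => F (c s)) :=
  ⟨h.cf.base hc, fun _ p hp => h.std _ p hp, fun _ => h.pos _, fun _ => h.symp _⟩

/-- the rows of a family of fibrewise symplectic maps -/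
lemma EX2_row {m k : ℕ} {T : Type} [TopologicalSpace T] {R : ℝ}
    {F : T → Phase (m + k) → Phase (m + k)} (h : FFam m k R F) :
    JFam m k R (fun t p => prK m k (F t p)) :=
  ⟨h.cf.clm (prK m k), fun t p hp => by rw [h.std t p hp], h.pos⟩

/-- the value of `ueK e` -/
lemma EX2_ueK {j m k : ℕ} (e : LoopG (k + k + j + 1) m) (t : Fin j → I) (z : Bx k) (a : I) :
    ((ueK e ((t, z), a) : SympCt m) : Equiv.Perm (Phase m)) =
      ((e.1 (Fin.snoc (Fin.append (Fin.append z.1 z.2) t) a) : SympCt m) :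
        Equiv.Perm (Phase m)) := rfl

/-- a scattering of a loop is a scattering of the family -/
lemma EX2_scat {j m k : ℕ} {F : LoopR j m (k + 1)} {e : LoopG (k + k + j + 1) m}
    (h : IsScatK F e) : IsScatF (fun t => F.at t) (ueK e) := by
  obtain ⟨ρ, hρ, h1, h2⟩ := h
  refine ⟨ρ, hρ, fun t p hp => (h1 t p hp).trans (prK_eq_fstPt m (k + 1) p).symm, ?_⟩
  intro t c hc s s' z a b hs hs' hside
  rw [prW_eq_lstPt, prW_eq_lstPt, EX2_ueK]
  have hb : ∀ i : Fin (k + 1) ⊕ Fin (k + 1), i ≠ Sum.inr 0 →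
      (fstPt m (k + 1) (c s)) i = (bxPt ρ z (a, b) : Phase (k + 1)) i := by
    intro i hi
    rw [← prK_eq_fstPt, ← sideB_ne _ hi, hside]
    change (bxPt ρ z (a, b) : Phase (k + 1)) i - _ * (eB k) i = _
    rw [eB_apply_ne hi, mul_zero, sub_zero]
  refine h2 t c hc s s' z.1 z.2 a ?_ ?_ ?_ ?_
  · rw [← prK_eq_fstPt]; exact hs
  · rw [← prK_eq_fstPt]; exact hs'
  · rw [hb _ (by simp)]
    rfl
  · intro i
    constructor
    · rw [hb _ (by simp)]
      rfl
    · rw [hb _ (by simp)]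
      rfl

/-- **Module EX2** -/
theorem thm_ex2 (hTop : St_topR) (hL : St_lEx) (hRet : St_ret) (hUn : St_scUn) (hEx : St_scEx)
    (hNull : St_lNull) (hSymp : St_fSymp) (hCub : St_cubE) : St_ex2 := by
  intro j m k F e hF
  obtain ⟨hT1, hT2, hT3, hT4, -⟩ := hTop j m (k + 1)
  obtain ⟨-, -, hC3, -⟩ := hCub j m k
  obtain ⟨R, hR, hFR⟩ := hT1 F
  have hsc : IsScatF (fun t => F.at t) (ueK e) := EX2_scat hF
  constructor
  · intro he
    obtain ⟨R', Φ, hR', hΦ, hΦF, hΦ0⟩ := hL m k (Fin j → I) (Cube.boundary (Fin j)) R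
      (fun t => F.at t) hR hFR (fun t ht p => hT2 F t ht p) (ueK e) hsc ((hC3 e).1 he)
    obtain ⟨R₁, Ψ, f, hR₁, hΨ, hΨ0, hΨ1, -, hΨt⟩ := hRet m (k + 1) (Fin j → I) R' Φ hR' hΦ
    have hf : ∀ t ∈ Cube.boundary (Fin j), f t = 1 := by
      intro t ht
      apply Subtype.ext
      apply Equiv.ext
      intro p
      rw [← hΨ1, hΨt t (hΦ0 t ht)]
      rfl
    have hrow : JFam m (k + 1) R₁ (fun q p => prK m (k + 1) (Ψ q p)) := EX2_row hΨ
    have hrow1 : JFam m (k + 1) R₁ (fun (t : Fin j → I) p => prK m (k + 1) (Ψ (t, 1) p)) :=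
      EX2_jbase hrow (c := fun t => (t, (1 : I))) (by fun_prop)
    obtain ⟨F', hF'⟩ := hT3 R₁ _ hrow1 (fun t ht p => by rw [hΨt t (hΦ0 t ht)])
    refine ⟨(⟨f, hf⟩ : GenLoop (Fin j) (SympCt (m + (k + 1))) 1), F', ?_, ?_⟩
    · intro t p
      rw [hF', hΨ1, prK_eq_fstPt]
      rfl
    · refine ((hT4 F F').2 ⟨R₁, fun q p => prK m (k + 1) (Ψ q p), hR'.trans hR₁, hrow, ?_, ?_, ?_⟩).symm
      · intro t p
        change prK m (k + 1) (Ψ (t, 0) p) = F.at t p
        rw [hΨ0, hΦF]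
      · intro t p
        rw [hF']
      · intro t ht s p
        change prK m (k + 1) (Ψ (t, s) p) = prK m (k + 1) p
        rw [hΨt t (hΦ0 t ht)]
  · rintro ⟨φ, F', hrow, hcls⟩
    obtain ⟨R₁, H, hR₁, hH, hH0, hH1, hHb⟩ := (hT4 F' F).1 hcls
    obtain ⟨ρ₀, hρ₀, hsc₁⟩ := hEx m k ((Fin j → I) × I) R₁ H hR₁ hH
    obtain ⟨e₁, he₁, he₁t, he₁b⟩ := hsc₁ ρ₀ le_rfl
    -- the restrictions of `e₁`
    have hcont : ∀ s : I, Continuous (fun q : ((Fin j → I) × Bx k) × I =>
        (((q.1.1, s), q.1.2), q.2)) := fun s => by fun_prop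
    have hres : ∀ (s : I) (G : LoopR j m (k + 1)), (∀ t p, H (t, s) p = G.at t p) →
        IsScatAt ρ₀ (fun t => G.at t) (e₁.comp ⟨_, hcont s⟩) := by
      intro s G hG
      refine ⟨fun t p hp => (hG t p).symm.trans (he₁.1 (t, s) p hp), ?_⟩
      intro t c hc s₁ s₂ z a b h1 h2 h3
      have h4 : H (t, s) = G.at t := funext (hG t)
      exact he₁.2 (t, s) c (by rw [h4]; exact hc) s₁ s₂ z a b h1 h2 h3
    have hbd : ∀ q ∈ bdE k (Cube.boundary (Fin j)), ∀ s : I,
        e₁ (((q.1.1, s), q.1.2), q.2) = 1 := by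
      rintro ⟨⟨t, z⟩, a⟩ hq s
      rcases hq with (ht | hz) | ha
      · exact he₁t (t, s) (fun p => hHb t ht s p) z a
      · exact he₁b _ (Or.inl (Or.inr hz))
      · exact he₁b _ (Or.inr ha)
    have hhom : (e₁.comp ⟨_, hcont 0⟩).HomotopicRel (e₁.comp ⟨_, hcont 1⟩)
        (bdE k (Cube.boundary (Fin j))) := by
      refine ⟨{
        toFun := fun x => e₁ (((x.2.1.1, x.1), x.2.1.2), x.2.2)
        continuous_toFun := by fun_prop
        map_zero_left := fun q => rfl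
        map_one_left := fun q => rfl
        prop' := fun s q hq => ?_ }⟩
      change e₁ (((q.1.1, s), q.1.2), q.2) = e₁ (((q.1.1, 0), q.1.2), q.2)
      rw [hbd q hq s, hbd q hq 0]
    -- uniqueness for `F`
    obtain ⟨ρ, hρ, hsce⟩ := hsc
    have h1 := (hUn m k (Fin j → I) (Cube.boundary (Fin j)) R (fun t => F.at t) hR hFR
      (fun t ht p => hT2 F t ht p) ρ ρ₀ (ueK e) (e₁.comp ⟨_, hcont 1⟩) hρ hρ₀ hsce
      (hres 1 F hH1)).1
    -- the scattering of `F'` is null-homotopic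
    obtain ⟨R₂, hR₂, hφ⟩ := hSymp m (k + 1) (Fin j → I) φ.1
    obtain ⟨R₃, hR₃, hF₃⟩ := hT1 F'
    have h2 := hNull m k (Fin j → I) (Cube.boundary (Fin j)) (max R₂ R₃) (fun t => F'.at t)
      (fun t p => ((φ.1 t : SympCt (m + (k + 1))) : Equiv.Perm (Phase (m + (k + 1)))) p)
      (hR₂.trans (le_max_left _ _)) (EX2_jmono hF₃ (le_max_right _ _))
      (EX2_fmono hφ (le_max_left _ _))
      (fun t p => by rw [hrow t p, prK_eq_fstPt]; rfl)
      (fun t ht p => by
        have h3 : φ.1 t = 1 := φ.2 t ht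
        rw [h3]
        rfl) (e₁.comp ⟨_, hcont 0⟩) ⟨ρ₀, hρ₀, hres 0 F' hH0⟩
    exact (hC3 e).2 ((h1.trans hhom.symm).trans h2)

end Pool.Agent.KRW
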