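import Mathlib
import Pool.Agent.KRW.St
import Pool.Agent.KRW.Split
import Pool.Agent.KRW.EX2

/-!
# `k`-rows, module EX3: exactness at the homotopy groups of the symplectomorphisms of `ℝ^{2m}`

Hypotheses used: `St_topF`, `St_topR`, `St_loo`, `St_rad`, `St_cubL`, `St_cubS`, `St_cubE`, `St_scEx`,
`St_cov`, `St_vOf`, `St_mapS`, `St_mapI`, `St_vCont`, `St_box` (helper35).
-/

set_option maxSynthPendingDepth 3

open scoped ContDiff Topology unitInterval
open Set Function TopologicalSpace Filter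

namespace Pool.Agent.KRW

open Pool.Agent.Helper17 Pool.Agent.Helper42 Pool.Agent.H42.Hull

/-- the value of `ugK g` -/
lemma EX3_ugK {j m k : ℕ} (g : LoopG (k + k + j + 2) m) (t : Fin j → I) (z : Bx k) (s : I × I) :
    ((ugK g ((t, z), s) : SympCt m) : Equiv.Perm (Phase m)) =
      ((g.1 (Fin.snoc (Fin.snoc (Fin.append (Fin.append z.1 z.2) t) s.2) s.1) : SympCt m) :
        Equiv.Perm (Phase m)) := rfl

/-- a larger radius -/
lemma EX3_vmono {m k : ℕ} {T : Type} [TopologicalSpace T] {R R' : ℝ}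
    {W : T → Phase (m + k) → Phase m} (h : VFam m k R W) (hR : R ≤ R') : VFam m k R' W :=
  ⟨h.cf, fun t p hp => h.std t p (lt_of_le_of_lt hR hp), h.symp⟩

/-- a scattering of the family is a scattering of the loop -/
lemma EX3_scat {j m k : ℕ} {F : LoopR j m (k + 1)} {e : LoopG (k + k + j + 1) m} {ρ : ℝ}
    (hρ : 0 < ρ) (h : IsScatAt ρ (fun t => F.at t) (ueK e)) : IsScatK F e := by
  refine ⟨ρ, hρ, fun t p hp => (h.1 t p hp).trans (prK_eq_fstPt m (k + 1) p), ?_⟩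
  intro t c hc s s' ξ η a hs hs' h0 hi
  have h1 := h.2 t c hc s s' (ξ, η) a 0 (by rw [yB, prK_eq_fstPt]; exact hs)
    (by rw [yB, prK_eq_fstPt]; exact hs') ?_
  · rw [prW_eq_lstPt, prW_eq_lstPt, EX2_ueK] at h1
    exact h1
  · ext l
    by_cases hl : l = Sum.inr 0
    · subst hl
      rw [sideB_inr]
      change (0 : ℝ) = _ - _ * (eB k) (Sum.inr 0)
      rw [eB_inr, mul_one]
      exact (sub_self _).symm
    · rw [sideB_ne _ hl, prK_eq_fstPt]
      change _ = (bxPt ρ (ξ, η) (a, 0) : Phase (k + 1)) l - _ * (eB k) l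
      rw [eB_apply_ne hl, mul_zero, sub_zero]
      rcases l with l | l
      · refine Fin.cases ?_ (fun i => ?_) l
        · exact h0
        · exact (hi i).1
      · revert hl
        refine Fin.cases ?_ (fun i => ?_) l
        · intro hl
          exact absurd rfl hl
        · intro _
          exact (hi i).2

/-- coordinates are bounded by the norm -/
lemma EX3_abs_le {n : ℕ} (b : Phase n) (i : Fin n ⊕ Fin n) : |b i| ≤ ‖b‖ := by
  have h := PiLp.norm_apply_le b i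
  rwa [Real.norm_eq_abs] at h

/-- the product family of a loop -/
lemma EX3_cube {j m k : ℕ} {R : ℝ} {g : LoopG (k + k + j + 2) m} {Φ : LoopF j m (k + 1)}
    (h : IsProd R g Φ) : IsCube R (fun t p => prW m (k + 1) (Φ.at t p)) (ugK g) := by
  refine ⟨fun t p hp => ?_, fun t z s w => ?_⟩
  · change prW m (k + 1) (Φ.at t p) = _
    rw [h.1 t p (by simpa only [prK_eq_fstPt] using hp)]
  · change _ = prW m (k + 1) (Φ.at t _)
    have h1 := (h.2 t z.1 z.2 s.1 s.2 (mkB m (k + 1) (bxPt R z s) w) (by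
      rw [← prK_eq_fstPt, prK_mkB]
      rfl)).2
    rw [← prW_eq_lstPt, ← prW_eq_lstPt, prW_mkB] at h1
    rw [h1, EX3_ugK]
    rfl

/-- a product family is a family over the projection -/
lemma EX3_base {j m k : ℕ} {R : ℝ} (hR : 0 < R) (hbox : St_box) {g : LoopG (k + k + j + 2) m}
    {Φ : LoopF j m (k + 1)} (h : IsProd R g Φ) (t : Fin j → I) (p : Phase (m + (k + 1))) :
    prK m (k + 1) (Φ.at t p) = prK m (k + 1) p := by
  by_cases hp : ∃ i, R ≤ |(prK m (k + 1) p) i|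
  · rw [h.1 t p (by simpa only [prK_eq_fstPt] using hp)]
  · push Not at hp
    obtain ⟨-, -, h2, -⟩ := hbox k R hR
    have h3 := h2 (prK m (k + 1) p) (fun i => (hp i).le)
    have h4 := (h.2 t (clB R (prK m (k + 1) p)).1.1 (clB R (prK m (k + 1) p)).1.2
      (clB R (prK m (k + 1) p)).2.1 (clB R (prK m (k + 1) p)).2.2 p (by
        rw [← prK_eq_fstPt]
        exact h3.symm)).1
    rw [← prK_eq_fstPt] at h4
    rw [h4]
    exact h3

/-- the constant loop of the fibrewise symplectic maps -/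
lemma EX3_const {j m k : ℕ} : IsIncl (j := j) (m := m) (k := k)
    (GenLoop.const : GenLoop (Fin j) (SympCt (m + k)) 1)
    (GenLoop.const : GenLoop (Fin j) (FibSp m k) FibSp.std) := fun _ _ => rfl

/-- exactness, from trivial classes to loops of rows -/
lemma EX3_mp (hTopF : St_topF) (hTopR : St_topR) (hLoo : St_loo) (hRad : St_rad)
    (hCubL : St_cubL) (hCubS : St_cubS) (hCubE : St_cubE) (hScEx : St_scEx) (hOf : St_vOf)
    (hMapI : St_mapI) (hBox : St_box) (j m k : ℕ) (g : LoopG (k + k + j + 2) m)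
    (φ : LoopG j (m + (k + 1))) (hs : IsSuspK g φ) (hφ : φ.cls = PiG.triv j (m + (k + 1))) :
    ∃ (F : LoopR (j + 1) m (k + 1)) (e : LoopG (k + k + (j + 1) + 1) m), IsScatK F e ∧
      e.cls = (g.cls : PiG (k + k + j + 2) m) := by
  obtain ⟨R₀, hR₀, Φ₀, Ψ, hP, hincl, hcls⟩ := hs
  obtain ⟨i, hi1, -, -, -⟩ := hMapI m (k + 1)
  obtain ⟨hF1, hF2, hF3, hF4⟩ := hTopF j m (k + 1)
  obtain ⟨-, -, hG3, -, -⟩ := hTopR (j + 1) m (k + 1)
  have hΨc : Ψ.cls = LoopF.cls (GenLoop.const : GenLoop (Fin j) (FibSp m (k + 1)) FibSp.std) := by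
    rw [← hi1 j φ Ψ hincl, hφ, ← hi1 j _ _ EX3_const]
    rfl
  obtain ⟨R, H, hR, hH, hH0, hH1, hHb⟩ := (hF4 Φ₀ _).1 (hcls.symm.trans hΨc)
  have hH1' : ∀ t p, H (t, 1) p = p := fun t p => hH1 t p
  -- the rows
  have hrow : JFam m (k + 1) R (fun q p => prK m (k + 1) (H q p)) := EX2_row hH
  have hrow' : JFam m (k + 1) R (fun (u : Fin (j + 1) → I) p =>
      prK m (k + 1) (H (fromCube1 u) p)) := EX2_jbase hrow continuous_fromCube1
  have hbase := EX3_base hR₀ hBox hP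
  have hbd : ∀ u ∈ Cube.boundary (Fin (j + 1)), ∀ p,
      prK m (k + 1) (H (fromCube1 u) p) = prK m (k + 1) p := by
    intro u hu p
    rcases (fromCube1_bd hu : fromCube1 u ∈ bd1 j) with h | h | h
    · have h1 := hHb (fromCube1 u).1 h (fromCube1 u).2 p
      rw [show ((fromCube1 u).1, (fromCube1 u).2) = fromCube1 u from rfl] at h1
      rw [h1]
    · have h1 : fromCube1 u = ((fromCube1 u).1, (0 : I)) := Prod.ext rfl h
      rw [h1, hH0, hbase]
    · have h1 : fromCube1 u = ((fromCube1 u).1, (1 : I)) := Prod.ext rfl h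
      rw [h1, hH1']
  obtain ⟨F, hF⟩ := hG3 R _ hrow' hbd
  -- a scattering
  obtain ⟨ρ₀, hρ₀, hsc⟩ := hScEx m k (Fin (j + 1) → I) R _ hR hrow'
  obtain ⟨e₂, he₂, he₂t, he₂b⟩ := hsc ρ₀ le_rfl
  obtain ⟨-, -, -, hE4⟩ := hCubE (j + 1) m k
  obtain ⟨e, he⟩ := hE4 e₂ (by
    rintro ⟨⟨t, z⟩, a⟩ hq
    rcases hq with (ht | hz) | ha
    · exact he₂t t (hbd t ht) z a
    · exact he₂b _ (Or.inl (Or.inr hz))
    · exact he₂b _ (Or.inr ha))
  have hFeq : (fun t => F.at t) = fun (u : Fin (j + 1) → I) p =>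
      prK m (k + 1) (H (fromCube1 u) p) := by
    funext t p
    exact hF t p
  have hsce : IsScatAt ρ₀ (fun t => F.at t) (ueK e) := by
    rw [he, hFeq]
    exact he₂
  refine ⟨F, e, EX3_scat hρ₀ hsce, ?_⟩
  -- the product family
  obtain ⟨R₁, hR₁, hΦ₀⟩ := hF1 Φ₀
  have hW : VFam m (k + 1) R₁ (fun t p => prW m (k + 1) (Φ₀.at t p)) :=
    (hOf m (k + 1) (Fin j → I) R₁ (fun t => Φ₀.at t) hΦ₀ hbase).1
  have hcube := EX3_cube hP
  have hW0 : ∀ t ∈ Cube.boundary (Fin j), ∀ p,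
      prW m (k + 1) (Φ₀.at t p) = prW m (k + 1) p := fun t ht p => by
    rw [hF2 Φ₀ t ht p]
  obtain ⟨-, g₁, hg₁, hgg₁⟩ := hRad m k (Fin j → I) (Cube.boundary (Fin j)) R₀ (max R₀ R₁) R₁
    (fun t p => prW m (k + 1) (Φ₀.at t p)) (ugK g) hR₀ (le_max_left _ _) hW hcube hW0
  -- the scattering on the product
  have hc : Continuous (fun q : ((((Fin j → I) × I) × Bx k) × I) =>
      ((toCube1 q.1.1, q.1.2), q.2)) :=
    ((continuous_toCube1.comp continuous_fst.fst).prodMk continuous_fst.snd).prodMk continuous_snd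
  have hsc1 : IsScatAt ρ₀ (fun (q : (Fin j → I) × I) p => prK m (k + 1) (H q p))
      ((ueK e).comp ⟨_, hc⟩) := by
    have e1 : ∀ q : (Fin j → I) × I, (fun p => prK m (k + 1) (H q p)) = F.at (toCube1 q) := by
      intro q
      funext p
      rw [hF, fromCube1_toCube1]
    refine ⟨fun q p hp => ?_, ?_⟩
    · exact (congrFun (e1 q) p).trans (hsce.1 (toCube1 q) p hp)
    · intro q c hc' s s' z a b h1 h2 h3
      refine hsce.2 (toCube1 q) c ?_ s s' z a b h1 h2 h3
      have e2 := e1 q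
      change IsHor (F.at (toCube1 q)) c
      rw [← e2]
      exact hc'
  have hloo := hLoo m k (Fin j → I) (Cube.boundary (Fin j)) R (max R₀ R₁)
    (fun q p => prK m (k + 1) (H q p)) H (fun t p => prW m (k + 1) (Φ₀.at t p)) g₁
    ((ueK e).comp ⟨_, hc⟩) hR (lt_of_lt_of_le hR₀ (le_max_left _ _)) hrow hH (fun _ _ => rfl)
    (EX3_vmono hW (le_max_right _ _)) hg₁ (fun t p => ?_) hH1' hHb ⟨ρ₀, hρ₀, hsc1⟩
  · have e3 : ((ueK e).comp ⟨_, hc⟩).comp (swK (Fin j → I) k) = ugK (j := j) e := by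
      apply ContinuousMap.ext
      rintro ⟨⟨t, z⟩, a, b⟩
      exact hCubL j m k e t z a b
    rw [e3] at hloo
    exact ((hCubS j m k).1 e g).2 (hloo.trans hgg₁.symm)
  · rw [hH0]
    apply ext_split
    · rw [prK_mapW, hbase]
    · rw [prW_mapW]

/-- exactness, from loops of rows to trivial classes -/
lemma EX3_mpr (hTopF : St_topF) (hTopR : St_topR) (hLoo : St_loo)
    (hCubL : St_cubL) (hCubS : St_cubS) (hCov : St_cov) (hOf : St_vOf)
    (hMapS : St_mapS) (hVC : St_vCont) (hBox : St_box) (j m k : ℕ) (g : LoopG (k + k + j + 2) m)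
    (φ : LoopG j (m + (k + 1))) (hs : IsSuspK g φ) (F : LoopR (j + 1) m (k + 1))
    (e : LoopG (k + k + (j + 1) + 1) m) (hsc : IsScatK F e)
    (he : e.cls = (g.cls : PiG (k + k + j + 2) m)) : φ.cls = PiG.triv j (m + (k + 1)) := by
  obtain ⟨hF1, hF2, hF3, hF4⟩ := hTopF j m (k + 1)
  obtain ⟨hG1, hG2, -, -, -⟩ := hTopR (j + 1) m (k + 1)
  obtain ⟨R, hR, hFR⟩ := hG1 F
  have hbd : ∀ (t : Fin j → I) (s : I), (t ∈ Cube.boundary (Fin j) ∨ s = 0 ∨ s = 1) → ∀ p,
      F.at (toCube1 (t, s)) p = prK m (k + 1) p := fun t s hts p =>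
    hG2 F _ (toCube1_bd (q := (t, s)) hts) p
  -- the reversed family
  have hc2 : Continuous (fun q : (Fin j → I) × I => toCube1 (q.1, unitInterval.symm q.2)) :=
    continuous_toCube1.comp (continuous_fst.prodMk (unitInterval.continuous_symm.comp
      continuous_snd))
  have hF₂ : JFam m (k + 1) R (fun q : (Fin j → I) × I =>
      F.at (toCube1 (q.1, unitInterval.symm q.2))) := EX2_jbase hFR hc2
  have hid : FFam m (k + 1) R (fun (_ : Fin j → I) (p : Phase (m + (k + 1))) => p) := by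
    obtain ⟨R₁, hR₁, h1⟩ := hF1
      (GenLoop.const : GenLoop (Fin j) (FibSp m (k + 1)) FibSp.std)
    exact ⟨h1.cf, fun _ _ _ => rfl, h1.pos, h1.symp⟩
  obtain ⟨Φ₂, hΦ₂, hΦ₂F, hΦ₂0, hΦ₂b⟩ := hCov m (k + 1) (Fin j → I) R _ _ hR hF₂ hid
    (fun t p => by
      change prK m (k + 1) p = F.at (toCube1 (t, unitInterval.symm 0)) p
      rw [unitInterval.symm_zero, hbd t 1 (Or.inr (Or.inr rfl))])
  set Φ : (Fin j → I) × I → Phase (m + (k + 1)) → Phase (m + (k + 1)) := fun q =>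
    Φ₂ (q.1, unitInterval.symm q.2) with hΦdef
  have hcs : Continuous (fun q : (Fin j → I) × I => (q.1, unitInterval.symm q.2)) :=
    continuous_fst.prodMk (unitInterval.continuous_symm.comp continuous_snd)
  have hΦ : FFam m (k + 1) R Φ := EX2_fbase hΦ₂ hcs
  have hΦF : ∀ q p, prK m (k + 1) (Φ q p) = F.at (toCube1 q) p := by
    intro q p
    change prK m (k + 1) (Φ₂ (q.1, unitInterval.symm q.2) p) = _
    rw [hΦ₂F]
    change F.at (toCube1 (q.1, unitInterval.symm (unitInterval.symm q.2))) p = _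
    rw [unitInterval.symm_symm]
  have hΦ1 : ∀ t p, Φ (t, 1) p = p := by
    intro t p
    change Φ₂ (t, unitInterval.symm 1) p = p
    rw [unitInterval.symm_one, hΦ₂0]
  have hΦb : ∀ t ∈ Cube.boundary (Fin j), ∀ s p, Φ (t, s) p = p := by
    intro t ht s p
    refine hΦ₂b t (fun s p => ?_) _ p
    change F.at (toCube1 (t, unitInterval.symm s)) p = F.at (toCube1 (t, unitInterval.symm 0)) p
    rw [hbd t _ (Or.inl ht), hbd t _ (Or.inl ht)]
  -- the product family
  have hΦ0 : FFam m (k + 1) R (fun t : Fin j → I => Φ (t, 0)) :=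
    EX2_fbase hΦ (c := fun t => (t, (0 : I))) (by fun_prop)
  have hbase : ∀ t p, prK m (k + 1) (Φ (t, 0) p) = prK m (k + 1) p := by
    intro t p
    rw [hΦF, hbd t 0 (Or.inr (Or.inl rfl))]
  obtain ⟨hW, hWo⟩ := hOf m (k + 1) (Fin j → I) R (fun t => Φ (t, 0)) hΦ0 hbase
  set W : (Fin j → I) → Phase (m + (k + 1)) → Phase m := fun t p =>
    prW m (k + 1) (Φ (t, 0) p) with hWdef
  have hR' : 0 < R + 1 := by linarith
  obtain ⟨-, -, -, -, -, -, hB7, -, hB9⟩ := hBox k (R + 1) hR'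
  obtain ⟨g', hg'⟩ := hVC m (k + 1) (Fin j → I) R W hW (((Fin j → I) × Bx k) × (I × I))
    (fun q => q.1.1) (fun q => bxPt (R + 1) q.1.2 q.2) (by fun_prop)
    (hB9.comp (continuous_const.prodMk (continuous_fst.snd.prodMk continuous_snd)))
  have hWout : ∀ t p, (∃ i, R + 1 ≤ |(prK m (k + 1) p) i|) → W t p = prW m (k + 1) p := by
    rintro t p ⟨i, hi⟩
    refine hWo t p ?_
    have := EX3_abs_le (prK m (k + 1) p) i
    linarith
  have hcube : IsCube (R + 1) W g' := ⟨hWout, fun t z s w => hg' ((t, z), s) w⟩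
  have hW0 : ∀ t ∈ Cube.boundary (Fin j), ∀ p, W t p = prW m (k + 1) p := fun t ht p => by
    change prW m (k + 1) (Φ (t, 0) p) = _
    rw [hΦb t ht]
  obtain ⟨hS1, -, -, hS4⟩ := hCubS j m k
  obtain ⟨g'', hg''⟩ := hS4 g' (by
    rintro ⟨⟨t, z⟩, s⟩ hq
    apply SympCt.ext'
    intro w
    rw [hg']
    change W t (mkB m (k + 1) (bxPt (R + 1) z s) w) = w
    have h1 : W t (mkB m (k + 1) (bxPt (R + 1) z s) w) =
        prW m (k + 1) (mkB m (k + 1) (bxPt (R + 1) z s) w) := by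
      rcases hq with (ht | hz) | hs
      · exact hW0 t ht _
      · exact hWout t _ (by rw [prK_mkB]; exact hB7 z s (Or.inl hz) _ le_rfl)
      · exact hWout t _ (by rw [prK_mkB]; exact hB7 z s (Or.inr hs) _ le_rfl)
    rw [h1, prW_mkB])
  -- the scattering on the product
  have hc : Continuous (fun q : ((((Fin j → I) × I) × Bx k) × I) =>
      ((toCube1 q.1.1, q.1.2), q.2)) :=
    ((continuous_toCube1.comp continuous_fst.fst).prodMk continuous_fst.snd).prodMk continuous_snd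
  obtain ⟨ρ, hρ, hsce⟩ := EX2_scat hsc
  have hsc1 : IsScatAt ρ (fun (q : (Fin j → I) × I) => F.at (toCube1 q))
      ((ueK e).comp ⟨_, hc⟩) :=
    ⟨fun q p hp => hsce.1 (toCube1 q) p hp, fun q c hc' s s' z a b h1 h2 h3 =>
      hsce.2 (toCube1 q) c hc' s s' z a b h1 h2 h3⟩
  have hmap : ∀ t p, Φ (t, 0) p = mapW m (k + 1) (W t) p := by
    intro t p
    apply ext_split
    · rw [prK_mapW, hbase]
    · rw [prW_mapW]
  have hloo := hLoo m k (Fin j → I) (Cube.boundary (Fin j)) R (R + 1)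
    (fun q => F.at (toCube1 q)) Φ W g' ((ueK e).comp ⟨_, hc⟩) hR hR'
    (EX2_jbase hFR continuous_toCube1) hΦ hΦF (EX3_vmono hW (by linarith)) hcube hmap hΦ1 hΦb
    ⟨ρ, hρ, hsc1⟩
  have e3 : ((ueK e).comp ⟨_, hc⟩).comp (swK (Fin j → I) k) = ugK (j := j) e := by
    apply ContinuousMap.ext
    rintro ⟨⟨t, z⟩, a, b⟩
    exact hCubL j m k e t z a b
  rw [e3, ← hg''] at hloo
  have hgg : g''.cls = g.cls := ((hS1 e g'').2 hloo).symm.trans he
  -- the suspension of `g''`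
  obtain ⟨Φ', hΦ'⟩ := hF3 R (fun t => Φ (t, 0)) hΦ0 (fun t ht p => hΦb t ht 0 p)
  have hprod : IsProd (R + 1) g'' Φ' := by
    refine ⟨fun t p hp => ?_, fun t ξ η a b p hp => ?_⟩
    · rw [hΦ', hmap]
      have h1 := hWout t p (by simpa only [prK_eq_fstPt] using hp)
      apply ext_split
      · rw [prK_mapW]
      · rw [prW_mapW, h1]
    · have hp' : prK m (k + 1) p = bxPt (R + 1) (ξ, η) (a, b) := by
        rw [prK_eq_fstPt, hp]
        rfl
      rw [hΦ', hmap]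
      constructor
      · rw [← prK_eq_fstPt, prK_mapW, prK_eq_fstPt, hp]
      · rw [← prW_eq_lstPt, ← prW_eq_lstPt, prW_mapW]
        have h2 := hg' ((t, (ξ, η)), (a, b)) (prW m (k + 1) p)
        rw [← hg'', EX3_ugK] at h2
        have h3 : mkB m (k + 1) (bxPt (R + 1) (ξ, η) (a, b)) (prW m (k + 1) p) = p := by
          rw [← hp', mkB_eta]
        change _ = ((g''.1 (Fin.snoc (Fin.snoc (Fin.append (Fin.append ξ η) t) b) a) :
          SympCt m) : Equiv.Perm (Phase m)) (prW m (k + 1) p)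
        refine Eq.trans ?_ h2.symm
        change W t p = W t (mkB m (k + 1) (bxPt (R + 1) (ξ, η) (a, b)) (prW m (k + 1) p))
        rw [h3]
  have hcl : LoopF.cls (GenLoop.const : GenLoop (Fin j) (FibSp m (k + 1)) FibSp.std) =
      Φ'.cls := by
    refine ((hF4 Φ' _).2 ⟨R, Φ, hR, hΦ, fun t p => (hΦ' t p).symm, fun t p => ?_, hΦb⟩).symm
    rw [hΦ1]
    rfl
  have hsus : IsSuspK g'' (GenLoop.const : GenLoop (Fin j) (SympCt (m + (k + 1))) 1) :=
    ⟨R + 1, hR', Φ', _, hprod, EX3_const, hcl⟩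
  obtain ⟨s, hs1, -, -⟩ := hMapS m k
  rw [← hs1 j g φ hs, ← hgg, hs1 j g'' _ hsus]
  rfl

/-- **Module EX3** -/
theorem thm_ex3 (hTopF : St_topF) (hTopR : St_topR) (hLoo : St_loo) (hRad : St_rad)
    (hCubL : St_cubL) (hCubS : St_cubS) (hCubE : St_cubE) (hScEx : St_scEx) (hCov : St_cov)
    (hOf : St_vOf) (hMapS : St_mapS) (hMapI : St_mapI) (hVC : St_vCont) (hBox : St_box) :
    St_ex3 := fun j m k g φ hs =>
  ⟨EX3_mp hTopF hTopR hLoo hRad hCubL hCubS hCubE hScEx hOf hMapI hBox j m k g φ hs,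
    fun ⟨F, e, h1, h2⟩ =>
      EX3_mpr hTopF hTopR hLoo hCubL hCubS hCov hOf hMapS hVC hBox j m k g φ hs F e h1 h2⟩

end Pool.Agent.KRW
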