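import Mathlib
import Pool.Agent.KRW.St
import Pool.Agent.KRW.Split

/-!
# FBA: basic facts on families of fibrewise symplectic maps
-/

set_option maxSynthPendingDepth 3

open scoped ContDiff Topology unitInterval
open Set Function TopologicalSpace Filter

namespace Pool.Agent.KRW

open Pool.Agent.Helper17 Pool.Agent.Helper42 Pool.Agent.H42.Hull

/-- Fibrewise symplectic maps have injective derivatives and a smooth family of inverses.
Hypotheses: `St_lin1`, `St_jposTame`. -/
theorem thm_fInv (h1 : St_lin1) (h2 : St_jposTame) : St_fInv := by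
  intro m k T _ R Φ h
  have hinj : ∀ t p, Injective (fderiv ℝ (Φ t) p) := by
    intro t p
    rw [injective_iff_map_eq_zero]
    intro u hu
    have h3 : TameL ((prK m k).comp (fderiv ℝ (Φ t) p)) := by
      have h4 := (h2 (m + k) k (fun p => prK m k (Φ t p))
        ((prK m k).differentiable.comp (h.cf.differentiable t))).1 (h.pos t) p
      have h5 : fderiv ℝ (fun p => prK m k (Φ t p)) p = (prK m k).comp (fderiv ℝ (Φ t) p) :=
        ((prK m k).hasFDerivAt.comp p (h.cf.differentiable t p).hasFDerivAt).fderiv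
      rw [h5] at h4
      exact h4
    have h0 : prK m k (fderiv ℝ (Φ t) p u) = 0 := by rw [hu, map_zero]
    refine (h1 (m + k) k _ h3).2.2.2.2.2 u h0 fun w hw => ?_
    rw [← h.symp t p u w h0 hw, hu, map_zero, omegaStd_zero_left]
  refine ⟨hinj, ?_⟩
  obtain ⟨Ψ, hΨ, h3, h4, h5⟩ := exists_CF_inverse h.cf (isCompact_closedBall (0 : Phase (m + k)) R)
    (fun t x hx => h.std t x (by simpa using hx)) hinj
  exact ⟨Ψ, hΨ, h3, h4, fun t p hp => h5 t p (by simpa using hp)⟩

/-- Families of symplectomorphisms are fibrewise symplectic. -/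
theorem thm_fSymp : St_fSymp := by
  intro m k T _ _ f
  obtain ⟨hCF, K, hK⟩ := CF_of_continuous f.continuous
  obtain ⟨r, hr⟩ := K.isCompact.isBounded.subset_closedBall 0
  refine ⟨max r 0, le_max_right _ _, hCF, fun t p hp => hK t p fun h => ?_, fun t => ?_,
    fun t p u v hu hv => ?_⟩
  · have h' := hr h
    rw [mem_closedBall_zero_iff] at h'
    exact absurd (h'.trans (le_max_left r 0)) (not_le.2 hp)
  · exact JPos.comp (jPos_prK m k) (prK m k).differentiable (SympCt.differentiable (f t))
      (f t).2.2.2.1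
  · have h1 := (f t).2.2.2.1 p u v
    rw [omegaStd_split', hu, hv, omegaStd_zero_left, zero_add] at h1
    exact h1

/-- Families of fibrewise symplectic maps which are symplectic are continuous families of
symplectomorphisms. -/
theorem thm_fToSymp : St_fToSymp := by
  intro m k T _ R Φ h hs
  have hK : ∀ t, ∀ x ∉ Metric.closedBall (0 : Phase (m + k)) R, Φ t x = x :=
    fun t x hx => h.std t x (by simpa using hx)
  exact ⟨⟨fun t => mkSymp (Φ t) (h.cf.contDiff t) ⟨Metric.closedBall 0 R,
    isCompact_closedBall 0 R, hK t⟩ (hs t),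
    continuous_of_CF h.cf ⟨Metric.closedBall 0 R, isCompact_closedBall 0 R⟩ hK
      fun _ _ => rfl⟩, fun _ _ => rfl⟩

/-- Composition of a fibrewise symplectic family with a family which is symplectic on the kernels
of the derivative of the composition with the projection. -/
theorem thm_fComp : St_fComp := by
  intro m k T _ R Φ ψ F₀ h hψ hψR hF₀ hJ hs
  have hd : ∀ t p, fderiv ℝ (fun p => Φ t (ψ t p)) p =
      (fderiv ℝ (Φ t) (ψ t p)).comp (fderiv ℝ (ψ t) p) :=
    fun t p => ((h.cf.differentiable t _).hasFDerivAt.comp p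
      (hψ.differentiable t p).hasFDerivAt).fderiv
  have hd0 : ∀ t p, fderiv ℝ (F₀ t) p =
      (prK m k).comp (fderiv ℝ (fun p => Φ t (ψ t p)) p) := by
    intro t p
    have h1 : F₀ t = fun p => prK m k (Φ t (ψ t p)) := funext fun p => (hF₀ t p).symm
    rw [h1]
    exact ((prK m k).hasFDerivAt.comp p (DifferentiableAt.hasFDerivAt
      ((h.cf.differentiable t _).comp p (hψ.differentiable t p)))).fderiv
  refine ⟨h.cf.comp hψ, fun t p hp => ?_, fun t => ?_, fun t p u v hu hv => ?_⟩
  · rw [hψR t p hp, h.std t p hp]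
  · have h1 : (fun p => prK m k (Φ t (ψ t p))) = F₀ t := funext fun p => hF₀ t p
    rw [h1]
    exact hJ t
  · have hu' : fderiv ℝ (F₀ t) p u = 0 := by rw [hd0, ContinuousLinearMap.comp_apply, hu]
    have hv' : fderiv ℝ (F₀ t) p v = 0 := by rw [hd0, ContinuousLinearMap.comp_apply, hv]
    rw [hd, ContinuousLinearMap.comp_apply] at hu hv
    rw [hd, ContinuousLinearMap.comp_apply, ContinuousLinearMap.comp_apply,
      h.symp t (ψ t p) _ _ hu hv, hs t p u v hu' hv']

end Pool.Agent.KRW
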