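import Mathlib
import Pool.Agent.KRW.St
import Pool.Agent.KRW.St2
import Pool.Agent.H42.Hull.Gap
import Pool.Agent.H50.Susp.LesExist

/-!
# The exact sequence of `k`-rows: assembly
-/

set_option maxSynthPendingDepth 3

open scoped ContDiff Topology unitInterval
open Set Function TopologicalSpace Filter

namespace Pool.Agent.KRW

open Pool.Agent.Helper17 Pool.Agent.Helper42 Pool.Agent.H42.Hull

lemma clsG_surj {j n : ℕ} (a : PiG j n) : ∃ φ : LoopG j n, φ.cls = a := Quotient.exists_rep a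

lemma clsR_surj {j m k : ℕ} (a : PiR j m k) : ∃ F : LoopR j m k, F.cls = a :=
  Quotient.exists_rep a

/-- A family which differs from `ψ` by a null-homotopic factor has the class of `ψ`. -/
lemma cls_eq_of_triv {j n : ℕ} {φ ψ χ : LoopG j n} (h : ∀ t p, φ.at t p = χ.at t (ψ.at t p))
    (hχ : χ.cls = PiG.triv j n) : φ.cls = ψ.cls := by
  let φ₀ : GenLoop (Fin j) (SympCt n) 1 := φ
  let ψ₀ : GenLoop (Fin j) (SympCt n) 1 := ψ
  let χ₀ : GenLoop (Fin j) (SympCt n) 1 := χ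
  have h1 : GenLoop.Homotopic χ₀ GenLoop.const := Quotient.exact hχ
  obtain ⟨H⟩ := h1
  have hmul : ∀ t, φ₀.1 t = χ₀.1 t * ψ₀.1 t := fun t => SympCt.ext' fun x => h t x
  have hc : Continuous (fun q : I × (Fin j → I) => H q * ψ₀.1 q.2) :=
    continuous_mul_family H.continuous (ψ₀.1.continuous.comp continuous_snd)
  have h2 : GenLoop.Homotopic φ₀ ψ₀ := by
    refine ⟨⟨⟨⟨fun q => H q * ψ₀.1 q.2, hc⟩, fun t => ?_, fun t => ?_⟩, fun s t ht => ?_⟩⟩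
    · change H (0, t) * ψ₀.1 t = φ₀.1 t
      rw [hmul, H.apply_zero]
    · change H (1, t) * ψ₀.1 t = ψ₀.1 t
      rw [H.apply_one]
      exact one_mul _
    · change H (s, t) * ψ₀.1 t = φ₀.1 t
      have h3 := H.eq_fst s ht
      rw [hmul]
      exact congrArg (fun x => x * ψ₀.1 t) h3
  exact Quotient.sound h2

/-- The exact sequence of `(k+1)`-rows. -/
def St_main (m k : ℕ) : Prop :=
  ∃ (i : ∀ j : ℕ, PiG j (m + (k + 1)) → PiF j m (k + 1))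
    (s : ∀ j : ℕ, PiG (k + k + j + 2) m → PiG j (m + (k + 1)))
    (q : ∀ j : ℕ, PiG j (m + (k + 1)) → PiR j m (k + 1))
    (d : ∀ j : ℕ, PiR j m (k + 1) → PiG (k + k + j + 1) m),
    -- the maps: inclusion, suspension, first `k + 1` pairs of components, scattering
    (∀ j (φ : LoopG j (m + (k + 1))) (Φ : LoopF j m (k + 1)), IsIncl φ Φ → i j φ.cls = Φ.cls) ∧
    (∀ j (R : ℝ) (g : LoopG (k + k + j + 2) m) (Φ : LoopF j m (k + 1)), 0 < R →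
      IsProd R g Φ → i j (s j g.cls) = Φ.cls) ∧
    (∀ j (φ : LoopG j (m + (k + 1))) (F : LoopR j m (k + 1)), IsRow φ F → q j φ.cls = F.cls) ∧
    (∀ j (F : LoopR j m (k + 1)) (e : LoopG (k + k + j + 1) m), IsScatK F e →
      d j F.cls = e.cls) ∧
    -- there are enough of them
    (∀ j (φ : LoopG j (m + (k + 1))), ∃ Φ : LoopF j m (k + 1), IsIncl φ Φ) ∧
    (∀ j (c : PiG (k + k + j + 2) m), ∃ (R : ℝ) (g : LoopG (k + k + j + 2) m)
      (Φ : LoopF j m (k + 1)), 0 < R ∧ g.cls = c ∧ IsProd R g Φ) ∧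
    (∀ j (φ : LoopG j (m + (k + 1))), ∃ F : LoopR j m (k + 1), IsRow φ F) ∧
    (∀ j (F : LoopR j m (k + 1)), ∃ e : LoopG (k + k + j + 1) m, IsScatK F e) ∧
    -- they are homomorphisms, and the inclusion is bijective
    (∀ j, IsHom (i (j + 1)) ∧ IsHom (s (j + 1)) ∧ IsHom (q (j + 1)) ∧ IsHom (d (j + 1))) ∧
    (∀ j, Bijective (i j)) ∧
    -- exactness
    (∀ j a, (∃ c, s j c = a) ↔ q j a = PiR.triv j m (k + 1)) ∧
    (∀ j b, (∃ a, q j a = b) ↔ d j b = PiG.triv (k + k + j + 1) m) ∧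
    (∀ j c, (∃ b, d (j + 1) b = c) ↔ s j c = PiG.triv j (m + (k + 1))) ∧
    -- refined exactness, also for `j = 0`
    (∀ j (φ ψ : LoopG j (m + (k + 1))), ∃ χ : LoopG j (m + (k + 1)),
      (∀ t p, φ.at t p = χ.at t (ψ.at t p)) ∧
        (q j φ.cls = q j ψ.cls ↔ ∃ c, s j c = χ.cls)) ∧
    (∀ j (F F' : LoopR j m (k + 1)), d j F.cls = d j F'.cls ↔
      ∃ (φ : LoopG j (m + (k + 1))) (F'' : LoopR j m (k + 1)),
        (∀ t p, F''.at t p = F.at t (φ.at t p)) ∧ F'.cls = F''.cls) ∧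
    -- the case of trivial homotopy groups
    ((m = 0 ∨ ∀ i, 2 * k + 1 ≤ i → ∀ c : PiG i m, c = PiG.triv i m) → ∀ j, Bijective (q j))

/-- The image of the suspension map. -/
def St_image (m k : ℕ) : Prop :=
  ∃ s : ∀ j : ℕ, PiG (k + k + j + 2) m → PiG j (m + (k + 1)),
    (∀ j (g : LoopG (k + k + j + 2) m) (φ : LoopG j (m + (k + 1))), IsSuspK g φ →
      s j g.cls = φ.cls) ∧
    (∀ j (c : PiG (k + k + j + 2) m), ∃ (g : LoopG (k + k + j + 2) m)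
      (φ : LoopG j (m + (k + 1))), g.cls = c ∧ IsSuspK g φ) ∧
    (∀ j a, (∃ c, s j c = a) ↔ IsKSusp m (k + 1) j a) ∧
    (∀ j a, (∃ c, s j c = a) → ∀ ε : ℝ, 0 < ε → ∃ φ : LoopG j (m + (k + 1)), φ.cls = a ∧
      ∀ t p u, ‖fstPt m (k + 1) (dAt (φ.at t) p (incPt m (k + 1) u)) - u‖ ≤ ε * ‖u‖) ∧
    (∀ j a, (¬ ∃ c, s j c = a) → ∀ φ : LoopG j (m + (k + 1)), φ.cls = a →
      ∀ S S' : LinSymp (m + (k + 1)),
      Metric.closedBall (0 : ℂ) 1 ⊆ hull m (k + 1) j S S' φ)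

/-- Exactness at the homotopy groups of the larger group. -/
lemma exact1 (h1 : St_ex1) {m k : ℕ} {s : ∀ j : ℕ, PiG (k + k + j + 2) m → PiG j (m + (k + 1))}
    (s1 : ∀ j (g : LoopG (k + k + j + 2) m) (φ : LoopG j (m + (k + 1))), IsSuspK g φ →
      s j g.cls = φ.cls)
    (s2 : ∀ j (c : PiG (k + k + j + 2) m), ∃ (g : LoopG (k + k + j + 2) m)
      (φ : LoopG j (m + (k + 1))), g.cls = c ∧ IsSuspK g φ)
    {j : ℕ} (φ : LoopG j (m + (k + 1))) (F : LoopR j m (k + 1)) (hF : IsRow φ F) :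
    (∃ c, s j c = φ.cls) ↔ F.cls = PiR.triv j m (k + 1) := by
  rw [h1 j m k φ F hF]
  constructor
  · rintro ⟨c, hc⟩
    obtain ⟨g, φ', hg, hgφ⟩ := s2 j c
    exact ⟨g, φ', hgφ, by rw [← s1 j g φ' hgφ, hg, hc]⟩
  · rintro ⟨g, φ', hgφ, hφ⟩
    exact ⟨g.cls, by rw [s1 j g φ' hgφ, hφ]⟩

theorem main_of (hI : St_mapI) (hS : St_mapS) (hQ : St_mapQ) (hD : St_mapD) (h1 : St_ex1)
    (h2 : St_ex2) (h3 : St_ex3) (hr : St_ref) (hr2 : St_ref2) (m k : ℕ) : St_main m k := by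
  obtain ⟨i, i1, i2, i3, i4⟩ := hI m (k + 1)
  obtain ⟨s, s1, s2, s3⟩ := hS m k
  obtain ⟨q, q1, q2, q3⟩ := hQ m (k + 1)
  obtain ⟨d, d1, d2, d3⟩ := hD m k
  have x1 : ∀ j a, (∃ c, s j c = a) ↔ q j a = PiR.triv j m (k + 1) := by
    intro j a
    obtain ⟨φ, rfl⟩ := clsG_surj a
    obtain ⟨F, hF⟩ := q2 j φ
    rw [q1 j φ F hF]
    exact exact1 h1 s1 s2 φ F hF
  have x2 : ∀ j b, (∃ a, q j a = b) ↔ d j b = PiG.triv (k + k + j + 1) m := by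
    intro j b
    obtain ⟨F, rfl⟩ := clsR_surj b
    obtain ⟨e, he⟩ := d2 j F
    rw [d1 j F e he, h2 j m k F e he]
    constructor
    · rintro ⟨a, ha⟩
      obtain ⟨φ, rfl⟩ := clsG_surj a
      obtain ⟨F', hF'⟩ := q2 j φ
      exact ⟨φ, F', hF', by rw [← q1 j φ F' hF', ha]⟩
    · rintro ⟨φ, F', hF', hFF⟩
      exact ⟨φ.cls, by rw [q1 j φ F' hF', hFF]⟩
  have x3 : ∀ j c, (∃ b, d (j + 1) b = c) ↔ s j c = PiG.triv j (m + (k + 1)) := by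
    intro j c
    obtain ⟨g, φ, rfl, hg⟩ := s2 j c
    rw [s1 j g φ hg, h3 j m k g φ hg]
    constructor
    · rintro ⟨b, hb⟩
      obtain ⟨F, rfl⟩ := clsR_surj b
      obtain ⟨e, he⟩ := d2 (j + 1) F
      exact ⟨F, e, he, by rw [← d1 (j + 1) F e he]; exact hb⟩
    · rintro ⟨F, e, he, heg⟩
      exact ⟨F.cls, (d1 (j + 1) F e he).trans heg⟩
  have xr : ∀ j (φ ψ χ : LoopG j (m + (k + 1))), (∀ t p, φ.at t p = χ.at t (ψ.at t p)) →
      (q j φ.cls = q j ψ.cls ↔ ∃ c, s j c = χ.cls) := by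
    intro j φ ψ χ h
    obtain ⟨F, hF⟩ := q2 j φ
    obtain ⟨G, hG⟩ := q2 j ψ
    obtain ⟨H, hH⟩ := q2 j χ
    rw [x1 j χ.cls, q1 j φ F hF, q1 j ψ G hG, q1 j χ H hH]
    exact hr j m (k + 1) φ ψ χ F G H h hF hG hH
  have hs0 : ∀ j, s j (PiG.triv (k + k + j + 2) m) = PiG.triv j (m + (k + 1)) := by
    intro j
    have h4 := (x2 (j + 1) (q (j + 1) (PiG.triv (j + 1) (m + (k + 1))))).1 ⟨_, rfl⟩
    exact (x3 j (PiG.triv (k + k + j + 2) m)).1 ⟨_, h4⟩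
  refine ⟨i, s, q, d, i1, ?_, q1, d1, i2, ?_, q2, d2,
    fun j => ⟨i4 j, s3 j, q3 j, d3 j⟩, i3, x1, x2, x3, fun j φ ψ => ?_, fun j F F' => ?_, ?_⟩
  · intro j R g Φ hR hp
    obtain ⟨a, ha⟩ := (i3 j).2 Φ.cls
    obtain ⟨φ, rfl⟩ := clsG_surj a
    obtain ⟨Ψ, hΨ⟩ := i2 j φ
    have h5 : Ψ.cls = Φ.cls := by rw [← i1 j φ Ψ hΨ, ha]
    rw [s1 j g φ ⟨R, hR, Φ, Ψ, hp, hΨ, h5⟩, ha]
  · intro j c
    obtain ⟨g, φ, hg, R, hR, Φ, Ψ, hp, -, -⟩ := s2 j c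
    exact ⟨R, g, Φ, hR, hg, hp⟩
  · obtain ⟨χ, hχ⟩ := exists_quot_loop φ ψ
    exact ⟨χ, hχ, xr j φ ψ χ hχ⟩
  · obtain ⟨e, he⟩ := d2 j F
    obtain ⟨e', he'⟩ := d2 j F'
    rw [d1 j F e he, d1 j F' e' he']
    exact hr2 j m k F F' e e' he he'
  · intro h j
    have htriv : ∀ i, 2 * k + 1 ≤ i → ∀ c : PiG i m, c = PiG.triv i m := by
      rcases h with rfl | h
      · intro i _ c
        exact piG_zero i c
      · exact h
    constructor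
    · intro a b hab
      obtain ⟨φ, rfl⟩ := clsG_surj a
      obtain ⟨ψ, rfl⟩ := clsG_surj b
      obtain ⟨χ, hχ⟩ := exists_quot_loop φ ψ
      obtain ⟨c, hc⟩ := (xr j φ ψ χ hχ).1 hab
      apply cls_eq_of_triv hχ
      rw [← hc, htriv (k + k + j + 2) (by omega) c, hs0 j]
    · intro b
      exact (x2 j b).2 (htriv (k + k + j + 1) (by omega) _)

theorem image_of (hS : St_mapS) (hQ : St_mapQ) (h1 : St_ex1) (hc : St_cri) (m k : ℕ) :
    St_image m k := by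
  obtain ⟨s, s1, s2, -⟩ := hS m k
  obtain ⟨q, -, q2, -⟩ := hQ m (k + 1)
  have xk : ∀ j a, (∃ c, s j c = a) ↔ IsKSusp m (k + 1) j a := by
    intro j a
    obtain ⟨φ, rfl⟩ := clsG_surj a
    obtain ⟨F, hF⟩ := q2 j φ
    rw [exact1 h1 s1 s2 φ F hF]
    exact hc j m (k + 1) φ F hF
  refine ⟨s, s1, s2, xk, fun j a ha => (gap a).1 ((xk j a).1 ha), fun j a ha => ?_⟩
  exact (gap a).2.1 fun h => ha ((xk j a).2 h)

end Pool.Agent.KRW
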