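import Mathlib
import Pool.Agent.KRW.St
import Pool.Agent.Helper17.Potential
import Pool.Agent.Helper17.AdmPath

/-!
# FMO: Moser's method in the fibres, cut off in the base (from `St_mosV`)
-/

set_option maxSynthPendingDepth 3

open scoped ContDiff Topology unitInterval
open Set Function TopologicalSpace Filter

namespace Pool.Agent.KRW

open Pool.Agent.Helper17 Pool.Agent.Helper42 Pool.Agent.H42.Hull

/-- The fibre map `w ↦ w + c (d, w)`. -/
private noncomputable def FMO_psi {n : ℕ} {D : Type} (c : D × Phase n → Phase n) (d : D)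
    (w : Phase n) : Phase n := w + c (d, w)

private lemma FMO_contDiff {n : ℕ} {D : Type} [NormedAddCommGroup D] [NormedSpace ℝ D]
    {c : D × Phase n → Phase n} (hc : ContDiff ℝ ∞ c) (d : D) :
    ContDiff ℝ ∞ (FMO_psi c d) :=
  contDiff_id.add (hc.comp (contDiff_const.prodMk contDiff_id))

private lemma FMO_hasFDerivAt_pair {n : ℕ} {D : Type} [NormedAddCommGroup D] [NormedSpace ℝ D]
    (d : D) (w : Phase n) : HasFDerivAt (fun w' : Phase n => (d, w'))
      (ContinuousLinearMap.inr ℝ D (Phase n)) w :=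
  hasFDerivAt_prodMk_right d w

private lemma FMO_fderiv_c {n : ℕ} {D : Type} [NormedAddCommGroup D] [NormedSpace ℝ D]
    {c : D × Phase n → Phase n} (hc : Differentiable ℝ c) (d : D) (w : Phase n) :
    fderiv ℝ (fun w' => c (d, w')) w =
      (fderiv ℝ c (d, w)).comp (ContinuousLinearMap.inr ℝ D (Phase n)) :=
  ((hc (d, w)).hasFDerivAt.comp w (FMO_hasFDerivAt_pair d w)).fderiv

private lemma FMO_hasFDerivAt_psi {n : ℕ} {D : Type} [NormedAddCommGroup D] [NormedSpace ℝ D]
    {c : D × Phase n → Phase n} (hc : Differentiable ℝ c) (d : D) (w : Phase n) :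
    HasFDerivAt (FMO_psi c d) (ContinuousLinearMap.id ℝ (Phase n) +
      fderiv ℝ (fun w' => c (d, w')) w) w := by
  rw [FMO_fderiv_c hc]
  exact (hasFDerivAt_id w).add ((hc (d, w)).hasFDerivAt.comp w (FMO_hasFDerivAt_pair d w))

/-- The form of the fibre maps. -/
private noncomputable def FMO_tau {n : ℕ} {D : Type} [NormedAddCommGroup D] [NormedSpace ℝ D]
    (c : D × Phase n → Phase n) (x : D × Phase n) : Phase n →L[ℝ] ℝ :=
  omegaB n (c x) + (1 / 2 : ℝ) • (omegaB n (c x)).comp
    ((fderiv ℝ c x).comp (ContinuousLinearMap.inr ℝ D (Phase n)))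

private lemma FMO_tau_eq {n : ℕ} {D : Type} [NormedAddCommGroup D] [NormedSpace ℝ D]
    {c : D × Phase n → Phase n} (hc : Differentiable ℝ c) (d : D) (w : Phase n) :
    FMO_tau c (d, w) = midForm (FMO_psi c d) w := by
  have h1 : FMO_psi c d w - w = c (d, w) := by
    rw [FMO_psi, add_sub_cancel_left]
  rw [FMO_tau, midForm, h1, (FMO_hasFDerivAt_psi hc d w).fderiv, add_sub_cancel_left,
    FMO_fderiv_c hc]

private lemma FMO_tau_zero {n : ℕ} {D : Type} [NormedAddCommGroup D] [NormedSpace ℝ D]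
    {c : D × Phase n → Phase n} {x : D × Phase n} (h : c x = 0) : FMO_tau c x = 0 := by
  rw [FMO_tau, h, map_zero, ContinuousLinearMap.zero_comp, smul_zero, add_zero]

/-- The forms of the path. -/
private lemma FMO_vform {n : ℕ} {D : Type} [NormedAddCommGroup D] [NormedSpace ℝ D]
    {c : D × Phase n → Phase n} (hc : ContDiff ℝ ∞ c) (κ : D → ℝ) (s : ℝ) (d : D)
    (w a b : Phase n) :
    vform (fun x : ℝ × (D × Phase n) => (x.1 * κ x.2.1) • FMO_tau c x.2) s d w a b =
      (1 - s * κ d) * omegaStd a b + (s * κ d) * omegaStd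
        (a + fderiv ℝ (fun w' => c (d, w')) w a) (b + fderiv ℝ (fun w' => c (d, w')) w b) := by
  have hcd : Differentiable ℝ c := hc.differentiable (by simp)
  have hψ := FMO_contDiff hc d
  have h1 : (fun w' : Phase n => (fun x : ℝ × (D × Phase n) => (x.1 * κ x.2.1) •
      FMO_tau c x.2) (s, (d, w'))) = fun w' => (s * κ d) • midForm (FMO_psi c d) w' := by
    funext w'
    change (s * κ d) • FMO_tau c (d, w') = _
    rw [FMO_tau_eq hcd]
  have h2 : fderiv ℝ (fun w' => (s * κ d) • midForm (FMO_psi c d) w') w =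
      (s * κ d) • fderiv ℝ (midForm (FMO_psi c d)) w :=
    fderiv_fun_const_smul ((contDiff_midForm hψ).differentiable (by simp) w) _
  have hsymm : fderiv ℝ (fderiv ℝ (FMO_psi c d)) w a b =
      fderiv ℝ (fderiv ℝ (FMO_psi c d)) w b a :=
    (hψ.contDiffAt (x := w)).isSymmSndFDerivAt
      (by rw [minSmoothness_of_isRCLikeNormedField]; exact WithTop.coe_le_coe.2 le_top) a b
  have h3 : ∀ a, fderiv ℝ (FMO_psi c d) w a = a + fderiv ℝ (fun w' => c (d, w')) w a := by
    intro a
    rw [(FMO_hasFDerivAt_psi hcd d w).fderiv]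
    rfl
  rw [vform, h1, h2]
  simp only [smul_apply, smul_eq_mul]
  rw [fderiv_midForm hψ, fderiv_midForm hψ, hsymm, h3, h3, add_sub_cancel_left,
    add_sub_cancel_left]
  have h4 : omegaStd (fderiv ℝ (fun w' => c (d, w')) w b) (fderiv ℝ (fun w' => c (d, w')) w a) =
    -omegaStd (fderiv ℝ (fun w' => c (d, w')) w a) (fderiv ℝ (fun w' => c (d, w')) w b) :=
    omegaStd_swap _ _
  have h5 : omegaStd (fderiv ℝ (fun w' => c (d, w')) w b) a =
    -omegaStd a (fderiv ℝ (fun w' => c (d, w')) w b) := omegaStd_swap _ _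
  rw [h4, h5]
  simp only [omegaStd_add_left, omegaStd_add_right]
  ring

private lemma FMO_CF {n : ℕ} {D : Type} [NormedAddCommGroup D] [NormedSpace ℝ D] {T : Type}
    [TopologicalSpace T] {c : T → D × Phase n → Phase n} (hc : CF c) {κ : D → ℝ}
    (hκ : ContDiff ℝ ∞ κ) :
    CF (fun t (x : ℝ × (D × Phase n)) => (x.1 * κ x.2.1) • FMO_tau (c t) x.2) := by
  have hs : CF (fun (_ : T) (x : ℝ × (D × Phase n)) => x.2) := CF.const contDiff_snd
  have h0 : CF (fun (_ : T) (x : ℝ × (D × Phase n)) => x.1 * κ x.2.1) :=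
    CF.const (contDiff_fst.mul (hκ.comp (contDiff_fst.comp contDiff_snd)))
  have h1 : CF (fun t (x : ℝ × (D × Phase n)) => c t x.2) := hc.comp hs
  have h2 : CF (fun t (x : ℝ × (D × Phase n)) => fderiv ℝ (c t) x.2) := hc.fderiv.comp hs
  have h3 : CF (fun t (x : ℝ × (D × Phase n)) => omegaB n (c t x.2)) := h1.clm (omegaB n)
  have h4 : CF (fun t (x : ℝ × (D × Phase n)) =>
      (fderiv ℝ (c t) x.2).comp (ContinuousLinearMap.inr ℝ D (Phase n))) :=
    CF.clm_comp h2 (CF.const contDiff_const)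
  have h5 : CF (fun t (x : ℝ × (D × Phase n)) => omegaB n (c t x.2) + (1 / 2 : ℝ) •
      (omegaB n (c t x.2)).comp ((fderiv ℝ (c t) x.2).comp
        (ContinuousLinearMap.inr ℝ D (Phase n)))) :=
    h3.add ((CF.const (contDiff_const (c := (1 / 2 : ℝ)))).smul (h3.clm_comp h4))
  exact h0.smul h5

theorem thm_fmo (hmos : St_mosV) : St_fmo := by
  intro n D _ _ _ T _ _ c κ A ρ hc hκ hκ01 hcρ hcA hadm hsymp
  have hβ := FMO_CF hc hκ
  have hcd : ∀ t, Differentiable ℝ (c t) := fun t => hc.differentiable t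
  have hsup : ∀ t d w, (A < ‖d‖ ∨ ρ < ‖w‖) → κ d = 0 ∨ c t (d, w) = 0 := by
    intro t d w h
    rcases h with h | h
    · rcases hcA d h with h1 | h1
      · exact Or.inl h1
      · exact Or.inr (h1 t w)
    · exact Or.inr (hcρ t d w h)
  obtain ⟨M, hM, hM0, hMfix, hMc, hMtriv⟩ := hmos n D T
    (fun t (x : ℝ × (D × Phase n)) => (x.1 * κ x.2.1) • FMO_tau (c t) x.2) A ρ hβ
    (by
      intro t s _ d w h
      rcases hsup t d w h with h1 | h1
      · simp only [h1, mul_zero, zero_smul]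
      · simp only [FMO_tau_zero h1, smul_zero])
    (by
      intro t s hs d w a h
      refine hadm t d w (s * κ d) ⟨mul_nonneg hs.1 (hκ01 d).1,
        mul_le_one₀ hs.2 (hκ01 d).1 (hκ01 d).2⟩ a fun b => ?_
      have h1 := h b
      rw [FMO_vform (hc.contDiff t)] at h1
      exact h1)
  have hcons : ∀ t (s : I) d w a b,
      (1 - (s : ℝ) * κ d) * omegaStd (fderiv ℝ (fun w' => M (t, s) (d, w')) w a)
        (fderiv ℝ (fun w' => M (t, s) (d, w')) w b) +
      ((s : ℝ) * κ d) * omegaStd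
        ((ContinuousLinearMap.id ℝ (Phase n) +
          fderiv ℝ (fun w' => c t (d, w')) (M (t, s) (d, w)))
          (fderiv ℝ (fun w' => M (t, s) (d, w')) w a))
        ((ContinuousLinearMap.id ℝ (Phase n) +
          fderiv ℝ (fun w' => c t (d, w')) (M (t, s) (d, w)))
          (fderiv ℝ (fun w' => M (t, s) (d, w')) w b)) = omegaStd a b := by
    intro t s d w a b
    have h1 := hMc t s d w a b
    rw [FMO_vform (hc.contDiff t), FMO_vform (hc.contDiff t)] at h1
    rw [zero_mul, sub_zero, one_mul, zero_mul, add_zero] at h1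
    exact h1
  have hMd : ∀ q d w, HasFDerivAt (fun w' => M q (d, w')) (fderiv ℝ (fun w' => M q (d, w')) w) w :=
    fun q d w => ((hM.differentiable q (d, w)).comp w
      (FMO_hasFDerivAt_pair d w).differentiableAt).hasFDerivAt
  have hV : ∀ (q : T × I) d w, fderiv ℝ (fun w' => M q (d, w') + c q.1 (d, M q (d, w'))) w =
      (ContinuousLinearMap.id ℝ (Phase n) +
        fderiv ℝ (fun w' => c q.1 (d, w')) (M q (d, w))).comp
          (fderiv ℝ (fun w' => M q (d, w')) w) := by
    intro q d w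
    exact ((FMO_hasFDerivAt_psi (hcd q.1) d (M q (d, w))).comp w (hMd q d w)).fderiv
  refine ⟨fun q x => M q x + c q.1 (x.1, M q x), ?_, ?_, ?_, ?_, ?_, ?_, ?_⟩
  · exact hM.add ((hc.base continuous_fst).comp ((CF.const contDiff_fst).prodMk hM))
  · intro t d w
    change M (t, 0) (d, w) + c t (d, M (t, 0) (d, w)) = _
    rw [hM0]
  · intro q d w h
    change M q (d, w) + c q.1 (d, M q (d, w)) = _
    rw [hMfix q d w (Or.inr h), hcρ q.1 d w h, add_zero]
  · rintro ⟨t, s⟩ d w
    change Admissible (fderiv ℝ (fun w' => M (t, s) (d, w') + c t (d, M (t, s) (d, w'))) w)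
    rw [hV (t, s) d w]
    exact admissible_moser (s := (s : ℝ) * κ d) ⟨mul_nonneg s.2.1 (hκ01 d).1,
      mul_le_one₀ s.2.2 (hκ01 d).1 (hκ01 d).2⟩ (hadm t d _) (fun v w' => hcons t s d w v w')
  · intro t d w a b
    change omegaStd (fderiv ℝ (fun w' => M (t, 1) (d, w') + c t (d, M (t, 1) (d, w'))) w a)
      (fderiv ℝ (fun w' => M (t, 1) (d, w') + c t (d, M (t, 1) (d, w'))) w b) = _
    rw [hV (t, 1) d w]
    have h1 := hcons t 1 d w a b
    rw [show ((1 : I) : ℝ) = 1 from rfl, one_mul] at h1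
    by_cases hk : κ d = 1
    · rw [hk, sub_self, zero_mul, zero_add, one_mul] at h1
      exact h1
    · have h2 := hsymp t d hk (M (t, 1) (d, w)) (fderiv ℝ (fun w' => M (t, 1) (d, w')) w a)
        (fderiv ℝ (fun w' => M (t, 1) (d, w')) w b)
      have h3 : ∀ x, (ContinuousLinearMap.id ℝ (Phase n) +
          fderiv ℝ (fun w' => c t (d, w')) (M (t, 1) (d, w))) x =
          x + fderiv ℝ (fun w' => c t (d, w')) (M (t, 1) (d, w)) x := fun _ => rfl
      rw [h3, h3, h2] at h1
      rw [ContinuousLinearMap.comp_apply, ContinuousLinearMap.comp_apply, h3, h3, h2]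
      linarith
  · intro t s d hk w
    have h1 : M (t, s) (d, w) = w := by
      refine hMtriv t d (fun s _ w => ?_) s w
      simp only [hk, mul_zero, zero_smul]
    change M (t, s) (d, w) + c t (d, M (t, s) (d, w)) = _
    rw [h1]
  · intro t s d h w
    have h1 : M (t, s) (d, w) = w := by
      refine hMtriv t d (fun s _ w => ?_) s w
      simp only [FMO_tau_zero (h w), smul_zero]
    change M (t, s) (d, w) + c t (d, M (t, s) (d, w)) = _
    rw [h1, h w, add_zero]

end Pool.Agent.KRW
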