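import Mathlib
import Pool.Agent.KRW.St
import Pool.Agent.KRW.Split

/-!
# Horizontal fields preserve the form on the kernels

`thm_hor : St_hor` from `St_lin1`.
-/

set_option maxSynthPendingDepth 3

open scoped ContDiff Topology unitInterval
open Set Function TopologicalSpace Filter

namespace Pool.Agent.KRW

open Pool.Agent.Helper17 Pool.Agent.Helper42 Pool.Agent.H42.Hull

/-- The infinitesimal version: if `X` is `ω`-orthogonal to the kernels of `DF` then for `a`, `b` in
the kernel `ω (DX a) b = ω (DX b) a`.  Only `St_lin1` is used. -/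
lemma hor_infinitesimal (h1 : St_lin1) {N k : ℕ} {F : Phase N → Phase k} {X : Phase N → Phase N}
    (hF : ContDiff ℝ ∞ F) (hX : Differentiable ℝ X) (hT : ∀ x, TameL (fderiv ℝ F x))
    (hker : ∀ x v, fderiv ℝ F x v = 0 → omegaStd (X x) v = 0) (x a b : Phase N)
    (ha : fderiv ℝ F x a = 0) (hb : fderiv ℝ F x b = 0) :
    omegaStd (fderiv ℝ X x a) b = omegaStd (fderiv ℝ X x b) a := by
  set D : Phase N → Phase N →L[ℝ] Phase k := fderiv ℝ F with hD
  have hDs : ContDiff ℝ ∞ D := hF.fderiv_right (by simp)
  have hDd : HasFDerivAt D (fderiv ℝ D x) x := (hDs.differentiable (by simp) x).hasFDerivAt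
  -- the form `ω (X y) = lam y ∘ D y`
  set lam : Phase N → Phase k →L[ℝ] ℝ := fun y => (omegaB N (X y)).comp (hl (D y)) with hlam
  have hspec : ∀ y w, omegaB N (X y) w = lam y (D y w) := by
    intro y w
    have e1 : D y (w - hl (D y) (D y w)) = 0 := by
      rw [map_sub, (h1 N k (D y) (hT y)).1, sub_self]
    have e2 : omegaB N (X y) (w - hl (D y) (D y w)) = 0 := by
      rw [omegaB_apply]
      exact hker y _ e1
    rw [map_sub, sub_eq_zero] at e2
    rw [e2]
    rfl
  have hXx : HasFDerivAt X (fderiv ℝ X x) x := (hX x).hasFDerivAt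
  have hBx : HasFDerivAt (fun y => omegaB N (X y)) ((omegaB N).comp (fderiv ℝ X x)) x :=
    (omegaB N).hasFDerivAt.comp x hXx
  have hlx : DifferentiableAt ℝ (fun y => hl (D y)) x := by
    have e1 : DifferentiableAt ℝ (fun B : Phase N →L[ℝ] Phase k => hl B) (D x) :=
      (h1 N k (D x) (hT x)).2.2.2.2.1.differentiableAt (by simp)
    exact e1.comp x hDd.differentiableAt
  have hlamd : HasFDerivAt lam (fderiv ℝ lam x) x :=
    (hBx.differentiableAt.clm_comp hlx).hasFDerivAt
  have key : ∀ a b, D x b = 0 → omegaStd (fderiv ℝ X x a) b = lam x (fderiv ℝ D x a b) := by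
    intro a b hb
    have e1 : HasFDerivAt (fun y => D y b) ((fderiv ℝ D x).flip b) x := by
      have := hDd.clm_apply (hasFDerivAt_const b x)
      simpa using this
    have e2 : HasFDerivAt (fun y => omegaB N (X y) b) (((omegaB N).comp (fderiv ℝ X x)).flip b)
        x := by
      have := hBx.clm_apply (hasFDerivAt_const b x)
      simpa using this
    have e3 : HasFDerivAt (fun y => lam y (D y b)) ((lam x).comp ((fderiv ℝ D x).flip b) +
        (fderiv ℝ lam x).flip (D x b)) x := hlamd.clm_apply e1
    have e4 : (fun y => omegaB N (X y) b) = fun y => lam y (D y b) := funext fun y => hspec y b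
    rw [e4] at e2
    have e5 := congrArg (fun L : Phase N →L[ℝ] ℝ => L a) (e2.unique e3)
    simp only [ContinuousLinearMap.comp_apply, ContinuousLinearMap.flip_apply,
      omegaB_apply, hb, map_zero, add_zero] at e5
    exact e5
  have hsymm : fderiv ℝ D x a b = fderiv ℝ D x b a :=
    (hF.contDiffAt (x := x)).isSymmSndFDerivAt
      (by rw [minSmoothness_of_isRCLikeNormedField]; exact WithTop.coe_le_coe.2 le_top) a b
  rw [key a b hb, key b a ha, hsymm]

/-- HOR.  The hypothesis is `St_lin1`. -/
theorem thm_hor (h1 : St_lin1) : St_hor := by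
  intro N k F X r A hF hX hT hker hr hA u v hu hv
  set h : ℝ → ℝ := fun s => omegaStd (A s u) (A s v) with hh
  have hder : ∀ s ∈ Icc (0 : ℝ) 1, HasDerivAt h 0 s := by
    intro s hs
    have hav : HasDerivAt (fun s => A s u) (fderiv ℝ (X s) (r s) (A s u)) s := by
      have := (hA s hs).clm_apply (hasDerivAt_const s u)
      simpa using this
    have hbv : HasDerivAt (fun s => A s v) (fderiv ℝ (X s) (r s) (A s v)) s := by
      have := (hA s hs).clm_apply (hasDerivAt_const s v)
      simpa using this
    have e1 : HasDerivAt h (omegaStd (fderiv ℝ (X s) (r s) (A s u)) (A s v) +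
        omegaStd (A s u) (fderiv ℝ (X s) (r s) (A s v))) s :=
      ((omegaB N).hasFDerivAt.comp_hasDerivAt s hav).clm_apply hbv
    refine e1.congr_deriv ?_
    rw [hor_infinitesimal h1 (hF s) (hX s) (hT s hs) (hker s hs) (r s) (A s u) (A s v)
      (hu s hs) (hv s hs), omegaStd_swap (A s u)]
    ring
  have hconst := (convex_Icc (0 : ℝ) 1).norm_image_sub_le_of_norm_hasDerivWithin_le
    (f := h) (f' := fun _ => 0) (C := 0) (fun t ht => (hder t ht).hasDerivWithinAt)
    (fun t _ => by simp) (left_mem_Icc.2 zero_le_one) (right_mem_Icc.2 zero_le_one)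
  rw [zero_mul, norm_le_zero_iff, sub_eq_zero] at hconst
  exact hconst

end Pool.Agent.KRW
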