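import Mathlib
import Pool.Agent.KRW.St
import Pool.Agent.KRW.Split

/-!
# LEX: a family of rows with null-homotopic scattering has a lift

`thm_lEx : St_lEx`, from `St_trivia`, `St_scVal`, `St_scEx`, `St_scUn`, `St_box`, `St_smo` and
`St_ul`.  The space `D` of the side coordinates is the hyperplane `Hyp k` of `Phase (k + 1)` where
the coordinate `y_0` is zero.
-/

set_option maxSynthPendingDepth 3

open scoped ContDiff Topology unitInterval
open Set Function TopologicalSpace Filter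

namespace Pool.Agent.KRW

open Pool.Agent.Helper17 Pool.Agent.Helper42 Pool.Agent.H42.Hull

namespace LEX

/-- The hyperplane of the side coordinates. -/
def Hyp (k : ℕ) : Submodule ℝ (Phase (k + 1)) where
  carrier := {b | b (Sum.inr 0) = 0}
  add_mem' := by
    intro a b ha hb
    change (a + b) (Sum.inr 0) = 0
    have ha' : a (Sum.inr 0) = 0 := ha
    have hb' : b (Sum.inr 0) = 0 := hb
    rw [PiLp.add_apply, ha', hb', add_zero]
  zero_mem' := rfl
  smul_mem' := by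
    intro c a ha
    change (c • a) (Sum.inr 0) = 0
    have ha' : a (Sum.inr 0) = 0 := ha
    rw [PiLp.smul_apply, ha', smul_zero]

variable {m k : ℕ}

lemma Hyp.inr (d : Hyp k) : (d : Phase (k + 1)) (Sum.inr 0) = 0 := d.2

lemma sideB_add (p q : Phase (m + (k + 1))) : sideB (p + q) = sideB p + sideB q := by
  rw [sideB, sideB, sideB, map_add, yB_add, add_smul]
  abel

lemma sideB_smul (c : ℝ) (p : Phase (m + (k + 1))) : sideB (c • p) = c • sideB p := by
  rw [sideB, sideB, map_smul, yB_smul, smul_sub, mul_smul]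

lemma sideB_mkB (d : Hyp k) (w : Phase m) :
    sideB (mkB m (k + 1) (d : Phase (k + 1)) w) = d := by
  rw [sideB, yB_mkB, Hyp.inr, zero_smul, sub_zero, mkB, map_add, prK_incK, prK_incW, add_zero]

lemma prW_mkB' (b : Phase k) (w : Phase m) : prW m k (mkB m k b w) = w := by
  rw [mkB, map_add, prW_incK, prW_incW, zero_add]

lemma prK_mkB' (b : Phase k) (w : Phase m) : prK m k (mkB m k b w) = b := by
  rw [mkB, map_add, prK_incK, prK_incW, add_zero]

/-- The side coordinates, `y_0`, and the last coordinates. -/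
noncomputable def spl (m k : ℕ) : Phase (m + (k + 1)) →L[ℝ] (Hyp k × ℝ) × Phase m :=
  LinearMap.toContinuousLinearMap
    { toFun := fun p => ((⟨sideB p, sideB_inr p⟩, yB p), prW m (k + 1) p)
      map_add' := fun p q =>
        Prod.ext (Prod.ext (Subtype.ext (sideB_add p q)) (yB_add p q)) (map_add _ _ _)
      map_smul' := fun c p =>
        Prod.ext (Prod.ext (Subtype.ext (sideB_smul c p)) (yB_smul c p)) (map_smul _ _ _) }

lemma spl_apply (p : Phase (m + (k + 1))) :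
    spl m k p = ((⟨sideB p, sideB_inr p⟩, yB p), prW m (k + 1) p) := rfl

lemma spl_incW (v : Phase m) : spl m k (incW m (k + 1) v) = ((0, 0), v) := by
  rw [spl_apply]
  refine Prod.ext (Prod.ext (Subtype.ext ?_) (yB_incW v)) (prW_incW v)
  change sideB (incW m (k + 1) v) = 0
  rw [sideB, yB_incW, zero_smul, sub_zero, prK_incW]

lemma fderiv_spl {W : (Hyp k × ℝ) × Phase m → Phase m} (hW : Differentiable ℝ W)
    (p : Phase (m + (k + 1))) (v : Phase m) : fderiv ℝ (fun p => W (spl m k p)) p (incW m (k + 1) v) =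
      fderiv ℝ (fun w' => W ((spl m k p).1, w')) (prW m (k + 1) p) v := by
  have h1 : HasFDerivAt (fun p => W (spl m k p))
      ((fderiv ℝ W (spl m k p)).comp (spl m k)) p :=
    (hW (spl m k p)).hasFDerivAt.comp p (spl m k).hasFDerivAt
  have h2 : HasFDerivAt (fun w' : Phase m => W ((spl m k p).1, w'))
      ((fderiv ℝ W ((spl m k p).1, prW m (k + 1) p)).comp
        (ContinuousLinearMap.inr ℝ (Hyp k × ℝ) (Phase m))) (prW m (k + 1) p) :=
    (hW ((spl m k p).1, prW m (k + 1) p)).hasFDerivAt.comp (prW m (k + 1) p)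
      (hasFDerivAt_prodMk_right (spl m k p).1 (prW m (k + 1) p))
  rw [h1.fderiv, h2.fderiv]
  change fderiv ℝ W (spl m k p) (spl m k (incW m (k + 1) v)) =
    fderiv ℝ W ((spl m k p).1, prW m (k + 1) p) (0, v)
  rw [spl_incW]
  rfl

/-- The map to the parameters of the homotopy. -/
noncomputable def par {T : Type} (ρ : ℝ) (q : T × (Hyp k × ℝ)) : I × ((T × Bx k) × I) :=
  (projIcc 0 1 zero_le_one q.2.2,
    ((q.1, (clB ρ (q.2.1 : Phase (k + 1))).1), (clB ρ (q.2.1 : Phase (k + 1))).2.1))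

lemma continuous_par {T : Type} [TopologicalSpace T] {ρ : ℝ}
    (hc : Continuous (clB ρ : Phase (k + 1) → Bx k × (I × I))) :
    Continuous (par ρ : T × (Hyp k × ℝ) → I × ((T × Bx k) × I)) := by
  have h1 : Continuous fun q : T × (Hyp k × ℝ) => clB ρ (q.2.1 : Phase (k + 1)) :=
    hc.comp (continuous_subtype_val.comp (continuous_fst.comp continuous_snd))
  have h2 : Continuous fun q : T × (Hyp k × ℝ) => projIcc (0 : ℝ) 1 zero_le_one q.2.2 :=
    continuous_projIcc.comp (continuous_snd.comp continuous_snd)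
  exact h2.prodMk ((continuous_fst.prodMk (continuous_fst.comp h1)).prodMk
    (continuous_fst.comp (continuous_snd.comp h1)))

end LEX

open LEX

theorem thm_lEx (h1 : St_trivia) (h2 : St_scVal) (h3 : St_scEx) (h4 : St_scUn) (h5 : St_box)
    (h6 : St_smo) (h7 : St_ul) : St_lEx := by
  intro m k T _ _ T0 R F hR hF hT0 e he hnull
  obtain ⟨R', Ξ, Θ, E, hR', hE⟩ := h1 m k T R F hR hF
  obtain ⟨ρ₀, hρ₀, hsc⟩ := h3 m k T R F hR hF
  obtain ⟨ρ, hρR, hρ₀'⟩ : ∃ ρ : ℝ, R' ≤ ρ ∧ ρ₀ ≤ ρ := ⟨max R' ρ₀, le_max_left _ _, le_max_right _ _⟩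
  have hρ0 : 0 < ρ := lt_of_lt_of_le hρ₀ hρ₀'
  obtain ⟨e', he', -, -⟩ := hsc ρ hρ₀'
  obtain ⟨ρe, hρe, heat⟩ := he
  obtain ⟨hhom, -⟩ := h4 m k T T0 R F hR hF hT0 ρe ρ e e' hρe hρ0 heat he'
  obtain ⟨-, he1'⟩ := h4 m k T T0 R F hR hF hT0 ρ ρ e' e' hρ0 hρ0 he' he'
  have hnull' : (ContinuousMap.const _ 1).HomotopicRel e' (bdE k T0) := hnull.symm.trans hhom
  obtain ⟨h⟩ := hnull'
  have hval := h2 m k T R' ρ F Ξ Θ E e' hρ0 hE he'
  obtain ⟨hb1, -, hb3, -, hb5, hb6, -, -, -⟩ := h5 k ρ hρ0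
  have hh0 : ∀ q, h (0, q) = 1 := fun q => h.apply_zero q
  have hh1 : ∀ q, h (1, q) = e' q := fun q => h.apply_one q
  have hhr : ∀ y, ∀ q ∈ bdE k T0, h (y, q) = 1 := fun y q hq => h.eq_fst y hq
  have hinv : Continuous (fun q : I × ((T × Bx k) × I) => (h q)⁻¹) :=
    continuous_inv_family h.continuous
  obtain ⟨hG, K, hK⟩ := CF_of_continuous hinv
  obtain ⟨r, hr⟩ := K.isCompact.isBounded.exists_norm_le
  -- the family `u`
  set u : T × (Hyp k × ℝ) → Phase m → Phase m :=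
    fun q w => ((h (par ρ q))⁻¹ : SympCt m).1 w with hu
  have hucf : CF u := hG.base (continuous_par hb1)
  set E' : T → Hyp k × Phase m → Phase m :=
    fun t q => E t (mkB m (k + 1) (q.1 : Phase (k + 1)) q.2) with hE'
  have hE'cf : CF E' := by
    apply hE.fam.cf.comp
    apply CF.const
    exact contDiff_mkB ((Hyp k).subtypeL.contDiff.comp contDiff_fst) contDiff_snd
  obtain ⟨ρ', hρ'0, hρ'r, hρ'R⟩ : ∃ ρ' : ℝ, 0 ≤ ρ' ∧ r ≤ ρ' ∧ R' ≤ ρ' :=
    ⟨max 0 (max r R'), le_max_left _ _, (le_max_left _ _).trans (le_max_right _ _),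
      (le_max_right _ _).trans (le_max_right _ _)⟩
  have hu1 : ∀ q w, ρ' < ‖w‖ → u q w = w := by
    intro q w hw
    apply hK
    intro hwK
    have := hr w hwK
    linarith
  have hE'1 : ∀ t d w, ρ' < ‖w‖ → E' t (d, w) = w := by
    intro t d w hw
    rw [hE']
    change E t (mkB m (k + 1) (d : Phase (k + 1)) w) = w
    rw [hE.fam.std, prW_mkB']
    rw [prW_mkB']
    linarith
  have hu2 : ∀ q w a b, omegaStd (fderiv ℝ (u q) w a) (fderiv ℝ (u q) w b) = omegaStd a b :=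
    fun q w a b => ((h (par ρ q))⁻¹ : SympCt m).2.2.2.1 w a b
  have hbd : ∀ (t : T) (d : Hyp k) (y : ℝ), (∃ i, ρ ≤ |(d : Phase (k + 1)) i|) →
      (par ρ (t, (d, y))).2 ∈ bdE k T0 := by
    rintro t d y ⟨i, hi⟩
    have hi0 : i ≠ Sum.inr 0 := by
      rintro rfl
      rw [Hyp.inr, abs_zero] at hi
      linarith
    rcases hb5 d ⟨i, hi0, hi⟩ with h8 | h8
    · exact Or.inl (Or.inr h8)
    · exact Or.inr h8
  have hu3 : ∀ t d y w, Real.sqrt (2 * k + 2) * ρ < ‖d‖ → u (t, (d, y)) w = w := by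
    intro t d y w hd
    have h8 : ∃ i, ρ ≤ |(d : Phase (k + 1)) i| := by
      rcases hb6 d with h8 | h8
      · exact absurd h8 (not_le.2 hd)
      · exact h8
    change ((h ((par ρ (t, (d, y))).1, (par ρ (t, (d, y))).2))⁻¹ : SympCt m).1 w = w
    rw [hhr _ _ (hbd t d y h8), inv_one]
    rfl
  have hu4 : ∀ t d y w, y ≤ 0 → u (t, (d, y)) w = w := by
    intro t d y w hy
    change ((h (projIcc 0 1 zero_le_one y, (par ρ (t, (d, y))).2))⁻¹ : SympCt m).1 w = w
    rw [projIcc_of_le_left _ hy]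
    change ((h (0, (par ρ (t, (d, y))).2))⁻¹ : SympCt m).1 w = w
    rw [hh0, inv_one]
    rfl
  have hu5 : ∀ t d y w, 1 ≤ y → u (t, (d, y)) w = E' t (d, w) := by
    intro t d y w hy
    change ((h (projIcc 0 1 zero_le_one y, (par ρ (t, (d, y))).2))⁻¹ : SympCt m).1 w =
      E t (mkB m (k + 1) (d : Phase (k + 1)) w)
    rw [projIcc_of_right_le _ hy]
    change ((h (1, (par ρ (t, (d, y))).2))⁻¹ : SympCt m).1 w = _
    rw [hh1]
    by_cases h8 : ∃ i, ρ ≤ |(d : Phase (k + 1)) i|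
    · rw [he1' _ (hbd t d y h8), inv_one, hE.exit_side, prW_mkB']
      · rfl
      · rw [sideB_mkB]
        obtain ⟨i, hi⟩ := h8
        have h9 : |(d : Phase (k + 1)) i| ≤ ‖(d : Phase (k + 1))‖ := by
          rw [← Real.norm_eq_abs]
          exact PiLp.norm_apply_le _ _
        linarith
    · have h9 : ∀ i, |(d : Phase (k + 1)) i| ≤ ρ := fun i => by
        by_contra h10
        exact h8 ⟨i, (not_le.1 h10).le⟩
      have h10 := hval t (clB ρ (d : Phase (k + 1))).1 (clB ρ (d : Phase (k + 1))).2.1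
        (clB ρ (d : Phase (k + 1))).2.2 w
      rw [hb3 d h9] at h10
      have h11 := SympCt.inv_apply_self (e' ((par ρ (t, (d, y))).2))
        (E t (mkB m (k + 1) (d : Phase (k + 1)) w))
      rw [← h11]
      congr 1
      exact h10.symm
  obtain ⟨B, W, hB1, hWcf, hW1, hW2, hW3, hW4, hW5⟩ := h6 m (Hyp k) T u E'
    (Real.sqrt (2 * k + 2) * ρ) ρ' (by positivity) hρ'0 hucf hE'cf hu1 hE'1 hu2 hu3 hu4 hu5
  obtain ⟨R₁, hR1R, hR1B, hR1ρ⟩ : ∃ R₁ : ℝ, R' ≤ R₁ ∧ B ≤ R₁ ∧ ρ' ≤ R₁ :=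
    ⟨max R' (max B ρ'), le_max_left _ _, (le_max_left _ _).trans (le_max_right _ _),
      (le_max_right _ _).trans (le_max_right _ _)⟩
  set U : T → Phase (m + (k + 1)) → Phase m := fun t p => W t (spl m k p) with hU
  have hUfam : VFam m (k + 1) R₁ U := by
    refine ⟨?_, ?_, ?_⟩
    · exact hWcf.comp (CF.const (spl m k).contDiff)
    · intro t p hp
      change W t (((⟨sideB p, sideB_inr p⟩, yB p) : Hyp k × ℝ), prW m (k + 1) p) = _
      exact hW1 _ _ _ (by linarith)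
    · intro t p v w
      rw [fderiv_spl (hWcf.differentiable t), fderiv_spl (hWcf.differentiable t)]
      exact hW2 _ _ _ _ _
  have hU1 : ∀ t p, (yB p ≤ -R₁ ∨ R₁ ≤ ‖sideB p‖) → U t p = prW m (k + 1) p := by
    intro t p hp
    change W t (((⟨sideB p, sideB_inr p⟩, yB p) : Hyp k × ℝ), prW m (k + 1) p) = _
    apply hW3
    rcases hp with hp | hp
    · right
      linarith
    · left
      exact hR1B.trans hp
  have hU2 : ∀ t p, R₁ ≤ yB p → U t p = E t p := by
    intro t p hp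
    change W t (((⟨sideB p, sideB_inr p⟩, yB p) : Hyp k × ℝ), prW m (k + 1) p) = _
    rw [hW4 _ _ _ _ (by linarith)]
    change E t (mkB m (k + 1) (sideB p) (prW m (k + 1) p)) = E t p
    rw [← hE.exit t _ (yB p)]
    congr 1
    rw [mkB, sideB, map_sub, map_smul]
    have h8 := split_eta (m := m) (k := k + 1) p
    calc _ = incK m (k + 1) (prK m (k + 1) p) + incW m (k + 1) (prW m (k + 1) p) := by abel
      _ = p := h8
  obtain ⟨R₂, hR₂, hΦ, hid⟩ := h7 m k T R R' R₁ F Ξ Θ E U hR hF hR'.le hE hR1R hUfam hU1 hU2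
  refine ⟨R₂, _, hR₂, hΦ, fun t p => prK_mkB' _ _, fun t ht => ?_⟩
  apply hid t (hT0 t ht)
  intro p
  apply hW5
  intro q w
  change ((h ((par ρ (t, q)).1, (par ρ (t, q)).2))⁻¹ : SympCt m).1 w = w
  have h8 : (par ρ (t, q)).2 ∈ bdE k T0 := Or.inl (Or.inl ht)
  rw [hhr _ _ h8, inv_one]
  rfl

end Pool.Agent.KRW
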