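import Mathlib
import Pool.Agent.KRW.St
import Pool.Agent.KRW.Split

/-!
# LI1: linear algebra of `J`-positive linear maps and their horizontal lifts
-/

set_option maxSynthPendingDepth 3

open scoped ContDiff Topology unitInterval
open Set Function TopologicalSpace Filter

namespace Pool.Agent.KRW

open Pool.Agent.Helper17 Pool.Agent.Helper42 Pool.Agent.H42.Hull

private lemma li1_sub {N : ℕ} (a b v : Phase N) :
    omegaStd (a - b) v = omegaStd a v - omegaStd b v := by
  have h := congrArg (fun L => L v) (map_sub (omegaB N) a b)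
  exact h

private lemma li1_add_right {N : ℕ} (v a b : Phase N) :
    omegaStd v (a + b) = omegaStd v a + omegaStd v b :=
  map_add (omegaB N v) a b

private lemma li1_omega {N k : ℕ} (A : Phase N →L[ℝ] Phase k) (ξ : Phase k) (x : Phase N) :
    omegaStd (hamL A ξ) x = -inner ℝ ξ (A x) := by
  rw [omegaStd_eq_inner]
  change inner ℝ (Jl N (Jl N (ContinuousLinearMap.adjoint A ξ))) x = _
  rw [Jl_Jl, inner_neg_left, ContinuousLinearMap.adjoint_inner_left]

private lemma li1_inj {N k : ℕ} {A : Phase N →L[ℝ] Phase k} (hA : TameL A) :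
    Injective (A.comp (hamL A)) := by
  rw [injective_iff_map_eq_zero]
  intro ξ h
  by_contra hne
  have h1 := hA ξ hne
  have h2 : A (hamL A ξ) = 0 := h
  rw [h2, inner_zero_right] at h1
  exact lt_irrefl _ h1

private lemma li1_inv {N k : ℕ} {A : Phase N →L[ℝ] Phase k} (hA : TameL A) (u : Phase k) :
    A (hamL A (ContinuousLinearMap.inverse (A.comp (hamL A)) u)) = u := by
  have h2 : ContinuousLinearMap.inverse (A.comp (hamL A)) =
      ((cleOfInjective (A.comp (hamL A)) (li1_inj hA)).symm : Phase k →L[ℝ] Phase k) := by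
    have h3 := ContinuousLinearMap.inverse_equiv
      (cleOfInjective (A.comp (hamL A)) (li1_inj hA))
    rw [coe_cleOfInjective] at h3
    exact h3
  rw [h2]
  exact (cleOfInjective (A.comp (hamL A)) (li1_inj hA)).apply_symm_apply u

private lemma li1_skew {k : ℕ} (ξ u : Phase k) :
    (inner ℝ ξ (Jl k u) : ℝ) = -inner ℝ (Jl k ξ) u := by
  rw [real_inner_comm, ← omegaStd_eq_inner, ← omegaStd_eq_inner, omegaStd_swap]

/-- The adjoint, as a linear map. -/
private noncomputable def li1_adj (N k : ℕ) :
    (Phase N →L[ℝ] Phase k) →L[ℝ] (Phase k →L[ℝ] Phase N) :=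
  LinearMap.mkContinuous
    { toFun := fun B => ContinuousLinearMap.adjoint B
      map_add' := fun x y => map_add _ x y
      map_smul' := fun c x => by
        rw [map_smulₛₗ]
        rfl } 1 (fun B => by
      rw [one_mul]
      exact (LinearIsometryEquiv.norm_map _ _).le)

private lemma li1_hamL_contDiff (N k : ℕ) :
    ContDiff ℝ ∞ (fun B : Phase N →L[ℝ] Phase k => hamL B) := by
  have h : (fun B : Phase N →L[ℝ] Phase k => hamL B) = fun B =>
      (LinearMap.toContinuousLinearMap (Jl N)).comp (li1_adj N k B) := rfl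
  rw [h]
  exact contDiff_const.clm_comp (li1_adj N k).contDiff

private lemma li1_hl_contDiffAt {N k : ℕ} {A : Phase N →L[ℝ] Phase k} (hA : TameL A) :
    ContDiffAt ℝ ∞ (fun B : Phase N →L[ℝ] Phase k => hl B) A := by
  have h1 : ContDiffAt ℝ ∞ (fun B : Phase N →L[ℝ] Phase k => hamL B) A :=
    (li1_hamL_contDiff N k).contDiffAt
  have h2 : ContDiffAt ℝ ∞ (fun B : Phase N →L[ℝ] Phase k => B.comp (hamL B)) A :=
    contDiffAt_id.clm_comp h1
  have h3 : ContDiffAt ℝ ∞ (ContinuousLinearMap.inverse :
      (Phase k →L[ℝ] Phase k) → (Phase k →L[ℝ] Phase k)) (A.comp (hamL A)) := by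
    have h4 := contDiffAt_map_inverse (𝕜 := ℝ) (n := ∞)
      (cleOfInjective (A.comp (hamL A)) (li1_inj hA))
    rw [coe_cleOfInjective] at h4
    exact h4
  have h5 : ContDiffAt ℝ ∞ (fun B : Phase N →L[ℝ] Phase k =>
      ContinuousLinearMap.inverse (B.comp (hamL B))) A :=
    ContDiffAt.comp (f := fun B : Phase N →L[ℝ] Phase k => B.comp (hamL B))
      (g := (ContinuousLinearMap.inverse : (Phase k →L[ℝ] Phase k) → (Phase k →L[ℝ] Phase k)))
      A h3 h2
  exact h1.clm_comp h5

theorem thm_lin1 : St_lin1 := by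
  intro N k A hA
  have h1 : ∀ u, A (hl A u) = u := fun u => li1_inv hA u
  have h2 : ∀ u v, A v = 0 → omegaStd (hl A u) v = 0 := by
    intro u v hv
    change omegaStd (hamL A (ContinuousLinearMap.inverse (A.comp (hamL A)) u)) v = 0
    rw [li1_omega, hv, inner_zero_right, neg_zero]
  have h3 : ∀ x, (∀ v, A v = 0 → omegaStd x v = 0) → x = hl A (A x) := by
    intro x hx
    apply sub_eq_zero.1
    apply eq_zero_of_omegaStd
    intro v
    have hy : A (x - hl A (A x)) = 0 := by rw [map_sub, h1, sub_self]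
    have hv : A (v - hl A (A v)) = 0 := by rw [map_sub, h1, sub_self]
    have h4 : omegaStd (x - hl A (A x)) (v - hl A (A v)) = 0 := by
      rw [li1_sub, hx _ hv, h2 _ _ hv, sub_zero]
    have h5 : omegaStd (x - hl A (A x)) (hl A (A v)) = 0 := by
      rw [omegaStd_swap, h2 _ _ hy, neg_zero]
    have h6 := li1_add_right (x - hl A (A x)) (v - hl A (A v)) (hl A (A v))
    rw [sub_add_cancel, h4, h5, add_zero] at h6
    exact h6
  refine ⟨h1, h2, h3, ?_, li1_hl_contDiffAt hA, ?_⟩
  · intro u hu
    have h4 : A (hamL A (ContinuousLinearMap.inverse (A.comp (hamL A)) u)) = u := li1_inv hA u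
    have h5 : ContinuousLinearMap.inverse (A.comp (hamL A)) u ≠ 0 := by
      intro h
      apply hu
      rw [← h4, h, map_zero, map_zero]
    have h6 := hA _ h5
    rw [h4] at h6
    change 0 < omegaStd (hamL A (ContinuousLinearMap.inverse (A.comp (hamL A)) u))
      (hl A (Jl k u))
    rw [li1_omega, h1, li1_skew, neg_neg]
    exact h6
  · intro v hv hw
    have h4 := h3 v hw
    rw [hv, map_zero] at h4
    exact h4

theorem thm_jposTame : St_jposTame := by
  intro N k F hF
  have h1 : ∀ p (u : Phase k), Pool.Agent.H50.Susp.hamV (fun q => inner ℝ u (F q)) p =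
      hamL (fderiv ℝ F p) u := by
    intro p u
    apply sub_eq_zero.1
    apply eq_zero_of_omegaStd
    intro v
    rw [li1_sub, Pool.Agent.H50.Susp.omegaStd_hamV, li1_omega, fderiv_inner_comp (hF p)]
    exact sub_self _
  have h2 : ∀ p (u : Phase k), fderiv ℝ (fun q => inner ℝ (Jl k u) (F q)) p
      (Pool.Agent.H50.Susp.hamV (fun q => inner ℝ u (F q)) p) =
      inner ℝ (Jl k u) (fderiv ℝ F p (hamL (fderiv ℝ F p) u)) := by
    intro p u
    rw [h1, fderiv_inner_comp (hF p)]
    rfl
  unfold JPos TameL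
  simp only [h2]

theorem thm_hlStd : St_hlStd := by
  intro m k
  have h1 : TameL (prK m k) := by
    have h2 := (thm_jposTame (m + k) k (fun p => prK m k p) (prK m k).differentiable).1
      (jPos_prK m k) 0
    have h3 : fderiv ℝ (fun p => prK m k p) (0 : Phase (m + k)) = prK m k :=
      (prK m k).fderiv
    rw [h3] at h2
    exact h2
  refine ⟨h1, ?_⟩
  ext1 u
  have h4 := (thm_lin1 (m + k) k (prK m k) h1).2.2.1 (incK m k u) (fun v hv => by
    rw [eq_incW_of_prK hv, omegaStd_incK_incW])
  rw [prK_incK] at h4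
  exact h4.symm

end Pool.Agent.KRW
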