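import Mathlib
import Pool.Agent.KRW.St
import Pool.Agent.KRW.Split

/-!
# LI2: tame linear maps and fibrewise symplectic linear maps

`thm_lin2 : St_lin2`, `thm_htame : St_lin1 → St_htame` (`St_lin2` is used inside).
-/

set_option maxSynthPendingDepth 3

open scoped ContDiff Topology unitInterval
open Set Function TopologicalSpace Filter

namespace Pool.Agent.KRW

open Pool.Agent.Helper17 Pool.Agent.Helper42 Pool.Agent.H42.Hull

lemma li2_omega_hamL {N k : ℕ} (A : Phase N →L[ℝ] Phase k) (ξ : Phase k) (x : Phase N) :
    omegaStd (hamL A ξ) x = -inner ℝ ξ (A x) := by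
  have h1 : hamL A ξ = Jl N (ContinuousLinearMap.adjoint A ξ) := rfl
  rw [h1, omegaStd_eq_inner, Jl_Jl, inner_neg_left, ContinuousLinearMap.adjoint_inner_left]

lemma li2_inner_Jl {k : ℕ} (ξ u : Phase k) :
    (inner ℝ (Jl k ξ) u : ℝ) = -inner ℝ ξ (Jl k u) := by
  rw [← omegaStd_eq_inner, omegaStd_swap, omegaStd_eq_inner, real_inner_comm]

theorem thm_lin2 : St_lin2 := by
  intro N k A h h1 h2 h3 ξ hξ
  obtain ⟨x, hx⟩ : ∃ x, x = hamL A ξ := ⟨_, rfl⟩
  have hω : ∀ v, omegaStd x v = -inner ℝ ξ (A v) := fun v => by rw [hx, li2_omega_hamL]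
  have hker : ∀ v, A (v - h (A v)) = 0 := fun v => by rw [map_sub, h1, sub_self]
  have hdec : ∀ (y : Phase N), (∀ v, A v = 0 → omegaStd y v = 0) → (∀ u, omegaStd y (h u) = 0) →
      y = 0 := by
    intro y hy1 hy2
    apply eq_zero_of_omegaStd
    intro v
    have e1 : v = (v - h (A v)) + h (A v) := by rw [sub_add_cancel]
    rw [e1, omegaStd_add_right, hy1 _ (hker v), hy2, add_zero]
  have hxh : x = h (A x) := by
    have hy : x - h (A x) = 0 := by
      apply hdec
      · intro v hv
        rw [omegaStd_sub_left, hω, hv, inner_zero_right, neg_zero, h2 _ _ hv, sub_zero]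
      · intro u
        rw [omegaStd_swap, h2 _ _ (hker x), neg_zero]
    exact sub_eq_zero.1 hy
  have hAx : A x ≠ 0 := by
    intro h0
    have hx0 : x = 0 := by
      apply hdec
      · intro v hv
        rw [hω, hv, inner_zero_right, neg_zero]
      · intro u
        rw [omegaStd_swap, h2 _ _ h0, neg_zero]
    have h4 := hω (h ξ)
    rw [hx0, omegaStd_zero_left, h1] at h4
    have h5 : (inner ℝ ξ ξ : ℝ) = 0 := by linarith
    exact hξ (inner_self_eq_zero.1 h5)
  have h4 := h3 (A x) hAx
  rw [← hxh, hω, h1, ← li2_inner_Jl] at h4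
  rw [← hx]
  exact h4

theorem thm_htame (hl1 : St_lin1) : St_htame := by
  intro m k L M hML hLM
  have hker : ∀ v, prK m k (M v) = 0 → v = L (incW m k (prW m k (M v))) := by
    intro v hv
    rw [← eq_incW_of_prK hv, hLM]
  constructor
  · rintro ⟨hB1', hB2⟩
    have hB1 : ∀ w w' : Phase m, omegaStd (L (incW m k w)) (L (incW m k w')) = omegaStd w w' :=
      hB1'
    refine ⟨?_, ?_⟩
    · let X : Phase k → Phase m := fun u =>
        sharp m (-((omegaB (m + k) (L (incK m k u))).comp (L.comp (incW m k))))
      have hX : ∀ u w, omegaStd (X u) w = -omegaStd (L (incK m k u)) (L (incW m k w)) := by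
        intro u w
        change omegaStd (sharp m _) w = _
        rw [omegaStd_sharp]
        rfl
      have hX2 : ∀ u w, omegaStd (L (incK m k u + incW m k (X u))) (L (incW m k w)) = 0 := by
        intro u w
        rw [map_add, omegaStd_add_left, hB1, hX, add_neg_cancel]
      have hpr : ∀ u, prK m k (incK m k u + incW m k (X u)) = u := by
        intro u
        rw [map_add, prK_incK, prK_incW, add_zero]
      apply thm_lin2 (m + k) k _ (fun u => L (incK m k u + incW m k (X u)))
      · intro u
        change prK m k (M (L (incK m k u + incW m k (X u)))) = u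
        rw [hML, hpr]
      · intro u v hv
        rw [hker v hv]
        exact hX2 u _
      · intro u hu
        apply hB2
        · exact hX2 u
        · exact hX2 _
        · rw [hpr]
          exact hu
        · rw [hpr, hpr]
    · intro u v hu hv
      conv_rhs => rw [hker u hu, hker v hv]
      exact (hB1 _ _).symm
  · rintro ⟨hA, hS⟩
    obtain ⟨-, -, h3, h4, -⟩ := hl1 (m + k) k _ hA
    refine ⟨?_, ?_⟩
    · intro w w'
      have h5 : ∀ w, M (L (incW m k w)) = incW m k w := fun w => hML _
      have h6 := hS (L (incW m k w)) (L (incW m k w')) (by rw [h5, prK_incW])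
        (by rw [h5, prK_incW])
      rw [h5, h5, prW_incW, prW_incW] at h6
      exact h6.symm
    · intro x y hx hy hx0 hxy
      have hh : ∀ z, (∀ w, omegaStd (L z) (L (incW m k w)) = 0) →
          L z = hl ((prK m k).comp M) (prK m k z) := by
        intro z hz
        have h5 := h3 (L z) (fun v hv => by
          rw [hker v hv]
          exact hz _)
        have h6 : ((prK m k).comp M) (L z) = prK m k z := by
          change prK m k (M (L z)) = _
          rw [hML]
        rw [h6] at h5
        exact h5
      change 0 < omegaStd (L x) (L y)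
      rw [hh x hx, hh y hy, hxy]
      exact h4 _ hx0

end Pool.Agent.KRW
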