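import Mathlib
import Pool.Agent.KRW.St
import Pool.Agent.KRW.Split

/-!
# The exact sequence of `k`-rows, module LI3: scaling of forms which are tame on the horizontal
subspaces
-/

set_option maxSynthPendingDepth 3

open scoped ContDiff Topology unitInterval
open Set Function TopologicalSpace Filter

namespace Pool.Agent.KRW

open Pool.Agent.Helper17 Pool.Agent.Helper42 Pool.Agent.H42.Hull

namespace LI3

variable {m k : ℕ} (L : Phase (m + k) →L[ℝ] Phase (m + k))

/-- The difference of the form given by `L` and the standard form. -/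
noncomputable def cc (x y : Phase (m + k)) : ℝ := omegaStd (L x) (L y) - omegaStd x y

lemma cc_add_left (x x' y : Phase (m + k)) : cc L (x + x') y = cc L x y + cc L x' y := by
  rw [cc, cc, cc, map_add, omegaStd_add_left, omegaStd_add_left]
  ring

lemma cc_add_right (x y y' : Phase (m + k)) : cc L x (y + y') = cc L x y + cc L x y' := by
  rw [cc, cc, cc, map_add, omegaStd_add_right, omegaStd_add_right]
  ring

lemma cc_smul_left (c : ℝ) (x y : Phase (m + k)) : cc L (c • x) y = c * cc L x y := by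
  rw [cc, cc, map_smul, omegaStd_smul_left, omegaStd_smul_left]
  ring

lemma cc_smul_right (c : ℝ) (x y : Phase (m + k)) : cc L x (c • y) = c * cc L x y := by
  rw [cc, cc, map_smul, omegaStd_smul_right, omegaStd_smul_right]
  ring

lemma cc_swap (x y : Phase (m + k)) : cc L x y = -cc L y x := by
  rw [cc, cc, omegaStd_swap (L x), omegaStd_swap x]
  ring

lemma cc_zero_right (x : Phase (m + k)) : cc L x 0 = 0 := by
  have h := cc_smul_right L 0 x 0
  rwa [zero_smul, zero_mul] at h

lemma cc_zero_left (y : Phase (m + k)) : cc L 0 y = 0 := by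
  have h := cc_smul_left L 0 0 y
  rwa [zero_smul, zero_mul] at h

/-- The scaled form. -/
noncomputable def BB (r μ : ℝ) (x y : Phase (m + k)) : ℝ :=
  omegaStd x y + r * (omegaStd (L (sclB m k μ x)) (L (sclB m k μ y)) -
    omegaStd (sclB m k μ x) (sclB m k μ y))

lemma sclB_mk (μ : ℝ) (u : Phase k) (w : Phase m) :
    sclB m k μ (incK m k u + incW m k w) = μ • incK m k u + incW m k w := by
  change mkB m k (μ • prK m k (mkB m k u w)) (prW m k (mkB m k u w)) = _
  rw [prK_mkB, prW_mkB, mkB, map_smul]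

variable {L}

lemma BB_mk (hc : ∀ w w' : Phase m, cc L (incW m k w) (incW m k w') = 0) (r μ : ℝ)
    (u v : Phase k) (w w' : Phase m) :
    BB L r μ (incK m k u + incW m k w) (incK m k v + incW m k w') =
      omegaStd u v + omegaStd w w' + r * (μ ^ 2 * cc L (incK m k u) (incK m k v) +
        μ * cc L (incK m k u) (incW m k w') - μ * cc L (incK m k v) (incW m k w)) := by
  have h1 : BB L r μ (incK m k u + incW m k w) (incK m k v + incW m k w') =
      omegaStd (incK m k u + incW m k w) (incK m k v + incW m k w') +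
        r * cc L (μ • incK m k u + incW m k w) (μ • incK m k v + incW m k w') := by
    rw [BB, sclB_mk, sclB_mk, cc]
  rw [h1, cc_add_left, cc_add_right, cc_add_right, cc_smul_left, cc_smul_left, cc_smul_right,
    cc_smul_right, hc, cc_swap L (incW m k w) (incK m k v), omegaStd_add_left,
    omegaStd_add_right, omegaStd_add_right, omegaStd_incK, omegaStd_incW, omegaStd_incK_incW,
    omegaStd_incW_incK]
  ring

lemma BB_W (hc : ∀ w w' : Phase m, cc L (incW m k w) (incW m k w') = 0) (r μ : ℝ)
    (u : Phase k) (z w : Phase m) :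
    BB L r μ (incK m k u + incW m k z) (incW m k w) =
      omegaStd z w + r * μ * cc L (incK m k u) (incW m k w) := by
  have h := BB_mk hc r μ u 0 z w
  have h0 : omegaStd u 0 = 0 := by rw [omegaStd_swap, omegaStd_zero_left, neg_zero]
  rw [map_zero, zero_add, cc_zero_right, cc_zero_left, h0] at h
  rw [h]
  ring

lemma BB_one (x y : Phase (m + k)) : BB L 1 1 x y = omegaStd (L x) (L y) := by
  have h : ∀ x : Phase (m + k), sclB m k 1 x = x := by
    intro x
    rw [sclB, one_smul, mkB_eta]
  rw [BB, h, h]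
  ring

lemma exists_X (L : Phase (m + k) →L[ℝ] Phase (m + k)) (u : Phase k) :
    ∃ X : Phase m, ∀ w, omegaStd X w = -cc L (incK m k u) (incW m k w) := by
  refine ⟨sharp m (-(((innerSL ℝ) (Jl (m + k) (L (incK m k u)))).comp (L.comp (incW m k)))),
    fun w => ?_⟩
  rw [omegaStd_sharp, cc, omegaStd_incK_incW, sub_zero, omegaStd_eq_inner]
  rfl

/-- The horizontal vectors. -/
lemma eq_of_hor (hc : ∀ w w' : Phase m, cc L (incW m k w) (incW m k w') = 0) {r μ : ℝ}
    {u : Phase k} {z X : Phase m} (hX : ∀ w, omegaStd X w = -cc L (incK m k u) (incW m k w))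
    (h : ∀ w, BB L r μ (incK m k u + incW m k z) (incW m k w) = 0) : z = (r * μ) • X := by
  rw [← sub_eq_zero]
  apply eq_zero_of_omegaStd
  intro w
  have h1 := h w
  rw [BB_W hc] at h1
  rw [omegaStd_sub_left, omegaStd_smul_left, hX]
  linarith

lemma hor (hc : ∀ w w' : Phase m, cc L (incW m k w) (incW m k w') = 0) {r μ : ℝ}
    {u : Phase k} {X : Phase m} (hX : ∀ w, omegaStd X w = -cc L (incK m k u) (incW m k w))
    (w : Phase m) : BB L r μ (incK m k u + incW m k ((r * μ) • X)) (incW m k w) = 0 := by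
  rw [BB_W hc, omegaStd_smul_left, hX]
  ring

/-- The value of the form on horizontal vectors. -/
lemma BB_hor (hc : ∀ w w' : Phase m, cc L (incW m k w) (incW m k w') = 0) (r μ : ℝ)
    {u v : Phase k} {X Y : Phase m} (hX : ∀ w, omegaStd X w = -cc L (incK m k u) (incW m k w))
    (hY : ∀ w, omegaStd Y w = -cc L (incK m k v) (incW m k w)) :
    BB L r μ (incK m k u + incW m k ((r * μ) • X)) (incK m k v + incW m k ((r * μ) • Y)) =
      omegaStd u v + r * μ ^ 2 * (cc L (incK m k u) (incK m k v) - r * omegaStd X Y) := by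
  have h1 : cc L (incK m k u) (incW m k ((r * μ) • Y)) = -(r * μ * omegaStd X Y) := by
    have h := hX ((r * μ) • Y)
    rw [omegaStd_smul_right] at h
    linarith
  have h2 : cc L (incK m k v) (incW m k ((r * μ) • X)) = r * μ * omegaStd X Y := by
    have h := hY ((r * μ) • X)
    rw [omegaStd_smul_right, omegaStd_swap Y X] at h
    linarith
  rw [BB_mk hc, h1, h2, omegaStd_smul_left, omegaStd_smul_right]
  ring

lemma norm_X {a : ℝ} (ha : ‖L‖ ≤ a) {u : Phase k} {X : Phase m}
    (hX : ∀ w, omegaStd X w = -cc L (incK m k u) (incW m k w)) : ‖X‖ ≤ a ^ 2 * ‖u‖ := by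
  have ha0 : 0 ≤ a := (norm_nonneg L).trans ha
  have hL : ∀ x, ‖L x‖ ≤ a * ‖x‖ := fun x =>
    (L.le_opNorm x).trans (mul_le_mul_of_nonneg_right ha (norm_nonneg x))
  have h1 := hX (Jl m X)
  rw [omegaStd_Jl, cc, omegaStd_incK_incW, sub_zero] at h1
  have h2 := abs_omegaStd_le (L (incK m k u)) (L (incW m k (Jl m X)))
  have h3 := hL (incK m k u)
  have h4 := hL (incW m k (Jl m X))
  rw [norm_incK] at h3
  rw [norm_incW, norm_Jl] at h4
  have h5 : ‖L (incK m k u)‖ * ‖L (incW m k (Jl m X))‖ ≤ (a * ‖u‖) * (a * ‖X‖) :=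
    mul_le_mul h3 h4 (norm_nonneg _) (mul_nonneg ha0 (norm_nonneg _))
  have h6 : ‖X‖ ^ 2 ≤ (a ^ 2 * ‖u‖) * ‖X‖ := by
    have h7 := neg_le_of_abs_le (h2.trans h5)
    nlinarith
  rcases (norm_nonneg X).eq_or_lt with h0 | h0
  · rw [← h0]
    positivity
  · rw [pow_two] at h6
    exact le_of_mul_le_mul_right h6 h0

lemma norm_Om {a : ℝ} (ha : ‖L‖ ≤ a) {u v : Phase k} {X Y : Phase m}
    (hX : ∀ w, omegaStd X w = -cc L (incK m k u) (incW m k w))
    (hY : ∀ w, omegaStd Y w = -cc L (incK m k v) (incW m k w)) (huv : ‖v‖ = ‖u‖) :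
    |omegaStd X Y| ≤ a ^ 4 * ‖u‖ ^ 2 := by
  have h1 := norm_X ha hX
  have h2 := norm_X ha hY
  rw [huv] at h2
  calc |omegaStd X Y| ≤ ‖X‖ * ‖Y‖ := abs_omegaStd_le _ _
    _ ≤ (a ^ 2 * ‖u‖) * (a ^ 2 * ‖u‖) := mul_le_mul h1 h2 (norm_nonneg _) (by positivity)
    _ = a ^ 4 * ‖u‖ ^ 2 := by ring

/-- The inequality. -/
lemma ineq {P C Om a r μ : ℝ} (hP : 0 < P) (h0 : 0 < P + (C - Om)) (hOm : |Om| ≤ a ^ 4 * P)
    (hr : 0 ≤ r) (hr1 : r ≤ 1) (hμ : 0 < μ) (h : r * μ ^ 2 * (1 + (1 - r) * a ^ 4) ≤ 1) :
    0 < P + r * μ ^ 2 * (C - r * Om) := by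
  rcases hr.eq_or_lt with rfl | hr0
  · simpa using hP
  · have h1 : 0 < r * μ ^ 2 := by positivity
    have h2 : 0 ≤ (1 - r) * (a ^ 4 * P + Om) :=
      mul_nonneg (by linarith) (by linarith [neg_le_of_abs_le hOm])
    have h3 : 0 ≤ (1 - r * μ ^ 2 * (1 + (1 - r) * a ^ 4)) * P :=
      mul_nonneg (by linarith) hP.le
    have h4 := mul_pos h1 h0
    have h5 := mul_nonneg h1.le h2
    have e : P + r * μ ^ 2 * (C - r * Om) =
        (1 - r * μ ^ 2 * (1 + (1 - r) * a ^ 4)) * P + r * μ ^ 2 * (P + (C - Om)) +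
          r * μ ^ 2 * ((1 - r) * (a ^ 4 * P + Om)) := by ring
    rw [e]
    linarith

end LI3

open LI3 in
theorem thm_scale : St_scale := by
  intro m k L a ha hL r μ hr hr1 hμ hμ'
  obtain ⟨hL1, hL2⟩ := hL
  have hc : ∀ w w' : Phase m, cc L (incW m k w) (incW m k w') = 0 := by
    intro w w'
    have h := hL1 w w'
    simp only at h
    rw [cc, h, omegaStd_incW, sub_self]
  -- positivity on horizontal vectors
  have key : ∀ (u : Phase k) (X Y : Phase m),
      (∀ w, omegaStd X w = -cc L (incK m k u) (incW m k w)) →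
      (∀ w, omegaStd Y w = -cc L (incK m k (Jl k u)) (incW m k w)) → u ≠ 0 →
      0 < BB L r μ (incK m k u + incW m k ((r * μ) • X))
        (incK m k (Jl k u) + incW m k ((r * μ) • Y)) := by
    intro u X Y hX hY hu
    have hP : 0 < ‖u‖ ^ 2 := by
      have : 0 < ‖u‖ := norm_pos_iff.2 hu
      positivity
    have h1 : 0 < omegaStd (L (incK m k u + incW m k ((1 * 1 : ℝ) • X)))
        (L (incK m k (Jl k u) + incW m k ((1 * 1 : ℝ) • Y))) := by
      apply hL2
      · intro w
        have h := hor hc (r := 1) (μ := 1) hX w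
        rwa [BB_one] at h
      · intro w
        have h := hor hc (r := 1) (μ := 1) hY w
        rwa [BB_one] at h
      · rw [map_add, prK_incK, prK_incW, add_zero]
        exact hu
      · rw [map_add, prK_incK, prK_incW, add_zero, map_add, prK_incK, prK_incW, add_zero]
    rw [← BB_one, BB_hor hc 1 1 hX hY, omegaStd_Jl] at h1
    rw [BB_hor hc r μ hX hY, omegaStd_Jl]
    refine ineq hP ?_ (norm_Om ha hX hY (norm_Jl u)) hr hr1 hμ hμ'
    linarith
  refine ⟨⟨?_, ?_⟩, ?_⟩
  · intro w w'
    change BB L r μ (incW m k w) (incW m k w') = omegaStd w w'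
    have h := BB_W hc r μ 0 w w'
    rw [map_zero, zero_add, cc_zero_left, mul_zero, add_zero] at h
    exact h
  · intro x y hx hy hx0 hxy
    change 0 < BB L r μ x y
    obtain ⟨X, hX⟩ := exists_X L (prK m k x)
    obtain ⟨Y, hY⟩ := exists_X L (Jl k (prK m k x))
    have ex : x = incK m k (prK m k x) + incW m k ((r * μ) • X) := by
      have h : ∀ w, BB L r μ (incK m k (prK m k x) + incW m k (prW m k x)) (incW m k w) = 0 := by
        intro w
        rw [split_eta]
        exact hx w
      rw [← eq_of_hor hc hX h, split_eta]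
    have ey : y = incK m k (Jl k (prK m k x)) + incW m k ((r * μ) • Y) := by
      have h : ∀ w, BB L r μ (incK m k (Jl k (prK m k x)) + incW m k (prW m k y))
          (incW m k w) = 0 := by
        intro w
        rw [← hxy, split_eta]
        exact hy w
      rw [← eq_of_hor hc hY h, ← hxy, split_eta]
    have h := key (prK m k x) X Y hX hY hx0
    rw [← ex, ← ey] at h
    exact h
  · intro x hx
    have hx' : ∀ y, BB L r μ x y = 0 := hx
    obtain ⟨X, hX⟩ := exists_X L (prK m k x)
    obtain ⟨Y, hY⟩ := exists_X L (Jl k (prK m k x))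
    have ex : x = incK m k (prK m k x) + incW m k ((r * μ) • X) := by
      have h : ∀ w, BB L r μ (incK m k (prK m k x) + incW m k (prW m k x)) (incW m k w) = 0 := by
        intro w
        rw [split_eta]
        exact hx' _
      rw [← eq_of_hor hc hX h, split_eta]
    have h0 : prK m k x = 0 := by
      by_contra hne
      have h := key (prK m k x) X Y hX hY hne
      rw [← ex, hx'] at h
      exact lt_irrefl _ h
    have hz : prW m k x = 0 := by
      apply eq_zero_of_omegaStd
      intro w
      have h := BB_W hc r μ (prK m k x) (prW m k x) w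
      rw [split_eta, hx', h0, map_zero, cc_zero_left, mul_zero, add_zero] at h
      exact h.symm
    rw [← split_eta x, h0, hz, map_zero, map_zero, add_zero]

end Pool.Agent.KRW
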