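import Mathlib
import Pool.Agent.KRW.StR

/-!
# LI4: the linear algebra of the combination of two forms
-/

set_option maxSynthPendingDepth 3

open scoped ContDiff Topology unitInterval
open Set Function TopologicalSpace Filter

namespace Pool.Agent.KRW

open Pool.Agent.Helper17 Pool.Agent.Helper42 Pool.Agent.H42.Hull

section

variable {N k : ℕ}

/-- The combination of the forms. -/
private noncomputable def li4_B (A : Phase N →L[ℝ] Phase k) (L : Phase N →L[ℝ] Phase N)
    (r κ : ℝ) (x y : Phase N) : ℝ :=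
  (1 - r) * omegaStd x y + r * omegaStd (L x) (L y) + κ * omegaStd (A x) (A y)

private lemma li4_B_sub (A : Phase N →L[ℝ] Phase k) (L : Phase N →L[ℝ] Phase N) (r κ : ℝ)
    (x x' y : Phase N) : li4_B A L r κ (x - x') y = li4_B A L r κ x y - li4_B A L r κ x' y := by
  unfold li4_B
  rw [map_sub, map_sub, omegaStd_sub_left, omegaStd_sub_left, omegaStd_sub_left]
  ring

end

/-- LI4.  Hypothesis: `St_lin1`. -/
theorem thm_comb (h1 : St_lin1) : St_comb := by
  intro N k A L M a hML hLM hA hA' hker hbd r κ hr0 hr1 hκ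
  obtain ⟨a1, a2, -, a4, -, a6⟩ := h1 N k A hA
  obtain ⟨b1, b2, -, b4, -, -⟩ := h1 N k (A.comp M) hA'
  set g : Phase k → Phase N := fun u => hl A u with hg
  set g' : Phase k → Phase N := fun u => M (hl (A.comp M) u) with hg'
  set d : Phase k → Phase N := fun u => g' u - g u with hd
  have hAg : ∀ u, A (g u) = u := a1
  have hAg' : ∀ u, A (g' u) = u := b1
  have hAd : ∀ u, A (d u) = 0 := fun u => by
    change A (g' u - g u) = 0
    rw [map_sub, hAg, hAg', sub_self]
  have hLg' : ∀ u, L (g' u) = hl (A.comp M) u := fun u => hLM _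
  have hg0 : ∀ u v, A v = 0 → omegaStd (g u) v = 0 := a2
  have hg1 : ∀ u v, A v = 0 → omegaStd (L (g' u)) (L v) = 0 := by
    intro u v hv
    rw [hLg']
    refine b2 u (L v) ?_
    change A (M (L v)) = 0
    rw [hML, hv]
  have hg1' : ∀ u v, A v = 0 → omegaStd (L v) (L (g' u)) = 0 := by
    intro u v hv
    rw [omegaStd_swap, hg1 u v hv, neg_zero]
  have hg0' : ∀ u v, A v = 0 → omegaStd v (g u) = 0 := by
    intro u v hv
    rw [omegaStd_swap, hg0 u v hv, neg_zero]
  set h : Phase k → Phase N := fun u => g u + r • d u with hh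
  have hh' : ∀ u, h u = g' u - (1 - r) • d u := by
    intro u
    change g u + r • (g' u - g u) = g' u - (1 - r) • (g' u - g u)
    module
  have hAh : ∀ u, A (h u) = u := fun u => by
    change A (g u + r • d u) = u
    rw [map_add, map_smul, hAd, smul_zero, add_zero, hAg]
  have e1 : ∀ u v, A v = 0 → omegaStd (h u) v = r * omegaStd (d u) v := by
    intro u v hv
    change omegaStd (g u + r • d u) v = _
    rw [omegaStd_add_left, omegaStd_smul_left, hg0 u v hv, zero_add]
  have e2 : ∀ u v, A v = 0 → omegaStd (L (h u)) (L v) = -((1 - r) * omegaStd (d u) v) := by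
    intro u v hv
    rw [hh', map_sub, map_smul, omegaStd_sub_left, omegaStd_smul_left, hg1 u v hv,
      hker _ _ (hAd u) hv, zero_sub]
  have f1 : ∀ u v, omegaStd (h u) (h v) = omegaStd (g u) (g v) + r ^ 2 * omegaStd (d u) (d v) := by
    intro u v
    change omegaStd (g u + r • d u) (g v + r • d v) = _
    rw [omegaStd_add_left, omegaStd_add_right, omegaStd_add_right, omegaStd_smul_left,
      omegaStd_smul_right, omegaStd_smul_left, omegaStd_smul_right, hg0 u _ (hAd v),
      hg0' v _ (hAd u)]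
    ring
  have f2 : ∀ u v, omegaStd (L (h u)) (L (h v)) =
      omegaStd (hl (A.comp M) u) (hl (A.comp M) v) + (1 - r) ^ 2 * omegaStd (d u) (d v) := by
    intro u v
    rw [hh', hh', map_sub, map_sub, map_smul, map_smul, omegaStd_sub_left, omegaStd_sub_right,
      omegaStd_sub_right, omegaStd_smul_left, omegaStd_smul_right, omegaStd_smul_left,
      omegaStd_smul_right, hg1 u _ (hAd v), hg1' v _ (hAd u), hker _ _ (hAd u) (hAd v), hLg', hLg']
    ring
  have c2 : ∀ u v, A v = 0 → (1 - r) * omegaStd (h u) v + r * omegaStd (L (h u)) (L v) +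
      κ * omegaStd (A (h u)) (A v) = 0 := by
    intro u v hv
    have h0 : omegaStd (A (h u)) (A v) = 0 := by
      rw [hv, omegaStd_swap, omegaStd_zero_left, neg_zero]
    rw [e1 u v hv, e2 u v hv, h0]
    ring
  have c3 : ∀ u, u ≠ 0 → 0 < (1 - r) * omegaStd (h u) (h (Jl k u)) +
      r * omegaStd (L (h u)) (L (h (Jl k u))) + κ * omegaStd (A (h u)) (A (h (Jl k u))) := by
    intro u hu
    rw [f1, f2, hAh, hAh, omegaStd_Jl]
    have p1 : 0 < omegaStd (g u) (g (Jl k u)) := a4 u hu
    have p2 : 0 < omegaStd (hl (A.comp M) u) (hl (A.comp M) (Jl k u)) := b4 u hu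
    have q1 : |omegaStd (d u) (d (Jl k u))| ≤ a ^ 2 * ‖u‖ ^ 2 := by
      refine (abs_omegaStd_le _ _).trans ?_
      have q2 : ‖d u‖ ≤ a * ‖u‖ := hbd u
      have q3 : ‖d (Jl k u)‖ ≤ a * ‖u‖ := by
        have := hbd (Jl k u)
        rwa [norm_Jl] at this
      calc ‖d u‖ * ‖d (Jl k u)‖ ≤ (a * ‖u‖) * (a * ‖u‖) :=
            mul_le_mul q2 q3 (norm_nonneg _) ((norm_nonneg _).trans q2)
        _ = a ^ 2 * ‖u‖ ^ 2 := by ring
    have q4 : -(a ^ 2 * ‖u‖ ^ 2) ≤ omegaStd (d u) (d (Jl k u)) := (abs_le.1 q1).1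
    have hr : 0 ≤ r * (1 - r) := mul_nonneg hr0 (by linarith)
    have q5 : r * (1 - r) * -(a ^ 2 * ‖u‖ ^ 2) ≤ r * (1 - r) * omegaStd (d u) (d (Jl k u)) :=
      mul_le_mul_of_nonneg_left q4 hr
    have q6 : r * (1 - r) * a ^ 2 * ‖u‖ ^ 2 ≤ κ * ‖u‖ ^ 2 :=
      mul_le_mul_of_nonneg_right hκ (by positivity)
    have q7 : 0 < (1 - r) * omegaStd (g u) (g (Jl k u)) +
        r * omegaStd (hl (A.comp M) u) (hl (A.comp M) (Jl k u)) := by
      rcases hr0.eq_or_lt with h0 | h0
      · rw [← h0]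
        linarith
      · exact add_pos_of_nonneg_of_pos (mul_nonneg (by linarith) p1.le) (mul_pos h0 p2)
    have q8 : (1 - r) * (omegaStd (g u) (g (Jl k u)) + r ^ 2 * omegaStd (d u) (d (Jl k u))) +
        r * (omegaStd (hl (A.comp M) u) (hl (A.comp M) (Jl k u)) +
          (1 - r) ^ 2 * omegaStd (d u) (d (Jl k u))) + κ * ‖u‖ ^ 2 =
        ((1 - r) * omegaStd (g u) (g (Jl k u)) +
          r * omegaStd (hl (A.comp M) u) (hl (A.comp M) (Jl k u))) +
        (r * (1 - r) * omegaStd (d u) (d (Jl k u)) + κ * ‖u‖ ^ 2) := by ring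
    rw [q8]
    linarith
  refine ⟨⟨h, hAh, c2, c3⟩, fun x hx => ?_⟩
  have hx' : ∀ y, li4_B A L r κ x y = 0 := hx
  have hxk : A (x - h (A x)) = 0 := by rw [map_sub, hAh, sub_self]
  have hv : x - h (A x) = 0 := by
    refine a6 _ hxk fun w hw => ?_
    have s1 : li4_B A L r κ (x - h (A x)) w = 0 := by
      rw [li4_B_sub, hx' w, zero_sub, neg_eq_zero]
      exact c2 (A x) w hw
    have s2 : li4_B A L r κ (x - h (A x)) w = omegaStd (x - h (A x)) w := by
      unfold li4_B
      rw [hker _ _ hxk hw, hxk, omegaStd_zero_left]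
      ring
    rw [← s2, s1]
  have hx1 : x = h (A x) := sub_eq_zero.1 hv
  have hAx : A x = 0 := by
    by_contra hne
    have s3 := c3 (A x) hne
    rw [← hx1] at s3
    exact absurd (hx (h (Jl k (A x)))) (ne_of_gt s3)
  have hh0 : h 0 = 0 := by
    change hl A 0 + r • (M (hl (A.comp M) 0) - hl A 0) = 0
    rw [map_zero, map_zero, map_zero, sub_zero, smul_zero, add_zero]
  rw [hx1, hAx, hh0]

end Pool.Agent.KRW
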