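import Mathlib
import Pool.Agent.KRW.St
import Pool.Agent.KRW.Split

/-!
# KRW, module LOO: the scattering of the loop of rows (helper82)

Hypotheses: `St_trivia`, `St_lu`, `St_scVal`, `St_scEx`, `St_scUn`, `St_rad`, `St_vCont`, `St_squ`,
`St_box`.
-/

set_option maxSynthPendingDepth 3

open scoped ContDiff Topology unitInterval
open Set Function TopologicalSpace Filter

namespace Pool.Agent.KRW

open Pool.Agent.Helper17 Pool.Agent.Helper42 Pool.Agent.H42.Hull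

/-- composition with a map of the parameter spaces -/
lemma LOO_pre {X Y A : Type} [TopologicalSpace X] [TopologicalSpace Y] [TopologicalSpace A]
    {f f' : C(X, Y)} {S : Set X} {S' : Set A} (h : f.HomotopicRel f' S) (g : C(A, X))
    (hg : ∀ a ∈ S', g a ∈ S) : (f.comp g).HomotopicRel (f'.comp g) S' := by
  obtain ⟨H⟩ := h
  exact ⟨{
    toFun := fun p => H (p.1, g p.2)
    continuous_toFun := by fun_prop
    map_zero_left := fun x => H.apply_zero (g x)
    map_one_left := fun x => H.apply_one (g x)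
    prop' := fun t x hx => H.prop' t (g x) (hg x hx) }⟩

/-- equality in `SympCt` -/
lemma LOO_ext {n : ℕ} {f g : SympCt n}
    (h : ∀ w, (f : Equiv.Perm (Phase n)) w = (g : Equiv.Perm (Phase n)) w) : f = g :=
  Subtype.ext (Equiv.ext h)

theorem thm_loo (hTr : St_trivia) (hLu : St_lu) (hVal : St_scVal) (hEx : St_scEx)
    (hUn : St_scUn) (hRad : St_rad) (hVC : St_vCont) (hSq : St_squ) (hBox : St_box) : St_loo := by
  intro m k T _ _ T0 R R' F Φ W g e hR hR' hF hΦ hΦF hW hg hΦ0 hΦ1 hΦT he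
  obtain ⟨ρe, hρe, heρ⟩ := he
  -- the rows which are projections
  have hF0 : ∀ t p, F (t, 0) p = prK m (k + 1) p := by
    intro t p
    rw [← hΦF, hΦ0, prK_mapW]
  have hF1 : ∀ t p, F (t, 1) p = prK m (k + 1) p := by
    intro t p
    rw [← hΦF, hΦ1]
  have hFT : ∀ t ∈ T0, ∀ s p, F (t, s) p = prK m (k + 1) p := by
    intro t ht s p
    rw [← hΦF, hΦT t ht]
  have hWT : ∀ t ∈ T0, ∀ p, W t p = prW m (k + 1) p := by
    intro t ht p
    have h1 := hΦ0 t p
    rw [hΦT t ht] at h1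
    conv_rhs => rw [h1, prW_mapW]
  -- the trivialisation and the maps of the fibres
  obtain ⟨Rt, Ξ, Θ, E, hRt, hΞ⟩ := hTr m k (T × I) R F hR hF
  obtain ⟨R₁, U, hR₁, hU, hΦU, hUl, hUr⟩ := hLu m k (T × I) R Rt F Ξ Θ E Φ hR hΞ hΦ hΦF
  have hUv : ∀ q, (∀ p, F q p = prK m (k + 1) p) → ∀ p, U q p = prW m (k + 1) (Φ q p) := by
    intro q hq p
    have h1 := hΦU q p
    rw [(hΞ.triv q hq p).1] at h1
    rw [h1, prW_mapW]
  have hU0 : ∀ t p, U (t, 0) p = W t p := by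
    intro t p
    rw [hUv (t, 0) (hF0 t), hΦ0, prW_mapW]
  have hU1 : ∀ t p, U (t, 1) p = prW m (k + 1) p := by
    intro t p
    rw [hUv (t, 1) (hF1 t), hΦ1]
  have hUT : ∀ t ∈ T0, ∀ s p, U (t, s) p = prW m (k + 1) p := by
    intro t ht s p
    rw [hUv (t, s) (hFT t ht s), hΦT t ht]
  -- the scattering with a large radius
  obtain ⟨ρ₀, hρ₀, hsc⟩ := hEx m k (T × I) R F hR hF
  set ρ : ℝ := max ρ₀ (max R₁ R') with hρd
  have hρ1 : ρ₀ ≤ ρ := le_max_left _ _
  have hρ2 : R₁ ≤ ρ := (le_max_left _ _).trans (le_max_right _ _)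
  have hρ3 : R' ≤ ρ := (le_max_right _ _).trans (le_max_right _ _)
  have hρ : 0 < ρ := hρ₀.trans_le hρ1
  obtain ⟨e', he', he'1, he'2⟩ := hsc ρ hρ1
  have hstep1 : (e.comp (swK T k)).HomotopicRel (e'.comp (swK T k)) (bdS k T0) := by
    refine LOO_pre (hUn m k (T × I) {q | q.1 ∈ T0 ∨ q.2 = 0 ∨ q.2 = 1} R F hR hF ?_ ρe ρ e e'
      hρe hρ heρ he').1 (swK T k) ?_
    · rintro ⟨t, s⟩ (ht | hs | hs) p
      · exact hFT t ht s p
      · have hs' : s = 0 := hs
        subst hs'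
        exact hF0 t p
      · have hs' : s = 1 := hs
        subst hs'
        exact hF1 t p
    · rintro ⟨⟨t, z⟩, ⟨a, b⟩⟩ ((ht | hz) | hs | hs | hs | hs)
      · exact Or.inl (Or.inl (Or.inl ht))
      · exact Or.inl (Or.inr hz)
      · exact Or.inr (Or.inl hs)
      · exact Or.inr (Or.inr hs)
      · exact Or.inl (Or.inl (Or.inr (Or.inl hs)))
      · exact Or.inl (Or.inl (Or.inr (Or.inr hs)))
  -- the cube family with the same radius
  obtain ⟨-, g₁, hg₁, hgg₁⟩ := hRad m k T T0 R' ρ R' W g hR' hρ3 hW hg hWT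
  -- the square
  obtain ⟨-, -, -, -, -, -, -, hside, hbc⟩ := hBox k ρ hρ
  obtain ⟨u, hu⟩ := hVC m (k + 1) (T × I) R₁ U hU (((T × Bx k) × I) × (I × I))
    (fun q => (q.1.1.1, q.2.1)) (fun q => bxPt ρ q.1.1.2 (q.1.2, q.2.2)) (by fun_prop)
    (hbc.comp (f := fun q : ((T × Bx k) × I) × (I × I) =>
      ((ρ, (q.1.1.2, (q.1.2, q.2.2))) : ℝ × (Bx k × (I × I)))) (by fun_prop))
  let ue : C(((T × Bx k) × I) × I, ((T × I) × Bx k) × I) :=
    ⟨fun q => (((q.1.1.1, q.2), q.1.1.2), q.1.2), by fun_prop⟩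
  let ug : C(((T × Bx k) × I) × I, (T × Bx k) × (I × I)) :=
    ⟨fun q => (q.1.1, (q.1.2, q.2)), by fun_prop⟩
  let ur : C((T × Bx k) × (I × I), ((T × Bx k) × I) × I) :=
    ⟨fun q => ((q.1, q.2.1), q.2.2), by fun_prop⟩
  have hyB : ∀ (z : Bx k) (a b : I) (w : Phase m),
      yB (mkB m (k + 1) (bxPt ρ z (a, b)) w) = ρ * (2 * (b : ℝ) - 1) := by
    intro z a b w
    rw [yB_mkB]
    rfl
  have hsq : (e'.comp ue).HomotopicRel (g₁.comp ug)
      {q | q.1 ∈ ({x | x.1.1 ∈ T0 ∨ x.1.2 ∈ bdB k ∨ x.2 = 0 ∨ x.2 = 1} :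
        Set ((T × Bx k) × I)) ∨ q.2 = 0 ∨ q.2 = 1} := by
    refine hSq m ((T × Bx k) × I) _ (e'.comp ue) (g₁.comp ug) u ?_ ?_ ?_ ?_ ?_ ?_
    · rintro ⟨⟨t, z⟩, a⟩ y
      refine LOO_ext fun w => ?_
      rw [hu]
      exact (hU0 t _).trans (hg₁.2 t z (a, y) w).symm
    · rintro ⟨⟨t, z⟩, a⟩
      refine LOO_ext fun w => ?_
      refine (hg₁.2 t z (a, 1) w).trans ?_
      rw [hg₁.1 t _ ⟨Sum.inr 0, ?_⟩, prW_mkB]
      · rfl
      · have h1 := hyB z a 1 w
        rw [yB] at h1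
        rw [h1, Set.Icc.coe_one]
        norm_num
        exact le_abs_self ρ
    · rintro ⟨⟨t, z⟩, a⟩ y
      refine LOO_ext fun w => ?_
      rw [hu]
      exact (hU1 t _).trans (prW_mkB _ _)
    · rintro ⟨⟨t, z⟩, a⟩ s
      refine LOO_ext fun w => ?_
      rw [hu]
      refine (hUl (t, s) _ (Or.inl ?_)).trans (prW_mkB _ _)
      rw [hyB z a 0 w, Set.Icc.coe_zero]
      linarith
    · rintro ⟨⟨t, z⟩, a⟩ s
      refine LOO_ext fun w => ?_
      have h1 := hVal m k (T × I) Rt ρ F Ξ Θ E e' hρ hΞ he' (t, s) z a 1 w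
      have h2 := hUr (t, s) (mkB m (k + 1) (bxPt ρ z (a, 1)) w) (by
        rw [hyB z a 1 w, Set.Icc.coe_one]
        linarith)
      rw [← h2] at h1
      have h3 := hu (((t, z), a), (s, 1)) w
      exact (congrArg _ h3).trans h1
    · rintro ⟨⟨t, z⟩, a⟩ hx ⟨s, y⟩
      refine LOO_ext fun w => ?_
      rw [hu]
      rcases hx with ht | hz
      · exact (hUT t ht s _).trans (prW_mkB _ _)
      · refine (hUl (t, s) _ (Or.inr ?_)).trans (prW_mkB _ _)
        have h1 := hside z a y hz ρ le_rfl (bxPt ρ z (a, y)) rfl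
        refine hρ2.trans (h1.trans (le_of_eq ?_))
        rw [sideB, yB_mkB, prK_mkB]
  have hstep2 : (e'.comp (swK T k)).HomotopicRel g₁ (bdS k T0) := by
    have h1 := LOO_pre (S' := bdS k T0) hsq ur (by
      rintro ⟨⟨t, z⟩, ⟨a, b⟩⟩ ((ht | hz) | hs | hs | hs | hs)
      · exact Or.inl (Or.inl ht)
      · exact Or.inl (Or.inr (Or.inl hz))
      · exact Or.inl (Or.inr (Or.inr (Or.inl hs)))
      · exact Or.inl (Or.inr (Or.inr (Or.inr hs)))
      · exact Or.inr (Or.inl hs)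
      · exact Or.inr (Or.inr hs))
    exact h1
  exact (hstep1.trans hstep2).trans hgg₁.symm

end Pool.Agent.KRW
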