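import Mathlib
import Pool.Agent.KRW.St
import Pool.Agent.KRW.Split
import Pool.Agent.KRW.LOO

/-!
# KRW, module LNU: the scattering of a family with a lift is null-homotopic

Hypotheses: `St_trivia`, `St_lu`, `St_scVal`, `St_scEx`, `St_scUn`, `St_vCont`, `St_box`.
-/

set_option maxSynthPendingDepth 3

open scoped ContDiff Topology unitInterval
open Set Function TopologicalSpace Filter

namespace Pool.Agent.KRW

open Pool.Agent.Helper17 Pool.Agent.Helper42 Pool.Agent.H42.Hull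

theorem thm_lNull (hTr : St_trivia) (hLu : St_lu) (hVal : St_scVal) (hEx : St_scEx)
    (hUn : St_scUn) (hVC : St_vCont) (hBox : St_box) : St_lNull := by
  intro m k T _ _ T0 R F Φ hR hF hΦ hΦF hΦT e he
  obtain ⟨ρe, hρe, heρ⟩ := he
  have hFT : ∀ t ∈ T0, ∀ p, F t p = prK m (k + 1) p := by
    intro t ht p
    rw [← hΦF, hΦT t ht]
  -- the trivialisation and the maps of the fibres
  obtain ⟨Rt, Ξ, Θ, E, hRt, hΞ⟩ := hTr m k T R F hR hF
  obtain ⟨R₁, U, hR₁, hU, hΦU, hUl, hUr⟩ := hLu m k T R Rt F Ξ Θ E Φ hR hΞ hΦ hΦF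
  have hUT : ∀ t ∈ T0, ∀ p, U t p = prW m (k + 1) p := by
    intro t ht p
    have h1 := hΦU t p
    rw [(hΞ.triv t (hFT t ht) p).1, hΦT t ht] at h1
    conv_rhs => rw [h1, prW_mapW]
  -- the scattering with a large radius
  obtain ⟨ρ₀, hρ₀, hsc⟩ := hEx m k T R F hR hF
  set ρ : ℝ := max ρ₀ R₁ with hρd
  have hρ1 : ρ₀ ≤ ρ := le_max_left _ _
  have hρ2 : R₁ ≤ ρ := le_max_right _ _
  have hρ : 0 < ρ := hρ₀.trans_le hρ1
  obtain ⟨e', he', -, -⟩ := hsc ρ hρ1
  have hstep1 : e.HomotopicRel e' (bdE k T0) :=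
    (hUn m k T T0 R F hR hF hFT ρe ρ e e' hρe hρ heρ he').1
  obtain ⟨-, -, -, -, -, -, -, hside, hbc⟩ := hBox k ρ hρ
  obtain ⟨u, hu⟩ := hVC m (k + 1) T R₁ U hU (((T × Bx k) × I) × I)
    (fun q => q.1.1.1) (fun q => bxPt ρ q.1.1.2 (q.1.2, q.2)) (by fun_prop)
    (hbc.comp (f := fun q : ((T × Bx k) × I) × I =>
      ((ρ, (q.1.1.2, (q.1.2, q.2))) : ℝ × (Bx k × (I × I)))) (by fun_prop))
  have hyB : ∀ (z : Bx k) (a b : I) (w : Phase m),
      yB (mkB m (k + 1) (bxPt ρ z (a, b)) w) = ρ * (2 * (b : ℝ) - 1) := by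
    intro z a b w
    rw [yB_mkB]
    rfl
  have hu0 : ∀ q : (T × Bx k) × I, u (q, 0) = 1 := by
    rintro ⟨⟨t, z⟩, a⟩
    refine LOO_ext fun w => ?_
    rw [hu]
    refine (hUl t _ (Or.inl ?_)).trans (prW_mkB _ _)
    rw [hyB z a 0 w, Set.Icc.coe_zero]
    linarith
  have hu1 : ∀ q : (T × Bx k) × I, e' q * u (q, 1) = 1 := by
    rintro ⟨⟨t, z⟩, a⟩
    refine LOO_ext fun w => ?_
    have h1 := hVal m k T Rt ρ F Ξ Θ E e' hρ hΞ he' t z a 1 w
    have h2 := hUr t (mkB m (k + 1) (bxPt ρ z (a, 1)) w) (by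
      rw [hyB z a 1 w, Set.Icc.coe_one]
      linarith)
    rw [← h2] at h1
    have h3 := hu (((t, z), a), 1) w
    exact (congrArg _ h3).trans h1
  have hub : ∀ q ∈ bdE k T0, ∀ y : I, u (q, y) = 1 := by
    rintro ⟨⟨t, z⟩, a⟩ hq y
    have hx : t ∈ T0 ∨ (z ∈ bdB k ∨ a = 0 ∨ a = 1) := by
      rcases hq with (h | h) | h
      · exact Or.inl h
      · exact Or.inr (Or.inl h)
      · exact Or.inr (Or.inr h)
    refine LOO_ext fun w => ?_
    rw [hu]
    rcases hx with ht | hz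
    · exact (hUT t ht _).trans (prW_mkB _ _)
    · refine (hUl t _ (Or.inr ?_)).trans (prW_mkB _ _)
      have h1 := hside z a y hz ρ le_rfl (bxPt ρ z (a, y)) rfl
      refine hρ2.trans (h1.trans (le_of_eq ?_))
      rw [sideB, yB_mkB, prK_mkB]
  have hc : Continuous (fun q : I × ((T × Bx k) × I) => e' q.2 * u (q.2, q.1)) :=
    continuous_mul_family (e'.continuous.comp continuous_snd)
      (u.continuous.comp (by fun_prop))
  have hstep2 : e'.HomotopicRel (ContinuousMap.const _ 1) (bdE k T0) := by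
    refine ⟨⟨⟨⟨fun q => e' q.2 * u (q.2, q.1), hc⟩, fun q => ?_, fun q => ?_⟩,
      fun s q hq => ?_⟩⟩
    · change e' q * u (q, 0) = e' q
      rw [hu0, mul_one]
    · change e' q * u (q, 1) = 1
      exact hu1 q
    · change e' q * u (q, s) = e' q
      rw [hub q hq s, mul_one]
  exact hstep1.trans hstep2

end Pool.Agent.KRW
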