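import Mathlib
import Pool.Agent.KRW.St
import Pool.Agent.KRW.Split

/-!
# A lift gives a path from the identity to the exit map
-/

set_option maxSynthPendingDepth 3

open scoped ContDiff Topology unitInterval
open Set Function TopologicalSpace Filter

namespace Pool.Agent.KRW

open Pool.Agent.Helper17 Pool.Agent.Helper42 Pool.Agent.H42.Hull

theorem thm_lu : St_lu := by
  intro m k T _ R R' F Ξ Θ E Φ hR hX hΦ hF
  have hR' := hX.pos
  have hKK : ∀ t p, prK m (k + 1) (Φ t (Ξ t p)) = prK m (k + 1) p := by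
    intro t p
    rw [hF, hX.lies]
  -- points where both maps are the identity
  have hfix : ∀ t p, Ξ t p = p → R < ‖p‖ → prW m (k + 1) (Φ t (Ξ t p)) = prW m (k + 1) p := by
    intro t p h1 h2
    rw [h1, hΦ.std t p h2]
  have hcf : CF (fun t p => Φ t (Ξ t p)) := hΦ.cf.comp hX.cfX
  have hder : ∀ t p x, fderiv ℝ (fun p => Φ t (Ξ t p)) p x =
      fderiv ℝ (Φ t) (Ξ t p) (fderiv ℝ (Ξ t) p x) := by
    intro t p x
    have h1 : HasFDerivAt (fun p => Φ t (Ξ t p))
        ((fderiv ℝ (Φ t) (Ξ t p)).comp (fderiv ℝ (Ξ t) p)) p :=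
      (hΦ.cf.differentiable t (Ξ t p)).hasFDerivAt.comp p
        (hX.cfX.differentiable t p).hasFDerivAt
    rw [h1.fderiv]
    rfl
  have hprK : ∀ t p x, prK m (k + 1) (fderiv ℝ (fun p => Φ t (Ξ t p)) p x) =
      prK m (k + 1) x := by
    intro t p x
    have h1 : HasFDerivAt (fun p => prK m (k + 1) (Φ t (Ξ t p)))
        ((prK m (k + 1)).comp (fderiv ℝ (fun p => Φ t (Ξ t p)) p)) p :=
      (prK m (k + 1)).hasFDerivAt.comp p (hcf.differentiable t p).hasFDerivAt
    have h2 : (fun p => prK m (k + 1) (Φ t (Ξ t p))) = fun p => prK m (k + 1) p :=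
      funext fun p => hKK t p
    rw [h2] at h1
    have h3 := h1.unique (prK m (k + 1)).hasFDerivAt
    exact congrArg (fun L => L x) h3
  have hprW : ∀ t p x, fderiv ℝ (fun p => prW m (k + 1) (Φ t (Ξ t p))) p x =
      prW m (k + 1) (fderiv ℝ (fun p => Φ t (Ξ t p)) p x) := by
    intro t p x
    have h1 : HasFDerivAt (fun p => prW m (k + 1) (Φ t (Ξ t p)))
        ((prW m (k + 1)).comp (fderiv ℝ (fun p => Φ t (Ξ t p)) p)) p :=
      (prW m (k + 1)).hasFDerivAt.comp p (hcf.differentiable t p).hasFDerivAt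
    rw [h1.fderiv]
    rfl
  refine ⟨R' + R + 1, fun t p => prW m (k + 1) (Φ t (Ξ t p)), by linarith, ⟨?_, ?_, ?_⟩, ?_, ?_, ?_⟩
  · exact hcf.clm (prW m (k + 1))
  · intro t p hp
    have h1 := norm_prW_le (m := m) (k := k + 1) p
    exact hfix t p (hX.side t p (Or.inr (by linarith))) (by linarith)
  · intro t p v w
    rw [hprW, hprW, hder, hder, hΦ.symp t (Ξ t p), hX.symp]
    · rw [← hder, hprK, prK_incW]
    · rw [← hder, hprK, prK_incW]
  · intro t p
    refine ext_split ?_ ?_
    · rw [hKK, prK_mapW]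
    · rw [prW_mapW]
  · rintro t p (hp | hp)
    · have h1 := abs_yB_le (m := m) (k := k) p
      have h2 := neg_abs_le (yB p)
      exact hfix t p (hX.left t p (by linarith)) (by linarith)
    · have h1 := norm_sideB_le (m := m) (k := k) p
      exact hfix t p (hX.side t p (Or.inl (by linarith))) (by linarith)
  · intro t p hp
    have h1 := hX.right t p (by linarith)
    have h2 := abs_yB_le (mkB m (k + 1) (prK m (k + 1) p) (E t p))
    rw [yB_mkB] at h2
    have h3 : R' + R + 1 ≤ (prK m (k + 1) p) (Sum.inr 0) := hp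
    have h4 := le_abs_self ((prK m (k + 1) p) (Sum.inr 0))
    show prW m (k + 1) (Φ t (Ξ t p)) = E t p
    rw [h1, hΦ.std t _ (by linarith), prW_mkB]

end Pool.Agent.KRW
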