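import Mathlib
import Pool.Agent.KRW.St

/-!
# KRW, module MOS: Moser's method on the fibres
-/

set_option maxSynthPendingDepth 3

open scoped ContDiff Topology unitInterval
open Set Function TopologicalSpace Filter

namespace Pool.Agent.KRW

open Pool.Agent.Helper17 Pool.Agent.Helper42 Pool.Agent.H42.Hull

section MOS

variable {n : ℕ} {D : Type} [NormedAddCommGroup D] [NormedSpace ℝ D]

/-- the inclusion of the fibre directions -/
noncomputable def MOS_inc (n : ℕ) (D : Type) [NormedAddCommGroup D] [NormedSpace ℝ D] :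
    Phase n →L[ℝ] ℝ × (D × Phase n) :=
  (ContinuousLinearMap.inr ℝ ℝ (D × Phase n)).comp (ContinuousLinearMap.inr ℝ D (Phase n))

lemma MOS_inc_apply (w : Phase n) : MOS_inc n D w = (0, (0, w)) := rfl

lemma MOS_hasFDerivAt_fib {F : Type} [NormedAddCommGroup F] [NormedSpace ℝ F]
    {β : ℝ × (D × Phase n) → F} {L : ℝ × (D × Phase n) →L[ℝ] F} {s : ℝ} {d : D} {w : Phase n}
    (h : HasFDerivAt β L (s, (d, w))) :
    HasFDerivAt (fun w' => β (s, (d, w'))) (L.comp (MOS_inc n D)) w := by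
  have e : (fun w' : Phase n => ((s, (d, w')) : ℝ × (D × Phase n))) =
      fun w' => ((s, (d, 0)) : ℝ × (D × Phase n)) + MOS_inc n D w' := by
    funext w'
    rw [MOS_inc_apply]
    simp
  have h1 : HasFDerivAt (fun w' : Phase n => ((s, (d, w')) : ℝ × (D × Phase n)))
      (MOS_inc n D) w := by
    rw [e]
    exact (MOS_inc n D).hasFDerivAt.const_add _
  exact h.comp w h1

/-- the form in terms of the total derivative -/
lemma MOS_vform {β : ℝ × (D × Phase n) → (Phase n →L[ℝ] ℝ)} (hβ : ContDiff ℝ ∞ β) (s : ℝ) (d : D)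
    (w a b : Phase n) : vform β s d w a b = omegaStd a b +
      fderiv ℝ β (s, (d, w)) (MOS_inc n D a) b - fderiv ℝ β (s, (d, w)) (MOS_inc n D b) a := by
  have h1 := MOS_hasFDerivAt_fib ((hβ.differentiable (by simp)) (s, (d, w))).hasFDerivAt
  rw [vform, h1.fderiv]
  rfl

/-- The conservation law. -/
lemma MOS_cons {β : ℝ × (D × Phase n) → (Phase n →L[ℝ] ℝ)} (hβ : ContDiff ℝ ∞ β) (d : D)
    {Y : ℝ → Phase n → Phase n} (hY : ∀ s ∈ Icc (0 : ℝ) 1, Differentiable ℝ (Y s))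
    (hspec : ∀ s ∈ Icc (0 : ℝ) 1, ∀ w c, omegaStd (Y s w) c +
      fderiv ℝ β (s, (d, w)) (MOS_inc n D (Y s w)) c -
      fderiv ℝ β (s, (d, w)) (MOS_inc n D c) (Y s w) =
      -fderiv ℝ β (s, (d, w)) (1, (0, 0)) c)
    {w a b : ℝ → Phase n} (hw : ∀ s ∈ Icc (0 : ℝ) 1, HasDerivAt w (Y s (w s)) s)
    (ha : ∀ s ∈ Icc (0 : ℝ) 1, HasDerivAt a (fderiv ℝ (Y s) (w s) (a s)) s)
    (hb : ∀ s ∈ Icc (0 : ℝ) 1, HasDerivAt b (fderiv ℝ (Y s) (w s) (b s)) s) :
    ∀ s ∈ Icc (0 : ℝ) 1, vform β s d (w s) (a s) (b s) = vform β 0 d (w 0) (a 0) (b 0) := by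
  set F := fderiv ℝ β with hF
  have hFs : ContDiff ℝ ∞ F := hβ.fderiv_right (by simp)
  have hFd : ∀ q, HasFDerivAt F (fderiv ℝ F q) q := fun q =>
    (hFs.differentiable (by simp) q).hasFDerivAt
  have hsymm : ∀ q u v, fderiv ℝ F q u v = fderiv ℝ F q v u := fun q u v =>
    (hβ.contDiffAt (x := q)).isSymmSndFDerivAt
      (by rw [minSmoothness_of_isRCLikeNormedField]; exact WithTop.coe_le_coe.2 le_top) u v
  -- the infinitesimal identity
  have hinf : ∀ s ∈ Icc (0 : ℝ) 1, ∀ x c a : Phase n,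
      omegaStd (fderiv ℝ (Y s) x a) c +
      (fderiv ℝ F (s, (d, x)) (MOS_inc n D a) (MOS_inc n D (Y s x)) c +
        F (s, (d, x)) (MOS_inc n D (fderiv ℝ (Y s) x a)) c) -
      (fderiv ℝ F (s, (d, x)) (MOS_inc n D a) (MOS_inc n D c) (Y s x) +
        F (s, (d, x)) (MOS_inc n D c) (fderiv ℝ (Y s) x a)) =
      -fderiv ℝ F (s, (d, x)) (MOS_inc n D a) (1, (0, 0)) c := by
    intro s hs x c a
    have hYx : HasFDerivAt (Y s) (fderiv ℝ (Y s) x) x := (hY s hs x).hasFDerivAt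
    have hFx : HasFDerivAt (fun w' => F (s, (d, w')))
        ((fderiv ℝ F (s, (d, x))).comp (MOS_inc n D)) x := MOS_hasFDerivAt_fib (hFd _)
    have h1 : HasFDerivAt (fun w' => (omegaB n (Y s w')) c) _ x :=
      ((omegaB n).hasFDerivAt.comp x hYx).clm_apply (hasFDerivAt_const c x)
    have h2 : HasFDerivAt (fun w' => F (s, (d, w')) (MOS_inc n D (Y s w')) c) _ x :=
      (hFx.clm_apply ((MOS_inc n D).hasFDerivAt.comp x hYx)).clm_apply (hasFDerivAt_const c x)
    have h3 : HasFDerivAt (fun w' => F (s, (d, w')) (MOS_inc n D c) (Y s w')) _ x :=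
      (hFx.clm_apply (hasFDerivAt_const (MOS_inc n D c) x)).clm_apply hYx
    have h4 : HasFDerivAt (fun w' => F (s, (d, w')) ((1, (0, 0)) : ℝ × (D × Phase n)) c) _ x :=
      (hFx.clm_apply (hasFDerivAt_const ((1, (0, 0)) : ℝ × (D × Phase n)) x)).clm_apply
        (hasFDerivAt_const c x)
    have h5 := (h1.add h2).sub h3
    have h6 := h4.neg
    have h7 : (fun w' => (omegaB n (Y s w')) c + F (s, (d, w')) (MOS_inc n D (Y s w')) c -
        F (s, (d, w')) (MOS_inc n D c) (Y s w')) =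
        fun w' => -F (s, (d, w')) ((1, (0, 0)) : ℝ × (D × Phase n)) c :=
      funext fun w' => hspec s hs w' c
    have h8 : HasFDerivAt (fun w' => (omegaB n (Y s w')) c +
        F (s, (d, w')) (MOS_inc n D (Y s w')) c -
        F (s, (d, w')) (MOS_inc n D c) (Y s w')) _ x := h5
    rw [h7] at h8
    have h9 := congrArg (fun L : Phase n →L[ℝ] ℝ => L a) (h8.unique h6)
    simp only [add_apply, sub_apply, neg_apply, ContinuousLinearMap.flip_apply,
      ContinuousLinearMap.comp_apply, zero_apply, map_zero, zero_add, omegaB_apply,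
      Function.comp_apply] at h9
    linear_combination h9
  intro s hs
  -- the conserved quantity
  set h : ℝ → ℝ := fun s => vform β s d (w s) (a s) (b s) with hh
  have hder : ∀ s ∈ Icc (0 : ℝ) 1, HasDerivAt h 0 s := by
    intro s hs
    have hq : HasDerivAt (fun s => ((s, (d, w s)) : ℝ × (D × Phase n)))
        ((1 : ℝ), ((0 : D), Y s (w s))) s :=
      (hasDerivAt_id s).prodMk ((hasDerivAt_const s d).prodMk (hw s hs))
    have hFr : HasDerivAt (fun s => F (s, (d, w s)))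
        (fderiv ℝ F (s, (d, w s)) ((1 : ℝ), ((0 : D), Y s (w s)))) s :=
      (hFd _).comp_hasDerivAt s hq
    have hia : HasDerivAt (fun s => MOS_inc n D (a s))
        (MOS_inc n D (fderiv ℝ (Y s) (w s) (a s))) s :=
      (MOS_inc n D).hasFDerivAt.comp_hasDerivAt s (ha s hs)
    have hib : HasDerivAt (fun s => MOS_inc n D (b s))
        (MOS_inc n D (fderiv ℝ (Y s) (w s) (b s))) s :=
      (MOS_inc n D).hasFDerivAt.comp_hasDerivAt s (hb s hs)
    have h1 : HasDerivAt (fun s => omegaStd (a s) (b s))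
        (omegaStd (fderiv ℝ (Y s) (w s) (a s)) (b s) +
          omegaStd (a s) (fderiv ℝ (Y s) (w s) (b s))) s :=
      ((omegaB n).hasFDerivAt.comp_hasDerivAt s (ha s hs)).clm_apply (hb s hs)
    have h2 := (hFr.clm_apply hia).clm_apply (hb s hs)
    have h3 := (hFr.clm_apply hib).clm_apply (ha s hs)
    have h4 := (h1.add h2).sub h3
    have h5 : h = fun s => omegaStd (a s) (b s) + F (s, (d, w s)) (MOS_inc n D (a s)) (b s) -
        F (s, (d, w s)) (MOS_inc n D (b s)) (a s) := by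
      funext s
      exact MOS_vform hβ s d (w s) (a s) (b s)
    rw [h5]
    refine HasDerivAt.congr_deriv (f := fun s => omegaStd (a s) (b s) +
      F (s, (d, w s)) (MOS_inc n D (a s)) (b s) -
        F (s, (d, w s)) (MOS_inc n D (b s)) (a s)) h4 ?_
    have i1 := hinf s hs (w s) (b s) (a s)
    have i2 := hinf s hs (w s) (a s) (b s)
    have e0 : ((1 : ℝ), ((0 : D), Y s (w s))) =
        (1, (0, 0)) + MOS_inc n D (Y s (w s)) := by
      rw [MOS_inc_apply]
      simp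
    rw [e0]
    simp only [map_add, add_apply]
    rw [hsymm _ (1, (0, 0)) (MOS_inc n D (a s)), hsymm _ (1, (0, 0)) (MOS_inc n D (b s)),
      hsymm _ (MOS_inc n D (Y s (w s))) (MOS_inc n D (a s)),
      hsymm _ (MOS_inc n D (Y s (w s))) (MOS_inc n D (b s))]
    rw [hsymm _ (MOS_inc n D (b s)) (MOS_inc n D (a s))] at i2
    have s1 : omegaStd (fderiv ℝ (Y s) (w s) (b s)) (a s) =
        -omegaStd (a s) (fderiv ℝ (Y s) (w s) (b s)) := omegaStd_swap _ _
    rw [s1] at i2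
    linear_combination i1 - i2
  exact constant_of_has_deriv_right_zero (f := h)
    (fun x hx => (hder x hx).continuousAt.continuousWithinAt)
    (fun x hx => (hder x (Ico_subset_Icc_self hx)).hasDerivWithinAt) s hs

/-- the operator of the form -/
noncomputable def MOS_op (L : ℝ × (D × Phase n) →L[ℝ] (Phase n →L[ℝ] ℝ)) :
    Phase n →L[ℝ] Phase n :=
  ContinuousLinearMap.id ℝ (Phase n) + (sharp n).comp
    (L.comp (MOS_inc n D) - (L.comp (MOS_inc n D)).flip)

lemma omegaStd_MOS_op (L : ℝ × (D × Phase n) →L[ℝ] (Phase n →L[ℝ] ℝ)) (a b : Phase n) :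
    omegaStd (MOS_op L a) b = omegaStd a b + L (MOS_inc n D a) b - L (MOS_inc n D b) a := by
  have h1 : MOS_op L a = a + sharp n (L (MOS_inc n D a) - (L.comp (MOS_inc n D)).flip a) := rfl
  rw [h1, omegaStd_add_left, omegaStd_sharp]
  simp only [sub_apply, ContinuousLinearMap.flip_apply, ContinuousLinearMap.comp_apply]
  ring

lemma contDiff_MOS_op : ContDiff ℝ ∞ (MOS_op (n := n) (D := D)) := by
  have h1 : ContDiff ℝ ∞ (fun L : ℝ × (D × Phase n) →L[ℝ] (Phase n →L[ℝ] ℝ) =>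
      L.comp (MOS_inc n D)) := contDiff_id.clm_comp contDiff_const
  have h2 : ContDiff ℝ ∞ (fun L : ℝ × (D × Phase n) →L[ℝ] (Phase n →L[ℝ] ℝ) =>
      (L.comp (MOS_inc n D)).flip) :=
    (ContinuousLinearMap.flipₗᵢ ℝ (Phase n) (Phase n) ℝ).contDiff.comp h1
  exact contDiff_const.add (contDiff_const.clm_comp (h1.sub h2))

/-- the fibre component of the field -/
noncomputable def MOS_Y (β : ℝ × (D × Phase n) → (Phase n →L[ℝ] ℝ)) (s : ℝ) (x : D × Phase n) :
    Phase n :=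
  -(ContinuousLinearMap.inverse (MOS_op (fderiv ℝ β (s, x)))
    (sharp n (fderiv ℝ β (s, x) (1, (0, 0)))))

lemma MOS_injective {β : ℝ × (D × Phase n) → (Phase n →L[ℝ] ℝ)} (hβ : ContDiff ℝ ∞ β) {s : ℝ}
    (h : ∀ d w a, (∀ b, vform β s d w a b = 0) → a = 0) (x : D × Phase n) :
    Injective (MOS_op (fderiv ℝ β (s, x))) := by
  rw [injective_iff_map_eq_zero]
  intro a ha
  apply h x.1 x.2 a
  intro b
  rw [MOS_vform hβ, ← omegaStd_MOS_op]
  change omegaStd (MOS_op (fderiv ℝ β (s, x)) a) b = 0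
  rw [ha, omegaStd_zero_left]

lemma MOS_spec {β : ℝ × (D × Phase n) → (Phase n →L[ℝ] ℝ)} (hβ : ContDiff ℝ ∞ β) {s : ℝ}
    (h : ∀ d w a, (∀ b, vform β s d w a b = 0) → a = 0) (x : D × Phase n) (c : Phase n) :
    omegaStd (MOS_Y β s x) c + fderiv ℝ β (s, x) (MOS_inc n D (MOS_Y β s x)) c -
      fderiv ℝ β (s, x) (MOS_inc n D c) (MOS_Y β s x) = -fderiv ℝ β (s, x) (1, (0, 0)) c := by
  rw [← omegaStd_MOS_op]
  have h5 := coe_cleOfInjective _ (MOS_injective hβ h x)
  set e := cleOfInjective _ (MOS_injective hβ h x) with he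
  have h6 : MOS_op (fderiv ℝ β (s, x)) (MOS_Y β s x) =
      -sharp n (fderiv ℝ β (s, x) (1, (0, 0))) := by
    rw [MOS_Y, map_neg, ← h5, ContinuousLinearMap.inverse_equiv]
    simp
  rw [h6]
  have h7 : ∀ v : Phase n, omegaStd (-v) c = -omegaStd v c := by
    intro v
    rw [← neg_one_smul ℝ, omegaStd_smul_left]
    ring
  rw [h7, omegaStd_sharp]

lemma MOS_dzero {E F : Type} [NormedAddCommGroup E] [NormedSpace ℝ E] [NormedAddCommGroup F]
    [NormedSpace ℝ F] {β : ℝ × E → F} {s : ℝ} {x : E} (hβ : DifferentiableAt ℝ β (s, x))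
    (hs : s ∈ Icc (0 : ℝ) 1) (h : ∀ s' ∈ Icc (0 : ℝ) 1, β (s', x) = β (0, x)) :
    fderiv ℝ β (s, x) (1, 0) = 0 := by
  have h1 : HasDerivAt (fun s' : ℝ => ((s', x) : ℝ × E)) (1, 0) s :=
    (hasDerivAt_id s).prodMk (hasDerivAt_const s x)
  have h2 : HasDerivAt (fun s' : ℝ => β (s', x)) (fderiv ℝ β (s, x) (1, 0)) s :=
    hβ.hasFDerivAt.comp_hasDerivAt s h1
  have h3 : HasDerivWithinAt (fun s' : ℝ => β (s', x)) 0 (Icc 0 1) s :=
    (hasDerivWithinAt_const s (Icc 0 1) (β (0, x))).congr (fun s' hs' => h s' hs') (h s hs)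
  exact (uniqueDiffOn_Icc zero_lt_one s hs).eq_deriv _ h2.hasDerivWithinAt h3

lemma MOS_Y_zero {β : ℝ × (D × Phase n) → (Phase n →L[ℝ] ℝ)} (hβ : ContDiff ℝ ∞ β) {s : ℝ}
    (hs : s ∈ Icc (0 : ℝ) 1) {x : D × Phase n}
    (h : ∀ s' ∈ Icc (0 : ℝ) 1, β (s', x) = β (0, x)) : MOS_Y β s x = 0 := by
  have h1 : fderiv ℝ β (s, x) (1, (0, 0)) = 0 :=
    MOS_dzero ((hβ.differentiable (by simp)) (s, x)) hs h
  rw [MOS_Y, h1, map_zero, map_zero, neg_zero]

variable {T : Type} [TopologicalSpace T]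

lemma CF_MOS_Y {β : T → ℝ × (D × Phase n) → (Phase n →L[ℝ] ℝ)} (hβ : CF β)
    (h : ∀ t, ∀ s ∈ Icc (0 : ℝ) 1, ∀ d w a, (∀ b, vform (β t) s d w a b = 0) → a = 0) :
    CF (fun (p : T × Icc (0 : ℝ) 1) (x : D × Phase n) => MOS_Y (β p.1) p.2 x) := by
  have h0 : CF (fun (p : T × Icc (0 : ℝ) 1) (x : D × Phase n) => (((p.2 : ℝ), x) :
      ℝ × (D × Phase n))) :=
    (CF.param (continuous_subtype_val.comp continuous_snd)).prodMk (CF.const contDiff_id)
  have h1 : CF (fun (p : T × Icc (0 : ℝ) 1) (x : D × Phase n) =>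
      fderiv ℝ (β p.1) ((p.2 : ℝ), x)) :=
    CF.comp (F := fun (p : T × Icc (0 : ℝ) 1) q => fderiv ℝ (β p.1) q)
      (hβ.fderiv.base continuous_fst) h0
  have h2 : CF (fun (p : T × Icc (0 : ℝ) 1) (x : D × Phase n) =>
      MOS_op (fderiv ℝ (β p.1) ((p.2 : ℝ), x))) :=
    h1.comp_smooth (fun _ _ => contDiff_MOS_op.contDiffAt)
  have h3 : CF (fun (p : T × Icc (0 : ℝ) 1) (x : D × Phase n) =>
      ContinuousLinearMap.inverse (MOS_op (fderiv ℝ (β p.1) ((p.2 : ℝ), x)))) := by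
    apply h2.comp_smooth
    intro p x
    have h5 := coe_cleOfInjective _ (MOS_injective (hβ.contDiff p.1) (h p.1 p.2 p.2.2) x)
    rw [← h5]
    exact contDiffAt_map_inverse _
  have h4 : CF (fun (p : T × Icc (0 : ℝ) 1) (x : D × Phase n) =>
      sharp n (fderiv ℝ (β p.1) ((p.2 : ℝ), x) (1, (0, 0)))) :=
    h1.clm ((sharp n).comp (ContinuousLinearMap.apply ℝ (Phase n →L[ℝ] ℝ)
      ((1, (0, 0)) : ℝ × (D × Phase n))))
  exact (h3.clm_apply h4).clm (-(ContinuousLinearMap.id ℝ (Phase n)))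

end MOS

theorem thm_mosV : St_mosV := by
  intro n D _ _ _ T _ _ β A ρ hβ hfar hnd
  have : ProperSpace D := FiniteDimensional.proper_real D
  have hbs : ∀ t, ContDiff ℝ ∞ (β t) := hβ.contDiff
  set X : T × Icc (0 : ℝ) 1 → D × Phase n → D × Phase n :=
    fun p x => ((0 : D), MOS_Y (β p.1) p.2 x) with hX
  have hYCF := CF_MOS_Y hβ hnd
  have hXCF : CF X := hYCF.clm (ContinuousLinearMap.inr ℝ D (Phase n))
  set K : Set (D × Phase n) := Metric.closedBall 0 A ×ˢ Metric.closedBall 0 ρ with hKdef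
  have hK : IsCompact K := (isCompact_closedBall 0 A).prod (isCompact_closedBall 0 ρ)
  have hfarK : ∀ x ∉ K, A < ‖x.1‖ ∨ ρ < ‖x.2‖ := by
    intro x hx
    by_contra h
    push Not at h
    exact hx ⟨by simpa using h.1, by simpa using h.2⟩
  have hX0' : ∀ (t : T) (s : Icc (0 : ℝ) 1) (x : D × Phase n),
      (∀ s' ∈ Icc (0 : ℝ) 1, β t (s', x) = β t (0, x)) → X (t, s) x = 0 := by
    intro t s x h
    change ((0 : D), MOS_Y (β t) s x) = 0
    rw [MOS_Y_zero (hbs t) s.2 h]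
    rfl
  have hX0 : ∀ x : D × Phase n, (A < ‖x.1‖ ∨ ρ < ‖x.2‖) → ∀ p, X p x = 0 := fun x hx p =>
    hX0' p.1 p.2 x fun s' hs' => hfar p.1 s' hs' x.1 x.2 hx
  obtain ⟨C, hC⟩ : ∃ C, ∀ (p : T × Icc (0 : ℝ) 1) (x : D × Phase n), ‖fderiv ℝ (X p) x‖ ≤ C := by
    obtain ⟨C, hC⟩ := ((isCompact_univ (X := T × Icc (0 : ℝ) 1)).prod hK).exists_bound_of_continuousOn
      hXCF.fderiv.continuous.continuousOn
    refine ⟨max C 0, fun p x => ?_⟩
    by_cases hx : x ∈ K
    · exact (hC (p, x) ⟨mem_univ _, hx⟩).trans (le_max_left _ _)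
    · have h1 : X p =ᶠ[𝓝 x] fun _ => 0 := by
        filter_upwards [hK.isClosed.isOpen_compl.mem_nhds hx] with y hy
        exact hX0 y (hfarK y hy) p
      rw [h1.fderiv_eq, (hasFDerivAt_const (0 : D × Phase n) x).fderiv, norm_zero]
      exact le_max_right _ _
  obtain ⟨θ, hθ, heq, hfix⟩ := exists_flow X hXCF hC
  -- the first component of the flow
  have hfst : ∀ (t : T) (s : Icc (0 : ℝ) 1) (x : D × Phase n), (θ (t, s) x).1 = x.1 := by
    intro t s x
    obtain ⟨r, B, hr, hB, hrd, hBd, hr0, hB0⟩ := flow_ode hXCF hθ heq t x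
    have h1 : ∀ τ ∈ Icc (0 : ℝ) 1, HasDerivAt (fun τ => (r τ).1) 0 τ := by
      intro τ hτ
      exact (ContinuousLinearMap.fst ℝ D (Phase n)).hasFDerivAt.comp_hasDerivAt τ (hrd ⟨τ, hτ⟩)
    have h2 := constant_of_has_deriv_right_zero (f := fun τ => (r τ).1)
      (fun x hx => (h1 x hx).continuousAt.continuousWithinAt)
      (fun x hx => (h1 x (Ico_subset_Icc_self hx)).hasDerivWithinAt) s s.2
    rw [← hr s, h2, hr0]
  refine ⟨fun p x => (θ p x).2, hθ.clm (ContinuousLinearMap.snd ℝ D (Phase n)), ?_, ?_, ?_, ?_⟩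
  · intro t d w
    change (θ (t, (0 : I)) (d, w)).2 = w
    rw [heq]
    simp
  · intro q d w h
    change (θ q (d, w)).2 = w
    rw [hfix (d, w) (hX0 (d, w) h) q]
  · intro t s d w a b
    obtain ⟨r, B, hr, hB, hrd, hBd, hr0, hB0⟩ := flow_ode hXCF hθ heq t (d, w)
    have hr1 : ∀ τ ∈ Icc (0 : ℝ) 1, r τ = (d, (r τ).2) := by
      intro τ hτ
      refine Prod.ext ?_ rfl
      rw [hr ⟨τ, hτ⟩]
      exact hfst t ⟨τ, hτ⟩ (d, w)
    -- derivatives of the components of the field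
    have hXf : ∀ (τ : Icc (0 : ℝ) 1) (x v : D × Phase n),
        fderiv ℝ (X (t, τ)) x v = (0, fderiv ℝ (fun y => MOS_Y (β t) τ y) x v) := by
      intro τ x v
      have h1 : HasFDerivAt (fun y => MOS_Y (β t) τ y) (fderiv ℝ (fun y => MOS_Y (β t) τ y) x) x :=
        (hYCF.differentiable (t, τ) x).hasFDerivAt
      have h2 := (hasFDerivAt_const (0 : D) x).prodMk h1
      rw [h2.fderiv]
      rfl
    have hB1 : ∀ (c : Phase n), ∀ τ ∈ Icc (0 : ℝ) 1, B τ (0, c) = (0, (B τ (0, c)).2) := by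
      intro c τ hτ
      refine Prod.ext ?_ rfl
      have h1 : ∀ τ ∈ Icc (0 : ℝ) 1, HasDerivAt (fun τ => (B τ (0, c)).1) 0 τ := by
        intro τ hτ
        have h2 := (hBd ⟨τ, hτ⟩).clm_apply (hasDerivAt_const τ ((0 : D), c))
        have h3 := (ContinuousLinearMap.fst ℝ D (Phase n)).hasFDerivAt.comp_hasDerivAt τ h2
        refine h3.congr_deriv ?_
        rw [map_zero, add_zero, ContinuousLinearMap.comp_apply, hXf]
        rfl
      have h2 := constant_of_has_deriv_right_zero (f := fun τ => (B τ (0, c)).1)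
        (fun x hx => (h1 x hx).continuousAt.continuousWithinAt)
        (fun x hx => (h1 x (Ico_subset_Icc_self hx)).hasDerivWithinAt) τ hτ
      rw [hB0] at h2
      exact h2
    have hBder : ∀ (c : Phase n), ∀ τ ∈ Icc (0 : ℝ) 1, HasDerivAt (fun τ => (B τ (0, c)).2)
        (fderiv ℝ (fun w' => MOS_Y (β t) τ (d, w')) ((r τ).2) ((B τ (0, c)).2)) τ := by
      intro c τ hτ
      have h2 := (hBd ⟨τ, hτ⟩).clm_apply (hasDerivAt_const τ ((0 : D), c))
      have h3 := (ContinuousLinearMap.snd ℝ D (Phase n)).hasFDerivAt.comp_hasDerivAt τ h2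
      refine h3.congr_deriv ?_
      rw [map_zero, add_zero, ContinuousLinearMap.comp_apply, hXf]
      change fderiv ℝ (fun y => MOS_Y (β t) τ y) (r τ) (B τ (0, c)) = _
      have h4 : HasFDerivAt (fun w' : Phase n => ((d, w') : D × Phase n))
          (ContinuousLinearMap.inr ℝ D (Phase n)) (r τ).2 :=
        (hasFDerivAt_const d (r τ).2).prodMk (hasFDerivAt_id (r τ).2)
      have h5 : HasFDerivAt (fun y => MOS_Y (β t) τ y)
          (fderiv ℝ (fun y => MOS_Y (β t) τ y) (d, (r τ).2)) (d, (r τ).2) :=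
        (hYCF.differentiable (t, ⟨τ, hτ⟩) _).hasFDerivAt
      have h6 := h5.comp (r τ).2 h4
      have h7 : fderiv ℝ (fun w' => MOS_Y (β t) τ (d, w')) ((r τ).2) =
          (fderiv ℝ (fun y => MOS_Y (β t) τ y) (d, (r τ).2)).comp
            (ContinuousLinearMap.inr ℝ D (Phase n)) := h6.fderiv
      rw [h7, ContinuousLinearMap.comp_apply, ContinuousLinearMap.inr_apply, ← hB1 c τ hτ,
        ← hr1 τ hτ]
    have hwder : ∀ τ ∈ Icc (0 : ℝ) 1, HasDerivAt (fun τ => (r τ).2)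
        (MOS_Y (β t) τ (d, (r τ).2)) τ := by
      intro τ hτ
      have h3 := (ContinuousLinearMap.snd ℝ D (Phase n)).hasFDerivAt.comp_hasDerivAt τ
        (hrd ⟨τ, hτ⟩)
      refine h3.congr_deriv ?_
      change MOS_Y (β t) τ (r τ) = _
      rw [← hr1 τ hτ]
    have hYd : ∀ τ ∈ Icc (0 : ℝ) 1, Differentiable ℝ (fun w' => MOS_Y (β t) τ (d, w')) := by
      intro τ hτ
      exact (hYCF.differentiable (t, ⟨τ, hτ⟩)).comp
        ((differentiable_const d).prodMk differentiable_id)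
    have hcons := MOS_cons (hbs t) d (Y := fun τ w' => MOS_Y (β t) τ (d, w')) hYd
      (fun τ hτ w' c => MOS_spec (hbs t) (hnd t τ hτ) (d, w') c) hwder (hBder a) (hBder b) s s.2
    rw [hr0, hB0] at hcons
    -- the derivative of the second component of the flow
    have hM : ∀ c : Phase n, fderiv ℝ (fun w' => (θ (t, s) (d, w')).2) w c =
        (B s (0, c)).2 := by
      intro c
      have h4 : HasFDerivAt (fun w' : Phase n => ((d, w') : D × Phase n))
          (ContinuousLinearMap.inr ℝ D (Phase n)) w :=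
        (hasFDerivAt_const d w).prodMk (hasFDerivAt_id w)
      have h5 := (hθ.differentiable (t, s) (d, w)).hasFDerivAt.comp w h4
      have h6 := (ContinuousLinearMap.snd ℝ D (Phase n)).hasFDerivAt.comp w h5
      have h7 : fderiv ℝ (fun w' => (θ (t, s) (d, w')).2) w =
          (ContinuousLinearMap.snd ℝ D (Phase n)).comp
            ((fderiv ℝ (θ (t, s)) (d, w)).comp (ContinuousLinearMap.inr ℝ D (Phase n))) :=
        h6.fderiv
      rw [h7, hB s]
      rfl
    change vform (β t) s d ((θ (t, s) (d, w)).2)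
      (fderiv ℝ (fun w' => (θ (t, s) (d, w')).2) w a)
      (fderiv ℝ (fun w' => (θ (t, s) (d, w')).2) w b) = vform (β t) 0 d w a b
    rw [hM, hM, ← hr s]
    exact hcons
  · intro t d h s w
    change (θ (t, s) (d, w)).2 = w
    rw [heq]
    have h1 : ∀ τ : ℝ, X (t, pr τ) (θ (t, pr τ) (d, w)) = 0 := by
      intro τ
      apply hX0'
      have h2 : θ (t, pr τ) (d, w) = (d, (θ (t, pr τ) (d, w)).2) :=
        Prod.ext (hfst t (pr τ) (d, w)) rfl
      intro s' hs'
      rw [h2]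
      exact h s' hs' _
    simp [h1]

end Pool.Agent.KRW
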