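import Mathlib
import Pool.Agent.KRW.St
import Pool.Agent.KRW.Split

/-!
# The scattering map

`thm_mapD`: `St_topR`, `St_scEx`, `St_scUn` and `St_cubE` imply `St_mapD`.
-/

set_option maxSynthPendingDepth 3

open scoped ContDiff Topology unitInterval
open Set Function TopologicalSpace Filter

namespace Pool.Agent.KRW

open Pool.Agent.Helper17 Pool.Agent.Helper42 Pool.Agent.H42.Hull

variable {m k j : ℕ}

/-! ### The two descriptions of scatterings -/

lemma boxPt_inl_zero (R : ℝ) (ξ η : Fin k → I) (a b : I) :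
    (boxPt R ξ η a b) (Sum.inl 0) = R * (2 * (a : ℝ) - 1) := rfl

lemma boxPt_inr_zero (R : ℝ) (ξ η : Fin k → I) (a b : I) :
    (boxPt R ξ η a b) (Sum.inr 0) = R * (2 * (b : ℝ) - 1) := rfl

lemma boxPt_inl_succ (R : ℝ) (ξ η : Fin k → I) (a b : I) (i : Fin k) :
    (boxPt R ξ η a b) (Sum.inl i.succ) = R * (2 * (ξ i : ℝ) - 1) := rfl

lemma boxPt_inr_succ (R : ℝ) (ξ η : Fin k → I) (a b : I) (i : Fin k) :
    (boxPt R ξ η a b) (Sum.inr i.succ) = R * (2 * (η i : ℝ) - 1) := rfl

/-- The side coordinates of a point and those of a point of the box. -/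
lemma sideB_eq_iff (R : ℝ) (z : Bx k) (a b : I) (p : Phase (m + (k + 1))) :
    sideB p = bxPt R z (a, b) - ((bxPt R z (a, b) : Phase (k + 1)) (Sum.inr 0)) • eB k ↔
      (fstPt m (k + 1) p) (Sum.inl 0) = R * (2 * (a : ℝ) - 1) ∧
        ∀ i : Fin k, (fstPt m (k + 1) p) (Sum.inl i.succ) = R * (2 * (z.1 i : ℝ) - 1) ∧
          (fstPt m (k + 1) p) (Sum.inr i.succ) = R * (2 * (z.2 i : ℝ) - 1) := by
  have hne : ∀ i : Fin k, (Sum.inr i.succ : Fin (k + 1) ⊕ Fin (k + 1)) ≠ Sum.inr 0 := by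
    intro i h
    exact Fin.succ_ne_zero i (Sum.inr_injective h)
  have hR : ∀ i : Fin (k + 1) ⊕ Fin (k + 1), i ≠ Sum.inr 0 →
      (bxPt R z (a, b) - ((bxPt R z (a, b) : Phase (k + 1)) (Sum.inr 0)) • eB k :
        Phase (k + 1)) i = (boxPt R z.1 z.2 a b) i := by
    intro i hi
    change (bxPt R z (a, b)) i - _ * (eB k) i = _
    rw [eB_apply_ne hi, mul_zero, sub_zero]
    rfl
  have hR0 : (bxPt R z (a, b) - ((bxPt R z (a, b) : Phase (k + 1)) (Sum.inr 0)) • eB k :
        Phase (k + 1)) (Sum.inr 0) = 0 := by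
    change (bxPt R z (a, b)) (Sum.inr 0) - _ * (eB k) (Sum.inr 0) = _
    rw [eB_inr, mul_one]
    exact sub_self _
  constructor
  · intro h
    have h1 : ∀ i : Fin (k + 1) ⊕ Fin (k + 1), i ≠ Sum.inr 0 →
        (fstPt m (k + 1) p) i = (boxPt R z.1 z.2 a b) i := by
      intro i hi
      rw [← prK_eq_fstPt, ← sideB_ne p hi, h, hR i hi]
    refine ⟨h1 _ (by simp), fun i => ⟨h1 _ (by simp), h1 _ (hne i)⟩⟩
  · rintro ⟨h0, h1⟩
    ext i
    by_cases hi : i = Sum.inr 0
    · subst hi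
      rw [sideB_inr, hR0]
    · rw [sideB_ne p hi, hR i hi, prK_eq_fstPt]
      rcases i with i | i
      · refine Fin.cases ?_ (fun i => ?_) i
        · exact h0
        · exact (h1 i).1
      · revert hi
        refine Fin.cases (fun hi => absurd rfl hi) (fun i _ => ?_) i
        exact (h1 i).2

lemma ueK_apply (e : LoopG (k + k + j + 1) m) (t : Fin j → I) (z : Bx k) (a : I) :
    ueK e ((t, z), a) = e.1 (Fin.snoc (Fin.append (Fin.append z.1 z.2) t) a) := rfl

lemma isScatK_iff (F : LoopR j m (k + 1)) (e : LoopG (k + k + j + 1) m) :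
    IsScatK F e ↔ IsScatF (fun t => F.at t) (ueK e) := by
  constructor
  · rintro ⟨ρ, hρ, h1, h2⟩
    refine ⟨ρ, hρ, fun t p hp => by rw [prK_eq_fstPt]; exact h1 t p hp, ?_⟩
    intro t c hc s s' z a b hs hs' hz
    obtain ⟨h3, h4⟩ := (sideB_eq_iff ρ z a b (c s)).1 hz
    rw [yB, prK_eq_fstPt] at hs hs'
    rw [prW_eq_lstPt, prW_eq_lstPt]
    exact h2 t c hc s s' z.1 z.2 a hs hs' h3 h4
  · rintro ⟨ρ, hρ, h1, h2⟩
    refine ⟨ρ, hρ, fun t p hp => by rw [← prK_eq_fstPt]; exact h1 t p hp, ?_⟩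
    intro t c hc s s' ξ η a hs hs' h3 h4
    rw [← prK_eq_fstPt] at hs hs'
    rw [← prW_eq_lstPt, ← prW_eq_lstPt]
    exact h2 t c hc s s' (ξ, η) a 0 hs hs' ((sideB_eq_iff ρ (ξ, η) a 0 (c s)).2 ⟨h3, h4⟩)

/-! ### Restriction of scatterings -/

/-- The map on the domains of scatterings induced by a map of the parameter spaces. -/
def mapE {S T : Type} [TopologicalSpace S] [TopologicalSpace T] (k : ℕ) (c : C(S, T)) :
    C((S × Bx k) × I, (T × Bx k) × I) :=
  ⟨fun q => ((c q.1.1, q.1.2), q.2), by fun_prop⟩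

lemma mapE_apply {S T : Type} [TopologicalSpace S] [TopologicalSpace T] (c : C(S, T))
    (q : (S × Bx k) × I) : mapE k c q = ((c q.1.1, q.1.2), q.2) := rfl

lemma isScatAt_comp {S T : Type} [TopologicalSpace S] [TopologicalSpace T] (c : C(S, T)) {ρ : ℝ}
    {F : T → Phase (m + (k + 1)) → Phase (k + 1)} {e : C((T × Bx k) × I, SympCt m)}
    (h : IsScatAt ρ F e) : IsScatAt ρ (fun s => F (c s)) (e.comp (mapE k c)) :=
  ⟨fun s p hp => h.1 (c s) p hp, fun s γ hγ u u' z a b h1 h2 h3 =>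
    h.2 (c s) γ hγ u u' z a b h1 h2 h3⟩

/-! ### Cube coordinates -/

/-- The direction in the cube of dimension `k + k + j + 1` which corresponds to the direction `i`
of the cube of dimension `j`. -/
def dirK (k : ℕ) (i : Fin j) : Fin (k + k + j + 1) := (Fin.natAdd (k + k) i).castSucc

/-- All the coordinates. -/
def allK (k j : ℕ) (q : ((Fin j → I) × Bx k) × I) : Fin (k + k + j + 1) → I :=
  Fin.snoc (α := fun _ => I) (Fin.append (Fin.append q.1.2.1 q.1.2.2) q.1.1) q.2

lemma exists_allK (y : Fin (k + k + j + 1) → I) : ∃ q, allK k j q = y := by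
  refine ⟨((fun i => y (Fin.natAdd (k + k) i).castSucc,
    (fun i => y (Fin.castAdd j (Fin.castAdd k i)).castSucc,
      fun i => y (Fin.castAdd j (Fin.natAdd k i)).castSucc)), y (Fin.last _)), ?_⟩
  ext1 i
  refine Fin.lastCases ?_ (fun i => ?_) i
  · simp only [allK, Fin.snoc_last]
  · simp only [allK, Fin.snoc_castSucc]
    refine Fin.addCases (fun i => ?_) (fun i => ?_) i
    · refine Fin.addCases (fun i => ?_) (fun i => ?_) i
      · simp only [Fin.append_left]
      · simp only [Fin.append_left, Fin.append_right]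
    · simp only [Fin.append_right]

lemma allK_dir (q : ((Fin j → I) × Bx k) × I) (i : Fin j) :
    allK k j q (dirK k i) = q.1.1 i := by
  simp only [allK, dirK, Fin.snoc_castSucc, Fin.append_right]

lemma allK_update (q : ((Fin j → I) × Bx k) × I) (i : Fin j) (x : I) :
    allK k j ((Function.update q.1.1 i x, q.1.2), q.2) =
      Function.update (allK k j q) (dirK k i) x := by
  ext1 l
  refine Fin.lastCases ?_ (fun l => ?_) l
  · have h : Fin.last (k + k + j) ≠ dirK k i := (Fin.castSucc_lt_last _).ne'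
    rw [Function.update_of_ne h]
    simp only [allK, Fin.snoc_last]
  · refine Fin.addCases (fun l => ?_) (fun l => ?_) l
    · have h : (Fin.castAdd j l).castSucc ≠ dirK k i := by
        intro h
        have h1 := congrArg Fin.val h
        have h2 := l.2
        simp only [dirK, Fin.val_castSucc, Fin.val_castAdd, Fin.val_natAdd] at h1
        omega
      rw [Function.update_of_ne h]
      simp only [allK, Fin.snoc_castSucc, Fin.append_left]
    · by_cases hl : l = i
      · subst hl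
        have h : (Fin.natAdd (k + k) l).castSucc = dirK k l := rfl
        rw [h, Function.update_self, allK_dir]
        change Function.update q.1.1 l x l = x
        rw [Function.update_self]
      · have h : (Fin.natAdd (k + k) l).castSucc ≠ dirK k i := by
          intro h
          apply hl
          apply Fin.ext
          have h1 := congrArg Fin.val h
          simp only [dirK, Fin.val_castSucc, Fin.val_natAdd] at h1
          omega
        rw [Function.update_of_ne h]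
        simp only [allK, Fin.snoc_castSucc, Fin.append_right]
        rw [Function.update_of_ne hl]

lemma allK_hlf1 (q : ((Fin j → I) × Bx k) × I) (i : Fin j) :
    allK k j ((hlf1 i q.1.1, q.1.2), q.2) = hlf1 (dirK k i) (allK k j q) := by
  rw [hlf1, hlf1, allK_update, allK_dir]

lemma allK_hlf2 (q : ((Fin j → I) × Bx k) × I) (i : Fin j) :
    allK k j ((hlf2 i q.1.1, q.1.2), q.2) = hlf2 (dirK k i) (allK k j q) := by
  rw [hlf2, hlf2, allK_update, allK_dir]

lemma ueK_eq_allK (e : LoopG (k + k + j + 1) m) (q : ((Fin j → I) × Bx k) × I) :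
    ueK e q = e.1 (allK k j q) := rfl

/-! ### The theorem -/

/-- Two scatterings of homotopic loops of rows are homotopic. -/
lemma cls_eq_of_scat (hT : St_topR) (hE : St_scEx) (hU : St_scUn) (hC : St_cubE)
    (F F' : LoopR j m (k + 1)) (e e' : LoopG (k + k + j + 1) m) (h : F.cls = F'.cls)
    (he : IsScatK F e) (he' : IsScatK F' e') : e.cls = e'.cls := by
  obtain ⟨hT1, hT2, -, hT4, -⟩ := hT j m (k + 1)
  obtain ⟨hC1, -, -, -⟩ := hC j m k
  obtain ⟨R, H, hR, hH, hH0, hH1, hHb⟩ := (hT4 F F').1 h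
  obtain ⟨ρ, hρ, hex⟩ := hE m k ((Fin j → I) × I) R H hR hH
  obtain ⟨u, hu, hutriv, hubd⟩ := hex ρ le_rfl
  rw [hC1]
  rw [isScatK_iff] at he he'
  have key : ∀ (G : LoopR j m (k + 1)) (g : C(((Fin j → I) × Bx k) × I, SympCt m)) (s : I),
      IsScatF (fun t => G.at t) g → (∀ t p, H (t, s) p = G.at t p) →
      g.HomotopicRel (u.comp (mapE k ⟨fun t : Fin j → I => (t, s), by fun_prop⟩))
        (bdE k (Cube.boundary (Fin j))) := by
    intro G g s hg hs
    obtain ⟨RG, hRG, hJ⟩ := hT1 G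
    obtain ⟨r, hr, hg⟩ := hg
    have h1 := isScatAt_comp (⟨fun t : Fin j → I => (t, s), by fun_prop⟩ : C(_, (Fin j → I) × I)) hu
    have h2 : (fun t : Fin j → I => H ((⟨fun t : Fin j → I => (t, s), by fun_prop⟩ :
        C(_, (Fin j → I) × I)) t)) = fun t => G.at t := by
      funext t p
      exact hs t p
    rw [h2] at h1
    exact (hU m k (Fin j → I) (Cube.boundary (Fin j)) RG (fun t => G.at t) hRG hJ
      (fun t ht p => hT2 G t ht p) r ρ g _ hr hρ hg h1).1
  have k0 := key F _ 0 he hH0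
  have k1 := key F' _ 1 he' hH1
  refine k0.trans (ContinuousMap.HomotopicRel.trans ?_ k1.symm)
  have hbd : ∀ (s : I) (q : ((Fin j → I) × Bx k) × I), q ∈ bdE k (Cube.boundary (Fin j)) →
      u (((q.1.1, s), q.1.2), q.2) = 1 := by
    rintro s q ((ht | hz) | ha)
    · exact hutriv (q.1.1, s) (fun p => hHb q.1.1 ht s p) q.1.2 q.2
    · exact hubd _ (Or.inl (Or.inr hz))
    · exact hubd _ (Or.inr ha)
  exact ⟨{
    toFun := fun x => u (((x.2.1.1, x.1), x.2.1.2), x.2.2)
    continuous_toFun := by fun_prop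
    map_zero_left := fun q => rfl
    map_one_left := fun q => rfl
    prop' := fun s q hq => by
      change u (((q.1.1, s), q.1.2), q.2) = u (((q.1.1, 0), q.1.2), q.2)
      rw [hbd s q hq, hbd 0 q hq] }⟩

lemma exists_isScatK (hT : St_topR) (hE : St_scEx) (hC : St_cubE) (F : LoopR j m (k + 1)) :
    ∃ e : LoopG (k + k + j + 1) m, IsScatK F e := by
  obtain ⟨hT1, hT2, -, -, -⟩ := hT j m (k + 1)
  obtain ⟨-, -, -, hC4⟩ := hC j m k
  obtain ⟨R, hR, hJ⟩ := hT1 F
  obtain ⟨ρ, hρ, hex⟩ := hE m k (Fin j → I) R (fun t => F.at t) hR hJ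
  obtain ⟨u, hu, hutriv, hubd⟩ := hex ρ le_rfl
  obtain ⟨e, he⟩ := hC4 u (by
    rintro q ((ht | hz) | ha)
    · exact hutriv q.1.1 (fun p => hT2 F q.1.1 ht p) q.1.2 q.2
    · exact hubd _ (Or.inl (Or.inr hz))
    · exact hubd _ (Or.inr ha))
  refine ⟨e, ?_⟩
  rw [isScatK_iff, he]
  exact ⟨ρ, hρ, hu⟩

/-- The restriction of a scattering to a half of the cube. -/
lemma exists_half (hT : St_topR) (hU : St_scUn) (hC : St_cubE)
    (c : C((Fin j → I), (Fin j → I))) (G F : LoopR j m (k + 1))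
    (hF : ∀ t p, F.at t p = G.at (c t) p) (e : LoopG (k + k + j + 1) m) (he : IsScatK G e) :
    ∃ e₁ : LoopG (k + k + j + 1) m, IsScatK F e₁ ∧
      ∀ q : ((Fin j → I) × Bx k) × I, e₁.1 (allK k j q) = e.1 (allK k j ((c q.1.1, q.1.2), q.2)) := by
  obtain ⟨hT1, hT2, -, -, -⟩ := hT j m (k + 1)
  obtain ⟨-, -, -, hC4⟩ := hC j m k
  rw [isScatK_iff] at he
  obtain ⟨ρ, hρ, he⟩ := he
  have h1 := isScatAt_comp c he
  have h2 : (fun t : Fin j → I => G.at (c t)) = fun t => F.at t := by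
    funext t p
    exact (hF t p).symm
  rw [h2] at h1
  obtain ⟨R, hR, hJ⟩ := hT1 F
  obtain ⟨e₁, he₁⟩ := hC4 ((ueK e).comp (mapE k c)) (hU m k (Fin j → I) (Cube.boundary (Fin j)) R
    (fun t => F.at t) hR hJ (fun t ht p => hT2 F t ht p) ρ ρ _ _ hρ hρ h1 h1).2
  refine ⟨e₁, ?_, fun q => ?_⟩
  · rw [isScatK_iff, he₁]
    exact ⟨ρ, hρ, h1⟩
  · have h3 := DFunLike.congr_fun he₁ q
    rw [ueK_eq_allK] at h3
    rw [h3]
    rfl

/-- MPD.  The scattering map (`St_mapD`), from the topology of loops of rows (`St_topR`), existence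
and uniqueness of scatterings (`St_scEx`, `St_scUn`) and the cube coordinates (`St_cubE`). -/
theorem thm_mapD (hT : St_topR) (hE : St_scEx) (hU : St_scUn) (hC : St_cubE) : St_mapD := by
  intro m k
  have h1 : ∀ j (c : PiR j m (k + 1)), ∃ y : PiG (k + k + j + 1) m,
      ∀ (F : LoopR j m (k + 1)) (e : LoopG (k + k + j + 1) m), F.cls = c → IsScatK F e →
        y = e.cls := by
    intro j c
    obtain ⟨F, hF⟩ : ∃ F : LoopR j m (k + 1), F.cls = c := Quotient.exists_rep c
    obtain ⟨e, he⟩ := exists_isScatK hT hE hC F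
    refine ⟨e.cls, fun F' e' hF' he' => ?_⟩
    exact cls_eq_of_scat hT hE hU hC F F' e e' (hF.trans hF'.symm) he he'
  choose d hd using h1
  refine ⟨d, fun j F e he => hd j _ F e rfl he, fun j F => exists_isScatK hT hE hC F, ?_⟩
  intro j a b
  obtain ⟨F, rfl⟩ : ∃ F : LoopR (j + 1) m (k + 1), F.cls = a := Quotient.exists_rep a
  obtain ⟨F', rfl⟩ : ∃ F : LoopR (j + 1) m (k + 1), F.cls = b := Quotient.exists_rep b
  set i : Fin (j + 1) := 0 with hi
  have hmul : F.cls * F'.cls = LoopR.cls (GenLoop.transAt i F' F) := hmk_mul _ i F F'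
  obtain ⟨e, he⟩ := exists_isScatK (j := j + 1) hT hE hC (GenLoop.transAt i F' F)
  have hh1 : ∀ t p, F'.at t p = LoopR.at (GenLoop.transAt i F' F)
      ((⟨hlf1 i, continuous_hlf1 i⟩ : C((Fin (j + 1) → I), (Fin (j + 1) → I))) t) p := by
    intro t p
    change (F'.1 t).map.fn p = ((GenLoop.transAt i F' F) (hlf1 i t)).map.fn p
    rw [transAt_hlf1]
    rfl
  have hh2 : ∀ t p, F.at t p = LoopR.at (GenLoop.transAt i F' F)
      ((⟨hlf2 i, continuous_hlf2 i⟩ : C((Fin (j + 1) → I), (Fin (j + 1) → I))) t) p := by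
    intro t p
    change (F.1 t).map.fn p = ((GenLoop.transAt i F' F) (hlf2 i t)).map.fn p
    rw [transAt_hlf2]
    rfl
  obtain ⟨e₁, he₁, h₁⟩ := exists_half hT hU hC _ _ F' hh1 e he
  obtain ⟨e₂, he₂, h₂⟩ := exists_half hT hU hC _ _ F hh2 e he
  have hm : e.cls = e₂.cls * e₁.cls := by
    refine hmk_mul_hmk (dirK k i) e e₁ e₂ (fun y => ?_) (fun y => ?_)
    · obtain ⟨q, rfl⟩ := exists_allK y
      rw [← allK_hlf1]
      exact h₁ q
    · obtain ⟨q, rfl⟩ := exists_allK y
      rw [← allK_hlf2]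
      exact h₂ q
  rw [hmul, hd (j + 1) _ _ e rfl he, hd (j + 1) _ F e₂ rfl he₂, hd (j + 1) _ F' e₁ rfl he₁, hm]

end Pool.Agent.KRW
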