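import Mathlib
import Pool.Agent.KRW.St

/-!
# The inclusion of the symplectomorphisms into the fibrewise symplectic maps

`thm_mapI` (from `St_ret`, `St_topF`, `St_fSymp`, `St_fToSymp`): the inclusion of `Symp_ct` into
the space of fibrewise symplectic maps induces bijections, and homomorphisms, on all homotopy
groups.
-/

set_option maxSynthPendingDepth 3

open scoped ContDiff Topology unitInterval
open Set Function TopologicalSpace Filter

namespace Pool.Agent.KRW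

open Pool.Agent.Helper17 Pool.Agent.Helper42 Pool.Agent.H42.Hull

namespace MPI

/-- The restriction of a family along a continuous map of the parameter spaces. -/
lemma ffam_base {m k : ℕ} {T T' : Type} [TopologicalSpace T] [TopologicalSpace T'] {R : ℝ}
    {Φ : T → Phase (m + k) → Phase (m + k)} (h : FFam m k R Φ) {g : T' → T} (hg : Continuous g) :
    FFam m k R (fun t' p => Φ (g t') p) :=
  ⟨h.cf.base hg, fun t p hp => h.std (g t) p hp, fun t => h.pos (g t), fun t => h.symp (g t)⟩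

/-- Homotopies of loops of symplectomorphisms, with the time as the second variable. -/
lemma clsG_eq_iff {j n : ℕ} (φ ψ : LoopG j n) : φ.cls = ψ.cls ↔
    ∃ H : C((Fin j → I) × I, SympCt n), (∀ t, H (t, 0) = φ.1 t) ∧ (∀ t, H (t, 1) = ψ.1 t) ∧
      ∀ t ∈ Cube.boundary (Fin j), ∀ s, H (t, s) = 1 := by
  constructor
  · intro h
    obtain ⟨H⟩ := (Quotient.exact h : GenLoop.Homotopic φ ψ)
    refine ⟨⟨fun q => H (q.2, q.1), by fun_prop⟩, fun t => H.apply_zero t,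
      fun t => H.apply_one t, fun t ht s => ?_⟩
    change H (s, t) = 1
    rw [H.eq_fst s ht]
    exact φ.2 t ht
  · rintro ⟨H, h0, h1, hb⟩
    refine Quotient.sound ?_
    refine ⟨⟨⟨⟨fun q => H (q.2, q.1), by fun_prop⟩, h0, h1⟩, fun s t ht => ?_⟩⟩
    change H (t, s) = φ.1 t
    rw [hb t ht s]
    exact (φ.2 t ht).symm

lemma exists_incl (hfs : St_fSymp) (htop : St_topF) {j m k : ℕ} (φ : LoopG j (m + k)) :
    ∃ Φ : LoopF j m k, IsIncl φ Φ := by
  obtain ⟨R, -, h⟩ := hfs m k (Fin j → I) φ.1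
  obtain ⟨Φ, hΦ⟩ := (htop j m k).2.2.1 R _ h (fun t ht p => by
    have h1 : φ.1 t = 1 := φ.2 t ht
    rw [h1]
    rfl)
  exact ⟨Φ, hΦ⟩

lemma incl_cls (hfs : St_fSymp) (htop : St_topF) {j m k : ℕ} {φ ψ : LoopG j (m + k)}
    {Φ Ψ : LoopF j m k} (hΦ : IsIncl φ Φ) (hΨ : IsIncl ψ Ψ) (h : φ.cls = ψ.cls) :
    Φ.cls = Ψ.cls := by
  obtain ⟨H, h0, h1, hb⟩ := (clsG_eq_iff φ ψ).1 h
  obtain ⟨R, hR, hF⟩ := hfs m k ((Fin j → I) × I) H
  refine ((htop j m k).2.2.2 Φ Ψ).2 ⟨R, _, hR, hF, fun t p => ?_, fun t p => ?_,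
    fun t ht s p => ?_⟩
  · rw [h0, hΦ]
    rfl
  · rw [h1, hΨ]
    rfl
  · rw [hb t ht s]
    rfl

/-- A path of symplectic maps in the fibrewise symplectic maps is a homotopy in `Symp_ct`. -/
lemma cls_end (hft : St_fToSymp) {j m k : ℕ} {R : ℝ}
    {Ψ : (Fin j → I) × I → Phase (m + k) → Phase (m + k)} (hΨ : FFam m k R Ψ)
    (hsymp : ∀ q p u v, omegaStd (fderiv ℝ (Ψ q) p u) (fderiv ℝ (Ψ q) p v) = omegaStd u v)
    (φ ψ : LoopG j (m + k)) (h0 : ∀ t p, Ψ (t, 0) p = φ.at t p)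
    (h1 : ∀ t p, Ψ (t, 1) p = ψ.at t p)
    (hb : ∀ t ∈ Cube.boundary (Fin j), ∀ s p, Ψ (t, s) p = p) : φ.cls = ψ.cls := by
  obtain ⟨f, hf⟩ := hft m k ((Fin j → I) × I) R Ψ hΨ hsymp
  refine (clsG_eq_iff φ ψ).2 ⟨f, fun t => SympCt.ext' fun p => ?_, fun t => SympCt.ext' fun p => ?_,
    fun t ht s => SympCt.ext' fun p => ?_⟩
  · rw [hf, h0]
    rfl
  · rw [hf, h1]
    rfl
  · rw [hf, hb t ht]
    rfl

lemma surj (hret : St_ret) (hfs : St_fSymp) (htop : St_topF) {j m k : ℕ} (Φ : LoopF j m k) :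
    ∃ (φ : LoopG j (m + k)) (Φ' : LoopF j m k), IsIncl φ Φ' ∧ Φ'.cls = Φ.cls := by
  obtain ⟨R, hR, hF⟩ := (htop j m k).1 Φ
  obtain ⟨R', Ψ, f, hRR, hΨ, h0, h1, -, hid⟩ := hret m k (Fin j → I) R _ hR hF
  have hbd : ∀ t ∈ Cube.boundary (Fin j), ∀ s p, Ψ (t, s) p = p :=
    fun t ht => hid t fun p => (htop j m k).2.1 Φ t ht p
  set φ : LoopG j (m + k) := ⟨f, fun t ht => SympCt.ext' fun p => by
    rw [← h1, hbd t ht]
    rfl⟩ with hφ
  obtain ⟨Φ', hΦ'⟩ := exists_incl hfs htop φ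
  refine ⟨φ, Φ', hΦ', ?_⟩
  refine (((htop j m k).2.2.2 Φ Φ').2 ⟨R', Ψ, hR.trans hRR, hΨ, h0, fun t p => ?_, hbd⟩).symm
  rw [h1, hΦ']
  rfl

lemma inj (hret : St_ret) (htop : St_topF) (hft : St_fToSymp) {j m k : ℕ}
    {φ φ' : LoopG j (m + k)} {Φ Φ' : LoopF j m k} (hΦ : IsIncl φ Φ) (hΦ' : IsIncl φ' Φ')
    (h : Φ.cls = Φ'.cls) : φ.cls = φ'.cls := by
  obtain ⟨R, H, hR, hH, h0, h1, hb⟩ := ((htop j m k).2.2.2 Φ Φ').1 h
  obtain ⟨R', Ψ, f, hRR, hΨ, g0, g1, hs, hid⟩ := hret m k ((Fin j → I) × I) R H hR hH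
  have hbd : ∀ t ∈ Cube.boundary (Fin j), ∀ s s' p, Ψ ((t, s), s') p = p :=
    fun t ht s => hid (t, s) fun p => hb t ht s p
  have hfb : ∀ t ∈ Cube.boundary (Fin j), ∀ s, f (t, s) = 1 := by
    intro t ht s
    apply SympCt.ext'
    intro p
    rw [← g1, hbd t ht]
    rfl
  set ψ₀ : LoopG j (m + k) := ⟨f.comp ⟨fun t => (t, 0), by fun_prop⟩, fun t ht => hfb t ht 0⟩
    with hψ₀
  set ψ₁ : LoopG j (m + k) := ⟨f.comp ⟨fun t => (t, 1), by fun_prop⟩, fun t ht => hfb t ht 1⟩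
    with hψ₁
  have e1 : ψ₀.cls = ψ₁.cls :=
    (clsG_eq_iff ψ₀ ψ₁).2 ⟨f, fun t => rfl, fun t => rfl, hfb⟩
  have e0 : φ.cls = ψ₀.cls := by
    refine cls_end hft (ffam_base hΨ
      (g := fun q : (Fin j → I) × I => ((q.1, (0 : I)), q.2)) (by fun_prop)) ?_ φ ψ₀ ?_ ?_ ?_
    · intro q
      refine hs (q.1, 0) (fun p u v => ?_) q.2
      have h2 : H (q.1, 0) = ((φ.1 q.1 : SympCt (m + k)) : Equiv.Perm (Phase (m + k))) := by
        funext p
        rw [h0, hΦ]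
        rfl
      rw [h2]
      exact (φ.1 q.1).2.2.2.1 p u v
    · intro t p
      change Ψ ((t, 0), 0) p = _
      rw [g0, h0, hΦ]
    · intro t p
      change Ψ ((t, 0), 1) p = _
      rw [g1]
      rfl
    · intro t ht s p
      exact hbd t ht 0 s p
  have e2 : φ'.cls = ψ₁.cls := by
    refine cls_end hft (ffam_base hΨ
      (g := fun q : (Fin j → I) × I => ((q.1, (1 : I)), q.2)) (by fun_prop)) ?_ φ' ψ₁ ?_ ?_ ?_
    · intro q
      refine hs (q.1, 1) (fun p u v => ?_) q.2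
      have h2 : H (q.1, 1) = ((φ'.1 q.1 : SympCt (m + k)) : Equiv.Perm (Phase (m + k))) := by
        funext p
        rw [h1, hΦ']
        rfl
      rw [h2]
      exact (φ'.1 q.1).2.2.2.1 p u v
    · intro t p
      change Ψ ((t, 1), 0) p = _
      rw [g0, h1, hΦ']
    · intro t p
      change Ψ ((t, 1), 1) p = _
      rw [g1]
      rfl
    · intro t ht s p
      exact hbd t ht 1 s p
  rw [e0, e1, e2]

lemma incl_trans {j m k : ℕ} {φ ψ : LoopG (j + 1) (m + k)} {Φ Ψ : LoopF (j + 1) m k}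
    (hΦ : IsIncl φ Φ) (hΨ : IsIncl ψ Ψ) :
    IsIncl (GenLoop.transAt 0 φ ψ : LoopG (j + 1) (m + k))
      (GenLoop.transAt 0 Φ Ψ : LoopF (j + 1) m k) := by
  intro t p
  change (GenLoop.transAt 0 Φ Ψ t).map.fn p =
    ((GenLoop.transAt 0 φ ψ t : SympCt (m + k)) : Equiv.Perm (Phase (m + k))) p
  rw [transAt_apply, transAt_apply]
  split_ifs
  · exact hΦ _ p
  · exact hΨ _ p

end MPI

open MPI in
/-- MPI.  The inclusion of `Symp_ct` into the fibrewise symplectic maps is a weak homotopy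
equivalence.  Hypotheses used: `St_ret`, `St_topF`, `St_fSymp`, `St_fToSymp`. -/
theorem thm_mapI (hret : St_ret) (htop : St_topF) (hfs : St_fSymp) (hft : St_fToSymp) :
    St_mapI := by
  intro m k
  set inc : ∀ j, LoopG j (m + k) → LoopF j m k := fun j φ => (exists_incl hfs htop φ).choose
    with hinc
  have hI : ∀ j (φ : LoopG j (m + k)), IsIncl φ (inc j φ) :=
    fun j φ => (exists_incl hfs htop φ).choose_spec
  set i : ∀ j, PiG j (m + k) → PiF j m k := fun j => Quotient.lift (fun φ => (inc j φ).cls)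
    (fun φ ψ h => incl_cls hfs htop (hI j φ) (hI j ψ) (Quotient.sound h)) with hi
  have hcls : ∀ j (φ : LoopG j (m + k)) (Φ : LoopF j m k), IsIncl φ Φ → i j φ.cls = Φ.cls :=
    fun j φ Φ h => incl_cls hfs htop (hI j φ) h rfl
  refine ⟨i, hcls, fun j φ => exists_incl hfs htop φ, fun j => ⟨?_, ?_⟩, fun j => ?_⟩
  · intro a b hab
    obtain ⟨φ, rfl⟩ : ∃ φ : LoopG j (m + k), φ.cls = a := Quotient.exists_rep a
    obtain ⟨ψ, rfl⟩ : ∃ φ : LoopG j (m + k), φ.cls = b := Quotient.exists_rep b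
    exact inj hret htop hft (hI j φ) (hI j ψ) hab
  · intro b
    obtain ⟨Φ, rfl⟩ : ∃ Φ : LoopF j m k, Φ.cls = b := Quotient.exists_rep b
    obtain ⟨φ, Φ', h1, h2⟩ := surj hret hfs htop Φ
    exact ⟨φ.cls, (hcls j φ Φ' h1).trans h2⟩
  · intro a b
    obtain ⟨φ, rfl⟩ : ∃ φ : LoopG (j + 1) (m + k), φ.cls = a := Quotient.exists_rep a
    obtain ⟨ψ, rfl⟩ : ∃ φ : LoopG (j + 1) (m + k), φ.cls = b := Quotient.exists_rep b
    have e1 : φ.cls * ψ.cls = LoopG.cls (GenLoop.transAt 0 ψ φ : LoopG (j + 1) (m + k)) :=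
      hmk_mul (Fin (j + 1)) 0 φ ψ
    have e2 : (inc (j + 1) φ).cls * (inc (j + 1) ψ).cls =
        LoopF.cls (GenLoop.transAt 0 (inc (j + 1) ψ) (inc (j + 1) φ) : LoopF (j + 1) m k) :=
      hmk_mul (Fin (j + 1)) 0 (inc (j + 1) φ) (inc (j + 1) ψ)
    rw [e1, hcls (j + 1) _ _ (incl_trans (hI (j + 1) ψ) (hI (j + 1) φ)), ← e2]
    rfl

end Pool.Agent.KRW
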