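import Mathlib
import Pool.Agent.KRW.St

/-!
# The map `q` from families of symplectomorphisms to families of rows

Hypotheses used: `St_topR`, `St_fSymp`.
-/

set_option maxSynthPendingDepth 3

open scoped ContDiff Topology unitInterval
open Set Function TopologicalSpace Filter

namespace Pool.Agent.KRW

open Pool.Agent.Helper17 Pool.Agent.Helper42 Pool.Agent.H42.Hull

/-- The rows of a compact family of symplectomorphisms. -/
lemma MPQ_jfam (hS : St_fSymp) (m k : ℕ) (T : Type) [TopologicalSpace T] [CompactSpace T]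
    (f : C(T, SympCt (m + k))) :
    ∃ R : ℝ, 0 ≤ R ∧ JFam m k R
      (fun t p => prK m k ((f t : Equiv.Perm (Phase (m + k))) p)) := by
  obtain ⟨R, hR, h⟩ := hS m k T f
  refine ⟨R, hR, ⟨h.cf.clm (prK m k), fun t p hp => ?_, h.pos⟩⟩
  have h1 : (f t : Equiv.Perm (Phase (m + k))) p = p := h.std t p hp
  rw [h1]

/-- Every loop of symplectomorphisms has a row. -/
lemma MPQ_ex (hT : St_topR) (hS : St_fSymp) (m k j : ℕ) (φ : LoopG j (m + k)) :
    ∃ F : LoopR j m k, IsRow φ F := by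
  obtain ⟨R, -, h⟩ := MPQ_jfam hS m k (Fin j → I) φ.1
  obtain ⟨-, -, h3, -, -⟩ := hT j m k
  obtain ⟨F, hF⟩ := h3 R _ h (by
    intro t ht p
    have h1 : φ.1 t = 1 := φ.2 t ht
    simp only [h1]
    rfl)
  refine ⟨F, fun t p => ?_⟩
  rw [hF, prK_eq_fstPt]
  rfl

/-- Homotopic loops of symplectomorphisms have homotopic rows. -/
lemma MPQ_wd (hT : St_topR) (hS : St_fSymp) (m k j : ℕ) (φ φ' : LoopG j (m + k))
    (F F' : LoopR j m k) (hF : IsRow φ F) (hF' : IsRow φ' F') (h : φ.cls = φ'.cls) :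
    F.cls = F'.cls := by
  have h0 : GenLoop.Homotopic φ φ' := Quotient.exact h
  obtain ⟨H⟩ := h0
  set f : C((Fin j → I) × I, SympCt (m + k)) :=
    ⟨fun q => H (q.2, q.1), H.continuous.comp (by fun_prop)⟩ with hf
  obtain ⟨R, hR, hJ⟩ := MPQ_jfam hS m k _ f
  obtain ⟨-, -, -, h4, -⟩ := hT j m k
  refine (h4 F F').2 ⟨R, _, hR, hJ, fun t p => ?_, fun t p => ?_, fun t ht s p => ?_⟩
  · rw [hF, prK_eq_fstPt]
    have e : f (t, 0) = φ.1 t := H.apply_zero t
    simp only [e]
    rfl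
  · rw [hF', prK_eq_fstPt]
    have e : f (t, 1) = φ'.1 t := H.apply_one t
    simp only [e]
    rfl
  · have e : f (t, s) = 1 := by
      have e1 : H (s, t) = φ.1 t := H.eq_fst s ht
      change H (s, t) = 1
      rw [e1]
      exact φ.2 t ht
    simp only [e]
    rfl

/-- MPQ. The map to the rows. -/
theorem thm_mapQ (hT : St_topR) (hS : St_fSymp) : St_mapQ := by
  intro m k
  choose row hrow using fun j (φ : LoopG j (m + k)) => MPQ_ex hT hS m k j φ
  choose rep hrep using fun j (c : PiG j (m + k)) =>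
    (Quotient.exists_rep c : ∃ φ : GenLoop (Fin j) (SympCt (m + k)) 1, Quotient.mk _ φ = c)
  have hq : ∀ j (φ : LoopG j (m + k)) (F : LoopR j m k), IsRow φ F →
      (row j (rep j φ.cls)).cls = F.cls := fun j φ F hF =>
    MPQ_wd hT hS m k j (rep j φ.cls) φ _ F (hrow j _) hF (hrep j φ.cls)
  refine ⟨fun j c => (row j (rep j c)).cls, hq, fun j φ => ⟨row j φ, hrow j φ⟩, fun j => ?_⟩
  intro a b
  obtain ⟨g, rfl⟩ := hmk_surj a
  obtain ⟨g', rfl⟩ := hmk_surj b
  set i : Fin (j + 1) := 0 with hi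
  have e : ∀ (γ : LoopG (j + 1) (m + k)) (F : LoopR (j + 1) m k), IsRow γ F →
      (row (j + 1) (rep (j + 1) (hmk γ))).cls = (hmk F : PiR (j + 1) m k) :=
    fun γ F hF => hq (j + 1) γ F hF
  have key : ∀ (F F' : GenLoop (Fin (j + 1)) (RowSp m k) RowSp.std), IsRow g F → IsRow g' F' →
      IsRow (GenLoop.transAt i g' g : GenLoop (Fin (j + 1)) (SympCt (m + k)) 1)
        (GenLoop.transAt i F' F : GenLoop (Fin (j + 1)) (RowSp m k) RowSp.std) := by
    intro F F' hF hF' t p
    change (GenLoop.transAt i F' F t).map.fn p =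
      fstPt m k (((GenLoop.transAt i g' g t : SympCt (m + k)) : Equiv.Perm (Phase (m + k))) p)
    rw [transAt_apply, transAt_apply]
    split_ifs
    · exact hF' _ p
    · exact hF _ p
  have e2 : ∀ (F F' : GenLoop (Fin (j + 1)) (RowSp m k) RowSp.std),
      (hmk F * hmk F' : PiR (j + 1) m k) = hmk (GenLoop.transAt i F' F) :=
    fun F F' => hmk_mul _ i F F'
  have e3 : (hmk g * hmk g' : PiG (j + 1) (m + k)) = hmk (GenLoop.transAt i g' g) :=
    hmk_mul _ i g g'
  rw [e3]
  have h1 := e g _ (hrow _ g)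
  have h2 := e g' _ (hrow _ g')
  have h3 := e _ _ (key _ _ (hrow _ g) (hrow _ g'))
  refine (h3.trans (e2 _ _).symm).trans ?_
  exact congrArg₂ (fun x y : PiR (j + 1) m k => x * y) h1.symm h2.symm

end Pool.Agent.KRW
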