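import Mathlib
import Pool.Agent.KRW.St
import Pool.Agent.KRW.Split

/-!
# The suspension map

Hypotheses used: `St_vOf`, `St_vMap`, `St_rep`, `St_cubS`, `St_topF`, `St_mapI`, `St_sus`, `St_rad`,
`St_box`.
-/

set_option maxSynthPendingDepth 3

open scoped ContDiff Topology unitInterval
open Set Function TopologicalSpace Filter

namespace Pool.Agent.KRW

open Pool.Agent.Helper17 Pool.Agent.Helper42 Pool.Agent.H42.Hull

namespace MPS

variable {j m k : ℕ}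

/-- The suspension relation with the radius `R`. -/
def SuspAt (R : ℝ) (g : LoopG (k + k + j + 2) m) (φ : LoopG j (m + (k + 1))) : Prop :=
  ∃ Φ Ψ : LoopF j m (k + 1), IsProd R g Φ ∧ IsIncl φ Ψ ∧ Ψ.cls = Φ.cls

lemma isSuspK_of {R : ℝ} (hR : 0 < R) {g : LoopG (k + k + j + 2) m}
    {φ : LoopG j (m + (k + 1))} (h : SuspAt R g φ) : IsSuspK g φ := by
  obtain ⟨Φ, Ψ, h1, h2, h3⟩ := h
  exact ⟨R, hR, Φ, Ψ, h1, h2, h3⟩

lemma ugK_at (g : LoopG (k + k + j + 2) m) (t : Fin j → I) (z : Bx k) (a b : I) (w : Phase m) :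
    (ugK g ((t, z), (a, b)) : Equiv.Perm (Phase m)) w =
      g.at (Fin.snoc (Fin.snoc (Fin.append (Fin.append z.1 z.2) t) b) a) w := rfl

lemma bxPt_def (R : ℝ) (z : Bx k) (a b : I) :
    (bxPt R z (a, b) : Phase (k + 1)) = boxPt R z.1 z.2 a b := rfl

/-- A product map is over the projection, and its fibre part is a cube family. -/
lemma cube_of_prod (hbox : St_box) {R : ℝ} (hR : 0 < R) {g : LoopG (k + k + j + 2) m}
    {Φ : LoopF j m (k + 1)} (h : IsProd R g Φ) :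
    (∀ t p, prK m (k + 1) (Φ.at t p) = prK m (k + 1) p) ∧
      IsCube R (fun t p => prW m (k + 1) (Φ.at t p)) (ugK g) := by
  obtain ⟨h1, h2⟩ := h
  have h1' : ∀ t p, (∃ i, R ≤ |(prK m (k + 1) p) i|) → Φ.at t p = p := by
    intro t p hp
    refine h1 t p ?_
    rw [← prK_eq_fstPt]
    exact hp
  obtain ⟨-, -, hb3, -⟩ := hbox k R hR
  refine ⟨fun t p => ?_, fun t p hp => congrArg (prW m (k + 1)) (h1' t p hp),
    fun t z s w => ?_⟩
  · by_cases hp : ∃ i, R ≤ |(prK m (k + 1) p) i|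
    · rw [h1' t p hp]
    · push Not at hp
      have h3 := hb3 (prK m (k + 1) p) (fun i => (hp i).le)
      have h4 := (h2 t _ _ _ _ p (by rw [← prK_eq_fstPt]; exact h3.symm)).1
      rw [prK_eq_fstPt, h4]
      exact h3
  · obtain ⟨a, b⟩ := s
    have h3 := (h2 t z.1 z.2 a b (mkB m (k + 1) (bxPt R z (a, b)) w) (by
      rw [← prK_eq_fstPt, prK_mkB, bxPt_def])).2
    rw [← prW_eq_lstPt, ← prW_eq_lstPt, prW_mkB] at h3
    rw [ugK_at]
    exact h3.symm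

/-- The product map of a cube family. -/
lemma prod_of_cube (hbox : St_box) (hvMap : St_vMap) (htopF : St_topF) {R R₂ : ℝ} (hR : 0 < R)
    {g : LoopG (k + k + j + 2) m} {W : (Fin j → I) → Phase (m + (k + 1)) → Phase m}
    (hW : VFam m (k + 1) R₂ W) (hc : IsCube R W (ugK g))
    (hbd : ∀ t ∈ Cube.boundary (Fin j), ∀ p, W t p = prW m (k + 1) p) :
    ∃ Φ : LoopF j m (k + 1), (∀ t p, Φ.at t p = mapW m (k + 1) (W t) p) ∧ IsProd R g Φ := by
  obtain ⟨-, -, -, -, -, hb6, -⟩ := hbox k R hR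
  set R₃ : ℝ := max R₂ (Real.sqrt (2 * k + 2) * R + 1) with hR₃
  have hW3 : VFam m (k + 1) R₃ W :=
    ⟨hW.cf, fun t p hp => hW.std t p ((le_max_left _ _).trans_lt hp), hW.symp⟩
  have hfar : ∀ t p, R₃ ≤ ‖prK m (k + 1) p‖ → W t p = prW m (k + 1) p := by
    intro t p hp
    refine hc.1 t p ?_
    rcases hb6 (prK m (k + 1) p) with h | h
    · exfalso
      have h1 := (le_max_right R₂ (Real.sqrt (2 * k + 2) * R + 1)).trans hp
      linarith
    · exact h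
  have hF := hvMap m (k + 1) _ R₃ W hW3 hfar
  obtain ⟨Φ, hΦ⟩ := (htopF j m (k + 1)).2.2.1 (2 * R₃) (fun t => mapW m (k + 1) (W t)) hF
    (fun t ht p => by
      rw [mapW, hbd t ht p, mkB_eta])
  refine ⟨Φ, hΦ, fun t p hp => ?_, fun t ξ η a b p hp => ?_⟩
  · rw [← prK_eq_fstPt] at hp
    rw [hΦ, mapW, hc.1 t p hp, mkB_eta]
  · rw [← prK_eq_fstPt] at hp
    rw [← prK_eq_fstPt, ← prW_eq_lstPt, ← prW_eq_lstPt, hΦ, prK_mapW, prW_mapW]
    refine ⟨hp, ?_⟩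
    have h3 := hc.2 t (ξ, η) (a, b) (prW m (k + 1) p)
    rw [ugK_at, bxPt_def, ← hp, mkB_eta] at h3
    exact h3.symm

/-- Existence of suspensions, for every large radius. -/
lemma exists_susp (hbox : St_box) (hvMap : St_vMap) (htopF : St_topF) (hrep : St_rep)
    (hcubS : St_cubS) (hmapI : St_mapI) (c : PiG (k + k + j + 2) m) :
    ∃ R₀ : ℝ, 0 < R₀ ∧ ∀ R, R₀ ≤ R → ∃ (g : LoopG (k + k + j + 2) m)
      (φ : LoopG j (m + (k + 1))), g.cls = c ∧ SuspAt R g φ := by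
  obtain ⟨g₀, rfl⟩ : ∃ g₀ : LoopG (k + k + j + 2) m, g₀.cls = c := Quotient.exists_rep c
  obtain ⟨hS1, hS2, -, hS4⟩ := hcubS j m k
  obtain ⟨R₀, hR₀, hr⟩ := hrep m k (Fin j → I) (Cube.boundary (Fin j)) (ugK g₀) (hS2 g₀)
  refine ⟨R₀, hR₀, fun R hR => ?_⟩
  obtain ⟨W, g₁, hW, hc, hbd, hhom⟩ := hr R hR
  have hg₁ : ∀ q ∈ bdS k (Cube.boundary (Fin j)), g₁ q = 1 := by
    intro q hq
    obtain ⟨H⟩ := hhom
    rw [← H.apply_one q, H.eq_fst 1 hq]
    exact hS2 g₀ q hq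
  obtain ⟨g, hg⟩ := hS4 g₁ hg₁
  have hcls : g.cls = g₀.cls := by
    rw [hS1, hg]
    exact hhom.symm
  rw [← hg] at hc
  obtain ⟨Φ, -, hΦ⟩ := prod_of_cube hbox hvMap htopF (hR₀.trans_le hR) hW hc hbd
  obtain ⟨i, hi1, hi2, hi3, -⟩ := hmapI m (k + 1)
  obtain ⟨x, hx⟩ := (hi3 j).2 Φ.cls
  obtain ⟨φ, rfl⟩ : ∃ φ : LoopG j (m + (k + 1)), φ.cls = x := Quotient.exists_rep x
  obtain ⟨Ψ, hΨ⟩ := hi2 j φ
  refine ⟨g, φ, hcls, Φ, Ψ, hΦ, hΨ, ?_⟩
  rw [← hi1 j φ Ψ hΨ, hx]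

/-- The data of a suspension, with a common radius for everything. -/
lemma data_of_susp (hbox : St_box) (hvOf : St_vOf) (htopF : St_topF) (hrad : St_rad)
    {g : LoopG (k + k + j + 2) m} {φ : LoopG j (m + (k + 1))} (h : IsSuspK g φ) : ∃ (R : ℝ) (W : (Fin j → I) → Phase (m + (k + 1)) → Phase m)
      (g₁ : C(((Fin j → I) × Bx k) × (I × I), SympCt m)) (Φ Ψ : LoopF j m (k + 1)), 0 < R ∧
      VFam m (k + 1) R W ∧ IsCube R W g₁ ∧
      (∀ t ∈ Cube.boundary (Fin j), ∀ p, W t p = prW m (k + 1) p) ∧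
      (ugK g).HomotopicRel g₁ (bdS k (Cube.boundary (Fin j))) ∧
      (∀ t p, Φ.at t p = mapW m (k + 1) (W t) p) ∧ IsIncl φ Ψ ∧ Ψ.cls = Φ.cls := by
  obtain ⟨R, hR, Φ, Ψ, hp, hincl, hcls⟩ := h
  obtain ⟨hK, hc⟩ := cube_of_prod hbox hR hp
  obtain ⟨hF1, hF2, -, -⟩ := htopF j m (k + 1)
  obtain ⟨R₀, hR₀, hFam⟩ := hF1 Φ
  obtain ⟨hV, -⟩ := hvOf m (k + 1) _ R₀ (fun t => Φ.at t) hFam hK
  have hbd : ∀ t ∈ Cube.boundary (Fin j), ∀ p, prW m (k + 1) (Φ.at t p) = prW m (k + 1) p := by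
    intro t ht p
    rw [hF2 Φ t ht p]
  obtain ⟨-, g₁, hc₁, hhom⟩ := hrad m k _ (Cube.boundary (Fin j)) R (max R R₀) R₀
    (fun t p => prW m (k + 1) (Φ.at t p)) (ugK g) hR (le_max_left _ _) hV hc hbd
  refine ⟨max R R₀, fun t p => prW m (k + 1) (Φ.at t p), g₁, Φ, Ψ, lt_max_of_lt_left hR,
    ⟨hV.cf, fun t p hp => hV.std t p ((le_max_right _ _).trans_lt hp), hV.symp⟩, hc₁, hbd,
    hhom, fun t p => ?_, hincl, hcls⟩
  rw [mapW, ← hK t p, mkB_eta]

/-- The class of a suspension is well defined. -/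
lemma susp_unique (hbox : St_box) (hvOf : St_vOf) (htopF : St_topF) (hrad : St_rad)
    (hcubS : St_cubS) (hsus : St_sus) (hmapI : St_mapI) {g g' : LoopG (k + k + j + 2) m}
    {φ φ' : LoopG j (m + (k + 1))} (h : IsSuspK g φ) (h' : IsSuspK g' φ')
    (hg : g.cls = g'.cls) : φ.cls = φ'.cls := by
  obtain ⟨R, W, g₁, Φ, Ψ, hR, hV, hc, hbd, hhom, hΦ, hincl, hcls⟩ :=
    data_of_susp hbox hvOf htopF hrad h
  obtain ⟨R', W', g₁', Φ', Ψ', hR', hV', hc', hbd', hhom', hΦ', hincl', hcls'⟩ :=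
    data_of_susp hbox hvOf htopF hrad h'
  have h1 := ((hcubS j m k).1 g g').1 hg
  have h2 : g₁.HomotopicRel g₁' (bdS k (Cube.boundary (Fin j))) :=
    (hhom.symm.trans h1).trans hhom'
  obtain ⟨R'', X, hR'', hX, hX0, hX1, hXbd⟩ := hsus m k (Fin j → I) (Cube.boundary (Fin j)) R R'
    W W' g₁ g₁' hR hR' hV hV' hc hc' (fun t ht p => ⟨hbd t ht p, hbd' t ht p⟩) h2
  have h3 : Φ.cls = Φ'.cls := by
    refine ((htopF j m (k + 1)).2.2.2 Φ Φ').2 ⟨R'', X, hR'', hX, fun t p => ?_, fun t p => ?_,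
      hXbd⟩
    · rw [hX0, hΦ]
    · rw [hX1, hΦ']
  obtain ⟨i, hi1, hi2, hi3, -⟩ := hmapI m (k + 1)
  apply (hi3 j).1
  rw [hi1 j φ Ψ hincl, hi1 j φ' Ψ' hincl', hcls, hcls', h3]

/-- Concatenation in the direction of the parameters. -/
lemma snoc_update (t : Fin (j + 1) → I) (i : Fin (j + 1)) (ξ η : Fin k → I) (a b x : I) :
    (Fin.snoc (α := fun _ => I) (Fin.snoc (α := fun _ => I)
      (Fin.append (Fin.append ξ η) (Function.update t i x)) b) a :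
        Fin (k + k + (j + 1) + 2) → I) =
      Function.update (Fin.snoc (α := fun _ => I) (Fin.snoc (α := fun _ => I)
        (Fin.append (Fin.append ξ η) t) b) a : Fin (k + k + (j + 1) + 2) → I)
        (Fin.natAdd (k + k) i).castSucc.castSucc x := by
  rw [← Fin.snoc_update, ← Fin.snoc_update]
  congr 2
  ext1 l
  refine Fin.addCases (fun l => ?_) (fun l => ?_) l
  · rw [Fin.append_left, Function.update_of_ne, Fin.append_left]
    intro h
    have h1 := congrArg Fin.val h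
    simp only [Fin.val_castAdd, Fin.val_natAdd] at h1
    omega
  · rw [Fin.append_right]
    by_cases h : l = i
    · subst h
      rw [Function.update_self, Function.update_self]
    · rw [Function.update_of_ne h, Function.update_of_ne, Fin.append_right]
      intro h1
      exact h (Fin.natAdd_injective _ _ h1)

lemma snoc_apply (t : Fin (j + 1) → I) (i : Fin (j + 1)) (ξ η : Fin k → I) (a b : I) :
    (Fin.snoc (α := fun _ => I) (Fin.snoc (α := fun _ => I)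
      (Fin.append (Fin.append ξ η) t) b) a : Fin (k + k + (j + 1) + 2) → I)
        (Fin.natAdd (k + k) i).castSucc.castSucc = t i := by
  rw [Fin.snoc_castSucc, Fin.snoc_castSucc, Fin.append_right]

/-- The concatenation of suspensions with the same radius. -/
lemma susp_trans {R : ℝ} (i : Fin (j + 1)) {g₁ g₂ : LoopG (k + k + (j + 1) + 2) m}
    {φ₁ φ₂ : LoopG (j + 1) (m + (k + 1))} (h₁ : SuspAt R g₁ φ₁) (h₂ : SuspAt R g₂ φ₂) :
    SuspAt (k := k) R (GenLoop.transAt (Fin.natAdd (k + k) i).castSucc.castSucc g₁ g₂ :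
      LoopG (k + k + (j + 1) + 2) m) (GenLoop.transAt i φ₁ φ₂ : LoopG (j + 1) (m + (k + 1))) := by
  obtain ⟨Φ₁, Ψ₁, p₁, q₁, r₁⟩ := h₁
  obtain ⟨Φ₂, Ψ₂, p₂, q₂, r₂⟩ := h₂
  have hF : ∀ (A B : LoopF (j + 1) m (k + 1)) (t : Fin (j + 1) → I) (p : Phase (m + (k + 1))),
      LoopF.at (GenLoop.transAt i A B : LoopF (j + 1) m (k + 1)) t p =
        if (t i : ℝ) ≤ 1 / 2
        then A.at (Function.update t i <| Set.projIcc 0 1 zero_le_one (2 * t i)) p
        else B.at (Function.update t i <| Set.projIcc 0 1 zero_le_one (2 * t i - 1)) p := by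
    intro A B t p
    change (GenLoop.transAt i A B t).map.fn p = _
    rw [transAt_apply]
    split_ifs
    · rfl
    · rfl
  have hG : ∀ (n l : ℕ) (i : Fin (n + 1)) (A B : LoopG (n + 1) l) (t : Fin (n + 1) → I)
      (p : Phase l), LoopG.at (GenLoop.transAt i A B : LoopG (n + 1) l) t p =
        if (t i : ℝ) ≤ 1 / 2
        then A.at (Function.update t i <| Set.projIcc 0 1 zero_le_one (2 * t i)) p
        else B.at (Function.update t i <| Set.projIcc 0 1 zero_le_one (2 * t i - 1)) p := by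
    intro n l i A B t p
    change ((GenLoop.transAt i A B t : SympCt l) : Equiv.Perm (Phase l)) p = _
    rw [transAt_apply]
    split_ifs
    · rfl
    · rfl
  refine ⟨(GenLoop.transAt i Φ₁ Φ₂ : LoopF (j + 1) m (k + 1)),
    (GenLoop.transAt i Ψ₁ Ψ₂ : LoopF (j + 1) m (k + 1)), ⟨fun t p hp => ?_,
      fun t ξ η a b p hp => ?_⟩, fun t p => ?_, ?_⟩
  · rw [hF]
    split_ifs
    · exact p₁.1 _ p hp
    · exact p₂.1 _ p hp
  · have e := hG (k + k + (j + 1) + 1) m (Fin.natAdd (k + k) i).castSucc.castSucc g₁ g₂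
      (Fin.snoc (α := fun _ => I) (Fin.snoc (α := fun _ => I)
        (Fin.append (Fin.append ξ η) t) b) a) (lstPt m (k + 1) p)
    rw [snoc_apply, ← snoc_update, ← snoc_update] at e
    rw [hF]
    split_ifs with h
    · rw [if_pos h] at e
      have h1 := p₁.2 (Function.update t i <| Set.projIcc 0 1 zero_le_one (2 * t i)) ξ η a b p hp
      exact ⟨h1.1, h1.2.trans e.symm⟩
    · rw [if_neg h] at e
      have h1 := p₂.2 (Function.update t i <| Set.projIcc 0 1 zero_le_one (2 * t i - 1)) ξ η a b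
        p hp
      exact ⟨h1.1, h1.2.trans e.symm⟩
  · rw [hF, hG]
    split_ifs
    · exact q₁ _ p
    · exact q₂ _ p
  · change hmk (GenLoop.transAt i Ψ₁ Ψ₂) = hmk (GenLoop.transAt i Φ₁ Φ₂)
    rw [← hmk_mul _ i, ← hmk_mul _ i]
    have e1 : hmk Ψ₁ = hmk Φ₁ := r₁
    have e2 : hmk Ψ₂ = hmk Φ₂ := r₂
    rw [e1, e2]

end MPS

/-- **MPS** -/
theorem thm_mapS (hbox : St_box) (hvOf : St_vOf) (hvMap : St_vMap) (htopF : St_topF)
    (hrep : St_rep) (hrad : St_rad) (hcubS : St_cubS) (hsus : St_sus) (hmapI : St_mapI) :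
    St_mapS := by
  intro m k
  have hex : ∀ j (c : PiG (k + k + j + 2) m), ∃ (g : LoopG (k + k + j + 2) m)
      (φ : LoopG j (m + (k + 1))), g.cls = c ∧ IsSuspK g φ := by
    intro j c
    obtain ⟨R₀, hR₀, h⟩ := MPS.exists_susp hbox hvMap htopF hrep hcubS hmapI c
    obtain ⟨g, φ, h1, h2⟩ := h R₀ le_rfl
    exact ⟨g, φ, h1, MPS.isSuspK_of hR₀ h2⟩
  choose G Φ hG hΦ using hex
  have huniq : ∀ j (g : LoopG (k + k + j + 2) m) (φ : LoopG j (m + (k + 1))), IsSuspK g φ →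
      (Φ j g.cls).cls = φ.cls := fun j g φ h =>
    MPS.susp_unique hbox hvOf htopF hrad hcubS hsus hmapI (hΦ j g.cls) h (hG j g.cls)
  refine ⟨fun j c => (Φ j c).cls, huniq, fun j c => ⟨G j c, Φ j c, hG j c, hΦ j c⟩,
    fun j a b => ?_⟩
  obtain ⟨R₁, hR₁, h₁⟩ := MPS.exists_susp hbox hvMap htopF hrep hcubS hmapI (j := j + 1) b
  obtain ⟨R₂, hR₂, h₂⟩ := MPS.exists_susp hbox hvMap htopF hrep hcubS hmapI (j := j + 1) a
  obtain ⟨g₁, φ₁, e₁, s₁⟩ := h₁ (max R₁ R₂) (le_max_left _ _)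
  obtain ⟨g₂, φ₂, e₂, s₂⟩ := h₂ (max R₁ R₂) (le_max_right _ _)
  have hR : 0 < max R₁ R₂ := lt_max_of_lt_left hR₁
  have h3 := huniq (j + 1) _ _ (MPS.isSuspK_of hR (MPS.susp_trans 0 s₁ s₂))
  have h4 : LoopG.cls (GenLoop.transAt (Fin.natAdd (k + k) (0 : Fin (j + 1))).castSucc.castSucc
      g₁ g₂ : LoopG (k + k + (j + 1) + 2) m) = a * b := by
    change hmk (GenLoop.transAt _ g₁ g₂) = _
    rw [← hmk_mul _ (Fin.natAdd (k + k) (0 : Fin (j + 1))).castSucc.castSucc]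
    have e1 : hmk g₁ = b := e₁
    have e2 : hmk g₂ = a := e₂
    rw [e1, e2]
  have h5 : LoopG.cls (GenLoop.transAt (0 : Fin (j + 1)) φ₁ φ₂ : LoopG (j + 1) (m + (k + 1))) =
      φ₂.cls * φ₁.cls := by
    change hmk (GenLoop.transAt _ φ₁ φ₂) = _
    rw [← hmk_mul _ (0 : Fin (j + 1))]
    rfl
  rw [h4, h5] at h3
  have h6 := huniq (j + 1) g₁ φ₁ (MPS.isSuspK_of hR s₁)
  have h7 := huniq (j + 1) g₂ φ₂ (MPS.isSuspK_of hR s₂)
  rw [e₁] at h6
  rw [e₂] at h7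
  change (Φ (j + 1) (a * b)).cls = (Φ (j + 1) a).cls * (Φ (j + 1) b).cls
  rw [h3, h6, h7]

end Pool.Agent.KRW
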