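import Mathlib
import Pool.Agent.KRW.St2
import Pool.Agent.KRW.Split
import Pool.Agent.KRW.LEX

/-!
# OR3: families with homotopic scatterings have trivialisations which agree outside a compact set

`thm_two : St_two`, from `St_trivia`, `St_vInv`, `St_vComp`, `St_scVal`, `St_scEx`, `St_scUn`,
`St_box` and `St_smo`.
-/

set_option maxSynthPendingDepth 3

open scoped ContDiff Topology unitInterval
open Set Function TopologicalSpace Filter

namespace Pool.Agent.KRW

open Pool.Agent.Helper17 Pool.Agent.Helper42 Pool.Agent.H42.Hull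

namespace OR3

open LEX

variable {m k : ℕ} {T : Type} [TopologicalSpace T]

lemma trivia_mono {R R' : ℝ} {F : T → Phase (m + (k + 1)) → Phase (k + 1)}
    {Ξ Θ : T → Phase (m + (k + 1)) → Phase (m + (k + 1))}
    {E : T → Phase (m + (k + 1)) → Phase m} (h : Trivia m k R F Ξ Θ E) (hR : R ≤ R') :
    Trivia m k R' F Ξ Θ E where
  pos := h.pos.trans_le hR
  cfX := h.cfX
  cfT := h.cfT
  left_inv := h.left_inv
  right_inv := h.right_inv
  lies := h.lies
  symp := h.symp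
  left := fun t p hp => h.left t p (by linarith)
  side := fun t p hp => h.side t p (hp.imp hR.trans hR.trans)
  right := fun t p hp => h.right t p (hR.trans hp)
  fam := ⟨h.fam.cf, fun t p hp => h.fam.std t p (hR.trans_lt hp), h.fam.symp⟩
  exit := h.exit
  exit_side := fun t p hp => h.exit_side t p (hR.trans hp)
  exit_side' := h.exit_side'
  triv := h.triv
  hor := h.hor
  orbit := fun t c hc s s' h1 h2 => h.orbit t c hc s s' (by linarith) (hR.trans h2)

lemma mapW_add_smul {W : Phase (m + (k + 1)) → Phase m} {p : Phase (m + (k + 1))} {s : ℝ}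
    (h : W (p + s • incK m (k + 1) (eB k)) = W p) :
    mapW m (k + 1) W (p + s • incK m (k + 1) (eB k)) =
      mapW m (k + 1) W p + s • incK m (k + 1) (eB k) := by
  apply ext_split
  · rw [prK_mapW, prK_add_smul, prK_add_smul, prK_mapW]
  · rw [prW_mapW, prW_add_smul, prW_mapW, h]

omit [TopologicalSpace T] in
/-- The inverse of a family which does not depend on `y_0` does not depend on `y_0`. -/
lemma inv_exit {E V : T → Phase (m + (k + 1)) → Phase m}
    (hE : ∀ t p (s : ℝ), E t (p + s • incK m (k + 1) (eB k)) = E t p)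
    (h1 : ∀ t p, V t (mapW m (k + 1) (E t) p) = prW m (k + 1) p)
    (h2 : ∀ t p, E t (mapW m (k + 1) (V t) p) = prW m (k + 1) p) (t : T)
    (p : Phase (m + (k + 1))) (s : ℝ) :
    V t (p + s • incK m (k + 1) (eB k)) = V t p := by
  have h3 : mapW m (k + 1) (E t) (mapW m (k + 1) (V t) p) = p := by
    apply ext_split
    · rw [prK_mapW, prK_mapW]
    · rw [prW_mapW, h2]
  have h4 := mapW_add_smul (hE t (mapW m (k + 1) (V t) p) s)
  rw [h3] at h4
  rw [← h4, h1, prW_add_smul, prW_mapW]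

end OR3

open LEX OR3

theorem thm_two (h1 : St_trivia) (hinv : St_vInv) (hcomp : St_vComp) (h2 : St_scVal)
    (h3 : St_scEx) (h4 : St_scUn) (h5 : St_box) (h6 : St_smo) : St_two := by
  intro m k T _ _ T0 R F F' hR hF hF' hT0 e e' he he' hee
  obtain ⟨r₁, Ξ, Θ, E, hr₁, hE₀⟩ := h1 m k T R F hR hF
  obtain ⟨r₂, Ξ', Θ', E', hr₂, hE₀'⟩ := h1 m k T R F' hR hF'
  obtain ⟨R', hr₁', hr₂'⟩ : ∃ R' : ℝ, r₁ ≤ R' ∧ r₂ ≤ R' :=
    ⟨max r₁ r₂, le_max_left _ _, le_max_right _ _⟩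
  have hE : Trivia m k R' F Ξ Θ E := trivia_mono hE₀ hr₁'
  have hE' : Trivia m k R' F' Ξ' Θ' E' := trivia_mono hE₀' hr₂'
  have hR'0 : 0 < R' := hE.pos
  -- the quotient of the exit maps
  obtain ⟨V, hV, hV1, hV2⟩ := hinv m (k + 1) T R' E' hE'.fam
  have hX := hcomp m (k + 1) T R' V E hV hE.fam
  set X : T → Phase (m + (k + 1)) → Phase m :=
    fun t p => V t (mapW m (k + 1) (E t) p) with hXdef
  have hXexit : ∀ t p (s : ℝ), X t (p + s • incK m (k + 1) (eB k)) = X t p := by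
    intro t p s
    change V t (mapW m (k + 1) (E t) (p + s • incK m (k + 1) (eB k))) = _
    rw [mapW_add_smul (hE.exit t p s), inv_exit hE'.exit hV1 hV2]
  have hXside : ∀ t p, R' ≤ ‖sideB p‖ → X t p = prW m (k + 1) p := by
    intro t p hp
    have e1 : mapW m (k + 1) (E t) p = p := by
      rw [mapW, hE.exit_side t p hp, mkB_eta]
    have e2 : mapW m (k + 1) (E' t) p = p := by
      rw [mapW, hE'.exit_side t p hp, mkB_eta]
    have e3 := hV1 t p
    rw [e2] at e3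
    change V t (mapW m (k + 1) (E t) p) = _
    rw [e1, e3]
  -- the scatterings with a common radius
  obtain ⟨ρ₀, hρ₀, hsc⟩ := h3 m k T R F hR hF
  obtain ⟨ρ₁, hρ₁, hsc'⟩ := h3 m k T R F' hR hF'
  obtain ⟨ρ, hρR, hρ₀', hρ₁'⟩ : ∃ ρ : ℝ, R' ≤ ρ ∧ ρ₀ ≤ ρ ∧ ρ₁ ≤ ρ :=
    ⟨max R' (max ρ₀ ρ₁), le_max_left _ _, (le_max_left _ _).trans (le_max_right _ _),
      (le_max_right _ _).trans (le_max_right _ _)⟩
  have hρ0 : 0 < ρ := lt_of_lt_of_le hρ₀ hρ₀'
  obtain ⟨e₁, he₁, -, -⟩ := hsc ρ hρ₀'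
  obtain ⟨e₁', he₁', -, -⟩ := hsc' ρ hρ₁'
  obtain ⟨ρe, hρe, heat⟩ := he
  obtain ⟨ρe', hρe', heat'⟩ := he'
  have hT0F : ∀ t ∈ T0, ∀ p, F t p = prK m (k + 1) p := fun t ht p => (hT0 t ht p).1
  have hT0F' : ∀ t ∈ T0, ∀ p, F' t p = prK m (k + 1) p := fun t ht p => (hT0 t ht p).2
  obtain ⟨hhom, -⟩ := h4 m k T T0 R F hR hF hT0F ρe ρ e e₁ hρe hρ0 heat he₁
  obtain ⟨hhom', -⟩ := h4 m k T T0 R F' hR hF' hT0F' ρe' ρ e' e₁' hρe' hρ0 heat' he₁'
  obtain ⟨-, he1⟩ := h4 m k T T0 R F hR hF hT0F ρ ρ e₁ e₁ hρ0 hρ0 he₁ he₁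
  have hnull : e₁.HomotopicRel e₁' (bdE k T0) := (hhom.symm.trans hee).trans hhom'
  obtain ⟨H⟩ := hnull
  have hval := h2 m k T R' ρ F Ξ Θ E e₁ hρ0 hE he₁
  have hval' := h2 m k T R' ρ F' Ξ' Θ' E' e₁' hρ0 hE' he₁'
  obtain ⟨hb1, -, hb3, -, hb5, hb6, -, -, -⟩ := h5 k ρ hρ0
  have hinvc : Continuous fun q : I × ((T × Bx k) × I) => (e₁ q.2)⁻¹ :=
    (continuous_inv_family e₁.continuous).comp continuous_snd
  set h : C(I × ((T × Bx k) × I), SympCt m) := ⟨fun q => H q * (e₁ q.2)⁻¹,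
    continuous_mul_family H.continuous hinvc⟩ with hh
  have hh0 : ∀ q, h (0, q) = 1 := fun q => by
    change H (0, q) * (e₁ q)⁻¹ = 1
    rw [H.apply_zero, mul_inv_cancel]
  have hh1 : ∀ q, h (1, q) = e₁' q * (e₁ q)⁻¹ := fun q => by
    change H (1, q) * (e₁ q)⁻¹ = _
    rw [H.apply_one]
  have hhr : ∀ y, ∀ q ∈ bdE k T0, h (y, q) = 1 := fun y q hq => by
    change H (y, q) * (e₁ q)⁻¹ = 1
    rw [H.eq_fst y hq, mul_inv_cancel]
  obtain ⟨hG, K, hK⟩ := CF_of_continuous h.continuous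
  obtain ⟨r, hr⟩ := K.isCompact.isBounded.exists_norm_le
  -- the family `u`
  set u : T × (Hyp k × ℝ) → Phase m → Phase m :=
    fun q w => (h (par ρ q) : SympCt m).1 w with hu
  have hucf : CF u := hG.base (continuous_par hb1)
  set X' : T → Hyp k × Phase m → Phase m :=
    fun t q => X t (mkB m (k + 1) (q.1 : Phase (k + 1)) q.2) with hX'
  have hX'cf : CF X' := by
    apply hX.cf.comp
    apply CF.const
    exact contDiff_mkB ((Hyp k).subtypeL.contDiff.comp contDiff_fst) contDiff_snd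
  obtain ⟨ρ', hρ'0, hρ'r, hρ'R⟩ : ∃ ρ' : ℝ, 0 ≤ ρ' ∧ r ≤ ρ' ∧ R' ≤ ρ' :=
    ⟨max 0 (max r R'), le_max_left _ _, (le_max_left _ _).trans (le_max_right _ _),
      (le_max_right _ _).trans (le_max_right _ _)⟩
  have hu1 : ∀ q w, ρ' < ‖w‖ → u q w = w := by
    intro q w hw
    apply hK
    intro hwK
    have := hr w hwK
    linarith
  have hX'1 : ∀ t d w, ρ' < ‖w‖ → X' t (d, w) = w := by
    intro t d w hw
    change X t (mkB m (k + 1) (d : Phase (k + 1)) w) = w
    rw [hX.std, prW_mkB']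
    rw [prW_mkB']
    linarith
  have hu2 : ∀ q w a b, omegaStd (fderiv ℝ (u q) w a) (fderiv ℝ (u q) w b) = omegaStd a b :=
    fun q w a b => (h (par ρ q) : SympCt m).2.2.2.1 w a b
  have hbd : ∀ (t : T) (d : Hyp k) (y : ℝ), (∃ i, ρ ≤ |(d : Phase (k + 1)) i|) →
      (par ρ (t, (d, y))).2 ∈ bdE k T0 := by
    rintro t d y ⟨i, hi⟩
    have hi0 : i ≠ Sum.inr 0 := by
      rintro rfl
      rw [Hyp.inr, abs_zero] at hi
      linarith
    rcases hb5 d ⟨i, hi0, hi⟩ with h8 | h8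
    · exact Or.inl (Or.inr h8)
    · exact Or.inr h8
  have hu3 : ∀ t d y w, Real.sqrt (2 * k + 2) * ρ < ‖d‖ → u (t, (d, y)) w = w := by
    intro t d y w hd
    have h8 : ∃ i, ρ ≤ |(d : Phase (k + 1)) i| := by
      rcases hb6 d with h8 | h8
      · exact absurd h8 (not_le.2 hd)
      · exact h8
    change (h ((par ρ (t, (d, y))).1, (par ρ (t, (d, y))).2) : SympCt m).1 w = w
    rw [hhr _ _ (hbd t d y h8)]
    rfl
  have hu4 : ∀ t d y w, y ≤ 0 → u (t, (d, y)) w = w := by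
    intro t d y w hy
    change (h (projIcc 0 1 zero_le_one y, (par ρ (t, (d, y))).2) : SympCt m).1 w = w
    rw [projIcc_of_le_left _ hy]
    change (h (0, (par ρ (t, (d, y))).2) : SympCt m).1 w = w
    rw [hh0]
    rfl
  have hXval : ∀ (t : T) (z : Bx k) (a b : I) (w : Phase m),
      X t (mkB m (k + 1) (bxPt ρ z (a, b)) w) =
        (e₁' ((t, z), a) * (e₁ ((t, z), a))⁻¹ : SympCt m).1 w := by
    intro t z a b w
    set v : Phase m := E t (mkB m (k + 1) (bxPt ρ z (a, b)) w) with hv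
    have a1 : ((e₁ ((t, z), a))⁻¹ : SympCt m).1 w = v := by
      have h8 := SympCt.inv_apply_self (e₁ ((t, z), a)) v
      have h9 : (e₁ ((t, z), a) : Equiv.Perm (Phase m)) v = w := hval t z a b w
      rw [h9] at h8
      exact h8
    change V t (mapW m (k + 1) (E t) (mkB m (k + 1) (bxPt ρ z (a, b)) w)) =
      (e₁' ((t, z), a) : Equiv.Perm (Phase m)) (((e₁ ((t, z), a))⁻¹ : SympCt m).1 w)
    rw [a1]
    have a2 : mapW m (k + 1) (E t) (mkB m (k + 1) (bxPt ρ z (a, b)) w) =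
        mkB m (k + 1) (bxPt ρ z (a, b)) v := by
      rw [mapW, prK_mkB]
    rw [a2]
    have a3 := hV2 t (mkB m (k + 1) (bxPt ρ z (a, b)) v)
    rw [mapW, prK_mkB, prW_mkB'] at a3
    have a4 := hval' t z a b (V t (mkB m (k + 1) (bxPt ρ z (a, b)) v))
    rw [a3] at a4
    exact a4.symm
  have hu5 : ∀ t d y w, 1 ≤ y → u (t, (d, y)) w = X' t (d, w) := by
    intro t d y w hy
    change (h (projIcc 0 1 zero_le_one y, (par ρ (t, (d, y))).2) : SympCt m).1 w =
      X t (mkB m (k + 1) (d : Phase (k + 1)) w)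
    rw [projIcc_of_right_le _ hy]
    by_cases h8 : ∃ i, ρ ≤ |(d : Phase (k + 1)) i|
    · change (h (1, (par ρ (t, (d, y))).2) : SympCt m).1 w = _
      rw [hhr _ _ (hbd t d y h8), hXside, prW_mkB']
      · rfl
      · rw [sideB_mkB]
        obtain ⟨i, hi⟩ := h8
        have h9 : |(d : Phase (k + 1)) i| ≤ ‖(d : Phase (k + 1))‖ := by
          rw [← Real.norm_eq_abs]
          exact PiLp.norm_apply_le _ _
        linarith
    · have h9 : ∀ i, |(d : Phase (k + 1)) i| ≤ ρ := fun i => by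
        by_contra h10
        exact h8 ⟨i, (not_le.1 h10).le⟩
      have h10 := hXval t (clB ρ (d : Phase (k + 1))).1 (clB ρ (d : Phase (k + 1))).2.1
        (clB ρ (d : Phase (k + 1))).2.2 w
      rw [hb3 d h9] at h10
      rw [h10]
      change (h (1, (par ρ (t, (d, y))).2) : SympCt m).1 w = _
      rw [hh1]
      rfl
  obtain ⟨B, W, hB1, hWcf, hW1, hW2, hW3, hW4, hW5⟩ := h6 m (Hyp k) T u X'
    (Real.sqrt (2 * k + 2) * ρ) ρ' (by positivity) hρ'0 hucf hX'cf hu1 hX'1 hu2 hu3 hu4 hu5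
  obtain ⟨R₁, hR1R, hR1B, hR1ρ⟩ : ∃ R₁ : ℝ, R' ≤ R₁ ∧ B ≤ R₁ ∧ ρ' ≤ R₁ :=
    ⟨max R' (max B ρ'), le_max_left _ _, (le_max_left _ _).trans (le_max_right _ _),
      (le_max_right _ _).trans (le_max_right _ _)⟩
  set U : T → Phase (m + (k + 1)) → Phase m := fun t p => W t (spl m k p) with hU
  have hUfam : VFam m (k + 1) R₁ U := by
    refine ⟨?_, ?_, ?_⟩
    · exact hWcf.comp (CF.const (spl m k).contDiff)
    · intro t p hp
      change W t (((⟨sideB p, sideB_inr p⟩, yB p) : Hyp k × ℝ), prW m (k + 1) p) = _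
      exact hW1 _ _ _ (by linarith)
    · intro t p v w
      rw [fderiv_spl (hWcf.differentiable t), fderiv_spl (hWcf.differentiable t)]
      exact hW2 _ _ _ _ _
  have hU1 : ∀ t p, (yB p ≤ -R₁ ∨ R₁ ≤ ‖sideB p‖) → U t p = prW m (k + 1) p := by
    intro t p hp
    change W t (((⟨sideB p, sideB_inr p⟩, yB p) : Hyp k × ℝ), prW m (k + 1) p) = _
    apply hW3
    rcases hp with hp | hp
    · right
      linarith
    · left
      exact hR1B.trans hp
  have hU2 : ∀ t p, R₁ ≤ yB p → U t p = X t p := by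
    intro t p hp
    change W t (((⟨sideB p, sideB_inr p⟩, yB p) : Hyp k × ℝ), prW m (k + 1) p) = _
    rw [hW4 _ _ _ _ (by linarith)]
    change X t (mkB m (k + 1) (sideB p) (prW m (k + 1) p)) = X t p
    rw [← hXexit t _ (yB p)]
    congr 1
    rw [mkB, sideB, map_sub, map_smul]
    have h8 := split_eta (m := m) (k := k + 1) p
    calc _ = incK m (k + 1) (prK m (k + 1) p) + incW m (k + 1) (prW m (k + 1) p) := by abel
      _ = p := h8
  have hU3 : ∀ t ∈ T0, ∀ p, U t p = prW m (k + 1) p := by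
    intro t ht p
    refine hW5 t ?_ (spl m k p).1 (spl m k p).2
    intro q w
    change (h ((par ρ (t, q)).1, (par ρ (t, q)).2) : SympCt m).1 w = w
    have h8 : (par ρ (t, q)).2 ∈ bdE k T0 := Or.inl (Or.inl ht)
    rw [hhr _ _ h8]
    rfl
  obtain ⟨Y, hY, hY1, hY2⟩ := hinv m (k + 1) T R₁ U hUfam
  have hUY : ∀ t p, mapW m (k + 1) (U t) (mapW m (k + 1) (Y t) p) = p := fun t p => by
    apply ext_split
    · rw [prK_mapW, prK_mapW]
    · rw [prW_mapW, hY2]
  have hYU : ∀ t p, mapW m (k + 1) (Y t) (mapW m (k + 1) (U t) p) = p := fun t p => by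
    apply ext_split
    · rw [prK_mapW, prK_mapW]
    · rw [prW_mapW, hY1]
  have hUid : ∀ {t p}, U t p = prW m (k + 1) p → mapW m (k + 1) (U t) p = p := fun {t p} hp => by
    rw [mapW, hp, mkB_eta]
  have hmapcf : CF (fun t p => mapW m (k + 1) (U t) p) :=
    CF.mkB (CF.const (prK m (k + 1)).contDiff) hUfam.cf
  refine ⟨R', 3 * R₁, Ξ, Θ, fun t p => Ξ' t (mapW m (k + 1) (U t) p),
    fun t p => mapW m (k + 1) (Y t) (Θ' t p), E, ?_, hE, ?_, ?_, ?_, ?_, ?_, ?_, ?_, ?_⟩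
  · exact (hr₁.trans_le hr₁').le
  · exact hE'.cfX.comp hmapcf
  · exact CF.mkB (hE'.cfT.clm (prK m (k + 1))) (hY.cf.comp hE'.cfT)
  · intro t p
    change mapW m (k + 1) (Y t) (Θ' t (Ξ' t (mapW m (k + 1) (U t) p))) = p
    rw [hE'.left_inv, hYU]
  · intro t p
    change Ξ' t (mapW m (k + 1) (U t) (mapW m (k + 1) (Y t) (Θ' t p))) = p
    rw [hUY, hE'.right_inv]
  · intro t p
    change F' t (Ξ' t (mapW m (k + 1) (U t) p)) = _
    rw [hE'.lies, prK_mapW]
  · intro t p v w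
    have hd1 : DifferentiableAt ℝ (Ξ' t) (mapW m (k + 1) (U t) p) := hE'.cfX.differentiable t _
    have hd2 : DifferentiableAt ℝ (mapW m (k + 1) (U t)) p := hmapcf.differentiable t p
    have key : ∀ v, fderiv ℝ (fun p => Ξ' t (mapW m (k + 1) (U t) p)) p (incW m (k + 1) v) =
        fderiv ℝ (Ξ' t) (mapW m (k + 1) (U t) p)
          (incW m (k + 1) (fderiv ℝ (U t) p (incW m (k + 1) v))) := by
      intro v
      have a1 : fderiv ℝ (fun p => Ξ' t (mapW m (k + 1) (U t) p)) p =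
          (fderiv ℝ (Ξ' t) (mapW m (k + 1) (U t) p)).comp
            (fderiv ℝ (mapW m (k + 1) (U t)) p) := fderiv_comp p hd1 hd2
      rw [a1, ContinuousLinearMap.comp_apply, mapW_fderiv (hUfam.cf.differentiable t p), prK_incW,
        mkB, map_zero, zero_add]
    rw [key, key, hE'.symp, hUfam.symp]
  · intro t p hp
    change Ξ' t (mapW m (k + 1) (U t) p) = Ξ t p
    by_cases hs : R₁ ≤ ‖sideB p‖
    · rw [hUid (hU1 t p (Or.inr hs)), hE'.side t p (Or.inl (hR1R.trans hs)),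
        hE.side t p (Or.inl (hR1R.trans hs))]
    by_cases hw : R₁ < ‖prW m (k + 1) p‖
    · rw [hUid (hUfam.std t p hw), hE'.side t p (Or.inr (hR1R.trans hw.le)),
        hE.side t p (Or.inr (hR1R.trans hw.le))]
    by_cases hy : yB p ≤ -R₁
    · rw [hUid (hU1 t p (Or.inl hy)), hE'.left t p (by linarith), hE.left t p (by linarith)]
    have b1 := norm_le_side p
    have b2 : R₁ < |yB p| := by
      push Not at hs hw
      linarith
    have b3 : R₁ < yB p := by
      rcases lt_abs.1 b2 with b3 | b3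
      · exact b3
      · exact absurd (by linarith : yB p ≤ -R₁) hy
    have b4 : R' ≤ yB (mapW m (k + 1) (U t) p) := by
      rw [yB, prK_mapW]
      change R' ≤ yB p
      linarith
    rw [hE'.right t _ b4, hE.right t p (by linarith), prK_mapW]
    congr 1
    have b5 : mapW m (k + 1) (U t) p = mapW m (k + 1) (V t) (mapW m (k + 1) (E t) p) := by
      apply ext_split
      · rw [prK_mapW, prK_mapW, prK_mapW]
      · rw [prW_mapW, prW_mapW, hU2 t p b3.le]
    rw [b5, hV2, prW_mapW]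
  · intro t ht p
    change Ξ' t (mapW m (k + 1) (U t) p) = p
    rw [hUid (hU3 t ht p), (hE'.triv t (hT0F' t ht) p).1]

end Pool.Agent.KRW
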