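import Mathlib
import Pool.Agent.KRW.St2
import Pool.Agent.KRW.Split

/-!
# OR4: the scattering is invariant under the group

`thm_act (h1 : St_scEx) (h2 : St_scUn) : St_act`.
-/

set_option maxSynthPendingDepth 3

open scoped ContDiff Topology unitInterval
open Set Function TopologicalSpace Filter

namespace Pool.Agent.KRW

open Pool.Agent.Helper17 Pool.Agent.Helper42 Pool.Agent.H42.Hull

variable {m k : ℕ}

/-- A symplectomorphism maps the horizontal curves of `F ∘ φ` to horizontal curves of `F`. -/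
lemma or4_isHor {F : Phase (m + (k + 1)) → Phase (k + 1)} (hF : Differentiable ℝ F)
    (φ : SympCt (m + (k + 1))) {c : ℝ → Phase (m + (k + 1))}
    (hc : IsHor (fun p => F ((φ : Equiv.Perm (Phase (m + (k + 1)))) p)) c) :
    IsHor F (fun s => (φ : Equiv.Perm (Phase (m + (k + 1)))) (c s)) := by
  intro s
  obtain ⟨v, hv1, hv2, hv3⟩ := hc s
  have hd : ∀ p, fderiv ℝ (fun p => F ((φ : Equiv.Perm (Phase (m + (k + 1)))) p)) p =
      (fderiv ℝ F ((φ : Equiv.Perm (Phase (m + (k + 1)))) p)).comp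
        (fderiv ℝ (φ : Equiv.Perm (Phase (m + (k + 1)))) p) := fun p =>
    ((hF _).hasFDerivAt.comp p (SympCt.differentiable φ p).hasFDerivAt).fderiv
  have hv2' : fderiv ℝ (fun p => F ((φ : Equiv.Perm (Phase (m + (k + 1)))) p)) (c s) v = vecY k :=
    hv2
  rw [hd] at hv2'
  refine ⟨fderiv ℝ (φ : Equiv.Perm (Phase (m + (k + 1)))) (c s) v, ?_, hv2', ?_⟩
  · exact (SympCt.differentiable φ (c s)).hasFDerivAt.comp_hasDerivAt s hv1
  · intro w hw
    obtain ⟨w₀, rfl⟩ := Pool.Agent.H50.Susp.symp_surjective (fun u v => φ.2.2.2.1 (c s) u v) w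
    rw [φ.2.2.2.1]
    refine hv3 w₀ ?_
    change fderiv ℝ (fun p => F ((φ : Equiv.Perm (Phase (m + (k + 1)))) p)) (c s) w₀ = 0
    rw [hd]
    exact hw

/-- The scattering is invariant under the group.  Hypotheses: `St_scEx`, `St_scUn`. -/
theorem thm_act (h1 : St_scEx) (h2 : St_scUn) : St_act := by
  intro m k T _ _ T0 R F φ hR hF hT0 hφ0 e e' he he'
  obtain ⟨ρa, hρa, hea⟩ := he
  obtain ⟨ρb, hρb, heb⟩ := he'
  obtain ⟨hCF, K, hK⟩ := CF_of_continuous φ.continuous
  obtain ⟨r, hr⟩ := K.isCompact.isBounded.subset_closedBall (0 : Phase (m + (k + 1)))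
  have hfix : ∀ t p, r < ‖p‖ → (φ t : Equiv.Perm (Phase (m + (k + 1)))) p = p := by
    intro t p hp
    refine hK t p fun hmem => ?_
    have := hr hmem
    rw [mem_closedBall_zero_iff] at this
    linarith
  have hJ : JFam m (k + 1) (max R r)
      (fun t p => F t ((φ t : Equiv.Perm (Phase (m + (k + 1)))) p)) := by
    refine ⟨hF.cf.comp hCF, fun t p hp => ?_, fun t => ?_⟩
    · rw [hfix t p ((le_max_right _ _).trans_lt hp), hF.std t p ((le_max_left _ _).trans_lt hp)]
    · exact JPos.comp (hF.pos t) (hF.cf.differentiable t) (SympCt.differentiable (φ t))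
        (φ t).2.2.2.1
  obtain ⟨ρ₀, hρ₀, hex⟩ := h1 m k T R F hR hF
  obtain ⟨e₁, he₁, -, -⟩ := hex (max ρ₀ (|r| + 1)) (le_max_left _ _)
  set ρ := max ρ₀ (|r| + 1) with hρ
  have hρpos : 0 < ρ := lt_of_lt_of_le hρ₀ (le_max_left _ _)
  have hρr : r < ρ := by
    have h3 : |r| + 1 ≤ ρ := le_max_right _ _
    linarith [le_abs_self r]
  have he₁' : IsScatAt ρ (fun t p => F t ((φ t : Equiv.Perm (Phase (m + (k + 1)))) p)) e₁ := by
    refine ⟨fun t p hp => ?_, fun t c hc s s' z a b hs hs' hside => ?_⟩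
    · beta_reduce
      rw [hfix t p (hρr.trans_le hp), he₁.1 t p hp]
    · have hcs : (φ t : Equiv.Perm (Phase (m + (k + 1)))) (c s) = c s := by
        refine hfix t _ (hρr.trans_le ?_)
        have h3 := abs_yB_le (c s)
        have h4 := neg_abs_le (yB (c s))
        linarith
      have hcs' : (φ t : Equiv.Perm (Phase (m + (k + 1)))) (c s') = c s' := by
        refine hfix t _ (hρr.trans_le ?_)
        have h3 := abs_yB_le (c s')
        have h4 := le_abs_self (yB (c s'))
        linarith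
      have h5 := he₁.2 t _ (or4_isHor (hF.cf.differentiable t) (φ t) hc) s s' z a b
      beta_reduce at h5
      rw [hcs, hcs'] at h5
      exact h5 hs hs' hside
  have hT0' : ∀ t ∈ T0, ∀ p,
      F t ((φ t : Equiv.Perm (Phase (m + (k + 1)))) p) = prK m (k + 1) p := by
    intro t ht p
    rw [hφ0 t ht]
    exact hT0 t ht p
  have g1 := (h2 m k T T0 R F hR hF hT0 ρa ρ e e₁ hρa hρpos hea he₁).1
  have g2 := (h2 m k T T0 (max R r) _ (hR.trans (le_max_left _ _)) hJ hT0' ρ ρb e₁ e' hρpos hρb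
    he₁' heb).1
  exact g1.trans g2

end Pool.Agent.KRW
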