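import Mathlib
import Pool.Agent.KRW.St2
import Pool.Agent.KRW.Split
import Pool.Agent.KRW.MPD

/-!
# OR5: the refined exactness at the rows, for loops (helper91)

`thm_ref2` proves `St_ref2` from `St_orb`, `St_act`, `St_cubE`, `St_topR`, `St_scUn`, `St_scEx`.
-/

set_option maxSynthPendingDepth 3

open scoped ContDiff Topology unitInterval
open Set Function TopologicalSpace Filter

namespace Pool.Agent.KRW

open Pool.Agent.Helper17 Pool.Agent.Helper42 Pool.Agent.H42.Hull

private lemma OR5_JFam_mono {m k : ℕ} {T : Type} [TopologicalSpace T] {R R' : ℝ}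
    {F : T → Phase (m + k) → Phase k} (h : JFam m k R F) (hR : R ≤ R') : JFam m k R' F :=
  ⟨h.cf, fun t p hp => h.std t p (hR.trans_lt hp), h.pos⟩

private lemma OR5_JFam_base {m k : ℕ} {T T' : Type} [TopologicalSpace T] [TopologicalSpace T']
    {R : ℝ} {F : T → Phase (m + k) → Phase k} (h : JFam m k R F) {c : T' → T}
    (hc : Continuous c) : JFam m k R (fun t => F (c t)) :=
  ⟨h.cf.base hc, fun t p hp => h.std (c t) p hp, fun t => h.pos (c t)⟩

/-- OR5 (`St_ref2`).  Refined exactness at the rows, for loops: the scattering classes of two loops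
of rows `F`, `F'` agree iff `F'` is homotopic to `F` composed with a loop of compactly supported
symplectic maps.  Hypotheses: transitivity (`St_orb`) and invariance (`St_act`) for families, the cube
coordinates (`St_cubE`), the topology of loops of rows (`St_topR`), uniqueness and existence of
scatterings (`St_scUn`, `St_scEx`). -/
theorem thm_ref2 (orb : St_orb) (act : St_act) (cubE : St_cubE) (topR : St_topR)
    (scUn : St_scUn) (scEx : St_scEx) : St_ref2 := by
  intro j m k F F' e e' he he'
  obtain ⟨R1, R2, R3, R4, -⟩ := topR j m (k + 1)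
  obtain ⟨C1, -, -, -⟩ := cubE j m k
  have hs : IsScatF (fun t => F.at t) (ueK e) := (isScatK_iff F e).1 he
  have hs' : IsScatF (fun t => F'.at t) (ueK e') := (isScatK_iff F' e').1 he'
  obtain ⟨RF, hRF, hJ⟩ := R1 F
  obtain ⟨RF', hRF', hJ'⟩ := R1 F'
  constructor
  · intro hcls
    have hJm := OR5_JFam_mono hJ (le_max_left RF RF')
    have hJm' := OR5_JFam_mono hJ' (le_max_right RF RF')
    obtain ⟨R'', φ, H, hR'', hH, H0, H1, Hbd⟩ := orb m k (Fin j → I) (Cube.boundary (Fin j))
      (max RF RF') (fun t => F.at t) (fun t => F'.at t) (hRF.trans (le_max_left _ _)) hJm hJm'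
      (fun t ht p => ⟨R2 F t ht p, R2 F' t ht p⟩) (ueK e) (ueK e') hs hs' ((C1 e e').1 hcls)
    have hH1 : JFam m (k + 1) R'' (fun t => H (t, 1)) :=
      OR5_JFam_base hH (c := fun t : Fin j → I => (t, (1 : I)))
        (continuous_id.prodMk continuous_const)
    obtain ⟨F'', hF''⟩ := R3 R'' (fun t => H (t, 1)) hH1 (fun t ht p => (Hbd t ht).2 1 p)
    refine ⟨⟨φ, fun t ht => (Hbd t ht).1⟩, F'', fun t p => ?_, ?_⟩
    · rw [hF'', H1]
      rfl
    · exact (R4 F' F'').2 ⟨R'', H, hR'', hH, H0, fun t p => (hF'' t p).symm,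
        fun t ht => (Hbd t ht).2⟩
  · rintro ⟨φ, F'', hF'', hcls⟩
    obtain ⟨e'', he''⟩ := exists_isScatK topR scEx cubE F''
    have hs'' : IsScatF (fun t => F''.at t) (ueK e'') := (isScatK_iff F'' e'').1 he''
    have hfun : (fun t => F''.at t) = fun (t : Fin j → I) (p : Phase (m + (k + 1))) =>
        F.at t ((φ.1 t : Equiv.Perm (Phase (m + (k + 1)))) p) := by
      funext t p
      exact hF'' t p
    rw [hfun] at hs''
    have h1 := act m k (Fin j → I) (Cube.boundary (Fin j)) RF (fun t => F.at t) φ.1 hRF hJ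
      (fun t ht p => R2 F t ht p) (fun t ht => φ.2 t ht) (ueK e) (ueK e'') hs hs''
    have h2 : e.cls = e''.cls := (C1 e e'').2 h1
    have h3 : e'.cls = e''.cls := cls_eq_of_scat topR scEx scUn cubE F' F'' e' e'' hcls he' he''
    rw [h2, h3]

end Pool.Agent.KRW
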