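import Mathlib
import Pool.Agent.KRW.StR

/-!
# The exact sequence of `k`-rows: a bound for the difference of the horizontal lifts (RBD)
-/

set_option maxSynthPendingDepth 3

open scoped ContDiff Topology unitInterval
open Set Function TopologicalSpace Filter

namespace Pool.Agent.KRW

open Pool.Agent.Helper17 Pool.Agent.Helper42 Pool.Agent.H42.Hull

/-- RBD.  A bound for the difference of the horizontal lifts. -/
theorem thm_rBd (h1 : St_lin1) (h2 : St_jposTame) : St_rBd := by
  intro m k T _ _ R F F' ψ χ hR hF hF' h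
  have dF : ∀ t, Differentiable ℝ (F t) := hF.cf.differentiable
  have dF' : ∀ t, Differentiable ℝ (F' t) := hF'.cf.differentiable
  have dψ : ∀ t, Differentiable ℝ (ψ t) := h.cf.differentiable
  have dχ : ∀ t, Differentiable ℝ (χ t) := h.cf'.differentiable
  have tF : ∀ t x, TameL (fderiv ℝ (F t) x) := fun t => (h2 _ _ _ (dF t)).1 (hF.pos t)
  have tF' : ∀ t x, TameL (fderiv ℝ (F' t) x) := fun t => (h2 _ _ _ (dF' t)).1 (hF'.pos t)
  have hc : ∀ t x, (fderiv ℝ (F' t) x).comp (fderiv ℝ (ψ t) (χ t x)) =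
      fderiv ℝ (F t) (χ t x) := by
    intro t x
    have e1 : HasFDerivAt (fun p => F' t (ψ t p))
        ((fderiv ℝ (F' t) (ψ t (χ t x))).comp (fderiv ℝ (ψ t) (χ t x))) (χ t x) :=
      (dF' t _).hasFDerivAt.comp (χ t x) (dψ t _).hasFDerivAt
    rw [h.right_inv] at e1
    have e2 : (fun p => F' t (ψ t p)) = F t := funext fun p => h.map t p
    rw [e2] at e1
    exact e1.fderiv.symm
  have hi1 : ∀ t x u, fderiv ℝ (ψ t) (χ t x) (fderiv ℝ (χ t) x u) = u := by
    intro t x u
    have e1 : HasFDerivAt (fun p => ψ t (χ t p))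
        ((fderiv ℝ (ψ t) (χ t x)).comp (fderiv ℝ (χ t) x)) x :=
      (dψ t _).hasFDerivAt.comp x (dχ t _).hasFDerivAt
    have e2 : (fun p => ψ t (χ t p)) = id := funext fun p => h.right_inv t p
    rw [e2] at e1
    have e3 := e1.unique (hasFDerivAt_id x)
    exact congrArg (fun L : Phase (m + k) →L[ℝ] Phase (m + k) => L u) e3
  have hi2 : ∀ t x u, fderiv ℝ (χ t) x (fderiv ℝ (ψ t) (χ t x) u) = u := by
    intro t x u
    have e1 : HasFDerivAt (fun p => χ t (ψ t p))
        ((fderiv ℝ (χ t) (ψ t (χ t x))).comp (fderiv ℝ (ψ t) (χ t x))) (χ t x) :=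
      (dχ t _).hasFDerivAt.comp (χ t x) (dψ t _).hasFDerivAt
    rw [h.right_inv] at e1
    have e2 : (fun p => χ t (ψ t p)) = id := funext fun p => h.left_inv t p
    rw [e2] at e1
    have e3 := e1.unique (hasFDerivAt_id (χ t x))
    exact congrArg (fun L : Phase (m + k) →L[ℝ] Phase (m + k) => L u) e3
  have tC : ∀ t x, TameL ((fderiv ℝ (F' t) x).comp (fderiv ℝ (ψ t) (χ t x))) := by
    intro t x
    rw [hc]
    exact tF t _
  refine ⟨fun t x => ⟨tF' t x, tC t x, hi1 t x, hi2 t x, ?_⟩, ?_⟩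
  · intro u v hu hv
    have e : ∀ w, fderiv ℝ (F' t) x w = 0 →
        fderiv ℝ (F t) (χ t x) (fderiv ℝ (χ t) x w) = 0 := by
      intro w hw
      rw [← hc, ContinuousLinearMap.comp_apply, hi1, hw]
    have e1 := h.symp t (χ t x) (fderiv ℝ (χ t) x u) (fderiv ℝ (χ t) x v) (e u hu) (e v hv)
    rw [hi1, hi1] at e1
    exact e1.symm
  · have c1 : CF (fun t x => fderiv ℝ (ψ t) (χ t x)) := h.cf.fderiv.comp h.cf'
    have c2 : CF (fun t x => hl ((fderiv ℝ (F' t) x).comp (fderiv ℝ (ψ t) (χ t x)))) :=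
      (hF'.cf.fderiv.clm_comp c1).comp_smooth (g := fun B : Phase (m + k) →L[ℝ] Phase k => hl B)
        (fun t x => (h1 _ _ _ (tC t x)).2.2.2.2.1)
    have c3 : CF (fun t x => hl (fderiv ℝ (F' t) x)) :=
      hF'.cf.fderiv.comp_smooth (g := fun B : Phase (m + k) →L[ℝ] Phase k => hl B)
        (fun t x => (h1 _ _ _ (tF' t x)).2.2.2.2.1)
    have c4 := ((c1.clm_comp c2).sub c3).continuous
    obtain ⟨C, hC⟩ := (isCompact_univ.prod (isCompact_closedBall (0 : Phase (m + k))
      R)).exists_bound_of_continuousOn (s := (univ : Set T) ×ˢ Metric.closedBall 0 R)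
      c4.continuousOn
    refine ⟨max C 0, le_max_right _ _, fun t x u => ?_⟩
    by_cases hx : R < ‖x‖
    · have e1 : χ t x = x := by
        have := h.left_inv t x
        rwa [h.std t x hx] at this
      have e2 : fderiv ℝ (ψ t) x = ContinuousLinearMap.id ℝ (Phase (m + k)) := by
        have e3 : ψ t =ᶠ[𝓝 x] id := by
          filter_upwards [(isOpen_lt continuous_const continuous_norm).mem_nhds hx] with p hp
          exact h.std t p hp
        rw [e3.fderiv_eq, fderiv_id]
      rw [e1, e2, ContinuousLinearMap.comp_id, ContinuousLinearMap.id_apply, sub_self, norm_zero]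
      positivity
    · have e1 := hC (t, x) ⟨mem_univ _, by
        rw [Metric.mem_closedBall, dist_zero_right]
        exact not_lt.1 hx⟩
      have e2 : fderiv ℝ (ψ t) (χ t x)
          (hl ((fderiv ℝ (F' t) x).comp (fderiv ℝ (ψ t) (χ t x))) u) -
          hl (fderiv ℝ (F' t) x) u = ((fderiv ℝ (ψ t) (χ t x)).comp
          (hl ((fderiv ℝ (F' t) x).comp (fderiv ℝ (ψ t) (χ t x)))) -
          hl (fderiv ℝ (F' t) x)) u := rfl
      rw [e2]
      refine (ContinuousLinearMap.le_opNorm _ _).trans ?_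
      exact mul_le_mul_of_nonneg_right (e1.trans (le_max_left _ _)) (norm_nonneg _)

end Pool.Agent.KRW
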