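import Mathlib
import Pool.Agent.KRW.StR
import Pool.Agent.KRW.RET

/-!
# Two rows which differ by a diffeomorphism, symplectic on the kernels, are in the same orbit

`thm_ret3 : St_ret3` and `thm_ret2 : St_ret2`.
-/

set_option maxSynthPendingDepth 3

open scoped ContDiff Topology unitInterval
open Set Function TopologicalSpace Filter

namespace Pool.Agent.KRW

open Pool.Agent.Helper17 Pool.Agent.Helper42 Pool.Agent.H42.Hull

namespace RE2

variable {m k : ℕ}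

lemma nuS_pos (C s : ℝ) : 0 < nuS C s := Real.exp_pos _

lemma nuS_zero (C : ℝ) : nuS C 0 = 1 := by simp [nuS]

lemma nuS_one (C : ℝ) : nuS C 1 = 1 := by simp [nuS]

lemma kaS_zero (C : ℝ) : kaS C 0 = 0 := by simp [kaS]

lemma kaS_one (C : ℝ) : kaS C 1 = 0 := by simp [kaS]

lemma kaS_ge (C s : ℝ) : s * (1 - s) * C ≤ kaS C s := by
  have h := Real.add_one_le_exp (C * (s * (1 - s)))
  rw [kaS]
  linarith

lemma continuous_nuS (C : ℝ) : Continuous (nuS C) := by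
  unfold nuS
  fun_prop

lemma sL_inv {μ : ℝ} (hμ : μ ≠ 0) (x : Phase (m + k)) :
    RET.sL m k μ (RET.sL m k μ⁻¹ x) = x := by
  rw [RET.sL_apply, RET.sL_apply]
  change mkB m k (μ • prK m k (mkB m k (μ⁻¹ • prK m k x) (prW m k x)))
    (prW m k (mkB m k (μ⁻¹ • prK m k x) (prW m k x))) = x
  rw [prK_mkB, prW_mkB, smul_smul, mul_inv_cancel₀ hμ, one_smul, mkB_eta]

lemma sclB_one (x : Phase (m + k)) : sclB m k 1 x = x := by
  rw [sclB, one_smul, mkB_eta]

lemma prK_sL (μ : ℝ) (x : Phase (m + k)) : prK m k (RET.sL m k μ x) = μ • prK m k x := by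
  rw [RET.sL_apply, sclB, prK_mkB]

end RE2

open RE2

theorem thm_ret3 (hmos : St_mosV) (hl2 : St_lin2) (hjt : St_jposTame) (hc : St_comb)
    (hb : St_rBd) (hbt : St_beta3) : St_ret3 := by
  intro m k T _ _ R F F' ψ χ hR hF hF' hr
  obtain ⟨hlin, a, ha0, ha⟩ := hb m k T R F F' ψ χ hR hF hF' hr
  obtain ⟨C, hC⟩ : ∃ C : ℝ, C = a ^ 2 := ⟨_, rfl⟩
  have hC0 : 0 ≤ C := by rw [hC]; positivity
  have hχstd : ∀ t p, R < ‖p‖ → χ t p = p := by
    intro t p hp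
    have h1 := hr.left_inv t p
    rwa [hr.std t p hp] at h1
  obtain ⟨ρ, β, hRρ, hβcf, hout, hvf, htriv⟩ :=
    hbt m k T R C F' χ hR hC0 hF' hr.cf' hχstd
  -- the forms on the target
  have hform : ∀ (t : T) (s : ℝ), s ∈ Icc (0 : ℝ) 1 → ∀ y : Phase (m + k),
      (∃ h : Phase k → Phase (m + k), (∀ u, fderiv ℝ (F' t) y (h u) = u) ∧
        (∀ u v, fderiv ℝ (F' t) y v = 0 → (1 - s) * omegaStd (h u) v +
          s * omegaStd (fderiv ℝ (χ t) y (h u)) (fderiv ℝ (χ t) y v) +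
          kaS C s * omegaStd (fderiv ℝ (F' t) y (h u)) (fderiv ℝ (F' t) y v) = 0) ∧
        (∀ u, u ≠ 0 → 0 < (1 - s) * omegaStd (h u) (h (Jl k u)) +
          s * omegaStd (fderiv ℝ (χ t) y (h u)) (fderiv ℝ (χ t) y (h (Jl k u))) +
          kaS C s * omegaStd (fderiv ℝ (F' t) y (h u)) (fderiv ℝ (F' t) y (h (Jl k u))))) ∧
      ∀ x, (∀ v, (1 - s) * omegaStd x v +
          s * omegaStd (fderiv ℝ (χ t) y x) (fderiv ℝ (χ t) y v) +
          kaS C s * omegaStd (fderiv ℝ (F' t) y x) (fderiv ℝ (F' t) y v) = 0) → x = 0 := by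
    intro t s hs y
    obtain ⟨h1, h2, h3, h4, h5⟩ := hlin t y
    exact hc (m + k) k (fderiv ℝ (F' t) y) (fderiv ℝ (χ t) y) (fderiv ℝ (ψ t) (χ t y)) a h3 h4
      h1 h2 h5 (ha t y) s (kaS C s) hs.1 hs.2 (by rw [← hC]; exact kaS_ge C s)
  have hvf' : ∀ t s d x u v, vform (β t) s d x u v =
      (1 - s) * omegaStd (RET.sL m k (nuS C s) u) (RET.sL m k (nuS C s) v) +
      s * omegaStd (fderiv ℝ (χ t) (RET.sL m k (nuS C s) x) (RET.sL m k (nuS C s) u))
        (fderiv ℝ (χ t) (RET.sL m k (nuS C s) x) (RET.sL m k (nuS C s) v)) +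
      kaS C s * omegaStd (fderiv ℝ (F' t) (RET.sL m k (nuS C s) x) (RET.sL m k (nuS C s) u))
        (fderiv ℝ (F' t) (RET.sL m k (nuS C s) x) (RET.sL m k (nuS C s) v)) := by
    intro t s d x u v
    rw [hvf, RET.sL_apply, RET.sL_apply, RET.sL_apply]
  have hnd : ∀ t, ∀ s ∈ Icc (0 : ℝ) 1, ∀ (d : Phase 0) (w u : Phase (m + k)),
      (∀ v, vform (β t) s d w u v = 0) → u = 0 := by
    intro t s hs d w u hu
    have h1 : RET.sL m k (nuS C s) u = 0 := by
      refine (hform t s hs (RET.sL m k (nuS C s) w)).2 _ fun v => ?_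
      have h2 := hu (RET.sL m k (nuS C s)⁻¹ v)
      rw [hvf', sL_inv (nuS_pos C s).ne'] at h2
      exact h2
    have h2 := sL_inv (m := m) (k := k) (inv_ne_zero (nuS_pos C s).ne') u
    rw [inv_inv, h1, map_zero] at h2
    exact h2.symm
  have hcond : ∀ t, ∀ s ∈ Icc (0 : ℝ) 1, ∀ (d : Phase 0) (w : Phase (m + k)),
      ((0 : ℝ) < ‖d‖ ∨ ρ < ‖w‖) → β t (s, (d, w)) = β t (0, (d, w)) := by
    rintro t s hs d w (h | h)
    · rw [Subsingleton.elim d 0, norm_zero] at h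
      exact absurd h (lt_irrefl _)
    · exact (hout t s hs d w h).2
  obtain ⟨M, hMcf, hM0, hMout, hMform, hMtriv⟩ := hmos (m + k) (Phase 0) T β 0 ρ hβcf hcond
    (fun t s hs d w a h => hnd t s hs d w a h)
  obtain ⟨Z, hZ⟩ : ∃ Z : T × I → Phase (m + k) → Phase (m + k), Z = fun q p => M q (0, p) :=
    ⟨_, rfl⟩
  have hZa : ∀ q p, Z q p = M q (0, p) := fun q p => by rw [hZ]
  have hZC : CF Z := by
    rw [hZ]
    exact CF.comp (F := M) (G := fun (_ : T × I) p => ((0 : Phase 0), p)) hMcf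
      ((CF.const contDiff_const).prodMk (CF.const contDiff_id))
  have hZstd : ∀ q p, ρ < ‖p‖ → Z q p = p := fun q p hp => by
    rw [hZa]
    exact hMout q 0 p (Or.inr hp)
  have hkey : ∀ t (s : I) p u v, vform (β t) s (0 : Phase 0) (Z (t, s) p)
      (fderiv ℝ (Z (t, s)) p u) (fderiv ℝ (Z (t, s)) p v) = omegaStd u v := by
    intro t s p u v
    have h1 := hMform t s 0 p u v
    have h2 : Z (t, s) = fun w' => M (t, s) (0, w') := by rw [hZ]
    rw [h2]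
    rw [h1, hvf, nuS_zero, kaS_zero, sclB_one, sclB_one]
    ring
  have hinj : ∀ (q : T × I) p, Injective (fderiv ℝ (Z q) p) := by
    rintro ⟨t, s⟩ p
    refine (injective_iff_map_eq_zero _).2 fun u hu => ?_
    apply eq_zero_of_omegaStd
    intro v
    rw [← hkey t s p u v, hu]
    have h2 := hkey t s p 0 v
    rw [map_zero, omegaStd_zero_left] at h2
    exact h2
  -- the path of rows
  obtain ⟨H, hH⟩ : ∃ H : T × I → Phase (m + k) → Phase k, H = fun q p =>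
    (nuS C (q.2 : ℝ))⁻¹ • F' q.1 (RET.sL m k (nuS C (q.2 : ℝ)) (Z q p)) := ⟨_, rfl⟩
  have hHa : ∀ t (s : I) p, H (t, s) p =
      (nuS C (s : ℝ))⁻¹ • F' t (RET.sL m k (nuS C (s : ℝ)) (Z (t, s) p)) := fun t s p => by
    rw [hH]
  have hν : Continuous fun q : T × I => nuS C (q.2 : ℝ) :=
    (continuous_nuS C).comp (continuous_subtype_val.comp continuous_snd)
  have hHC : CF H := by
    rw [hH]
    have h1 : CF (fun (q : T × I) (_ : Phase (m + k)) => RET.sL m k (nuS C (q.2 : ℝ))) :=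
      CF.param (RET.contDiff_sL.continuous.comp hν)
    have h2 : CF (fun (q : T × I) (p : Phase (m + k)) =>
        RET.sL m k (nuS C (q.2 : ℝ)) (Z q p)) := h1.clm_apply hZC
    have h3 : CF (fun (q : T × I) (p : Phase (m + k)) =>
        F' q.1 (RET.sL m k (nuS C (q.2 : ℝ)) (Z q p))) :=
      CF.comp (hF'.cf.base continuous_fst) h2
    have h4 : CF (fun (q : T × I) (_ : Phase (m + k)) => (nuS C (q.2 : ℝ))⁻¹) :=
      CF.param (hν.inv₀ fun q => (nuS_pos C _).ne')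
    exact h4.smul h3
  have hHstd : ∀ q p, ρ < ‖p‖ → H q p = prK m k p := by
    rintro ⟨t, s⟩ p hp
    have h1 := (hout t s s.2 0 p hp).1
    rw [← RET.sL_apply] at h1
    rw [hHa, hZstd _ _ hp, hF'.std t _ h1, prK_sL, smul_smul,
      inv_mul_cancel₀ (nuS_pos C _).ne', one_smul]
  have hHder : ∀ t (s : I) p v, fderiv ℝ (H (t, s)) p v = (nuS C (s : ℝ))⁻¹ •
      fderiv ℝ (F' t) (RET.sL m k (nuS C (s : ℝ)) (Z (t, s) p))
        (RET.sL m k (nuS C (s : ℝ)) (fderiv ℝ (Z (t, s)) p v)) := by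
    intro t s p v
    have h1 : H (t, s) = fun p =>
        (nuS C (s : ℝ))⁻¹ • F' t (RET.sL m k (nuS C (s : ℝ)) (Z (t, s) p)) := by
      rw [hH]
    have h2 : HasFDerivAt (H (t, s)) ((nuS C (s : ℝ))⁻¹ •
        ((fderiv ℝ (F' t) (RET.sL m k (nuS C (s : ℝ)) (Z (t, s) p))).comp
          ((RET.sL m k (nuS C (s : ℝ))).comp (fderiv ℝ (Z (t, s)) p)))) p := by
      rw [h1]
      have h3 : HasFDerivAt (fun p => F' t (RET.sL m k (nuS C (s : ℝ)) (Z (t, s) p)))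
          ((fderiv ℝ (F' t) (RET.sL m k (nuS C (s : ℝ)) (Z (t, s) p))).comp
          ((RET.sL m k (nuS C (s : ℝ))).comp (fderiv ℝ (Z (t, s)) p))) p :=
        (hF'.cf.differentiable t _).hasFDerivAt.comp p
        ((RET.sL m k (nuS C (s : ℝ))).hasFDerivAt.comp p
          (hZC.differentiable (t, s) p).hasFDerivAt)
      exact h3.const_smul ((nuS C (s : ℝ))⁻¹)
    rw [h2.fderiv]
    rfl
  have hHpos : ∀ q, JPos (H q) := by
    rintro ⟨t, s⟩
    refine (hjt (m + k) k (H (t, s)) (hHC.differentiable (t, s))).2 fun p => ?_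
    obtain ⟨⟨h, k1, k2, k3⟩, -⟩ :=
      hform t s s.2 (RET.sL m k (nuS C (s : ℝ)) (Z (t, s) p))
    set e := cleOfInjective (fderiv ℝ (Z (t, s)) p) (hinj (t, s) p) with he
    have g1 : ∀ x, fderiv ℝ (Z (t, s)) p (e.symm x) = x := fun x => e.apply_symm_apply x
    have hν0 : nuS C (s : ℝ) ≠ 0 := (nuS_pos C _).ne'
    have hlift : ∀ u, RET.sL m k (nuS C (s : ℝ)) (fderiv ℝ (Z (t, s)) p
        (e.symm (RET.sL m k (nuS C (s : ℝ))⁻¹ (h (nuS C (s : ℝ) • u))))) =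
        h (nuS C (s : ℝ) • u) := by
      intro u
      rw [g1, sL_inv hν0]
    refine hl2 (m + k) k (fderiv ℝ (H (t, s)) p)
      (fun u => e.symm (RET.sL m k (nuS C (s : ℝ))⁻¹ (h (nuS C (s : ℝ) • u))))
      (fun u => ?_) (fun u v hv => ?_) (fun u hu => ?_)
    · rw [hHder, hlift, k1, smul_smul, inv_mul_cancel₀ hν0, one_smul]
    · rw [← hkey t s p, hvf', hlift]
      apply k2
      rw [hHder] at hv
      exact (smul_eq_zero.1 hv).resolve_left (inv_ne_zero hν0)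
    · have g2 := k3 (nuS C (s : ℝ) • u) (smul_ne_zero hν0 hu)
      rw [(Jl k).map_smul] at g2
      rw [← hkey t s p, hvf', hlift, hlift]
      exact g2
  -- the symplectomorphisms
  have hfC : CF (fun (t : T) p => χ t (Z (t, 1) p)) :=
    CF.comp hr.cf' (hZC.base (h := fun t : T => (t, (1 : I))) (by fun_prop))
  have hfder : ∀ t p u, fderiv ℝ (fun p => χ t (Z (t, 1) p)) p u =
      fderiv ℝ (χ t) (Z (t, 1) p) (fderiv ℝ (Z (t, 1)) p u) := by
    intro t p u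
    have h2 : HasFDerivAt (fun p => χ t (Z (t, 1) p))
        ((fderiv ℝ (χ t) (Z (t, 1) p)).comp (fderiv ℝ (Z (t, 1)) p)) p :=
      (hr.cf'.differentiable t _).hasFDerivAt.comp p (hZC.differentiable (t, 1) p).hasFDerivAt
    rw [h2.fderiv]
    rfl
  have hfo : ∀ t p u v, omegaStd (fderiv ℝ (fun p => χ t (Z (t, 1) p)) p u)
      (fderiv ℝ (fun p => χ t (Z (t, 1) p)) p v) = omegaStd u v := by
    intro t p u v
    rw [hfder, hfder, ← hkey t 1 p u v, hvf]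
    have h1 : ((1 : I) : ℝ) = 1 := rfl
    rw [h1, nuS_one, kaS_one, sclB_one, sclB_one, sclB_one]
    ring
  have hfK : ∀ t, ∀ x ∉ Metric.closedBall (0 : Phase (m + k)) ρ, χ t (Z (t, 1) x) = x := by
    intro t x hx
    have hx' : ρ < ‖x‖ := by simpa using hx
    rw [hZstd _ _ hx', hχstd t x (hRρ.trans_lt hx')]
  obtain ⟨f, hf⟩ : ∃ f : C(T, SympCt (m + k)),
      ∀ t p, (f t : Equiv.Perm (Phase (m + k))) p = χ t (Z (t, 1) p) :=
    ⟨⟨fun t => mkSymp (fun p => χ t (Z (t, 1) p)) (hfC.contDiff t)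
      ⟨Metric.closedBall 0 ρ, isCompact_closedBall 0 ρ, hfK t⟩ (hfo t),
      continuous_of_CF hfC ⟨Metric.closedBall 0 ρ, isCompact_closedBall 0 ρ⟩ hfK
        fun _ _ => rfl⟩, fun _ _ => rfl⟩
  refine ⟨ρ, H, f, hRρ, ⟨hHC, hHstd, hHpos⟩, fun t p => ?_, fun t p => ?_, fun t h1 h2 => ?_⟩
  · rw [hHa, hZa, hM0]
    have h1 : ((0 : I) : ℝ) = 0 := rfl
    rw [h1, nuS_zero, RET.sL_one, inv_one, one_smul]
    rfl
  · have h1 : ((1 : I) : ℝ) = 1 := rfl
    rw [hHa, hf, h1, nuS_one, RET.sL_one, inv_one, one_smul, ← hr.map t, hr.right_inv]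
    rfl
  · have h3 : ∀ p, χ t p = p := fun p => by
      have h4 := hr.left_inv t p
      rwa [h2] at h4
    have h4 : ∀ (s : I) p, Z (t, s) p = p := fun s p => by
      rw [hZa]
      exact hMtriv t 0 (fun s _ w => htriv t h1 h3 s 0 w) s p
    refine ⟨fun s p => ?_, fun p => ?_⟩
    · rw [hHa, h4, h1, prK_sL, smul_smul, inv_mul_cancel₀ (nuS_pos C _).ne', one_smul]
    · rw [hf, h4, h3]

theorem thm_ret2 (h3 : St_ret3) : St_ret2 := by
  intro m k T _ _ T0 R R' R₃ F F' Ξ Θ Ξ₂ Θ₂ E hR hF hF' hRR hTr hX2 hT2 hTX hXT hlies hsymp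
    hagree hT0
  -- a common radius
  obtain ⟨R₄, hR₄⟩ : ∃ R₄ : ℝ, ∀ t x, ‖x‖ ≤ R₃ → ‖Ξ t x‖ ≤ R₄ := by
    have hcomp : IsCompact ((univ : Set T) ×ˢ Metric.closedBall (0 : Phase (m + (k + 1))) R₃) :=
      isCompact_univ.prod (isCompact_closedBall _ _)
    obtain ⟨B, hB⟩ := hcomp.exists_bound_of_continuousOn
      (f := fun q : T × Phase (m + (k + 1)) => Ξ q.1 q.2) hTr.cfX.continuous.continuousOn
    exact ⟨B, fun t x hx => hB (t, x) ⟨mem_univ _, by simpa using hx⟩⟩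
  obtain ⟨R₅, hRR5, hR45⟩ : ∃ R₅ : ℝ, R ≤ R₅ ∧ R₄ ≤ R₅ :=
    ⟨max R R₄, le_max_left _ _, le_max_right _ _⟩
  have hFd : ∀ t p u, fderiv ℝ (F t) p u = prK m (k + 1) (fderiv ℝ (Θ t) p u) := by
    intro t p u
    have h1 : F t = fun p => prK m (k + 1) (Θ t p) := funext fun p => by
      rw [← hTr.lies, hTr.right_inv]
    have h2 : HasFDerivAt (F t) ((prK m (k + 1)).comp (fderiv ℝ (Θ t) p)) p := by
      rw [h1]
      exact (prK m (k + 1)).hasFDerivAt.comp p (hTr.cfT.differentiable t p).hasFDerivAt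
    rw [h2.fderiv]
    rfl
  have hvec : ∀ t p u, fderiv ℝ (F t) p u = 0 →
      incW m (k + 1) (prW m (k + 1) (fderiv ℝ (Θ t) p u)) = fderiv ℝ (Θ t) p u := by
    intro t p u hu
    rw [hFd] at hu
    have h1 := mkB_eta (m := m) (k := k + 1) (fderiv ℝ (Θ t) p u)
    rw [hu, mkB, map_zero, zero_add] at h1
    exact h1
  have hr : RFam m (k + 1) R₅ F F' (fun t p => Ξ₂ t (Θ t p)) (fun t p => Ξ t (Θ₂ t p)) := by
    refine ⟨hX2.comp hTr.cfT, hTr.cfX.comp hT2, fun t p => ?_, fun t p => ?_, fun t p hp => ?_,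
      fun t p => ?_, fun t p u v hu hv => ?_⟩
    · change Ξ t (Θ₂ t (Ξ₂ t (Θ t p))) = p
      rw [hTX, hTr.right_inv]
    · change Ξ₂ t (Θ t (Ξ t (Θ₂ t p))) = p
      rw [hTr.left_inv, hXT]
    · change Ξ₂ t (Θ t p) = p
      by_cases h1 : R₃ < ‖Θ t p‖
      · rw [hagree t _ h1, hTr.right_inv]
      · have h2 := hR₄ t (Θ t p) (not_lt.1 h1)
        rw [hTr.right_inv] at h2
        exact absurd (h2.trans hR45) (not_le.2 hp)
    · change F' t (Ξ₂ t (Θ t p)) = F t p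
      rw [hlies, ← hTr.lies, hTr.right_inv]
    · have h1 : ∀ u, fderiv ℝ (fun p => Ξ₂ t (Θ t p)) p u =
          fderiv ℝ (Ξ₂ t) (Θ t p) (fderiv ℝ (Θ t) p u) := by
        intro u
        have h2 : HasFDerivAt (fun p => Ξ₂ t (Θ t p))
            ((fderiv ℝ (Ξ₂ t) (Θ t p)).comp (fderiv ℝ (Θ t) p)) p :=
          (hX2.differentiable t _).hasFDerivAt.comp p (hTr.cfT.differentiable t p).hasFDerivAt
        rw [h2.fderiv]
        rfl
      have h2 : ∀ u, fderiv ℝ (Ξ t) (Θ t p) (fderiv ℝ (Θ t) p u) = u := fun u =>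
        RET.fderiv_inv (hTr.cfX.differentiable t) (hTr.cfT.differentiable t) (hTr.right_inv t) p u
      change omegaStd (fderiv ℝ (fun p => Ξ₂ t (Θ t p)) p u)
        (fderiv ℝ (fun p => Ξ₂ t (Θ t p)) p v) = omegaStd u v
      rw [h1, h1, ← hvec t p u hu, ← hvec t p v hv, hsymp, ← hTr.symp t (Θ t p),
        hvec t p u hu, hvec t p v hv, h2, h2]
  obtain ⟨R'', H, f, hR'', hH, h0, h1, htr⟩ := h3 m (k + 1) T R₅ F F' _ _ (hR.trans hRR5)
    ⟨hF.cf, fun t p hp => hF.std t p (hRR5.trans_lt hp), hF.pos⟩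
    ⟨hF'.cf, fun t p hp => hF'.std t p (hRR5.trans_lt hp), hF'.pos⟩ hr
  refine ⟨R'', f, H, (hR.trans hRR5).trans hR'', hH, h0, h1, fun t ht => ?_⟩
  have g1 : ∀ p, F t p = prK m (k + 1) p := fun p => (hT0 t ht p).1
  have g2 : ∀ p, Ξ₂ t p = p := fun p => (hT0 t ht p).2
  have g3 : ∀ p, Θ t p = p := fun p => by
    have g4 := hTr.left_inv t p
    rwa [(hTr.triv t g1 p).1] at g4
  have g5 : ∀ p, F' t p = prK m (k + 1) p := fun p => by
    have g6 := hlies t p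
    rwa [g2] at g6
  obtain ⟨g7, g8⟩ := htr t g5 (fun p => by rw [g2, g3])
  refine ⟨?_, g7⟩
  apply Subtype.ext
  ext p
  rw [g8 p]
  rfl

end Pool.Agent.KRW
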