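import Mathlib
import Pool.Agent.KRW.Split
import Pool.Agent.KRW.St
import Pool.Agent.H42.Hull.Slices

/-!
# REF: the fibres of the map to the rows
-/

set_option maxSynthPendingDepth 3

open scoped ContDiff Topology unitInterval
open Set Function TopologicalSpace Filter

namespace Pool.Agent.KRW

open Pool.Agent.Helper17 Pool.Agent.Helper42 Pool.Agent.H42.Hull

variable {m k : ℕ}

lemma REF_comp {T : Type} [TopologicalSpace T] {R ρ : ℝ} {F : T → Phase (m + k) → Phase k}
    (hF : JFam m k R F) {ψ : T → SympCt (m + k)}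
    (hcf : CF (fun t x => (ψ t : Equiv.Perm (Phase (m + k))) x))
    (hρ : ∀ t x, ρ < ‖x‖ → (ψ t : Equiv.Perm (Phase (m + k))) x = x) :
    JFam m k (max R ρ) (fun t p => F t ((ψ t : Equiv.Perm (Phase (m + k))) p)) where
  cf := hF.cf.comp hcf
  std t p hp := by
    beta_reduce
    rw [hρ t p ((le_max_right _ _).trans_lt hp), hF.std t p ((le_max_left _ _).trans_lt hp)]
  pos t := (hF.pos t).comp (hF.cf.differentiable t) (SympCt.differentiable (ψ t)) (ψ t).2.2.2.1

lemma REF_inj {N : ℕ} (φ : SympCt N) (x : Phase N) :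
    Injective (fderiv ℝ (φ : Equiv.Perm (Phase N)) x) := by
  intro u v h
  have h1 := SympCt.fderiv_inv_fderiv φ x u
  rw [h, SympCt.fderiv_inv_fderiv φ x v] at h1
  exact h1.symm

/-- the inverse family -/
lemma REF_inv {N : ℕ} {T : Type} [TopologicalSpace T] [CompactSpace T] {ψ : T → SympCt N}
    (hψ : Continuous ψ) : ∃ ρ : ℝ,
      CF (fun t x => (ψ t : Equiv.Perm (Phase N)) x) ∧
      CF (fun t x => (((ψ t)⁻¹ : SympCt N) : Equiv.Perm (Phase N)) x) ∧
      (∀ t x, ρ < ‖x‖ → (ψ t : Equiv.Perm (Phase N)) x = x) ∧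
      ∀ t x, ρ < ‖x‖ → (((ψ t)⁻¹ : SympCt N) : Equiv.Perm (Phase N)) x = x := by
  obtain ⟨hcf, K, hK⟩ := CF_of_continuous hψ
  obtain ⟨ρ, hρ⟩ := K.isCompact.isBounded.subset_closedBall (0 : Phase N)
  have hout : ∀ x : Phase N, |ρ| < ‖x‖ → x ∉ K := by
    intro x hx hmem
    have := hρ hmem
    rw [mem_closedBall_zero_iff] at this
    linarith [le_abs_self ρ]
  have h1 : ∀ t x, |ρ| < ‖x‖ → (ψ t : Equiv.Perm (Phase N)) x = x := fun t x hx =>
    hK t x (hout x hx)
  refine ⟨|ρ|, hcf, ?_, h1, ?_⟩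
  · exact CF_inverse hcf K.isCompact (fun t x hx => hK t x hx) (fun t x => REF_inj (ψ t) x)
      (fun t x => SympCt.apply_inv_self (ψ t) x) (fun t x => SympCt.inv_apply_self (ψ t) x)
  · intro t x hx
    have h2 := SympCt.inv_apply_self (ψ t) x
    rw [h1 t x hx] at h2
    exact h2

/-- `St_ref` from `St_topR`. -/
theorem thm_ref (hT : St_topR) : St_ref := by
  intro j m k φ ψ χ F G H hφ hF hG hH
  obtain ⟨-, hbd, -, hcls, htriv⟩ := hT j m k
  obtain ⟨ρ, hcf, hcf', hρ, hρ'⟩ := REF_inv (ψ := fun t => ψ.1 t) ψ.1.continuous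
  have hψ1 : ∀ t ∈ Cube.boundary (Fin j), ψ.1 t = 1 := fun t ht => ψ.2 t ht
  have hF' : ∀ t p, F.at t p = H.at t (ψ.at t p) := by
    intro t p
    rw [hF, hH, hφ]
  have hG' : ∀ t p, G.at t p = prK m k (ψ.at t p) := by
    intro t p
    rw [hG, prK_eq_fstPt]
  have hi : ∀ t p, ψ.at t ((((ψ.1 t)⁻¹ : SympCt (m + k)) : Equiv.Perm (Phase (m + k))) p) = p :=
    fun t p => SympCt.apply_inv_self (ψ.1 t) p
  constructor
  · intro h
    obtain ⟨R, L, hR, hL, h0, h1, hs⟩ := (hcls F G).1 h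
    refine (htriv H).2 ⟨max R ρ, fun q p => L (q.1, σ q.2)
      ((((ψ.1 q.1)⁻¹ : SympCt (m + k)) : Equiv.Perm (Phase (m + k))) p),
      hR.trans (le_max_left _ _), ?_, ?_, ?_, ?_⟩
    · have hL' : JFam m k R (fun q : (Fin j → I) × I => L (q.1, σ q.2)) :=
        { cf := hL.cf.base (h := fun q : (Fin j → I) × I => (q.1, σ q.2)) (by fun_prop)
          std := fun q p hp => hL.std _ p hp
          pos := fun q => hL.pos _ }
      exact REF_comp hL' (ψ := fun q : (Fin j → I) × I => (ψ.1 q.1)⁻¹)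
        (hcf'.base (h := fun q : (Fin j → I) × I => q.1) (by fun_prop))
        (fun q x hx => hρ' q.1 x hx)
    · intro t p
      show L (t, σ 0) _ = _
      rw [unitInterval.symm_zero, h1, hG', hi]
    · intro t p
      show L (t, σ 1) _ = _
      rw [unitInterval.symm_one, h0, hF', hi]
    · intro t ht s p
      show L (t, σ s) _ = _
      rw [hs t ht, hψ1 t ht, inv_one]
      rfl
  · intro h
    obtain ⟨R, L, hR, hL, h0, h1, hs⟩ := (htriv H).1 h
    refine (hcls F G).2 ⟨max R ρ, fun q p => L (q.1, σ q.2) (ψ.at q.1 p),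
      hR.trans (le_max_left _ _), ?_, ?_, ?_, ?_⟩
    · have hL' : JFam m k R (fun q : (Fin j → I) × I => L (q.1, σ q.2)) :=
        { cf := hL.cf.base (h := fun q : (Fin j → I) × I => (q.1, σ q.2)) (by fun_prop)
          std := fun q p hp => hL.std _ p hp
          pos := fun q => hL.pos _ }
      exact REF_comp hL' (ψ := fun q : (Fin j → I) × I => ψ.1 q.1)
        (hcf.base (h := fun q : (Fin j → I) × I => q.1) (by fun_prop))
        (fun q x hx => hρ q.1 x hx)
    · intro t p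
      show L (t, σ 0) _ = _
      rw [unitInterval.symm_zero, h1, hF']
    · intro t p
      show L (t, σ 1) _ = _
      rw [unitInterval.symm_one, h0, hG']
    · intro t ht s p
      show L (t, σ s) _ = _
      rw [hs t ht]
      show prK m k (((ψ.1 t : SympCt (m + k)) : Equiv.Perm (Phase (m + k))) p) = _
      rw [hψ1 t ht]
      rfl

end Pool.Agent.KRW
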