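import Mathlib
import Pool.Agent.KRW.St
import Pool.Agent.KRW.Split

/-!
# KRW, module REP: smooth representatives of families over cubes

`thm_rep : St_sm0 → St_box → St_vCont → St_rep` (helper75).
-/

set_option maxSynthPendingDepth 3

open scoped ContDiff Topology unitInterval
open Set Function TopologicalSpace Filter

namespace Pool.Agent.KRW

open Pool.Agent.Helper17 Pool.Agent.Helper42 Pool.Agent.H42.Hull

private lemma REP_coord {k : ℕ} (b : Phase k) (i : Fin k ⊕ Fin k) : |b i| ≤ ‖b‖ := by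
  have h := PiLp.norm_apply_le b i
  rwa [Real.norm_eq_abs] at h

private lemma REP_mono {X Y : Type} [TopologicalSpace X] [TopologicalSpace Y] {f g : C(X, Y)}
    {S S' : Set X} (h : f.HomotopicRel g S) (hS : S' ⊆ S) : f.HomotopicRel g S' := by
  obtain ⟨H⟩ := h
  exact ⟨{ toHomotopy := H.toHomotopy, prop' := fun t x hx => H.prop' t x (hS hx) }⟩

/-- **Smooth representatives of families over cubes** -/
theorem thm_rep (h1 : St_sm0) (h2 : St_box) (h3 : St_vCont) : St_rep := by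
  intro m k T _ _ T0 g₀ hg₀
  obtain ⟨hc, hinv, -, hout, -, hnorm, hbd, -, hcont⟩ := h2 k 1 one_pos
  obtain ⟨hCF, K, hK⟩ := CF_of_continuous g₀.continuous
  obtain ⟨ρ, hρ0, hρ⟩ : ∃ ρ : ℝ, 0 ≤ ρ ∧ ∀ w, ρ < ‖w‖ → w ∉ K := by
    obtain ⟨ρ, hρ⟩ := K.isCompact.isBounded.exists_norm_le
    refine ⟨max ρ 0, le_max_right _ _, fun w hw h => ?_⟩
    exact absurd (hρ w h) (not_le.2 ((le_max_left _ _).trans_lt hw))
  -- the family over the base
  obtain ⟨κ, hκ⟩ : ∃ κ : T × Phase (k + 1) → (T × Bx k) × (I × I),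
      κ = fun q => ((q.1, (clB 1 q.2).1), (clB 1 q.2).2) := ⟨_, rfl⟩
  have hκc : Continuous κ := by
    rw [hκ]
    exact (continuous_fst.prodMk (hc.comp continuous_snd).fst).prodMk (hc.comp continuous_snd).snd
  obtain ⟨u, hu⟩ : ∃ u : T × Phase (k + 1) → Phase m → Phase m,
      u = fun q w => (g₀ (κ q) : Equiv.Perm (Phase m)) w := ⟨_, rfl⟩
  have huCF : CF u := by
    rw [hu]
    exact CF.base (h := κ) hκc hCF
  obtain ⟨A, hA⟩ : ∃ A : ℝ, A = Real.sqrt (2 * k + 2) * 1 := ⟨_, rfl⟩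
  have hA0 : 0 ≤ A := by
    rw [hA]
    positivity
  -- the family is the identity if one coordinate is large
  have hone : ∀ (w : Phase m), ((1 : SympCt m) : Equiv.Perm (Phase m)) w = w := fun _ => rfl
  have hbig : ∀ (t : T) (b : Phase (k + 1)), (∃ i, 1 ≤ |b i|) → g₀ (κ (t, b)) = 1 := by
    intro t b hb
    refine hg₀ _ ?_
    rw [hκ]
    rcases hout b hb with h | h
    · exact Or.inl (Or.inr h)
    · exact Or.inr h
  have hT0 : ∀ t ∈ T0, ∀ b : Phase (k + 1), g₀ (κ (t, b)) = 1 := by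
    intro t ht b
    refine hg₀ _ ?_
    rw [hκ]
    exact Or.inl (Or.inl ht)
  obtain ⟨W', hW1, hW2, hW3, hW4, hW5⟩ := h1 m (Phase (k + 1)) T u A ρ hA0 hρ0 huCF
    (fun q w hw => by
      rw [hu]
      exact hK _ w (hρ w hw))
    (fun q w a b => by
      rw [hu]
      exact (g₀ (κ q)).2.2.2.1 w a b)
    (fun t d w hd => by
      rw [hu]
      show (g₀ (κ (t, d)) : Equiv.Perm (Phase m)) w = w
      have h4 : ∃ i, 1 ≤ |d i| := (hnorm d).resolve_left (by rw [← hA]; exact not_le.2 hd)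
      rw [hbig t d h4, hone])
  refine ⟨A + 2 + ρ, by linarith, fun R hR => ?_⟩
  have hR1 : A + 2 ≤ R := by linarith
  have hRρ : ρ ≤ R := by linarith
  have hR0 : 1 ≤ R := by linarith
  -- the family of maps of the fibre
  obtain ⟨W, hW⟩ : ∃ W : T → Phase (m + (k + 1)) → Phase m,
      W = fun t p => W' t (prK m (k + 1) p, prW m (k + 1) p) := ⟨_, rfl⟩
  have hWmk : ∀ t b w, W t (mkB m (k + 1) b w) = W' t (b, w) := by
    intro t b w
    rw [hW]
    show W' t (prK m (k + 1) (mkB m (k + 1) b w), prW m (k + 1) (mkB m (k + 1) b w)) = _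
    rw [prK_mkB, prW_mkB]
  have hV : VFam m (k + 1) R W := by
    refine ⟨?_, ?_, ?_⟩
    · rw [hW]
      exact hW1.comp (CF.const ((prK m (k + 1)).contDiff.prodMk (prW m (k + 1)).contDiff))
    · intro t p hp
      rw [hW]
      exact hW2 t _ _ (Or.inl (hRρ.trans_lt hp))
    · intro t p v w
      have hd : ∀ v, fderiv ℝ (W t) p (incW m (k + 1) v) =
          fderiv ℝ (fun w' => W' t (prK m (k + 1) p, w')) (prW m (k + 1) p) v := by
        intro v
        have h5 : HasFDerivAt (W' t) (fderiv ℝ (W' t) (prK m (k + 1) p, prW m (k + 1) p))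
            (prK m (k + 1) p, prW m (k + 1) p) := (hW1.differentiable t _).hasFDerivAt
        have h6 : HasFDerivAt (W t) ((fderiv ℝ (W' t) (prK m (k + 1) p, prW m (k + 1) p)).comp
            ((prK m (k + 1)).prod (prW m (k + 1)))) p := by
          rw [hW]
          exact h5.comp p ((prK m (k + 1)).hasFDerivAt.prodMk (prW m (k + 1)).hasFDerivAt)
        have h7 : HasFDerivAt (fun w' => W' t (prK m (k + 1) p, w'))
            ((fderiv ℝ (W' t) (prK m (k + 1) p, prW m (k + 1) p)).comp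
              (ContinuousLinearMap.inr ℝ (Phase (k + 1)) (Phase m))) (prW m (k + 1) p) :=
          h5.comp (prW m (k + 1) p) (hasFDerivAt_prodMk_right _ _)
        rw [h6.fderiv, h7.fderiv]
        show fderiv ℝ (W' t) _ (prK m (k + 1) (incW m (k + 1) v),
          prW m (k + 1) (incW m (k + 1) v)) = fderiv ℝ (W' t) _ (0, v)
        rw [prK_incW, prW_incW]
      rw [hd, hd]
      exact hW3 t _ _ v w
  have hbx : Continuous (fun q : (T × Bx k) × (I × I) => (bxPt R q.1.2 q.2 : Phase (k + 1))) :=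
    hcont.comp (continuous_const.prodMk ((continuous_snd.comp continuous_fst).prodMk
      continuous_snd))
  have hq1 : Continuous (fun q : (T × Bx k) × (I × I) => q.1.1) :=
    continuous_fst.comp continuous_fst
  obtain ⟨g, hg⟩ := h3 m (k + 1) T R W hV ((T × Bx k) × (I × I)) (fun q => q.1.1)
    (fun q => bxPt R q.1.2 q.2) hq1 hbx
  refine ⟨W, g, hV, ⟨?_, ?_⟩, ?_, ?_⟩
  · rintro t p ⟨i, hi⟩
    rw [hW]
    exact hW2 t _ _ (Or.inr (hR1.trans (hi.trans (REP_coord _ i))))
  · intro t z s w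
    exact hg ((t, z), s) w
  · intro t ht p
    rw [hW]
    exact hW4 t (fun d w => by
      rw [hu]
      show (g₀ (κ (t, d)) : Equiv.Perm (Phase m)) w = w
      rw [hT0 t ht d, hone]) _ _
  -- the homotopy
  obtain ⟨f, hf⟩ : ∃ f : C((T × Bx k) × (I × I), SympCt m), ∀ q,
      f q = g₀ (κ (q.1.1, bxPt R q.1.2 q.2)) :=
    ⟨⟨fun q => g₀ (κ (q.1.1, bxPt R q.1.2 q.2)),
      g₀.continuous.comp (hκc.comp (hq1.prodMk hbx))⟩, fun _ => rfl⟩
  have hfg : f.HomotopicRel g (bdS k T0) := by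
    refine REP_mono (hW5 ((T × Bx k) × (I × I)) ⟨fun q => (q.1.1, bxPt R q.1.2 q.2),
      hq1.prodMk hbx⟩ f g (fun q w => ?_) (fun q w => ?_)) ?_
    · rw [hf, hu]
      rfl
    · rw [hg, hWmk]
      rfl
    · rintro q ((ht | hz) | hs)
      · left
        intro d w
        rw [hu]
        show (g₀ (κ (q.1.1, d)) : Equiv.Perm (Phase m)) w = w
        rw [hT0 q.1.1 ht d, hone]
      · right
        obtain ⟨-, -, -, -, -, -, hbdR, -, -⟩ := h2 k R (by linarith)
        obtain ⟨i, hi⟩ := hbdR q.1.2 q.2 (Or.inl hz) R le_rfl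
        exact hR1.trans (hi.trans (REP_coord _ i))
      · right
        obtain ⟨-, -, -, -, -, -, hbdR, -, -⟩ := h2 k R (by linarith)
        obtain ⟨i, hi⟩ := hbdR q.1.2 q.2 (Or.inr hs) R le_rfl
        exact hR1.trans (hi.trans (REP_coord _ i))
  refine ContinuousMap.HomotopicRel.trans (g := f) ?_ hfg
  -- change the radius
  obtain ⟨rr, hrr⟩ : ∃ rr : I → ℝ, rr = fun l : I => (1 - (l : ℝ)) * 1 + (l : ℝ) * R := ⟨_, rfl⟩
  have hrrc : Continuous rr := by
    rw [hrr]
    fun_prop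
  have hrr1 : ∀ l, 1 ≤ rr l := by
    intro l
    rw [hrr]
    have h4 := l.2.1
    have h5 := l.2.2
    show 1 ≤ (1 - (l : ℝ)) * 1 + l * R
    nlinarith
  refine ⟨{ toFun := fun q => g₀ (κ (q.2.1.1, bxPt (rr q.1) q.2.1.2 q.2.2))
            continuous_toFun := ?_
            map_zero_left := ?_
            map_one_left := ?_
            prop' := ?_ }⟩
  · refine g₀.continuous.comp (hκc.comp ?_)
    have h4 : Continuous (fun q : I × ((T × Bx k) × (I × I)) => (rr q.1, (q.2.1.2, q.2.2))) :=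
      (hrrc.comp continuous_fst).prodMk
        (((continuous_snd.comp continuous_fst).comp continuous_snd).prodMk
          (continuous_snd.comp continuous_snd))
    exact (hq1.comp continuous_snd).prodMk (hcont.comp h4)
  · intro q
    have h4 : rr 0 = 1 := by
      rw [hrr]
      simp
    show g₀ (κ (q.1.1, bxPt (rr 0) q.1.2 q.2)) = g₀ q
    rw [h4, hκ]
    show g₀ ((q.1.1, (clB 1 (bxPt 1 q.1.2 q.2 : Phase (k + 1))).1),
      (clB 1 (bxPt 1 q.1.2 q.2 : Phase (k + 1))).2) = g₀ q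
    rw [hinv]
  · intro q
    have h4 : rr 1 = R := by
      rw [hrr]
      simp
    show g₀ (κ (q.1.1, bxPt (rr 1) q.1.2 q.2)) = f q
    rw [h4, hf]
  · intro l q hq
    show g₀ (κ (q.1.1, bxPt (rr l) q.1.2 q.2)) = g₀ q
    rw [hg₀ q hq]
    rcases hq with (ht | hz) | hs
    · exact hT0 _ ht _
    · exact hbig _ _ (hbd q.1.2 q.2 (Or.inl hz) (rr l) (hrr1 l))
    · exact hbig _ _ (hbd q.1.2 q.2 (Or.inr hs) (rr l) (hrr1 l))

end Pool.Agent.KRW
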