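import Mathlib
import Pool.Agent.KRW.St
import Pool.Agent.KRW.Split

/-!
# KRW, module SCE: values and existence of scatterings (helper69)

Hypotheses: none for `thm_scVal`; `St_trivia`, `St_vInv`, `St_vCont`, `St_box` for `thm_scEx`.
-/

set_option maxSynthPendingDepth 3

open scoped ContDiff Topology unitInterval
open Set Function TopologicalSpace Filter

namespace Pool.Agent.KRW

open Pool.Agent.Helper17 Pool.Agent.Helper42 Pool.Agent.H42.Hull

namespace SCE

variable {m k : ℕ}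

/-- equality in `SympCt` -/
lemma ext_symp {n : ℕ} {f g : SympCt n}
    (h : ∀ w, (f : Equiv.Perm (Phase n)) w = (g : Equiv.Perm (Phase n)) w) : f = g :=
  Subtype.ext (Equiv.ext h)

lemma sideB_mkB (b : Phase (k + 1)) (w : Phase m) :
    sideB (mkB m (k + 1) b w) = b - (b (Sum.inr 0)) • eB k := by
  rw [sideB, prK_mkB, yB_mkB]

/-- The side coordinates of `bxPt` do not depend on the last parameter. -/
lemma side_bxPt (ρ : ℝ) (z : Bx k) (a b b' : I) :
    (bxPt ρ z (a, b) : Phase (k + 1)) -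
        ((bxPt ρ z (a, b) : Phase (k + 1)) (Sum.inr 0)) • eB k =
      (bxPt ρ z (a, b') : Phase (k + 1)) -
        ((bxPt ρ z (a, b') : Phase (k + 1)) (Sum.inr 0)) • eB k := by
  ext i
  change (bxPt ρ z (a, b) : Phase (k + 1)) i -
      (bxPt ρ z (a, b) : Phase (k + 1)) (Sum.inr 0) * (eB k) i =
    (bxPt ρ z (a, b') : Phase (k + 1)) i -
      (bxPt ρ z (a, b') : Phase (k + 1)) (Sum.inr 0) * (eB k) i
  by_cases h : i = Sum.inr 0
  · subst h
    rw [eB_inr, mul_one, mul_one, sub_self, sub_self]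
  · rw [eB_apply_ne h, mul_zero, mul_zero, sub_zero, sub_zero]
    rcases i with i | i
    · rfl
    · refine Fin.cases (fun h => absurd rfl h) (fun j _ => ?_) i h
      rfl

/-- Two points with the same side coordinates and the same last coordinates differ by a multiple
of the direction of `y_0`. -/
lemma eq_add_smul {p q : Phase (m + (k + 1))} (h1 : sideB p = sideB q)
    (h2 : prW m (k + 1) p = prW m (k + 1) q) :
    p = q + (yB p - yB q) • incK m (k + 1) (eB k) := by
  apply ext_split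
  · rw [prK_add_smul, prK_eq_side p, prK_eq_side q, h1, sub_smul]
    abel
  · rw [prW_add_smul, h2]

lemma exit_eq {T : Type} [TopologicalSpace T] {R' : ℝ}
    {F : T → Phase (m + (k + 1)) → Phase (k + 1)}
    {Ξ Θ : T → Phase (m + (k + 1)) → Phase (m + (k + 1))}
    {E : T → Phase (m + (k + 1)) → Phase m} (h : Trivia m k R' F Ξ Θ E) (t : T)
    {p q : Phase (m + (k + 1))} (h1 : sideB p = sideB q)
    (h2 : prW m (k + 1) p = prW m (k + 1) q) : E t p = E t q := by
  rw [eq_add_smul h1 h2, h.exit]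

end SCE

open SCE

theorem thm_scVal : St_scVal := by
  intro m k T _ R' ρ F Ξ Θ E e hρ hT he t z a b w
  set p : Phase (m + (k + 1)) := mkB m (k + 1) (bxPt ρ z (a, b)) w with hp
  set M : ℝ := max ρ R' with hM
  have hMρ : ρ ≤ M := le_max_left _ _
  have hMR : R' ≤ M := le_max_right _ _
  set p₀ : Phase (m + (k + 1)) := p + (-M - yB p) • incK m (k + 1) (eB k) with hp₀
  have hy₀ : yB p₀ = -M := by rw [hp₀, yB_add_smul]; ring
  have hs₀ : sideB p₀ = sideB p := by rw [hp₀, sideB_add_smul]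
  have hw₀ : prW m (k + 1) p₀ = w := by rw [hp₀, prW_add_smul, hp, prW_mkB]
  set q : Phase (m + (k + 1)) := p₀ + (2 * M) • incK m (k + 1) (eB k) with hq
  have hyq : yB q = M := by rw [hq, yB_add_smul, hy₀]; ring
  have hEq : E t q = E t p := by
    rw [hq, hT.exit, hp₀, hT.exit]
  have hc0 : Ξ t (p₀ + (0 : ℝ) • incK m (k + 1) (eB k)) = p₀ := by
    rw [zero_smul, add_zero]
    exact hT.left t p₀ (by rw [hy₀]; linarith)
  have hcq : Ξ t q = mkB m (k + 1) (prK m (k + 1) q) (E t q) :=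
    hT.right t q (by rw [hyq]; exact hMR)
  have h1 := he.2 t (fun s : ℝ => Ξ t (p₀ + s • incK m (k + 1) (eB k))) (hT.hor t p₀) 0 (2 * M)
    z a b
  simp only [hc0] at h1
  rw [← hq, hcq] at h1
  have h2 := h1 (by rw [hy₀]; linarith) (by
    rw [yB_mkB]
    change ρ ≤ yB q
    rw [hyq]
    exact hMρ) (by
    rw [hs₀, hp, sideB_mkB])
  rw [hw₀, prW_mkB, hEq] at h2
  exact h2.symm

theorem thm_scEx (h1 : St_trivia) (h2 : St_vInv) (h3 : St_vCont) (h4 : St_box) : St_scEx := by
  intro m k T _ _ R F hR hF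
  obtain ⟨R', Ξ, Θ, E, hRR', hT⟩ := h1 m k T R F hR hF
  obtain ⟨V, hV, hVE, -⟩ := h2 m (k + 1) T R' E hT.fam
  refine ⟨R', hT.pos, fun ρ hρ => ?_⟩
  have hρ0 : 0 < ρ := lt_of_lt_of_le hT.pos hρ
  obtain ⟨-, -, -, -, -, -, -, hbd, hcont⟩ := h4 k ρ hρ0
  have hb : Continuous fun q : (T × Bx k) × I => (bxPt ρ q.1.2 (q.2, 0) : Phase (k + 1)) :=
    hcont.comp (g := fun q : ℝ × (Bx k × (I × I)) => (bxPt q.1 q.2.1 q.2.2 : Phase (k + 1)))
      (f := fun q : (T × Bx k) × I => (ρ, (q.1.2, (q.2, (0 : I))))) (by fun_prop)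
  obtain ⟨e, he⟩ := h3 m (k + 1) T R' V hV ((T × Bx k) × I) (fun q => q.1.1)
    (fun q => bxPt ρ q.1.2 (q.2, 0)) (by fun_prop) hb
  -- the inverse property
  have hinv : ∀ t (b : Phase (k + 1)) (w : Phase m),
      V t (mkB m (k + 1) b (E t (mkB m (k + 1) b w))) = w := by
    intro t b w
    have h5 := hVE t (mkB m (k + 1) b w)
    rw [mapW, prK_mkB, prW_mkB] at h5
    exact h5
  have hone : ∀ t z a, (∀ w, E t (mkB m (k + 1) (bxPt ρ z (a, 0)) w) = w) →
      e ((t, z), a) = 1 := by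
    intro t z a h
    refine ext_symp fun w => ?_
    rw [he]
    change V t (mkB m (k + 1) (bxPt ρ z (a, 0)) w) = w
    have h5 := hinv t (bxPt ρ z (a, 0)) w
    rw [h w] at h5
    exact h5
  refine ⟨e, ⟨fun t p hp => hF.std t p (by linarith), ?_⟩, ?_, ?_⟩
  · intro t c hc s s' z a b hs hs' hside
    rw [he]
    change prW m (k + 1) (c s) = V t (mkB m (k + 1) (bxPt ρ z (a, 0)) (prW m (k + 1) (c s')))
    rw [hT.orbit t c hc s s' (by linarith) (by linarith)]
    have h5 : E t (c s) = E t (mkB m (k + 1) (bxPt ρ z (a, 0)) (prW m (k + 1) (c s))) := by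
      refine exit_eq hT t ?_ ?_
      · rw [hside, sideB_mkB]
        exact side_bxPt ρ z a b 0
      · rw [prW_mkB]
    rw [h5, hinv]
  · intro t ht z a
    refine hone t z a fun w => ?_
    rw [(hT.triv t ht _).2, prW_mkB]
  · rintro ⟨⟨t, z⟩, a⟩ hq
    refine hone t z a fun w => ?_
    have hq' : z ∈ bdB k ∨ a = 0 ∨ a = 1 := by
      rcases hq with (h | h) | h
      · exact absurd h (notMem_empty _)
      · exact Or.inl h
      · exact Or.inr h
    rw [hT.exit_side t _ ?_, prW_mkB]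
    rw [sideB_mkB]
    exact hρ.trans (hbd z a 0 hq' ρ le_rfl _ rfl)

end Pool.Agent.KRW
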