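import Mathlib
import Pool.Agent.KRW.St
import Pool.Agent.KRW.Split

/-!
# Uniqueness of scatterings

Hypotheses used: `St_trivia`, `St_vInv`, `St_vCont`, `St_scVal`, `St_box`.
-/

set_option maxSynthPendingDepth 3

open scoped ContDiff Topology unitInterval
open Set Function TopologicalSpace Filter

namespace Pool.Agent.KRW

open Pool.Agent.Helper17 Pool.Agent.Helper42 Pool.Agent.H42.Hull

/-- A family of maps which is the projection at `p` has an inverse family with the same property. -/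
lemma scu_inv_eq {m k : ℕ} {E V : Phase (m + k) → Phase m} {p : Phase (m + k)}
    (hEV : E (mapW m k V p) = prW m k p)
    (hE : E (mapW m k V p) = prW m k (mapW m k V p)) : V p = prW m k p := by
  rw [← hEV, hE, prW_mapW]

lemma thm_scUn (h1 : St_trivia) (h2 : St_vInv) (h3 : St_vCont) (h4 : St_scVal) (h5 : St_box) :
    St_scUn := by
  intro m k T _ _ T0 R F hR hF hT0 ρ ρ' e e' hρ hρ' he he'
  obtain ⟨R', Ξ, Θ, E, hRR', hT⟩ := h1 m k T R F hR hF
  obtain ⟨V, hV, hVE, hEV⟩ := h2 m (k + 1) T R' E hT.fam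
  have hval : ∀ (r : ℝ) (f : C((T × Bx k) × I, SympCt m)), 0 < r → IsScatAt r F f →
      ∀ t z a w, (f ((t, z), a) : Equiv.Perm (Phase m)) w =
        V t (mkB m (k + 1) (bxPt r z (a, 0)) w) := by
    intro r f hr hf t z a w
    have h := h4 m k T R' r F Ξ Θ E f hr hT hf t z a 0
      (V t (mkB m (k + 1) (bxPt r z (a, 0)) w))
    have h' := hEV t (mkB m (k + 1) (bxPt r z (a, 0)) w)
    rw [mapW, prK_mkB, prW_mkB] at h'
    rw [h'] at h
    exact h
  -- the homotopy
  have hbx : Continuous (fun q : ℝ × (Bx k × (I × I)) =>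
      (bxPt q.1 q.2.1 q.2.2 : Phase (k + 1))) := (h5 k ρ hρ).2.2.2.2.2.2.2.2
  have hb : Continuous (fun q : I × ((T × Bx k) × I) =>
      (bxPt ((1 - (q.1 : ℝ)) * ρ + q.1 * ρ') q.2.1.2 (q.2.2, 0) : Phase (k + 1))) := by
    have hc : Continuous (fun q : I × ((T × Bx k) × I) =>
        (((1 - (q.1 : ℝ)) * ρ + q.1 * ρ', (q.2.1.2, (q.2.2, 0))) :
          ℝ × (Bx k × (I × I)))) := by fun_prop
    exact hbx.comp hc
  obtain ⟨h, hh⟩ := h3 m (k + 1) T R' V hV (I × ((T × Bx k) × I)) (fun q => q.2.1.1)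
    (fun q => bxPt ((1 - (q.1 : ℝ)) * ρ + q.1 * ρ') q.2.1.2 (q.2.2, 0)) (by fun_prop) hb
  -- the boundary
  have hbd : ∀ (s : I) (q : (T × Bx k) × I), q ∈ bdE k T0 → h (s, q) = 1 := by
    intro s q hq
    apply SympCt.ext'
    intro w
    change (h (s, q) : Equiv.Perm (Phase m)) w = w
    rw [hh]
    obtain ⟨⟨t, z⟩, a⟩ := q
    have hr : min ρ ρ' ≤ (1 - (s : ℝ)) * ρ + s * ρ' := by
      have hs0 := s.2.1
      have hs1 := s.2.2
      nlinarith [min_le_left ρ ρ', min_le_right ρ ρ']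
    change V t (mkB m (k + 1) (bxPt ((1 - (s : ℝ)) * ρ + s * ρ') z (a, 0)) w) = w
    have hcase : t ∈ T0 ∨ (z ∈ bdB k ∨ a = 0 ∨ a = 1) := by
      rcases hq with (h | h) | h
      · exact Or.inl h
      · exact Or.inr (Or.inl h)
      · exact Or.inr (Or.inr h)
    have hfin : V t (mkB m (k + 1) (bxPt ((1 - (s : ℝ)) * ρ + s * ρ') z (a, 0)) w) =
        prW m (k + 1) (mkB m (k + 1) (bxPt ((1 - (s : ℝ)) * ρ + s * ρ') z (a, 0)) w) := by
      refine scu_inv_eq (hEV t _) ?_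
      rcases hcase with ht | hz
      · exact (hT.triv t (hT0 t ht) _).2
      · refine hT.exit_side' t (min ρ ρ') (fun p hp => ?_) _ ?_
        · rcases min_lt_iff.1 hp with hp | hp
          · exact he.1 t p hp.le
          · exact he'.1 t p hp.le
        · have h6 := (h5 k (min ρ ρ') (lt_min hρ hρ')).2.2.2.2.2.2.2.1 z a 0 hz
            ((1 - (s : ℝ)) * ρ + s * ρ') hr
            (bxPt ((1 - (s : ℝ)) * ρ + s * ρ') z (a, 0)) rfl
          rw [sideB, yB, prK_mapW, prK_mkB]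
          exact h6
    rw [hfin, prW_mkB]
  have he0 : ∀ q, h (0, q) = e q := by
    intro q
    apply SympCt.ext'
    intro w
    obtain ⟨⟨t, z⟩, a⟩ := q
    rw [hval ρ e hρ he, hh]
    simp
  have he1 : ∀ q, h (1, q) = e' q := by
    intro q
    apply SympCt.ext'
    intro w
    obtain ⟨⟨t, z⟩, a⟩ := q
    rw [hval ρ' e' hρ' he', hh]
    simp
  have heq : ∀ q ∈ bdE k T0, e q = 1 := fun q hq => by rw [← he0, hbd 0 q hq]
  refine ⟨⟨⟨⟨⟨fun q => h q, h.continuous⟩, he0, he1⟩, fun s q hq => ?_⟩⟩, heq⟩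
  change h (s, q) = e q
  rw [hbd s q hq, heq q hq]

end Pool.Agent.KRW
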