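import Mathlib
import Pool.Agent.KRW.Split
import Pool.Agent.KRW.St

/-!
# KRW, SEG: segments of nearby rows are `J`-positive (helper39)
-/

set_option maxSynthPendingDepth 3

open scoped ContDiff Topology unitInterval
open Set Function TopologicalSpace Filter

namespace Pool.Agent.KRW

open Pool.Agent.Helper17 Pool.Agent.Helper42 Pool.Agent.H42.Hull

/-- the form of tameness -/
private noncomputable def segV {N k : ℕ} (A : Phase N →L[ℝ] Phase k) (u : Phase k) : ℝ :=
  inner ℝ (Jl k u) (A (hamL A u))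

private lemma segV_smul {N k : ℕ} (A : Phase N →L[ℝ] Phase k) (c : ℝ) (u : Phase k) :
    segV A (c • u) = c ^ 2 * segV A u := by
  unfold segV
  rw [map_smul, map_smul, map_smul, inner_smul_left, inner_smul_right]
  simp only [conj_trivial]
  ring

private lemma segV_continuous {N k : ℕ} {X : Type} [TopologicalSpace X]
    {A : X → Phase N →L[ℝ] Phase k} {u : X → Phase k} (hA : Continuous A) (hu : Continuous u) :
    Continuous fun x => segV (A x) (u x) := by
  have h1 : Continuous fun x => ContinuousLinearMap.adjoint (A x) :=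
    (ContinuousLinearMap.adjoint (𝕜 := ℝ) (E := Phase N) (F := Phase k)).continuous.comp hA
  have h2 : Continuous fun x => hamL (A x) (u x) :=
    (LinearMap.toContinuousLinearMap (Jl N)).continuous.comp (h1.clm_apply hu)
  have h3 : Continuous fun x => Jl k (u x) :=
    (LinearMap.toContinuousLinearMap (Jl k)).continuous.comp hu
  exact h3.inner (hA.clm_apply h2)

/-- Uses `St_jposTame` and `St_hlStd`. -/
theorem thm_seg (hT : St_jposTame) (hS : St_hlStd) : St_seg := by
  intro m k T _ _ R F hR hF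
  have hcf := hF.cf.fderiv.continuous
  obtain ⟨AA, hAA⟩ : ∃ AA : (T × I × I × I) → Phase (m + k) → (Phase (m + k) →L[ℝ] Phase k),
      ∀ q p, AA q p = (1 - (q.2.2.2 : ℝ)) • fderiv ℝ (F (q.1, q.2.1)) p +
        (q.2.2.2 : ℝ) • fderiv ℝ (F (q.1, q.2.2.1)) p := ⟨_, fun _ _ => rfl⟩
  have hAc : Continuous fun z : (T × I × I × I) × (Phase (m + k) × Phase k) =>
      AA z.1 z.2.1 := by
    have e1 : Continuous fun z : (T × I × I × I) × (Phase (m + k) × Phase k) =>
        fderiv ℝ (F (z.1.1, z.1.2.1)) z.2.1 :=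
      hcf.comp (f := fun z : (T × I × I × I) × (Phase (m + k) × Phase k) =>
        ((z.1.1, z.1.2.1), z.2.1)) (by fun_prop)
    have e2 : Continuous fun z : (T × I × I × I) × (Phase (m + k) × Phase k) =>
        fderiv ℝ (F (z.1.1, z.1.2.2.1)) z.2.1 :=
      hcf.comp (f := fun z : (T × I × I × I) × (Phase (m + k) × Phase k) =>
        ((z.1.1, z.1.2.2.1), z.2.1)) (by fun_prop)
    have e3 : Continuous fun z : (T × I × I × I) × (Phase (m + k) × Phase k) =>
        ((z.1.2.2.2 : I) : ℝ) := by fun_prop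
    simp only [hAA]
    exact ((continuous_const.sub e3).smul e1).add (e3.smul e2)
  have hgc : Continuous fun z : (T × I × I × I) × (Phase (m + k) × Phase k) =>
      segV (AA z.1 z.2.1) z.2.2 := segV_continuous hAc (by fun_prop)
  -- the bad set
  obtain ⟨C, hC⟩ : ∃ C : Set ((T × I × I × I) × (Phase (m + k) × Phase k)), C =
      (univ ×ˢ (Metric.closedBall 0 R ×ˢ Metric.sphere 0 1)) ∩
        {z | segV (AA z.1 z.2.1) z.2.2 ≤ 0} := ⟨_, rfl⟩
  have hCc : IsCompact C := by
    rw [hC]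
    exact (isCompact_univ.prod ((isCompact_closedBall 0 R).prod (isCompact_sphere 0 1))).inter_right
      (isClosed_le hgc continuous_const)
  have hdc : Continuous fun z : (T × I × I × I) × (Phase (m + k) × Phase k) =>
      |((z.1.2.1 : I) : ℝ) - ((z.1.2.2.1 : I) : ℝ)| := by fun_prop
  have htame : ∀ q p, TameL (fderiv ℝ (F q) p) := fun q p =>
    (hT _ _ (F q) (hF.cf.differentiable q)).1 (hF.pos q) p
  have hpos : ∀ z ∈ C, 0 < |((z.1.2.1 : I) : ℝ) - ((z.1.2.2.1 : I) : ℝ)| := by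
    rintro ⟨⟨t, s, s', l⟩, ⟨p, u⟩⟩ hz
    rw [abs_pos, sub_ne_zero]
    intro hss
    have hss' : s = s' := Subtype.ext hss
    subst hss'
    rw [hC] at hz
    obtain ⟨⟨-, -, hu⟩, hle⟩ := hz
    have h1 : AA (t, s, s, l) p = fderiv ℝ (F (t, s)) p := by
      rw [hAA]
      show (1 - (l : ℝ)) • fderiv ℝ (F (t, s)) p + (l : ℝ) • fderiv ℝ (F (t, s)) p = _
      rw [← add_smul]
      simp
    have hu0 : u ≠ 0 := by
      rintro rfl
      simp at hu
    have h2 : segV (AA (t, s, s, l) p) u ≤ 0 := hle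
    rw [h1] at h2
    exact absurd (htame (t, s) p u hu0) (not_lt.2 h2)
  obtain ⟨δ, hδ, hδC⟩ : ∃ δ : ℝ, 0 < δ ∧ ∀ z ∈ C,
      δ < |((z.1.2.1 : I) : ℝ) - ((z.1.2.2.1 : I) : ℝ)| := by
    rcases C.eq_empty_or_nonempty with h0 | h0
    · exact ⟨1, one_pos, fun z hz => by rw [h0] at hz; exact absurd hz (Set.notMem_empty z)⟩
    · obtain ⟨z₀, hz₀, hmin⟩ := hCc.exists_isMinOn h0 hdc.continuousOn
      have h1 := hpos z₀ hz₀
      refine ⟨|((z₀.1.2.1 : I) : ℝ) - ((z₀.1.2.2.1 : I) : ℝ)| / 2, half_pos h1, fun z hz => ?_⟩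
      have h2 := hmin hz
      exact (half_lt_self h1).trans_le h2
  refine ⟨δ, hδ, fun t s s' hss l => ?_⟩
  have hdiff : Differentiable ℝ (fun p => (1 - (l : ℝ)) • F (t, s) p + (l : ℝ) • F (t, s') p) :=
    ((hF.cf.differentiable (t, s)).const_smul (1 - (l : ℝ))).add
      ((hF.cf.differentiable (t, s')).const_smul (l : ℝ))
  rw [hT _ _ _ hdiff]
  intro p
  have hfd : fderiv ℝ (fun p => (1 - (l : ℝ)) • F (t, s) p + (l : ℝ) • F (t, s') p) p =
      AA (t, s, s', l) p := by
    rw [hAA]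
    exact (((hF.cf.differentiable (t, s) p).hasFDerivAt.const_smul (1 - (l : ℝ))).add
      ((hF.cf.differentiable (t, s') p).hasFDerivAt.const_smul (l : ℝ))).fderiv
  rw [hfd]
  rcases lt_or_ge R ‖p‖ with hp | hp
  · have h1 : ∀ q, fderiv ℝ (F q) p = prK m k := by
      intro q
      have h2 : F q =ᶠ[𝓝 p] fun p => prK m k p := by
        have h3 : ∀ᶠ x in 𝓝 p, R < ‖x‖ := (isOpen_lt continuous_const continuous_norm).mem_nhds hp
        filter_upwards [h3] with x hx
        exact hF.std q x hx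
      rw [h2.fderiv_eq]
      exact (prK m k).fderiv
    rw [hAA]
    show TameL ((1 - (l : ℝ)) • fderiv ℝ (F (t, s)) p + (l : ℝ) • fderiv ℝ (F (t, s')) p)
    rw [h1, h1, ← add_smul]
    simpa using (hS m k).1
  · intro u hu
    have hun : 0 < ‖u‖ := norm_pos_iff.2 hu
    by_contra hcon
    have h1 : segV (AA (t, s, s', l) p) u ≤ 0 := not_lt.1 hcon
    have h2 : segV (AA (t, s, s', l) p) (‖u‖⁻¹ • u) ≤ 0 := by
      rw [segV_smul]
      exact mul_nonpos_of_nonneg_of_nonpos (by positivity) h1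
    have h3 : (((t, s, s', l), (p, ‖u‖⁻¹ • u)) :
        (T × I × I × I) × (Phase (m + k) × Phase k)) ∈ C := by
      rw [hC]
      refine ⟨⟨mem_univ _, ?_, ?_⟩, h2⟩
      · show p ∈ Metric.closedBall 0 R
        rw [mem_closedBall_zero_iff]
        exact hp
      · show ‖u‖⁻¹ • u ∈ Metric.sphere 0 1
        rw [mem_sphere_zero_iff_norm, norm_smul, norm_inv, norm_norm]
        exact inv_mul_cancel₀ hun.ne'
    have h4 := hδC _ h3
    exact absurd hss (not_le.2 h4)

end Pool.Agent.KRW
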