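import Mathlib
import Pool.Agent.KRW.St
import Pool.Agent.H50.Susp.Moll
import Pool.Agent.H50.Susp.Exact1
import Pool.Agent.Helper42.Susp.RealiseMain
import Pool.Agent.Helper42.Susp.Mixed

/-!
KRW, module SM0 (helper91): absolute smoothing in the base variables, with the homotopy.
-/

set_option maxSynthPendingDepth 3

open scoped ContDiff Topology unitInterval
open Set Function TopologicalSpace Filter

namespace Pool.Agent.KRW

open Pool.Agent.Helper17 Pool.Agent.Helper42 Pool.Agent.H42.Hull
open Pool.Agent.H50.Susp (hf1 hf2 hf_cases hf1_zero hf1_one hf2_zero hf2_one continuous_hf1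
  continuous_hf2 CF.glue moser_iso exists_moll)

/-- Absolute smoothing (hypothesis used: `St_fmo`). -/
theorem thm_sm0 (hfmo : St_fmo) : St_sm0 := by
  intro n D _ _ _ T _ _ u A ρ hA hρ hu huw hus hud
  have : ProperSpace D := FiniteDimensional.proper_real D
  -- the displacement
  set v : T × D → Phase n → Phase n := fun q w => u q w - w with hv
  have hvCF : CF v := hu.sub (CF.const contDiff_id)
  have hvb : ∀ t b w, A < ‖b‖ → v (t, b) w = 0 := by
    intro t b w hb
    simp only [hv]
    rw [hud t b w hb, sub_self]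
  have hvw : ∀ t b w, ρ < ‖w‖ → v (t, b) w = 0 := by
    intro t b w hw
    simp only [hv]
    rw [huw _ w hw, sub_self]
  have hvd : ∀ q w, fderiv ℝ (v q) w = fderiv ℝ (u q) w - ContinuousLinearMap.id ℝ _ := by
    intro q w
    exact ((hu.differentiable q w).hasFDerivAt.sub (hasFDerivAt_id w)).fderiv
  have hvs : ∀ q w α β, omegaStd (α + fderiv ℝ (v q) w α) (β + fderiv ℝ (v q) w β) =
      omegaStd α β := by
    intro q w α β
    rw [hvd]
    simp only [sub_apply, ContinuousLinearMap.id_apply, add_sub_cancel]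
    exact hus q w α β
  -- the bound
  obtain ⟨M, hM0, hM⟩ : ∃ M : ℝ, 0 ≤ M ∧ ∀ q w, ‖fderiv ℝ (v q) w‖ ≤ M := by
    have : CompactSpace (Metric.closedBall (0 : D) A) :=
      isCompact_iff_compactSpace.1 (isCompact_closedBall _ _)
    obtain ⟨M, hM0, hM⟩ := Pool.Agent.Helper42.exists_bound_fderiv
      (F := fun (q : T × Metric.closedBall (0 : D) A) w => v (q.1, (q.2 : D)) w)
      (hvCF.base (h := fun q : T × Metric.closedBall (0 : D) A => (q.1, (q.2 : D)))
        (continuous_fst.prodMk (continuous_subtype_val.comp continuous_snd)))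
      (isCompact_closedBall (0 : Phase n) ρ)
      (fun q w hw => hvw _ _ w (by simpa using hw))
    refine ⟨M, hM0, ?_⟩
    rintro ⟨t, d⟩ w
    by_cases hd : ‖d‖ ≤ A
    · exact hM (t, ⟨d, by simpa using hd⟩) w
    · have h1 : v (t, d) = fun _ => 0 := by
        funext z
        exact hvb t d z (not_le.1 hd)
      rw [h1, fderiv_const_apply, norm_zero]
      exact hM0
  set ε : ℝ := 1 / (8 * (1 + M)) with hε
  have hεpos : 0 < ε := by positivity
  obtain ⟨m, hm, hmb, hmw, hmd, hmloc⟩ := exists_moll hvCF hvb hvw hεpos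
  have hmdiff : ∀ t d, Differentiable ℝ (fun w => m t (d, w)) := fun t d =>
    (hm.differentiable t).comp (by fun_prop)
  obtain ⟨V, hV, hV0, hVw, hVadm, hVs, -, hVtriv⟩ := hfmo n D T m (fun _ => 1) (A + 1) ρ hm
    contDiff_const (fun _ => ⟨zero_le_one, le_refl _⟩) (fun t d w hw => hmw t d w hw)
    (fun d hd => Or.inr fun t w => hmb t d w hd)
    (fun t d w => admissible_of_norm_sub hM0 hε (hvs (t, d) w) (hM _ _) (hmd t d w))
    (fun t d hd => absurd rfl hd)
  have hW : CF (fun t => V (t, 1)) := hV.base (h := fun t : T => (t, (1 : I)))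
    (continuous_id.prodMk continuous_const)
  have hmfar : ∀ t d w, A + 2 ≤ ‖d‖ → m t (d, w) = 0 := fun t d w hd => hmb t d w (by linarith)
  have hmid : ∀ t, (∀ d w, u (t, d) w = w) → ∀ d w, m t (d, w) = 0 := by
    intro t ht d w
    refine hmloc t d w fun b' _ => ?_
    simp only [hv]
    rw [ht, sub_self]
  refine ⟨fun t => V (t, 1), hW, ?_, fun t d w a b => hVs t d w a b, ?_, ?_⟩
  · rintro t d w (hw | hd)
    · exact hVw _ _ _ hw
    · exact hVtriv t 1 d (fun w => hmfar t d w hd) w
  · intro t ht d w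
    exact hVtriv t 1 d (fun w => hmid t ht d w) w
  intro S _ _ c f g hf hg
  have hc1 : Continuous fun s : S => (c s).1 := continuous_fst.comp c.continuous
  have hc2 : Continuous fun s : S => (c s).2 := continuous_snd.comp c.continuous
  -- the linear part
  set L : S × I → Phase n → Phase n := fun q w =>
    (1 - (q.2 : ℝ)) • u (c q.1) w + (q.2 : ℝ) • (w + m (c q.1).1 ((c q.1).2, w)) with hL
  have hpair : CF (fun (q : S × I) (w : Phase n) => ((c q.1).2, w)) :=
    (CF.param (hc2.comp continuous_fst)).prodMk (CF.const contDiff_id)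
  have hmq : CF (fun (q : S × I) (w : Phase n) => m (c q.1).1 ((c q.1).2, w)) :=
    CF.comp (F := fun (q : S × I) x => m (c q.1).1 x)
      (hm.base (h := fun q : S × I => (c q.1).1) (hc1.comp continuous_fst)) hpair
  have hlam : Continuous fun q : S × I => (q.2 : ℝ) := continuous_subtype_val.comp continuous_snd
  have hLCF : CF L := by
    refine CF.add (CF.smul (CF.param (continuous_const.sub hlam))
      (hu.base (h := fun q : S × I => c q.1) (c.continuous.comp continuous_fst))) ?_
    exact CF.smul (CF.param hlam) ((CF.const contDiff_id).add hmq)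
  -- the second part
  set V' : S × I → Phase n → Phase n := fun q w => V ((c q.1).1, q.2) ((c q.1).2, w) with hV'
  have hV'CF : CF V' :=
    CF.comp (F := fun (q : S × I) x => V ((c q.1).1, q.2) x)
      (hV.base (h := fun q : S × I => ((c q.1).1, q.2))
        ((hc1.comp continuous_fst).prodMk continuous_snd)) hpair
  set Ψ : S × I → Phase n → Phase n := fun q x =>
    L (q.1, hf1 q.2) x + V' (q.1, hf2 q.2) x - V' (q.1, 0) x with hΨ
  have hΨCF : CF Ψ := CF.glue hLCF hV'CF
  have hL1 : ∀ s x, L (s, 1) x = V' (s, 0) x := by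
    intro s x
    simp only [hL, hV']
    rw [hV0]
    simp
  have hcase : ∀ q : S × I, Ψ q = L (q.1, hf1 q.2) ∨ Ψ q = V' (q.1, hf2 q.2) := by
    intro q
    rcases hf_cases q.2 with h | h
    · left
      funext x
      simp only [hΨ]
      rw [h, add_sub_cancel_right]
    · right
      funext x
      simp only [hΨ]
      rw [h, hL1, add_sub_cancel_left]
  have hLd : ∀ (q : S × I) w, fderiv ℝ (L q) w = ContinuousLinearMap.id ℝ (Phase n) +
      (fderiv ℝ (v (c q.1)) w + (q.2 : ℝ) •
        (fderiv ℝ (fun w => m (c q.1).1 ((c q.1).2, w)) w - fderiv ℝ (v (c q.1)) w)) := by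
    intro q w
    have h1 : HasFDerivAt (u (c q.1)) (ContinuousLinearMap.id ℝ (Phase n) +
        fderiv ℝ (v (c q.1)) w) w := by
      rw [hvd, add_sub_cancel]
      exact (hu.differentiable _ w).hasFDerivAt
    have h2 := (hmdiff (c q.1).1 (c q.1).2 w).hasFDerivAt
    have h3 := (h1.const_smul (1 - (q.2 : ℝ))).add (((hasFDerivAt_id w).add h2).const_smul (q.2 : ℝ))
    have h4 := h3.fderiv
    refine Eq.trans ?_ (h4.trans ?_)
    · rfl
    · module
  have hadm : ∀ q w, Admissible (fderiv ℝ (Ψ q) w) := by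
    intro q w
    rcases hcase q with h | h
    · rw [h, hLd]
      refine admissible_of_norm_sub hM0 hε (hvs (c q.1) w) (hM _ _) ?_
      rw [add_sub_cancel_left, norm_smul]
      have h1 := hmd (c q.1).1 (c q.1).2 w
      have h2 : ‖((hf1 q.2 : I) : ℝ)‖ ≤ 1 := by
        rw [Real.norm_of_nonneg (hf1 q.2).2.1]
        exact (hf1 q.2).2.2
      calc _ ≤ 1 * ε := mul_le_mul h2 h1 (norm_nonneg _) zero_le_one
        _ = ε := one_mul _
    · rw [h]
      exact hVadm _ _ w
  have hout : ∀ q x, ρ < ‖x‖ → Ψ q x = x := by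
    intro q x hx
    rcases hcase q with h | h
    · rw [h]
      simp only [hL]
      rw [huw _ x hx, hmw _ _ x hx, add_zero]
      module
    · rw [h]
      exact hVw _ _ _ hx
  obtain ⟨φ, hφ1, hφ⟩ := moser_iso hΨCF hout hadm
  set S0 : Set S := {s | (∀ d w, u ((c s).1, d) w = w) ∨ A + 2 ≤ ‖(c s).2‖} with hS0
  have hu0 : ∀ s ∈ S0, ∀ w, u (c s) w = w := by
    rintro s (h | h) w
    · exact h _ w
    · exact hud (c s).1 (c s).2 w (lt_of_lt_of_le (by linarith) h)
  have hm0 : ∀ s ∈ S0, ∀ w, m (c s).1 ((c s).2, w) = 0 := by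
    rintro s (h | h) w
    · exact hmid _ h _ w
    · exact hmfar _ _ w h
  have hΨ1 : ∀ s ∈ S0, ∀ r, ∀ w, Ψ (s, r) w = w := by
    intro s hs r w
    rcases hcase (s, r) with h | h
    · rw [h]
      simp only [hL]
      rw [hu0 s hs, hm0 s hs, add_zero]
      module
    · rw [h]
      exact hVtriv _ _ _ (hm0 s hs) w
  have hφS : ∀ s ∈ S0, ∀ r, φ (s, r) = 1 := fun s hs r => hφ1 (s, r) (hΨ1 s hs r)
  set c0 : C(S, S × I) := ⟨fun s => (s, 0), continuous_id.prodMk continuous_const⟩ with hc0
  set c1 : C(S, S × I) := ⟨fun s => (s, 1), continuous_id.prodMk continuous_const⟩ with hc1'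
  have hh1 : f.HomotopicRel (φ.comp c0) S0 := by
    refine hφ S c0 f S0 ?_ ?_
    · intro s x
      rw [hf]
      change _ = Ψ (s, 0) x
      simp only [hΨ]
      rw [hf1_zero, hf2_zero, add_sub_cancel_right]
      simp [hL]
    · intro s hs
      apply SympCt.ext'
      intro x
      rw [hf, hu0 s hs]
      rfl
  have hh2 : g.HomotopicRel (φ.comp c1) S0 := by
    refine hφ S c1 g S0 ?_ ?_
    · intro s x
      rw [hg]
      change _ = Ψ (s, 1) x
      simp only [hΨ]
      rw [hf1_one, hf2_one, hL1, add_sub_cancel_left]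
    · intro s hs
      apply SympCt.ext'
      intro x
      rw [hg]
      exact hVtriv _ _ _ (hm0 s hs) x
  have hh3 : (φ.comp c0).HomotopicRel (φ.comp c1) S0 := by
    refine ⟨{
      toFun := fun r => φ (r.2, r.1)
      continuous_toFun := φ.continuous.comp (continuous_snd.prodMk continuous_fst)
      map_zero_left := fun s => rfl
      map_one_left := fun s => rfl
      prop' := fun r s hs => by
        change φ (s, r) = φ (s, 0)
        rw [hφS s hs, hφS s hs] }⟩
  exact (hh1.trans hh3).trans hh2.symm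

end Pool.Agent.KRW
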