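import Mathlib
import Pool.Agent.KRW.St

/-!
# The square argument
-/

set_option maxSynthPendingDepth 3

open scoped ContDiff Topology unitInterval
open Set Function TopologicalSpace Filter

namespace Pool.Agent.KRW

open Pool.Agent.Helper17 Pool.Agent.Helper42 Pool.Agent.H42.Hull
open Pool.Agent.H50.Susp (hf1 hf2 continuous_hf1 continuous_hf2 hf_cases hf1_zero hf2_zero
  hf1_one hf2_one)

/-- The convex combination of two numbers in the unit interval. -/
private noncomputable def SQU_cv (l a b : I) : I :=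
  projIcc 0 1 zero_le_one ((1 - (l : ℝ)) * a + l * b)

private lemma SQU_cv_of {l a b c : I} (h : (1 - (l : ℝ)) * a + l * b = c) : SQU_cv l a b = c := by
  unfold SQU_cv
  rw [h]
  exact projIcc_val zero_le_one c

private lemma SQU_cv_zero (a b : I) : SQU_cv 0 a b = a := SQU_cv_of (by simp)

private lemma SQU_cv_one (a b : I) : SQU_cv 1 a b = b := SQU_cv_of (by simp)

private lemma SQU_cv_self (l a : I) : SQU_cv l a a = a := SQU_cv_of (by ring)

private lemma SQU_cv_cont {T : Type} [TopologicalSpace T] {l a b : T → I} (hl : Continuous l)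
    (ha : Continuous a) (hb : Continuous b) : Continuous (fun t => SQU_cv (l t) (a t) (b t)) := by
  unfold SQU_cv
  exact continuous_projIcc.comp (((continuous_const.sub (continuous_subtype_val.comp hl)).mul
    (continuous_subtype_val.comp ha)).add ((continuous_subtype_val.comp hl).mul
      (continuous_subtype_val.comp hb)))

/-- Reparametrisation of the last variable. -/
private lemma SQU_rep {m : ℕ} {X : Type} [TopologicalSpace X] (X0 : Set X)
    (f : C(X × I, SympCt m)) (h0 : ∀ x ∈ X0, ∀ y, f (x, y) = 1) :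
    f.HomotopicRel ⟨fun q => f (q.1, hf1 q.2), f.continuous.comp
      (continuous_fst.prodMk (continuous_hf1.comp continuous_snd))⟩
      {q | q.1 ∈ X0 ∨ q.2 = 0 ∨ q.2 = 1} := by
  have hc : Continuous (fun w : I × (X × I) => f (w.2.1, SQU_cv w.1 w.2.2 (hf1 w.2.2))) := by
    refine f.continuous.comp ((continuous_fst.comp continuous_snd).prodMk ?_)
    exact SQU_cv_cont continuous_fst (continuous_snd.comp continuous_snd)
      (continuous_hf1.comp (continuous_snd.comp continuous_snd))
  refine ⟨{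
    toFun := fun w => f (w.2.1, SQU_cv w.1 w.2.2 (hf1 w.2.2))
    continuous_toFun := hc
    map_zero_left := fun q => ?_
    map_one_left := fun q => ?_
    prop' := fun r q hq => ?_ }⟩
  · show f (q.1, SQU_cv 0 q.2 (hf1 q.2)) = f q
    rw [SQU_cv_zero]
  · show f (q.1, SQU_cv 1 q.2 (hf1 q.2)) = f (q.1, hf1 q.2)
    rw [SQU_cv_one]
  · show f (q.1, SQU_cv r q.2 (hf1 q.2)) = f q
    rcases hq with hq | hq | hq
    · rw [h0 _ hq]
      exact (h0 _ hq q.2).symm
    · have h1 : SQU_cv r q.2 (hf1 q.2) = q.2 := by rw [hq, hf1_zero, SQU_cv_self]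
      rw [h1]
    · have h1 : SQU_cv r q.2 (hf1 q.2) = q.2 := by rw [hq, hf1_one, SQU_cv_self]
      rw [h1]

/-- SQU: the square argument. -/
theorem thm_squ : St_squ := by
  intro m X _ _ X0 e g u hug hg1 hu1 hub het hX
  have he0 : ∀ x, e (x, 0) = 1 := fun x => by
    have h := het x 0
    rw [hug, hg1, mul_one] at h
    exact h
  have he1 : ∀ x, e (x, 1) = 1 := fun x => by
    have h := het x 1
    rw [hu1, mul_one] at h
    exact h
  have heX : ∀ x ∈ X0, ∀ s, e (x, s) = 1 := fun x hx s => by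
    have h := het x s
    rw [hX x hx, mul_one] at h
    exact h
  have hgX : ∀ x ∈ X0, ∀ s, g (x, s) = 1 := fun x hx s => by
    rw [← hug]
    exact hX x hx _
  have r1 := SQU_rep X0 e heX
  have r2 := SQU_rep X0 g hgX
  refine r1.trans (ContinuousMap.HomotopicRel.trans ?_ r2.symm)
  refine ContinuousMap.HomotopicRel.symm ?_
  -- the point of the square
  have hP1 : Continuous (fun w : I × (X × I) => SQU_cv w.1 (hf2 w.2.2) (hf1 w.2.2)) :=
    SQU_cv_cont continuous_fst (continuous_hf2.comp (continuous_snd.comp continuous_snd))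
      (continuous_hf1.comp (continuous_snd.comp continuous_snd))
  have hP2 : Continuous (fun w : I × (X × I) => SQU_cv w.1 (hf1 w.2.2) (hf2 w.2.2)) :=
    SQU_cv_cont continuous_fst (continuous_hf1.comp (continuous_snd.comp continuous_snd))
      (continuous_hf2.comp (continuous_snd.comp continuous_snd))
  have hx : Continuous (fun w : I × (X × I) => w.2.1) := continuous_fst.comp continuous_snd
  have hc : Continuous (fun w : I × (X × I) =>
      e (w.2.1, SQU_cv w.1 (hf2 w.2.2) (hf1 w.2.2)) *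
        u (w.2.1, (SQU_cv w.1 (hf2 w.2.2) (hf1 w.2.2), SQU_cv w.1 (hf1 w.2.2) (hf2 w.2.2)))) := by
    apply continuous_mul_family
    · exact e.continuous.comp (hx.prodMk hP1)
    · exact u.continuous.comp (hx.prodMk (hP1.prodMk hP2))
  refine ⟨{
    toFun := fun w => e (w.2.1, SQU_cv w.1 (hf2 w.2.2) (hf1 w.2.2)) *
      u (w.2.1, (SQU_cv w.1 (hf2 w.2.2) (hf1 w.2.2), SQU_cv w.1 (hf1 w.2.2) (hf2 w.2.2)))
    continuous_toFun := hc
    map_zero_left := fun q => ?_
    map_one_left := fun q => ?_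
    prop' := fun r q hq => ?_ }⟩
  · show e (q.1, SQU_cv 0 (hf2 q.2) (hf1 q.2)) *
      u (q.1, (SQU_cv 0 (hf2 q.2) (hf1 q.2), SQU_cv 0 (hf1 q.2) (hf2 q.2))) = g (q.1, hf1 q.2)
    rw [SQU_cv_zero, SQU_cv_zero]
    rcases hf_cases q.2 with h | h
    · rw [h, he0, one_mul, hug]
    · rw [h, het, hg1]
  · show e (q.1, SQU_cv 1 (hf2 q.2) (hf1 q.2)) *
      u (q.1, (SQU_cv 1 (hf2 q.2) (hf1 q.2), SQU_cv 1 (hf1 q.2) (hf2 q.2))) = e (q.1, hf1 q.2)
    rw [SQU_cv_one, SQU_cv_one]
    rcases hf_cases q.2 with h | h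
    · rw [h, hub, mul_one]
    · rw [h, hu1, mul_one]
  · show e (q.1, SQU_cv r (hf2 q.2) (hf1 q.2)) *
      u (q.1, (SQU_cv r (hf2 q.2) (hf1 q.2), SQU_cv r (hf1 q.2) (hf2 q.2))) = g (q.1, hf1 q.2)
    rcases hq with hq | hq | hq
    · rw [heX _ hq, hX _ hq, hgX _ hq, mul_one]
    · have hq' : q.2 = 0 := hq
      rw [hq', hf1_zero, hf2_zero, SQU_cv_self, he0, hub, mul_one, ← hug, hub]
    · have hq' : q.2 = 1 := hq
      rw [hq', hf1_one, hf2_one, SQU_cv_self, he1, hu1, mul_one, hg1]

end Pool.Agent.KRW
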