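import Pool.Agent.KRW.St
import Pool.Agent.KRW.Split

/-!
# KRW, module SUS: smooth families over cubes which are homotopic give homotopic product maps

Hypotheses: `St_box`, `St_rad`, `St_vInv`, `St_vComp`, `St_vMap`, `St_smo`.
-/

set_option maxSynthPendingDepth 3

open scoped ContDiff Topology unitInterval
open Set Function TopologicalSpace Filter

namespace Pool.Agent.KRW

open Pool.Agent.Helper17 Pool.Agent.Helper42 Pool.Agent.H42.Hull

variable {m k : ℕ}

lemma SUS_mono {T : Type} [TopologicalSpace T] {R R' : ℝ} {W : T → Phase (m + k) → Phase m}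
    (h : VFam m k R W) (hR : R ≤ R') : VFam m k R' W :=
  ⟨h.cf, fun t p hp => h.std t p (lt_of_le_of_lt hR hp), h.symp⟩

lemma SUS_null (hbox : St_box) (hsmo : St_smo) {T : Type} [TopologicalSpace T] [CompactSpace T]
    (T0 : Set T) (R₁ : ℝ) (hR₁ : 0 < R₁) (X : T → Phase (m + (k + 1)) → Phase m)
    (hX : VFam m (k + 1) R₁ X)
    (hXo : ∀ t p, (∃ i, R₁ ≤ |(prK m (k + 1) p) i|) → X t p = prW m (k + 1) p)
    (h : C(I × ((T × Bx k) × (I × I)), SympCt m))
    (h0 : ∀ t z s w, (h (0, ((t, z), s)) : Equiv.Perm (Phase m)) w =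
      X t (mkB m (k + 1) (bxPt R₁ z s) w))
    (h1 : ∀ q, h (1, q) = 1) (hb : ∀ s, ∀ q ∈ bdS k T0, h (s, q) = 1) :
    ∃ (R₂ B : ℝ) (U : T × I → Phase (m + (k + 1)) → Phase m), R₁ ≤ R₂ ∧
      VFam m (k + 1) R₂ U ∧ (∀ q p, B ≤ ‖prK m (k + 1) p‖ → U q p = prW m (k + 1) p) ∧
      (∀ t p, U (t, 0) p = X t p) ∧ (∀ t p, U (t, 1) p = prW m (k + 1) p) ∧
      ∀ t ∈ T0, ∀ s p, U (t, s) p = prW m (k + 1) p := by
  obtain ⟨hcl, -, hcl2, hcl3, -, hcl5, -, -, -⟩ := hbox k R₁ hR₁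
  obtain ⟨hCF, K, hK⟩ := CF_of_continuous h.continuous
  obtain ⟨ρ₀, hρ₀⟩ := K.isCompact.isBounded.subset_closedBall (0 : Phase m)
  set ρ : ℝ := max R₁ ρ₀ with hρ
  have hρ1 : R₁ ≤ ρ := le_max_left _ _
  have hKρ : ∀ q (w : Phase m), ρ < ‖w‖ → (h q : Equiv.Perm (Phase m)) w = w := by
    intro q w hw
    refine hK q w fun h2 => ?_
    have h3 := hρ₀ h2
    rw [mem_closedBall_zero_iff] at h3
    have h4 : ρ₀ ≤ ρ := le_max_right _ _
    linarith
  set c : T × (Phase (k + 1) × ℝ) → I × ((T × Bx k) × (I × I)) := fun q =>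
    (projIcc 0 1 zero_le_one (1 - q.2.2), ((q.1, (clB R₁ q.2.1).1), (clB R₁ q.2.1).2)) with hc
  have hcc : Continuous c := by
    have e1 : Continuous fun q : T × (Phase (k + 1) × ℝ) => clB R₁ q.2.1 :=
      hcl.comp (continuous_fst.comp continuous_snd)
    exact (continuous_projIcc.comp (continuous_const.sub (continuous_snd.comp continuous_snd))).prodMk
      ((continuous_fst.prodMk (continuous_fst.comp e1)).prodMk (continuous_snd.comp e1))
  set u : T × (Phase (k + 1) × ℝ) → Phase m → Phase m := fun q w =>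
    (h (c q) : Equiv.Perm (Phase m)) w with hu
  set E : T → Phase (k + 1) × Phase m → Phase m := fun t q => X t (mkB m (k + 1) q.1 q.2) with hE
  have hbd : ∀ (t : T) (d : Phase (k + 1)) (y : ℝ) (w : Phase m), (∃ i, R₁ ≤ |d i|) →
      u (t, (d, y)) w = w := by
    intro t d y w hd
    have e1 : h (c (t, (d, y))) = 1 := by
      refine hb _ _ ?_
      show (t ∈ T0 ∨ (clB R₁ d).1 ∈ bdB k) ∨ (clB R₁ d).2 ∈ sqBd
      rcases hcl3 d hd with h2 | h2
      · exact Or.inl (Or.inr h2)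
      · exact Or.inr h2
    show (h (c (t, (d, y))) : Equiv.Perm (Phase m)) w = w
    rw [e1]
    rfl
  have hT0 : ∀ t ∈ T0, ∀ q w, u (t, q) w = w := by
    intro t ht q w
    have e1 : h (c (t, q)) = 1 := hb _ _ (Or.inl (Or.inl ht))
    show (h (c (t, q)) : Equiv.Perm (Phase m)) w = w
    rw [e1]
    rfl
  obtain ⟨B, Y, hB, hYcf, hYstd, hYs, hYout, hYE, hY0⟩ := hsmo m (Phase (k + 1)) T u E
    (Real.sqrt (2 * k + 2) * R₁) ρ (by positivity) (hR₁.le.trans hρ1) (hCF.base hcc)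
    (hX.cf.comp (CF.const (mkBL m (k + 1)).contDiff)) (fun q w hw => hKρ _ w hw)
    (fun t d w hw => by
      show X t (mkB m (k + 1) d w) = w
      rw [hX.std t _ (by rw [prW_mkB]; exact lt_of_le_of_lt hρ1 hw), prW_mkB])
    (fun q w a b => (h (c q)).2.2.2.1 w a b)
    (fun t d y w hd => by
      rcases hcl5 d with h2 | h2
      · exact absurd hd (not_lt.2 h2)
      · exact hbd t d y w h2)
    (fun t d y w hy => by
      have e1 : projIcc (0 : ℝ) 1 zero_le_one (1 - y) = 1 :=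
        projIcc_of_right_le _ (by linarith)
      have e2 : h (c (t, (d, y))) = 1 := by
        show h (projIcc 0 1 zero_le_one (1 - y), ((t, (clB R₁ d).1), (clB R₁ d).2)) = 1
        rw [e1]
        exact h1 _
      show (h (c (t, (d, y))) : Equiv.Perm (Phase m)) w = w
      rw [e2]
      rfl)
    (fun t d y w hy => by
      show u (t, (d, y)) w = X t (mkB m (k + 1) d w)
      by_cases hd : ∃ i, R₁ ≤ |d i|
      · rw [hbd t d y w hd, hXo t _ (by rw [prK_mkB]; exact hd), prW_mkB]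
      · push Not at hd
        have e1 : projIcc (0 : ℝ) 1 zero_le_one (1 - y) = 0 :=
          projIcc_of_le_left _ (by linarith)
        show (h (projIcc 0 1 zero_le_one (1 - y), ((t, (clB R₁ d).1), (clB R₁ d).2)) :
          Equiv.Perm (Phase m)) w = _
        rw [e1, h0, hcl2 d fun i => (hd i).le])
  set U : T × I → Phase (m + (k + 1)) → Phase m := fun q p =>
    Y q.1 ((prK m (k + 1) p, (1 - 2 * (q.2 : ℝ)) * B), prW m (k + 1) p) with hU
  have hLcf : CF (fun (q : T × I) (p : Phase (m + (k + 1))) =>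
      ((prK m (k + 1) p, (1 - 2 * (q.2 : ℝ)) * B), prW m (k + 1) p)) := by
    refine ((CF.const (prK m (k + 1)).contDiff).prodMk (CF.param (c := fun q : T × I =>
      (1 - 2 * (q.2 : ℝ)) * B) ?_)).prodMk (CF.const (prW m (k + 1)).contDiff)
    fun_prop
  refine ⟨ρ, B, U, hρ1, ⟨?_, ?_, ?_⟩, ?_, ?_, ?_, ?_⟩
  · exact (hYcf.base (h := fun q : T × I => q.1) continuous_fst).comp hLcf
  · intro q p hp
    exact hYstd _ _ _ hp
  · intro q p v w
    have key : ∀ a : Phase m, fderiv ℝ (U q) p (incW m (k + 1) a) =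
        fderiv ℝ (fun w' => Y q.1 ((prK m (k + 1) p, (1 - 2 * (q.2 : ℝ)) * B), w'))
          (prW m (k + 1) p) a := by
      intro a
      have d1 : HasFDerivAt (Y q.1) (fderiv ℝ (Y q.1)
          ((prK m (k + 1) p, (1 - 2 * (q.2 : ℝ)) * B), prW m (k + 1) p))
          ((prK m (k + 1) p, (1 - 2 * (q.2 : ℝ)) * B), prW m (k + 1) p) :=
        (hYcf.differentiable q.1 _).hasFDerivAt
      have d2 : HasFDerivAt (fun p : Phase (m + (k + 1)) =>
          ((prK m (k + 1) p, (1 - 2 * (q.2 : ℝ)) * B), prW m (k + 1) p))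
          (((prK m (k + 1)).prod 0).prod (prW m (k + 1))) p :=
        ((prK m (k + 1)).hasFDerivAt.prodMk (hasFDerivAt_const _ _)).prodMk
          (prW m (k + 1)).hasFDerivAt
      have d3 : HasFDerivAt (fun w' : Phase m =>
          ((prK m (k + 1) p, (1 - 2 * (q.2 : ℝ)) * B), w'))
          ((0 : Phase m →L[ℝ] Phase (k + 1) × ℝ).prod (ContinuousLinearMap.id ℝ (Phase m)))
          (prW m (k + 1) p) :=
        (hasFDerivAt_const _ _).prodMk (hasFDerivAt_id _)
      have e1 := (d1.comp p d2).fderiv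
      have e2 := (HasFDerivAt.comp (prW m (k + 1) p) d1 d3).fderiv
      have e3 : fderiv ℝ (U q) p = (fderiv ℝ (Y q.1)
          ((prK m (k + 1) p, (1 - 2 * (q.2 : ℝ)) * B), prW m (k + 1) p)).comp
          (((prK m (k + 1)).prod 0).prod (prW m (k + 1))) := e1
      have e4 : fderiv ℝ (fun w' => Y q.1 ((prK m (k + 1) p, (1 - 2 * (q.2 : ℝ)) * B), w'))
          (prW m (k + 1) p) = (fderiv ℝ (Y q.1)
          ((prK m (k + 1) p, (1 - 2 * (q.2 : ℝ)) * B), prW m (k + 1) p)).comp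
          ((0 : Phase m →L[ℝ] Phase (k + 1) × ℝ).prod (ContinuousLinearMap.id ℝ (Phase m))) := e2
      rw [e3, e4]
      simp only [ContinuousLinearMap.comp_apply, ContinuousLinearMap.prod_apply,
        ContinuousLinearMap.zero_apply, ContinuousLinearMap.id_apply]
      rw [prK_incW, prW_incW]
      rfl
    rw [key, key]
    exact hYs _ _ _ _ _
  · intro q p hp
    exact hYout _ _ _ _ (Or.inl hp)
  · intro t p
    show Y t ((prK m (k + 1) p, (1 - 2 * ((0 : I) : ℝ)) * B), prW m (k + 1) p) = X t p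
    rw [hYE t _ _ _ (by simp)]
    show X t (mkB m (k + 1) (prK m (k + 1) p) (prW m (k + 1) p)) = X t p
    rw [mkB_eta]
  · intro t p
    show Y t ((prK m (k + 1) p, (1 - 2 * ((1 : I) : ℝ)) * B), prW m (k + 1) p) = _
    exact hYout t _ _ _ (Or.inr (le_of_eq (by rw [Icc.coe_one]; ring)))
  · intro t ht s p
    exact hY0 t (hT0 t ht) _ _

theorem thm_sus (hbox : St_box) (hrad : St_rad) (hinv : St_vInv) (hcomp : St_vComp)
    (hmap : St_vMap) (hsmo : St_smo) : St_sus := by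
  intro m k T _ _ T0 R R' W W' g g' hR hR' hW hW' hg hg' hT0 hgg
  set R₁ : ℝ := max R R' with hR₁
  have hR1 : R ≤ R₁ := le_max_left _ _
  have hR1' : R' ≤ R₁ := le_max_right _ _
  have hR₁0 : 0 < R₁ := lt_of_lt_of_le hR hR1
  obtain ⟨hgb, g₁, hg₁, hgg₁⟩ := hrad m k T T0 R R₁ R W g hR hR1 hW hg fun t ht p => (hT0 t ht p).1
  obtain ⟨hgb', g₁', hg₁', hgg₁'⟩ := hrad m k T T0 R' R₁ R' W' g' hR' hR1' hW' hg'
    fun t ht p => (hT0 t ht p).2
  obtain ⟨H⟩ := (hgg₁.symm.trans hgg).trans hgg₁'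
  obtain ⟨V, hV, hV1, hV2⟩ := hinv m (k + 1) T R' W' hW'
  -- the cube family of the quotient
  have hg1b : ∀ q ∈ bdS k T0, g₁ q = 1 := fun q hq => by
    obtain ⟨G⟩ := hgg₁
    rw [← G.apply_one, G.eq_fst 1 hq]
    exact hgb q hq
  have hg1b' : ∀ q ∈ bdS k T0, g₁' q = 1 := fun q hq => by
    obtain ⟨G⟩ := hgg₁'
    rw [← G.apply_one, G.eq_fst 1 hq]
    exact hgb' q hq
  have hX := hcomp m (k + 1) T R₁ V W (SUS_mono hV hR1') (SUS_mono hW hR1)
  have hWo : ∀ t p, (∃ i, R₁ ≤ |(prK m (k + 1) p) i|) → W t p = prW m (k + 1) p := hg₁.1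
  have hWo' : ∀ t p, (∃ i, R₁ ≤ |(prK m (k + 1) p) i|) → W' t p = prW m (k + 1) p := hg₁'.1
  have hVo : ∀ t p, (∃ i, R₁ ≤ |(prK m (k + 1) p) i|) → V t p = prW m (k + 1) p := by
    intro t p hp
    have e1 : mapW m (k + 1) (W' t) p = p := by
      rw [mapW, hWo' t p hp, mkB_eta]
    have e2 := hV1 t p
    rwa [e1] at e2
  have hinvc : Continuous fun q : I × ((T × Bx k) × (I × I)) => (g₁' q.2)⁻¹ :=
    (continuous_inv_family g₁'.continuous).comp continuous_snd
  set h : C(I × ((T × Bx k) × (I × I)), SympCt m) := ⟨fun q => (g₁' q.2)⁻¹ * H q,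
    continuous_mul_family hinvc H.continuous⟩ with hh
  have hVg : ∀ t z s w, ((g₁' ((t, z), s))⁻¹ : Equiv.Perm (Phase m)) w =
      V t (mkB m (k + 1) (bxPt R₁ z s) w) := by
    intro t z s w
    rw [Equiv.Perm.inv_eq_iff_eq, hg₁'.2]
    have e1 := hV2 t (mkB m (k + 1) (bxPt R₁ z s) w)
    rw [mapW, prK_mkB, prW_mkB] at e1
    exact e1.symm
  obtain ⟨R₂, B, U, hR₂, hU, hUB, hU0, hU1, hUT⟩ := SUS_null hbox hsmo T0 R₁ hR₁0
    (fun t p => V t (mapW m (k + 1) (W t) p)) hX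
    (fun t p hp => by
      have e1 : mapW m (k + 1) (W t) p = p := by
        rw [mapW, hWo t p hp, mkB_eta]
      show V t (mapW m (k + 1) (W t) p) = _
      rw [e1, hVo t p hp])
    h
    (fun t z s w => by
      show (((g₁' ((t, z), s))⁻¹ * H (0, ((t, z), s)) : SympCt m) : Equiv.Perm (Phase m)) w = _
      rw [H.apply_zero]
      show ((g₁' ((t, z), s))⁻¹ : Equiv.Perm (Phase m)) ((g₁ ((t, z), s) : Equiv.Perm (Phase m)) w) = _
      rw [hVg, hg₁.2]
      show _ = V t (mkB m (k + 1) (prK m (k + 1) (mkB m (k + 1) (bxPt R₁ z s) w))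
        (W t (mkB m (k + 1) (bxPt R₁ z s) w)))
      rw [prK_mkB])
    (fun q => by
      show (g₁' q)⁻¹ * H (1, q) = 1
      rw [H.apply_one, inv_mul_cancel])
    (fun s q hq => by
      show (g₁' q)⁻¹ * H (s, q) = 1
      rw [H.eq_fst s hq, hg1b' q hq, hg1b q hq, inv_one, one_mul])
  -- the total family
  have hZ := hcomp m (k + 1) (T × I) R₂ (fun q => W' q.1) U
    ⟨hW'.cf.base continuous_fst, fun q p hp => hW'.std q.1 p (by linarith), fun q p v w => hW'.symp q.1 p v w⟩ hU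
  obtain ⟨-, -, -, -, -, hnorm, -⟩ := hbox k R₁ hR₁0
  set R₃ : ℝ := max R₂ (max B (Real.sqrt (2 * k + 2) * R₁ + 1)) with hR₃
  have h31 : R₂ ≤ R₃ := le_max_left _ _
  have h32 : B ≤ R₃ := (le_max_left _ _).trans (le_max_right _ _)
  have h33 : Real.sqrt (2 * k + 2) * R₁ + 1 ≤ R₃ := (le_max_right _ _).trans (le_max_right _ _)
  have hF := hmap m (k + 1) (T × I) R₃ _ (SUS_mono hZ h31) (fun q p hp => by
    have e1 : mapW m (k + 1) (U q) p = p := by
      rw [mapW, hUB q p (h32.trans hp), mkB_eta]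
    show W' q.1 (mapW m (k + 1) (U q) p) = _
    rw [e1]
    refine hWo' _ _ ?_
    rcases hnorm (prK m (k + 1) p) with h2 | h2
    · exact absurd (h2.trans_lt (by linarith)) (lt_irrefl _)
    · exact h2)
  refine ⟨2 * R₃, _, ?_, hF, ?_, ?_, ?_⟩
  · have : 0 < R₃ := lt_of_lt_of_le (lt_of_lt_of_le hR₁0 hR₂) h31
    linarith
  · intro t p
    show mkB m (k + 1) (prK m (k + 1) p) (W' t (mapW m (k + 1) (U (t, 0)) p)) = _
    have e1 : mapW m (k + 1) (U (t, 0)) p = mapW m (k + 1) (V t) (mapW m (k + 1) (W t) p) := by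
      show mkB m (k + 1) (prK m (k + 1) p) (U (t, 0) p)
        = mkB m (k + 1) (prK m (k + 1) (mapW m (k + 1) (W t) p)) (V t (mapW m (k + 1) (W t) p))
      rw [hU0, prK_mapW]
    rw [e1, hV2, prW_mapW]
    rfl
  · intro t p
    show mkB m (k + 1) (prK m (k + 1) p) (W' t (mapW m (k + 1) (U (t, 1)) p)) = _
    have e1 : mapW m (k + 1) (U (t, 1)) p = p := by
      rw [mapW, hU1, mkB_eta]
    rw [e1]
    rfl
  · intro t ht s p
    show mkB m (k + 1) (prK m (k + 1) p) (W' t (mapW m (k + 1) (U (t, s)) p)) = _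
    have e1 : mapW m (k + 1) (U (t, s)) p = p := by
      rw [mapW, hUT t ht, mkB_eta]
    rw [e1, (hT0 t ht p).2, mkB_eta]

end Pool.Agent.KRW
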