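import Mathlib
import Pool.Agent.KRW.St
import Pool.Agent.KRW.Split
import Pool.Agent.Helper17.DirectLimit
import Pool.Agent.Helper17.SympFamily
import Pool.Agent.H50.Susp.PairToPos
import Pool.Agent.Helper42.Susp.Coord
import Pool.Agent.Helper42.Susp.PairDef

/-!
# KRW TOP1: the topology of MapSp (helper68; copy of Helper42/Susp/PairTop.lean)
-/

set_option maxSynthPendingDepth 3

open scoped ContDiff Distributions Topology
open Set Function TopologicalSpace Filter Topology

namespace Pool.Agent.KRW

open Pool.Agent.Helper17 Pool.Agent.Helper42 Pool.Agent.H42.Hull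

variable {D E : ℕ} {b : Sm D E} {P : (Phase D → Phase E) → Prop}

lemma MapSupp.isInducing_disp (K : Compacts (Phase D)) :
    IsInducing (MapSupp.disp K : MapSupp b P K → Dk D E K) := ⟨rfl⟩

lemma MapSupp.continuous_incl (K : Compacts (Phase D)) :
    Continuous (MapSupp.incl (K := K) : MapSupp b P K → MapSp b P) :=
  continuous_iSup_rng (i := K) continuous_coinduced_rng

lemma MapSupp.incl_injective (K : Compacts (Phase D)) :
    Injective (MapSupp.incl (K := K) : MapSupp b P K → MapSp b P) := by
  rintro ⟨φ, h1⟩ ⟨ψ, h2⟩ h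
  have h3 : φ = ψ := h
  subst h3
  rfl

/-- The inclusion between the spaces attached to `K ≤ L`. -/
def MapSupp.mono {K L : Compacts (Phase D)} (h : K ≤ L) (φ : MapSupp b P K) : MapSupp b P L :=
  ⟨φ.incl, fun p hp => φ.off p fun hK => hp (h hK)⟩

lemma MapSupp.topology_eq (K : Compacts (Phase D)) :
    (instTopologicalSpaceMapSupp b P K : TopologicalSpace (MapSupp b P K)) =
      ⨅ i : ℕ, TopologicalSpace.induced
        (fun φ : MapSupp b P K => ContDiffMapSupportedIn.structureMapLM ℝ ⊤ i (MapSupp.disp K φ))
        inferInstance := by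
  change TopologicalSpace.induced (MapSupp.disp K) (⨅ i : ℕ, TopologicalSpace.induced
    (ContDiffMapSupportedIn.structureMapLM ℝ ⊤ i) inferInstance) = _
  rw [induced_iInf]
  refine iInf_congr fun i => ?_
  rw [induced_compose]
  rfl

lemma MapSupp.isInducing_mono {K L : Compacts (Phase D)} (h : K ≤ L) :
    IsInducing (MapSupp.mono h : MapSupp b P K → MapSupp b P L) := by
  constructor
  rw [MapSupp.topology_eq K, MapSupp.topology_eq L, induced_iInf]
  refine iInf_congr fun i => ?_
  rw [induced_compose]
  congr 1

lemma MapSupp.continuous_eval (K : Compacts (Phase D)) (p : Phase D) :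
    Continuous (fun φ : MapSupp b P K => φ.incl.map.fn p) := by
  have h1 : Continuous (fun φ : MapSupp b P K => MapSupp.disp K φ p) :=
    (continuous_eval_const p).comp (MapSupp.isInducing_disp K).continuous
  have h2 : (fun φ : MapSupp b P K => φ.incl.map.fn p) =
      fun φ : MapSupp b P K => MapSupp.disp K φ p + b.fn p := by
    ext1 φ
    change _ = (φ.incl.map.fn p - b.fn p) + b.fn p
    abel
  rw [h2]
  exact h1.add continuous_const

instance (K : Compacts (Phase D)) : T2Space (MapSupp b P K) := by
  rw [t2Space_iff]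
  intro φ ψ hne
  have : ∃ p, φ.incl.map.fn p ≠ ψ.incl.map.fn p := by
    by_contra h
    push Not at h
    exact hne (MapSupp.incl_injective K (MapSp.ext_fn (funext h)))
  obtain ⟨p, hp⟩ := this
  obtain ⟨U, V, hU, hV, h1, h2, h3⟩ := t2_separation hp
  exact ⟨_, _, hU.preimage (MapSupp.continuous_eval K p),
    hV.preimage (MapSupp.continuous_eval K p), h1, h2, h3.preimage _⟩

lemma MapSupp.isClosedEmbedding_mono {K L : Compacts (Phase D)} (h : K ≤ L) :
    IsClosedEmbedding (MapSupp.mono h : MapSupp b P K → MapSupp b P L) where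
  toIsInducing := MapSupp.isInducing_mono h
  injective := fun φ ψ hφψ => MapSupp.incl_injective K (by
    have : (MapSupp.mono h φ).incl = (MapSupp.mono h ψ).incl := by rw [hφψ]
    exact this)
  isClosed_range := by
    have : range (MapSupp.mono h : MapSupp b P K → MapSupp b P L) =
        ⋂ p : {p : Phase D // p ∉ K}, {φ : MapSupp b P L |
          φ.incl.map.fn p.1 = b.fn p.1} := by
      ext φ
      simp only [mem_range, mem_iInter, Subtype.forall]
      constructor
      · rintro ⟨ψ, rfl⟩ p hp
        exact ψ.off p hp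
      · intro hφ
        exact ⟨⟨φ.incl, hφ⟩, rfl⟩
    rw [this]
    exact isClosed_iInter fun p => isClosed_eq (MapSupp.continuous_eval L p.1) continuous_const

lemma isClosed_iff_forall_map (s : Set (MapSp b P)) :
    IsClosed s ↔ ∀ K : Compacts (Phase D), IsClosed (MapSupp.incl (K := K) ⁻¹' s) := by
  rw [isClosed_iSup_iff]
  simp only [isClosed_coinduced]

lemma MapSupp.isClosedEmbedding_incl (K : Compacts (Phase D)) :
    IsClosedEmbedding (MapSupp.incl (K := K) : MapSupp b P K → MapSp b P) := by
  refine IsClosedEmbedding.of_continuous_injective_isClosedMap (MapSupp.continuous_incl K)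
    (MapSupp.incl_injective K) ?_
  intro s hs
  rw [isClosed_iff_forall_map]
  intro L
  have h1 : MapSupp.incl (K := L) ⁻¹' (MapSupp.incl (K := K) '' s) =
      MapSupp.mono (le_sup_right : L ≤ K ⊔ L) ⁻¹' (MapSupp.mono (le_sup_left : K ≤ K ⊔ L) '' s) := by
    ext φ
    constructor
    · rintro ⟨ψ, hψ, h⟩
      exact ⟨ψ, hψ, MapSupp.incl_injective _ h⟩
    · rintro ⟨ψ, hψ, h⟩
      exact ⟨ψ, hψ, congrArg MapSupp.incl h⟩
  rw [h1]
  exact ((MapSupp.isClosedEmbedding_mono _).isClosedMap s hs).preimage
    (MapSupp.isInducing_mono _).continuous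

lemma exists_supported_ballC_map (φ : MapSp b P) :
    ∃ N, ∀ M, N ≤ M → ∀ p ∉ ballC D M, φ.map.fn p = b.fn p := by
  obtain ⟨K, hφK⟩ := φ.eq_off
  obtain ⟨N, hN⟩ := exists_ballC_ge K
  exact ⟨N, fun M hM p hp => hφK p fun h => hp (ballC_mono hM (hN h))⟩

/-- A compact set of pairs consists of pairs which are standard outside a common ball. -/
lemma exists_ballC_of_isCompact_map {C : Set (MapSp b P)} (hC : IsCompact C) :
    ∃ N, ∀ φ ∈ C, ∀ p ∉ ballC D N, φ.map.fn p = b.fn p := by
  by_contra hcon
  push Not at hcon
  choose φ hφC hφ using hcon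
  obtain ⟨c, hcC, hc⟩ := hC.exists_mapClusterPt (f := atTop) (u := φ) (by
    rw [le_principal_iff]
    exact Filter.mem_map.2 (Filter.Eventually.of_forall hφC))
  obtain ⟨M, hM⟩ := exists_supported_ballC_map c
  set S : Set (MapSp b P) := range φ \ {c} with hS
  have hclosed : IsClosed S := by
    rw [isClosed_iff_forall_map]
    intro K
    obtain ⟨L, hL⟩ := exists_ballC_ge K
    have hfin : (MapSupp.incl (K := K) ⁻¹' S).Finite := by
      have : (MapSupp.incl (K := K) ⁻¹' S) ⊆ MapSupp.incl (K := K) ⁻¹' (φ '' {N | N < L}) := by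
        rintro ψ ⟨⟨N, hN⟩, -⟩
        refine ⟨N, ?_, hN⟩
        by_contra hNL
        obtain ⟨p, hp, hne⟩ := hφ N
        have h1 : L ≤ N := not_lt.1 hNL
        apply hne
        rw [hN]
        exact ψ.off p fun h => hp (ballC_mono h1 (hL h))
      refine Finite.subset ?_ this
      exact ((finite_lt_nat L).image φ).preimage (MapSupp.incl_injective K).injOn
    exact hfin.isClosed
  have hnhds : Sᶜ ∈ 𝓝 c := hclosed.isOpen_compl.mem_nhds (by simp [hS])
  have hfreq := (mapClusterPt_iff_frequently.1 hc) Sᶜ hnhds
  obtain ⟨N, hN, hNS⟩ := (Filter.frequently_atTop.1 hfreq) M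
  have hNc : φ N = c := by
    by_contra h
    exact hNS ⟨⟨N, rfl⟩, h⟩
  obtain ⟨p, hp, hne⟩ := hφ N
  rw [hNc] at hne
  exact hne (hM N hN p hp)

/-- A continuous map from a compact space factors through a stage. -/
lemma exists_lift_of_compact_map {T : Type*} [TopologicalSpace T] [CompactSpace T]
    (f : T → MapSp b P) (hf : Continuous f) :
    ∃ N, ∃ g : T → MapSupp b P (ballC D N), Continuous g ∧ ∀ t, (g t).incl = f t := by
  obtain ⟨N, hN⟩ := exists_ballC_of_isCompact_map (isCompact_range hf)
  have hN' : ∀ t, ∀ p ∉ ballC D N, (f t).map.fn p = b.fn p :=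
    fun t => hN (f t) (mem_range_self t)
  refine ⟨N, fun t => ⟨f t, hN' t⟩, ?_, fun t => rfl⟩
  exact (MapSupp.isClosedEmbedding_incl (ballC D N)).isInducing.continuous_iff.2 hf

/-- Smooth families which are standard outside a common compact set are continuous. -/
lemma continuous_map_of_CF {T : Type} [TopologicalSpace T] {F : T → Phase D → Phase E}
    (hF : CF F) (K : Compacts (Phase D)) (hK : ∀ t, ∀ x ∉ K, F t x = b.fn x)
    {g : T → MapSp b P} (hg : ∀ t x, (g t).map.fn x = F t x) : Continuous g := by
  set gK : T → MapSupp b P K := fun t => ⟨g t, fun p hp => by rw [hg, hK t p hp]⟩ with hgK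
  have hcont : Continuous gK := by
    rw [continuous_induced_rng, ContDiffMapSupportedIn.continuous_iff_comp]
    intro i
    apply continuous_bcf_of_joint _ K.isCompact
    · intro t x hx
      simp only [comp_apply]
      rw [ContDiffMapSupportedIn.structureMapCLM_top_apply]
      exact ContDiffMapSupportedIn.iteratedFDeriv_zero_on_compl _ hx
    · have h1 : ∀ q : T × Phase D,
          ((ContDiffMapSupportedIn.structureMapCLM ℝ ⊤ i ∘ MapSupp.disp K ∘ gK) q.1) q.2 =
          iteratedFDeriv ℝ i (fun x => F q.1 x - b.fn x) q.2 := by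
        intro q
        simp only [comp_apply]
        rw [ContDiffMapSupportedIn.structureMapCLM_top_apply]
        have : (MapSupp.disp K (gK q.1) : Phase D → Phase E) =
            fun x => F q.1 x - b.fn x := by
          funext x
          change (g q.1).map.fn x - b.fn x = _
          rw [hg]
        rw [this]
      simp_rw [h1]
      exact (hF.sub (CF.const b.smooth)).continuous_iteratedFDeriv i
  exact (MapSupp.continuous_incl K).comp hcont

/-- A continuous map from a compact space is a smooth family, standard outside a common compact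
set. -/
lemma CF_of_continuous_map {T : Type} [TopologicalSpace T] [CompactSpace T] {f : T → MapSp b P}
    (hf : Continuous f) : CF (fun t x => (f t).map.fn x) ∧
      ∃ K : Compacts (Phase D), ∀ t, ∀ x ∉ K, (f t).map.fn x = b.fn x := by
  obtain ⟨N, g, hg, hgf⟩ := exists_lift_of_compact_map f hf
  refine ⟨?_, ballC D N, fun t x hx => by rw [← hgf t]; exact (g t).off x hx⟩
  have h1 : CF (fun t x => (f t).map.fn x - b.fn x) := by
    intro k
    apply CFk.of_iteratedFDeriv
    · intro t
      exact (f t).map.smooth.sub b.smooth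
    · intro i
      have h2 : Continuous (fun t => ContDiffMapSupportedIn.structureMapCLM ℝ ⊤ i
          (MapSupp.disp (ballC D N) (g t))) :=
        (ContDiffMapSupportedIn.structureMapCLM ℝ ⊤ i).continuous.comp
          ((MapSupp.isInducing_disp (ballC D N)).continuous.comp hg)
      have h3 : ∀ q : T × Phase D, iteratedFDeriv ℝ i
          (fun x => (f q.1).map.fn x - b.fn x) q.2 =
          (ContDiffMapSupportedIn.structureMapCLM ℝ ⊤ i
          (MapSupp.disp (ballC D N) (g q.1))) q.2 := by
        intro q
        rw [ContDiffMapSupportedIn.structureMapCLM_top_apply]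
        have : (MapSupp.disp (ballC D N) (g q.1) : Phase D → Phase E) =
            fun x => (f q.1).map.fn x - b.fn x := by
          funext x
          change (g q.1).incl.map.fn x - b.fn x = _
          rw [hgf]
        rw [this]
      simp_rw [h3]
      exact Continuous.eval (h2.comp continuous_fst) continuous_snd
  have h2 := h1.add (CF.const (T := T) (b.smooth))
  convert h2 using 3 with t x
  simp

theorem thm_topCF : St_topCF := by
  intro N M b P T _ _ f
  constructor
  · intro hf
    obtain ⟨h1, K, hK⟩ := CF_of_continuous_map hf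
    obtain ⟨L, hL⟩ := exists_ballC_ge K
    refine ⟨h1, (L : ℝ), Nat.cast_nonneg L, fun t x hx => hK t x fun h => ?_⟩
    have h3 : x ∈ Metric.closedBall (0 : Phase N) (L : ℝ) := hL h
    exact absurd (mem_closedBall_zero_iff.1 h3) (not_le.2 hx)
  · rintro ⟨h1, R, hR, h2⟩
    refine continuous_map_of_CF h1 ⟨Metric.closedBall 0 R, isCompact_closedBall 0 R⟩ ?_
      (fun t x => rfl)
    intro t x hx
    refine h2 t x ?_
    by_contra h
    exact hx (mem_closedBall_zero_iff.2 (not_lt.1 h))

end Pool.Agent.KRW
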