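import Mathlib
import Pool.Agent.KRW.St
import Pool.Agent.KRW.Split

/-!
# TOP3: loops of rows and of fibrewise symplectic maps as smooth families

`thm_topR` and `thm_topF` take `St_topCF` as a hypothesis.
-/

set_option maxSynthPendingDepth 3

open scoped ContDiff Topology unitInterval
open Set Function TopologicalSpace Filter

namespace Pool.Agent.KRW

open Pool.Agent.Helper17 Pool.Agent.Helper42 Pool.Agent.H42.Hull

/-- a family of maps in `MapSp b P` -/
structure TOP3_Fam {N M : ℕ} (b : Sm N M) (P : (Phase N → Phase M) → Prop)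
    {T : Type} [TopologicalSpace T] (R : ℝ) (F : T → Phase N → Phase M) : Prop where
  cf : CF F
  std : ∀ t p, R < ‖p‖ → F t p = b.fn p
  prop : ∀ t, P (F t)

section

variable {N M : ℕ} {b : Sm N M} {P : (Phase N → Phase M) → Prop}

/-- a continuous map to `MapSp b P` is a family -/
lemma TOP3_fam (h : St_topCF) {T : Type} [TopologicalSpace T] [CompactSpace T]
    {f : T → MapSp b P} (hf : Continuous f) :
    ∃ R : ℝ, 0 ≤ R ∧ TOP3_Fam b P R (fun t => (f t).map.fn) := by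
  obtain ⟨h1, R, h2, h3⟩ := (h N M b P T f).1 hf
  exact ⟨R, h2, h1, h3, fun t => (f t).prop⟩

/-- the map to `MapSp b P` given by a family -/
noncomputable def TOP3_map {T : Type} [TopologicalSpace T] {R : ℝ} {F : T → Phase N → Phase M}
    (hF : TOP3_Fam b P R F) (t : T) : MapSp b P :=
  ⟨⟨F t, hF.cf.contDiff t⟩, ⟨⟨Metric.closedBall 0 R, isCompact_closedBall 0 R⟩, fun p hp =>
    hF.std t p (by
      by_contra h
      exact hp (mem_closedBall_zero_iff.2 (not_lt.1 h)))⟩, hF.prop t⟩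

lemma TOP3_map_continuous (h : St_topCF) {T : Type} [TopologicalSpace T] [CompactSpace T] {R : ℝ}
    {F : T → Phase N → Phase M} (hF : TOP3_Fam b P R F) : Continuous (TOP3_map hF) := by
  rw [h N M b P T]
  exact ⟨hF.cf, |R|, abs_nonneg _, fun t x hx => hF.std t x ((le_abs_self R).trans_lt hx)⟩

lemma TOP3_loop (h : St_topCF) {j : ℕ} {pt : MapSp b P} (hpt : ∀ p, pt.map.fn p = b.fn p)
    (R : ℝ) (F : (Fin j → I) → Phase N → Phase M) (hF : TOP3_Fam b P R F)
    (hbd : ∀ t ∈ Cube.boundary (Fin j), ∀ p, F t p = b.fn p) :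
    ∃ F' : GenLoop (Fin j) (MapSp b P) pt, ∀ t p, (F'.1 t).map.fn p = F t p :=
  ⟨⟨⟨TOP3_map hF, TOP3_map_continuous h hF⟩, fun t ht => MapSp.ext_fn (funext fun p => by
    change F t p = pt.map.fn p
    rw [hbd t ht p, hpt])⟩, fun t p => rfl⟩

lemma TOP3_cls (h : St_topCF) {j : ℕ} {pt : MapSp b P} (hpt : ∀ p, pt.map.fn p = b.fn p)
    (F F' : GenLoop (Fin j) (MapSp b P) pt) :
    GenLoop.Homotopic F F' ↔
      ∃ (R : ℝ) (H : (Fin j → I) × I → Phase N → Phase M),
      0 ≤ R ∧ TOP3_Fam b P R H ∧ (∀ t p, H (t, 0) p = (F.1 t).map.fn p) ∧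
      (∀ t p, H (t, 1) p = (F'.1 t).map.fn p) ∧
      ∀ t ∈ Cube.boundary (Fin j), ∀ s p, H (t, s) p = b.fn p := by
  constructor
  · rintro ⟨H⟩
    have hc : Continuous (fun q : (Fin j → I) × I => H (q.2, q.1)) :=
      H.continuous.comp (continuous_snd.prodMk continuous_fst)
    obtain ⟨R, h1, h2⟩ := TOP3_fam h hc
    refine ⟨R, _, h1, h2, fun t p => ?_, fun t p => ?_, fun t ht s p => ?_⟩
    · have h3 : H (0, t) = F.1 t := H.apply_zero t
      change (H (0, t)).map.fn p = _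
      rw [h3]
    · have h3 : H (1, t) = F'.1 t := H.apply_one t
      change (H (1, t)).map.fn p = _
      rw [h3]
    · have h3 : H (s, t) = F.1 t := ContinuousMap.HomotopyRel.eq_fst H s ht
      change (H (s, t)).map.fn p = _
      rw [h3, F.2 t ht, hpt]
  · rintro ⟨R, H, h1, h2, h3, h4, h5⟩
    have hc : Continuous (fun q : I × (Fin j → I) => TOP3_map h2 (q.2, q.1)) :=
      (TOP3_map_continuous h h2).comp (continuous_snd.prodMk continuous_fst)
    refine ⟨⟨⟨⟨fun q => TOP3_map h2 (q.2, q.1), hc⟩, fun t => ?_, fun t => ?_⟩,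
      fun s t ht => ?_⟩⟩
    · exact MapSp.ext_fn (funext fun p => h3 t p)
    · exact MapSp.ext_fn (funext fun p => h4 t p)
    · refine MapSp.ext_fn (funext fun p => ?_)
      change H (t, s) p = (F.1 t).map.fn p
      rw [h5 t ht s p, F.2 t ht, hpt]

end

/-! ### Rows -/

lemma TOP3_jfam {m k : ℕ} {T : Type} [TopologicalSpace T] {R : ℝ}
    {F : T → Phase (m + k) → Phase k} : JFam m k R F ↔ TOP3_Fam (Sm.z m k) IsPos R F := by
  constructor
  · rintro ⟨h1, h2, h3⟩
    exact ⟨h1, fun t p hp => by rw [h2 t p hp, prK_eq_fstPt]; rfl,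
      fun t => (isPos_iff _).2 (h3 t)⟩
  · rintro ⟨h1, h2, h3⟩
    exact ⟨h1, fun t p hp => by rw [h2 t p hp, prK_eq_fstPt]; rfl,
      fun t => (isPos_iff _).1 (h3 t)⟩

lemma TOP3_clsR (h : St_topCF) {j m k : ℕ} (F F' : LoopR j m k) : F.cls = F'.cls ↔
    ∃ (R : ℝ) (H : (Fin j → I) × I → Phase (m + k) → Phase k),
      0 ≤ R ∧ JFam m k R H ∧ (∀ t p, H (t, 0) p = F.at t p) ∧ (∀ t p, H (t, 1) p = F'.at t p) ∧
      ∀ t ∈ Cube.boundary (Fin j), ∀ s p, H (t, s) p = prK m k p := by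
  have h1 : F.cls = F'.cls ↔ GenLoop.Homotopic (N := Fin j) F F' := Quotient.eq
  rw [h1, TOP3_cls h (fun p => rfl) F F']
  simp only [TOP3_jfam, prK_eq_fstPt]
  rfl

theorem thm_topR (h : St_topCF) : St_topR := by
  intro j m k
  refine ⟨fun F => ?_, fun F t ht p => ?_, fun R F hF hbd => ?_, fun F F' => TOP3_clsR h F F',
    fun F => ?_⟩
  · obtain ⟨R, h1, h2⟩ := TOP3_fam h (f := fun t => F.1 t) F.1.continuous
    exact ⟨R, h1, TOP3_jfam.2 h2⟩
  · have h1 : F.1 t = RowSp.std := F.2 t ht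
    change (F.1 t).map.fn p = _
    rw [h1, prK_eq_fstPt]
    rfl
  · exact TOP3_loop h (pt := RowSp.std) (fun p => rfl) R F (TOP3_jfam.1 hF) fun t ht p => by
      rw [hbd t ht p, prK_eq_fstPt]
      rfl
  · have h1 : F.cls = PiR.triv j m k ↔
        LoopR.cls (GenLoop.const : GenLoop (Fin j) (RowSp m k) RowSp.std) = F.cls := eq_comm
    have h2 : ∀ t p, LoopR.at (GenLoop.const : GenLoop (Fin j) (RowSp m k) RowSp.std) t p =
        prK m k p := by
      intro t p
      rw [prK_eq_fstPt]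
      rfl
    refine h1.trans ((TOP3_clsR h _ _).trans ?_)
    constructor
    · rintro ⟨R, H, a1, a2, a3, a4, a5⟩
      exact ⟨R, H, a1, a2, fun t p => (a3 t p).trans (h2 t p), a4, a5⟩
    · rintro ⟨R, H, a1, a2, a3, a4, a5⟩
      exact ⟨R, H, a1, a2, fun t p => (a3 t p).trans (h2 t p).symm, a4, a5⟩

/-! ### Fibrewise symplectic maps -/

lemma TOP3_ffam {m k : ℕ} {T : Type} [TopologicalSpace T] {R : ℝ}
    {F : T → Phase (m + k) → Phase (m + k)} :
    FFam m k R F ↔ TOP3_Fam (Sm.one (m + k)) (IsFib m k) R F := by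
  constructor
  · rintro ⟨h1, h2, h3, h4⟩
    refine ⟨h1, h2, fun t => ⟨(isPos_iff _).2 ?_, fun p u v hu hv => ?_⟩⟩
    · have h5 := h3 t
      simp only [prK_eq_fstPt] at h5
      exact h5
    · have h5 := h4 t p u v
      simp only [prK_eq_fstPt, prW_eq_lstPt] at h5
      exact h5 hu hv
  · rintro ⟨h1, h2, h3⟩
    refine ⟨h1, h2, fun t => ?_, fun t p u v => ?_⟩
    · have h5 := (isPos_iff _).1 (h3 t).1
      simp only [prK_eq_fstPt]
      exact h5
    · simp only [prK_eq_fstPt, prW_eq_lstPt]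
      exact (h3 t).2 p u v

lemma TOP3_clsF (h : St_topCF) {j m k : ℕ} (F F' : LoopF j m k) : F.cls = F'.cls ↔
    ∃ (R : ℝ) (H : (Fin j → I) × I → Phase (m + k) → Phase (m + k)),
      0 ≤ R ∧ FFam m k R H ∧ (∀ t p, H (t, 0) p = F.at t p) ∧ (∀ t p, H (t, 1) p = F'.at t p) ∧
      ∀ t ∈ Cube.boundary (Fin j), ∀ s p, H (t, s) p = p := by
  have h1 : F.cls = F'.cls ↔ GenLoop.Homotopic (N := Fin j) F F' := Quotient.eq
  rw [h1, TOP3_cls h (fun p => rfl) F F']
  simp only [TOP3_ffam]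
  rfl

theorem thm_topF (h : St_topCF) : St_topF := by
  intro j m k
  refine ⟨fun F => ?_, fun F t ht p => ?_, fun R F hF hbd => ?_, fun F F' => TOP3_clsF h F F'⟩
  · obtain ⟨R, h1, h2⟩ := TOP3_fam h (f := fun t => F.1 t) F.1.continuous
    exact ⟨R, h1, TOP3_ffam.2 h2⟩
  · have h1 : F.1 t = FibSp.std := F.2 t ht
    change (F.1 t).map.fn p = _
    rw [h1]
    rfl
  · exact TOP3_loop h (pt := FibSp.std) (fun p => rfl) R F (TOP3_ffam.1 hF) fun t ht p =>
      hbd t ht p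

end Pool.Agent.KRW
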