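import Mathlib
import Pool.Agent.KRW.St
import Pool.Agent.KRW.Split
import Pool.Agent.H50.Susp.Straighten

/-!
# KRW, module TR1: the trivialisation of a family of rows along the horizontal curves

`thm_triv1` has the hypotheses `St_lin1`, `St_jposTame`, `St_hlStd`, `St_hor`.
-/

set_option maxSynthPendingDepth 3

open scoped ContDiff Topology unitInterval
open Set Function TopologicalSpace Filter

namespace Pool.Agent.KRW

open Pool.Agent.Helper17 Pool.Agent.Helper42 Pool.Agent.H42.Hull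
open Pool.Agent.H50.Susp (exists_bound_of_support exists_global_flow ode_unique ode_unique_univ
  isOpen_outside)

section general

variable {E E' : Type} [NormedAddCommGroup E] [NormedSpace ℝ E] [NormedAddCommGroup E']
  [NormedSpace ℝ E']

/-- A function with derivative zero on `[0,1]` is constant. -/
lemma tr1_const {g : ℝ → E'} (hg : ∀ s ∈ Icc (0 : ℝ) 1, HasDerivAt g 0 s) :
    ∀ s ∈ Icc (0 : ℝ) 1, g s = g 0 := by
  intro s hs
  have h := (convex_Icc (0 : ℝ) 1).norm_image_sub_le_of_norm_hasDerivWithin_le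
    (f := g) (f' := fun _ => 0) (C := 0) (fun t ht => (hg t ht).hasDerivWithinAt)
    (fun t _ => by simp) (left_mem_Icc.2 zero_le_one) hs
  rw [zero_mul, norm_le_zero_iff, sub_eq_zero] at h
  exact h

/-- The derivative of the flow of a field `X` with `DF (X)` constant preserves `DF`. -/
lemma tr1_ker {F : E → E'} {X : E → E} (hF : ContDiff ℝ ∞ F) (hX : Differentiable ℝ X) (b : E')
    (hb : ∀ x, fderiv ℝ F x (X x) = b) {r : ℝ → E} {A : ℝ → E →L[ℝ] E}
    (hr : ∀ s ∈ Icc (0 : ℝ) 1, HasDerivAt r (X (r s)) s)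
    (hA : ∀ s ∈ Icc (0 : ℝ) 1, HasDerivAt A ((fderiv ℝ X (r s)).comp (A s)) s) (u : E) :
    ∀ s ∈ Icc (0 : ℝ) 1, fderiv ℝ F (r s) (A s u) = fderiv ℝ F (r 0) (A 0 u) := by
  have hF1 : ContDiff ℝ ∞ (fderiv ℝ F) := hF.fderiv_right (by simp)
  refine tr1_const (g := fun s => fderiv ℝ F (r s) (A s u)) fun s hs => ?_
  have hD1 : HasDerivAt (fun s => fderiv ℝ F (r s)) (fderiv ℝ (fderiv ℝ F) (r s) (X (r s))) s :=
    (hF1.differentiable (by simp) _).hasFDerivAt.comp_hasDerivAt s (hr s hs)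
  have hD2 : HasDerivAt (fun s => A s u) (fderiv ℝ X (r s) (A s u)) s := by
    have := (hA s hs).clm_apply (hasDerivAt_const s u)
    simpa using this
  have hD3 := hD1.clm_apply hD2
  refine hD3.congr_deriv ?_
  have h1 : HasFDerivAt (fun x => fderiv ℝ F x (X x)) _ (r s) :=
    (hF1.differentiable (by simp) (r s)).hasFDerivAt.clm_apply (hX (r s)).hasFDerivAt
  have h2 : (fun x => fderiv ℝ F x (X x)) = fun _ => b := funext hb
  rw [h2] at h1
  have h3 := congrArg (fun L : E →L[ℝ] E' => L (A s u)) (h1.unique (hasFDerivAt_const b (r s)))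
  have hsymm : fderiv ℝ (fderiv ℝ F) (r s) (X (r s)) (A s u) =
      fderiv ℝ (fderiv ℝ F) (r s) (A s u) (X (r s)) :=
    (hF.contDiffAt (x := r s)).isSymmSndFDerivAt
      (by rw [minSmoothness_of_isRCLikeNormedField]; exact WithTop.coe_le_coe.2 le_top) _ _
  rw [hsymm]
  have h4 : fderiv ℝ F (r s) (fderiv ℝ X (r s) (A s u)) +
      fderiv ℝ (fderiv ℝ F) (r s) (A s u) (X (r s)) = 0 := h3
  rw [add_comm]
  exact h4

omit [NormedSpace ℝ E'] in
/-- A continuous function on a nontrivial normed space which is constant for `r < ‖q‖` is so for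
`r ≤ ‖q‖`. -/
lemma tr1_closure {Y : E → E'} (hY : Continuous Y) {e : E} (he : e ≠ 0) {b : E'} {r : ℝ}
    (h : ∀ q, r < ‖q‖ → Y q = b) (q : E) (hq : r ≤ ‖q‖) : Y q = b := by
  obtain ⟨w, hw⟩ : ∃ w : E, ∀ ε : ℝ, 0 < ε → ‖q‖ < ‖q + ε • w‖ := by
    by_cases h0 : q = 0
    · refine ⟨e, fun ε hε => ?_⟩
      rw [h0, norm_zero, zero_add, norm_smul]
      exact mul_pos (norm_pos_iff.2 hε.ne') (norm_pos_iff.2 he)
    · refine ⟨q, fun ε hε => ?_⟩
      have h1 : q + ε • q = (1 + ε) • q := by rw [add_smul, one_smul]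
      rw [h1, norm_smul, Real.norm_eq_abs, abs_of_pos (by linarith)]
      have h2 : 0 < ‖q‖ := norm_pos_iff.2 h0
      nlinarith
  have hcl : IsClosed {ε : ℝ | Y (q + ε • w) = b} :=
    isClosed_eq (hY.comp (continuous_const.add (continuous_id.smul continuous_const)))
      continuous_const
  have hsub : Ioi (0 : ℝ) ⊆ {ε : ℝ | Y (q + ε • w) = b} := fun ε hε =>
    h _ (lt_of_le_of_lt hq (hw ε hε))
  have h1 := closure_minimal hsub hcl
  rw [closure_Ioi] at h1
  have h2 : Y (q + (0 : ℝ) • w) = b := h1 (Set.mem_Ici.mpr le_rfl)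
  rwa [zero_smul, add_zero] at h2

end general

theorem thm_triv1 (h1 : St_lin1) (h2 : St_jposTame) (h3 : St_hlStd) (h4 : St_hor) :
    St_triv1 := by
  intro m k T _ _ R F hR hF
  obtain ⟨e, he⟩ : ∃ e : Phase (m + (k + 1)), e = incK m (k + 1) (eB k) := ⟨_, rfl⟩
  have hen : ‖e‖ = 1 := by rw [he, norm_incK, norm_eB]
  have he0 : e ≠ 0 := by
    intro h
    rw [h, norm_zero] at hen
    exact zero_ne_one hen
  have hyB : ∀ (p : Phase (m + (k + 1))) (s : ℝ), yB (p + s • e) = yB p + s := fun p s => by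
    rw [he]; exact yB_add_smul p s
  have hsB : ∀ (p : Phase (m + (k + 1))) (s : ℝ), sideB (p + s • e) = sideB p := fun p s => by
    rw [he]; exact sideB_add_smul p s
  have hpW : ∀ (p : Phase (m + (k + 1))) (s : ℝ),
      prW m (k + 1) (p + s • e) = prW m (k + 1) p := fun p s => by
    rw [he]; exact prW_add_smul p s
  have hpK : ∀ (p : Phase (m + (k + 1))) (s : ℝ),
      prK m (k + 1) (p + s • e) = prK m (k + 1) p + s • eB k := fun p s => by
    rw [he]; exact prK_add_smul p s
  have hsub : ∀ (p : Phase (m + (k + 1))) (c : ℝ), p - c • e = p + (-c) • e := fun p c => by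
    rw [neg_smul, sub_eq_add_neg]
  -- tameness and the field
  have htame : ∀ t p, TameL (fderiv ℝ (F t) p) := fun t =>
    (h2 _ _ (F t) (hF.cf.differentiable t)).1 (hF.pos t)
  obtain ⟨Y, hYdef⟩ : ∃ Y : T → Phase (m + (k + 1)) → Phase (m + (k + 1)),
      ∀ t p, Y t p = hl (fderiv ℝ (F t) p) (eB k) := ⟨fun t p => _, fun _ _ => rfl⟩
  have hYfun : Y = fun t p => hl (fderiv ℝ (F t) p) (eB k) := by
    funext t p
    exact hYdef t p
  have hY : CF Y := by
    rw [hYfun]
    exact CF.comp_smooth (g := fun B : Phase (m + (k + 1)) →L[ℝ] Phase (k + 1) => hl B (eB k))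
      (fun t p => (h1 _ _ _ (htame t p)).2.2.2.2.1.clm_apply contDiffAt_const) hF.cf.fderiv
  have hDY : ∀ t p, fderiv ℝ (F t) p (Y t p) = eB k := fun t p => by
    rw [hYdef]; exact (h1 _ _ _ (htame t p)).1 _
  have hstdY : ∀ t (r : ℝ), (∀ p, r < ‖p‖ → F t p = prK m (k + 1) p) →
      ∀ p, r < ‖p‖ → fderiv ℝ (F t) p = prK m (k + 1) ∧ Y t p = e := by
    intro t r hr p hp
    have h5 : F t =ᶠ[𝓝 p] prK m (k + 1) := by
      filter_upwards [(isOpen_lt continuous_const continuous_norm).mem_nhds hp] with q hq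
      exact hr q hq
    have h6 : fderiv ℝ (F t) p = prK m (k + 1) := by
      rw [h5.fderiv_eq, ContinuousLinearMap.fderiv]
    refine ⟨h6, ?_⟩
    rw [hYdef, h6, (h3 m (k + 1)).2, he]
  have hY1 : ∀ t p, R < ‖p‖ → Y t p = e := fun t p hp => (hstdY t R (hF.std t) p hp).2
  have hYd : ∀ t p, R < ‖p‖ → fderiv ℝ (Y t) p = 0 := by
    intro t p hp
    have h5 : Y t =ᶠ[𝓝 p] fun _ => e := by
      filter_upwards [(isOpen_outside R).mem_nhds hp] with q hq
      exact hY1 t q hq
    rw [h5.fderiv_eq]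
    exact fderiv_const_apply _
  obtain ⟨ℓ, hℓ0, hℓ⟩ := exists_bound_of_support hY.fderiv.continuous hYd
  obtain ⟨θ, hθ0, hθd, hθg, hθCF, hval⟩ := exists_global_flow Y hY hℓ
  have hL : ∀ t, LipschitzWith (Real.toNNReal ℓ) (Y t) := by
    intro t
    apply LipschitzWith.of_dist_le_mul
    intro x y
    rw [dist_eq_norm, dist_eq_norm, Real.coe_toNNReal _ hℓ0]
    exact convex_univ.norm_image_sub_le_of_norm_fderiv_le (𝕜 := ℝ)
      (fun z _ => hY.differentiable t z) (fun z _ => hℓ t z) (mem_univ y) (mem_univ x)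
  -- straight motion
  have straight : ∀ t p (c : ℝ), (∀ u ∈ Icc (0 : ℝ) 1, Y t (p + (u * c) • e) = e) →
      θ t c p = p + c • e := by
    intro t p c hc
    obtain ⟨r, A, r0, -, hr, -, r1, -⟩ := hval t c p
    have hLc : LipschitzWith (‖c‖₊ * Real.toNNReal ℓ) (fun y => c • Y t y) :=
      (lipschitzWith_smul (α := ℝ) (β := Phase (m + (k + 1))) c).comp (hL t)
    have h5 := ode_unique hLc hr (r' := fun u => p + (u * c) • e) (by
      intro s hs
      have h6 : HasDerivAt (fun u : ℝ => p + (u * c) • e) ((1 * c) • e) s :=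
        (((hasDerivAt_id s).mul_const c).smul_const e).const_add p
      refine h6.congr_deriv ?_
      rw [hc s hs, one_mul]) (by simp [r0])
    have h6 := h5 (right_mem_Icc.2 zero_le_one)
    rw [← r1, h6]
    simp only [one_mul]
  have energy : ∀ t (c : ℝ) p, F t (θ t c p) = F t p + c • eB k := by
    intro t c p
    have hd : ∀ s, HasDerivAt (fun s => F t (θ t s p) - s • eB k) 0 s := by
      intro s
      have h5 : HasDerivAt (fun s => F t (θ t s p)) (fderiv ℝ (F t) (θ t s p)
          (Y t (θ t s p))) s :=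
        (hF.cf.differentiable t _).hasFDerivAt.comp_hasDerivAt s (hθd t p s)
      have h6 : HasDerivAt (fun s : ℝ => s • eB k) ((1 : ℝ) • eB k) s :=
        (hasDerivAt_id s).smul_const (eB k)
      refine (h5.sub h6).congr_deriv ?_
      rw [hDY, one_smul, sub_self]
    have h5 := is_const_of_deriv_eq_zero (f := fun s => F t (θ t s p) - s • eB k)
      (fun s => (hd s).differentiableAt) (fun s => (hd s).deriv) c 0
    simp only [hθ0, zero_smul, sub_zero] at h5
    rw [← h5, sub_add_cancel]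
  -- the radius
  obtain ⟨C, hC0, hC⟩ := exists_bound_of_support (G := fun t (p : Phase (m + (k + 1))) =>
    F t p - prK m (k + 1) p) (R := R) (hF.cf.continuous.sub
      ((prK m (k + 1)).continuous.comp continuous_snd)) (by
      intro t p hp
      show F t p - prK m (k + 1) p = 0
      rw [hF.std t p hp, sub_self])
  have hFn : ∀ t p, |(F t p) (Sum.inr 0)| ≤ ‖p‖ + C := by
    intro t p
    have h5 : |(F t p) (Sum.inr 0)| ≤ ‖F t p‖ := by
      have := PiLp.norm_apply_le (F t p) (Sum.inr 0)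
      simpa using this
    have h6 : ‖F t p‖ ≤ ‖F t p - prK m (k + 1) p‖ + ‖prK m (k + 1) p‖ := by
      have := norm_add_le (F t p - prK m (k + 1) p) (prK m (k + 1) p)
      rwa [sub_add_cancel] at this
    have h7 := hC t p
    have h8 := norm_prK_le p
    linarith
  obtain ⟨R', hR'⟩ : ∃ R' : ℝ, R' = R + C + 1 := ⟨_, rfl⟩
  have hRR' : R < R' := by linarith
  have hR'0 : 0 < R' := by linarith
  have hfar : ∀ t p, R' ≤ |(F t p) (Sum.inr 0)| → R < ‖p‖ := by
    intro t p h5
    by_contra h6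
    push Not at h6
    have := hFn t p
    linarith
  have hfar' : ∀ p : Phase (m + (k + 1)), R' ≤ |yB p| → R < ‖p‖ := fun p h5 =>
    hRR'.trans_le (h5.trans (abs_yB_le p))
  -- straight motion, below and above
  have hbelow : ∀ t p (c : ℝ), yB p ≤ -R' → yB p + c ≤ -R' → θ t c p = p + c • e := by
    intro t p c h5 h6
    refine straight t p c fun u hu => hY1 t _ (hfar' _ ?_)
    rw [hyB]
    have h7 : yB p + u * c ≤ -R' := by nlinarith [hu.1, hu.2]
    rw [le_abs]
    right
    linarith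
  have habove : ∀ t p (c : ℝ), R' ≤ yB p → 0 ≤ c → θ t c p = p + c • e := by
    intro t p c h5 h6
    refine straight t p c fun u hu => hY1 t _ (hfar' _ ?_)
    rw [hyB]
    have h7 : 0 ≤ u * c := mul_nonneg hu.1 h6
    rw [le_abs]
    left
    linarith
  -- the maps
  obtain ⟨Ξ, hΞdef⟩ : ∃ Ξ : T → Phase (m + (k + 1)) → Phase (m + (k + 1)),
      ∀ t p, Ξ t p = θ t (yB p + R') (p - (yB p + R') • e) := ⟨fun t p => _, fun _ _ => rfl⟩
  have hΞ : ∀ t p (c : ℝ), yB p + R' ≤ c → Ξ t p = θ t c (p - c • e) := by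
    intro t p c hc
    have h5 : yB (p - c • e) = yB p - c := by rw [hsub, hyB]; ring
    have h6 : θ t (c - (yB p + R')) (p - c • e) = p - (yB p + R') • e := by
      rw [hbelow t _ _ (by rw [h5]; linarith) (by rw [h5]; linarith), sub_smul]
      abel
    rw [hΞdef, ← h6, ← hθg]
    congr 1
    ring
  obtain ⟨Θ, hΘdef⟩ : ∃ Θ : T → Phase (m + (k + 1)) → Phase (m + (k + 1)),
      ∀ t p, Θ t p = θ t (-((F t p) (Sum.inr 0) + R')) p +
        ((F t p) (Sum.inr 0) + R') • e := ⟨fun t p => _, fun _ _ => rfl⟩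
  have hyF : ∀ t p (c : ℝ), (F t (θ t c p)) (Sum.inr 0) = (F t p) (Sum.inr 0) + c := by
    intro t p c
    rw [energy, PiLp.add_apply, PiLp.smul_apply, eB_inr, smul_eq_mul, mul_one]
  have hΘ : ∀ t p (c : ℝ), (F t p) (Sum.inr 0) + R' ≤ c → Θ t p = θ t (-c) p + c • e := by
    intro t p c hc
    obtain ⟨y, hy⟩ : ∃ y : ℝ, y = (F t p) (Sum.inr 0) := ⟨_, rfl⟩
    rw [hΘdef, ← hy]
    rw [← hy] at hc
    obtain ⟨q, hq⟩ : ∃ q, q = θ t (-(y + R')) p := ⟨_, rfl⟩
    have h5 : (F t q) (Sum.inr 0) = -R' := by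
      rw [hq, hyF, ← hy]
      ring
    have h6 : R < ‖q‖ := hfar t q (by rw [h5, abs_neg]; exact le_abs_self R')
    have h7 : yB q = -R' := by
      rw [← h5, hF.std t q h6]
      rfl
    have h8 : θ t (-c) p = θ t (-(c - (y + R'))) q := by
      rw [hq, ← hθg]
      congr 1
      ring
    rw [h8, hbelow t q _ h7.le (by rw [h7]; linarith), ← hq, neg_smul, sub_smul]
    abel
  have hfix : ∀ c : ℝ, CF (fun t p => θ t c p) := by
    intro c
    have hm : c ∈ Icc (-|c|) |c| := ⟨neg_abs_le c, le_abs_self c⟩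
    exact (hθCF |c|).base (h := fun t : T => (t, (⟨c, hm⟩ : Icc (-|c|) |c|)))
      (continuous_id.prodMk continuous_const)
  have hopen : ∀ a : ℝ, IsOpen {p : Phase (m + (k + 1)) | ‖p‖ < a} := fun a =>
    isOpen_lt continuous_norm continuous_const
  have hlies : ∀ t p, F t (Ξ t p) = prK m (k + 1) p := by
    intro t p
    have h5 : yB (p - (yB p + R') • e) = -R' := by rw [hsub, hyB]; ring
    have h6 : R < ‖p - (yB p + R') • e‖ := hfar' _ (by
      rw [h5, abs_neg]; exact le_abs_self R')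
    rw [hΞdef, energy, hF.std t _ h6, hsub, hpK, neg_smul]
    abel
  have hrayK : ∀ t p, R' ≤ yB p → R < ‖Ξ t p‖ ∧ prK m (k + 1) (Ξ t p) = prK m (k + 1) p := by
    intro t p hp
    have h5 : (F t (Ξ t p)) (Sum.inr 0) = yB p := by rw [hlies]; rfl
    have h6 : R < ‖Ξ t p‖ := hfar t _ (by rw [h5]; exact hp.trans (le_abs_self _))
    exact ⟨h6, by rw [← hF.std t _ h6, hlies]⟩
  have hside' : ∀ t (r : ℝ), (∀ p, r < ‖p‖ → F t p = prK m (k + 1) p) →
      ∀ p, (∀ s : ℝ, r ≤ ‖p + s • e‖) → Ξ t p = p := by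
    intro t r hr p hp
    have h5 : ∀ q, r ≤ ‖q‖ → Y t q = e := fun q hq =>
      tr1_closure (hY.contDiff t).continuous he0 (fun q hq => (hstdY t r hr q hq).2) q hq
    rw [hΞdef, straight t _ _ fun u _ => h5 _ ?_, sub_add_cancel]
    rw [hsub, add_assoc, ← add_smul]
    exact hp _
  -- the curves
  have hcurve : ∀ t p (s : ℝ), Ξ t (p + s • e) =
      θ t (yB p + R' + s) (p - (yB p + R') • e) := by
    intro t p s
    rw [hΞ t (p + s • e) (yB p + R' + s) (by rw [hyB]; linarith), add_smul]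
    congr 1
    abel
  refine ⟨R', Ξ, Θ, hRR', ?_⟩
  constructor
  · exact hR'0
  · -- cfX
    apply Pool.Agent.H50.Susp.CF.of_local
    intro x
    refine ⟨{p | ‖p‖ < ‖x‖ + 1}, fun t p => θ t (‖x‖ + 1 + R') (p - (‖x‖ + 1 + R') • e),
      hopen _, by simp, (hfix _).comp (CF.const (contDiff_id.sub contDiff_const)), ?_⟩
    intro t p hp
    refine hΞ t p _ ?_
    have h5 := (le_abs_self (yB p)).trans (abs_yB_le p)
    have h6 : ‖p‖ < ‖x‖ + 1 := hp
    linarith
  · -- cfT
    apply Pool.Agent.H50.Susp.CF.of_local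
    intro x
    refine ⟨{p | ‖p‖ < ‖x‖ + 1}, fun t p => θ t (-(‖x‖ + 1 + C + R')) p +
      (‖x‖ + 1 + C + R') • e, hopen _, by simp, (hfix _).add (CF.const contDiff_const), ?_⟩
    intro t p hp
    refine hΘ t p _ ?_
    have h5 := (le_abs_self _).trans (hFn t p)
    have h6 : ‖p‖ < ‖x‖ + 1 := hp
    linarith
  · -- left_inv
    intro t p
    obtain ⟨c, hc1, hc2⟩ : ∃ c : ℝ, (F t (Ξ t p)) (Sum.inr 0) + R' ≤ c ∧ yB p + R' ≤ c :=
      ⟨max _ _, le_max_left _ _, le_max_right _ _⟩
    rw [hΘ t (Ξ t p) c hc1, hΞ t p c hc2, ← hθg, neg_add_cancel, hθ0, sub_add_cancel]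
  · -- right_inv
    intro t p
    obtain ⟨c, hc1, hc2⟩ : ∃ c : ℝ, yB (Θ t p) + R' ≤ c ∧ (F t p) (Sum.inr 0) + R' ≤ c :=
      ⟨max _ _, le_max_left _ _, le_max_right _ _⟩
    rw [hΞ t (Θ t p) c hc1, hΘ t p c hc2, add_sub_cancel_right, ← hθg, add_neg_cancel, hθ0]
  · exact hlies
  · -- symp
    intro t p v w
    obtain ⟨c, hc⟩ : ∃ c : ℝ, c = ‖p‖ + 1 + R' := ⟨_, rfl⟩
    have h5 : Ξ t =ᶠ[𝓝 p] fun q => θ t c (q - c • e) := by
      filter_upwards [(hopen (‖p‖ + 1)).mem_nhds (show ‖p‖ < ‖p‖ + 1 by linarith)] with q hq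
      refine hΞ t q _ ?_
      have h6 := (le_abs_self (yB q)).trans (abs_yB_le q)
      have h7 : ‖q‖ < ‖p‖ + 1 := hq
      linarith
    have hyp : yB (p - c • e) ≤ -R' := by
      rw [hsub, hyB]
      have h6 := (le_abs_self (yB p)).trans (abs_yB_le p)
      linarith
    have hfarp : R < ‖p - c • e‖ := hfar' _ (by rw [le_abs]; right; linarith)
    have h6 : fderiv ℝ (Ξ t) p = fderiv ℝ (θ t c) (p - c • e) := by
      rw [h5.fderiv_eq]
      exact fderiv_comp_sub (c • e)
    rw [h6]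
    obtain ⟨r, A, r0, A0, hr, hA, r1, A1⟩ := hval t c (p - c • e)
    have hXd : ∀ x, fderiv ℝ (fun y => c • Y t y) x = c • fderiv ℝ (Y t) x := fun x =>
      ((hY.differentiable t x).hasFDerivAt.const_smul c).fderiv
    have hX : Differentiable ℝ (fun y => c • Y t y) := (hY.differentiable t).const_smul c
    have hA' : ∀ s ∈ Icc (0 : ℝ) 1, HasDerivAt A
        ((fderiv ℝ (fun y => c • Y t y) (r s)).comp (A s)) s := by
      intro s hs
      refine (hA s hs).congr_deriv ?_
      rw [hXd]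
      rfl
    have hker : ∀ (v : Phase m), ∀ s ∈ Icc (0 : ℝ) 1,
        fderiv ℝ (F t) (r s) (A s (incW m (k + 1) v)) = 0 := by
      intro v s hs
      rw [tr1_ker (hF.cf.contDiff t) hX (c • eB k) (fun x => by
        rw [map_smul, hDY]) hr hA' (incW m (k + 1) v) s hs, r0, A0,
        (hstdY t R (hF.std t) _ hfarp).1]
      exact prK_incW v
    have h7 := h4 (m + (k + 1)) (k + 1) (fun _ => F t) (fun _ => fun y => c • Y t y) r A
      (fun _ => hF.cf.contDiff t) (fun _ => hX) (fun _ _ x => htame t x) (by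
        intro s _ x v hv
        show omegaStd (c • Y t x) v = 0
        rw [omegaStd_smul_left, hYdef, (h1 _ _ _ (htame t x)).2.1 _ v hv, mul_zero]) hr hA'
      (incW m (k + 1) v) (incW m (k + 1) w) (hker v) (hker w)
    rw [A1, A0] at h7
    rw [h7]
    exact omegaStd_incW v w
  · -- left
    intro t p hp
    rw [hΞ t p 0 (by linarith), hθ0, zero_smul, sub_zero]
  · -- side
    intro t p hp
    refine hside' t R (hF.std t) p fun s => ?_
    rcases hp with hp | hp
    · have h5 := norm_sideB_le (p + s • e)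
      rw [hsB] at h5
      linarith
    · have h5 := norm_prW_le (p + s • e)
      rw [hpW] at h5
      linarith
  · -- side'
    intro t r hr p hp
    refine hside' t r hr p fun s => ?_
    have h5 := norm_sideB_le (p + s • e)
    rw [hsB] at h5
    linarith
  · -- ray
    intro t p s hp hs
    rw [← he]
    obtain ⟨h5, h6⟩ := hrayK t p hp
    have h7 : yB (Ξ t p) = yB p := by
      show (prK m (k + 1) (Ξ t p)) (Sum.inr 0) = _
      rw [h6]
      rfl
    rw [hcurve, add_comm (yB p + R') s, hθg, ← hΞdef]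
    exact habove t (Ξ t p) s (by rw [h7]; exact hp) hs
  · -- rayK
    exact fun t p hp => (hrayK t p hp).2
  · -- triv
    intro t ht p
    exact hside' t (-1) (fun q _ => ht q) p fun s => by
      have := norm_nonneg (p + s • e)
      linarith
  · -- hor
    intro t p s
    rw [← he]
    refine ⟨Y t (Ξ t (p + s • e)), ?_, hDY t _, ?_⟩
    · have h5 : (fun s : ℝ => Ξ t (p + s • e)) = fun s =>
          (fun τ => θ t τ (p - (yB p + R') • e)) (yB p + R' + s) := by
        funext s
        exact hcurve t p s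
      rw [h5]
      have h6 := (hθd t (p - (yB p + R') • e) (yB p + R' + s)).scomp s
        ((hasDerivAt_id s).const_add (yB p + R'))
      rw [one_smul] at h6
      rw [hcurve]
      exact h6
    · intro w hw
      rw [hYdef]
      exact (h1 _ _ _ (htame t _)).2.1 _ w hw
  · -- uniq
    intro t c hc s s'
    rw [← he]
    have hcd : ∀ s, HasDerivAt c (Y t (c s)) s := by
      intro s
      obtain ⟨v, hv1, hv2, hv3⟩ := hc s
      have hv2' : fderiv ℝ (F t) (c s) v = eB k := hv2
      have h5 : v = Y t (c s) := by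
        rw [(h1 _ _ _ (htame t (c s))).2.2.1 v (fun w hw => hv3 w hw), hv2', hYdef]
      rw [← h5]
      exact hv1
    have h5 : c s' = θ t (s' - s) (c s) := by
      have h6 := ode_unique_univ (hL t) (r := fun τ => c (s + τ)) (r' := fun τ => θ t τ (c s))
        (a := 0) (by
          intro τ
          have h7 := (hcd (s + τ)).scomp τ ((hasDerivAt_id τ).const_add s)
          rw [one_smul] at h7
          exact h7) (fun τ => hθd t (c s) τ) (by
          show c (s + 0) = θ t 0 (c s)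
          rw [add_zero, hθ0])
      have h7 := congrFun h6 (s' - s)
      have h8 : s + (s' - s) = s' := by ring
      rw [← h7]
      show c s' = c (s + (s' - s))
      rw [h8]
    obtain ⟨d, hd1, hd2⟩ : ∃ d : ℝ, (F t (c s')) (Sum.inr 0) + R' ≤ d ∧
        (F t (c s)) (Sum.inr 0) + R' ≤ d - (s' - s) := by
      refine ⟨max ((F t (c s')) (Sum.inr 0) + R') ((F t (c s)) (Sum.inr 0) + R' + (s' - s)),
        le_max_left _ _, ?_⟩
      have := le_max_right ((F t (c s')) (Sum.inr 0) + R')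
        ((F t (c s)) (Sum.inr 0) + R' + (s' - s))
      linarith
    rw [hΘ t (c s') d hd1, hΘ t (c s) _ hd2, h5, ← hθg]
    have h6 : -d + (s' - s) = -(d - (s' - s)) := by ring
    rw [h6, add_assoc, ← add_smul]
    congr 2
    ring

end Pool.Agent.KRW
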