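import Mathlib
import Pool.Agent.KRW.St
import Pool.Agent.KRW.Split

/-!
# The trivialisation along the horizontal curves: the exit map

No hypotheses.
-/

set_option maxSynthPendingDepth 3

open scoped ContDiff Topology unitInterval
open Set Function TopologicalSpace Filter

namespace Pool.Agent.KRW

open Pool.Agent.Helper17 Pool.Agent.Helper42 Pool.Agent.H42.Hull

variable {m k : ℕ}

/-- The coordinate `y_0` as a linear map. -/
noncomputable def TR2_yL (m k : ℕ) : Phase (m + (k + 1)) →L[ℝ] ℝ :=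
  (EuclideanSpace.proj (Sum.inr (0 : Fin (k + 1))) : Phase (k + 1) →L[ℝ] ℝ).comp (prK m (k + 1))

lemma TR2_yL_apply (p : Phase (m + (k + 1))) : TR2_yL m k p = yB p := rfl

/-- Translation to the hyperplane `y_0 = r`. -/
noncomputable def TR2_g (r : ℝ) (p : Phase (m + (k + 1))) : Phase (m + (k + 1)) :=
  p + (r - yB p) • incK m (k + 1) (eB k)

lemma TR2_g_smooth (r : ℝ) : ContDiff ℝ ∞ (TR2_g (m := m) (k := k) r) :=
  contDiff_id.add ((contDiff_const.sub contDiff_yB).smul contDiff_const)

lemma TR2_g_deriv (r : ℝ) (p : Phase (m + (k + 1))) :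
    HasFDerivAt (TR2_g (m := m) (k := k) r)
      (ContinuousLinearMap.id ℝ (Phase (m + (k + 1))) +
        (0 - TR2_yL m k).smulRight (incK m (k + 1) (eB k))) p := by
  have h1 : HasFDerivAt (fun p : Phase (m + (k + 1)) => r - yB p) (0 - TR2_yL m k) p :=
    (hasFDerivAt_const r p).sub (TR2_yL m k).hasFDerivAt
  exact (hasFDerivAt_id p).add (h1.smul_const (incK m (k + 1) (eB k)))

lemma TR2_yB_g (r : ℝ) (p : Phase (m + (k + 1))) : yB (TR2_g r p) = r := by
  rw [TR2_g, yB_add_smul]
  ring

lemma TR2_g_shift (r : ℝ) (p : Phase (m + (k + 1))) (s : ℝ) :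
    TR2_g r (p + s • incK m (k + 1) (eB k)) = TR2_g r p := by
  rw [TR2_g, TR2_g, yB_add_smul, add_assoc, ← add_smul]
  congr 2
  ring

/-- TR2. The exit map. -/
theorem thm_triv2 : St_triv2 := by
  intro m k T _ R R' F Ξ Θ hR hF hRR' hX
  have hlt : ∀ t p, R' ≤ |yB p| → F t p = prK m (k + 1) p := fun t p h =>
    hF.std t p (lt_of_lt_of_le hRR' (h.trans (abs_yB_le p)))
  set E : T → Phase (m + (k + 1)) → Phase m := fun t p => prW m (k + 1) (Ξ t (TR2_g R' p)) with hE
  -- the exit map does not depend on the coordinate y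
  have hexit : ∀ t p (s : ℝ), E t (p + s • incK m (k + 1) (eB k)) = E t p := by
    intro t p s
    simp only [hE]
    rw [TR2_g_shift]
  -- right
  have hright : ∀ t p, R' ≤ yB p → Ξ t p = mkB m (k + 1) (prK m (k + 1) p) (E t p) := by
    intro t p hp
    have h1 : TR2_g R' p + (yB p - R') • incK m (k + 1) (eB k) = p := by
      rw [TR2_g, add_assoc, ← add_smul]
      simp
    have h2 := hX.ray t (TR2_g R' p) (yB p - R') (by rw [TR2_yB_g]) (by linarith)
    rw [h1] at h2
    apply ext_split
    · rw [prK_mkB, hX.rayK t p hp]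
    · rw [prW_mkB, h2, prW_add_smul]
  -- side
  have hside : ∀ t p, Ξ t (TR2_g R' p) = TR2_g R' p → E t p = prW m (k + 1) p := by
    intro t p h
    simp only [hE]
    rw [h, TR2_g, prW_add_smul]
  have hsB : ∀ p : Phase (m + (k + 1)), sideB (TR2_g R' p) = sideB p := fun p => by
    rw [TR2_g, sideB_add_smul]
  have hsW : ∀ p : Phase (m + (k + 1)), prW m (k + 1) (TR2_g R' p) = prW m (k + 1) p :=
    fun p => by rw [TR2_g, prW_add_smul]
  -- the derivative
  have hder : ∀ t p (v : Phase m), fderiv ℝ (E t) p (incW m (k + 1) v) =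
      prW m (k + 1) (fderiv ℝ (Ξ t) (TR2_g R' p) (incW m (k + 1) v)) := by
    intro t p v
    have h1 : HasFDerivAt (E t) ((prW m (k + 1)).comp ((fderiv ℝ (Ξ t) (TR2_g R' p)).comp
        (ContinuousLinearMap.id ℝ (Phase (m + (k + 1))) +
        (0 - TR2_yL m k).smulRight (incK m (k + 1) (eB k))))) p :=
      (prW m (k + 1)).hasFDerivAt.comp p
        ((hX.cfX.differentiable t _).hasFDerivAt.comp p (TR2_g_deriv R' p))
    rw [h1.fderiv]
    have h2 : (ContinuousLinearMap.id ℝ (Phase (m + (k + 1))) +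
        (0 - TR2_yL m k).smulRight (incK m (k + 1) (eB k))) (incW m (k + 1) v) =
        incW m (k + 1) v := by
      change incW m (k + 1) v + (0 - TR2_yL m k (incW m (k + 1) v)) •
        incK m (k + 1) (eB k) = _
      rw [TR2_yL_apply, yB_incW, sub_zero, zero_smul, add_zero]
    rw [ContinuousLinearMap.comp_apply, ContinuousLinearMap.comp_apply, h2]
  have hder0 : ∀ t p (v : Phase m),
      prK m (k + 1) (fderiv ℝ (Ξ t) (TR2_g R' p) (incW m (k + 1) v)) = 0 := by
    intro t p v
    set p₀ := TR2_g R' p with hp₀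
    have hy : yB (Ξ t p₀) = R' := by
      have h1 := hX.rayK t p₀ (by rw [TR2_yB_g])
      rw [yB, h1]
      exact TR2_yB_g R' p
    have hn : R < ‖Ξ t p₀‖ := by
      have h1 := abs_yB_le (Ξ t p₀)
      rw [hy] at h1
      exact lt_of_lt_of_le hRR' ((le_abs_self _).trans h1)
    have hev : F t =ᶠ[𝓝 (Ξ t p₀)] fun q => prK m (k + 1) q := by
      have h1 : ∀ᶠ q in 𝓝 (Ξ t p₀), R < ‖q‖ :=
        (isOpen_lt continuous_const continuous_norm).mem_nhds hn
      filter_upwards [h1] with q hq
      exact hF.std t q hq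
    have h2 : HasFDerivAt (F t) (prK m (k + 1)) (Ξ t p₀) :=
      (prK m (k + 1)).hasFDerivAt.congr_of_eventuallyEq hev
    have h3 : HasFDerivAt (fun q => F t (Ξ t q)) ((prK m (k + 1)).comp (fderiv ℝ (Ξ t) p₀)) p₀ :=
      h2.comp p₀ (hX.cfX.differentiable t _).hasFDerivAt
    have h4 : HasFDerivAt (fun q => F t (Ξ t q)) (prK m (k + 1)) p₀ := by
      have h5 : (fun q => F t (Ξ t q)) = fun q => prK m (k + 1) q := by
        funext q
        exact hX.lies t q
      rw [h5]
      exact (prK m (k + 1)).hasFDerivAt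
    have h6 := h3.unique h4
    have h7 := congrArg (fun A : Phase (m + (k + 1)) →L[ℝ] Phase (k + 1) =>
      A (incW m (k + 1) v)) h6
    simp only [ContinuousLinearMap.comp_apply] at h7
    rw [h7, prK_incW]
  refine ⟨E, ⟨hX.pos, hX.cfX, hX.cfT, hX.left_inv, hX.right_inv, hX.lies, hX.symp, hX.left,
    hX.side, hright, ⟨?_, ?_, ?_⟩, hexit, ?_, ?_, ?_, hX.hor, ?_⟩⟩
  · exact (hX.cfX.comp (CF.const (TR2_g_smooth R'))).clm (prW m (k + 1))
  · intro t p hp
    exact hside t p (hX.side t _ (Or.inr (by rw [hsW]; exact hp.le)))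
  · intro t p v w
    have h1 := hX.symp t (TR2_g R' p) v w
    rw [omegaStd_split', hder0, hder0, omegaStd_zero_left, zero_add] at h1
    rw [hder, hder]
    exact h1
  · intro t p hp
    exact hside t p (hX.side t _ (Or.inl (by rw [hsB]; exact hp)))
  · intro t r hr p hp
    exact hside t p (hX.side' t r hr _ (by rw [hsB]; exact hp))
  · intro t ht p
    exact ⟨hX.triv t ht p, hside t p (hX.triv t ht _)⟩
  · intro t c hc s s' hs hs'
    have h1 := hX.uniq t c hc s s'
    have h2 : Θ t (c s) = c s := by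
      conv_lhs => rw [← hX.left t (c s) hs]
      exact hX.left_inv t _
    rw [h2] at h1
    set q := c s + (s' - s) • incK m (k + 1) (eB k) with hq
    have h3 : Ξ t q = c s' := by
      rw [← h1]
      exact hX.right_inv t _
    have h4 : prK m (k + 1) q = prK m (k + 1) (c s') := by
      rw [← hX.lies t q, h3]
      exact hlt t _ (hs'.trans (le_abs_self _))
    have h5 : yB q = yB (c s') := by
      rw [yB, yB, h4]
    have h6 := hright t q (by rw [h5]; exact hs')
    rw [h3] at h6
    rw [h6, prW_mkB, hq, hexit]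

end Pool.Agent.KRW
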