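import Mathlib
import Pool.Agent.KRW.St
import Pool.Agent.KRW.Split
import Pool.Agent.Helper17.Flow
import Pool.Agent.Helper17.FlowODE
import Pool.Agent.Helper42.Susp.Mixed

/-!
# Transport along segments of rows (St_tr)

Hypotheses: `St_lin1`, `St_jposTame`, `St_hor`.
-/

set_option maxSynthPendingDepth 3

open scoped ContDiff Topology unitInterval
open Set Function TopologicalSpace Filter

namespace Pool.Agent.KRW

open Pool.Agent.Helper17 Pool.Agent.Helper42 Pool.Agent.H42.Hull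

section

variable {m k : ℕ} {T : Type} [TopologicalSpace T]

/-- the segment of the rows `F₀`, `F₁` -/
noncomputable def traF (F₀ F₁ : T → Phase (m + k) → Phase k) (q : T × Icc (0 : ℝ) 1)
    (p : Phase (m + k)) : Phase k :=
  (1 - (q.2 : ℝ)) • F₀ q.1 p + (q.2 : ℝ) • F₁ q.1 p

lemma CF_traF {F₀ F₁ : T → Phase (m + k) → Phase k} (h0 : CF F₀) (h1 : CF F₁) :
    CF (traF F₀ F₁) := by
  have hc : Continuous (fun q : T × Icc (0 : ℝ) 1 => (q.2 : ℝ)) :=
    continuous_subtype_val.comp continuous_snd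
  exact ((CF.param (continuous_const.sub hc)).smul (h0.base continuous_fst)).add
    ((CF.param hc).smul (h1.base continuous_fst))

/-- the horizontal field of the transport -/
noncomputable def traX (F₀ F₁ : T → Phase (m + k) → Phase k) (q : T × Icc (0 : ℝ) 1)
    (p : Phase (m + k)) : Phase (m + k) :=
  hl (fderiv ℝ (traF F₀ F₁ q) p) (F₀ q.1 p - F₁ q.1 p)

lemma CF_traX (hlin : St_lin1) {F₀ F₁ : T → Phase (m + k) → Phase k} (h0 : CF F₀) (h1 : CF F₁)
    (ht : ∀ q p, TameL (fderiv ℝ (traF F₀ F₁ q) p)) : CF (traX F₀ F₁) := by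
  have h2 : CF (fun q p => hl (fderiv ℝ (traF F₀ F₁ q) p)) :=
    (CF_traF h0 h1).fderiv.comp_smooth (g := fun B : Phase (m + k) →L[ℝ] Phase k => hl B)
      (fun q p => (hlin _ _ _ (ht q p)).2.2.2.2.1)
  have h3 : CF (fun (q : T × Icc (0 : ℝ) 1) p => F₀ q.1 p - F₁ q.1 p) :=
    (h0.base continuous_fst).sub (h1.base continuous_fst)
  exact h2.clm_apply h3

/-- the derivative of a segment along a curve -/
lemma hasDerivAt_traF {F₀ F₁ : Phase (m + k) → Phase k} (h0 : Differentiable ℝ F₀)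
    (h1 : Differentiable ℝ F₁) {r : ℝ → Phase (m + k)} {r' : Phase (m + k)} {s : ℝ}
    (hr : HasDerivAt r r' s) :
    HasDerivAt (fun s => (1 - s) • F₀ (r s) + s • F₁ (r s))
      (F₁ (r s) - F₀ (r s) + fderiv ℝ (fun p => (1 - s) • F₀ p + s • F₁ p) (r s) r') s := by
  have e0 : HasDerivAt (fun s => F₀ (r s)) (fderiv ℝ F₀ (r s) r') s :=
    (h0 (r s)).hasFDerivAt.comp_hasDerivAt s hr
  have e1 : HasDerivAt (fun s => F₁ (r s)) (fderiv ℝ F₁ (r s) r') s :=
    (h1 (r s)).hasFDerivAt.comp_hasDerivAt s hr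
  have e2 : HasDerivAt (fun s : ℝ => (1 - s)) (-1) s := by
    simpa using (hasDerivAt_id s).const_sub 1
  have e3 : fderiv ℝ (fun p => (1 - s) • F₀ p + s • F₁ p) (r s) =
      (1 - s) • fderiv ℝ F₀ (r s) + s • fderiv ℝ F₁ (r s) :=
    (((h0 (r s)).hasFDerivAt.const_smul (1 - s)).add
      ((h1 (r s)).hasFDerivAt.const_smul s)).fderiv
  have e4 := (e2.smul e0).add ((hasDerivAt_id s).smul e1)
  refine e4.congr_deriv ?_
  rw [e3]
  simp only [ContinuousLinearMap.add_apply, ContinuousLinearMap.smul_apply, id_eq, one_smul,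
    neg_smul]
  abel

end

/-- TRA.  Transport along segments of rows. -/
theorem thm_tr (hlin : St_lin1) (hjt : St_jposTame) (hhor : St_hor) : St_tr := by
  intro m k T _ _ R F₀ F₁ hR h0 h1 hstd hpos
  have hG := CF_traF h0 h1
  have ht : ∀ q p, TameL (fderiv ℝ (traF F₀ F₁ q) p) := by
    rintro ⟨t, s⟩
    exact (hjt _ _ _ (hG.differentiable (t, s))).1 (hpos t s)
  have hX := CF_traX hlin h0 h1 ht
  have hX0 : ∀ q (p : Phase (m + k)), R < ‖p‖ → traX F₀ F₁ q p = 0 := by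
    intro q p hp
    rw [traX, (hstd q.1 p hp).1, (hstd q.1 p hp).2, sub_self, map_zero]
  obtain ⟨C, -, hC⟩ := exists_bound_fderiv hX (isCompact_closedBall (0 : Phase (m + k)) R)
    (fun q p hp => hX0 q p (by
      rw [Metric.mem_closedBall, dist_zero_right, not_le] at hp
      exact hp))
  obtain ⟨ρ, hρ, heq, hfix⟩ := exists_flow (traX F₀ F₁) hX hC
  have hGX : ∀ q p, fderiv ℝ (traF F₀ F₁ q) p (traX F₀ F₁ q p) = F₀ q.1 p - F₁ q.1 p :=
    fun q p => (hlin _ _ _ (ht q p)).1 _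
  -- the curves stay over the same value
  have hval : ∀ t (s : Icc (0 : ℝ) 1) p, traF F₀ F₁ (t, s) (ρ (t, s) p) = F₀ t p := by
    intro t s p
    obtain ⟨r, A, hr, hA, hrd, hAd, hr0, hA0⟩ := flow_ode hX hρ heq t p
    have h2 : ∀ s : Icc (0 : ℝ) 1, HasDerivAt
        (fun s => (1 - s) • F₀ t (r s) + s • F₁ t (r s)) 0 s := by
      intro s
      have h3 := hasDerivAt_traF (h0.differentiable t) (h1.differentiable t) (hrd s)
      refine h3.congr_deriv ?_
      have h4 := hGX (t, s) (r s)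
      have h5 : fderiv ℝ (fun p => (1 - (s : ℝ)) • F₀ t p + (s : ℝ) • F₁ t p) (r s)
          (traX F₀ F₁ (t, s) (r s)) = F₀ t (r s) - F₁ t (r s) := h4
      rw [h5]
      abel
    have hconst := (convex_Icc (0 : ℝ) 1).norm_image_sub_le_of_norm_hasDerivWithin_le
      (f := fun s => (1 - s) • F₀ t (r s) + s • F₁ t (r s)) (f' := fun _ => 0) (C := 0)
      (fun s hs => (h2 ⟨s, hs⟩).hasDerivWithinAt)
      (fun s _ => by simp) (left_mem_Icc.2 zero_le_one) s.2
    rw [zero_mul, norm_le_zero_iff, sub_eq_zero] at hconst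
    rw [← hr s]
    refine Eq.trans hconst ?_
    rw [hr0]
    simp
  have hder : ∀ t (s : Icc (0 : ℝ) 1) p u, fderiv ℝ (traF F₀ F₁ (t, s)) (ρ (t, s) p)
      (fderiv ℝ (ρ (t, s)) p u) = fderiv ℝ (F₀ t) p u := by
    intro t s p u
    have h2 : HasFDerivAt (fun p => traF F₀ F₁ (t, s) (ρ (t, s) p))
        ((fderiv ℝ (traF F₀ F₁ (t, s)) (ρ (t, s) p)).comp (fderiv ℝ (ρ (t, s)) p)) p :=
      (hG.differentiable (t, s) _).hasFDerivAt.comp p (hρ.differentiable (t, s) p).hasFDerivAt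
    have h3 : (fun p => traF F₀ F₁ (t, s) (ρ (t, s) p)) = F₀ t := funext fun p => hval t s p
    rw [h3] at h2
    rw [h2.fderiv]
    rfl
  set o : Icc (0 : ℝ) 1 := ⟨1, right_mem_Icc.2 zero_le_one⟩ with ho
  refine ⟨fun t => ρ (t, o), hρ.base (by fun_prop), ?_, ?_, ?_, ?_⟩
  · intro t p hp
    exact hfix p (fun q => hX0 q p hp) (t, o)
  · intro t p
    have h2 := hval t o p
    simpa [traF, ho] using h2
  · intro t p u v hu hv
    obtain ⟨r, A, hr, hA, hrd, hAd, hr0, hA0⟩ := flow_ode hX hρ heq t p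
    have hpr : ∀ s ∈ Icc (0 : ℝ) 1, ∃ s' : Icc (0 : ℝ) 1, (s' : ℝ) = s ∧ pr s = s' :=
      fun s hs => ⟨⟨s, hs⟩, rfl, by rw [Pool.Agent.Helper17.pr, projIcc_of_mem _ hs]⟩
    have h2 := hhor (m + k) k (fun s => traF F₀ F₁ (t, pr s)) (fun s => traX F₀ F₁ (t, pr s)) r A
      (fun s => hG.contDiff _) (fun s => hX.differentiable _) (fun s _ x => ht _ x)
      (fun s _ x v hv => (hlin _ _ _ (ht (t, pr s) x)).2.1 _ v hv)
      (fun s hs => by
        obtain ⟨s', rfl, hs'⟩ := hpr s hs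
        rw [hs']
        exact hrd s')
      (fun s hs => by
        obtain ⟨s', rfl, hs'⟩ := hpr s hs
        rw [hs']
        exact hAd s') u v
      (fun s hs => by
        obtain ⟨s', rfl, hs'⟩ := hpr s hs
        rw [hs', hr s', hA s', hder, hu])
      (fun s hs => by
        obtain ⟨s', rfl, hs'⟩ := hpr s hs
        rw [hs', hr s', hA s', hder, hv])
    have h3 : A 1 = fderiv ℝ (ρ (t, o)) p := hA o
    rw [h3, hA0] at h2
    exact h2
  · intro t h2 p
    have h3 : ∀ (s : Icc (0 : ℝ) 1) y, traX F₀ F₁ (t, s) y = 0 := by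
      intro s y
      rw [traX, h2 y, sub_self, map_zero]
    change ρ (t, o) p = p
    rw [heq]
    simp [h3]

end Pool.Agent.KRW
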