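import Mathlib
import Pool.Agent.KRW.St
import Pool.Agent.KRW.Split

/-!
# KRW [ULI]: a path from the identity to the exit map gives a lift
-/

set_option maxSynthPendingDepth 3

open scoped ContDiff Topology unitInterval
open Set Function TopologicalSpace Filter

namespace Pool.Agent.KRW

open Pool.Agent.Helper17 Pool.Agent.Helper42 Pool.Agent.H42.Hull

section

variable {m k : ℕ} {T : Type} [TopologicalSpace T] {R' : ℝ}
  {F : T → Phase (m + (k + 1)) → Phase (k + 1)}
  {Ξ Θ : T → Phase (m + (k + 1)) → Phase (m + (k + 1))}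
  {E : T → Phase (m + (k + 1)) → Phase m}

lemma uli_prK (h : Trivia m k R' F Ξ Θ E) (t : T) (p : Phase (m + (k + 1))) :
    prK m (k + 1) (Θ t p) = F t p := by
  rw [← h.lies t (Θ t p), h.right_inv]

lemma uli_fix (h : Trivia m k R' F Ξ Θ E) {t : T} {p : Phase (m + (k + 1))}
    (hp : Ξ t p = p) : Θ t p = p := by
  have h1 := h.left_inv t p
  rwa [hp] at h1

/-- the map is the identity outside a ball -/
lemma uli_std (h : Trivia m k R' F Ξ Θ E) {R R₁ : ℝ} {U : T → Phase (m + (k + 1)) → Phase m}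
    (hF : JFam m (k + 1) R F) (hRR : R ≤ R') (hR1 : R' ≤ R₁) (hU : VFam m (k + 1) R₁ U)
    (h1 : ∀ t p, (yB p ≤ -R₁ ∨ R₁ ≤ ‖sideB p‖) → U t p = prW m (k + 1) p)
    (h2 : ∀ t p, R₁ ≤ yB p → U t p = E t p) (t : T) (p : Phase (m + (k + 1)))
    (hp : 3 * R₁ < ‖p‖) : mkB m (k + 1) (F t p) (U t (Θ t p)) = p := by
  have key : Ξ t p = p → U t p = prW m (k + 1) p → mkB m (k + 1) (F t p) (U t (Θ t p)) = p := by
    intro h3 h4
    have h5 := uli_fix h h3
    rw [← uli_prK h, h5, h4, mkB_eta]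
  have h0 := h.pos
  by_cases hs : R₁ ≤ ‖sideB p‖
  · exact key (h.side t p (Or.inl (hR1.trans hs))) (h1 t p (Or.inr hs))
  by_cases hw : R₁ < ‖prW m (k + 1) p‖
  · exact key (h.side t p (Or.inr (hR1.trans hw.le))) (hU.std t p hw)
  by_cases hy : yB p ≤ -R₁
  · exact key (h.left t p (by linarith)) (h1 t p (Or.inl hy))
  have h3 := norm_le_side p
  have h4 : R₁ < |yB p| := by
    push Not at hs hw
    linarith
  have h5 : R₁ < yB p := by
    rcases lt_abs.1 h4 with h5 | h5
    · exact h5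
    · exact absurd (by linarith : yB p ≤ -R₁) hy
  have h6 : F t p = prK m (k + 1) p := by
    refine hF.std t p ?_
    have := abs_yB_le p
    linarith
  have h7 : yB (Θ t p) = yB p := by
    rw [yB, uli_prK h, h6, yB]
  have h8 := h.right t (Θ t p) (by rw [h7]; linarith)
  rw [h.right_inv] at h8
  have h9 : prW m (k + 1) p = E t (Θ t p) := by
    conv_lhs => rw [h8]
    rw [prW_mkB]
  rw [h2 t (Θ t p) (by rw [h7]; exact h5.le), ← h9, h6, mkB_eta]

/-- the derivative of `Θ` on the kernel of `DF` -/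
lemma uli_dTheta (h : Trivia m k R' F Ξ Θ E) (t : T) (p u : Phase (m + (k + 1)))
    (hu : fderiv ℝ (F t) p u = 0) :
    fderiv ℝ (Θ t) p u = incW m (k + 1) (prW m (k + 1) (fderiv ℝ (Θ t) p u)) := by
  refine eq_incW_of_prK ?_
  have h1 : (fun p => prK m (k + 1) (Θ t p)) = F t := funext fun p => uli_prK h t p
  have h2 : fderiv ℝ (fun p => prK m (k + 1) (Θ t p)) p =
      (prK m (k + 1)).comp (fderiv ℝ (Θ t) p) :=
    ((prK m (k + 1)).hasFDerivAt.comp p ((h.cfT.differentiable t) p).hasFDerivAt).fderiv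
  rw [h1] at h2
  have h3 := congrArg (fun L : Phase (m + (k + 1)) →L[ℝ] Phase (k + 1) => L u) h2
  simp only [ContinuousLinearMap.comp_apply] at h3
  rw [← h3, hu]

/-- the derivatives of `Ξ` and `Θ` are inverse to each other -/
lemma uli_dXi (h : Trivia m k R' F Ξ Θ E) (t : T) (p u : Phase (m + (k + 1))) :
    fderiv ℝ (Ξ t) (Θ t p) (fderiv ℝ (Θ t) p u) = u := by
  have h1 : (fun p => Ξ t (Θ t p)) = fun p => p := funext fun p => h.right_inv t p
  have h2 : HasFDerivAt (fun p => Ξ t (Θ t p))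
      ((fderiv ℝ (Ξ t) (Θ t p)).comp (fderiv ℝ (Θ t) p)) p :=
    ((h.cfX.differentiable t) (Θ t p)).hasFDerivAt.comp p
      ((h.cfT.differentiable t) p).hasFDerivAt
  rw [h1] at h2
  have h3 := h2.unique (hasFDerivAt_id p)
  have h4 := congrArg (fun L : Phase (m + (k + 1)) →L[ℝ] Phase (m + (k + 1)) => L u) h3
  simpa using h4

end

/-- ULI: a path from the identity to the exit map gives a lift. -/
theorem thm_ul : St_ul := by
  intro m k T _ R R' R₁ F Ξ Θ E U hR hF hRR h hR1 hU h1 h2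
  have h0 := h.pos
  have hd : ∀ t p, HasFDerivAt (fun p => mkB m (k + 1) (F t p) (U t (Θ t p)))
      ((incK m (k + 1)).comp (fderiv ℝ (F t) p) + (incW m (k + 1)).comp
        ((fderiv ℝ (U t) (Θ t p)).comp (fderiv ℝ (Θ t) p))) p := fun t p =>
    hasFDerivAt_mkB ((hF.cf.differentiable t) p).hasFDerivAt
      (((hU.cf.differentiable t) (Θ t p)).hasFDerivAt.comp p
        ((h.cfT.differentiable t) p).hasFDerivAt)
  have hK : ∀ t p u, prK m (k + 1) (fderiv ℝ (fun p => mkB m (k + 1) (F t p) (U t (Θ t p))) p u) =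
      fderiv ℝ (F t) p u := by
    intro t p u
    rw [(hd t p).fderiv]
    exact prK_mkB _ _
  have hW : ∀ t p u, prW m (k + 1) (fderiv ℝ (fun p => mkB m (k + 1) (F t p) (U t (Θ t p))) p u) =
      fderiv ℝ (U t) (Θ t p) (fderiv ℝ (Θ t) p u) := by
    intro t p u
    rw [(hd t p).fderiv]
    exact prW_mkB _ _
  refine ⟨3 * R₁, by linarith, ⟨?_, ?_, ?_, ?_⟩, ?_⟩
  · exact CF.mkB hF.cf (hU.cf.comp h.cfT)
  · exact fun t p hp => uli_std h hF hRR hR1 hU h1 h2 t p hp
  · intro t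
    simp only [prK_mkB]
    exact hF.pos t
  · intro t p u v hu hv
    rw [hK] at hu hv
    have e1 := uli_dTheta h t p u hu
    have e2 := uli_dTheta h t p v hv
    have e3 := uli_dXi h t p u
    have e4 := uli_dXi h t p v
    rw [hW, hW]
    rw [e1] at e3 ⊢
    rw [e2] at e4 ⊢
    rw [hU.symp, ← h.symp t (Θ t p), e3, e4]
  · intro t hFt hUt p
    have h3 : Ξ t p = p := (h.triv t hFt p).1
    rw [hUt, uli_fix h h3, hFt, mkB_eta]

end Pool.Agent.KRW
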