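import Mathlib
import Pool.Agent.KRW.St
import Pool.Agent.KRW.Split

/-!
# Families of symplectic maps of the fibre: the basic operations
-/

set_option maxSynthPendingDepth 3

open scoped ContDiff Topology unitInterval
open Set Function TopologicalSpace Filter

namespace Pool.Agent.KRW

open Pool.Agent.Helper17 Pool.Agent.Helper42 Pool.Agent.H42.Hull

variable {m k : ℕ}

lemma VFB_zero (w : Phase m) : mkB m k 0 w = incW m k w := by
  rw [mkB, map_zero, zero_add]

lemma VFB_cf {T : Type} [TopologicalSpace T] {W : T → Phase (m + k) → Phase m} (h : CF W) :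
    CF (fun t => mapW m k (W t)) :=
  CF.mkB (CF.const (prK m k).contDiff) h

lemma VFB_of_prW {W : Phase (m + k) → Phase m} {p : Phase (m + k)} (h : W p = prW m k p) :
    mapW m k W p = p := by
  rw [mapW, h, mkB_eta]

theorem thm_vComp : St_vComp := by
  intro m k T _ R W V hW hV
  refine ⟨hW.cf.comp (VFB_cf hV.cf), ?_, ?_⟩
  · intro t p hp
    have h1 := VFB_of_prW (hV.std t p hp)
    simp only [h1]
    exact hW.std t p hp
  · intro t p v w
    have h2 : HasFDerivAt (fun p => W t (mapW m k (V t) p))
        ((fderiv ℝ (W t) (mapW m k (V t) p)).comp (fderiv ℝ (mapW m k (V t)) p)) p :=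
      HasFDerivAt.comp p (hW.cf.differentiable t _).hasFDerivAt
        ((VFB_cf hV.cf).differentiable t p).hasFDerivAt
    have h3 : ∀ v : Phase m, fderiv ℝ (fun p => W t (mapW m k (V t) p)) p (incW m k v) =
        fderiv ℝ (W t) (mapW m k (V t) p) (incW m k (fderiv ℝ (V t) p (incW m k v))) := by
      intro v
      rw [h2.fderiv, ContinuousLinearMap.comp_apply, mapW_fderiv (hV.cf.differentiable t p),
        prK_incW, VFB_zero]
    rw [h3, h3, hW.symp, hV.symp]

theorem thm_vMap : St_vMap := by
  intro m k T _ R W hW hR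
  refine ⟨VFB_cf hW.cf, ?_, ?_, ?_⟩
  · intro t p hp
    apply VFB_of_prW
    by_cases h : R < ‖prW m k p‖
    · exact hW.std t p h
    · apply hR
      have h1 := norm_le_split p
      linarith [not_lt.1 h]
  · intro t
    simp only [prK_mapW]
    exact jPos_prK m k
  · intro t p u v hu hv
    have hd := hW.cf.differentiable t p
    rw [mapW_fderiv hd, prK_mkB] at hu hv
    rw [mapW_fderiv hd, mapW_fderiv hd, prW_mkB, prW_mkB]
    have hu' := eq_incW_of_prK hu
    have hv' := eq_incW_of_prK hv
    rw [hu', hv', hW.symp, omegaStd_incW]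

theorem thm_vOf : St_vOf := by
  intro m k T _ R Φ hΦ hp
  refine ⟨⟨hΦ.cf.clm (prW m k), ?_, ?_⟩, ?_⟩
  · intro t p h
    have h1 : Φ t p = p := hΦ.std t p (h.trans_le (norm_prW_le p))
    simp only [h1]
  · intro t p v w
    have hd := (hΦ.cf.differentiable t p).hasFDerivAt
    have h1 : ∀ v : Phase m, fderiv ℝ (fun p => prW m k (Φ t p)) p (incW m k v) =
        prW m k (fderiv ℝ (Φ t) p (incW m k v)) := by
      intro v
      have h2 : HasFDerivAt (fun p => prW m k (Φ t p)) ((prW m k).comp (fderiv ℝ (Φ t) p)) p :=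
        (prW m k).hasFDerivAt.comp p hd
      rw [h2.fderiv]
      rfl
    have h3 : ∀ v : Phase m, prK m k (fderiv ℝ (Φ t) p (incW m k v)) = 0 := by
      intro v
      have h4 : HasFDerivAt (fun p => prK m k (Φ t p)) ((prK m k).comp (fderiv ℝ (Φ t) p)) p :=
        (prK m k).hasFDerivAt.comp p hd
      have h5 : (fun p => prK m k (Φ t p)) = fun p => prK m k p := funext (hp t)
      rw [h5] at h4
      have h6 := h4.unique (prK m k).hasFDerivAt
      have h7 := congrArg (fun L : Phase (m + k) →L[ℝ] Phase k => L (incW m k v)) h6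
      simp only [ContinuousLinearMap.comp_apply] at h7
      rw [h7, prK_incW]
    rw [h1, h1, hΦ.symp t p _ _ (h3 v) (h3 w), omegaStd_incW]
  · intro t p h
    rw [hΦ.std t p (h.trans_le (norm_prK_le p))]

theorem thm_vCont : St_vCont := by
  intro m k T _ R W hW S _ c b hc hb
  have hcf : CF (fun (s : S) (w : Phase m) => W (c s) (mkB m k (b s) w)) :=
    (hW.cf.base hc).comp (CF.mkB (CF.param hb) (CF.const contDiff_id))
  have hstd : ∀ s, ∀ w ∉ Metric.closedBall (0 : Phase m) R, W (c s) (mkB m k (b s) w) = w := by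
    intro s w hw
    have hw' : R < ‖w‖ := by simpa using hw
    have h1 := hW.std (c s) (mkB m k (b s) w) (by rwa [prW_mkB])
    rw [h1, prW_mkB]
  have hsymp : ∀ s (z u v : Phase m),
      omegaStd (fderiv ℝ (fun w => W (c s) (mkB m k (b s) w)) z u)
        (fderiv ℝ (fun w => W (c s) (mkB m k (b s) w)) z v) = omegaStd u v := by
    intro s z u v
    have h1 : ∀ u : Phase m, fderiv ℝ (fun w => W (c s) (mkB m k (b s) w)) z u =
        fderiv ℝ (W (c s)) (mkB m k (b s) z) (incW m k u) := by
      intro u
      have h2 : HasFDerivAt (fun w : Phase m => mkB m k (b s) w) (incW m k) z := by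
        unfold mkB
        exact (incW m k).hasFDerivAt.const_add _
      have h3 : HasFDerivAt (fun w => W (c s) (mkB m k (b s) w))
          ((fderiv ℝ (W (c s)) (mkB m k (b s) z)).comp (incW m k)) z :=
        HasFDerivAt.comp z (hW.cf.differentiable (c s) _).hasFDerivAt h2
      rw [h3.fderiv]
      rfl
    rw [h1, h1, hW.symp]
  refine ⟨⟨fun s => mkSymp (fun w => W (c s) (mkB m k (b s) w)) (hcf.contDiff s)
    ⟨Metric.closedBall 0 R, isCompact_closedBall 0 R, hstd s⟩ (hsymp s), ?_⟩, fun s w => rfl⟩
  exact continuous_of_CF hcf ⟨Metric.closedBall 0 R, isCompact_closedBall 0 R⟩ hstd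
    (fun s w => rfl)

end Pool.Agent.KRW
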