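import Mathlib
import Pool.Agent.KRW.St
import Pool.Agent.KRW.Split
import Pool.Agent.Helper42.Susp.CFInverse

/-!
# The inverse of a family of symplectic maps of the fibre (helper40)
-/

set_option maxSynthPendingDepth 3

open scoped ContDiff Topology unitInterval
open Set Function TopologicalSpace Filter

namespace Pool.Agent.KRW

open Pool.Agent.Helper17 Pool.Agent.Helper42 Pool.Agent.H42.Hull

namespace VFI

/-- `CF_inverse` with the continuity of the inverses as a hypothesis -/
theorem CF_inverse_of_continuous {T : Type} [TopologicalSpace T] {E : Type}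
    [NormedAddCommGroup E] [NormedSpace ℝ E] [FiniteDimensional ℝ E] {F G : T → E → E}
    (hF : CF F) (hc : Continuous (fun p : T × E => G p.1 p.2))
    (hinj : ∀ t x, Injective (fderiv ℝ (F t) x)) (hFG : ∀ t x, F t (G t x) = x) : CF G := by
  have : CompleteSpace E := FiniteDimensional.complete ℝ E
  have hd : ∀ t y, HasFDerivAt (G t) (ContinuousLinearMap.inverse (fderiv ℝ (F t) (G t y))) y := by
    intro t y
    have h1 := coe_cleOfInjective _ (hinj t (G t y))
    have h2 : HasFDerivAt (F t) ((cleOfInjective _ (hinj t (G t y)) : E ≃L[ℝ] E) : E →L[ℝ] E)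
        (G t y) := by
      rw [h1]
      exact (hF.differentiable t _).hasFDerivAt
    have h3 := HasFDerivAt.of_local_left_inverse (g := G t) (a := y)
      (hc.comp (Continuous.prodMk_right t)).continuousAt h2
      (Eventually.of_forall fun z => hFG t z)
    rw [← h1, ContinuousLinearMap.inverse_equiv]
    exact h3
  intro k
  induction k with
  | zero => exact hc
  | succ k ih =>
    refine ⟨hc, fun t y => (hd t y).differentiableAt, ?_⟩
    have h1 : CFk T E k (E →L[ℝ] E) (fun t y => fderiv ℝ (F t) (G t y)) :=
      CFk.comp (hF.fderiv k) ih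
    have h2 : CFk T E k (E →L[ℝ] E)
        (fun t y => ContinuousLinearMap.inverse (fderiv ℝ (F t) (G t y))) := by
      refine CFk.comp_smooth (g := ContinuousLinearMap.inverse) (fun t y => ?_) h1
      rw [← coe_cleOfInjective _ (hinj t (G t y))]
      exact contDiffAt_map_inverse _
    have h3 : (fun t y => fderiv ℝ (G t) y) =
        fun t y => ContinuousLinearMap.inverse (fderiv ℝ (F t) (G t y)) := by
      funext t y
      exact (hd t y).fderiv
    rw [h3]
    exact h2

variable {m k : ℕ}

lemma mkB_zero (w : Phase m) : mkB m k 0 w = incW m k w := by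
  rw [mkB, map_zero, zero_add]

lemma eq_zero_of_fderiv {W : Phase (m + k) → Phase m} {p : Phase (m + k)}
    (hs : ∀ v w : Phase m, omegaStd (fderiv ℝ W p (incW m k v)) (fderiv ℝ W p (incW m k w)) =
      omegaStd v w) {v : Phase m} (hv : fderiv ℝ W p (incW m k v) = 0) : v = 0 := by
  apply eq_zero_of_omegaStd
  intro w
  rw [← hs v w, hv, omegaStd_zero_left]

lemma mapW_inj {W : Phase (m + k) → Phase m} {p : Phase (m + k)} (h : DifferentiableAt ℝ W p)
    (hs : ∀ v w : Phase m, omegaStd (fderiv ℝ W p (incW m k v)) (fderiv ℝ W p (incW m k w)) =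
      omegaStd v w) : Injective (fderiv ℝ (mapW m k W) p) := by
  rw [injective_iff_map_eq_zero]
  intro u hu
  rw [mapW_fderiv h] at hu
  have h1 : prK m k u = 0 := by
    have h2 := congrArg (fun x => prK m k x) hu
    simpa only [prK_mkB, map_zero] using h2
  have h2 : fderiv ℝ W p u = 0 := by
    have h3 := congrArg (fun x => prW m k x) hu
    simpa only [prW_mkB, map_zero] using h3
  rw [eq_incW_of_prK h1] at h2 ⊢
  rw [eq_zero_of_fderiv hs h2, map_zero]

lemma fib_hasFDerivAt {W : Phase (m + k) → Phase m} (b : Phase k) (w : Phase m)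
    (h : DifferentiableAt ℝ W (mkB m k b w)) :
    HasFDerivAt (fun w => W (mkB m k b w)) ((fderiv ℝ W (mkB m k b w)).comp (incW m k)) w := by
  have h1 : HasFDerivAt (fun w : Phase m => mkB m k b w) (incW m k) w :=
    ((incW m k).hasFDerivAt).const_add (incK m k b)
  exact h.hasFDerivAt.comp w h1

end VFI

open VFI

/-- The inverse of a family of symplectic maps of the fibre. -/
theorem thm_vInv : St_vInv := by
  intro m k T _ R W hW
  have hWd : ∀ t p, DifferentiableAt ℝ (W t) p := fun t p => hW.cf.differentiable t p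
  -- the maps of the fibres
  have hst : ∀ (q : T × Phase k), ∀ w ∉ Metric.closedBall (0 : Phase m) R,
      W q.1 (mkB m k q.2 w) = w := by
    intro q w hw
    have h1 : R < ‖prW m k (mkB m k q.2 w)‖ := by
      rw [prW_mkB]
      exact not_le.1 fun h => hw (mem_closedBall_zero_iff.2 h)
    rw [hW.std q.1 _ h1, prW_mkB]
  have hinj : ∀ (q : T × Phase k) (w : Phase m),
      Injective (fderiv ℝ (fun w => W q.1 (mkB m k q.2 w)) w) := by
    intro q w
    rw [(fib_hasFDerivAt q.2 w (hWd _ _)).fderiv, injective_iff_map_eq_zero]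
    intro v hv
    exact eq_zero_of_fderiv (hW.symp q.1 _) hv
  have hsm : ∀ (q : T × Phase k), ContDiff ℝ ∞ (fun w => W q.1 (mkB m k q.2 w)) := fun q =>
    (hW.cf.contDiff q.1).comp (contDiff_mkB contDiff_const contDiff_id)
  have hbij : ∀ q : T × Phase k, Bijective (fun w => W q.1 (mkB m k q.2 w)) := fun q =>
    bijective_of_injective_fderiv (hsm q) (hinj q) (isCompact_closedBall (0 : Phase m) R) (hst q)
  obtain ⟨g, hFG, hGF⟩ : ∃ g : T × Phase k → Phase m → Phase m,
      (∀ q x, W q.1 (mkB m k q.2 (g q x)) = x) ∧ ∀ q x, g q (W q.1 (mkB m k q.2 x)) = x := by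
    refine ⟨fun q => (Equiv.ofBijective _ (hbij q)).symm, fun q x => ?_, fun q x => ?_⟩
    · exact (Equiv.ofBijective _ (hbij q)).apply_symm_apply x
    · exact (Equiv.ofBijective _ (hbij q)).symm_apply_apply x
  have hgc : Continuous (fun p : (T × Phase k) × Phase m => g p.1 p.2) := by
    refine continuous_inverse_family (F := fun q w => W q.1 (mkB m k q.2 w)) ?_
      (isCompact_closedBall (0 : Phase m) R) hst hFG hGF
    exact hW.cf.continuous.comp ((continuous_fst.comp continuous_fst).prodMk
      (continuous_mkB.comp ((continuous_snd.comp continuous_fst).prodMk continuous_snd)))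
  -- the inverse
  obtain ⟨V, hV⟩ : ∃ V : T → Phase (m + k) → Phase m,
      ∀ t p, V t p = g (t, prK m k p) (prW m k p) := ⟨_, fun _ _ => rfl⟩
  have hV1 : ∀ t p, V t (mapW m k (W t) p) = prW m k p := by
    intro t p
    rw [hV, prK_mapW, prW_mapW]
    have h1 := hGF (t, prK m k p) (prW m k p)
    rw [mkB_eta] at h1
    exact h1
  have hV2 : ∀ t p, W t (mapW m k (V t) p) = prW m k p := by
    intro t p
    have h1 := hFG (t, prK m k p) (prW m k p)
    rw [← hV] at h1
    exact h1
  have hVc : Continuous (fun p : T × Phase (m + k) => V p.1 p.2) := by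
    simp only [hV]
    exact hgc.comp ((continuous_fst.prodMk ((prK m k).continuous.comp continuous_snd)).prodMk
      ((prW m k).continuous.comp continuous_snd))
  have hFc : CF (fun (t : T) (p : Phase (m + k)) => mapW m k (W t) p) := by
    have h1 : CF (fun (_ : T) (p : Phase (m + k)) => prK m k p) := CF.const (prK m k).contDiff
    exact CF.mkB h1 hW.cf
  have hinv : ∀ t x, mapW m k (W t) (mapW m k (V t) x) = x := by
    intro t x
    apply ext_split
    · rw [prK_mapW, prK_mapW]
    · rw [prW_mapW, hV2]
  have hGc : Continuous (fun p : T × Phase (m + k) => mapW m k (V p.1) p.2) := by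
    have h1 : Continuous (fun p : T × Phase (m + k) => prK m k p.2) :=
      (prK m k).continuous.comp continuous_snd
    have h2 : Continuous (fun p : T × Phase (m + k) =>
        incK m k (prK m k p.2) + incW m k (V p.1 p.2)) :=
      ((incK m k).continuous.comp h1).add ((incW m k).continuous.comp hVc)
    exact h2
  have hVF : CF (fun (t : T) (p : Phase (m + k)) => mapW m k (V t) p) :=
    CF_inverse_of_continuous (F := fun (t : T) (p : Phase (m + k)) => mapW m k (W t) p)
      (G := fun (t : T) (p : Phase (m + k)) => mapW m k (V t) p) hFc hGc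
      (fun t x => mapW_inj (hWd t x) (hW.symp t x)) hinv
  have hVcf : CF V := by
    have h1 := hVF.clm (prW m k)
    have h2 : (fun t p => prW m k (mapW m k (V t) p)) = V := by
      funext t p
      rw [prW_mapW]
    rw [h2] at h1
    exact h1
  refine ⟨V, ⟨hVcf, fun t p hp => ?_, fun t p v w => ?_⟩, hV1, hV2⟩
  · have h1 := hst (t, prK m k p) (prW m k p) (fun h => not_le.2 hp (mem_closedBall_zero_iff.1 h))
    have h2 := hGF (t, prK m k p) (prW m k p)
    rw [h1, ← hV] at h2
    exact h2
  · have hd : ∀ v, fderiv ℝ (W t) (mapW m k (V t) p)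
        (incW m k (fderiv ℝ (V t) p (incW m k v))) = v := by
      intro v
      have h1 : HasFDerivAt (fun p => W t (mapW m k (V t) p))
          ((fderiv ℝ (W t) (mapW m k (V t) p)).comp (fderiv ℝ (mapW m k (V t)) p)) p :=
        (hWd _ _).hasFDerivAt.comp p (hVF.differentiable t p).hasFDerivAt
      have h2 : HasFDerivAt (fun p => W t (mapW m k (V t) p)) (prW m k) p := by
        have h3 : (fun p => W t (mapW m k (V t) p)) = fun p => prW m k p := funext (hV2 t)
        rw [h3]
        exact (prW m k).hasFDerivAt
      have h3 := congrArg (fun L : Phase (m + k) →L[ℝ] Phase m => L (incW m k v)) (h1.unique h2)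
      simp only [ContinuousLinearMap.comp_apply] at h3
      rw [mapW_fderiv (hVcf.differentiable t p), prK_incW, mkB_zero, prW_incW] at h3
      exact h3
    rw [← hW.symp t (mapW m k (V t) p) (fderiv ℝ (V t) p (incW m k v))
      (fderiv ℝ (V t) p (incW m k w)), hd, hd]

end Pool.Agent.KRW
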