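import Mathlib
import Pool.Agent.KRW.BOX
import Pool.Agent.KRW.BT3
import Pool.Agent.KRW.COV
import Pool.Agent.KRW.CRI
import Pool.Agent.KRW.CUB
import Pool.Agent.KRW.EX1
import Pool.Agent.KRW.EX2
import Pool.Agent.KRW.EX3
import Pool.Agent.KRW.FBA
import Pool.Agent.KRW.FMO
import Pool.Agent.KRW.HOR
import Pool.Agent.KRW.LEX
import Pool.Agent.KRW.LI1
import Pool.Agent.KRW.LI2
import Pool.Agent.KRW.LI3
import Pool.Agent.KRW.LI4
import Pool.Agent.KRW.LNU
import Pool.Agent.KRW.LOO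
import Pool.Agent.KRW.LUP
import Pool.Agent.KRW.MOS
import Pool.Agent.KRW.MPD
import Pool.Agent.KRW.MPI
import Pool.Agent.KRW.MPQ
import Pool.Agent.KRW.MPS
import Pool.Agent.KRW.OR3
import Pool.Agent.KRW.OR4
import Pool.Agent.KRW.OR5
import Pool.Agent.KRW.RBD
import Pool.Agent.KRW.RE2
import Pool.Agent.KRW.REF
import Pool.Agent.KRW.REP
import Pool.Agent.KRW.RET
import Pool.Agent.KRW.SCE
import Pool.Agent.KRW.SCU
import Pool.Agent.KRW.SEG
import Pool.Agent.KRW.SM0
import Pool.Agent.KRW.SMO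
import Pool.Agent.KRW.SQU
import Pool.Agent.KRW.SUS
import Pool.Agent.KRW.St
import Pool.Agent.KRW.St2
import Pool.Agent.KRW.TOP1
import Pool.Agent.KRW.TOP3
import Pool.Agent.KRW.TR1
import Pool.Agent.KRW.TR2
import Pool.Agent.KRW.TRA
import Pool.Agent.KRW.ULI
import Pool.Agent.KRW.VFB
import Pool.Agent.KRW.VFI
import Pool.Agent.KRW.FIN

/-!
# The exact sequence of `k`-rows: all statements are proved
-/

namespace Pool.Agent.KRW

theorem pf_mosV : St_mosV := thm_mosV
theorem pf_lin1 : St_lin1 := thm_lin1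
theorem pf_htame : St_htame := thm_htame pf_lin1
theorem pf_scale : St_scale := thm_scale
theorem pf_jposTame : St_jposTame := thm_jposTame
theorem pf_fInv : St_fInv := thm_fInv pf_lin1 pf_jposTame
theorem pf_fToSymp : St_fToSymp := thm_fToSymp
theorem pf_ret : St_ret := thm_ret pf_mosV pf_htame pf_scale pf_fInv pf_fToSymp pf_jposTame
theorem pf_topCF : St_topCF := thm_topCF
theorem pf_topF : St_topF := thm_topF pf_topCF
theorem pf_fSymp : St_fSymp := thm_fSymp
theorem pf_mapI : St_mapI := thm_mapI pf_ret pf_topF pf_fSymp pf_fToSymp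
theorem pf_box : St_box := thm_box
theorem pf_vOf : St_vOf := thm_vOf
theorem pf_vMap : St_vMap := thm_vMap
theorem pf_fmo : St_fmo := thm_fmo pf_mosV
theorem pf_sm0 : St_sm0 := thm_sm0 pf_fmo
theorem pf_vCont : St_vCont := thm_vCont
theorem pf_rep : St_rep := thm_rep pf_sm0 pf_box pf_vCont
theorem pf_rad : St_rad := thm_rad pf_vCont
theorem pf_cubS : St_cubS := thm_cubS
theorem pf_vInv : St_vInv := thm_vInv
theorem pf_vComp : St_vComp := thm_vComp
theorem pf_smo : St_smo := thm_smo pf_fmo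
theorem pf_sus : St_sus := thm_sus pf_box pf_rad pf_vInv pf_vComp pf_vMap pf_smo
theorem pf_mapS : St_mapS := thm_mapS pf_box pf_vOf pf_vMap pf_topF pf_rep pf_rad pf_cubS pf_sus pf_mapI
theorem pf_topR : St_topR := thm_topR pf_topCF
theorem pf_mapQ : St_mapQ := thm_mapQ pf_topR pf_fSymp
theorem pf_hlStd : St_hlStd := thm_hlStd
theorem pf_hor : St_hor := thm_hor pf_lin1
theorem pf_triv1 : St_triv1 := thm_triv1 pf_lin1 pf_jposTame pf_hlStd pf_hor
theorem pf_triv2 : St_triv2 := thm_triv2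
theorem pf_trivia : St_trivia := trivia_of pf_triv1 pf_triv2
theorem pf_scEx : St_scEx := thm_scEx pf_trivia pf_vInv pf_vCont pf_box
theorem pf_scVal : St_scVal := thm_scVal
theorem pf_scUn : St_scUn := thm_scUn pf_trivia pf_vInv pf_vCont pf_scVal pf_box
theorem pf_cubE : St_cubE := thm_cubE
theorem pf_mapD : St_mapD := thm_mapD pf_topR pf_scEx pf_scUn pf_cubE
theorem pf_seg : St_seg := thm_seg pf_jposTame pf_hlStd
theorem pf_tr : St_tr := thm_tr pf_lin1 pf_jposTame pf_hor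
theorem pf_fComp : St_fComp := thm_fComp
theorem pf_cov : St_cov := thm_cov pf_seg pf_tr pf_fComp
theorem pf_ex1 : St_ex1 := thm_ex1 pf_topR pf_topF pf_cov pf_fSymp pf_vOf pf_vCont pf_cubS pf_box
theorem pf_ul : St_ul := thm_ul
theorem pf_lEx : St_lEx := thm_lEx pf_trivia pf_scVal pf_scEx pf_scUn pf_box pf_smo pf_ul
theorem pf_lu : St_lu := thm_lu
theorem pf_lNull : St_lNull := thm_lNull pf_trivia pf_lu pf_scVal pf_scEx pf_scUn pf_vCont pf_box
theorem pf_ex2 : St_ex2 := thm_ex2 pf_topR pf_lEx pf_ret pf_scUn pf_scEx pf_lNull pf_fSymp pf_cubE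
theorem pf_squ : St_squ := thm_squ
theorem pf_loo : St_loo := thm_loo pf_trivia pf_lu pf_scVal pf_scEx pf_scUn pf_rad pf_vCont pf_squ pf_box
theorem pf_cubL : St_cubL := thm_cubL
theorem pf_ex3 : St_ex3 := thm_ex3 pf_topF pf_topR pf_loo pf_rad pf_cubL pf_cubS pf_cubE pf_scEx pf_cov pf_vOf pf_mapS pf_mapI pf_vCont pf_box
theorem pf_ref : St_ref := thm_ref pf_topR
theorem pf_two : St_two := thm_two pf_trivia pf_vInv pf_vComp pf_scVal pf_scEx pf_scUn pf_box pf_smo
theorem pf_lin2 : St_lin2 := thm_lin2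
theorem pf_comb : St_comb := thm_comb pf_lin1
theorem pf_rBd : St_rBd := thm_rBd pf_lin1 pf_jposTame
theorem pf_beta3 : St_beta3 := thm_beta3
theorem pf_ret3 : St_ret3 := thm_ret3 pf_mosV pf_lin2 pf_jposTame pf_comb pf_rBd pf_beta3
theorem pf_ret2 : St_ret2 := thm_ret2 pf_ret3
theorem pf_orb : St_orb := orb_of pf_two pf_ret2
theorem pf_act : St_act := thm_act pf_scEx pf_scUn
theorem pf_ref2 : St_ref2 := thm_ref2 pf_orb pf_act pf_cubE pf_topR pf_scUn pf_scEx
theorem pf_cri : St_cri := thm_cri pf_topR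

/-- The exact sequence of `(k+1)`-rows. -/
theorem main_thm (m k : ℕ) : St_main m k :=
  main_of pf_mapI pf_mapS pf_mapQ pf_mapD pf_ex1 pf_ex2 pf_ex3 pf_ref pf_ref2 m k

/-- The image of the suspension map. -/
theorem image_thm (m k : ℕ) : St_image m k :=
  image_of pf_mapS pf_mapQ pf_ex1 pf_cri m k

end Pool.Agent.KRW
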