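import Mathlib
import Pool.Agent.KRW.St2
import Pool.Agent.KRW.Split
import Pool.Agent.Helper17.Moser

/-!
# OR1: the scaling lemma for two forms, and the invariance of `HTame`
-/

set_option maxSynthPendingDepth 3

open scoped ContDiff Topology unitInterval
open Set Function TopologicalSpace Filter

namespace Pool.Agent.KRW

open Pool.Agent.Helper17 Pool.Agent.Helper42 Pool.Agent.H42.Hull

section

variable {m k : ℕ}

private lemma OR1_om_sub_left (u u' v : Phase m) :
    omegaStd (u - u') v = omegaStd u v - omegaStd u' v := omegaStd_sub_left u u' v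

private lemma OR1_neg_left (u v : Phase m) : omegaStd (-u) v = -omegaStd u v := by
  rw [← neg_one_smul ℝ u, omegaStd_smul_left]
  ring

/-- the horizontal correction -/
private noncomputable def OR1_X (L : Phase (m + k) →L[ℝ] Phase (m + k)) (u : Phase k) : Phase m :=
  -sharp m ((omegaB (m + k) (L (incK m k u))).comp (L.comp (incW m k)))

private lemma OR1_X_spec (L : Phase (m + k) →L[ℝ] Phase (m + k)) (u : Phase k) (w : Phase m) :
    omegaStd (L (incK m k u)) (L (incW m k w)) = -omegaStd (OR1_X L u) w := by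
  rw [OR1_X, OR1_neg_left, omegaStd_sharp, neg_neg]
  rfl

private lemma OR1_X_norm (L : Phase (m + k) →L[ℝ] Phase (m + k)) (a : ℝ) (h : ‖L‖ ≤ a)
    (u : Phase k) : ‖OR1_X L u‖ ≤ a ^ 2 * ‖u‖ := by
  have ha : 0 ≤ a := (norm_nonneg L).trans h
  have hL : ∀ x, ‖L x‖ ≤ a * ‖x‖ := fun x =>
    (L.le_opNorm x).trans (mul_le_mul_of_nonneg_right h (norm_nonneg x))
  have h1 := OR1_X_spec L u (Jl m (OR1_X L u))
  rw [omegaStd_Jl] at h1
  have h2 : ‖OR1_X L u‖ ^ 2 ≤ a ^ 2 * ‖u‖ * ‖OR1_X L u‖ := by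
    have h3 := abs_omegaStd_le (L (incK m k u)) (L (incW m k (Jl m (OR1_X L u))))
    rw [h1, abs_neg, abs_of_nonneg (by positivity)] at h3
    refine h3.trans ?_
    have h4 := hL (incK m k u)
    have h5 := hL (incW m k (Jl m (OR1_X L u)))
    rw [norm_incK] at h4
    rw [norm_incW, norm_Jl] at h5
    calc ‖L (incK m k u)‖ * ‖L (incW m k (Jl m (OR1_X L u)))‖
        ≤ (a * ‖u‖) * (a * ‖OR1_X L u‖) :=
          mul_le_mul h4 h5 (norm_nonneg _) (by positivity)
      _ = a ^ 2 * ‖u‖ * ‖OR1_X L u‖ := by ring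
  rcases (norm_nonneg (OR1_X L u)).eq_or_lt with h3 | h3
  · rw [← h3]
    positivity
  · rw [pow_two (‖OR1_X L u‖)] at h2
    exact le_of_mul_le_mul_right h2 h3

/-- the value of the tame form on the horizontal vectors -/
private lemma OR1_tau {L : Phase (m + k) →L[ℝ] Phase (m + k)}
    (h : HTame m k (fun x y => omegaStd (L x) (L y))) {u : Phase k} (hu : u ≠ 0) :
    0 < omegaStd (L (incK m k u)) (L (incK m k (Jl k u))) -
      omegaStd (OR1_X L u) (OR1_X L (Jl k u)) := by
  have hhor : ∀ (u : Phase k) (w : Phase m),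
      omegaStd (L (incK m k u + incW m k (OR1_X L u))) (L (incW m k w)) = 0 := by
    intro u w
    rw [map_add, omegaStd_add_left, OR1_X_spec]
    have h1 := h.1 (OR1_X L u) w
    change omegaStd (L (incW m k (OR1_X L u))) (L (incW m k w)) = _ at h1
    rw [h1]
    ring
  have h1 := h.2 (incK m k u + incW m k (OR1_X L u))
    (incK m k (Jl k u) + incW m k (OR1_X L (Jl k u))) (hhor u) (hhor _)
    (by rw [map_add, prK_incK, prK_incW, add_zero]; exact hu)
    (by rw [map_add, prK_incK, prK_incW, add_zero, map_add, prK_incK, prK_incW, add_zero])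
  change 0 < omegaStd (L (incK m k u + incW m k (OR1_X L u)))
    (L (incK m k (Jl k u) + incW m k (OR1_X L (Jl k u)))) at h1
  rw [map_add L (incK m k (Jl k u)), omegaStd_add_right, hhor, add_zero, map_add,
    omegaStd_add_left, omegaStd_swap (L (incW m k (OR1_X L u))), OR1_X_spec,
    omegaStd_swap (OR1_X L (Jl k u))] at h1
  linarith

private lemma OR1_scl_incW (μ : ℝ) (w : Phase m) : sclB m k μ (incW m k w) = incW m k w := by
  rw [sclB, prK_incW, prW_incW, smul_zero, mkB, map_zero, zero_add]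

private lemma OR1_scl (μ : ℝ) (u : Phase k) (v : Phase m) :
    sclB m k μ (incK m k u + incW m k v) = μ • incK m k u + incW m k v := by
  rw [sclB, map_add, map_add, prK_incK, prK_incW, prW_incK, prW_incW, add_zero, zero_add, mkB,
    map_smul]

private lemma OR1_scl_incK (μ : ℝ) (u : Phase k) : sclB m k μ (incK m k u) = μ • incK m k u := by
  rw [sclB, prK_incK, prW_incK, mkB, map_zero, add_zero, map_smul]

end

theorem thm_scale2 : St_scale2 := by
  intro m k L₁ L₂ a ha₁ ha₂ h₁ h₂ r μ hr0 hr1 hμ0 hμ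
  obtain ⟨B, hB⟩ : ∃ B : Phase (m + k) → Phase (m + k) → ℝ, B = fun x y => omegaStd x y +
        ((1 - r) * omegaStd (L₁ (sclB m k μ x)) (L₁ (sclB m k μ y)) +
        r * omegaStd (L₂ (sclB m k μ x)) (L₂ (sclB m k μ y)) -
        omegaStd (sclB m k μ x) (sclB m k μ y)) := ⟨_, rfl⟩
  have hW₁ : ∀ w w', omegaStd (L₁ (incW m k w)) (L₁ (incW m k w')) = omegaStd w w' := h₁.1
  have hW₂ : ∀ w w', omegaStd (L₂ (incW m k w)) (L₂ (incW m k w')) = omegaStd w w' := h₂.1
  obtain ⟨X, hX⟩ : ∃ X : Phase k → Phase m, X = fun u => (1 - r) • OR1_X L₁ u + r • OR1_X L₂ u :=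
    ⟨_, rfl⟩
  have hXw : ∀ u w, omegaStd (X u) w =
      (1 - r) * omegaStd (OR1_X L₁ u) w + r * omegaStd (OR1_X L₂ u) w := by
    intro u w
    rw [hX]
    change omegaStd ((1 - r) • OR1_X L₁ u + r • OR1_X L₂ u) w = _
    rw [omegaStd_add_left, omegaStd_smul_left, omegaStd_smul_left]
  -- the form with a fibre vector
  have hfib : ∀ (u : Phase k) (v w : Phase m),
      B (incK m k u + incW m k v) (incW m k w) = omegaStd v w - μ * omegaStd (X u) w := by
    intro u v w
    rw [hB]
    change omegaStd (incK m k u + incW m k v) (incW m k w) +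
        ((1 - r) * omegaStd (L₁ (sclB m k μ (incK m k u + incW m k v)))
          (L₁ (sclB m k μ (incW m k w))) +
        r * omegaStd (L₂ (sclB m k μ (incK m k u + incW m k v))) (L₂ (sclB m k μ (incW m k w))) -
        omegaStd (sclB m k μ (incK m k u + incW m k v)) (sclB m k μ (incW m k w))) = _
    rw [OR1_scl, OR1_scl_incW, map_add, map_add, map_smul, map_smul]
    simp only [omegaStd_add_left, omegaStd_smul_left, omegaStd_incK_incW, omegaStd_incW, hW₁, hW₂,
      OR1_X_spec, hXw]
    ring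
  have hB0 : ∀ w w' : Phase m, B (incW m k w) (incW m k w') = omegaStd w w' := by
    intro w w'
    have h := hfib 0 w w'
    have hX0 : omegaStd (X 0) w' = 0 := by
      rw [hXw]
      have e1 := OR1_X_spec L₁ 0 w'
      have e2 := OR1_X_spec L₂ 0 w'
      rw [map_zero, map_zero, omegaStd_zero_left] at e1 e2
      have e3 : omegaStd (OR1_X L₁ 0) w' = 0 := by linarith
      have e4 : omegaStd (OR1_X L₂ 0) w' = 0 := by linarith
      rw [e3, e4]
      ring
    rw [map_zero, zero_add, hX0] at h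
    linarith
  -- horizontal vectors
  have hhor : ∀ x : Phase (m + k), (∀ w, B x (incW m k w) = 0) →
      x = incK m k (prK m k x) + incW m k (μ • X (prK m k x)) := by
    intro x hx
    have e1 : prW m k x - μ • X (prK m k x) = 0 := by
      apply eq_zero_of_omegaStd
      intro w
      have h := hx w
      rw [← split_eta x, hfib] at h
      rw [omegaStd_sub_left, omegaStd_smul_left]
      exact h
    conv_lhs => rw [← split_eta x, sub_eq_zero.1 e1]
  -- the value on horizontal vectors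
  have hval : ∀ u : Phase k, u ≠ 0 → 0 < B (incK m k u + incW m k (μ • X u))
      (incK m k (Jl k u) + incW m k (μ • X (Jl k u))) := by
    intro u hu
    have e1 : B (incK m k u + incW m k (μ • X u))
        (incK m k (Jl k u) + incW m k (μ • X (Jl k u))) =
        (1 - μ ^ 2) * omegaStd u (Jl k u) + μ ^ 2 * ((1 - r) *
          (omegaStd (L₁ (incK m k u)) (L₁ (incK m k (Jl k u))) -
            omegaStd (OR1_X L₁ u) (OR1_X L₁ (Jl k u))) +
          r * (omegaStd (L₂ (incK m k u)) (L₂ (incK m k (Jl k u))) -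
            omegaStd (OR1_X L₂ u) (OR1_X L₂ (Jl k u))) + r * (1 - r) *
          omegaStd (OR1_X L₁ u - OR1_X L₂ u) (OR1_X L₁ (Jl k u) - OR1_X L₂ (Jl k u))) := by
      obtain ⟨u', hu'⟩ : ∃ u', u' = Jl k u := ⟨_, rfl⟩
      rw [← hu']
      rw [hB]
      change omegaStd (incK m k u + incW m k (μ • X u)) (incK m k u' + incW m k (μ • X u')) +
        ((1 - r) * omegaStd (L₁ (sclB m k μ (incK m k u + incW m k (μ • X u))))
          (L₁ (sclB m k μ (incK m k u' + incW m k (μ • X u')))) +
        r * omegaStd (L₂ (sclB m k μ (incK m k u + incW m k (μ • X u))))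
          (L₂ (sclB m k μ (incK m k u' + incW m k (μ • X u')))) -
        omegaStd (sclB m k μ (incK m k u + incW m k (μ • X u)))
          (sclB m k μ (incK m k u' + incW m k (μ • X u')))) = _
      rw [OR1_scl, OR1_scl]
      have s1 : ∀ v w, omegaStd (L₁ (incW m k v)) (L₁ (incK m k w)) =
          omegaStd (OR1_X L₁ w) v := by
        intro v w
        rw [omegaStd_swap, OR1_X_spec]
        ring
      have s2 : ∀ v w, omegaStd (L₂ (incW m k v)) (L₂ (incK m k w)) =
          omegaStd (OR1_X L₂ w) v := by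
        intro v w
        rw [omegaStd_swap, OR1_X_spec]
        ring
      have s3 := omegaStd_swap (OR1_X L₁ u') (OR1_X L₁ u)
      have s4 := omegaStd_swap (OR1_X L₂ u') (OR1_X L₂ u)
      have s5 := omegaStd_swap (OR1_X L₁ u') (OR1_X L₂ u)
      have s6 := omegaStd_swap (OR1_X L₂ u') (OR1_X L₁ u)
      simp only [map_add, map_smul, omegaStd_add_left, omegaStd_add_right, omegaStd_smul_left,
        omegaStd_smul_right, omegaStd_incK_incW, omegaStd_incW_incK, omegaStd_incK, omegaStd_incW, hW₁, hW₂,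
        OR1_X_spec, s1, s2, hX, omegaStd_sub_left, omegaStd_sub_right, s3, s4, s5, s6]
      ring
    rw [e1]
    have t1 := OR1_tau h₁ hu
    have t2 := OR1_tau h₂ hu
    have n1 := OR1_X_norm L₁ a ha₁
    have n2 := OR1_X_norm L₂ a ha₂
    have hu0 : 0 < ‖u‖ := norm_pos_iff.2 hu
    rw [omegaStd_Jl]
    have e2 : -(4 * a ^ 4 * ‖u‖ ^ 2) ≤
        omegaStd (OR1_X L₁ u - OR1_X L₂ u) (OR1_X L₁ (Jl k u) - OR1_X L₂ (Jl k u)) := by
      have e3 := abs_omegaStd_le (OR1_X L₁ u - OR1_X L₂ u) (OR1_X L₁ (Jl k u) - OR1_X L₂ (Jl k u))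
      have e4 : ‖OR1_X L₁ u - OR1_X L₂ u‖ ≤ 2 * a ^ 2 * ‖u‖ := by
        refine (norm_sub_le _ _).trans ?_
        linarith [n1 u, n2 u]
      have e5 : ‖OR1_X L₁ (Jl k u) - OR1_X L₂ (Jl k u)‖ ≤ 2 * a ^ 2 * ‖u‖ := by
        refine (norm_sub_le _ _).trans ?_
        have e6 := n1 (Jl k u)
        have e7 := n2 (Jl k u)
        rw [norm_Jl] at e6 e7
        linarith
      have e6 : |omegaStd (OR1_X L₁ u - OR1_X L₂ u) (OR1_X L₁ (Jl k u) - OR1_X L₂ (Jl k u))| ≤
          4 * a ^ 4 * ‖u‖ ^ 2 := by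
        refine e3.trans ((mul_le_mul e4 e5 (norm_nonneg _) (by positivity)).trans (le_of_eq ?_))
        ring
      exact (abs_le.1 e6).1
    have e3 : 0 < (1 - r) * (omegaStd (L₁ (incK m k u)) (L₁ (incK m k (Jl k u))) -
            omegaStd (OR1_X L₁ u) (OR1_X L₁ (Jl k u))) +
          r * (omegaStd (L₂ (incK m k u)) (L₂ (incK m k (Jl k u))) -
            omegaStd (OR1_X L₂ u) (OR1_X L₂ (Jl k u))) := by
      rcases hr0.eq_or_lt with h | h
      · rw [← h]
        linarith
      · have e4 : 0 ≤ 1 - r := by linarith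
        nlinarith [mul_nonneg e4 t1.le, mul_pos h t2]
    have e4 : r * (1 - r) * -(4 * a ^ 4 * ‖u‖ ^ 2) ≤ r * (1 - r) *
        omegaStd (OR1_X L₁ u - OR1_X L₂ u) (OR1_X L₁ (Jl k u) - OR1_X L₂ (Jl k u)) :=
      mul_le_mul_of_nonneg_left e2 (mul_nonneg hr0 (by linarith))
    have e5 : 0 < μ ^ 2 := by positivity
    have e6 := mul_le_mul_of_nonneg_left e4 e5.le
    have e7 := mul_pos e5 e3
    have e8 : 0 ≤ (1 - μ ^ 2 * (1 + r * (1 - r) * (4 * a ^ 4))) * ‖u‖ ^ 2 :=
      mul_nonneg (by linarith) (by positivity)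
    nlinarith [e6, e7, e8]
  have hBJ : ∀ u : Phase k, ∀ w, B (incK m k u + incW m k (μ • X u)) (incW m k w) = 0 := by
    intro u w
    rw [hfib, omegaStd_smul_left]
    ring
  have htame : HTame m k B := by
    refine ⟨hB0, fun x y hx hy hx0 hxy => ?_⟩
    have e1 := hhor x hx
    have e2 := hhor y hy
    rw [hxy] at e2
    have e3 := hval (prK m k x) hx0
    rw [← e1, ← e2] at e3
    exact e3
  rw [hB] at htame
  refine ⟨htame, fun x hx => ?_⟩
  have hx' : ∀ y, B x y = 0 := by
    rw [hB]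
    exact hx
  have e1 := hhor x fun w => hx' _
  have e2 : prK m k x = 0 := by
    by_contra hne
    have e3 := hval (prK m k x) hne
    rw [← e1, hx'] at e3
    exact lt_irrefl _ e3
  have e3 := eq_incW_of_prK e2
  have e4 : prW m k x = 0 := by
    apply eq_zero_of_omegaStd
    intro w
    rw [← hB0, ← e3]
    exact hx' _
  rw [e3, e4, map_zero]

theorem thm_htameG : St_htameG := by
  intro m k B A S hB hA hAW hS
  have hSinj : Injective S := by
    rw [injective_iff_map_eq_zero]
    intro v hv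
    apply eq_zero_of_omegaStd
    intro w
    rw [← hS v w, hv, omegaStd_zero_left]
  have hSsurj : Surjective S :=
    LinearMap.surjective_of_injective (f := (S : Phase m →ₗ[ℝ] Phase m)) hSinj
  have hor : ∀ x, (∀ w, B (A x) (A (incW m k w)) = 0) → ∀ w, B (A x) (incW m k w) = 0 := by
    intro x hx w
    obtain ⟨v, rfl⟩ := hSsurj w
    rw [← hAW]
    exact hx v
  refine ⟨fun w w' => ?_, fun x y hx hy hx0 hxy => ?_⟩
  · change B (A (incW m k w)) (A (incW m k w')) = _
    rw [hAW, hAW, hB.1, hS]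
  · refine hB.2 (A x) (A y) (hor x hx) (hor y hy) ?_ ?_
    · rw [hA]
      exact hx0
    · rw [hA, hA]
      exact hxy

end Pool.Agent.KRW
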