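import Mathlib
import Pool.Agent.KRW.OR2_2

/-!
# The family of primitives joining two trivialised families of rows

Module OR2: `thm_beta`, from `St_vInv`, `St_htame`, `St_jposTame`, `St_scale2`, `St_htameG`.
-/

set_option maxSynthPendingDepth 3
set_option linter.unusedSectionVars false

open scoped ContDiff Topology unitInterval
open Set Function TopologicalSpace Filter

namespace Pool.Agent.KRW

open Pool.Agent.Helper17 Pool.Agent.Helper42 Pool.Agent.H42.Hull

namespace OR2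

variable {m k : ℕ} {T : Type} [TopologicalSpace T]

/-! ### The change of coordinates -/

lemma hasDerivAt_line {N : ℕ} {F : Type} [NormedAddCommGroup F] [NormedSpace ℝ F]
    {f : Phase N → F} {f' : Phase N →L[ℝ] F} {x : Phase N} (h : HasFDerivAt f f' x)
    (w : Phase N) : HasDerivAt (fun r : ℝ => f (x + r • w)) (f' w) 0 := by
  have h1 : HasDerivAt (fun r : ℝ => x + r • w) w 0 := by
    simpa using ((hasDerivAt_id (0 : ℝ)).smul_const w).const_add x
  exact HasFDerivAt.comp_hasDerivAt_of_eq (0 : ℝ) h h1 (by simp)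

lemma prK_gmap (C : ℝ) (E V : T → Phase (m + (k + 1)) → Phase m) (t : T)
    (q : ℝ × (Phase 0 × Phase (m + (k + 1)))) :
    prK m (k + 1) (gmap C E V t q) = prK m (k + 1) q.2.2 := prK_mkB _ _

lemma prK_dg (C : ℝ) {E V : T → Phase (m + (k + 1)) → Phase m} (hE : CF E) (hV : CF V) (t : T)
    (s : ℝ) (d : Phase 0) (x u : Phase (m + (k + 1))) :
    prK m (k + 1) (dg C E V t (s, (d, x)) u) = prK m (k + 1) u := by
  have cg : ContDiff ℝ ∞ (fun w => gmap C E V t (s, (d, w))) := ((CF_gmap C hE hV).contDiff t).comp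
    (contDiff_const.prodMk (contDiff_const.prodMk contDiff_id))
  rw [dg_eq C hE hV]
  have h1 : HasFDerivAt (fun w => prK m (k + 1) (gmap C E V t (s, (d, w))))
      ((prK m (k + 1)).comp (fderiv ℝ (fun w => gmap C E V t (s, (d, w))) x)) x :=
    (prK m (k + 1)).hasFDerivAt.comp x (cg.differentiable (by simp) x).hasFDerivAt
  have h2 : (fun w => prK m (k + 1) (gmap C E V t (s, (d, w)))) = fun w => prK m (k + 1) w :=
    funext fun w => prK_gmap C E V t (s, (d, w))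
  rw [h2] at h1
  have h3 := h1.unique (prK m (k + 1)).hasFDerivAt
  exact congrArg (fun L : Phase (m + (k + 1)) →L[ℝ] Phase (k + 1) => L u) h3

/-- The derivative in the direction of the fibre. -/
noncomputable def fS (C : ℝ) (E V : T → Phase (m + (k + 1)) → Phase m) (t : T)
    (q : ℝ × (Phase 0 × Phase (m + (k + 1)))) : Phase m →L[ℝ] Phase m :=
  (fderiv ℝ (V t) (mkB m (k + 1) (nu C q • prK m (k + 1) q.2.2) (E t q.2.2))).comp
    ((incW m (k + 1)).comp ((fderiv ℝ (E t) q.2.2).comp (incW m (k + 1))))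

lemma dg_incW (C : ℝ) {E V : T → Phase (m + (k + 1)) → Phase m} (hE : CF E) (hV : CF V) (t : T)
    (s : ℝ) (d : Phase 0) (x : Phase (m + (k + 1))) (w : Phase m) :
    dg C E V t (s, (d, x)) (incW m (k + 1) w) = incW m (k + 1) (fS C E V t (s, (d, x)) w) := by
  have cg : ContDiff ℝ ∞ (fun w => gmap C E V t (s, (d, w))) := ((CF_gmap C hE hV).contDiff t).comp
    (contDiff_const.prodMk (contDiff_const.prodMk contDiff_id))
  rw [dg_eq C hE hV]
  have h1 := hasDerivAt_line (cg.differentiable (by simp) x).hasFDerivAt (incW m (k + 1) w)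
  have h2 := hasDerivAt_line (hE.differentiable t x).hasFDerivAt (incW m (k + 1) w)
  have h3 : HasDerivAt (fun r : ℝ => mkB m (k + 1) (nu C (s, (d, x)) • prK m (k + 1) x)
      (E t (x + r • incW m (k + 1) w)))
      (incW m (k + 1) (fderiv ℝ (E t) x (incW m (k + 1) w))) 0 :=
    ((incW m (k + 1)).hasFDerivAt.comp_hasDerivAt (0 : ℝ) h2).const_add _
  have h4 := HasFDerivAt.comp_hasDerivAt_of_eq (0 : ℝ)
    (hV.differentiable t (mkB m (k + 1) (nu C (s, (d, x)) • prK m (k + 1) x) (E t x))).hasFDerivAt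
    h3 (by simp)
  have h5 : HasDerivAt (fun r : ℝ => mkB m (k + 1) (prK m (k + 1) x)
      (V t (mkB m (k + 1) (nu C (s, (d, x)) • prK m (k + 1) x)
      (E t (x + r • incW m (k + 1) w))))) (incW m (k + 1) (fS C E V t (s, (d, x)) w)) 0 :=
    ((incW m (k + 1)).hasFDerivAt.comp_hasDerivAt (0 : ℝ) h4).const_add _
  have h6 : (fun r : ℝ => gmap C E V t (s, (d, x + r • incW m (k + 1) w))) =
      fun r : ℝ => mkB m (k + 1) (prK m (k + 1) x)
      (V t (mkB m (k + 1) (nu C (s, (d, x)) • prK m (k + 1) x)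
      (E t (x + r • incW m (k + 1) w)))) := by
    funext r
    have e1 : prK m (k + 1) (x + r • incW m (k + 1) w) = prK m (k + 1) x := by
      rw [map_add, map_smul, prK_incW, smul_zero, add_zero]
    have e2 : nu C (s, (d, x + r • incW m (k + 1) w)) = nu C (s, (d, x)) := by
      simp only [nu, yB, e1]
    simp only [gmap, e1, e2]
  rw [h6] at h1
  exact h1.unique h5

lemma fS_symp (C : ℝ) {R : ℝ} {E V : T → Phase (m + (k + 1)) → Phase m}
    (hE : VFam m (k + 1) R E) (hV : VFam m (k + 1) R V) (t : T)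
    (q : ℝ × (Phase 0 × Phase (m + (k + 1)))) (v w : Phase m) :
    omegaStd (fS C E V t q v) (fS C E V t q w) = omegaStd v w := by
  change omegaStd (fderiv ℝ (V t) _ (incW m (k + 1) _)) (fderiv ℝ (V t) _ (incW m (k + 1) _)) = _
  rw [hV.symp]
  exact hE.symp t q.2.2 v w

lemma dg_inj (C : ℝ) {R : ℝ} {E V : T → Phase (m + (k + 1)) → Phase m}
    (hE : VFam m (k + 1) R E) (hV : VFam m (k + 1) R V) (t : T) (s : ℝ) (d : Phase 0)
    (x : Phase (m + (k + 1))) : Injective (dg C E V t (s, (d, x))) := by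
  refine (injective_iff_map_eq_zero _).2 fun u hu => ?_
  have h1 := prK_dg C hE.cf hV.cf t s d x u
  rw [hu, map_zero] at h1
  have h2 := eq_incW_of_prK h1.symm
  rw [h2, dg_incW C hE.cf hV.cf] at hu
  have h3 : fS C E V t (s, (d, x)) (prW m (k + 1) u) = 0 := by
    have := congrArg (prW m (k + 1)) hu
    rwa [prW_incW, map_zero] at this
  have h4 : prW m (k + 1) u = 0 := by
    apply eq_zero_of_omegaStd
    intro v
    rw [← fS_symp C hE hV t (s, (d, x)), h3, omegaStd_zero_left]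
  rw [h2, h4, map_zero]

lemma forms (hsc : St_scale2) (hG : St_htameG) {R : ℝ} {E V : T → Phase (m + (k + 1)) → Phase m}
    (hE : VFam m (k + 1) R E) (hV : VFam m (k + 1) R V)
    {Ξ Ξ₂ : T → Phase (m + (k + 1)) → Phase (m + (k + 1))} (h1 : CF Ξ) (h2 : CF Ξ₂) {a : ℝ}
    (ha1 : ∀ t x, ‖fderiv ℝ (Ξ t) x‖ ≤ a) (ha2 : ∀ t x, ‖fderiv ℝ (Ξ₂ t) x‖ ≤ a)
    (hB1 : ∀ t x, HTame m (k + 1) (fun u v => omegaStd (fderiv ℝ (Ξ t) x u) (fderiv ℝ (Ξ t) x v)))
    (hB2 : ∀ t x, HTame m (k + 1)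
      (fun u v => omegaStd (fderiv ℝ (Ξ₂ t) x u) (fderiv ℝ (Ξ₂ t) x v)))
    (t : T) (s : ℝ) (hs : s ∈ Icc (0 : ℝ) 1) (d : Phase 0) (x : Phase (m + (k + 1))) :
    HTame m (k + 1) (fun u v => vform (beta (4 * a ^ 4) E V Ξ Ξ₂ t) s d x u v) ∧
      ∀ u, (∀ v, vform (beta (4 * a ^ 4) E V Ξ Ξ₂ t) s d x u v = 0) → u = 0 := by
  set C : ℝ := 4 * a ^ 4 with hC
  obtain ⟨z, hz⟩ : ∃ z, z = RET.sL m (k + 1) (mus C s) (gmap C E V t (s, (d, x))) := ⟨_, rfl⟩
  obtain ⟨b1, b2⟩ := hsc m (k + 1) (fderiv ℝ (Ξ t) z) (fderiv ℝ (Ξ₂ t) z) a (ha1 t z) (ha2 t z)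
    (hB1 t z) (hB2 t z) (1 - s) (mus C s) (by linarith [hs.2]) (by linarith [hs.1])
    (mus_pos _ _) (mus_ineq C s)
  have key : ∀ u v, vform (beta C E V Ξ Ξ₂ t) s d x u v = _ :=
    fun u v => vform_beta C hE.cf hV.cf h1 h2 t s d x u v
  rw [← hz] at key
  constructor
  · have h3 := hG m (k + 1) _ (dg C E V t (s, (d, x))) (fS C E V t (s, (d, x))) b1
      (fun u => prK_dg C hE.cf hV.cf t s d x u) (fun w => dg_incW C hE.cf hV.cf t s d x w)
      (fun v w => fS_symp C hE hV t (s, (d, x)) v w)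
    have h4 : (fun u v => vform (beta C E V Ξ Ξ₂ t) s d x u v) = _ :=
      funext fun u => funext fun v => key u v
    rw [h4]
    exact h3
  · intro u hu
    set e := cleOfInjective (dg C E V t (s, (d, x))) (dg_inj C hE hV t s d x) with he
    have h3 : ∀ y, dg C E V t (s, (d, x)) (e.symm y) = y := fun y => e.apply_symm_apply y
    have h4 := b2 (dg C E V t (s, (d, x)) u) fun y => by
      have h5 := hu (e.symm y)
      rw [key, h3] at h5
      exact h5
    exact dg_inj C hE hV t s d x (by rw [h4, map_zero])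

/-! ### Regions -/

/-- The family of one-forms, with the derivative of the change of coordinates. -/
lemma beta_eq (C : ℝ) {E V : T → Phase (m + (k + 1)) → Phase m} (hE : CF E) (hV : CF V)
    (Ξ Ξ₂ : T → Phase (m + (k + 1)) → Phase (m + (k + 1))) (t : T) (s : ℝ) (d : Phase 0)
    (x : Phase (m + (k + 1))) :
    beta C E V Ξ Ξ₂ t (s, (d, x)) = RET.bet (fun w => gmap C E V t (s, (d, w))) x +
      (s • RET.bet (Ξ t) (RET.sL m (k + 1) (mus C s) (gmap C E V t (s, (d, x)))) +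
        (1 - s) • RET.bet (Ξ₂ t) (RET.sL m (k + 1) (mus C s) (gmap C E V t (s, (d, x))))).comp
      ((RET.sL m (k + 1) (mus C s)).comp (fderiv ℝ (fun w => gmap C E V t (s, (d, w))) x)) := by
  rw [beta, dg_eq C hE hV]
  rfl

lemma beta_zero (C : ℝ) {E V : T → Phase (m + (k + 1)) → Phase m} (hE : CF E) (hV : CF V)
    {Ξ Ξ₂ : T → Phase (m + (k + 1)) → Phase (m + (k + 1))} {t : T} {s : ℝ} {d : Phase 0}
    {x : Phase (m + (k + 1))} (h0 : ∀ᶠ w in 𝓝 x, gmap C E V t (s, (d, w)) = w)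
    (h1 : Ξ t =ᶠ[𝓝 (RET.sL m (k + 1) (mus C s) x)] fun y => y)
    (h2 : Ξ₂ t =ᶠ[𝓝 (RET.sL m (k + 1) (mus C s) x)] fun y => y) :
    beta C E V Ξ Ξ₂ t (s, (d, x)) = 0 := by
  rw [beta_eq C hE hV, RET.bet_eq_zero h0, h0.self_of_nhds, RET.bet_eq_zero h1,
    RET.bet_eq_zero h2]
  simp

section trivia

variable {R' : ℝ} {F : T → Phase (m + (k + 1)) → Phase (k + 1)}
  {Ξ Θ : T → Phase (m + (k + 1)) → Phase (m + (k + 1))} {E V : T → Phase (m + (k + 1)) → Phase m}

lemma V_eq (hVE : ∀ t p, V t (mapW m (k + 1) (E t) p) = prW m (k + 1) p) {t : T}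
    {b : Phase (k + 1)} {w : Phase m} (h : E t (mkB m (k + 1) b w) = w) :
    V t (mkB m (k + 1) b w) = w := by
  have h1 := hVE t (mkB m (k + 1) b w)
  rwa [mapW, h, prK_mkB, prW_mkB] at h1

lemma gmap_id_of (hVE : ∀ t p, V t (mapW m (k + 1) (E t) p) = prW m (k + 1) p) {C s : ℝ} {t : T}
    {d : Phase 0} {x : Phase (m + (k + 1))} (h1 : E t x = prW m (k + 1) x)
    (h2 : E t (mkB m (k + 1) (nu C (s, (d, x)) • prK m (k + 1) x) (prW m (k + 1) x)) =
      prW m (k + 1) x) : gmap C E V t (s, (d, x)) = x := by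
  change mkB m (k + 1) (prK m (k + 1) x)
    (V t (mkB m (k + 1) (nu C (s, (d, x)) • prK m (k + 1) x) (E t x))) = x
  rw [h1, V_eq hVE h2, mkB_eta]

lemma gmap_id_nu (hVE : ∀ t p, V t (mapW m (k + 1) (E t) p) = prW m (k + 1) p) {C s : ℝ} {t : T}
    {d : Phase 0} {x : Phase (m + (k + 1))} (h : nu C (s, (d, x)) = 1) :
    gmap C E V t (s, (d, x)) = x := by
  change mkB m (k + 1) (prK m (k + 1) x)
    (V t (mkB m (k + 1) (nu C (s, (d, x)) • prK m (k + 1) x) (E t x))) = x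
  have h1 := hVE t x
  rw [mapW] at h1
  rw [h, one_smul, h1, mkB_eta]

lemma sideB_mkB_smul (c : ℝ) (x : Phase (m + (k + 1))) (w : Phase m) :
    sideB (mkB m (k + 1) (c • prK m (k + 1) x) w) = c • sideB x := by
  rw [sideB, yB_mkB, prK_mkB, sideB, smul_sub, smul_smul]
  rfl

/-- The region where everything is standard. -/
def Out (A : ℝ) (x : Phase (m + (k + 1))) : Prop :=
  A < ‖prW m (k + 1) x‖ ∨ A < ‖sideB x‖ ∨ yB x < -A

lemma isOpen_out (A : ℝ) : IsOpen {x : Phase (m + (k + 1)) | Out A x} :=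
  (isOpen_lt continuous_const (prW m (k + 1)).continuous.norm).union
    ((isOpen_lt continuous_const continuous_sideB.norm).union
      (isOpen_lt continuous_yB continuous_const))

lemma gmap_out (hTr : Trivia m k R' F Ξ Θ E)
    (hVE : ∀ t p, V t (mapW m (k + 1) (E t) p) = prW m (k + 1) p) {C s A : ℝ} (hC : 0 ≤ C)
    (hs : s ∈ Icc (0 : ℝ) 1) (hA : R' ≤ A) (hA0 : 0 ≤ A) (hA2 : R' ≤ mus C s * A) (t : T)
    (d : Phase 0) {x : Phase (m + (k + 1))} (h : Out A x) : gmap C E V t (s, (d, x)) = x := by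
  rcases h with h | h | h
  · refine gmap_id_of hVE (hTr.fam.std t x (hA.trans_lt h)) ?_
    rw [hTr.fam.std t _ (by rw [prW_mkB]; exact hA.trans_lt h), prW_mkB]
  · refine gmap_id_of hVE (hTr.exit_side t x (hA.trans h.le)) ?_
    rw [hTr.exit_side t _ ?_, prW_mkB]
    have h1 := nu_ge (d := d) (x := x) hC hs
    have h2 := mus_pos C s
    rw [sideB_mkB_smul, norm_smul, Real.norm_of_nonneg (h2.le.trans h1)]
    calc R' ≤ mus C s * A := hA2
      _ ≤ nu C (s, (d, x)) * ‖sideB x‖ :=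
          mul_le_mul h1 h.le hA0 (h2.le.trans h1)
  · exact gmap_id_nu hVE (nu_of_nonpos (by linarith))

lemma Xi_out (hTr : Trivia m k R' F Ξ Θ E) (t : T) {z : Phase (m + (k + 1))} (h : Out R' z) :
    Ξ t =ᶠ[𝓝 z] fun y => y := by
  filter_upwards [(isOpen_out R').mem_nhds h] with y hy
  rcases hy with hy | hy | hy
  · exact hTr.side t y (Or.inr hy.le)
  · exact hTr.side t y (Or.inl hy.le)
  · exact hTr.left t y hy.le

lemma Xi2_far {Ξ₂ : T → Phase (m + (k + 1)) → Phase (m + (k + 1))} {R₃ : ℝ}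
    (hfar : ∀ t p, R₃ < ‖p‖ → Ξ₂ t p = Ξ t p) (t : T) {z : Phase (m + (k + 1))}
    (h : R₃ < ‖z‖) : Ξ₂ t =ᶠ[𝓝 z] Ξ t := by
  filter_upwards [(isOpen_lt continuous_const continuous_norm).mem_nhds h] with y hy
  exact hfar t y hy

lemma out_sL {C s A B : ℝ} (hA2 : B ≤ mus C s * A) (hBA : B ≤ A) {x : Phase (m + (k + 1))}
    (h : Out A x) : Out B (RET.sL m (k + 1) (mus C s) x) := by
  have hμ := mus_pos C s
  rcases h with h | h | h
  · refine Or.inl ?_
    rw [prW_sL]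
    exact hBA.trans_lt h
  · refine Or.inr (Or.inl ?_)
    rw [sideB_sL, norm_smul, Real.norm_of_nonneg hμ.le]
    exact hA2.trans_lt (mul_lt_mul_of_pos_left h hμ)
  · refine Or.inr (Or.inr ?_)
    rw [yB_sL]
    have := mul_lt_mul_of_pos_left h hμ
    linarith

lemma norm_of_out {A : ℝ} {x : Phase (m + (k + 1))} (h : Out A x) : A < ‖x‖ := by
  rcases h with h | h | h
  · exact h.trans_le (norm_prW_le x)
  · exact h.trans_le (norm_sideB_le x)
  · have h1 := abs_yB_le x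
    have h2 := neg_abs_le (yB x)
    linarith

lemma beta_out (hTr : Trivia m k R' F Ξ Θ E) (hV : CF V)
    (hVE : ∀ t p, V t (mapW m (k + 1) (E t) p) = prW m (k + 1) p)
    {Ξ₂ : T → Phase (m + (k + 1)) → Phase (m + (k + 1))} {R₃ : ℝ}
    (hfar : ∀ t p, R₃ < ‖p‖ → Ξ₂ t p = Ξ t p) {C s A : ℝ} (hC : 0 ≤ C)
    (hs : s ∈ Icc (0 : ℝ) 1) (hA : R' ≤ A) (hA0 : 0 ≤ A) (hA2 : R' ≤ mus C s * A)
    (hA3 : R₃ ≤ A) (hA4 : R₃ ≤ mus C s * A) (t : T)
    (d : Phase 0) {x : Phase (m + (k + 1))} (h : Out A x) :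
    beta C E V Ξ Ξ₂ t (s, (d, x)) = 0 := by
  have h1 := Xi_out hTr t (out_sL hA2 hA h)
  have h2 := Xi2_far hfar t (norm_of_out (out_sL hA4 hA3 h))
  refine beta_zero C hTr.fam.cf hV ?_ h1 (h2.trans h1)
  filter_upwards [(isOpen_out A).mem_nhds h] with y hy
  exact gmap_out hTr hVE hC hs hA hA0 hA2 t d hy

lemma beta_right (hTr : Trivia m k R' F Ξ Θ E) (hV : CF V)
    (hEV : ∀ t p, E t (mapW m (k + 1) (V t) p) = prW m (k + 1) p)
    {Ξ₂ : T → Phase (m + (k + 1)) → Phase (m + (k + 1))} {R₃ : ℝ}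
    (hfar : ∀ t p, R₃ < ‖p‖ → Ξ₂ t p = Ξ t p) {C s A : ℝ} (hA1 : 1 ≤ A)
    (hA2 : R' ≤ mus C s * A) (hA4 : R₃ ≤ mus C s * A) (t : T)
    (d : Phase 0) {x : Phase (m + (k + 1))} (h : A < yB x) (u : Phase (m + (k + 1))) :
    beta C E V Ξ Ξ₂ t (s, (d, x)) u = 1 / 2 * (omegaStd (prK m (k + 1) x) (prK m (k + 1) u) +
      omegaStd (E t x) (fderiv ℝ (E t) x u) - omegaStd x u) := by
  have hμ := mus_pos C s
  set μ := mus C s with hμd
  set S := RET.sL m (k + 1) μ with hS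
  set g : Phase (m + (k + 1)) → Phase (m + (k + 1)) := fun w => gmap C E V t (s, (d, w)) with hg
  have cg : ContDiff ℝ ∞ g := ((CF_gmap C hTr.fam.cf hV).contDiff t).comp
    (contDiff_const.prodMk (contDiff_const.prodMk contDiff_id))
  have hgd : HasFDerivAt g (fderiv ℝ g x) x := (cg.differentiable (by simp) x).hasFDerivAt
  have hyS : ∀ y, A < yB y → R' < yB (S (g y)) ∧ R₃ < yB (S (g y)) := by
    intro y hy
    have h1 : yB (g y) = yB y := by
      rw [yB, prK_gmap]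
      rfl
    have h2 := mul_lt_mul_of_pos_left hy hμ
    rw [yB_sL, h1]
    exact ⟨hA2.trans_lt h2, hA4.trans_lt h2⟩
  have hXS : ∀ y, A < yB y → Ξ t (S (g y)) = mkB m (k + 1) (μ • prK m (k + 1) y) (E t y) := by
    intro y hy
    have e1 : nu C (s, (d, y)) = μ := nu_of_one_le (hA1.trans hy.le)
    have e2 : S (g y) = mapW m (k + 1) (V t) (mkB m (k + 1) (μ • prK m (k + 1) y) (E t y)) := by
      apply ext_split
      · rw [prK_sL, prK_mapW, prK_mkB, prK_gmap]
      · rw [prW_sL, prW_mapW]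
        change prW m (k + 1) (mkB m (k + 1) (prK m (k + 1) y)
          (V t (mkB m (k + 1) (nu C (s, (d, y)) • prK m (k + 1) y) (E t y)))) = _
        rw [prW_mkB, e1]
    have e3 : E t (S (g y)) = E t y := by rw [e2, hEV, prW_mkB]
    rw [hTr.right t _ (hyS y hy).1.le, e3, prK_sL, prK_gmap]
  have hX : HasFDerivAt (fun y => Ξ t (S (g y)))
      ((fderiv ℝ (Ξ t) (S (g x))).comp (S.comp (fderiv ℝ g x))) x :=
    ((hTr.cfX.differentiable t (S (g x))).hasFDerivAt).comp x (S.hasFDerivAt.comp x hgd)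
  have hX' : HasFDerivAt (fun y => mkB m (k + 1) (μ • prK m (k + 1) y) (E t y))
      ((incK m (k + 1)).comp (μ • prK m (k + 1)) + (incW m (k + 1)).comp (fderiv ℝ (E t) x)) x :=
    hasFDerivAt_mkB ((prK m (k + 1)).hasFDerivAt.const_smul μ)
      (hTr.fam.cf.differentiable t x).hasFDerivAt
  have hev : (fun y => Ξ t (S (g y))) =ᶠ[𝓝 x]
      fun y => mkB m (k + 1) (μ • prK m (k + 1) y) (E t y) := by
    filter_upwards [(isOpen_lt continuous_const continuous_yB).mem_nhds h] with y hy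
    exact hXS y hy
  have hD : fderiv ℝ (Ξ t) (S (g x)) (S (fderiv ℝ g x u)) =
      mkB m (k + 1) (μ • prK m (k + 1) u) (fderiv ℝ (E t) x u) := by
    have h1 := hX.unique (hX'.congr_of_eventuallyEq hev)
    exact congrArg (fun L : Phase (m + (k + 1)) →L[ℝ] Phase (m + (k + 1)) => L u) h1
  have hb2 : RET.bet (Ξ₂ t) (S (g x)) = RET.bet (Ξ t) (S (g x)) := by
    refine bet_congr (Xi2_far hfar t ?_)
    exact (hyS x h).2.trans_le ((le_abs_self _).trans (abs_yB_le _))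
  have hb : s • RET.bet (Ξ t) (S (g x)) + (1 - s) • RET.bet (Ξ₂ t) (S (g x)) =
      RET.bet (Ξ t) (S (g x)) := by
    rw [hb2, ← add_smul]
    simp
  have e0 : beta C E V Ξ Ξ₂ t (s, (d, x)) u = RET.bet g x u +
      RET.bet (Ξ t) (S (g x)) (S (fderiv ℝ g x u)) := by
    rw [beta_eq C hTr.fam.cf hV]
    change RET.bet g x u + (s • RET.bet (Ξ t) (S (g x)) + (1 - s) • RET.bet (Ξ₂ t) (S (g x)))
      (S (fderiv ℝ g x u)) = _
    rw [hb]
  have e1 : prK m (k + 1) (fderiv ℝ g x u) = prK m (k + 1) u := by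
    rw [← dg_eq C hTr.fam.cf hV]
    exact prK_dg C hTr.fam.cf hV t s d x u
  have e2 : prK m (k + 1) (g x) = prK m (k + 1) x := prK_gmap C E V t (s, (d, x))
  have f1 : omegaStd (g x) (fderiv ℝ g x u) = omegaStd (prK m (k + 1) x) (prK m (k + 1) u) +
      omegaStd (prW m (k + 1) (g x)) (prW m (k + 1) (fderiv ℝ g x u)) := by
    rw [omegaStd_split', e1, e2]
  have f2 : omegaStd (S (g x)) (S (fderiv ℝ g x u)) =
      omegaStd (μ • prK m (k + 1) x) (μ • prK m (k + 1) u) +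
      omegaStd (prW m (k + 1) (g x)) (prW m (k + 1) (fderiv ℝ g x u)) := by
    rw [omegaStd_split', prK_sL, prK_sL, prW_sL, prW_sL, e1, e2]
  have f3 : omegaStd (Ξ t (S (g x))) (fderiv ℝ (Ξ t) (S (g x)) (S (fderiv ℝ g x u))) =
      omegaStd (μ • prK m (k + 1) x) (μ • prK m (k + 1) u) +
      omegaStd (E t x) (fderiv ℝ (E t) x u) := by
    rw [hD, hXS x h, omegaStd_split', prK_mkB, prK_mkB, prW_mkB, prW_mkB]
  rw [e0, bet_apply, bet_apply, f1, f2, f3]
  ring

/-! ### The bounds -/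

lemma bound_X [CompactSpace T] (hTr : Trivia m k R' F Ξ Θ E) :
    ∃ a : ℝ, 0 ≤ a ∧ ∀ t x, ‖fderiv ℝ (Ξ t) x‖ ≤ a := by
  have hK : IsCompact ((univ : Set T) ×ˢ
      Metric.closedBall (0 : Phase (m + (k + 1))) (3 * R' + 1)) :=
    isCompact_univ.prod (isCompact_closedBall 0 _)
  obtain ⟨c, hc⟩ := hK.exists_bound_of_continuousOn
    (f := fun p : T × Phase (m + (k + 1)) => fderiv ℝ (Ξ p.1) p.2)
    hTr.cfX.fderiv.continuous.continuousOn
  have hball : ∀ t x, ‖sideB x‖ ≤ R' → |yB x| ≤ R' + 1 → ‖prW m (k + 1) x‖ ≤ R' →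
      ‖fderiv ℝ (Ξ t) x‖ ≤ c := by
    intro t x h1 h2 h3
    refine hc (t, x) ⟨mem_univ _, ?_⟩
    rw [mem_closedBall_zero_iff]
    have := norm_le_side x
    linarith
  refine ⟨max c 1, le_max_of_le_right zero_le_one, fun t x => ?_⟩
  by_cases h : Out R' x
  · refine le_max_of_le_right ?_
    rw [(Xi_out hTr t h).fderiv_eq, fderiv_fun_id]
    exact ContinuousLinearMap.norm_id_le
  · simp only [Out, not_or, not_lt] at h
    obtain ⟨h1, h2, h3⟩ := h
    refine le_max_of_le_left ?_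
    rcases le_or_gt (yB x) R' with h4 | h4
    · refine hball t x h2 ?_ h1
      rw [abs_le]
      have := hTr.pos
      constructor <;> linarith
    · obtain ⟨c', hc'⟩ : ∃ c', c' = R' + 1 - yB x := ⟨_, rfl⟩
      have hev : Ξ t =ᶠ[𝓝 x] fun y => Ξ t (y + c' • incK m (k + 1) (eB k)) -
          c' • incK m (k + 1) (eB k) := by
        have h5 : {y : Phase (m + (k + 1)) | R' < yB y} ∈ 𝓝 x :=
          (isOpen_lt continuous_const continuous_yB).mem_nhds h4
        have h6 : {y : Phase (m + (k + 1)) | yB x - 1 < yB y} ∈ 𝓝 x :=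
          (isOpen_lt continuous_const continuous_yB).mem_nhds (by
            change yB x - 1 < yB x
            linarith)
        filter_upwards [h5, h6] with y h5 h6
        have h7 : R' ≤ yB (y + c' • incK m (k + 1) (eB k)) := by
          rw [yB_add_smul, hc']
          have h6' : yB x - 1 < yB y := h6
          linarith
        have h5' : R' < yB y := h5
        rw [hTr.right t _ h5'.le, hTr.right t _ h7, hTr.exit, prK_add_smul, ← mkB_add_incK,
          map_smul, add_sub_cancel_right]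
      have hd : HasFDerivAt (fun y => Ξ t (y + c' • incK m (k + 1) (eB k)) -
          c' • incK m (k + 1) (eB k))
          (fderiv ℝ (Ξ t) (x + c' • incK m (k + 1) (eB k))) x := by
        have h5 := (hTr.cfX.differentiable t (x + c' • incK m (k + 1) (eB k))).hasFDerivAt
        have h6 : HasFDerivAt (fun y : Phase (m + (k + 1)) => y + c' • incK m (k + 1) (eB k))
            (ContinuousLinearMap.id ℝ _) x := (hasFDerivAt_id x).add_const _
        have h7 := h5.comp x h6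
        rw [ContinuousLinearMap.comp_id] at h7
        exact h7.sub_const _
      rw [hev.fderiv_eq, hd.fderiv]
      refine hball t _ ?_ ?_ ?_
      · rwa [sideB_add_smul]
      · rw [yB_add_smul, hc', abs_of_nonneg (by have := hTr.pos; linarith)]
        linarith
      · rwa [prW_add_smul]

lemma bound_X2 [CompactSpace T] (hTr : Trivia m k R' F Ξ Θ E)
    {Ξ₂ : T → Phase (m + (k + 1)) → Phase (m + (k + 1))} (h2 : CF Ξ₂) {R₃ : ℝ}
    (hfar : ∀ t p, R₃ < ‖p‖ → Ξ₂ t p = Ξ t p) :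
    ∃ a : ℝ, ∀ t x, ‖fderiv ℝ (Ξ₂ t) x‖ ≤ a := by
  obtain ⟨a, ha0, ha⟩ := bound_X hTr
  obtain ⟨c, hc0, hc⟩ := Pool.Agent.H50.Susp.exists_bound_of_support
    (G := fun t x => fderiv ℝ (Ξ₂ t) x - fderiv ℝ (Ξ t) x) (R := R₃)
    (h2.fderiv.continuous.sub hTr.cfX.fderiv.continuous) (fun t x hx => by
      rw [(Xi2_far hfar t hx).fderiv_eq, sub_self])
  refine ⟨c + a, fun t x => ?_⟩
  have h1 : fderiv ℝ (Ξ₂ t) x = (fderiv ℝ (Ξ₂ t) x - fderiv ℝ (Ξ t) x) + fderiv ℝ (Ξ t) x :=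
    (sub_add_cancel _ _).symm
  rw [h1]
  exact (norm_add_le _ _).trans (add_le_add (hc t x) (ha t x))

end trivia

/-- The pulled back form is horizontally tame. -/
lemma hTame_of (hht : St_htame) (hjt : St_jposTame) {G : Phase (m + (k + 1)) → Phase (k + 1)}
    {X Y : Phase (m + (k + 1)) → Phase (m + (k + 1))} (hG : JPos G) (hX : Differentiable ℝ X)
    (hY : Differentiable ℝ Y) (h1 : ∀ p, Y (X p) = p) (h2 : ∀ p, X (Y p) = p)
    (hl : ∀ p, G (X p) = prK m (k + 1) p)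
    (hs : ∀ p (v w : Phase m), omegaStd (fderiv ℝ X p (incW m (k + 1) v))
      (fderiv ℝ X p (incW m (k + 1) w)) = omegaStd v w) (x : Phase (m + (k + 1))) :
    HTame m (k + 1) (fun u v => omegaStd (fderiv ℝ X x u) (fderiv ℝ X x v)) := by
  have hXY : ∀ v, fderiv ℝ X x (fderiv ℝ Y (X x) v) = v := by
    intro v
    have h3 := RET.fderiv_inv hX hY h2 (X x) v
    rwa [h1] at h3
  have hGY : G = fun q => prK m (k + 1) (Y q) := by
    funext q
    rw [← hl, h2]
  have hGd : HasFDerivAt G ((prK m (k + 1)).comp (fderiv ℝ Y (X x))) (X x) := by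
    rw [hGY]
    exact (prK m (k + 1)).hasFDerivAt.comp (X x) (hY (X x)).hasFDerivAt
  have hGdiff : Differentiable ℝ G := by
    rw [hGY]
    exact (prK m (k + 1)).differentiable.comp hY
  refine (hht m (k + 1) (fderiv ℝ X x) (fderiv ℝ Y (X x))
    (fun v => RET.fderiv_inv hY hX h1 x v) hXY).2 ⟨?_, ?_⟩
  · have h5 := (hjt (m + (k + 1)) (k + 1) G hGdiff).1 hG (X x)
    rwa [hGd.fderiv] at h5
  · intro u v hu hv
    have h3 := hs x (prW m (k + 1) (fderiv ℝ Y (X x) u)) (prW m (k + 1) (fderiv ℝ Y (X x) v))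
    rw [← eq_incW_of_prK hu, ← eq_incW_of_prK hv, hXY, hXY] at h3
    exact h3.symm

end OR2

/-- **OR2** -/
theorem thm_beta (hvInv : St_vInv) (hht : St_htame) (hjt : St_jposTame) (hsc : St_scale2)
    (hG : St_htameG) : St_beta := by
  intro m k T _ _ T0 R R' R₃ F F' Ξ Θ Ξ₂ Θ₂ E hR hF hF' hRR hTr hX2 hT2 hl2 hr2 hlies hsymp
    hfar hT0
  obtain ⟨V, hV, hVE, hEV⟩ := hvInv m (k + 1) T R' E hTr.fam
  obtain ⟨a₁, ha₁, hb₁⟩ := OR2.bound_X hTr
  obtain ⟨a₂, hb₂⟩ := OR2.bound_X2 hTr hX2 hfar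
  obtain ⟨a, ha⟩ : ∃ a, a = max a₁ a₂ := ⟨_, rfl⟩
  have hC : (0 : ℝ) ≤ 4 * a ^ 4 := by positivity
  have hform := OR2.forms hsc hG hTr.fam hV hTr.cfX hX2 (a := a)
    (fun t x => (hb₁ t x).trans (ha ▸ le_max_left _ _))
    (fun t x => (hb₂ t x).trans (ha ▸ le_max_right _ _))
    (fun t x => OR2.hTame_of hht hjt (hF.pos t) (hTr.cfX.differentiable t)
      (hTr.cfT.differentiable t) (hTr.left_inv t) (hTr.right_inv t) (hTr.lies t) (hTr.symp t) x)
    (fun t x => OR2.hTame_of hht hjt (hF'.pos t) (hX2.differentiable t)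
      (hT2.differentiable t) (hl2 t) (hr2 t) (hlies t) (hsymp t) x)
  set C : ℝ := 4 * a ^ 4 with hCd
  obtain ⟨M, hM⟩ : ∃ M, M = max (max R' R₃) 1 := ⟨_, rfl⟩
  have hM1 : R' ≤ M := hM ▸ (le_max_left _ _).trans (le_max_left _ _)
  have hM2 : R₃ ≤ M := hM ▸ (le_max_right _ _).trans (le_max_left _ _)
  have hM3 : 1 ≤ M := hM ▸ le_max_right _ _
  obtain ⟨A, hA⟩ : ∃ A, A = M * Real.exp (C / 2) := ⟨_, rfl⟩
  have hMA : M ≤ A := by
    have h1 : 1 ≤ Real.exp (C / 2) := Real.one_le_exp (by positivity)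
    rw [hA]
    nlinarith
  have hμA : ∀ s ∈ Icc (0 : ℝ) 1, M ≤ OR2.mus C s * A := by
    intro s hs
    have h1 := OR2.mus_ge hC hs
    have h2 : Real.exp (-(C / 2)) * A = M := by
      rw [hA, mul_left_comm, ← Real.exp_add]
      simp
    calc M = Real.exp (-(C / 2)) * A := h2.symm
      _ ≤ OR2.mus C s * A := mul_le_mul_of_nonneg_right h1 (by linarith)
  have hid : ∀ (s : ℝ) (t : T) (d : Phase 0), OR2.mus C s = 1 →
      ∀ x, OR2.gmap C E V t (s, (d, x)) = x := fun s t d h x =>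
    OR2.gmap_id_nu hVE (OR2.nu_of_mus h)
  have hdid : ∀ (s : ℝ) (t : T) (d : Phase 0), OR2.mus C s = 1 →
      ∀ x u, OR2.dg C E V t (s, (d, x)) u = u := by
    intro s t d h x u
    rw [OR2.dg_eq C hTr.fam.cf hV.cf]
    have h1 : (fun w => OR2.gmap C E V t (s, (d, w))) = fun w => w := funext (hid s t d h)
    rw [h1, fderiv_fun_id]
    rfl
  have hs1 : ∀ x : Phase (m + (k + 1)), sclB m (k + 1) 1 x = x := fun x => by
    rw [sclB, one_smul, mkB_eta]
  refine ⟨3 * A, OR2.beta C E V Ξ Ξ₂, by linarith,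
    OR2.CF_beta C hTr.fam.cf hV.cf hTr.cfX hX2, ?_, hform, ?_, ?_, ?_⟩
  · intro t s hs d x hx
    have h0 : (0 : ℝ) ∈ Icc (0 : ℝ) 1 := ⟨le_rfl, zero_le_one⟩
    have hcase : OR2.Out A x ∨ A < yB x := by
      by_contra hcon
      simp only [OR2.Out, not_or, not_lt] at hcon
      obtain ⟨⟨h1, h2, h3⟩, h4⟩ := hcon
      have h5 := norm_le_side x
      have h6 : |yB x| ≤ A := abs_le.2 ⟨h3, h4⟩
      linarith
    rcases hcase with h | h
    · rw [OR2.beta_out hTr hV.cf hVE hfar hC hs (hM1.trans hMA) (by linarith)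
        (hM1.trans (hμA s hs)) (hM2.trans hMA) (hM2.trans (hμA s hs)) t d h,
        OR2.beta_out hTr hV.cf hVE hfar hC h0 (hM1.trans hMA) (by linarith)
        (hM1.trans (hμA 0 h0)) (hM2.trans hMA) (hM2.trans (hμA 0 h0)) t d h]
    · ext u
      rw [OR2.beta_right hTr hV.cf hEV hfar (hM3.trans hMA) (hM1.trans (hμA s hs))
        (hM2.trans (hμA s hs)) t d h u,
        OR2.beta_right hTr hV.cf hEV hfar (hM3.trans hMA) (hM1.trans (hμA 0 h0))
        (hM2.trans (hμA 0 h0)) t d h u]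
  · intro t d x u v
    rw [OR2.vform_beta C hTr.fam.cf hV.cf hTr.cfX hX2, hdid 0 t d (OR2.mus_zero C),
      hdid 0 t d (OR2.mus_zero C), hid 0 t d (OR2.mus_zero C), OR2.mus_zero, RET.sL_apply,
      hs1, hs1, hs1]
    ring
  · intro t d x u v
    rw [OR2.vform_beta C hTr.fam.cf hV.cf hTr.cfX hX2, hdid 1 t d (OR2.mus_one C),
      hdid 1 t d (OR2.mus_one C), hid 1 t d (OR2.mus_one C), OR2.mus_one, RET.sL_apply,
      hs1, hs1, hs1]
    ring
  · intro t ht s d x
    have hX := hTr.triv t fun p => (hT0 t ht p).1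
    have hz : ∀ s, OR2.beta C E V Ξ Ξ₂ t (s, (d, x)) = 0 := by
      intro s
      refine OR2.beta_zero C hTr.fam.cf hV.cf ?_ (Filter.Eventually.of_forall fun p => (hX p).1)
        (Filter.Eventually.of_forall fun p => (hT0 t ht p).2)
      exact Filter.Eventually.of_forall fun w =>
        OR2.gmap_id_of hVE (hX w).2 (by rw [(hX _).2, prW_mkB])
    rw [hz, hz]

end Pool.Agent.KRW
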