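import Mathlib
import Pool.Agent.KRW.St
import Pool.Agent.KRW.Split
import Pool.Agent.H50.Susp.Moll
import Pool.Agent.H50.Susp.RightEnd
import Pool.Agent.Helper42.Susp.RealiseMain

/-!
# SMO: relative smoothing in the base variables

`thm_smo` uses the statement `St_fmo` (Moser's method in the fibres) as a hypothesis.
-/

set_option maxSynthPendingDepth 3

open scoped ContDiff Topology unitInterval
open Set Function TopologicalSpace Filter

namespace Pool.Agent.KRW

open Pool.Agent.Helper17 Pool.Agent.Helper42 Pool.Agent.H42.Hull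

/-- A cutoff function: `1` for `y ≤ a`, `0` for `y ≥ a + 1`. -/
noncomputable def smoCut (a y : ℝ) : ℝ := Real.smoothTransition (a + 1 - y)

lemma contDiff_smoCut (a : ℝ) : ContDiff ℝ ∞ (smoCut a) :=
  Real.smoothTransition.contDiff.comp (contDiff_const.sub contDiff_id)

lemma smoCut_one {a y : ℝ} (h : y ≤ a) : smoCut a y = 1 :=
  Real.smoothTransition.one_of_one_le (by linarith)

lemma smoCut_zero {a y : ℝ} (h : a + 1 ≤ y) : smoCut a y = 0 :=
  Real.smoothTransition.zero_of_nonpos (by linarith)

lemma smoCut_nonneg (a y : ℝ) : 0 ≤ smoCut a y := Real.smoothTransition.nonneg _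

lemma smoCut_le_one (a y : ℝ) : smoCut a y ≤ 1 := Real.smoothTransition.le_one _

/-- A uniform bound for the derivatives of a family which is standard outside of a compact set of
parameters. -/
lemma smo_bound {n : ℕ} {D : Type} [NormedAddCommGroup D] [NormedSpace ℝ D]
    [FiniteDimensional ℝ D] {T : Type} [TopologicalSpace T] [CompactSpace T]
    {u : T × (D × ℝ) → Phase n → Phase n} {E : T → D × Phase n → Phase n} {A ρ : ℝ}
    (hu : CF u) (hw : ∀ q w, ρ < ‖w‖ → u q w = w)
    (hd : ∀ t d y w, A < ‖d‖ → u (t, (d, y)) w = w)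
    (hy0 : ∀ t d y w, y ≤ 0 → u (t, (d, y)) w = w)
    (hy1 : ∀ t d y w, 1 ≤ y → u (t, (d, y)) w = E t (d, w)) :
    ∃ M : ℝ, 0 ≤ M ∧ ∀ q w, ‖fderiv ℝ (fun w => u q w - w) w‖ ≤ M := by
  have : ProperSpace D := FiniteDimensional.proper_real D
  set S : Set D := Metric.closedBall (0 : D) A with hS
  have : CompactSpace S := isCompact_iff_compactSpace.1 (isCompact_closedBall _ _)
  have hc : Continuous (fun q : T × (S × I) => (q.1, ((q.2.1 : D), (q.2.2 : ℝ)))) :=
    continuous_fst.prodMk ((continuous_subtype_val.comp (continuous_fst.comp continuous_snd)).prodMk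
      (continuous_subtype_val.comp (continuous_snd.comp continuous_snd)))
  obtain ⟨M, hM0, hM⟩ := exists_bound_fderiv
    (F := fun (q : T × (S × I)) (w : Phase n) => u (q.1, ((q.2.1 : D), (q.2.2 : ℝ))) w - w)
    ((hu.base hc).sub (CF.const contDiff_id)) (isCompact_closedBall (0 : Phase n) ρ)
    (fun q w hwK => by
      beta_reduce
      rw [mem_closedBall_zero_iff, not_le] at hwK
      rw [hw _ w hwK, sub_self])
  refine ⟨M, hM0, ?_⟩
  rintro ⟨t, d, y⟩ w
  have hid : (∀ w, u (t, (d, y)) w = w) → ‖fderiv ℝ (fun w => u (t, (d, y)) w - w) w‖ ≤ M := by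
    intro h
    have h1 : (fun w => u (t, (d, y)) w - w) = fun _ => 0 := by
      funext w
      rw [h w, sub_self]
    rw [h1]
    simpa using hM0
  by_cases hdA : A < ‖d‖
  · exact hid fun w => hd t d y w hdA
  · rw [not_lt] at hdA
    have hdS : d ∈ S := by
      rw [hS, mem_closedBall_zero_iff]
      exact hdA
    by_cases hyy : y ≤ 0
    · exact hid fun w => hy0 t d y w hyy
    · rw [not_le] at hyy
      by_cases hy11 : y ≤ 1
      · exact hM (t, (⟨d, hdS⟩, ⟨y, hyy.le, hy11⟩)) w
      · rw [not_le] at hy11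
        have h2 : (fun w => u (t, (d, y)) w - w) = fun w => u (t, (d, 1)) w - w := by
          funext w
          rw [hy1 t d y w hy11.le, hy1 t d 1 w le_rfl]
        rw [h2]
        exact hM (t, (⟨d, hdS⟩, 1)) w

theorem thm_smo (hfmo : St_fmo) : St_smo := by
  intro n D _ _ _ T _ _ u E A ρ hA hρ hu hE hw hEw hsymp hd hy0 hy1
  obtain ⟨M, hM0, hM⟩ := smo_bound hu hw hd hy0 hy1
  have hEu : ∀ t d w, E t (d, w) = u (t, (d, 1)) w := fun t d w => (hy1 t d 1 w le_rfl).symm
  set ε : ℝ := 1 / (8 * (1 + M)) with hε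
  have hε0 : 0 < ε := by positivity
  -- the family which is smoothed
  set u1 : T × (D × ℝ) → Phase n → Phase n := fun q w => smoCut 4 q.2.2 • (u q w - w) with hu1
  have hu1CF : CF u1 := by
    have h1 : CF (fun (q : T × (D × ℝ)) (_ : Phase n) => smoCut 4 q.2.2) :=
      CF.param ((contDiff_smoCut 4).continuous.comp (continuous_snd.comp continuous_snd))
    exact h1.smul (hu.sub (CF.const contDiff_id))
  obtain ⟨m, hm, hmb, hmw, hmd, hml⟩ := Pool.Agent.H50.Susp.exists_moll hu1CF (A := max A 5)
    (ρ := ρ) (by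
      rintro t ⟨d, y⟩ w hb
      rw [Prod.norm_mk, lt_max_iff] at hb
      rcases hb with hb | hb
      · have h4 : A < ‖d‖ := (le_max_left _ _).trans_lt hb
        simp only [hu1, hd t d y w h4, sub_self, smul_zero]
      · have h4 : 5 < |y| := (le_max_right _ _).trans_lt hb
        rw [lt_abs] at h4
        rcases h4 with h4 | h4
        · simp only [hu1, smoCut_zero (a := 4) (show (4 : ℝ) + 1 ≤ y by linarith), zero_smul]
        · simp only [hu1, hy0 t d y w (by linarith), sub_self, smul_zero]) (by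
      intro t b w hw'
      simp only [hu1, hw _ w hw', sub_self, smul_zero]) hε0
  -- the displacement
  set c : T → (D × ℝ) × Phase n → Phase n := fun t q =>
    smoCut 2 q.1.2 • m t q + (1 - smoCut 2 q.1.2) • (E t (q.1.1, q.2) - q.2) with hc
  have hcCF : CF c := by
    have h1 : CF (fun (_ : T) (q : (D × ℝ) × Phase n) => smoCut 2 q.1.2) :=
      CF.const ((contDiff_smoCut 2).comp (contDiff_snd.comp contDiff_fst))
    have h2 : CF (fun (_ : T) (q : (D × ℝ) × Phase n) => 1 - smoCut 2 q.1.2) :=
      CF.const (contDiff_const.sub ((contDiff_smoCut 2).comp (contDiff_snd.comp contDiff_fst)))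
    have h3 : CF (fun (_ : T) (q : (D × ℝ) × Phase n) => ((q.1.1, q.2) : D × Phase n)) :=
      CF.const ((contDiff_fst.comp contDiff_fst).prodMk contDiff_snd)
    exact (h1.smul hm).add (h2.smul ((hE.comp h3).sub (CF.const contDiff_snd)))
  have hcw : ∀ t d w, ρ < ‖w‖ → c t (d, w) = 0 := by
    rintro t ⟨d, y⟩ w hwρ
    simp only [hc, hmw t (d, y) w hwρ, hEw t d w hwρ, sub_self, smul_zero, add_zero]
  have hc0 : ∀ t (d : D) (y : ℝ), (max A 5 + 1 < ‖d‖ ∨ y < -(max A 5 + 1)) →
      ∀ w, c t ((d, y), w) = 0 := by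
    intro t d y h w
    have hA5 : A ≤ max A 5 := le_max_left _ _
    have h55 : (5 : ℝ) ≤ max A 5 := le_max_right _ _
    rcases h with h | h
    · have h1 : m t ((d, y), w) = 0 := hmb t (d, y) w (h.trans_le (norm_fst_le ((d, y) : D × ℝ)))
      have h2 : E t (d, w) = w := by
        rw [hEu, hd t d 1 w (by linarith)]
      simp only [hc, h1, h2, sub_self, smul_zero, add_zero]
    · have h1 : m t ((d, y), w) = 0 := by
        refine hmb t (d, y) w (lt_of_lt_of_le ?_ (norm_snd_le ((d, y) : D × ℝ)))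
        rw [Real.norm_eq_abs, lt_abs]
        right
        linarith
      simp only [hc, h1, smoCut_one (a := 2) (show y ≤ 2 by linarith), sub_self, zero_smul,
        smul_zero, add_zero]
  have hc1 : ∀ t (d : D) (y : ℝ), 3 ≤ y → ∀ w, c t ((d, y), w) = E t (d, w) - w := by
    intro t d y hy w
    simp only [hc, smoCut_zero (a := 2) (show (2 : ℝ) + 1 ≤ y by linarith), zero_smul, sub_zero,
      one_smul, zero_add]
  have hcA : ∀ d : D × ℝ, max A 5 + 1 < ‖d‖ → smoCut 3 d.2 = 0 ∨ ∀ t w, c t (d, w) = 0 := by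
    rintro ⟨d, y⟩ h
    rw [Prod.norm_mk, lt_max_iff] at h
    have h55 : (5 : ℝ) ≤ max A 5 := le_max_right _ _
    rcases h with h | h
    · exact Or.inr fun t w => hc0 t d y (Or.inl h) w
    · rw [Real.norm_eq_abs, lt_abs] at h
      rcases h with h | h
      · left
        exact smoCut_zero (a := 3) (by
          show (3 : ℝ) + 1 ≤ y
          linarith)
      · exact Or.inr fun t w => hc0 t d y (Or.inr (by linarith)) w
  -- derivatives
  have hEd : ∀ t d, Differentiable ℝ (fun w => E t (d, w)) := by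
    intro t d
    have h1 : (fun w => E t (d, w)) = u (t, (d, 1)) := by
      funext w
      exact hEu t d w
    rw [h1]
    exact hu.differentiable _
  have hmdiff : ∀ t (b : D × ℝ), Differentiable ℝ (fun w => m t (b, w)) := fun t b =>
    (Pool.Agent.H50.Susp.CF_partial hm).differentiable (t, b)
  have hEf : ∀ t d w, fderiv ℝ (fun w => E t (d, w)) w = fderiv ℝ (u (t, (d, 1))) w := by
    intro t d w
    have h1 : (fun w => E t (d, w)) = u (t, (d, 1)) := by
      funext w
      exact hEu t d w
    rw [h1]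
  have hcf : ∀ t (d : D) (y : ℝ) w, fderiv ℝ (fun w' => c t ((d, y), w')) w =
      smoCut 2 y • fderiv ℝ (fun w' => m t ((d, y), w')) w +
        (1 - smoCut 2 y) • (fderiv ℝ (fun w' => E t (d, w')) w -
          ContinuousLinearMap.id ℝ (Phase n)) := by
    intro t d y w
    have d1 : HasFDerivAt (fun w' => m t ((d, y), w')) (fderiv ℝ (fun w' => m t ((d, y), w')) w) w :=
      (hmdiff t (d, y) w).hasFDerivAt
    have d2 : HasFDerivAt (fun w' => E t (d, w') - w') (fderiv ℝ (fun w' => E t (d, w')) w -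
        ContinuousLinearMap.id ℝ (Phase n)) w := (hEd t d w).hasFDerivAt.sub (hasFDerivAt_id w)
    exact ((d1.const_smul (smoCut 2 y)).add (d2.const_smul (1 - smoCut 2 y))).fderiv
  have huf : ∀ q w, fderiv ℝ (fun w' => u q w' - w') w = fderiv ℝ (u q) w -
      ContinuousLinearMap.id ℝ (Phase n) := fun q w =>
    ((hu.differentiable q w).hasFDerivAt.sub (hasFDerivAt_id w)).fderiv
  have hclose : ∀ t (d : D) (y : ℝ) w, ‖fderiv ℝ (fun w' => c t ((d, y), w')) w -
      fderiv ℝ (fun w' => u (t, (d, y)) w' - w') w‖ ≤ ε := by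
    intro t d y w
    rw [hcf, huf]
    set Mm := fderiv ℝ (fun w' => m t ((d, y), w')) w with hMm
    set U := fderiv ℝ (u (t, (d, y))) w with hU
    set Em := fderiv ℝ (fun w' => E t (d, w')) w with hEm
    have e1 : (1 - smoCut 2 y) • Em = (1 - smoCut 2 y) • U := by
      by_cases hy2 : y ≤ 2
      · rw [smoCut_one hy2, sub_self, zero_smul, zero_smul]
      · rw [not_le] at hy2
        have h1 : (fun w' => E t (d, w')) = u (t, (d, y)) := by
          funext w'
          rw [hy1 t d y w' (by linarith)]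
        rw [hEm, hU, h1]
    have e2 : smoCut 2 y • Mm + (1 - smoCut 2 y) • (Em - ContinuousLinearMap.id ℝ (Phase n)) -
        (U - ContinuousLinearMap.id ℝ (Phase n)) =
        smoCut 2 y • (Mm - (U - ContinuousLinearMap.id ℝ (Phase n))) := by
      rw [smul_sub (1 - smoCut 2 y), e1]
      simp only [smul_sub, sub_smul, one_smul]
      abel
    rw [e2, norm_smul, Real.norm_of_nonneg (smoCut_nonneg 2 y)]
    by_cases hy3 : 3 ≤ y
    · rw [smoCut_zero (a := 2) (by linarith), zero_mul]
      exact hε0.le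
    · rw [not_le] at hy3
      have h1 := hmd t (d, y) w
      have h2 : fderiv ℝ (u1 (t, (d, y))) w = U - ContinuousLinearMap.id ℝ (Phase n) := by
        have h3 : u1 (t, (d, y)) = fun w' => u (t, (d, y)) w' - w' := by
          funext w'
          simp only [hu1, smoCut_one (a := 4) (show y ≤ 4 by linarith), one_smul]
        rw [h3, huf]
      rw [h2] at h1
      calc smoCut 2 y * ‖Mm - (U - ContinuousLinearMap.id ℝ (Phase n))‖ ≤ 1 * ε :=
            mul_le_mul (smoCut_le_one 2 y) h1 (norm_nonneg _) zero_le_one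
        _ = ε := one_mul _
  have hadm : ∀ t (d : D × ℝ) w, Admissible (ContinuousLinearMap.id ℝ (Phase n) +
      fderiv ℝ (fun w' => c t (d, w')) w) := by
    rintro t ⟨d, y⟩ w
    refine admissible_of_norm_sub hM0 hε (B := fderiv ℝ (fun w' => u (t, (d, y)) w' - w') w) ?_
      (hM (t, (d, y)) w) (hclose t d y w)
    intro α β
    rw [huf]
    have h1 : ∀ γ : Phase n, γ + (fderiv ℝ (u (t, (d, y))) w -
        ContinuousLinearMap.id ℝ (Phase n)) γ = fderiv ℝ (u (t, (d, y))) w γ := by
      intro γ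
      rw [ContinuousLinearMap.sub_apply]
      simp
    rw [h1, h1]
    exact hsymp (t, (d, y)) w α β
  have hκ1 : ∀ (t : T) (d : D × ℝ), smoCut 3 d.2 ≠ 1 → ∀ w a b,
      omegaStd (a + fderiv ℝ (fun w' => c t (d, w')) w a)
      (b + fderiv ℝ (fun w' => c t (d, w')) w b) = omegaStd a b := by
    rintro t ⟨d, y⟩ hκ w a b
    have hy3 : 3 ≤ y := by
      by_contra h
      rw [not_le] at h
      exact hκ (smoCut_one h.le)
    have h1 : ∀ γ : Phase n, γ + fderiv ℝ (fun w' => c t ((d, y), w')) w γ =
        fderiv ℝ (u (t, (d, 1))) w γ := by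
      intro γ
      rw [hcf, smoCut_zero (a := 2) (by linarith), hEf, zero_smul, sub_zero, one_smul, zero_add,
        ContinuousLinearMap.sub_apply]
      simp
    rw [h1, h1]
    exact hsymp (t, (d, 1)) w a b
  obtain ⟨V, hV, hV0, hVw, -, hVs, hVκ, hVc⟩ := hfmo n (D × ℝ) T c (fun d => smoCut 3 d.2)
    (max A 5 + 1) ρ hcCF ((contDiff_smoCut 3).comp contDiff_snd)
    (fun d => ⟨smoCut_nonneg _ _, smoCut_le_one _ _⟩) hcw hcA hadm hκ1
  have h55 : (5 : ℝ) ≤ max A 5 := le_max_right _ _
  refine ⟨max A 5 + 2, fun t q => V (t, 1) q, by linarith, ?_, ?_, ?_, ?_, ?_, ?_⟩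
  · exact hV.base (continuous_id.prodMk continuous_const)
  · intro t q w hwρ
    exact hVw (t, 1) q w hwρ
  · intro t q w a b
    exact hVs t q w a b
  · intro t d y w h
    refine hVc t 1 (d, y) (hc0 t d y ?_) w
    rcases h with h | h
    · left
      linarith
    · right
      linarith
  · intro t d y w hy
    have h1 := hVκ t 1 (d, y) (smoCut_zero (a := 3) (by
      show (3 : ℝ) + 1 ≤ y
      linarith)) w
    show V (t, 1) ((d, y), w) = E t (d, w)
    rw [h1, hc1 t d y (by linarith) w]
    abel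
  · rintro t hid ⟨d, y⟩ w
    refine hVc t 1 (d, y) ?_ w
    intro w'
    have h1 : m t ((d, y), w') = 0 := by
      apply hml
      intro b' _
      simp only [hu1, hid b' w', sub_self, smul_zero]
    have h2 : E t (d, w') = w' := by
      rw [hEu, hid]
    simp only [hc, h1, h2, sub_self, smul_zero, add_zero]

end Pool.Agent.KRW
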